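import Pool.Agent.EMS.StmtsD

/-!
# BAS: the initial case of `PI` (one uniform point of `U 0`)
-/

set_option autoImplicit false

open Finset
open scoped BigOperators Classical

namespace Pool.Agent.EMS

theorem bas_proof : Stmt_BAS := by
  intro κ R J D0 lo hi r N U _ hN _ _ _ _ hU0
  have hvol : 0 < vol N := by
    unfold vol
    refine Finset.prod_pos fun l _ => ?_
    have := hN l
    exact_mod_cast this
  have hcpos : 0 < ((U 0).card : ℝ) :=
    lt_of_lt_of_le (mul_pos (Real.exp_pos _) hvol) hU0
  have hsum : ∑ _ω : {x // x ∈ U 0}, (((U 0).card : ℝ))⁻¹ = 1 := by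
    rw [Finset.sum_const, Finset.card_univ, Fintype.card_coe, nsmul_eq_mul,
      mul_inv_cancel₀ hcpos.ne']
  have hinv : (((U 0).card : ℝ))⁻¹ ≤ Real.exp D0 / vol N := by
    rw [inv_le_comm₀ hcpos (div_pos (Real.exp_pos _) hvol), inv_div]
    rw [Real.exp_neg] at hU0
    calc vol N / Real.exp D0 = (Real.exp D0)⁻¹ * vol N := by rw [div_eq_mul_inv, mul_comm]
      _ ≤ _ := hU0
  refine ⟨{x // x ∈ U 0}, inferInstance, fun _ => (((U 0).card : ℝ))⁻¹,
    fun ω t => if t = 0 then {ω.1} else ∅, 1, fun _ => (inv_pos.mpr hcpos).le, hsum, ?_, ?_, ?_⟩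
  · intro ω t
    by_cases ht : t = 0
    · subst ht
      simp only [if_true]
      refine ⟨?_, ?_, ?_⟩
      · rw [Finset.singleton_subset_iff]
        exact ω.2
      · intro x hx y hy
        rw [Finset.mem_singleton] at hx hy
        subst hx; subst hy
        intro l
        simp
      · intro x hx y hy hxy
        rw [Finset.mem_singleton] at hx hy
        exact absurd (hx.trans hy.symm) hxy
    · simp only [if_neg ht]
      refine ⟨Finset.empty_subset _, ?_, ?_⟩
      · intro x hx
        simp at hx
      · intro x hx
        simp at hx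
  · intro t x
    have hs : (0 : ℝ) ≤ Real.exp D0 / vol N := (div_pos (Real.exp_pos _) hvol).le
    by_cases ht : t = 0
    · subst ht
      simp only [if_true, Finset.mem_singleton]
      by_cases hx : x ∈ U 0
      · rw [Finset.sum_eq_single (⟨x, hx⟩ : {x // x ∈ U 0})]
        · simpa using hinv
        · intro ω _ hω
          rw [if_neg]
          intro h
          exact hω (Subtype.ext h.symm)
        · intro h
          exact absurd (Finset.mem_univ _) h
      · rw [Finset.sum_eq_zero]
        · exact hs
        · intro ω _
          rw [if_neg]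
          intro h
          exact hx (h ▸ ω.2)
    · simp only [if_neg ht, Finset.notMem_empty, if_false, Finset.sum_const_zero]
      exact hs
  · simp only [Finset.range_one, Finset.sum_singleton, if_true, Finset.card_singleton,
      Nat.cast_one, mul_one]
    exact hsum.ge

end Pool.Agent.EMS
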