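import Pool.Agent.EMS.StmtsC

/-!
# EMS, module BGP: Bohr sets contain large proper GAPs (from CLZ)
-/

set_option autoImplicit false

open Finset
open scoped BigOperators Classical Pointwise

namespace Pool.Agent.EMS

namespace BGP_

/-- the lattice -/
noncomputable def Lat (N : ℕ) (Γ : Finset (ZMod N)) (ρ : ℝ) :
    Submodule ℤ (EuclideanSpace ℝ (Option Γ)) where
  carrier := {y | ∃ (x : ℤ) (z : Γ → ℤ), y none = 4 * (x : ℝ) / N ∧
    ∀ g : Γ, y (some g) = ((g.1.val : ℝ) * x + N * z g) / (ρ * N)}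
  add_mem' := by
    rintro a b ⟨x, z, h1, h2⟩ ⟨x', z', h1', h2'⟩
    refine ⟨x + x', z + z', ?_, ?_⟩
    · rw [PiLp.add_apply, h1, h1']; push_cast; ring
    · intro g
      rw [PiLp.add_apply, h2, h2']; simp only [Pi.add_apply]; push_cast; ring
  zero_mem' := ⟨0, 0, by simp, by simp⟩
  smul_mem' := by
    rintro c a ⟨x, z, h1, h2⟩
    refine ⟨c * x, c • z, ?_, ?_⟩
    · rw [PiLp.smul_apply, h1, zsmul_eq_mul]; push_cast; ring
    · intro g
      rw [PiLp.smul_apply, h2, zsmul_eq_mul]; simp only [Pi.smul_apply, smul_eq_mul]; push_cast; ring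

lemma mem_Lat {N : ℕ} {Γ : Finset (ZMod N)} {ρ : ℝ} {y : EuclideanSpace ℝ (Option Γ)} :
    y ∈ Lat N Γ ρ ↔ ∃ (x : ℤ) (z : Γ → ℤ), y none = 4 * (x : ℝ) / N ∧
    ∀ g : Γ, y (some g) = ((g.1.val : ℝ) * x + N * z g) / (ρ * N) := Iff.rfl

lemma coord_le {ι : Type} [Fintype ι] (y : EuclideanSpace ℝ ι) (i : ι) : |y i| ≤ ‖y‖ := by
  have := PiLp.norm_apply_le y i
  rwa [Real.norm_eq_abs] at this

lemma comb_apply {ι : Type} [Fintype ι] {n : ℕ} (c : Fin n → ℝ) (b : Fin n → EuclideanSpace ℝ ι)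
    (i : ι) : (∑ l, c l • b l) i = ∑ l, c l * b l i := by
  have : ∀ s : Finset (Fin n), (∑ l ∈ s, c l • b l) i = ∑ l ∈ s, c l * b l i := by
    intro s
    induction s using Finset.induction_on with
    | empty => simp
    | insert a s ha ih => rw [Finset.sum_insert ha, Finset.sum_insert ha, PiLp.add_apply, ih,
        PiLp.smul_apply, smul_eq_mul]
  exact this _

lemma small_zero {N : ℕ} [NeZero N] {Γ : Finset (ZMod N)} {ρ : ℝ} (h0 : 0 < ρ) (h1 : ρ ≤ 1 / 4)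
    {y : EuclideanSpace ℝ (Option Γ)} (hy : y ∈ Lat N Γ ρ) (hn : ‖y‖ < 4 / N) : y = 0 := by
  obtain ⟨x, z, hx, hz⟩ := mem_Lat.1 hy
  have hN : (0 : ℝ) < N := by exact_mod_cast Nat.pos_of_ne_zero (NeZero.ne N)
  have hN1 : (1 : ℝ) ≤ N := by exact_mod_cast Nat.pos_of_ne_zero (NeZero.ne N)
  have e1 := coord_le y none
  rw [hx, abs_div, abs_mul, abs_of_pos hN, abs_of_pos (by norm_num : (0:ℝ) < 4)] at e1
  have e2 : |(x : ℝ)| < 1 := by
    have := lt_of_le_of_lt e1 hn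
    rw [div_lt_div_iff_of_pos_right hN] at this
    linarith
  have ex : x = 0 := by
    have : |x| < 1 := by exact_mod_cast e2
    exact Int.abs_lt_one_iff.1 this
  have ez : ∀ g, z g = 0 := by
    intro g
    have e1 := coord_le y (some g)
    rw [hz, ex] at e1
    have e3 : ((g.1.val : ℝ) * ((0 : ℤ) : ℝ) + N * z g) / (ρ * N) = z g / ρ := by
      push_cast
      field_simp
      ring
    rw [e3, abs_div, abs_of_pos h0] at e1
    have e4 : 4 / (N : ℝ) ≤ 4 := by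
      rw [div_le_iff₀ hN]; linarith
    have e5 : |(z g : ℝ)| / ρ < 4 := by linarith
    rw [div_lt_iff₀ h0] at e5
    have e6 : |(z g : ℝ)| < 1 := by linarith
    have : |z g| < 1 := by exact_mod_cast e6
    exact Int.abs_lt_one_iff.1 this
  ext i
  rcases i with _ | g
  · rw [hx, ex]; simp
  · rw [hz, ex, ez]; simp

lemma discrete {N : ℕ} [NeZero N] {Γ : Finset (ZMod N)} {ρ : ℝ} (h0 : 0 < ρ) (h1 : ρ ≤ 1 / 4) :
    DiscreteTopology (Lat N Γ ρ) := by
  have hN : (0 : ℝ) < N := by exact_mod_cast Nat.pos_of_ne_zero (NeZero.ne N)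
  rw [discreteTopology_iff_isOpen_singleton_zero]
  rw [Metric.isOpen_singleton_iff]
  refine ⟨4 / N, by positivity, ?_⟩
  intro y hy
  rw [dist_zero_right] at hy
  have := small_zero h0 h1 y.2 hy
  exact Subtype.ext this

lemma mem_bohr {N : ℕ} [NeZero N] {Γ : Finset (ZMod N)} {ρ : ℝ} (X : ℤ) (Z : Γ → ℤ)
    (h : ∀ g : Γ, |(g.1.val : ℝ) * X + N * Z g| ≤ ρ * N) : (X : ZMod N) ∈ Bohr Γ ρ := by
  have hN : (0 : ℝ) < N := by exact_mod_cast Nat.pos_of_ne_zero (NeZero.ne N)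
  intro g hg
  refine ⟨-((g.val : ℤ) * (X / N) + Z ⟨g, hg⟩), ?_⟩
  have h1 : (((X : ZMod N).val : ℤ)) = X % N := ZMod.val_intCast X
  have h2 : (((X : ZMod N).val : ℝ)) = ((X % N : ℤ) : ℝ) := by
    rw [← h1]; simp
  have h3 : ((X % N : ℤ) : ℝ) = X - N * ((X / N : ℤ) : ℝ) := by
    rw [Int.emod_def]; push_cast; ring
  rw [h2, h3]
  have h4 : (g.val : ℝ) * ((X : ℝ) - N * ((X / N : ℤ) : ℝ)) / N -
      ((-((g.val : ℤ) * (X / N) + Z ⟨g, hg⟩) : ℤ) : ℝ) =
      ((g.val : ℝ) * X + N * Z ⟨g, hg⟩) / N := by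
    push_cast
    field_simp
    ring
  rw [h4, abs_div, abs_of_pos hN, div_le_iff₀ hN]
  exact h ⟨g, hg⟩

lemma eq_zero {N : ℕ} [NeZero N] {Γ : Finset (ZMod N)} {ρ : ℝ} (h1 : ρ ≤ 1 / 4)
    (X : ℤ) (Z : Γ → ℤ) (hX : |(X : ℝ)| ≤ N / 4)
    (h : ∀ g : Γ, |(g.1.val : ℝ) * X + N * Z g| ≤ ρ * N) (h0 : (X : ZMod N) = 0) :
    X = 0 ∧ ∀ g, Z g = 0 := by
  have hN : (0 : ℝ) < N := by exact_mod_cast Nat.pos_of_ne_zero (NeZero.ne N)
  have hX0 : X = 0 := by
    have h2 : (N : ℤ) ∣ X := (ZMod.intCast_zmod_eq_zero_iff_dvd X N).1 h0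
    refine Int.eq_zero_of_abs_lt_dvd h2 ?_
    have : |(X : ℝ)| < N := by linarith
    exact_mod_cast this
  refine ⟨hX0, fun g => ?_⟩
  have := h g
  rw [hX0] at this
  push_cast at this
  rw [mul_zero, zero_add, abs_mul, abs_of_pos hN] at this
  have h3 : |(Z g : ℝ)| < 1 := by
    by_contra hc
    push Not at hc
    nlinarith
  have h4 : |Z g| < 1 := by exact_mod_cast h3
  exact Int.abs_lt_one_iff.1 h4

/-- the point of the lattice with given integer data -/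
noncomputable def pt {N : ℕ} (Γ : Finset (ZMod N)) (ρ : ℝ) (X : ℤ) (Z : Γ → ℤ) :
    EuclideanSpace ℝ (Option Γ) :=
  WithLp.toLp 2 fun i => match i with
    | none => 4 * (X : ℝ) / N
    | some g => ((g.1.val : ℝ) * X + N * Z g) / (ρ * N)

lemma pt_mem {N : ℕ} (Γ : Finset (ZMod N)) (ρ : ℝ) (X : ℤ) (Z : Γ → ℤ) :
    pt Γ ρ X Z ∈ Lat N Γ ρ := ⟨X, Z, rfl, fun _ => rfl⟩

lemma pt_norm {N : ℕ} [NeZero N] (Γ : Finset (ZMod N)) {ρ : ℝ} (h0 : 0 < ρ) (X : ℤ) (Z : Γ → ℤ)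
    (hX : |(X : ℝ)| ≤ N / 4)
    (h : ∀ g : Γ, |(g.1.val : ℝ) * X + N * Z g| ≤ ρ * N) :
    ‖pt Γ ρ X Z‖ ≤ Real.sqrt (Γ.card + 1) := by
  have hN : (0 : ℝ) < N := by exact_mod_cast Nat.pos_of_ne_zero (NeZero.ne N)
  rw [EuclideanSpace.norm_eq]
  apply Real.sqrt_le_sqrt
  have h1 : ∀ i, ‖(pt Γ ρ X Z) i‖ ^ 2 ≤ 1 := by
    intro i
    rw [Real.norm_eq_abs, sq_le_one_iff_abs_le_one, abs_abs]
    rcases i with _ | g
    · change |4 * (X : ℝ) / N| ≤ 1
      rw [abs_div, abs_mul, abs_of_pos hN, abs_of_pos (by norm_num : (0:ℝ) < 4), div_le_one hN]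
      linarith
    · change |((g.1.val : ℝ) * X + N * Z g) / (ρ * N)| ≤ 1
      rw [abs_div, abs_of_pos (by positivity : 0 < ρ * N), div_le_one (by positivity)]
      exact h g
  calc ∑ i, ‖(pt Γ ρ X Z) i‖ ^ 2 ≤ ∑ i : Option Γ, (1 : ℝ) := Finset.sum_le_sum fun i _ => h1 i
    _ = Γ.card + 1 := by simp

/-- many lattice points in the cube -/
lemma many {N : ℕ} [NeZero N] (Γ : Finset (ZMod N)) {ρ : ℝ} (h0 : 0 < ρ) (h1 : ρ ≤ 1 / 4) :
    ∃ (F : Finset ℕ) (x0 : ℕ) (Z : ℕ → Γ → ℤ), (N : ℝ) / 4 * (ρ / 2) ^ Γ.card ≤ F.card ∧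
      ∀ x ∈ F, |(((x : ℤ) - x0 : ℤ) : ℝ)| ≤ N / 4 ∧
        ∀ g : Γ, |(g.1.val : ℝ) * (((x : ℤ) - x0 : ℤ) : ℝ) + N * Z x g| ≤ ρ * N := by
  have hN : (0 : ℝ) < N := by exact_mod_cast Nat.pos_of_ne_zero (NeZero.ne N)
  have hNn : 0 < N := Nat.pos_of_ne_zero (NeZero.ne N)
  set K : ℕ := ⌈1 / ρ⌉₊ with hK
  have hK1 : (1 : ℝ) / ρ ≤ K := Nat.le_ceil _
  have hK2 : (K : ℝ) ≤ 2 / ρ := by
    have a1 : (K : ℝ) < 1 / ρ + 1 := Nat.ceil_lt_add_one (by positivity)
    have a2 : (1 : ℝ) ≤ 1 / ρ := by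
      rw [le_div_iff₀ h0]; linarith
    have a3 : 2 / ρ = 1 / ρ + 1 / ρ := by ring
    linarith
  have hKpos : 0 < K := by
    have : (0 : ℝ) < K := lt_of_lt_of_le (by positivity) hK1
    exact_mod_cast this
  let S : Finset ℕ := Finset.range (N / 4 + 1)
  let f : ℕ → (Γ → ℕ) := fun x g => ⌊((g.1.val * x % N : ℕ) : ℝ) / (ρ * N)⌋₊
  let T : Finset (Γ → ℕ) := Fintype.piFinset fun _ => Finset.range K
  have hT : T.card = K ^ Γ.card := by
    simp [T]
  have hmap : ∀ x ∈ S, f x ∈ T := by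
    intro x _
    rw [Fintype.mem_piFinset]
    intro g
    rw [Finset.mem_range]
    rw [Nat.floor_lt (by positivity)]
    refine lt_of_lt_of_le ?_ hK1
    rw [div_lt_div_iff₀ (by positivity) h0]
    have : ((g.1.val * x % N : ℕ) : ℝ) < N := by exact_mod_cast Nat.mod_lt _ hNn
    nlinarith
  have hTne : T.Nonempty := ⟨fun _ => 0, by
    rw [Fintype.mem_piFinset]; intro g; rw [Finset.mem_range]; exact hKpos⟩
  have hcount : T.card • ((N : ℝ) / 4 * (ρ / 2) ^ Γ.card) ≤ S.card := by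
    rw [nsmul_eq_mul, hT]
    push_cast
    have e1 : (K : ℝ) ^ Γ.card * ((N : ℝ) / 4 * (ρ / 2) ^ Γ.card) =
        (N : ℝ) / 4 * (K * (ρ / 2)) ^ Γ.card := by
      rw [mul_pow]; ring
    have e2 : (K : ℝ) * (ρ / 2) ≤ 1 := by
      calc (K : ℝ) * (ρ / 2) ≤ 2 / ρ * (ρ / 2) := by
            apply mul_le_mul_of_nonneg_right hK2; positivity
        _ = 1 := by field_simp
    have e3 : ((K : ℝ) * (ρ / 2)) ^ Γ.card ≤ 1 := pow_le_one₀ (by positivity) e2
    have e4 : (N : ℝ) / 4 ≤ S.card := by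
      have : S.card = N / 4 + 1 := by simp [S]
      rw [this]
      have : N < 4 * (N / 4 + 1) := by omega
      have : (N : ℝ) < 4 * ((N / 4 + 1 : ℕ) : ℝ) := by exact_mod_cast this
      linarith
    rw [e1]
    calc (N : ℝ) / 4 * (K * (ρ / 2)) ^ Γ.card ≤ N / 4 * 1 := by
          apply mul_le_mul_of_nonneg_left e3; positivity
      _ ≤ S.card := by rw [mul_one]; exact e4
  obtain ⟨c, _, hc⟩ := Finset.exists_le_card_fiber_of_nsmul_le_card_of_maps_to hmap hTne hcount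
  set F := S.filter fun x => f x = c with hF
  have hFne : F.Nonempty := by
    rw [← Finset.card_pos]
    have : (0 : ℝ) < F.card := lt_of_lt_of_le (by positivity) hc
    exact_mod_cast this
  obtain ⟨x0, hx0⟩ := hFne
  refine ⟨F, x0, fun x g => -(((g.1.val * x / N : ℕ) : ℤ) - ((g.1.val * x0 / N : ℕ) : ℤ)), hc, ?_⟩
  intro x hx
  rw [hF, Finset.mem_filter, Finset.mem_range] at hx hx0
  have r1 : (x : ℝ) ≤ N / 4 := by
    have : 4 * x ≤ N := by omega
    have : 4 * (x : ℝ) ≤ N := by exact_mod_cast this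
    linarith
  have r2 : (x0 : ℝ) ≤ N / 4 := by
    have : 4 * x0 ≤ N := by omega
    have : 4 * (x0 : ℝ) ≤ N := by exact_mod_cast this
    linarith
  have r3 : (0 : ℝ) ≤ x := by positivity
  have r4 : (0 : ℝ) ≤ x0 := by positivity
  constructor
  · push_cast
    rw [abs_le]; constructor <;> linarith
  · intro g
    have m1 : ((g.1.val * x : ℕ) : ℝ) = N * ((g.1.val * x / N : ℕ) : ℝ) +
        ((g.1.val * x % N : ℕ) : ℝ) := by
      exact_mod_cast (Nat.div_add_mod (g.1.val * x) N).symm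
    have m2 : ((g.1.val * x0 : ℕ) : ℝ) = N * ((g.1.val * x0 / N : ℕ) : ℝ) +
        ((g.1.val * x0 % N : ℕ) : ℝ) := by
      exact_mod_cast (Nat.div_add_mod (g.1.val * x0) N).symm
    have m3 : (g.1.val : ℝ) * (((x : ℤ) - x0 : ℤ) : ℝ) +
        N * ((-(((g.1.val * x / N : ℕ) : ℤ) - ((g.1.val * x0 / N : ℕ) : ℤ)) : ℤ) : ℝ) =
        ((g.1.val * x % N : ℕ) : ℝ) - ((g.1.val * x0 % N : ℕ) : ℝ) := by
      generalize (g.1.val * x / N : ℕ) = a1 at m1 ⊢
      generalize (g.1.val * x0 / N : ℕ) = a2 at m2 ⊢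
      generalize (g.1.val * x % N : ℕ) = a3 at m1 ⊢
      generalize (g.1.val * x0 % N : ℕ) = a4 at m2 ⊢
      push_cast at m1 m2 ⊢
      linarith
    rw [m3]
    have m4 : f x g = f x0 g := by rw [hx.2, hx0.2]
    simp only [f] at m4
    have q1 := Nat.floor_le (a := ((g.1.val * x % N : ℕ) : ℝ) / (ρ * N)) (by positivity)
    have q2 := Nat.lt_floor_add_one (((g.1.val * x % N : ℕ) : ℝ) / (ρ * N))
    have q3 := Nat.floor_le (a := ((g.1.val * x0 % N : ℕ) : ℝ) / (ρ * N)) (by positivity)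
    have q4 := Nat.lt_floor_add_one (((g.1.val * x0 % N : ℕ) : ℝ) / (ρ * N))
    rw [m4] at q1 q2
    have q5 : |((g.1.val * x % N : ℕ) : ℝ) / (ρ * N) - ((g.1.val * x0 % N : ℕ) : ℝ) / (ρ * N)| ≤ 1 := by
      rw [abs_le]; constructor <;> linarith
    rw [← sub_div, abs_div, abs_of_pos (by positivity : 0 < ρ * N), div_le_one (by positivity)] at q5
    exact q5

lemma numeric (d : ℕ) :
    (5 * Real.sqrt ((d : ℝ) + 1) * 2 ^ (4 * (d + 1) ^ 2 + 3)) ^ (d + 1)
      ≤ Real.exp (20 * ((d : ℝ) + 1) ^ 3) := by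
  have h1 : Real.sqrt ((d : ℝ) + 1) ≤ 2 ^ ((d + 1) ^ 2) := by
    have : (d : ℝ) + 1 ≤ 2 ^ ((d + 1) ^ 2) := by
      have a1 : d + 1 < 2 ^ (d + 1) := Nat.lt_two_pow_self
      have a2 : 2 ^ (d + 1) ≤ 2 ^ ((d + 1) ^ 2) := Nat.pow_le_pow_right (by norm_num) (by nlinarith)
      have a3 : d + 1 ≤ 2 ^ ((d + 1) ^ 2) := by omega
      exact_mod_cast a3
    rw [Real.sqrt_le_left (by positivity)]
    have a4 : (1 : ℝ) ≤ 2 ^ ((d + 1) ^ 2) := one_le_pow₀ (by norm_num)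
    nlinarith
  have h2 : 5 * Real.sqrt ((d : ℝ) + 1) * 2 ^ (4 * (d + 1) ^ 2 + 3) ≤ 2 ^ (20 * (d + 1) ^ 2) := by
    calc 5 * Real.sqrt ((d : ℝ) + 1) * 2 ^ (4 * (d + 1) ^ 2 + 3)
        ≤ 2 ^ 3 * 2 ^ ((d + 1) ^ 2) * 2 ^ (4 * (d + 1) ^ 2 + 3) := by
          apply mul_le_mul_of_nonneg_right _ (by positivity)
          apply mul_le_mul (by norm_num) h1 (by positivity) (by positivity)
      _ = 2 ^ (3 + (d + 1) ^ 2 + (4 * (d + 1) ^ 2 + 3)) := by rw [← pow_add, ← pow_add]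
      _ ≤ 2 ^ (20 * (d + 1) ^ 2) := by
          apply pow_le_pow_right₀ (by norm_num)
          have : 1 ≤ (d + 1) ^ 2 := Nat.one_le_pow _ _ (Nat.succ_pos d)
          generalize (d + 1) ^ 2 = q at this ⊢
          omega
  calc (5 * Real.sqrt ((d : ℝ) + 1) * 2 ^ (4 * (d + 1) ^ 2 + 3)) ^ (d + 1)
      ≤ (2 ^ (20 * (d + 1) ^ 2)) ^ (d + 1) := by
        apply pow_le_pow_left₀ (by positivity) h2
    _ = 2 ^ (20 * (d + 1) ^ 3) := by rw [← pow_mul]; congr 1; ring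
    _ ≤ (Real.exp 1) ^ (20 * (d + 1) ^ 3) := by
        apply pow_le_pow_left₀ (by norm_num)
        have := Real.add_one_le_exp (1 : ℝ)
        linarith
    _ = Real.exp (20 * ((d : ℝ) + 1) ^ 3) := by
        rw [← Real.exp_nat_mul]; congr 1; push_cast; ring

lemma upper {E : Type} [AddCommGroup E] [Module ℝ E] {n : ℕ} (b : Fin n → E) (M : Fin n → ℕ)
    (Q : ℝ) (hQ : 1 ≤ Q) (F : Finset ℕ) (y : ℕ → E) (hinj : Set.InjOn y F)
    (h : ∀ x ∈ F, ∃ v : Fin n → ℤ, y x = ∑ l, (v l : ℝ) • b l ∧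
      ∀ l, |(v l : ℝ)| ≤ Q * ((M l : ℝ) + 1)) :
    (F.card : ℝ) ≤ (5 * Q) ^ n * ∏ l, (max (M l) 1 : ℕ) := by
  choose! v hv1 hv2 using h
  let B : Fin n → ℕ := fun l => ⌊Q * ((M l : ℝ) + 1)⌋₊
  let T : Finset (Fin n → ℤ) := Fintype.piFinset fun l => Finset.Icc (-(B l : ℤ)) (B l)
  have hmap : ∀ x ∈ F, v x ∈ T := by
    intro x hx
    rw [Fintype.mem_piFinset]
    intro l
    rw [Finset.mem_Icc, ← abs_le]
    have e1 := hv2 x hx l
    have e2 : (((v x l).natAbs : ℕ) : ℝ) ≤ Q * ((M l : ℝ) + 1) := by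
      rw [Nat.cast_natAbs]; push_cast; exact e1
    have e3 : (v x l).natAbs ≤ B l := Nat.le_floor e2
    rw [Int.abs_eq_natAbs]
    exact_mod_cast e3
  have hinj2 : Set.InjOn v (F : Set ℕ) := by
    intro x hx x' hx' hxx
    apply hinj hx hx'
    rw [hv1 x hx, hv1 x' hx', hxx]
  have h1 : F.card ≤ T.card := Finset.card_le_card_of_injOn v hmap hinj2
  have h2 : (T.card : ℝ) ≤ ∏ l, (5 * Q * (max (M l) 1 : ℕ)) := by
    rw [Fintype.card_piFinset, Nat.cast_prod]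
    apply Finset.prod_le_prod
    · intro l _; positivity
    · intro l _
      have a1 : ((Finset.Icc (-(B l : ℤ)) (B l)).card : ℝ) = 2 * (B l : ℝ) + 1 := by
        rw [Int.card_Icc]
        have : ((B l : ℤ) + 1 - -(B l : ℤ)).toNat = 2 * B l + 1 := by omega
        rw [this]; push_cast; ring
      rw [a1]
      have a2 : (B l : ℝ) ≤ Q * ((M l : ℝ) + 1) := Nat.floor_le (by positivity)
      have a3 : (M l : ℝ) ≤ max (M l : ℝ) 1 := le_max_left _ _
      have a4 : (1 : ℝ) ≤ max (M l : ℝ) 1 := le_max_right _ _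
      push_cast
      nlinarith [mul_le_mul hQ a4 (by norm_num) (by linarith)]
  calc (F.card : ℝ) ≤ T.card := by exact_mod_cast h1
    _ ≤ _ := h2
    _ = _ := by rw [Finset.prod_mul_distrib, Finset.prod_const, Finset.card_univ, Fintype.card_fin]; push_cast; rfl

/-- extension by zero -/
lemma sum_ext {V : Type} [AddCommGroup V] {n m : ℕ} (p : Fin n → Prop)
    [DecidablePred p] (e : Fin m ≃ {l : Fin n // p l}) (u : Fin m → ℤ) (f : Fin n → V) :
    ∑ l, (if h : p l then u (e.symm ⟨l, h⟩) else 0) • f l = ∑ i, u i • f (e i) := by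
  rw [← Fintype.sum_subtype_add_sum_subtype p]
  have h2 : ∑ i : {x // ¬ p x}, (if h : p i then u (e.symm ⟨i, h⟩) else 0) • f i = 0 := by
    apply Finset.sum_eq_zero
    intro i _
    rw [dif_neg i.2, zero_smul]
  rw [h2, add_zero, ← Equiv.sum_comp e]
  apply Finset.sum_congr rfl
  intro i _
  rw [dif_pos (e i).2]
  simp

end BGP_

open BGP_ in
theorem bgp_proof (hclz : Stmt_CLZ) : Stmt_BGP := by
  intro N _ Γ ρ h0 h1
  have hN : (0 : ℝ) < N := by exact_mod_cast Nat.pos_of_ne_zero (NeZero.ne N)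
  have hdisc := discrete (N := N) (Γ := Γ) h0 h1
  have key := hclz (EuclideanSpace ℝ (Option Γ)) (Lat N Γ ρ)
  generalize Module.finrank ℤ (Lat N Γ ρ) = n at key
  obtain ⟨b, M, hbL, hlin, hbox, hcov⟩ := key
  have hnd : n ≤ Γ.card + 1 := by
    have := hlin.fintype_card_le_finrank
    simpa using this
  choose X Z hX hZ using fun l => mem_Lat.1 (hbL l)
  -- coordinates of a combination
  have hcomb : ∀ u : Fin n → ℤ, (∀ l, |u l| ≤ 8 * (M l : ℤ)) →
      |((∑ l, u l * X l : ℤ) : ℝ)| ≤ N / 4 ∧ ∀ g : Γ,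
        |(g.1.val : ℝ) * ((∑ l, u l * X l : ℤ) : ℝ) + N * ((∑ l, u l * Z l g : ℤ) : ℝ)| ≤ ρ * N := by
    intro u hu
    have hy := hbox u hu
    constructor
    · have e1 := le_trans (coord_le (∑ l, (u l : ℝ) • b l) none) hy
      have e2 : (∑ l, (u l : ℝ) • b l) none = 4 * ((∑ l, u l * X l : ℤ) : ℝ) / N := by
        rw [comb_apply]
        simp only [hX]
        push_cast
        rw [Finset.mul_sum, Finset.sum_div]
        apply Finset.sum_congr rfl
        intro l _; ring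
      rw [e2, abs_div, abs_mul, abs_of_pos hN, abs_of_pos (by norm_num : (0:ℝ) < 4),
        div_le_one hN] at e1
      linarith
    · intro g
      have e1 := le_trans (coord_le (∑ l, (u l : ℝ) • b l) (some g)) hy
      have e2 : (∑ l, (u l : ℝ) • b l) (some g) = ((g.1.val : ℝ) * ((∑ l, u l * X l : ℤ) : ℝ) +
          N * ((∑ l, u l * Z l g : ℤ) : ℝ)) / (ρ * N) := by
        rw [comb_apply]
        simp only [hZ]
        push_cast
        rw [Finset.mul_sum, Finset.mul_sum, ← Finset.sum_add_distrib, Finset.sum_div]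
        apply Finset.sum_congr rfl
        intro l _; ring
      rw [e2, abs_div, abs_of_pos (by positivity : 0 < ρ * N), div_le_one (by positivity)] at e1
      exact e1
  have hzero : ∀ u : Fin n → ℤ, (∀ l, |u l| ≤ 8 * (M l : ℤ)) →
      ((∑ l, u l * X l : ℤ) : ZMod N) = 0 → u = 0 := by
    intro u hu h
    obtain ⟨c1, c2⟩ := hcomb u hu
    obtain ⟨d1, d2⟩ := eq_zero h1 (∑ l, u l * X l) (fun g => ∑ l, u l * Z l g) c1 c2 h
    have hy0 : ∑ l, (u l : ℝ) • b l = 0 := by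
      ext i
      rcases i with _ | g
      · rw [comb_apply]
        simp only [hX, PiLp.zero_apply]
        have : ∑ l, (u l : ℝ) * (4 * (X l : ℝ) / N) = 4 * ((∑ l, u l * X l : ℤ) : ℝ) / N := by
          push_cast
          rw [Finset.mul_sum, Finset.sum_div]
          apply Finset.sum_congr rfl
          intro l _; ring
        rw [this, d1]; simp
      · rw [comb_apply]
        simp only [hZ, PiLp.zero_apply]
        have : ∑ l, (u l : ℝ) * (((g.1.val : ℝ) * X l + N * Z l g) / (ρ * N)) =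
            ((g.1.val : ℝ) * ((∑ l, u l * X l : ℤ) : ℝ) +
              N * ((∑ l, u l * Z l g : ℤ) : ℝ)) / (ρ * N) := by
          push_cast
          rw [Finset.mul_sum, Finset.mul_sum, ← Finset.sum_add_distrib, Finset.sum_div]
          apply Finset.sum_congr rfl
          intro l _; ring
        rw [this, d1, d2 g]; simp
    have := Fintype.linearIndependent_iff.1 hlin (fun l => (u l : ℝ)) hy0
    funext l
    have := this l
    exact_mod_cast this
  -- reindexing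
  let m := Fintype.card {l : Fin n // 1 ≤ M l}
  let e : Fin m ≃ {l : Fin n // 1 ≤ M l} := (Fintype.equivFin _).symm
  let ext : (Fin m → ℤ) → Fin n → ℤ := fun u l => if h : 1 ≤ M l then u (e.symm ⟨l, h⟩) else 0
  have hext : ∀ u : Fin m → ℤ, (∀ i, |u i| ≤ 8 * (M (e i) : ℤ)) → ∀ l, |ext u l| ≤ 8 * (M l : ℤ) := by
    intro u hu l
    by_cases h : 1 ≤ M l
    · simp only [ext, dif_pos h]
      have := hu (e.symm ⟨l, h⟩)
      simpa using this
    · simp only [ext, dif_neg h]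
      simp
  have hsum : ∀ u : Fin m → ℤ, ∑ i, u i • ((X (e i) : ℤ) : ZMod N) =
      ((∑ l, ext u l * X l : ℤ) : ZMod N) := by
    intro u
    have := sum_ext (fun l => 1 ≤ M l) e u (fun l => ((X l : ℤ) : ZMod N))
    rw [← this, Int.cast_sum]
    apply Finset.sum_congr rfl
    intro l _
    rw [zsmul_eq_mul, Int.cast_mul]
  have hm : m ≤ Γ.card + 1 := by
    have : m ≤ n := by
      have := Fintype.card_subtype_le fun l : Fin n => 1 ≤ M l
      simpa using this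
    omega
  refine ⟨m, fun i => ((X (e i) : ℤ) : ZMod N), fun i => M (e i), hm, fun i => (e i).2, ?_, ?_, ?_⟩
  · intro u hu
    rw [hsum u]
    exact mem_bohr _ _ (hcomb _ (hext u hu)).2
  · intro u hu hs
    rw [hsum u] at hs
    have h2 := hzero _ (hext u hu) hs
    funext i
    have h3 := congrFun h2 (e i).1
    simp only [ext, dif_pos (e i).2] at h3
    simpa using h3
  · -- counting
    obtain ⟨F, x0, W, hF, hW⟩ := many (N := N) Γ h0 h1
    set d := Γ.card with hd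
    set lam := Real.sqrt ((d : ℝ) + 1) with hlam
    have hlam1 : 1 ≤ lam := by
      rw [hlam, Real.one_le_sqrt]
      have : (0 : ℝ) ≤ d := by positivity
      linarith
    let y : ℕ → EuclideanSpace ℝ (Option Γ) := fun x => pt Γ ρ ((x : ℤ) - x0) (W x)
    have hy1 : ∀ x ∈ F, ‖y x‖ ≤ lam := fun x hx =>
      pt_norm Γ h0 _ _ (hW x hx).1 (hW x hx).2
    have hinj : Set.InjOn y (F : Set ℕ) := by
      intro x _ x' _ hxx
      have : (y x) none = (y x') none := by rw [hxx]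
      have h5 : 4 * (((x : ℤ) - x0 : ℤ) : ℝ) / N = 4 * (((x' : ℤ) - x0 : ℤ) : ℝ) / N := this
      rw [div_left_inj' hN.ne'] at h5
      push_cast at h5
      have : (x : ℝ) = x' := by linarith
      exact_mod_cast this
    set Q : ℝ := lam * 2 ^ (4 * n ^ 2 + 3) with hQ
    have hQ1 : 1 ≤ Q := by
      have : (1 : ℝ) ≤ 2 ^ (4 * n ^ 2 + 3) := one_le_pow₀ (by norm_num)
      nlinarith
    have hup := upper b M Q hQ1 F y hinj (fun x hx => by
      obtain ⟨v, hv1, hv2⟩ := hcov lam hlam1 (y x) (pt_mem _ _ _ _) (hy1 x hx)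
      exact ⟨v, hv1, hv2⟩)
    have hprod : (∏ l, ((max (M l) 1 : ℕ) : ℝ)) = ∏ i : Fin m, (M (e i) : ℝ) := by
      rw [← Fintype.prod_subtype_mul_prod_subtype (fun l => 1 ≤ M l)]
      have h2 : ∏ i : {x // ¬ 1 ≤ M x}, ((max (M i) 1 : ℕ) : ℝ) = 1 := by
        apply Finset.prod_eq_one
        intro i _
        have := i.2
        have : M i = 0 := by omega
        rw [this]; simp
      rw [h2, mul_one, ← Equiv.prod_comp e]
      apply Finset.prod_congr rfl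
      intro i _
      rw [max_eq_left (e i).2]
    rw [Nat.cast_prod, hprod] at hup
    set P : ℝ := ∏ i : Fin m, (M (e i) : ℝ) with hP
    have hP1 : 0 ≤ P := by positivity
    have hQn : (5 * Q) ^ n ≤ Real.exp (20 * ((d : ℝ) + 1) ^ 3) := by
      refine le_trans ?_ (numeric d)
      have hQ2 : 5 * Q ≤ 5 * Real.sqrt ((d : ℝ) + 1) * 2 ^ (4 * (d + 1) ^ 2 + 3) := by
        rw [hQ, ← mul_assoc]
        apply mul_le_mul_of_nonneg_left _ (by positivity)
        apply pow_le_pow_right₀ (by norm_num)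
        have : n ^ 2 ≤ (d + 1) ^ 2 := Nat.pow_le_pow_left hnd 2
        omega
      calc (5 * Q) ^ n ≤ (5 * Q) ^ (d + 1) := pow_le_pow_right₀ (by linarith) hnd
        _ ≤ _ := pow_le_pow_left₀ (by positivity) hQ2 _
    have hkey : (N : ℝ) / 4 * (ρ / 2) ^ d ≤ Real.exp (20 * ((d : ℝ) + 1) ^ 3) * P :=
      le_trans hF (le_trans hup (mul_le_mul_of_nonneg_right hQn hP1))
    have hsmall : (ρ / 8) ^ (d + 1) * (N : ℝ) ≤ (N : ℝ) / 4 * (ρ / 2) ^ d := by
      have a1 : (ρ / 8) ^ d ≤ (ρ / 2) ^ d := pow_le_pow_left₀ (by positivity) (by linarith) d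
      have a2 : (0 : ℝ) ≤ (ρ / 8) ^ d := by positivity
      rw [pow_succ]
      calc (ρ / 8) ^ d * (ρ / 8) * N ≤ (ρ / 2) ^ d * (1 / 4) * N := by
            apply mul_le_mul_of_nonneg_right _ hN.le
            apply mul_le_mul a1 (by linarith) (by positivity) (by positivity)
        _ = (N : ℝ) / 4 * (ρ / 2) ^ d := by ring
    calc Real.exp (-(20 * ((d : ℝ) + 1) ^ 3)) * (ρ / 8) ^ (d + 1) * (N : ℝ)
        = Real.exp (-(20 * ((d : ℝ) + 1) ^ 3)) * ((ρ / 8) ^ (d + 1) * (N : ℝ)) := by ring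
      _ ≤ Real.exp (-(20 * ((d : ℝ) + 1) ^ 3)) * (Real.exp (20 * ((d : ℝ) + 1) ^ 3) * P) := by
          apply mul_le_mul_of_nonneg_left (le_trans hsmall hkey) (Real.exp_pos _).le
      _ = P := by
          rw [← mul_assoc, ← Real.exp_add]; simp

end Pool.Agent.EMS
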