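import Pool.Agent.EMS.StmtsC
import Pool.Agent.EMS7.BR

/-!
# EMS, module BNZ: Bogolyubov-Ruzsa in Z/N (wrapper of helper7's theorem EMS7.bogolyubov)
-/

set_option autoImplicit false

open Finset
open scoped BigOperators Classical Pointwise

namespace Pool.Agent.EMS

namespace BNZ_

/-- value of the character attached to `g` -/
lemma char_bound (N : ℕ) [NeZero N] (g y : ZMod N) (ρ : ℝ)
    (h : ∃ k : ℤ, |((g.val : ℝ) * (y.val : ℝ)) / (N : ℝ) - (k : ℝ)| ≤ ρ) :
    ‖(AddChar.zmodAddEquiv (n := N) g : AddChar (ZMod N) ℂ) y - 1‖ ≤ 2 * Real.pi * ρ := by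
  obtain ⟨k, hk⟩ := h
  have hg : g = (((g.val : ℕ) : ℤ) : ZMod N) := by simp
  have hy : y = (((y.val : ℕ) : ℤ) : ZMod N) := by simp
  have e1 : (AddChar.zmodAddEquiv (n := N) g : AddChar (ZMod N) ℂ) y
      = Complex.exp (((2 * Real.pi * (((g.val : ℝ) * (y.val : ℝ)) / (N : ℝ)) : ℝ) : ℂ)
          * Complex.I) := by
    have e0 : (AddChar.zmodAddEquiv (n := N) g : AddChar (ZMod N) ℂ) y
        = ((AddChar.zmod N g y : Circle) : ℂ) := rfl
    have e3 : AddChar.zmod N g y
        = Circle.exp (2 * Real.pi * ((((g.val : ℕ) : ℤ) : ℝ) * (((y.val : ℕ) : ℤ) : ℝ) / N)) := by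
      have e4 := AddChar.zmod_intCast N ((g.val : ℕ) : ℤ) ((y.val : ℕ) : ℤ)
      rw [← hg, ← hy] at e4
      exact e4
    rw [e0, e3, Circle.coe_exp]
    push_cast
    rfl
  have e2 : Complex.exp (((2 * Real.pi * (((g.val : ℝ) * (y.val : ℝ)) / (N : ℝ)) : ℝ) : ℂ)
          * Complex.I)
      = Complex.exp (((2 * Real.pi * ((((g.val : ℝ) * (y.val : ℝ)) / (N : ℝ)) - k) : ℝ) : ℂ)
          * Complex.I) := by
    rw [Complex.exp_eq_exp_iff_exists_int]
    refine ⟨k, ?_⟩
    push_cast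
    ring
  rw [e1, e2]
  have h3 := Real.norm_exp_I_mul_ofReal_sub_one_le
    (x := 2 * Real.pi * ((((g.val : ℝ) * (y.val : ℝ)) / (N : ℝ)) - k))
  rw [mul_comm Complex.I] at h3
  refine h3.trans ?_
  rw [Real.norm_eq_abs, abs_mul, abs_of_pos Real.two_pi_pos]
  exact mul_le_mul_of_nonneg_left hk Real.two_pi_pos.le

end BNZ_

theorem bnz_direct : Stmt_BNZ := by
  intro N hN B α hα hα1 hB l k hl hk hlog hk2
  have hl' : (1 : ℝ) ≤ l := by exact_mod_cast hl
  have hL0 : 0 ≤ Real.log (64 * l / α) := by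
    refine Real.log_nonneg ?_
    rw [le_div_iff₀ hα]
    linarith
  have hk3 : 128 * (l : ℝ) ^ 2 * Real.log (64 * l / α) ≤ k := by
    refine le_trans ?_ hk2
    have : 0 ≤ (l : ℝ) ^ 2 * Real.log (64 * l / α) := mul_nonneg (by positivity) hL0
    nlinarith
  have hcard : ((Fintype.card (ZMod N) : ℕ) : ℝ) = (N : ℝ) := by rw [ZMod.card]
  obtain ⟨s, hs, hs2⟩ := EMS7.bogolyubov (G := ZMod N) B α hα (by rw [hcard]; exact hB) l k hlog hk3
  let F : AddChar (ZMod N) ℂ → ZMod N := fun χ => (AddChar.zmodAddEquiv (n := N)).symm χ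
  have hF : Function.Injective F := (AddChar.zmodAddEquiv (n := N)).symm.injective
  have hc : (s.image F).card = s.card := Finset.card_image_of_injective _ hF
  refine ⟨s.image F, ?_, ?_⟩
  · rw [hc]; exact hs
  · intro y hy
    have h1 := hs2 y ?_
    · exact h1
    · intro χ hχ
      have h2 := hy (F χ) (Finset.mem_image_of_mem _ hχ)
      have h3 := BNZ_.char_bound N (F χ) y _ h2
      have h4 : (AddChar.zmodAddEquiv (n := N) (F χ) : AddChar (ZMod N) ℂ) = χ := by
        simp [F]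
      rw [h4, hc] at h3
      refine h3.trans ?_
      have hs0 : (0 : ℝ) ≤ s.card := Nat.cast_nonneg _
      have hq := Real.sqrt_nonneg α
      have hm : max (s.card : ℝ) 1 ≤ (s.card : ℝ) + 1 := by
        refine max_le ?_ ?_ <;> linarith
      have hm0 : (0 : ℝ) < max (s.card : ℝ) 1 := lt_of_lt_of_le one_pos (le_max_right _ _)
      have hpi : Real.pi ≤ 4 := Real.pi_le_four
      calc 2 * Real.pi * (Real.sqrt α / (64 * ((s.card : ℝ) + 1)))
          ≤ 2 * 4 * (Real.sqrt α / (64 * ((s.card : ℝ) + 1))) := by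
            refine mul_le_mul_of_nonneg_right ?_ (by positivity)
            linarith
        _ = Real.sqrt α / (8 * ((s.card : ℝ) + 1)) := by
            field_simp
            norm_num
        _ ≤ Real.sqrt α / (8 * max (s.card : ℝ) 1) := by
            refine div_le_div_of_nonneg_left hq (by positivity) ?_
            linarith

theorem bnz_proof (_h1 : Stmt_CSI) (_h2 : Stmt_CHA) : Stmt_BNZ := bnz_direct

end Pool.Agent.EMS
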