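import Pool.Agent.EMS.StmtsA

set_option autoImplicit false

open Finset
open scoped BigOperators Classical Pointwise

namespace Pool.Agent.EMS

namespace BR_

theorem translate {r : ℕ} (A P : Finset (Fin r → ℤ)) (hA : A.Nonempty) (hP : P.Nonempty) :
    ∃ c, (A.card : ℝ) * P.card ≤ ((A - P).card : ℝ) * ((A ∩ (P.image fun p => c + p)).card : ℝ) := by
  have hne : (A - P).Nonempty := hA.sub hP
  obtain ⟨c, hc, hmax⟩ := Finset.exists_max_image (A - P)
    (fun c => (A ∩ (P.image fun p => c + p)).card) hne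
  refine ⟨c, ?_⟩
  have h1 : (A ×ˢ P).card ≤ ∑ c ∈ A - P, (A ∩ (P.image fun p => c + p)).card := by
    have h2 : (A ×ˢ P).card = ∑ c ∈ A - P, ((A ×ˢ P).filter fun z => z.1 - z.2 = c).card := by
      apply card_eq_sum_card_fiberwise
      intro z hz
      rw [mem_coe, mem_product] at hz
      exact mem_coe.mpr (sub_mem_sub hz.1 hz.2)
    rw [h2]
    apply sum_le_sum
    intro c _
    apply card_le_card_of_injOn (fun z => z.1)
    · intro z hz
      rw [mem_coe, mem_filter, mem_product] at hz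
      rw [mem_coe, mem_inter, mem_image]
      refine ⟨hz.1.1, z.2, hz.1.2, ?_⟩
      rw [← hz.2]
      abel
    · intro z hz w hw h
      rw [mem_coe, mem_filter] at hz hw
      have h3 : z.1 = w.1 := h
      have h4 : z.2 = w.2 := by
        have := hz.2.trans hw.2.symm
        rw [h3] at this
        exact sub_right_injective this
      exact Prod.ext h3 h4
  have h5 : (A ×ˢ P).card ≤ (A - P).card * (A ∩ (P.image fun p => c + p)).card := by
    refine h1.trans ?_
    rw [← smul_eq_mul, ← sum_const]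
    exact sum_le_sum fun c' hc' => hmax c' hc'
  rw [card_product] at h5
  exact_mod_cast h5

theorem pluen {r : ℕ} (A P : Finset (Fin r → ℤ)) (hA : A.Nonempty) (K : ℝ)
    (hK : ((A - A).card : ℝ) ≤ K * A.card) (hP : P ⊆ A + A - A - A) :
    ((A - P).card : ℝ) ≤ K ^ 5 * A.card := by
  have hApos : (0 : ℝ) < A.card := by exact_mod_cast hA.card_pos
  have h1 : A - P ⊆ 3 • A - 2 • A := by
    intro x hx
    rw [mem_sub] at hx
    obtain ⟨a, ha, p, hp, rfl⟩ := hx
    have := hP hp
    rw [mem_sub] at this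
    obtain ⟨q, hq, d, hd, rfl⟩ := this
    rw [mem_sub] at hq
    obtain ⟨q', hq', c, hc, rfl⟩ := hq
    rw [mem_add] at hq'
    obtain ⟨e, he, f, hf, rfl⟩ := hq'
    rw [mem_sub]
    refine ⟨a + c + d, ?_, e + f, ?_, by abel⟩
    · rw [show (3 : ℕ) = 2 + 1 by norm_num, add_nsmul, one_nsmul, two_nsmul]
      exact add_mem_add (add_mem_add ha hc) hd
    · rw [two_nsmul]
      exact add_mem_add he hf
  have h2 := Finset.pluennecke_ruzsa_inequality_nsmul_sub_nsmul_sub hA A 3 2
  have h3 : (((3 • A - 2 • A).card : ℚ≥0) : ℝ) ≤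
      ((((A - A).card : ℚ≥0) / (A.card : ℚ≥0)) ^ (3 + 2) * (A.card : ℚ≥0) : ℚ≥0) := by
    exact_mod_cast h2
  push_cast at h3
  have h4 : ((A - P).card : ℝ) ≤ ((3 • A - 2 • A).card : ℝ) := by
    exact_mod_cast card_le_card h1
  refine h4.trans (h3.trans ?_)
  apply mul_le_mul_of_nonneg_right _ hApos.le
  apply pow_le_pow_left₀ (by positivity)
  rw [div_le_iff₀ hApos]
  exact hK

end BR_

theorem br_proof (h1 : Stmt_BRA) : Stmt_BR := by
  obtain ⟨Z0, hZ0⟩ := h1
  refine ⟨max Z0 3, fun Z hZ r A hA hK => ?_⟩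
  obtain ⟨m, G, M, hm, hM, hu, hsize⟩ := hZ0 Z (le_trans (le_max_left _ _) hZ) r A hA hK
  have hZ3 : 3 ≤ Z := le_trans (le_max_right _ _) hZ
  let φ : (Fin m → ℤ) →ₗ[ℤ] (Fin r → ℤ) :=
    { toFun := fun u => ∑ l, u l • G l
      map_add' := by
        intro u v
        simp only [Pi.add_apply, add_smul, sum_add_distrib]
      map_smul' := by
        intro a u
        simp only [Pi.smul_apply, smul_eq_mul, mul_smul, smul_sum, RingHom.id_apply] }
  have hφ : ∀ u, φ u = ∑ l, u l • G l := fun u => rfl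
  let Q : SG r :=
    { d := m
      φ := φ
      M := M
      pos := hM
      proper := fun u hu8 h0 => (hu u hu8).2 h0 }
  have hPsub : Q.bx 0 ⊆ A + A - A - A := by
    intro x hx
    rw [SG.bx, mem_image] at hx
    obtain ⟨u, hub, rfl⟩ := hx
    rw [zero_add]
    apply (hu u _).1
    intro l
    rw [box, Fintype.mem_piFinset] at hub
    have := hub l
    rw [mem_Ico] at this
    rw [abs_of_nonneg this.1]
    have h2 : (0 : ℤ) ≤ (M l : ℤ) := by positivity
    have h3 : u l < (M l : ℤ) := this.2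
    linarith
  have hinj : Set.InjOn (fun u => (0 : Fin r → ℤ) + Q.φ u) (box Q.M : Set (Fin Q.d → ℤ)) := by
    intro u hub v hvb huv
    have h0 : φ (u - v) = 0 := by
      rw [map_sub]
      have : (0 : Fin r → ℤ) + φ u = 0 + φ v := huv
      rw [zero_add, zero_add] at this
      rw [this, sub_self]
    have := (hu (u - v) (by
      intro l
      rw [mem_coe, box, Fintype.mem_piFinset] at hub hvb
      have h1 := hub l
      have h2 := hvb l
      rw [mem_Ico] at h1 h2
      rw [Pi.sub_apply, abs_le]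
      have h3 : u l < (M l : ℤ) := h1.2
      have h4 : v l < (M l : ℤ) := h2.2
      have h5 := h1.1
      have h6 := h2.1
      constructor <;> linarith)).2 h0
    exact sub_eq_zero.mp this
  have hcard : ((Q.bx 0).card : ℝ) = Q.v := by
    rw [SG.bx, card_image_of_injOn hinj, SG.v, box, Fintype.card_piFinset]
    push_cast
    apply prod_congr rfl
    intro l _
    rw [Int.card_Ico]
    simp
  have hvpos : 0 < Q.v := by
    rw [SG.v]
    apply prod_pos
    intro l _
    have := Q.pos l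
    exact_mod_cast this
  have hPne : (Q.bx 0).Nonempty := by
    rw [← card_pos]
    have : (0 : ℝ) < ((Q.bx 0).card : ℝ) := by rw [hcard]; exact hvpos
    exact_mod_cast this
  obtain ⟨c, hc⟩ := BR_.translate A (Q.bx 0) hA hPne
  have hc' : (Q.bx 0).image (fun p => c + p) = Q.bx c := by
    rw [SG.bx, SG.bx, image_image]
    apply image_congr
    intro u _
    simp
  rw [hc', hcard] at hc
  have hApos : (0 : ℝ) < A.card := by exact_mod_cast hA.card_pos
  have hpl := BR_.pluen A (Q.bx 0) hA (Real.exp (250 * Z)) hK hPsub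
  refine ⟨Q, c, hm, ?_, ?_⟩
  · -- density
    have h2 : (A.card : ℝ) * Q.v ≤ Real.exp (250 * Z) ^ 5 * A.card * ((A ∩ Q.bx c).card : ℝ) :=
      hc.trans (mul_le_mul_of_nonneg_right hpl (by positivity))
    have h3 : Q.v ≤ Real.exp (250 * Z) ^ 5 * ((A ∩ Q.bx c).card : ℝ) := by
      have : (A.card : ℝ) * Q.v ≤ A.card * (Real.exp (250 * Z) ^ 5 * ((A ∩ Q.bx c).card : ℝ)) := by
        linarith
      exact le_of_mul_le_mul_left this hApos
    have h4 : Real.exp (250 * Z) ^ 5 ≤ Real.exp ((Z : ℝ) ^ 16) := by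
      rw [← Real.exp_nat_mul]
      apply Real.exp_le_exp.mpr
      have hz : (3 : ℝ) ≤ Z := by exact_mod_cast hZ3
      have h5 : (3 : ℝ) ^ 15 ≤ (Z : ℝ) ^ 15 := pow_le_pow_left₀ (by norm_num) hz 15
      have h6 : (Z : ℝ) ^ 16 = Z ^ 15 * Z := by ring
      rw [h6]
      push_cast
      nlinarith
    have h5 : Q.v ≤ Real.exp ((Z : ℝ) ^ 16) * ((A ∩ Q.bx c).card : ℝ) :=
      h3.trans (mul_le_mul_of_nonneg_right h4 (by positivity))
    calc Real.exp (-((Z : ℝ) ^ 16)) * Q.v
        ≤ Real.exp (-((Z : ℝ) ^ 16)) * (Real.exp ((Z : ℝ) ^ 16) * ((A ∩ Q.bx c).card : ℝ)) :=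
          mul_le_mul_of_nonneg_left h5 (Real.exp_pos _).le
      _ = ((A ∩ Q.bx c).card : ℝ) := by
          rw [← mul_assoc, ← Real.exp_add]
          simp
  · refine le_trans ?_ hsize
    apply mul_le_mul_of_nonneg_right _ hApos.le
    apply Real.exp_le_exp.mpr
    have : (0 : ℝ) ≤ (Z : ℝ) ^ 16 := by positivity
    linarith

end Pool.Agent.EMS
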