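import Pool.Agent.EMS.StmtsC

/-!
# EMS, module BRA: Bogolyubov-Ruzsa in `ℤ^r`, assembly (from MOD, BNZ, BGP, TRF, ZRZ)
-/

set_option autoImplicit false

open Finset
open scoped BigOperators Classical Pointwise

namespace Pool.Agent.EMS

namespace BRA_

lemma frei_inj {N : ℕ} (A : Finset ℤ) (f : ℤ → ZMod N) (h : Frei A f) :
    Set.InjOn f (A : Set ℤ) := by
  intro a ha b hb hab
  have ha' : a ∈ A := Finset.mem_coe.1 ha
  have hb' : b ∈ A := Finset.mem_coe.1 hb
  have h1 := (h (fun _ => a) (fun i => if i = 0 then b else a) (fun _ => ha') (by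
    intro i
    by_cases hi : i = 0
    · simp only [hi, if_true]; exact hb'
    · simp only [hi, if_false]; exact ha')).2 (by
      apply Finset.sum_congr rfl
      intro i _
      by_cases hi : i = 0
      · simp only [hi, if_true]; exact hab
      · simp only [hi, if_false])
  have h2 : (∑ _i : Fin 8, a) = 8 * a := by simp
  have h3 : (∑ i : Fin 8, if i = 0 then b else a) = b + 7 * a := by
    simp [Fin.sum_univ_succ]
  have h4 : (∑ _i : Fin 8, a) = ∑ i : Fin 8, if i = 0 then b else a := h1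
  rw [h2, h3] at h4
  linarith

lemma log_bound1 (z : ℝ) (hz : (10 : ℝ) ^ 10 ≤ z) : Real.log (6145536 * z) ≤ z := by
  have hz0 : 0 < z := by linarith
  rw [Real.log_mul (by norm_num) hz0.ne']
  have h1 : Real.log (6145536 : ℝ) ≤ 6145536 - 1 := Real.log_le_sub_one_of_pos (by norm_num)
  have h2 : Real.log z = Real.log (z / 2) + Real.log 2 := by
    rw [← Real.log_mul (by positivity) (by norm_num)]
    congr 1
    ring
  have h3 : Real.log (z / 2) ≤ z / 2 - 1 := Real.log_le_sub_one_of_pos (by positivity)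
  have h4 : Real.log 2 ≤ 2 - 1 := Real.log_le_sub_one_of_pos (by norm_num)
  linarith

end BRA_

open BRA_ in
theorem bra_proof (h1 : Stmt_MOD) (h2 : Stmt_BNZ) (h3 : Stmt_BGP) (h4 : Stmt_TRF)
    (h5 : Stmt_ZRZ) : Stmt_BRA := by
  refine ⟨4097 * 4001 ^ 4, ?_⟩
  intro Z hZ r A hA hAA
  set z : ℝ := (Z : ℝ) with hz
  have hzbig : (4097 * 4001 ^ 4 : ℝ) ≤ z := by
    rw [hz]
    exact_mod_cast hZ
  have hz10 : (10 : ℝ) ^ 10 ≤ z := le_trans (by norm_num) hzbig
  have hz0 : 0 < z := by linarith
  have hz1 : 1 ≤ z := by linarith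
  obtain ⟨i, hi, hcard, htr⟩ := h5 r A hA
  have hcardi : (A.image i).card = A.card := Finset.card_image_of_injOn hi
  have hK : (((A.image i) - (A.image i)).card : ℝ) ≤
      Real.exp (250 * z) * ((A.image i).card : ℝ) := by
    rw [hcard, hcardi]
    exact hAA
  obtain ⟨N, hN, A1, f, hA1, hA1c, hfr, hNle⟩ :=
    h1 (A.image i) (Real.exp (250 * z)) (hA.image i) hK
  rw [hcardi] at hA1c hNle
  have hApos : (0 : ℝ) < (A.card : ℝ) := by
    exact_mod_cast Finset.card_pos.2 hA
  have hA1pos : (0 : ℝ) < (A1.card : ℝ) := by linarith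
  have hA1ne : A1.Nonempty := by
    rw [← Finset.card_pos]
    exact_mod_cast hA1pos
  set B : Finset (ZMod N) := A1.image f with hB
  have hBc : B.card = A1.card := Finset.card_image_of_injOn (frei_inj A1 f hfr)
  set α : ℝ := Real.exp (-(4000 * z)) / 24 with hα
  have hα0 : 0 < α := by positivity
  have hα1 : α ≤ 1 := by
    have : Real.exp (-(4000 * z)) ≤ 1 := Real.exp_le_one_iff.2 (by linarith)
    rw [hα]
    linarith
  have hK16 : Real.exp (250 * z) ^ 16 = Real.exp (4000 * z) := by
    rw [← Real.exp_nat_mul]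
    congr 1
    push_cast
    ring
  have hee : Real.exp (-(4000 * z)) * Real.exp (4000 * z) = 1 := by
    rw [← Real.exp_add]
    simp
  have hαN : α * (N : ℝ) ≤ (B.card : ℝ) := by
    rw [hBc]
    rw [hK16] at hNle
    calc α * (N : ℝ) ≤ α * (3 * Real.exp (4000 * z) * (A.card : ℝ)) :=
          mul_le_mul_of_nonneg_left hNle hα0.le
      _ = (Real.exp (-(4000 * z)) * Real.exp (4000 * z)) * ((A.card : ℝ) / 8) := by
          rw [hα]; ring
      _ = (A.card : ℝ) / 8 := by rw [hee, one_mul]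
      _ ≤ (A1.card : ℝ) := hA1c
  -- logarithms
  have hlogα : Real.log (1 / α) ≤ 4001 * z := by
    have e1 : 1 / α = 24 * Real.exp (4000 * z) := by
      rw [hα, Real.exp_neg]
      field_simp
    rw [e1, Real.log_mul (by norm_num) (Real.exp_pos _).ne', Real.log_exp]
    have : Real.log (24 : ℝ) ≤ 24 - 1 := Real.log_le_sub_one_of_pos (by norm_num)
    linarith
  have hlog16 : Real.log (16 / α) ≤ 4001 * z := by
    have e1 : 16 / α = 384 * Real.exp (4000 * z) := by
      rw [hα, Real.exp_neg]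
      field_simp
      norm_num
    rw [e1, Real.log_mul (by norm_num) (Real.exp_pos _).ne', Real.log_exp]
    have : Real.log (384 : ℝ) ≤ 384 - 1 := Real.log_le_sub_one_of_pos (by norm_num)
    linarith
  have hlog64 : Real.log (64 * (4001 * z) / α) ≤ 4001 * z := by
    have e1 : 64 * (4001 * z) / α = (6145536 * z) * Real.exp (4000 * z) := by
      rw [hα, Real.exp_neg]
      field_simp
      norm_num
    rw [e1, Real.log_mul (by positivity) (Real.exp_pos _).ne', Real.log_exp]
    have := log_bound1 z hz10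
    linarith
  have hZ1 : 1 ≤ Z := by
    have : 0 < (4097 * 4001 ^ 4 : ℕ) := by norm_num
    omega
  have hBNZ := h2 N B α hα0 hα1 hαN (4001 * Z) (512 * 4001 ^ 3 * Z ^ 3)
    (by omega) (by
      have : 0 < 512 * 4001 ^ 3 * Z ^ 3 := by positivity
      omega)
    (by push_cast; exact hlog16) (by
      push_cast
      calc 512 * (4001 * z) ^ 2 * Real.log (64 * (4001 * z) / α) ≤
          512 * (4001 * z) ^ 2 * (4001 * z) :=
            mul_le_mul_of_nonneg_left hlog64 (by positivity)
        _ = 512 * 4001 ^ 3 * z ^ 3 := by ring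
        _ ≤ _ := by
          rw [hz]
          norm_num)
  obtain ⟨Γ, hΓ, hBohr⟩ := hBNZ
  have hΓ1 : (Γ.card : ℝ) + 1 ≤ 4097 * 4001 ^ 4 * z ^ 4 := by
    have e1 : (Γ.card : ℝ) ≤ 8 * ((512 * 4001 ^ 3 * z ^ 3) * (4001 * z) + 1) := by
      refine le_trans hΓ ?_
      push_cast
      have : (512 * 4001 ^ 3 * z ^ 3) * Real.log (1 / α) ≤
          (512 * 4001 ^ 3 * z ^ 3) * (4001 * z) :=
        mul_le_mul_of_nonneg_left hlogα (by positivity)
      linarith
    have e2 : (1 : ℝ) ≤ z ^ 4 := one_le_pow₀ hz1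
    nlinarith
  have hΓ2 : (Γ.card : ℝ) + 1 ≤ z ^ 5 := by
    refine le_trans hΓ1 ?_
    calc 4097 * 4001 ^ 4 * z ^ 4 ≤ z * z ^ 4 :=
          mul_le_mul_of_nonneg_right hzbig (by positivity)
      _ = z ^ 5 := by ring
  set d1 : ℝ := (Γ.card : ℝ) + 1 with hd1
  have hd1pos : 0 < d1 := by positivity
  have hd1one : 1 ≤ d1 := by
    have : (0 : ℝ) ≤ (Γ.card : ℝ) := by positivity
    linarith
  set ρ : ℝ := Real.sqrt α / (64 * d1) with hρ
  have hsα0 : 0 < Real.sqrt α := Real.sqrt_pos.2 hα0
  have hsα1 : Real.sqrt α ≤ 1 := by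
    exact Real.sqrt_le_iff.2 ⟨by norm_num, by simpa using hα1⟩
  have hρ0 : 0 < ρ := by positivity
  have hρ1 : ρ ≤ 1 / 4 := by
    rw [hρ, div_le_iff₀ (by positivity)]
    nlinarith
  obtain ⟨m, b, M, hm, hM, hub, hprop, hsize⟩ := h3 N Γ ρ hρ0 hρ1
  obtain ⟨g, hg⟩ := h4 N A1 f hA1ne hfr m b M hM
    (fun u hu => hBohr _ (hub u hu)) hprop
  have hsub : A1 + A1 - A1 - A1 ⊆ A.image i + A.image i - A.image i - A.image i :=
    Finset.sub_subset_sub (Finset.sub_subset_sub (Finset.add_subset_add hA1 hA1) hA1) hA1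
  obtain ⟨G, hG⟩ := htr m g M hM (fun u hu => ⟨hsub (hg u hu).1, (hg u hu).2⟩)
  refine ⟨m, G, M, ?_, hM, hG, ?_⟩
  · have : (m : ℝ) ≤ z ^ 5 := by
      refine le_trans ?_ hΓ2
      rw [hd1]
      exact_mod_cast hm
    rw [hz] at this
    exact_mod_cast this
  · refine le_trans ?_ hsize
    -- lower bound for ρ / 8
    have hsα : Real.exp (-(2001 * z)) ≤ Real.sqrt α := by
      apply Real.le_sqrt_of_sq_le
      rw [hα, ← Real.exp_nat_mul, le_div_iff₀ (by norm_num)]
      have e24 : (24 : ℝ) ≤ Real.exp (2 * z) := by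
        have := Real.add_one_le_exp (2 * z)
        linarith
      calc Real.exp ((2 : ℕ) * (-(2001 * z))) * 24 ≤
          Real.exp ((2 : ℕ) * (-(2001 * z))) * Real.exp (2 * z) :=
            mul_le_mul_of_nonneg_left e24 (Real.exp_pos _).le
        _ = Real.exp (-(4000 * z)) := by
            rw [← Real.exp_add]
            congr 1
            push_cast
            ring
    have hd1e : 512 * d1 ≤ Real.exp (6 * z) := by
      have e1 : z ≤ Real.exp z := by
        have := Real.add_one_le_exp z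
        linarith
      calc 512 * d1 ≤ z * z ^ 5 := by
            apply mul_le_mul (by linarith) hΓ2 hd1pos.le hz0.le
        _ = z ^ 6 := by ring
        _ ≤ (Real.exp z) ^ 6 := pow_le_pow_left₀ hz0.le e1 6
        _ = Real.exp (6 * z) := by
            rw [← Real.exp_nat_mul]
            push_cast
            rfl
    have hρ8 : Real.exp (-(2007 * z)) ≤ ρ / 8 := by
      have e1 : ρ / 8 = Real.sqrt α / (512 * d1) := by
        rw [hρ]
        field_simp
        norm_num
      rw [e1, le_div_iff₀ (by positivity)]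
      calc Real.exp (-(2007 * z)) * (512 * d1) ≤
          Real.exp (-(2007 * z)) * Real.exp (6 * z) :=
            mul_le_mul_of_nonneg_left hd1e (Real.exp_pos _).le
        _ = Real.exp (-(2001 * z)) := by
            rw [← Real.exp_add]
            congr 1
            ring
        _ ≤ Real.sqrt α := hsα
    have hpow : Real.exp (-(2007 * z * z ^ 5)) ≤ (ρ / 8) ^ (Γ.card + 1) := by
      calc Real.exp (-(2007 * z * z ^ 5)) ≤ Real.exp (((Γ.card + 1 : ℕ) : ℝ) * (-(2007 * z))) := by
            apply Real.exp_le_exp.2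
            have : ((Γ.card + 1 : ℕ) : ℝ) = d1 := by
              rw [hd1]
              push_cast
              rfl
            rw [this]
            nlinarith [mul_le_mul_of_nonneg_left hΓ2 (show 0 ≤ 2007 * z by positivity)]
        _ = (Real.exp (-(2007 * z))) ^ (Γ.card + 1) := by rw [Real.exp_nat_mul]
        _ ≤ (ρ / 8) ^ (Γ.card + 1) := pow_le_pow_left₀ (Real.exp_pos _).le hρ8 _
    have hN8 : (A.card : ℝ) / 8 ≤ (N : ℝ) := by
      refine le_trans hA1c ?_
      rw [← hBc]
      have : B.card ≤ N := by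
        have := Finset.card_le_univ B
        rw [ZMod.card] at this
        exact this
      exact_mod_cast this
    have hcube : Real.exp (-(20 * (z ^ 5) ^ 3)) ≤ Real.exp (-(20 * d1 ^ 3)) := by
      apply Real.exp_le_exp.2
      have := pow_le_pow_left₀ hd1pos.le hΓ2 3
      linarith
    have h8 : (8 : ℝ) ≤ Real.exp (8 : ℝ) := by
      have := Real.add_one_le_exp (8 : ℝ)
      linarith
    have hfin : Real.exp (-(z ^ 16) / 2) ≤
        Real.exp (-(20 * (z ^ 5) ^ 3)) * Real.exp (-(2007 * z * z ^ 5)) * Real.exp (-8) := by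
      rw [← Real.exp_add, ← Real.exp_add]
      apply Real.exp_le_exp.2
      have e1 : (1 : ℝ) ≤ z ^ 15 := one_le_pow₀ hz1
      have e2 : z * z ^ 5 ≤ z ^ 15 := by
        calc z * z ^ 5 = z ^ 6 := by ring
          _ ≤ z ^ 15 := pow_le_pow_right₀ hz1 (by norm_num)
      have e3 : (10 : ℝ) ^ 10 * z ^ 15 ≤ z ^ 16 := by
        calc (10 : ℝ) ^ 10 * z ^ 15 ≤ z * z ^ 15 :=
              mul_le_mul_of_nonneg_right hz10 (by positivity)
          _ = z ^ 16 := by ring
      have e4 : (z ^ 5) ^ 3 = z ^ 15 := by ring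
      rw [e4]
      nlinarith
    calc Real.exp (-(z ^ 16) / 2) * (A.card : ℝ) ≤
        (Real.exp (-(20 * (z ^ 5) ^ 3)) * Real.exp (-(2007 * z * z ^ 5)) * Real.exp (-8)) *
          (A.card : ℝ) := mul_le_mul_of_nonneg_right hfin hApos.le
      _ = Real.exp (-(20 * (z ^ 5) ^ 3)) * Real.exp (-(2007 * z * z ^ 5)) *
          (Real.exp (-8) * (A.card : ℝ)) := by ring
      _ ≤ Real.exp (-(20 * (z ^ 5) ^ 3)) * Real.exp (-(2007 * z * z ^ 5)) *
          ((A.card : ℝ) / 8) := by
          apply mul_le_mul_of_nonneg_left _ (by positivity)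
          rw [Real.exp_neg, div_eq_inv_mul]
          apply mul_le_mul_of_nonneg_right _ hApos.le
          exact inv_anti₀ (by norm_num) h8
      _ ≤ Real.exp (-(20 * d1 ^ 3)) * (ρ / 8) ^ (Γ.card + 1) * (N : ℝ) := by
          apply mul_le_mul _ hN8 (by positivity) (by positivity)
          exact mul_le_mul hcube hpow (Real.exp_pos _).le (Real.exp_pos _).le

end Pool.Agent.EMS
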