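import Pool.Agent.EMS.StmtsC

/-!
# EMS, module BSG: the Balog-Szemeredi-Gowers theorem
-/

set_option autoImplicit false

open Finset
open scoped BigOperators Classical Pointwise

namespace Pool.Agent.EMS

namespace BSG_

variable {α : Type}

/-- adjacency -/
noncomputable def ee (r : α → α → Prop) (x y : α) : ℝ := if r x y then 1 else 0

lemma ee_nonneg (r : α → α → Prop) (x y : α) : 0 ≤ ee r x y := by
  unfold ee; split_ifs <;> norm_num

/-- degree -/
noncomputable def dg (A : Finset α) (r : α → α → Prop) (x : α) : ℝ := ∑ y ∈ A, ee r x y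

/-- codegree -/
noncomputable def cod (A : Finset α) (r : α → α → Prop) (x x' : α) : ℝ :=
  ∑ y ∈ A, ee r x y * ee r x' y

/-- bad pairs -/
noncomputable def bd (A : Finset α) (r : α → α → Prop) (τ : ℝ) (x x' : α) : ℝ :=
  if cod A r x x' < τ then 1 else 0

lemma bd_nonneg (A : Finset α) (r : α → α → Prop) (τ : ℝ) (x x' : α) : 0 ≤ bd A r τ x x' := by
  unfold bd; split_ifs <;> norm_num

lemma dg_le (A : Finset α) (r : α → α → Prop) (x : α) : dg A r x ≤ (A.card : ℝ) := by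
  unfold dg
  calc ∑ y ∈ A, ee r x y ≤ ∑ _y ∈ A, (1 : ℝ) := by
        apply Finset.sum_le_sum
        intro y _
        unfold ee; split_ifs <;> norm_num
    _ = (A.card : ℝ) := by simp

lemma sum_dg (A : Finset α) (r : α → α → Prop) :
    ∑ x ∈ A, dg A r x = (((A ×ˢ A).filter fun z => r z.1 z.2).card : ℝ) := by
  unfold dg ee
  rw [Finset.card_filter, Nat.cast_sum, Finset.sum_product]
  apply Finset.sum_congr rfl
  intro x _
  apply Finset.sum_congr rfl
  intro y _
  simp only []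
  split_ifs <;> simp

/-- vertices of large degree carry many edges -/
lemma stepA (A : Finset α) (r : α → α → Prop) (p : ℝ) (hp : 0 < p)
    (h : p * (A.card : ℝ) ^ 2 ≤ ∑ x ∈ A, dg A r x) :
    p * (A.card : ℝ) ^ 2 / 2 ≤
      ∑ x ∈ A.filter (fun x => p * (A.card : ℝ) / 2 ≤ dg A r x), dg A r x := by
  have h1 := Finset.sum_filter_add_sum_filter_not A
    (fun x => p * (A.card : ℝ) / 2 ≤ dg A r x) (fun x => dg A r x)
  have h2 : ∑ x ∈ A.filter (fun x => ¬ p * (A.card : ℝ) / 2 ≤ dg A r x), dg A r x ≤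
      ∑ _x ∈ A, p * (A.card : ℝ) / 2 := by
    calc ∑ x ∈ A.filter (fun x => ¬ p * (A.card : ℝ) / 2 ≤ dg A r x), dg A r x
        ≤ ∑ _x ∈ A.filter (fun x => ¬ p * (A.card : ℝ) / 2 ≤ dg A r x),
            p * (A.card : ℝ) / 2 := by
          apply Finset.sum_le_sum
          intro x hx
          rw [Finset.mem_filter] at hx
          exact (not_le.1 hx.2).le
      _ ≤ ∑ _x ∈ A, p * (A.card : ℝ) / 2 := by
          apply Finset.sum_le_sum_of_subset_of_nonneg (Finset.filter_subset _ _)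
          intro _ _ _
          positivity
  rw [Finset.sum_const, nsmul_eq_mul] at h2
  nlinarith

/-- pigeonhole for `y` -/
lemma stepE (A X : Finset α) (hXA : X ⊆ A) (r : α → α → Prop) (p : ℝ) (hp : 0 < p)
    (hA : A.Nonempty) (hX : p * (A.card : ℝ) ^ 2 / 2 ≤ ∑ x ∈ X, dg A r x) :
    ∃ y ∈ A, p ^ 2 * (A.card : ℝ) ^ 2 / 8 +
      16 / p * (∑ x ∈ X, ∑ x' ∈ X, bd A r (p ^ 3 / 128 * (A.card : ℝ)) x x' *
        (ee r x y * ee r x' y)) ≤ (∑ x ∈ X, ee r x y) ^ 2 := by
  set n : ℝ := (A.card : ℝ) with hn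
  have hn0 : 0 < n := by
    rw [hn]; exact_mod_cast hA.card_pos
  have hXn : (X.card : ℝ) ≤ n := by
    rw [hn]; exact_mod_cast Finset.card_le_card hXA
  have hX0 : (0 : ℝ) ≤ (X.card : ℝ) := by positivity
  have hsum : ∑ y ∈ A, ∑ x ∈ X, ee r x y = ∑ x ∈ X, dg A r x := by
    rw [Finset.sum_comm]; rfl
  have hcs : (∑ y ∈ A, ∑ x ∈ X, ee r x y) ^ 2 ≤ n * ∑ y ∈ A, (∑ x ∈ X, ee r x y) ^ 2 :=
    sq_sum_le_card_mul_sum_sq
  have hsq : p ^ 2 * n ^ 3 / 4 ≤ ∑ y ∈ A, (∑ x ∈ X, ee r x y) ^ 2 := by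
    rw [hsum] at hcs
    have h1 : (p * n ^ 2 / 2) ^ 2 ≤ (∑ x ∈ X, dg A r x) ^ 2 := by
      apply pow_le_pow_left₀ _ hX
      positivity
    have h2 : n * (p ^ 2 * n ^ 3 / 4) ≤ n * ∑ y ∈ A, (∑ x ∈ X, ee r x y) ^ 2 := by
      calc n * (p ^ 2 * n ^ 3 / 4) = (p * n ^ 2 / 2) ^ 2 := by ring
        _ ≤ _ := h1.trans hcs
    exact le_of_mul_le_mul_left h2 hn0
  have hbad : ∑ y ∈ A, (∑ x ∈ X, ∑ x' ∈ X, bd A r (p ^ 3 / 128 * n) x x' *
      (ee r x y * ee r x' y)) ≤ p ^ 3 / 128 * n ^ 3 := by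
    rw [Finset.sum_comm]
    have h1 : ∀ x ∈ X, ∑ y ∈ A, ∑ x' ∈ X, bd A r (p ^ 3 / 128 * n) x x' *
        (ee r x y * ee r x' y) ≤ (X.card : ℝ) * (p ^ 3 / 128 * n) := by
      intro x _
      rw [Finset.sum_comm]
      have h2 : ∀ x' ∈ X, ∑ y ∈ A, bd A r (p ^ 3 / 128 * n) x x' *
          (ee r x y * ee r x' y) ≤ p ^ 3 / 128 * n := by
        intro x' _
        rw [← Finset.mul_sum]
        change bd A r (p ^ 3 / 128 * n) x x' * cod A r x x' ≤ _
        unfold bd
        split_ifs with h3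
        · rw [one_mul]; exact h3.le
        · rw [zero_mul]; positivity
      calc _ ≤ ∑ _x' ∈ X, p ^ 3 / 128 * n := Finset.sum_le_sum h2
        _ = _ := by rw [Finset.sum_const, nsmul_eq_mul]
    calc _ ≤ ∑ _x ∈ X, (X.card : ℝ) * (p ^ 3 / 128 * n) := Finset.sum_le_sum h1
      _ = (X.card : ℝ) * (X.card : ℝ) * (p ^ 3 / 128 * n) := by
          rw [Finset.sum_const, nsmul_eq_mul]; ring
      _ ≤ n * n * (p ^ 3 / 128 * n) := by
          apply mul_le_mul_of_nonneg_right _ (by positivity)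
          exact mul_le_mul hXn hXn hX0 hn0.le
      _ = _ := by ring
  apply Finset.exists_le_of_sum_le hA
  rw [Finset.sum_add_distrib, ← Finset.mul_sum, Finset.sum_const, nsmul_eq_mul, ← hn]
  have h3 : 16 / p * (∑ y ∈ A, (∑ x ∈ X, ∑ x' ∈ X, bd A r (p ^ 3 / 128 * n) x x' *
      (ee r x y * ee r x' y))) ≤ 16 / p * (p ^ 3 / 128 * n ^ 3) :=
    mul_le_mul_of_nonneg_left hbad (by positivity)
  have h4 : 16 / p * (p ^ 3 / 128 * n ^ 3) = p ^ 2 * n ^ 3 / 8 := by
    field_simp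
    ring
  have h5 : n * (p ^ 2 * n ^ 2 / 8) = p ^ 2 * n ^ 3 / 8 := by ring
  linarith

/-- the graph theoretic part -/
lemma graph (A : Finset α) (r : α → α → Prop) (hr : ∀ x y, r x y → r y x) (p : ℝ) (hp : 0 < p)
    (hA : A.Nonempty)
    (h : p * (A.card : ℝ) ^ 2 ≤ (((A ×ˢ A).filter fun z => r z.1 z.2).card : ℝ)) :
    ∃ A' ⊆ A, ∃ B' ⊆ A, p / 6 * (A.card : ℝ) ≤ (A'.card : ℝ) ∧
      p / 4 * (A.card : ℝ) ≤ (B'.card : ℝ) ∧
      ∀ x ∈ A', ∀ y ∈ B', p ^ 5 / 3072 * (A.card : ℝ) ^ 2 ≤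
        (((A ×ˢ A).filter fun z => r x z.2 ∧ r z.1 z.2 ∧ r z.1 y).card : ℝ) := by
  rw [← sum_dg] at h
  have hXd := stepA A r p hp h
  set n : ℝ := (A.card : ℝ) with hn
  have hn0 : 0 < n := by
    rw [hn]; exact_mod_cast hA.card_pos
  set X := A.filter (fun x => p * n / 2 ≤ dg A r x) with hXdef
  have hXA : X ⊆ A := Finset.filter_subset _ _
  obtain ⟨y0, hy0, hy⟩ := stepE A X hXA r p hp hA hXd
  rw [← hn] at hy
  set τ := p ^ 3 / 128 * n with hτ
  set N := X.filter (fun x => r x y0) with hNdef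
  have hNX : N ⊆ X := Finset.filter_subset _ _
  have hNA : N ⊆ A := hNX.trans hXA
  set m : ℝ := (N.card : ℝ) with hm
  have hnu : ∑ x ∈ X, ee r x y0 = m := by
    rw [hm, hNdef, Finset.card_filter, Nat.cast_sum]
    apply Finset.sum_congr rfl
    intro x _
    unfold ee
    split_ifs <;> simp
  have hbe : (∑ x ∈ X, ∑ x' ∈ X, bd A r τ x x' * (ee r x y0 * ee r x' y0)) =
      ∑ x ∈ N, ∑ x' ∈ N, bd A r τ x x' := by
    rw [show (∑ x ∈ N, ∑ x' ∈ N, bd A r τ x x') =
      ∑ x ∈ X, if r x y0 then ∑ x' ∈ N, bd A r τ x x' else 0 from Finset.sum_filter _ _]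
    apply Finset.sum_congr rfl
    intro x _
    split_ifs with h1
    · rw [show (∑ x' ∈ N, bd A r τ x x') =
        ∑ x' ∈ X, if r x' y0 then bd A r τ x x' else 0 from Finset.sum_filter _ _]
      apply Finset.sum_congr rfl
      intro x' _
      unfold ee
      by_cases h2 : r x' y0 <;> simp [h1, h2]
    · apply Finset.sum_eq_zero
      intro x' _
      unfold ee
      simp [h1]
  rw [hnu, hbe] at hy
  set be := ∑ x ∈ N, ∑ x' ∈ N, bd A r τ x x' with hbedef
  have hbe0 : 0 ≤ be := by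
    apply Finset.sum_nonneg; intro x _
    apply Finset.sum_nonneg; intro x' _
    exact bd_nonneg _ _ _ _ _
  have hm0 : 0 ≤ m := by rw [hm]; positivity
  have hm1 : p * n / 3 ≤ m := by
    have h1 : 0 ≤ 16 / p * be := by positivity
    by_contra h2
    push Not at h2
    have h3 : m ^ 2 < (p * n / 3) ^ 2 := by
      apply pow_lt_pow_left₀ h2 hm0
      norm_num
    have h4 : 0 < p ^ 2 * n ^ 2 := by positivity
    nlinarith
  have hmpos : 0 < m := lt_of_lt_of_le (by positivity) hm1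
  have hbe1 : be ≤ p / 16 * m ^ 2 := by
    have h1 : 16 / p * be ≤ m ^ 2 := by
      have : 0 ≤ p ^ 2 * n ^ 2 / 8 := by positivity
      linarith
    have h2 : p / 16 * (16 / p * be) ≤ p / 16 * m ^ 2 :=
      mul_le_mul_of_nonneg_left h1 (by positivity)
    have h3 : p / 16 * (16 / p * be) = be := by
      field_simp
    linarith
  -- the set A'
  set A' := N.filter (fun x => ∑ x' ∈ N, bd A r τ x x' ≤ p / 8 * m) with hA'def
  have hA'N : A' ⊆ N := Finset.filter_subset _ _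
  have hA'card : m / 2 ≤ (A'.card : ℝ) := by
    have h1 : (A'.card : ℝ) +
        ((N.filter (fun x => ¬ ∑ x' ∈ N, bd A r τ x x' ≤ p / 8 * m)).card : ℝ) = m := by
      rw [hm, hA'def]
      exact_mod_cast Finset.card_filter_add_card_filter_not
        (s := N) (fun x => ∑ x' ∈ N, bd A r τ x x' ≤ p / 8 * m)
    have h2 : ((N.filter (fun x => ¬ ∑ x' ∈ N, bd A r τ x x' ≤ p / 8 * m)).card : ℝ) *
        (p / 8 * m) ≤ be := by
      rw [← nsmul_eq_mul, ← Finset.sum_const]
      calc ∑ _x ∈ N.filter (fun x => ¬ ∑ x' ∈ N, bd A r τ x x' ≤ p / 8 * m), p / 8 * m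
          ≤ ∑ x ∈ N.filter (fun x => ¬ ∑ x' ∈ N, bd A r τ x x' ≤ p / 8 * m),
              ∑ x' ∈ N, bd A r τ x x' := by
            apply Finset.sum_le_sum
            intro x hx
            rw [Finset.mem_filter] at hx
            exact (not_le.1 hx.2).le
        _ ≤ be := by
            apply Finset.sum_le_sum_of_subset_of_nonneg (Finset.filter_subset _ _)
            intro x _ _
            apply Finset.sum_nonneg; intro x' _
            exact bd_nonneg _ _ _ _ _
    have h3 : ((N.filter (fun x => ¬ ∑ x' ∈ N, bd A r τ x x' ≤ p / 8 * m)).card : ℝ) ≤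
        m / 2 := by
      have h4 : ((N.filter (fun x => ¬ ∑ x' ∈ N, bd A r τ x x' ≤ p / 8 * m)).card : ℝ) *
        (p / 8 * m) ≤ m / 2 * (p / 8 * m) := by
        calc _ ≤ be := h2
          _ ≤ p / 16 * m ^ 2 := hbe1
          _ = _ := by ring
      exact le_of_mul_le_mul_right h4 (by positivity)
    linarith
  -- the set B'
  set B' := A.filter (fun y => p * m / 4 ≤ ∑ x ∈ N, ee r x y) with hB'def
  have hB'A : B' ⊆ A := Finset.filter_subset _ _
  have hB'card : p / 4 * n ≤ (B'.card : ℝ) := by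
    have h1 : m * (p * n / 2) ≤ ∑ y ∈ A, ∑ x ∈ N, ee r x y := by
      rw [Finset.sum_comm, hm, ← nsmul_eq_mul, ← Finset.sum_const]
      apply Finset.sum_le_sum
      intro x hx
      have := hNX hx
      rw [hXdef, Finset.mem_filter] at this
      exact this.2
    have h2 := Finset.sum_filter_add_sum_filter_not A
      (fun y => p * m / 4 ≤ ∑ x ∈ N, ee r x y) (fun y => ∑ x ∈ N, ee r x y)
    have h3 : ∑ y ∈ A.filter (fun y => ¬ p * m / 4 ≤ ∑ x ∈ N, ee r x y),
        ∑ x ∈ N, ee r x y ≤ n * (p * m / 4) := by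
      calc _ ≤ ∑ _y ∈ A.filter (fun y => ¬ p * m / 4 ≤ ∑ x ∈ N, ee r x y), p * m / 4 := by
            apply Finset.sum_le_sum
            intro y hy
            rw [Finset.mem_filter] at hy
            exact (not_le.1 hy.2).le
        _ ≤ ∑ _y ∈ A, p * m / 4 := by
            apply Finset.sum_le_sum_of_subset_of_nonneg (Finset.filter_subset _ _)
            intro _ _ _
            positivity
        _ = _ := by rw [Finset.sum_const, nsmul_eq_mul, hn]
    have h4 : ∑ y ∈ B', ∑ x ∈ N, ee r x y ≤ (B'.card : ℝ) * m := by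
      rw [← nsmul_eq_mul, ← Finset.sum_const]
      apply Finset.sum_le_sum
      intro y _
      calc ∑ x ∈ N, ee r x y ≤ ∑ _x ∈ N, (1 : ℝ) := by
            apply Finset.sum_le_sum
            intro x _
            unfold ee; split_ifs <;> norm_num
        _ = m := by rw [hm]; simp
    have h5 : p / 4 * n * m ≤ (B'.card : ℝ) * m := by
      nlinarith
    exact le_of_mul_le_mul_right h5 hmpos
  refine ⟨A', hA'N.trans hNA, B', hB'A, ?_, hB'card, ?_⟩
  · linarith
  -- counting paths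
  intro x hx y hy'
  rw [hA'def, Finset.mem_filter] at hx
  rw [hB'def, Finset.mem_filter] at hy'
  -- good middle vertices
  have hgood : p * m / 8 ≤ ∑ x' ∈ N, ee r x' y * (1 - bd A r τ x x') := by
    have h1 : ∑ x' ∈ N, ee r x' y * (1 - bd A r τ x x') =
        ∑ x' ∈ N, ee r x' y - ∑ x' ∈ N, ee r x' y * bd A r τ x x' := by
      rw [← Finset.sum_sub_distrib]
      apply Finset.sum_congr rfl
      intro x' _
      ring
    have h2 : ∑ x' ∈ N, ee r x' y * bd A r τ x x' ≤ ∑ x' ∈ N, bd A r τ x x' := by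
      apply Finset.sum_le_sum
      intro x' _
      have h3 := bd_nonneg A r τ x x'
      have h4 : ee r x' y ≤ 1 := by unfold ee; split_ifs <;> norm_num
      nlinarith
    have h3 := hx.2
    have h4 := hy'.2
    rw [h1]
    linarith
  have hcount : (((A ×ˢ A).filter fun z => r x z.2 ∧ r z.1 z.2 ∧ r z.1 y).card : ℝ) =
      ∑ x' ∈ A, ee r x' y * cod A r x x' := by
    rw [Finset.card_filter, Nat.cast_sum, Finset.sum_product]
    apply Finset.sum_congr rfl
    intro x' _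
    unfold cod
    rw [Finset.mul_sum]
    apply Finset.sum_congr rfl
    intro z _
    unfold ee
    by_cases h1 : r x z <;> by_cases h2 : r x' z <;> by_cases h3 : r x' y <;> simp [h1, h2, h3]
  rw [hcount]
  have hτ0 : 0 ≤ τ := by positivity
  calc p ^ 5 / 3072 * n ^ 2 = p * (p * n / 3) / 8 * τ := by rw [hτ]; ring
    _ ≤ p * m / 8 * τ := by
        apply mul_le_mul_of_nonneg_right _ hτ0
        have := mul_le_mul_of_nonneg_left hm1 hp.le
        linarith
    _ ≤ (∑ x' ∈ N, ee r x' y * (1 - bd A r τ x x')) * τ :=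
        mul_le_mul_of_nonneg_right hgood hτ0
    _ = ∑ x' ∈ N, ee r x' y * ((1 - bd A r τ x x') * τ) := by
        rw [Finset.sum_mul]
        apply Finset.sum_congr rfl
        intro x' _
        ring
    _ ≤ ∑ x' ∈ N, ee r x' y * cod A r x x' := by
        apply Finset.sum_le_sum
        intro x' _
        apply mul_le_mul_of_nonneg_left _ (ee_nonneg _ _ _)
        unfold bd
        split_ifs with h1
        · rw [sub_self, zero_mul]
          unfold cod
          apply Finset.sum_nonneg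
          intro z _
          exact mul_nonneg (ee_nonneg _ _ _) (ee_nonneg _ _ _)
        · rw [sub_zero, one_mul]
          exact not_lt.1 h1
    _ ≤ ∑ x' ∈ A, ee r x' y * cod A r x x' := by
        apply Finset.sum_le_sum_of_subset_of_nonneg hNA
        intro x' _ _
        apply mul_nonneg (ee_nonneg _ _ _)
        unfold cod
        apply Finset.sum_nonneg
        intro z _
        exact mul_nonneg (ee_nonneg _ _ _) (ee_nonneg _ _ _)

/-- the sum set is small -/
lemma sumset {G : Type} [AddCommGroup G] (A S A' B' : Finset G) (q : ℝ)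
    (h : ∀ x ∈ A', ∀ y ∈ B', q ≤
        (((A ×ˢ A).filter fun z => x + z.2 ∈ S ∧ z.1 + z.2 ∈ S ∧ z.1 + y ∈ S).card : ℝ)) :
    ((A' + B').card : ℝ) * q ≤ (S.card : ℝ) ^ 3 := by
  -- double count triples
  set T := S ×ˢ S ×ˢ S with hT
  have hTc : (T.card : ℝ) = (S.card : ℝ) ^ 3 := by
    rw [hT, Finset.card_product, Finset.card_product]; push_cast; ring
  have h1 : ∀ w ∈ A' + B', q ≤ ((T.filter fun s => s.1 - s.2.1 + s.2.2 = w).card : ℝ) := by
    intro w hw
    obtain ⟨x, hx, y, hy, rfl⟩ := Finset.mem_add.1 hw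
    refine (h x hx y hy).trans ?_
    have h2 : ((A ×ˢ A).filter fun z => x + z.2 ∈ S ∧ z.1 + z.2 ∈ S ∧ z.1 + y ∈ S).card ≤
        (T.filter fun s => s.1 - s.2.1 + s.2.2 = x + y).card := by
      apply Finset.card_le_card_of_injOn (fun z => (x + z.2, z.1 + z.2, z.1 + y))
      · intro z hz
        rw [Finset.mem_coe, Finset.mem_filter] at hz
        rw [Finset.mem_coe, Finset.mem_filter, hT, Finset.mem_product, Finset.mem_product]
        refine ⟨⟨hz.2.1, hz.2.2.1, hz.2.2.2⟩, ?_⟩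
        simp only []
        abel
      · intro z _ z' _ hzz
        simp only [Prod.mk.injEq] at hzz
        obtain ⟨h3, _, h5⟩ := hzz
        exact Prod.ext (add_right_cancel h5) (add_left_cancel h3)
    exact_mod_cast h2
  have h3 : ∑ w ∈ A' + B', (T.filter fun s => s.1 - s.2.1 + s.2.2 = w).card ≤ T.card := by
    rw [← Finset.card_biUnion]
    · apply Finset.card_le_card
      intro s hs
      rw [Finset.mem_biUnion] at hs
      obtain ⟨w, _, hs⟩ := hs
      exact (Finset.mem_filter.1 hs).1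
    · intro w _ w' _ hww
      rw [Function.onFun, Finset.disjoint_left]
      intro s hs hs'
      exact hww ((Finset.mem_filter.1 hs).2.symm.trans (Finset.mem_filter.1 hs').2)
  calc ((A' + B').card : ℝ) * q = ∑ _w ∈ A' + B', q := by rw [Finset.sum_const, nsmul_eq_mul]
    _ ≤ ∑ w ∈ A' + B', ((T.filter fun s => s.1 - s.2.1 + s.2.2 = w).card : ℝ) :=
        Finset.sum_le_sum h1
    _ ≤ (T.card : ℝ) := by exact_mod_cast h3
    _ = _ := hTc

end BSG_

theorem bsg_proof : Stmt_BSG := by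
  intro G _ A S p K hA hp hp1 hK hSK hE
  obtain ⟨A', hA', B', hB', hcA, hcB, hpath0⟩ := BSG_.graph A (fun x y => x + y ∈ S)
    (fun x y hxy => by rw [add_comm]; exact hxy) p hp hA (by
      refine hE.trans (le_of_eq ?_)
      apply congrArg (fun k : ℕ => (k : ℝ))
      apply congrArg Finset.card
      ext z
      simp only [Finset.mem_filter])
  have hpath : ∀ x ∈ A', ∀ y ∈ B', p ^ 5 / 3072 * (A.card : ℝ) ^ 2 ≤
      (((A ×ˢ A).filter fun z => x + z.2 ∈ S ∧ z.1 + z.2 ∈ S ∧ z.1 + y ∈ S).card : ℝ) := by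
    intro x hx y hy
    refine (hpath0 x hx y hy).trans (le_of_eq ?_)
    apply congrArg (fun k : ℕ => (k : ℝ))
    apply congrArg Finset.card
    ext z
    simp only [Finset.mem_filter]
  have hn0 : (0 : ℝ) < (A.card : ℝ) := by exact_mod_cast hA.card_pos
  have hsum := BSG_.sumset A S A' B' _ hpath
  have hA'0 : (0 : ℝ) < (A'.card : ℝ) := lt_of_lt_of_le (by positivity) hcA
  have hA'n : A'.Nonempty := by
    rw [← Finset.card_pos]; exact_mod_cast hA'0
  refine ⟨A', hA', hA'n, hcA, ?_⟩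
  have hR : ((A' - A').card : ℝ) * (B'.card : ℝ) ≤ ((A' + B').card : ℝ) * ((A' + B').card : ℝ) := by
    exact_mod_cast Finset.ruzsa_triangle_inequality_sub_add_add A' B' A'
  set n : ℝ := (A.card : ℝ) with hn
  set a : ℝ := (A'.card : ℝ)
  set b : ℝ := (B'.card : ℝ)
  set s : ℝ := ((A' + B').card : ℝ)
  set D : ℝ := ((A' - A').card : ℝ)
  set σ : ℝ := (S.card : ℝ)
  have hσ0 : 0 ≤ σ := by positivity
  have hs0 : 0 ≤ s := by positivity
  have hD0 : 0 ≤ D := by positivity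
  have h1 : s * (p ^ 5 / 3072 * n ^ 2) ≤ K ^ 3 * n ^ 3 := by
    calc _ ≤ σ ^ 3 := hsum
      _ ≤ (K * n) ^ 3 := pow_le_pow_left₀ hσ0 hSK 3
      _ = _ := by ring
  have h2 : s * p ^ 5 ≤ 3072 * K ^ 3 * n := by
    have h3 : n ^ 2 * (s * p ^ 5) ≤ n ^ 2 * (3072 * K ^ 3 * n) := by
      calc n ^ 2 * (s * p ^ 5) = 3072 * (s * (p ^ 5 / 3072 * n ^ 2)) := by ring
        _ ≤ 3072 * (K ^ 3 * n ^ 3) := by linarith
        _ = _ := by ring
    exact le_of_mul_le_mul_left h3 (by positivity)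
  have h4 : (s * p ^ 5) ^ 2 ≤ (3072 * K ^ 3 * n) ^ 2 :=
    pow_le_pow_left₀ (by positivity) h2 2
  have h5 : D * (p / 4 * n) ≤ s * s := by
    calc D * (p / 4 * n) ≤ D * b := mul_le_mul_of_nonneg_left hcB hD0
      _ ≤ _ := hR
  -- D * p^11 * n / 4 ≤ 3072^2 K^6 n^2
  have h6 : n * (D * p ^ 11) ≤ n * (4 * 3072 ^ 2 * K ^ 6 * n) := by
    calc n * (D * p ^ 11) = 4 * p ^ 10 * (D * (p / 4 * n)) := by ring
      _ ≤ 4 * p ^ 10 * (s * s) := mul_le_mul_of_nonneg_left h5 (by positivity)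
      _ = 4 * (s * p ^ 5) ^ 2 := by ring
      _ ≤ 4 * (3072 * K ^ 3 * n) ^ 2 := by linarith
      _ = _ := by ring
  have h7 : D * p ^ 11 ≤ 4 * 3072 ^ 2 * K ^ 6 * n := le_of_mul_le_mul_left h6 hn0
  have h8 : D * p ^ 12 ≤ 2 ^ 30 * K ^ 6 * a := by
    calc D * p ^ 12 = D * p ^ 11 * p := by ring
      _ ≤ 4 * 3072 ^ 2 * K ^ 6 * n * p := mul_le_mul_of_nonneg_right h7 hp.le
      _ = 24 * 3072 ^ 2 * K ^ 6 * (p / 6 * n) := by ring
      _ ≤ 24 * 3072 ^ 2 * K ^ 6 * a := mul_le_mul_of_nonneg_left hcA (by positivity)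
      _ ≤ 2 ^ 30 * K ^ 6 * a := by
          apply mul_le_mul_of_nonneg_right _ hA'0.le
          apply mul_le_mul_of_nonneg_right _ (by positivity)
          norm_num
  have h9 : D = D * p ^ 12 * (p⁻¹) ^ 12 := by
    rw [mul_assoc, ← mul_pow, mul_inv_cancel₀ hp.ne', one_pow, mul_one]
  calc D = D * p ^ 12 * (p⁻¹) ^ 12 := h9
    _ ≤ 2 ^ 30 * K ^ 6 * a * (p⁻¹) ^ 12 := mul_le_mul_of_nonneg_right h8 (by positivity)
    _ = _ := by ring

end Pool.Agent.EMS
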