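import Pool.Agent.EMS.StmtsC

/-!
# EMS, module CEL: cells exist
-/

set_option autoImplicit false

open Finset
open scoped BigOperators Classical Pointwise

namespace Pool.Agent.EMS

namespace CEL_

variable {r : ℕ}

/-- the half sides of `q k` -/
def hs (T : SG r) (k : ℕ) (l : Fin T.d) : ℕ := k * T.M l / 4

lemma q_eq (T : SG r) (k : ℕ) (c : Fin r → ℤ) :
    T.q k c = (Fintype.piFinset fun l => Finset.Icc (-((hs T k l : ℕ) : ℤ)) ((hs T k l : ℕ) : ℤ)).image
      (fun u => c + T.φ u) := by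
  unfold SG.q
  congr 1
  ext u
  simp only [Finset.mem_filter, sbox, Fintype.mem_piFinset, Finset.mem_Icc, hs]
  constructor
  · rintro ⟨-, h⟩ l
    have h1 := h l
    have h2 := abs_le.mp (le_refl |u l|)
    have h3 := Nat.div_add_mod (k * T.M l) 4
    have h4 := Nat.mod_lt (k * T.M l) (by norm_num : 0 < 4)
    have h5 : (4 : ℤ) * ((k * T.M l / 4 : ℕ) : ℤ) + ((k * T.M l % 4 : ℕ) : ℤ) =
      (k : ℤ) * (T.M l : ℤ) := by exact_mod_cast h3
    constructor <;> omega
  · intro h
    have key : ∀ l, 4 * |u l| ≤ (k : ℤ) * (T.M l : ℤ) := by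
      intro l
      have h1 := h l
      have h3 := Nat.div_add_mod (k * T.M l) 4
      have h5 : (4 : ℤ) * ((k * T.M l / 4 : ℕ) : ℤ) + ((k * T.M l % 4 : ℕ) : ℤ) =
        (k : ℤ) * (T.M l : ℤ) := by exact_mod_cast h3
      have h6 : |u l| ≤ ((k * T.M l / 4 : ℕ) : ℤ) := abs_le.mpr ⟨by omega, h1.2⟩
      omega
    refine ⟨fun l => ?_, key⟩
    have h1 := key l
    have h2 := abs_le.mp (le_refl |u l|)
    have h3 : (0 : ℤ) ≤ |u l| := abs_nonneg _
    push_cast
    constructor <;> omega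

lemma mem_q (T : SG r) (k : ℕ) (c w : Fin r → ℤ) :
    w ∈ T.q k c ↔ ∃ u : Fin T.d → ℤ, (∀ l, |u l| ≤ ((hs T k l : ℕ) : ℤ)) ∧ c + T.φ u = w := by
  rw [q_eq, Finset.mem_image]
  constructor
  · rintro ⟨u, hu, rfl⟩
    rw [Fintype.mem_piFinset] at hu
    exact ⟨u, fun l => abs_le.mpr (Finset.mem_Icc.mp (hu l)), rfl⟩
  · rintro ⟨u, hu, rfl⟩
    refine ⟨u, ?_, rfl⟩
    rw [Fintype.mem_piFinset]
    intro l
    exact Finset.mem_Icc.mpr (abs_le.mp (hu l))

lemma card_q_le (T : SG r) (k : ℕ) (c : Fin r → ℤ) :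
    (T.q k c).card ≤ ∏ l, (2 * hs T k l + 1) := by
  rw [q_eq]
  refine Finset.card_image_le.trans ?_
  rw [Fintype.card_piFinset]
  apply le_of_eq
  apply Finset.prod_congr rfl
  intro l _
  rw [Int.card_Icc]
  omega

lemma card_q1 (T : SG r) (c : Fin r → ℤ) :
    (T.q 1 c).card = ∏ l, (2 * hs T 1 l + 1) := by
  rw [q_eq, Finset.card_image_of_injOn, Fintype.card_piFinset]
  · apply Finset.prod_congr rfl
    intro l _
    rw [Int.card_Icc]
    omega
  · intro u hu u' hu' h
    rw [Finset.mem_coe, Fintype.mem_piFinset] at hu hu'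
    have h1 : T.φ (u - u') = 0 := by
      have h2 : T.φ u = T.φ u' := by simpa using h
      rw [map_sub, h2, sub_self]
    have h3 : u - u' = 0 := by
      apply T.proper _ _ h1
      intro l
      have h4 := Finset.mem_Icc.mp (hu l)
      have h5 := Finset.mem_Icc.mp (hu' l)
      have h6 : hs T 1 l ≤ T.M l := by
        unfold hs
        omega
      rw [Pi.sub_apply]
      apply abs_le.mpr
      constructor <;> omega
    exact sub_eq_zero.mp h3

lemma q1_nonempty (T : SG r) (c : Fin r → ℤ) : c ∈ T.q 1 c := by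
  rw [mem_q]
  exact ⟨0, fun l => by simp, by simp⟩

/-- the two translates of `q 1` meet -/
def Mt (T : SG r) (w x : Fin r → ℤ) : Prop := ¬ Disjoint (T.q 1 w) (T.q 1 x)

lemma Mt_sub (T : SG r) (w x : Fin r → ℤ) (h : Mt T w x) : w ∈ T.q 2 x := by
  unfold Mt at h
  rw [Finset.not_disjoint_iff] at h
  obtain ⟨z, hz1, hz2⟩ := h
  rw [mem_q] at hz1 hz2
  obtain ⟨u, hu, rfl⟩ := hz1
  obtain ⟨u', hu', h2⟩ := hz2
  rw [mem_q]
  refine ⟨u' - u, fun l => ?_, ?_⟩
  · have h3 := abs_le.mp (hu l)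
    have h4 := abs_le.mp (hu' l)
    unfold hs at h3 h4 ⊢
    rw [Pi.sub_apply]
    apply abs_le.mpr
    constructor <;> omega
  · rw [map_sub, ← add_sub_assoc, h2]
    simp

lemma q1_sub (T : SG r) (k : ℕ) (hk : k ≤ 12) (x y : Fin r → ℤ) (h : x ∈ T.q k y) :
    T.q 1 x ⊆ T.q 13 y := by
  intro z hz
  rw [mem_q] at h hz ⊢
  obtain ⟨u, hu, rfl⟩ := h
  obtain ⟨u', hu', rfl⟩ := hz
  refine ⟨u + u', fun l => ?_, ?_⟩
  · have h3 := abs_le.mp (hu l)
    have h4 := abs_le.mp (hu' l)
    have h5 : hs T k l ≤ hs T 12 l := by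
      unfold hs
      exact Nat.div_le_div_right (Nat.mul_le_mul_right _ hk)
    rw [Pi.add_apply]
    have h6 : hs T 12 l + hs T 1 l ≤ hs T 13 l := by
      unfold hs
      omega
    apply abs_le.mpr
    constructor <;> omega
  · rw [map_add, add_assoc]

lemma sum_card_le {ι : Type} (s : Finset ι) (T : SG r) (x : ι → (Fin r → ℤ))
    (hd : ∀ i ∈ s, ∀ j ∈ s, i ≠ j → Disjoint (T.q 1 (x i)) (T.q 1 (x j)))
    (B : Finset (Fin r → ℤ)) (hB : ∀ i ∈ s, T.q 1 (x i) ⊆ B) :
    s.card * ∏ l, (2 * hs T 1 l + 1) ≤ B.card := by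
  have h1 : (s.biUnion fun i => T.q 1 (x i)).card = ∑ i ∈ s, (T.q 1 (x i)).card :=
    Finset.card_biUnion hd
  have h2 : ∑ i ∈ s, (T.q 1 (x i)).card = s.card * ∏ l, (2 * hs T 1 l + 1) := by
    rw [Finset.sum_congr rfl (fun i _ => card_q1 T (x i)), Finset.sum_const, smul_eq_mul]
  rw [← h2, ← h1]
  exact Finset.card_le_card (Finset.biUnion_subset.mpr hB)

lemma exists_max (T : SG r) (A : Finset (Fin r → ℤ)) :
    ∃ I ⊆ A, (∀ x ∈ I, ∀ y ∈ I, x ≠ y → Disjoint (T.q 1 x) (T.q 1 y)) ∧
      ∀ w ∈ A, ∃ x ∈ I, Mt T w x := by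
  let F : Finset (Finset (Fin r → ℤ)) :=
    A.powerset.filter (fun I => ∀ x ∈ I, ∀ y ∈ I, x ≠ y → Disjoint (T.q 1 x) (T.q 1 y))
  have hF : F.Nonempty := ⟨∅, by simp [F]⟩
  obtain ⟨I, hI, hmax⟩ := Finset.exists_max_image F Finset.card hF
  simp only [F, Finset.mem_filter, Finset.mem_powerset] at hI hmax
  refine ⟨I, hI.1, hI.2, fun w hw => ?_⟩
  by_contra hcon
  push Not at hcon
  have hdis : ∀ x ∈ I, Disjoint (T.q 1 w) (T.q 1 x) := by
    intro x hx
    have := hcon x hx
    unfold Mt at this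
    rwa [not_not] at this
  have hwI : w ∉ I := by
    intro hwI
    have := hdis w hwI
    rw [disjoint_self] at this
    have h2 := q1_nonempty T w
    rw [this] at h2
    simp at h2
  have h1 := hmax (insert w I) ⟨by
      intro z hz
      rcases Finset.mem_insert.mp hz with rfl | hz
      · exact hw
      · exact hI.1 hz, by
      intro x hx y hy hxy
      rcases Finset.mem_insert.mp hx with h1 | h1
      · rcases Finset.mem_insert.mp hy with h2 | h2
        · exact absurd (h1.trans h2.symm) hxy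
        · rw [h1]
          exact hdis y h2
      · rcases Finset.mem_insert.mp hy with h2 | h2
        · rw [h2]
          exact (hdis x h1).symm
        · exact hI.2 x h1 y h2 hxy⟩
  rw [Finset.card_insert_of_notMem hwI] at h1
  omega

end CEL_

open CEL_ in
theorem cel_proof : Stmt_CEL := by
  intro r N T hN hT
  obtain ⟨I, hIA, hId, hIm⟩ := exists_max T (box N)
  let m := I.card
  let e : Fin m ≃ I := I.equivFin.symm
  let x : Fin m → (Fin r → ℤ) := fun i => (e i).1
  have hxmem : ∀ i, x i ∈ I := fun i => (e i).2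
  have hxinj : ∀ i j, i ≠ j → x i ≠ x j := by
    intro i j hij h
    exact hij (e.injective (Subtype.ext h))
  have hxd : ∀ i j, i ≠ j → Disjoint (T.q 1 (x i)) (T.q 1 (x j)) :=
    fun i j hij => hId _ (hxmem i) _ (hxmem j) (hxinj i j hij)
  let C : Fin m → Finset (Fin r → ℤ) := fun i =>
    (box N).filter (fun w => Mt T w (x i) ∧ ∀ j < i, ¬ Mt T w (x j))
  refine ⟨m, x, C, ?_, ?_, ?_, ?_, ?_, ?_⟩
  · intro w hw
    obtain ⟨z, hz, hwz⟩ := hIm w hw
    have hne : (Finset.univ.filter (fun i : Fin m => Mt T w (x i))).Nonempty := by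
      refine ⟨e.symm ⟨z, hz⟩, ?_⟩
      simp only [Finset.mem_filter, Finset.mem_univ, true_and, x, Equiv.apply_symm_apply]
      exact hwz
    have h1 := Finset.min'_mem _ hne
    rw [Finset.mem_filter] at h1
    refine ⟨Finset.min' _ hne, ?_⟩
    simp only [C, Finset.mem_filter]
    refine ⟨hw, h1.2, fun j hj hMt => ?_⟩
    have h2 := Finset.min'_le (Finset.univ.filter (fun i : Fin m => Mt T w (x i))) j
      (by simp [hMt])
    exact absurd h2 (not_le.mpr hj)
  · intro i j hij
    rw [Finset.disjoint_left]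
    intro w hi hj
    simp only [C, Finset.mem_filter] at hi hj
    rcases lt_or_gt_of_ne hij with h | h
    · exact hj.2.2 i h hi.2.1
    · exact hi.2.2 j h hj.2.1
  · intro i
    exact Finset.filter_subset _ _
  · intro i w hw
    simp only [C, Finset.mem_filter] at hw
    exact Mt_sub T w (x i) hw.2.1
  · intro k hk y
    have h1 := sum_card_le (Finset.univ.filter fun i => x i ∈ T.q k y) T x
      (fun i _ j _ hij => hxd i j hij) (T.q 13 y) (fun i hi => q1_sub T k hk (x i) y
        (Finset.mem_filter.mp hi).2)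
    have h2 := h1.trans (card_q_le T 13 y)
    have h3 : ∏ l, (2 * hs T 13 l + 1) ≤ 24 ^ T.d * ∏ l, (2 * hs T 1 l + 1) := by
      have : (24 : ℕ) ^ T.d = ∏ _l : Fin T.d, 24 := by simp
      rw [this, ← Finset.prod_mul_distrib]
      apply Finset.prod_le_prod'
      intro l _
      unfold hs
      omega
    have h4 := h2.trans h3
    exact Nat.le_of_mul_le_mul_right h4 (Finset.prod_pos fun l _ => by omega)
  · have h1 := sum_card_le (Finset.univ : Finset (Fin m)) T x
      (fun i _ j _ hij => hxd i j hij)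
      (Fintype.piFinset fun l => Finset.Ico (-(N l : ℤ)) (2 * N l)) (by
        intro i _ z hz
        rw [mem_q] at hz
        obtain ⟨u, hu, rfl⟩ := hz
        rw [Fintype.mem_piFinset]
        intro l
        have h2 : T.φ u ∈ sbox N := by
          apply hT
          unfold SG.sy
          rw [Finset.mem_image]
          refine ⟨u, ?_, by simp⟩
          unfold sbox
          rw [Fintype.mem_piFinset]
          intro l
          rw [Finset.mem_Icc]
          have h3 := abs_le.mp (hu l)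
          have h6 : hs T 1 l ≤ T.M l := by
            unfold hs
            omega
          constructor <;> omega
        have h4 : x i ∈ box N := hIA (hxmem i)
        unfold sbox at h2
        unfold box at h4
        rw [Fintype.mem_piFinset] at h2 h4
        have h5 := Finset.mem_Icc.mp (h2 l)
        have h6 := Finset.mem_Ico.mp (h4 l)
        rw [Finset.mem_Ico, Pi.add_apply]
        constructor <;> omega)
    rw [Finset.card_univ, Fintype.card_fin, Fintype.card_piFinset] at h1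
    have h2 : ∏ l, (Finset.Ico (-(N l : ℤ)) (2 * N l)).card = 3 ^ r * ∏ l, N l := by
      have : (3 : ℕ) ^ r = ∏ _l : Fin r, 3 := by simp
      rw [this, ← Finset.prod_mul_distrib]
      apply Finset.prod_congr rfl
      intro l _
      rw [Int.card_Ico]
      omega
    rw [h2] at h1
    have h3 : ∏ l, (2 * T.M l + 1) ≤ 7 ^ T.d * ∏ l, (2 * hs T 1 l + 1) := by
      have : (7 : ℕ) ^ T.d = ∏ _l : Fin T.d, 7 := by simp
      rw [this, ← Finset.prod_mul_distrib]
      apply Finset.prod_le_prod'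
      intro l _
      unfold hs
      omega
    have h4 : m * ∏ l, (2 * T.M l + 1) ≤ 7 ^ T.d * 3 ^ r * ∏ l, N l := by
      calc m * ∏ l, (2 * T.M l + 1) ≤ m * (7 ^ T.d * ∏ l, (2 * hs T 1 l + 1)) :=
            Nat.mul_le_mul_left _ h3
        _ = 7 ^ T.d * (m * ∏ l, (2 * hs T 1 l + 1)) := by ring
        _ ≤ 7 ^ T.d * (3 ^ r * ∏ l, N l) := Nat.mul_le_mul_left _ h1
        _ = 7 ^ T.d * 3 ^ r * ∏ l, N l := by ring
    unfold SG.sv vol
    exact_mod_cast h4

end Pool.Agent.EMS
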