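import Pool.Agent.EMS.StmtsD

/-!
# EMS module CFG: one more GAP (from DPL, INT)
-/

set_option autoImplicit false

open Finset
open scoped BigOperators Classical

namespace Pool.Agent.EMS

namespace CFG_

theorem sv_pos {r : ℕ} (T : SG r) : 0 < T.sv := by
  unfold SG.sv
  exact Finset.prod_pos fun l _ => by positivity

theorem vol_pos {r : ℕ} (N : Fin r → ℕ) (hN : ∀ l, 1 ≤ N l) : 0 < vol N := by
  unfold vol
  exact Finset.prod_pos fun l _ => by
    have : (1 : ℝ) ≤ N l := by exact_mod_cast hN l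
    linarith

/-- pigeonhole over the times -/
theorem pig {α : Type} (Y : Finset α) (D : ℕ → α → Prop) (τ : ℕ) (J : ℝ) (v : ℝ) (hv : 0 < v)
    (hJ : 0 < J)
    (hJt : ∀ S : Finset ℕ, (∀ t ∈ S, ∃ y, D t y) → (S.card : ℝ) ≤ J)
    (h : v ≤ ((Y.filter fun y => ∃ t, τ ≤ t ∧ D t y).card : ℝ)) :
    ∃ t, τ ≤ t ∧ v / J ≤ ((Y.filter fun y => D t y).card : ℝ) := by
  set Y' := Y.filter fun y => ∃ t, τ ≤ t ∧ D t y with hY'
  have hex : ∀ y : α, ∃ t : ℕ, y ∈ Y' → τ ≤ t ∧ D t y := by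
    intro y
    by_cases hy : y ∈ Y'
    · obtain ⟨t, ht⟩ := (Finset.mem_filter.mp hy).2
      exact ⟨t, fun _ => ht⟩
    · exact ⟨0, fun h => absurd h hy⟩
  choose f hf using hex
  set S := Y'.image f with hS
  have hSJ : (S.card : ℝ) ≤ J := by
    apply hJt
    intro t ht
    obtain ⟨y, hy, rfl⟩ := Finset.mem_image.mp ht
    exact ⟨y, (hf y hy).2⟩
  by_contra hcon
  push Not at hcon
  have h1 : (Y'.card : ℝ) = ∑ t ∈ S, ((Y'.filter fun y => f y = t).card : ℝ) := by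
    have := Finset.card_eq_sum_card_fiberwise (s := Y') (t := S) (f := f)
      (fun y hy => Finset.mem_coe.mpr (Finset.mem_image_of_mem f hy))
    exact_mod_cast this
  have hYpos : 0 < Y'.card := by
    have : (0 : ℝ) < Y'.card := lt_of_lt_of_le hv h
    exact_mod_cast this
  have hSne : S.Nonempty := by
    rw [hS]
    exact (Finset.card_pos.mp hYpos).image f
  have h2 : ∑ t ∈ S, ((Y'.filter fun y => f y = t).card : ℝ) < ∑ t ∈ S, v / J := by
    apply Finset.sum_lt_sum_of_nonempty hSne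
    intro t ht
    obtain ⟨y0, hy0, hy0t⟩ := Finset.mem_image.mp ht
    have hτ : τ ≤ t := by rw [← hy0t]; exact (hf y0 hy0).1
    refine lt_of_le_of_lt ?_ (hcon t hτ)
    have : (Y'.filter fun y => f y = t) ⊆ (Y.filter fun y => D t y) := by
      intro y hy
      obtain ⟨hy1, hy2⟩ := Finset.mem_filter.mp hy
      refine Finset.mem_filter.mpr ⟨(Finset.mem_filter.mp hy1).1, ?_⟩
      rw [← hy2]
      exact (hf y hy1).2
    exact_mod_cast Finset.card_le_card this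
  rw [Finset.sum_const, nsmul_eq_mul] at h2
  have h3 : (S.card : ℝ) * (v / J) ≤ J * (v / J) := by
    apply mul_le_mul_of_nonneg_right hSJ
    positivity
  have h4 : J * (v / J) = v := by field_simp
  linarith

end CFG_

theorem cfg_proof (h1 : Stmt_DPL) (h2 : Stmt_INT) : Stmt_CFG := by
  obtain ⟨Z1, h1⟩ := h1
  obtain ⟨Z2, h2⟩ := h2
  refine ⟨max Z1 Z2, ?_⟩
  intro Z hZ r κ τ N V T β ξ hr hTd hκ hlogκ hrho hV hNT hN hvol hTN hβ hξ hvol2 hY
  have hZ1 : Z1 ≤ Z := le_trans (le_max_left _ _) hZ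
  have hZ2 : Z2 ≤ Z := le_trans (le_max_right _ _) hZ
  have hvp : 0 < vol N := CFG_.vol_pos N hN
  have hsv : 0 < T.sv := CFG_.sv_pos T
  obtain ⟨t0, ht0, hY0⟩ := CFG_.pig (ebox N)
    (fun t y => Real.exp (-β) * T.sv ≤ ((V t ∩ T.sy y).card : ℝ)) τ (Real.exp Z)
    (Real.exp (-ξ) * vol N) (by positivity) (Real.exp_pos _) (by
      intro S hS
      apply hNT S
      intro t ht
      obtain ⟨y, hy⟩ := hS t ht
      have hpos : (0 : ℝ) < ((V t ∩ T.sy y).card : ℝ) := lt_of_lt_of_le (by positivity) hy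
      have hpos' : 0 < (V t ∩ T.sy y).card := by exact_mod_cast hpos
      exact (Finset.card_pos.mp hpos').mono Finset.inter_subset_left) hY
  have hY1 : Real.exp (-(ξ + Z)) * vol N ≤
      (((ebox N).filter fun y => Real.exp (-β) * T.sv ≤ ((V t0 ∩ T.sy y).card : ℝ)).card : ℝ) := by
    refine le_trans (le_of_eq ?_) hY0
    rw [neg_add, Real.exp_add, Real.exp_neg (Z : ℝ)]
    ring
  obtain ⟨t, Q, c, ht, hkr, hQd, hdens, hQv, hspread⟩ := h1 Z hZ1 r κ t0 N V T β (ξ + Z) hr hTd hκ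
    hlogκ hV hN hvol hTN hβ (by positivity) (by
      refine le_trans (le_of_eq ?_) hvol2
      congr 1
      ring) hY1
  obtain ⟨T', hT1, hT2, hT3, hT4⟩ := h2 Z hZ2 r N T Q c hr hTd (by omega) hN hTN (by
    refine hdens.trans ?_
    have : (V t ∩ Q.bx c) ⊆ (box N ∩ Q.bx c) := Finset.inter_subset_inter_right (hV.sub t)
    exact_mod_cast Finset.card_le_card this)
  have hQv' : Real.exp (-(β + 2 * ξ + 2 * Z + (Z : ℝ) ^ 35)) * vol N ≤ Q.v := by
    refine le_trans (le_of_eq ?_) hQv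
    congr 2
    ring
  refine ⟨t, Q, c, T', ht0.trans ht, hQd, hdens, hQv', ?_, hT1, hT2, by omega, ?_⟩
  · intro y
    have := hspread y
    refine this.trans (le_of_eq ?_)
    congr 3
    ring
  · have h3 : Real.exp (-(2 * (Z : ℝ) ^ 35)) * T.sv *
        (Real.exp (-(β + 2 * ξ + 2 * Z + (Z : ℝ) ^ 35)) * vol N) ≤ T'.sv * vol N := by
      refine le_trans ?_ hT4
      gcongr
    have h4 : Real.exp (-(β + 2 * ξ + 2 * Z + 3 * (Z : ℝ) ^ 35)) =
        Real.exp (-(2 * (Z : ℝ) ^ 35)) * Real.exp (-(β + 2 * ξ + 2 * Z + (Z : ℝ) ^ 35)) := by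
      rw [← Real.exp_add]
      congr 1
      ring
    rw [h4]
    refine le_of_mul_le_mul_right ?_ hvp
    calc Real.exp (-(2 * (Z : ℝ) ^ 35)) * Real.exp (-(β + 2 * ξ + 2 * Z + (Z : ℝ) ^ 35)) * T.sv *
        vol N = Real.exp (-(2 * (Z : ℝ) ^ 35)) * T.sv *
        (Real.exp (-(β + 2 * ξ + 2 * Z + (Z : ℝ) ^ 35)) * vol N) := by ring
      _ ≤ _ := h3

end Pool.Agent.EMS
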