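import Pool.Agent.EMS.StmtsC

/-!
# EMS, module CHA: Chang's theorem via a Riesz product
-/

set_option autoImplicit false

open Finset
open scoped BigOperators Classical ComplexConjugate

namespace Pool.Agent.EMS

namespace CHA_

variable {N : ℕ} [NeZero N]

/-- dissociated sets -/
def Dis (Γ : Finset (ZMod N)) : Prop :=
  ∀ e : ZMod N → ℤ, (∀ g, |e g| ≤ 1) → ∑ g ∈ Γ, e g • g = 0 → ∀ g ∈ Γ, e g = 0

/-- the character -/
noncomputable abbrev ch (y : ZMod N) : ℂ := ZMod.stdAddChar y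

theorem sum_ch (a : ZMod N) : ∑ x : ZMod N, ch (x * a) = if a = 0 then (N : ℂ) else 0 := by
  have h := AddChar.sum_mulShift a (ZMod.isPrimitive_stdAddChar N)
  rw [ZMod.card] at h
  rw [h]
  split_ifs <;> simp

/-- one factor of the Riesz product -/
noncomputable def fac (C S : ℝ) (c : ZMod N → ℂ) (g x : ZMod N) : ℝ :=
  C + S * (c g * ch (g * x)).re

theorem fac_eq (C S : ℝ) (c : ZMod N → ℂ) (g x : ZMod N) :
    ((fac C S c g x : ℝ) : ℂ) = (C : ℂ) + (S / 2 : ℂ) * c g * ch (x * g) +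
      (S / 2 : ℂ) * conj (c g) * ch (x * (-g)) := by
  have h1 : ch (x * (-g)) = conj (ch (x * g)) := by
    unfold ch
    rw [mul_neg, AddChar.map_neg_eq_conj]
  have h2 : (((c g * ch (g * x)).re : ℝ) : ℂ) = (c g * ch (x * g) + conj (c g * ch (x * g))) / 2 := by
    rw [mul_comm g x]
    rw [Complex.add_conj]
    push_cast
    ring
  unfold fac
  push_cast
  rw [h2, h1, map_mul]
  ring

theorem sum_zero (C S : ℝ) (c : ZMod N → ℂ) (Γ : Finset (ZMod N)) :
    ∀ a : ZMod N, (∀ e : ZMod N → ℤ, (∀ g, |e g| ≤ 1) → a + ∑ g ∈ Γ, e g • g ≠ 0) →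
      ∑ x : ZMod N, ch (x * a) * ∏ g ∈ Γ, ((fac C S c g x : ℝ) : ℂ) = 0 := by
  induction Γ using Finset.induction_on with
  | empty =>
    intro a ha
    have h0 : a ≠ 0 := by
      have := ha (fun _ => 0) (fun _ => by simp)
      simpa using this
    simp only [prod_empty, mul_one]
    rw [sum_ch, if_neg h0]
  | insert b Γ hb ih =>
    intro a ha
    have key : ∀ s : ℤ, |s| ≤ 1 → ∑ x : ZMod N, ch (x * (a + s • b)) *
        ∏ g ∈ Γ, ((fac C S c g x : ℝ) : ℂ) = 0 := by
      intro s hs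
      apply ih
      intro e he h
      have h2 := ha (fun g => if g = b then s else e g) (by
        intro g
        show |(if g = b then s else e g)| ≤ 1
        by_cases hg : g = b
        · rw [if_pos hg]; exact hs
        · rw [if_neg hg]; exact he g)
      apply h2
      rw [sum_insert hb]
      show a + ((if b = b then s else e b) • b + ∑ g ∈ Γ, (if g = b then s else e g) • g) = 0
      have h3 : ∑ g ∈ Γ, (if g = b then s else e g) • g = ∑ g ∈ Γ, e g • g := by
        refine sum_congr rfl fun g hg => ?_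
        have hgb : g ≠ b := fun h4 => hb (h4 ▸ hg)
        rw [if_neg hgb]
      rw [h3, if_pos rfl, ← add_assoc]
      exact h
    have k0 := key 0 (by simp)
    have k1 := key 1 (by simp)
    have k2 := key (-1) (by simp)
    rw [zero_smul, add_zero] at k0
    rw [one_smul] at k1
    rw [neg_smul, one_smul] at k2
    have e : ∀ x : ZMod N, ch (x * a) * ∏ g ∈ insert b Γ, ((fac C S c g x : ℝ) : ℂ) =
        (C : ℂ) * (ch (x * a) * ∏ g ∈ Γ, ((fac C S c g x : ℝ) : ℂ)) +
        ((S / 2 : ℂ) * c b) * (ch (x * (a + b)) * ∏ g ∈ Γ, ((fac C S c g x : ℝ) : ℂ)) +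
        ((S / 2 : ℂ) * conj (c b)) * (ch (x * (a + -b)) * ∏ g ∈ Γ, ((fac C S c g x : ℝ) : ℂ)) := by
      intro x
      have m1 : ch (x * (a + b)) = ch (x * a) * ch (x * b) := by
        unfold ch; rw [mul_add, AddChar.map_add_eq_mul]
      have m2 : ch (x * (a + -b)) = ch (x * a) * ch (x * (-b)) := by
        unfold ch; rw [mul_add, AddChar.map_add_eq_mul]
      rw [prod_insert hb, fac_eq, m1, m2]
      ring
    simp only [e]
    rw [sum_add_distrib, sum_add_distrib, ← mul_sum, ← mul_sum, ← mul_sum, k0, k1, k2]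
    ring

theorem sum_main (C S : ℝ) (c : ZMod N → ℂ) (Γ : Finset (ZMod N)) :
    Dis Γ → ∑ x : ZMod N, ∏ g ∈ Γ, ((fac C S c g x : ℝ) : ℂ) = (N : ℂ) * (C : ℂ) ^ Γ.card := by
  induction Γ using Finset.induction_on with
  | empty =>
    intro _
    simp
  | insert b Γ hb ih =>
    intro hD
    have hD' : Dis Γ := by
      intro e he hs g hg
      have h2 := hD (fun g => if g = b then 0 else e g) (by
        intro g
        show |(if g = b then 0 else e g)| ≤ 1
        by_cases hg : g = b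
        · rw [if_pos hg]; simp
        · rw [if_neg hg]; exact he g) (by
        rw [sum_insert hb]
        show (if b = b then 0 else e b) • b + ∑ g ∈ Γ, (if g = b then 0 else e g) • g = 0
        rw [if_pos rfl, zero_smul, zero_add, ← hs]
        refine sum_congr rfl fun g hg => ?_
        have hgb : g ≠ b := fun h4 => hb (h4 ▸ hg)
        rw [if_neg hgb]) g (mem_insert_of_mem hg)
      have hgb : g ≠ b := fun h4 => hb (h4 ▸ hg)
      simp only [if_neg hgb] at h2
      exact h2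
    have key : ∀ s : ℤ, |s| = 1 → ∑ x : ZMod N, ch (x * (s • b)) *
        ∏ g ∈ Γ, ((fac C S c g x : ℝ) : ℂ) = 0 := by
      intro s hs
      apply sum_zero
      intro e he h
      have h2 := hD (fun g => if g = b then s else e g) (by
        intro g
        show |(if g = b then s else e g)| ≤ 1
        by_cases hg : g = b
        · rw [if_pos hg, hs]
        · rw [if_neg hg]; exact he g) (by
        rw [sum_insert hb]
        show (if b = b then s else e b) • b + ∑ g ∈ Γ, (if g = b then s else e g) • g = 0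
        have h3 : ∑ g ∈ Γ, (if g = b then s else e g) • g = ∑ g ∈ Γ, e g • g := by
          refine sum_congr rfl fun g hg => ?_
          have hgb : g ≠ b := fun h4 => hb (h4 ▸ hg)
          rw [if_neg hgb]
        rw [h3, if_pos rfl]
        exact h) b (mem_insert_self _ _)
      have h2' : (if b = b then s else e b) = 0 := h2
      rw [if_pos rfl] at h2'
      rw [h2'] at hs
      simp at hs
    have k1 := key 1 (by simp)
    have k2 := key (-1) (by simp)
    rw [one_smul] at k1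
    rw [neg_smul, one_smul] at k2
    have e : ∀ x : ZMod N, ∏ g ∈ insert b Γ, ((fac C S c g x : ℝ) : ℂ) =
        (C : ℂ) * ∏ g ∈ Γ, ((fac C S c g x : ℝ) : ℂ) +
        ((S / 2 : ℂ) * c b) * (ch (x * b) * ∏ g ∈ Γ, ((fac C S c g x : ℝ) : ℂ)) +
        ((S / 2 : ℂ) * conj (c b)) * (ch (x * -b) * ∏ g ∈ Γ, ((fac C S c g x : ℝ) : ℂ)) := by
      intro x
      rw [prod_insert hb, fac_eq]
      ring
    simp only [e]
    rw [sum_add_distrib, sum_add_distrib, ← mul_sum, ← mul_sum, ← mul_sum, k1, k2, ih hD',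
      card_insert_of_notMem hb]
    ring

theorem exp_le {t : ℝ} (h1 : -1 ≤ t) (h2 : t ≤ 1) :
    Real.exp (t / 2) ≤ Real.cosh (1 / 2) + Real.sinh (1 / 2) * t := by
  have hc := convexOn_exp.2 (Set.mem_univ (-1 / 2 : ℝ)) (Set.mem_univ (1 / 2 : ℝ))
    (by linarith : 0 ≤ (1 - t) / 2) (by linarith : 0 ≤ (1 + t) / 2) (by ring)
  simp only [smul_eq_mul] at hc
  have e1 : (1 - t) / 2 * (-1 / 2 : ℝ) + (1 + t) / 2 * (1 / 2 : ℝ) = t / 2 := by
    ring
  rw [e1] at hc
  refine hc.trans (le_of_eq ?_)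
  rw [Real.cosh_eq, Real.sinh_eq]
  have e2 : (-1 / 2 : ℝ) = -(1 / 2) := by norm_num
  rw [e2]
  ring

theorem norm_ch (y : ZMod N) : ‖ch y‖ = 1 := by
  unfold ch
  exact AddChar.norm_apply _ _

theorem card_bound (T : Finset (ZMod N)) (hT : T.Nonempty) (Γ : Finset (ZMod N)) (hD : Dis Γ)
    (hS : ∀ g ∈ Γ, 1 / 2 < ‖fc T g‖) :
    (Γ.card : ℝ) ≤ 8 * Real.log ((N : ℝ) / (T.card : ℝ)) := by
  have hT0 : (0 : ℝ) < T.card := by exact_mod_cast hT.card_pos
  have hN0 : (0 : ℝ) < N := by exact_mod_cast Nat.pos_of_ne_zero (NeZero.ne N)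
  -- phases
  have hph : ∀ z : ℂ, ∃ c : ℂ, ‖c‖ = 1 ∧ (c * z).re = ‖z‖ := by
    intro z
    by_cases hz : z = 0
    · exact ⟨1, by simp, by simp [hz]⟩
    · have hz' : (‖z‖ : ℂ) ≠ 0 := by
        exact_mod_cast norm_ne_zero_iff.mpr hz
      refine ⟨conj z / ‖z‖, ?_, ?_⟩
      · rw [norm_div, Complex.norm_conj, Complex.norm_real, norm_norm,
          div_self (norm_ne_zero_iff.mpr hz)]
      · have : conj z / (‖z‖ : ℂ) * z = (‖z‖ : ℂ) := by
          have h1 : conj z * z = (‖z‖ : ℂ) ^ 2 := by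
            rw [mul_comm, Complex.mul_conj, Complex.normSq_eq_norm_sq]
            push_cast
            rfl
          rw [div_mul_eq_mul_div, h1, sq, mul_div_assoc, div_self hz', mul_one]
        rw [this, Complex.ofReal_re]
  choose ph hph1 hph2 using hph
  let c : ZMod N → ℂ := fun g => ph (fc T g)
  have hc1 : ∀ g, ‖c g‖ = 1 := fun g => hph1 _
  have hre : ∀ g x, |(c g * ch (g * x)).re| ≤ 1 := by
    intro g x
    refine (Complex.abs_re_le_norm _).trans ?_
    rw [norm_mul, hc1, norm_ch, one_mul]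
  have hmean : ∀ g, ∑ x ∈ T, (c g * ch (g * x)).re = T.card * ‖fc T g‖ := by
    intro g
    have h1 : ∑ x ∈ T, (c g * ch (g * x)).re = (c g * ∑ x ∈ T, ch (g * x)).re := by
      rw [mul_sum, Complex.re_sum]
    have h2 : ∑ x ∈ T, ch (g * x) = (T.card : ℂ) * fc T g := by
      unfold fc
      have : (T.card : ℂ) ≠ 0 := by
        exact_mod_cast hT.card_pos.ne'
      field_simp
    rw [h1, h2, ← hph2 (fc T g)]
    have h3 : c g * ((T.card : ℂ) * fc T g) = ((T.card : ℝ) : ℂ) * (ph (fc T g) * fc T g) := by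
      show ph (fc T g) * ((T.card : ℂ) * fc T g) = _
      push_cast
      ring
    rw [h3, Complex.re_ofReal_mul]
  -- total of the Riesz product
  have hsum : ∑ x : ZMod N, ∏ g ∈ Γ, fac (Real.cosh (1 / 2)) (Real.sinh (1 / 2)) c g x =
      N * Real.cosh (1 / 2) ^ Γ.card := by
    have h := sum_main (Real.cosh (1 / 2)) (Real.sinh (1 / 2)) c Γ hD
    have h' : ((∑ x : ZMod N, ∏ g ∈ Γ, fac (Real.cosh (1 / 2)) (Real.sinh (1 / 2)) c g x : ℝ) : ℂ)
        = ((N * Real.cosh (1 / 2) ^ Γ.card : ℝ) : ℂ) := by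
      push_cast
      push_cast at h
      exact h
    exact_mod_cast h'
  let G : ZMod N → ℝ := fun x => ∑ g ∈ Γ, (c g * ch (g * x)).re / 2
  have hlow : ∀ x, Real.exp (G x) ≤ ∏ g ∈ Γ, fac (Real.cosh (1 / 2)) (Real.sinh (1 / 2)) c g x := by
    intro x
    show Real.exp (∑ g ∈ Γ, (c g * ch (g * x)).re / 2) ≤ _
    rw [Real.exp_sum]
    refine prod_le_prod (fun g _ => (Real.exp_pos _).le) fun g _ => ?_
    have := abs_le.mp (hre g x)
    exact exp_le this.1 this.2
  have hpos : ∀ x, 0 ≤ ∏ g ∈ Γ, fac (Real.cosh (1 / 2)) (Real.sinh (1 / 2)) c g x := fun x =>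
    (Real.exp_pos _).le.trans (hlow x)
  have h1 : ∑ x ∈ T, Real.exp (G x) ≤ N * Real.cosh (1 / 2) ^ Γ.card := by
    calc ∑ x ∈ T, Real.exp (G x) ≤
          ∑ x ∈ T, ∏ g ∈ Γ, fac (Real.cosh (1 / 2)) (Real.sinh (1 / 2)) c g x :=
          sum_le_sum fun x _ => hlow x
      _ ≤ ∑ x : ZMod N, ∏ g ∈ Γ, fac (Real.cosh (1 / 2)) (Real.sinh (1 / 2)) c g x :=
          sum_le_sum_of_subset_of_nonneg (subset_univ _) fun x _ _ => hpos x
      _ = _ := hsum
  -- Jensen
  have hJ : T.card * Real.exp ((∑ x ∈ T, G x) / T.card) ≤ ∑ x ∈ T, Real.exp (G x) := by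
    have h := convexOn_exp.map_sum_le (t := T) (w := fun _ => (T.card : ℝ)⁻¹) (p := G)
      (fun _ _ => by positivity) (by
        rw [sum_const, nsmul_eq_mul, mul_inv_cancel₀ hT0.ne']) (fun _ _ => Set.mem_univ _)
    simp only [smul_eq_mul, ← mul_sum] at h
    have h3 : (∑ x ∈ T, G x) / T.card = (T.card : ℝ)⁻¹ * ∑ x ∈ T, G x := by
      rw [div_eq_inv_mul]
    rw [h3]
    calc (T.card : ℝ) * Real.exp ((T.card : ℝ)⁻¹ * ∑ x ∈ T, G x)
        ≤ T.card * ((T.card : ℝ)⁻¹ * ∑ x ∈ T, Real.exp (G x)) :=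
          mul_le_mul_of_nonneg_left h hT0.le
      _ = ∑ x ∈ T, Real.exp (G x) := by
          rw [← mul_assoc, mul_inv_cancel₀ hT0.ne', one_mul]
  have hG : ∑ x ∈ T, G x = T.card * (∑ g ∈ Γ, ‖fc T g‖ / 2) := by
    show ∑ x ∈ T, ∑ g ∈ Γ, (c g * ch (g * x)).re / 2 = _
    rw [sum_comm, mul_sum]
    refine sum_congr rfl fun g _ => ?_
    rw [← sum_div, hmean]
    ring
  have hG2 : (Γ.card : ℝ) / 4 ≤ (∑ x ∈ T, G x) / T.card := by
    rw [hG, mul_div_assoc, mul_comm, div_mul_cancel₀ _ hT0.ne']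
    have : ∑ g ∈ Γ, (1 / 4 : ℝ) ≤ ∑ g ∈ Γ, ‖fc T g‖ / 2 :=
      sum_le_sum fun g hg => by have := hS g hg; linarith
    rw [sum_const, nsmul_eq_mul] at this
    linarith
  have hcosh : Real.cosh (1 / 2) ^ Γ.card ≤ Real.exp ((Γ.card : ℝ) / 8) := by
    have h := Real.cosh_le_exp_half_sq (1 / 2)
    have h' : Real.exp ((1 / 2 : ℝ) ^ 2 / 2) = Real.exp (1 / 8) := by norm_num
    rw [h'] at h
    calc Real.cosh (1 / 2) ^ Γ.card ≤ Real.exp (1 / 8) ^ Γ.card :=
          pow_le_pow_left₀ (Real.cosh_pos _).le h _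
      _ = Real.exp ((Γ.card : ℝ) / 8) := by
          rw [← Real.exp_nat_mul]
          congr 1
          ring
  have hfin : (T.card : ℝ) * Real.exp ((Γ.card : ℝ) / 4) ≤ N * Real.exp ((Γ.card : ℝ) / 8) := by
    calc (T.card : ℝ) * Real.exp ((Γ.card : ℝ) / 4) ≤
          T.card * Real.exp ((∑ x ∈ T, G x) / T.card) :=
          mul_le_mul_of_nonneg_left (Real.exp_le_exp.mpr hG2) hT0.le
      _ ≤ ∑ x ∈ T, Real.exp (G x) := hJ
      _ ≤ N * Real.cosh (1 / 2) ^ Γ.card := h1
      _ ≤ N * Real.exp ((Γ.card : ℝ) / 8) := mul_le_mul_of_nonneg_left hcosh hN0.le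
  have hlast : Real.exp ((Γ.card : ℝ) / 8) ≤ (N : ℝ) / T.card := by
    rw [le_div_iff₀ hT0]
    have e1 : Real.exp ((Γ.card : ℝ) / 4) =
        Real.exp ((Γ.card : ℝ) / 8) * Real.exp ((Γ.card : ℝ) / 8) := by
      rw [← Real.exp_add]
      congr 1
      ring
    rw [e1] at hfin
    have hp := Real.exp_pos ((Γ.card : ℝ) / 8)
    have : Real.exp ((Γ.card : ℝ) / 8) * (Real.exp ((Γ.card : ℝ) / 8) * T.card) ≤
        Real.exp ((Γ.card : ℝ) / 8) * N := by
      calc _ = (T.card : ℝ) * (Real.exp ((Γ.card : ℝ) / 8) * Real.exp ((Γ.card : ℝ) / 8)) := by ring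
        _ ≤ N * Real.exp ((Γ.card : ℝ) / 8) := hfin
        _ = _ := by ring
    exact le_of_mul_le_mul_left this hp
  have hlog := (Real.le_log_iff_exp_le (div_pos hN0 hT0)).mpr hlast
  linarith

end CHA_

theorem cha_proof : Stmt_CHA := by
  intro N _ T hT
  -- a maximal dissociated subset of the spectrum
  let P : Finset (Finset (ZMod N)) :=
    univ.filter fun Γ => CHA_.Dis Γ ∧ ∀ g ∈ Γ, 1 / 2 < ‖fc T g‖
  have hP : P.Nonempty := by
    refine ⟨∅, ?_⟩
    simp only [P, mem_filter, mem_univ, true_and]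
    exact ⟨fun e _ _ g hg => absurd hg (notMem_empty g), fun g hg => absurd hg (notMem_empty g)⟩
  obtain ⟨Γ, hΓ, hmax⟩ := exists_max_image P (fun Γ => Γ.card) hP
  simp only [P, mem_filter, mem_univ, true_and] at hΓ hmax
  obtain ⟨hD, hS⟩ := hΓ
  refine ⟨Γ, CHA_.card_bound T hT Γ hD hS, ?_⟩
  intro γ hγ
  by_cases hmem : γ ∈ Γ
  · refine ⟨fun g => if g = γ then 1 else 0, fun g => ?_, ?_⟩
    · show |(if g = γ then (1 : ℤ) else 0)| ≤ 1
      by_cases h : g = γ
      · rw [if_pos h]; simp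
      · rw [if_neg h]; simp
    · show γ = ∑ g ∈ Γ, (if g = γ then (1 : ℤ) else 0) • g
      rw [sum_eq_single γ]
      · rw [if_pos rfl, one_smul]
      · intro b _ hb
        rw [if_neg hb, zero_smul]
      · intro h
        exact absurd hmem h
  · have hnot : ¬ CHA_.Dis (insert γ Γ) := by
      intro hD'
      have := hmax (insert γ Γ) ⟨hD', fun g hg => by
        rcases mem_insert.mp hg with h | h
        · rw [h]; exact hγ
        · exact hS g h⟩
      rw [card_insert_of_notMem hmem] at this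
      omega
    unfold CHA_.Dis at hnot
    push Not at hnot
    obtain ⟨e, he, hsum, g0, hg0, hne⟩ := hnot
    rw [sum_insert hmem] at hsum
    have hγe : e γ ≠ 0 := by
      intro h0
      rw [h0, zero_smul, zero_add] at hsum
      have h2 := hD e he hsum
      rcases mem_insert.mp hg0 with h | h
      · exact hne (h ▸ h0)
      · exact hne (h2 g0 h)
    have habs : |e γ| = 1 := by
      have h1 := he γ
      have h2 : 0 < |e γ| := abs_pos.mpr hγe
      omega
    have hsq : e γ * e γ = 1 := by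
      rw [← abs_mul_abs_self, habs, one_mul]
    refine ⟨fun g => -(e γ) * e g, fun g => ?_, ?_⟩
    · show |-(e γ) * e g| ≤ 1
      rw [abs_mul, abs_neg, habs, one_mul]
      exact he g
    · have h1 : ∑ g ∈ Γ, e g • g = -(e γ • γ) := by
        rw [eq_neg_iff_add_eq_zero, add_comm]
        exact hsum
      have h2 : ∑ g ∈ Γ, (-(e γ) * e g) • g = -(e γ) • ∑ g ∈ Γ, e g • g := by
        rw [smul_sum]
        refine sum_congr rfl fun g _ => ?_
        rw [mul_smul]
      rw [h2, h1, smul_neg, neg_smul, neg_neg, smul_smul, hsq, one_smul]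

end Pool.Agent.EMS
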