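import Pool.Agent.EMS.StmtsC

/-!
# EMS, module CLC: the conversion lemma (from CLZ)
Recipe: /team-store/MP_973cda_EMS.md, paper proof /team-store/MP_973cda_proof_helper64.md
-/

set_option autoImplicit false
set_option maxHeartbeats 4000000
set_option linter.unusedVariables false
set_option linter.unusedSectionVars false

open Finset
open scoped BigOperators

namespace Pool.Agent.EMS

namespace CLC_

variable {D : ℕ}

/-- the scaled embedding of `ℤ^D` -/
noncomputable def io (N : Fin D → ℝ) : (Fin D → ℤ) →ₗ[ℤ] EuclideanSpace ℝ (Fin D) where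
  toFun y := WithLp.toLp 2 fun l => (y l : ℝ) / N l
  map_add' x y := by
    ext l
    simp [add_div]
  map_smul' m x := by
    ext l
    simp [mul_div_assoc]

theorem io_apply (N : Fin D → ℝ) (y : Fin D → ℤ) (l : Fin D) : io N y l = (y l : ℝ) / N l := rfl

theorem io_coord (N : Fin D → ℝ) (hN : ∀ l, 0 < N l) (y : Fin D → ℤ) (l : Fin D) :
    |(y l : ℝ)| ≤ ‖io N y‖ * N l := by
  have h := PiLp.norm_apply_le (io N y) l
  rw [io_apply, Real.norm_eq_abs, abs_div, abs_of_pos (hN l), div_le_iff₀ (hN l)] at h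
  exact h

theorem io_norm_le (N : Fin D → ℝ) (hN : ∀ l, 0 < N l) (y : Fin D → ℤ)
    (hy : ∀ l, |(y l : ℝ)| ≤ N l) : ‖io N y‖ ≤ Real.sqrt D := by
  rw [EuclideanSpace.norm_eq]
  apply Real.sqrt_le_sqrt
  calc ∑ i, ‖io N y i‖ ^ 2 ≤ ∑ i : Fin D, (1 : ℝ) := by
        apply Finset.sum_le_sum
        intro i _
        rw [io_apply, Real.norm_eq_abs, abs_div, abs_of_pos (hN i)]
        have h1 : |(y i : ℝ)| / N i ≤ 1 := by
          rw [div_le_one (hN i)]
          exact hy i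
        have h0 : 0 ≤ |(y i : ℝ)| / N i := div_nonneg (abs_nonneg _) (hN i).le
        nlinarith
    _ = D := by simp

theorem io_inj (N : Fin D → ℝ) (hN : ∀ l, 0 < N l) (y : Fin D → ℤ) (h : io N y = 0) : y = 0 := by
  funext l
  have h1 := io_coord N hN y l
  rw [h, norm_zero, zero_mul] at h1
  have h2 : (y l : ℝ) = 0 := abs_eq_zero.mp (le_antisymm h1 (abs_nonneg _))
  exact_mod_cast h2

theorem fin_ball (N : Fin D → ℝ) (hN : ∀ l, 0 < N l) (R : ℝ) :
    {y : Fin D → ℤ | ‖io N y‖ ≤ R}.Finite := by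
  apply Set.Finite.subset (Set.finite_Icc (fun l => -⌈R * N l⌉) (fun l => ⌈R * N l⌉))
  intro y hy
  have h : ∀ l, |y l| ≤ ⌈R * N l⌉ := by
    intro l
    have h1 : |(y l : ℝ)| ≤ R * N l :=
      le_trans (io_coord N hN y l) (mul_le_mul_of_nonneg_right hy (hN l).le)
    have h2 : ((|y l| : ℤ) : ℝ) ≤ (⌈R * N l⌉ : ℝ) := by
      push_cast
      exact le_trans h1 (Int.le_ceil _)
    exact_mod_cast h2
  rw [Set.mem_Icc]
  constructor
  · intro l
    exact (abs_le.mp (h l)).1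
  · intro l
    exact (abs_le.mp (h l)).2

theorem pick (D : ℕ) (f : ℕ → ℕ) (hf : ∀ k, f k ≤ f (k + 1)) (hD : ∀ k, f k ≤ D) :
    ∃ k, k ≤ D ∧ f k = f (k + 1) := by
  by_contra hcon
  push Not at hcon
  have h : ∀ k, k ≤ D + 1 → k ≤ f k := by
    intro k
    induction k with
    | zero => intro _; exact Nat.zero_le _
    | succ k ih =>
      intro hk
      have h1 := ih (by omega)
      have h2 := hcon k (by omega)
      have h3 := hf k
      omega
  have h1 := h (D + 1) le_rfl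
  have h2 := hD (D + 1)
  omega

/-- rounding in the span of a set of short vectors -/
theorem rounding {V : Type} [NormedAddCommGroup V] [NormedSpace ℝ V] [FiniteDimensional ℝ V]
    (A : Set V) (ρ : ℝ) (hρ : 0 ≤ ρ) (hA : ∀ a ∈ A, ‖a‖ ≤ ρ) (s : V)
    (hs : s ∈ Submodule.span ℝ A) :
    ∃ z ∈ Submodule.span ℤ A, ‖s - z‖ ≤ (Module.finrank ℝ V : ℝ) * ρ / 2 := by
  classical
  obtain ⟨b, hbA, hbs, hbi⟩ := exists_linearIndependent ℝ A
  have hbf : b.Finite := hbi.setFinite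
  obtain ⟨B, rfl⟩ : ∃ B : Finset V, b = (B : Set V) := ⟨hbf.toFinset, by simp⟩
  rw [← hbs] at hs
  obtain ⟨f, hf, hfs⟩ := Submodule.mem_span_finset.mp hs
  refine ⟨∑ a ∈ B, (round (f a)) • a, ?_, ?_⟩
  · apply Submodule.sum_mem
    intro a ha
    exact Submodule.smul_mem _ _ (Submodule.subset_span (hbA ha))
  · have hcard : B.card ≤ Module.finrank ℝ V := by
      have := hbi.finset_card_le_finrank
      exact this
    have h1 : s - ∑ a ∈ B, (round (f a)) • a = ∑ a ∈ B, (f a - (round (f a) : ℝ)) • a := by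
      rw [← hfs, ← Finset.sum_sub_distrib]
      apply Finset.sum_congr rfl
      intro a _
      rw [sub_smul, Int.cast_smul_eq_zsmul]
    rw [h1]
    calc ‖∑ a ∈ B, (f a - (round (f a) : ℝ)) • a‖ ≤ ∑ a ∈ B, ‖(f a - (round (f a) : ℝ)) • a‖ :=
          norm_sum_le _ _
      _ ≤ ∑ a ∈ B, (ρ / 2) := by
          apply Finset.sum_le_sum
          intro a ha
          rw [norm_smul, Real.norm_eq_abs]
          have h2 : |f a - (round (f a) : ℝ)| ≤ 1 / 2 := abs_sub_round (f a)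
          have h3 : ‖a‖ ≤ ρ := hA a (hbA ha)
          calc |f a - (round (f a) : ℝ)| * ‖a‖ ≤ (1 / 2) * ρ :=
                mul_le_mul h2 h3 (norm_nonneg _) (by norm_num)
            _ = ρ / 2 := by ring
      _ = (B.card : ℝ) * (ρ / 2) := by rw [Finset.sum_const, nsmul_eq_mul]
      _ ≤ (Module.finrank ℝ V : ℝ) * ρ / 2 := by
          have : (B.card : ℝ) ≤ (Module.finrank ℝ V : ℝ) := by exact_mod_cast hcard
          nlinarith

/-- the choice of the scale and of the subspace -/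
theorem setup (hD : 1 ≤ D) (N : Fin D → ℝ) (hN : ∀ l, 0 < N l)
    (KK : Submodule ℤ (Fin D → ℤ)) :
    ∃ (ρ : ℝ) (S : Submodule ℝ (EuclideanSpace ℝ (Fin D))), 0 < ρ ∧ 2 * D * ρ ≤ 1 ∧
      1 ≤ ρ * (2 * D) ^ (D + 1) ∧
      (∀ y ∈ KK, ‖io N y‖ ≤ 2 * D * ρ → io N y ∈ S) ∧
      (∀ s ∈ S, ∃ κ ∈ KK, io N κ ∈ S ∧ ‖s - io N κ‖ ≤ D * ρ / 2) := by
  classical
  set c : ℝ := 2 * D with hc
  have hD1 : (1 : ℝ) ≤ D := by exact_mod_cast hD
  have hc1 : 1 ≤ c := by rw [hc]; linarith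
  have hc0 : 0 < c := by linarith
  let rr : ℕ → ℝ := fun k => c ^ k / c ^ (D + 1)
  let Sp : ℕ → Submodule ℝ (EuclideanSpace ℝ (Fin D)) := fun k =>
    Submodule.span ℝ (io N '' {y | y ∈ KK ∧ ‖io N y‖ ≤ rr k})
  have hrr : ∀ k, rr (k + 1) = c * rr k := by
    intro k
    show c ^ (k + 1) / c ^ (D + 1) = c * (c ^ k / c ^ (D + 1))
    rw [pow_succ]
    ring
  have hrr0 : ∀ k, 0 < rr k := fun k => div_pos (pow_pos hc0 _) (pow_pos hc0 _)
  have hrrmono : ∀ k, rr k ≤ rr (k + 1) := by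
    intro k
    rw [hrr]
    have := hrr0 k
    nlinarith
  have hmono : ∀ k, Sp k ≤ Sp (k + 1) := by
    intro k
    apply Submodule.span_mono
    apply Set.image_mono
    intro y hy
    exact ⟨hy.1, le_trans hy.2 (hrrmono k)⟩
  obtain ⟨k, hkD, hk⟩ := pick D (fun k => Module.finrank ℝ (Sp k))
    (fun k => Submodule.finrank_mono (hmono k))
    (fun k => by
      have := Submodule.finrank_le (Sp k)
      rwa [finrank_euclideanSpace_fin] at this)
  have hSp : Sp k = Sp (k + 1) := Submodule.eq_of_le_of_finrank_eq (hmono k) hk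
  refine ⟨rr k, Sp k, hrr0 k, ?_, ?_, ?_, ?_⟩
  · show c * rr k ≤ 1
    rw [← hrr]
    show c ^ (k + 1) / c ^ (D + 1) ≤ 1
    rw [div_le_one (pow_pos hc0 _)]
    exact pow_le_pow_right₀ hc1 (by omega)
  · show 1 ≤ c ^ k / c ^ (D + 1) * c ^ (D + 1)
    rw [div_mul_cancel₀ _ (pow_pos hc0 _).ne']
    exact one_le_pow₀ hc1
  · intro y hy hyn
    rw [hSp]
    apply Submodule.subset_span
    refine ⟨y, ⟨hy, ?_⟩, rfl⟩
    rw [hrr]
    exact hyn
  · intro s hs
    obtain ⟨z, hz, hzn⟩ := rounding (io N '' {y | y ∈ KK ∧ ‖io N y‖ ≤ rr k}) (rr k) (hrr0 k).le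
      (by
        rintro a ⟨y, hy, rfl⟩
        exact hy.2) s hs
    rw [finrank_euclideanSpace_fin] at hzn
    have hz1 : z ∈ KK.map (io N) := by
      have : Submodule.span ℤ (io N '' {y | y ∈ KK ∧ ‖io N y‖ ≤ rr k}) ≤ KK.map (io N) := by
        rw [Submodule.span_le]
        rintro a ⟨y, hy, rfl⟩
        exact ⟨y, hy.1, rfl⟩
      exact this hz
    obtain ⟨κ, hκ, rfl⟩ := hz1
    exact ⟨κ, hκ, Submodule.span_subset_span ℤ ℝ _ hz, hzn⟩

/-- vectors of `Λ` in the subspace `S` are killed by `φ` -/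
theorem kill (r : ℕ) (Λ : Submodule ℤ (Fin D → ℤ)) (N : Fin D → ℝ) (hN : ∀ l, 0 < N l)
    (φ : Λ →ₗ[ℤ] (Fin r → ℤ)) (ρ : ℝ) (S : Submodule ℝ (EuclideanSpace ℝ (Fin D)))
    (hR : ∀ s ∈ S, ∃ κ ∈ (LinearMap.ker φ).map Λ.subtype, io N κ ∈ S ∧ ‖s - io N κ‖ ≤ D * ρ / 2)
    (y : Λ) (hy : io N (y : Fin D → ℤ) ∈ S) : φ y = 0 := by
  classical
  have h1 : ∀ n : ℕ, ∃ κ : Λ, φ κ = 0 ∧
      ‖io N ((n : ℤ) • (y : Fin D → ℤ) - (κ : Fin D → ℤ))‖ ≤ D * ρ / 2 := by
    intro n
    have hmem : ((n : ℤ) : ℝ) • io N (y : Fin D → ℤ) ∈ S := Submodule.smul_mem _ _ hy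
    obtain ⟨κ, ⟨κ', hκ', rfl⟩, -, h3⟩ := hR _ hmem
    refine ⟨κ', hκ', ?_⟩
    rw [map_sub, map_smul]
    rw [Int.cast_smul_eq_zsmul] at h3
    exact h3
  choose κ hκ hκn using h1
  have hfin : Finite {y : Fin D → ℤ | ‖io N y‖ ≤ D * ρ / 2} := (fin_ball N hN _).to_subtype
  obtain ⟨n, m, hnm, heq⟩ := Finite.exists_ne_map_eq_of_infinite
    (fun n : ℕ => (⟨(n : ℤ) • (y : Fin D → ℤ) - (κ n : Fin D → ℤ), hκn n⟩ :
      {y : Fin D → ℤ | ‖io N y‖ ≤ D * ρ / 2}))
  have heq' : (n : ℤ) • (y : Fin D → ℤ) - (κ n : Fin D → ℤ)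
      = (m : ℤ) • (y : Fin D → ℤ) - (κ m : Fin D → ℤ) := congrArg Subtype.val heq
  have heq2 : ((n : ℤ) - (m : ℤ)) • y = κ n - κ m := by
    apply Subtype.ext
    rw [Submodule.coe_smul, Submodule.coe_sub, sub_smul]
    rw [sub_eq_sub_iff_add_eq_add] at heq' ⊢
    rw [heq']
    ring
  have h2 : ((n : ℤ) - (m : ℤ)) • φ y = 0 := by
    rw [← map_smul, heq2, map_sub, hκ, hκ, sub_zero]
  rcases smul_eq_zero.mp h2 with h3 | h3
  · exfalso
    apply hnm
    omega
  · exact h3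

/-- discreteness from finiteness of the unit ball -/
theorem discrete {V : Type} [NormedAddCommGroup V] (L : Submodule ℤ V)
    (hfin : {x : V | x ∈ L ∧ ‖x‖ ≤ 1}.Finite) : DiscreteTopology L := by
  have key : ∀ s : Finset V, ∃ e : ℝ, 0 < e ∧ e ≤ 1 ∧ ∀ x ∈ s, x ≠ 0 → e ≤ ‖x‖ := by
    classical
    intro s
    induction s using Finset.induction_on with
    | empty => exact ⟨1, one_pos, le_rfl, by simp⟩
    | insert a s ha ih =>
      obtain ⟨e, he0, he1, he⟩ := ih
      by_cases h0 : a = 0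
      · refine ⟨e, he0, he1, ?_⟩
        intro x hx hx0
        rcases Finset.mem_insert.mp hx with h | h
        · exact absurd (h.trans h0) hx0
        · exact he x h hx0
      · refine ⟨min e ‖a‖, lt_min he0 (norm_pos_iff.mpr h0), le_trans (min_le_left _ _) he1, ?_⟩
        intro x hx hx0
        rcases Finset.mem_insert.mp hx with h | h
        · rw [h]
          exact min_le_right _ _
        · exact le_trans (min_le_left _ _) (he x h hx0)
  obtain ⟨e, he0, he1, he⟩ := key hfin.toFinset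
  apply DiscreteTopology.of_forall_le_norm he0
  intro x hx
  by_cases h : ‖(x : V)‖ ≤ 1
  · have h1 := he x (by
      rw [Set.Finite.mem_toFinset]
      exact ⟨x.2, h⟩) (by
      intro h0
      exact hx (Subtype.ext h0))
    exact h1
  · push Not at h
    have h2 : ‖x‖ = ‖(x : V)‖ := rfl
    rw [h2]
    linarith

/-- the constant -/
noncomputable def kap (D : ℕ) : ℝ :=
  Real.sqrt D * (2 * D) ^ (D + 1) * 2 ^ (4 * D ^ 2 + 3)

theorem core (h1 : Stmt_CLZ) (r : ℕ) (Λ : Submodule ℤ (Fin D → ℤ)) (N : Fin D → ℝ)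
    (φ : Λ →ₗ[ℤ] (Fin r → ℤ)) (hD : 1 ≤ D) (hN : ∀ l, 0 < N l) :
    ∃ (m : ℕ) (G : Fin m → (Fin r → ℤ)) (M : Fin m → ℕ), m ≤ D ∧ m ≤ Module.finrank ℤ Λ ∧
      (∀ u : Fin m → ℤ, (∀ l, |u l| ≤ 8 * (M l : ℤ)) →
        ∃ y : Λ, (∀ l, |((y : Fin D → ℤ) l : ℝ)| ≤ N l) ∧ φ y = ∑ l, u l • G l) ∧
      (∀ u : Fin m → ℤ, (∀ l, |u l| ≤ 8 * (M l : ℤ)) → ∑ l, u l • G l = 0 → u = 0) ∧
      (∀ y : Λ, (∀ l, |((y : Fin D → ℤ) l : ℝ)| ≤ N l) → ∃ v : Fin m → ℤ,
        φ y = ∑ l, v l • G l ∧ ∀ l, |(v l : ℝ)| ≤ kap D * ((M l : ℝ) + 1)) ∧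
      (m < Module.finrank ℤ Λ ∨ ∃ V : (Fin D → ℤ) → (Fin m → ℤ),
        Set.InjOn V {y : Fin D → ℤ | y ∈ Λ ∧ ∀ l, |(y l : ℝ)| ≤ N l} ∧
        ∀ y ∈ {y : Fin D → ℤ | y ∈ Λ ∧ ∀ l, |(y l : ℝ)| ≤ N l}, ∀ l,
          |(V y l : ℝ)| ≤ kap D * ((M l : ℝ) + 1)) := by
  classical
  obtain ⟨ρ, S, hρ, hρ1, hρ2, hK, hR⟩ := setup hD N hN ((LinearMap.ker φ).map Λ.subtype)
  have hkill := kill r Λ N hN φ ρ S hR
  have hD1 : (1 : ℝ) ≤ D := by exact_mod_cast hD
  let P : EuclideanSpace ℝ (Fin D) →L[ℝ] EuclideanSpace ℝ (Fin D) := Sᗮ.starProjection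
  have hPn : ∀ x, ‖P x‖ ≤ ‖x‖ := by
    intro x
    calc ‖P x‖ ≤ ‖P‖ * ‖x‖ := P.le_opNorm x
      _ ≤ 1 * ‖x‖ := mul_le_mul_of_nonneg_right (Submodule.starProjection_norm_le _) (norm_nonneg _)
      _ = ‖x‖ := one_mul _
  have hP0 : ∀ x, P x = 0 ↔ x ∈ S := by
    intro x
    rw [Submodule.starProjection_apply_eq_zero_iff, Submodule.orthogonal_orthogonal]
  have hPS : ∀ x, x - P x ∈ S := by
    intro x
    have := Submodule.sub_starProjection_mem_orthogonal (K := Sᗮ) x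
    rwa [Submodule.orthogonal_orthogonal] at this
  let T : Λ →ₗ[ℤ] EuclideanSpace ℝ (Fin D) :=
    { toFun := fun y => (1 / ρ) • P (io N (y : Fin D → ℤ))
      map_add' := by
        intro x y
        rw [Submodule.coe_add, map_add, map_add, smul_add]
      map_smul' := by
        intro n x
        rw [Submodule.coe_smul, map_smul, RingHom.id_apply, map_zsmul, smul_comm] }
  have hT : ∀ y : Λ, T y = (1 / ρ) • P (io N (y : Fin D → ℤ)) := fun y => rfl
  have hT0 : ∀ y : Λ, T y = 0 ↔ io N (y : Fin D → ℤ) ∈ S := by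
    intro y
    rw [hT, smul_eq_zero, hP0]
    constructor
    · rintro (h | h)
      · exfalso
        have : 0 < 1 / ρ := by positivity
        linarith
      · exact h
    · exact fun h => Or.inr h
  have hTφ : ∀ y : Λ, T y = 0 → φ y = 0 := fun y h => hkill y ((hT0 y).mp h)
  -- lifting
  have hlift : ∀ x ∈ LinearMap.range T, ∃ y : Λ, T y = x ∧
      ‖io N (y : Fin D → ℤ)‖ ≤ ρ * ‖x‖ + D * ρ / 2 := by
    rintro x ⟨y0, rfl⟩
    obtain ⟨κ, ⟨κ', hκ', rfl⟩, hκS, hκn⟩ := hR _ (hPS (io N (y0 : Fin D → ℤ)))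
    refine ⟨y0 - κ', ?_, ?_⟩
    · rw [map_sub]
      have : T κ' = 0 := (hT0 κ').mpr hκS
      rw [this, sub_zero]
    · have e1 : P (io N (y0 : Fin D → ℤ)) = ρ • T y0 := by
        rw [hT, smul_smul, mul_one_div_cancel hρ.ne', one_smul]
      have e2 : io N ((y0 - κ' : Λ) : Fin D → ℤ)
          = ρ • T y0 + ((io N (y0 : Fin D → ℤ) - P (io N (y0 : Fin D → ℤ)))
            - io N (Λ.subtype κ')) := by
        rw [Submodule.coe_sub, map_sub, e1, Submodule.subtype_apply]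
        abel
      rw [e2]
      calc ‖ρ • T y0 + ((io N (y0 : Fin D → ℤ) - P (io N (y0 : Fin D → ℤ)))
            - io N (Λ.subtype κ'))‖
          ≤ ‖ρ • T y0‖ + ‖(io N (y0 : Fin D → ℤ) - P (io N (y0 : Fin D → ℤ)))
            - io N (Λ.subtype κ')‖ := norm_add_le _ _
        _ ≤ ρ * ‖T y0‖ + D * ρ / 2 := by
            apply add_le_add
            · rw [norm_smul, Real.norm_eq_abs, abs_of_pos hρ]
            · exact hκn
  have hdisc : DiscreteTopology (LinearMap.range T) := by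
    apply discrete
    have hf := ((fin_ball N hN (ρ * 1 + D * ρ / 2)).preimage
      (Set.injOn_of_injective (f := fun y : Λ => (y : Fin D → ℤ)) Subtype.val_injective)).image T
    apply hf.subset
    rintro x ⟨hx, hx1⟩
    obtain ⟨y, hy, hyn⟩ := hlift x hx
    refine ⟨y, ?_, hy⟩
    show ‖io N (y : Fin D → ℤ)‖ ≤ ρ * 1 + D * ρ / 2
    have : ρ * ‖x‖ ≤ ρ * 1 := mul_le_mul_of_nonneg_left hx1 hρ.le
    linarith
  have h1' := h1 (EuclideanSpace ℝ (Fin D)) (LinearMap.range T)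
  generalize hm : Module.finrank ℤ (LinearMap.range T) = m at h1'
  obtain ⟨b, M, hbL, hbi, hb8, hbc⟩ := h1'
  have hmD : m ≤ D := by
    have h := hbi.fintype_card_le_finrank
    rw [Fintype.card_fin, finrank_euclideanSpace_fin] at h
    exact h
  have hmΛ : m ≤ Module.finrank ℤ Λ := by
    rw [← hm]
    exact LinearMap.finrank_range_le T
  choose Y hY using hbL
  have hTs : ∀ u : Fin m → ℤ, T (∑ l, u l • Y l) = ∑ l, (u l : ℝ) • b l := by
    intro u
    rw [map_sum]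
    apply Finset.sum_congr rfl
    intro l _
    rw [map_smul, hY, Int.cast_smul_eq_zsmul]
  have hφs : ∀ (y : Λ) (u : Fin m → ℤ), T y = ∑ l, (u l : ℝ) • b l →
      φ y = ∑ l, u l • φ (Y l) := by
    intro y u hyu
    have h2 : φ (y - ∑ l, u l • Y l) = 0 := by
      apply hTφ
      rw [map_sub, hTs, hyu, sub_self]
    rw [map_sub, sub_eq_zero] at h2
    rw [h2, map_sum]
    apply Finset.sum_congr rfl
    intro l _
    rw [map_smul]
  have hsmall : ∀ u : Fin m → ℤ, (∀ l, |u l| ≤ 8 * (M l : ℤ)) →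
      ∃ y : Λ, T y = ∑ l, (u l : ℝ) • b l ∧ ‖io N (y : Fin D → ℤ)‖ ≤ 2 * D * ρ := by
    intro u hu
    obtain ⟨y, hy, hyn⟩ := hlift (∑ l, (u l : ℝ) • b l) ⟨∑ l, u l • Y l, hTs u⟩
    refine ⟨y, hy, ?_⟩
    have h3 : ρ * ‖∑ l, (u l : ℝ) • b l‖ ≤ ρ * 1 := mul_le_mul_of_nonneg_left (hb8 u hu) hρ.le
    nlinarith
  have hbig : ∀ y : Λ, (∀ l, |((y : Fin D → ℤ) l : ℝ)| ≤ N l) → ∃ v : Fin m → ℤ,
      T y = ∑ l, (v l : ℝ) • b l ∧ ∀ l, |(v l : ℝ)| ≤ kap D * ((M l : ℝ) + 1) := by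
    intro y hy
    have hs1 : 1 ≤ Real.sqrt D := by
      rw [Real.one_le_sqrt]
      exact hD1
    have hρle : ρ ≤ 1 := by nlinarith
    have hlam : 1 ≤ Real.sqrt D / ρ := by
      rw [le_div_iff₀ hρ]
      linarith
    have hTn : ‖T y‖ ≤ Real.sqrt D / ρ := by
      rw [hT, norm_smul, Real.norm_eq_abs, abs_of_pos (by positivity)]
      calc 1 / ρ * ‖P (io N (y : Fin D → ℤ))‖ ≤ 1 / ρ * Real.sqrt D := by
            apply mul_le_mul_of_nonneg_left _ (by positivity)
            exact le_trans (hPn _) (io_norm_le N hN _ hy)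
        _ = Real.sqrt D / ρ := by ring
    obtain ⟨v, hv, hvb⟩ := hbc _ hlam (T y) ⟨y, rfl⟩ hTn
    refine ⟨v, hv, ?_⟩
    intro l
    refine le_trans (hvb l) ?_
    apply mul_le_mul_of_nonneg_right _ (by positivity)
    unfold kap
    apply mul_le_mul
    · rw [div_le_iff₀ hρ]
      calc Real.sqrt D = Real.sqrt D * 1 := (mul_one _).symm
        _ ≤ Real.sqrt D * (ρ * (2 * D) ^ (D + 1)) :=
            mul_le_mul_of_nonneg_left hρ2 (Real.sqrt_nonneg _)
        _ = Real.sqrt D * (2 * D) ^ (D + 1) * ρ := by ring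
    · apply pow_le_pow_right₀ (by norm_num)
      have : m ^ 2 ≤ D ^ 2 := Nat.pow_le_pow_left hmD 2
      omega
    · positivity
    · positivity
  refine ⟨m, fun l => φ (Y l), M, hmD, hmΛ, ?_, ?_, ?_, ?_⟩
  · intro u hu
    obtain ⟨y, hy, hyn⟩ := hsmall u hu
    refine ⟨y, ?_, hφs y u hy⟩
    intro l
    have h3 := io_coord N hN (y : Fin D → ℤ) l
    have h4 : ‖io N (y : Fin D → ℤ)‖ ≤ 1 := le_trans hyn hρ1
    have h5 : ‖io N (y : Fin D → ℤ)‖ * N l ≤ 1 * N l := mul_le_mul_of_nonneg_right h4 (hN l).le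
    linarith
  · intro u hu hu0
    obtain ⟨y, hy, hyn⟩ := hsmall u hu
    have h3 : φ y = 0 := by rw [hφs y u hy]; exact hu0
    have h4 : io N (y : Fin D → ℤ) ∈ S := hK _ ⟨y, h3, rfl⟩ hyn
    have h5 : ∑ l, (u l : ℝ) • b l = 0 := by rw [← hy]; exact (hT0 y).mpr h4
    have h6 := (Fintype.linearIndependent_iff.mp hbi) (fun l => (u l : ℝ)) h5
    funext l
    have h7 := h6 l
    exact_mod_cast h7
  · intro y hy
    obtain ⟨v, hv, hvb⟩ := hbig y hy
    exact ⟨v, hφs y v hv, hvb⟩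
  · by_cases hlt : m < Module.finrank ℤ Λ
    · exact Or.inl hlt
    · right
      have hmeq : Module.finrank ℤ (LinearMap.range T) = Module.finrank ℤ Λ := by omega
      have hker : LinearMap.ker T = ⊥ := by
        have h3 := LinearMap.rank_range_add_rank_ker T
        rw [← Module.finrank_eq_rank, ← Module.finrank_eq_rank, ← Module.finrank_eq_rank] at h3
        have h4 : Module.finrank ℤ (LinearMap.range T) + Module.finrank ℤ (LinearMap.ker T)
            = Module.finrank ℤ Λ := by exact_mod_cast h3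
        rw [← Submodule.finrank_eq_zero (R := ℤ)]
        omega
      choose W hW hWb using hbig
      let V : (Fin D → ℤ) → (Fin m → ℤ) := fun y =>
        if h : y ∈ Λ ∧ ∀ l, |(y l : ℝ)| ≤ N l then W ⟨y, h.1⟩ h.2 else 0
      have hV : ∀ (y : Fin D → ℤ) (h : y ∈ Λ ∧ ∀ l, |(y l : ℝ)| ≤ N l),
          V y = W ⟨y, h.1⟩ h.2 := fun y h => dif_pos h
      refine ⟨V, ?_, ?_⟩
      · intro y hy z hz hyz
        have h5 : T ⟨y, hy.1⟩ = T ⟨z, hz.1⟩ := by
          rw [hW ⟨y, hy.1⟩ hy.2, hW ⟨z, hz.1⟩ hz.2, ← hV y hy, ← hV z hz, hyz]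
        have h6 := LinearMap.ker_eq_bot.mp hker h5
        exact congrArg Subtype.val h6
      · intro y hy l
        rw [hV y hy]
        exact hWb ⟨y, hy.1⟩ hy.2 l

theorem kap_one (hD : 1 ≤ D) : 1 ≤ kap D := by
  have hD1 : (1 : ℝ) ≤ D := by exact_mod_cast hD
  have hs1 : 1 ≤ Real.sqrt D := by
    rw [Real.one_le_sqrt]
    exact hD1
  have h2 : (1 : ℝ) ≤ (2 * D) ^ (D + 1) := one_le_pow₀ (by linarith)
  have h3 : (1 : ℝ) ≤ 2 ^ (4 * D ^ 2 + 3) := one_le_pow₀ (by norm_num)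
  unfold kap
  have h4 : 1 ≤ Real.sqrt D * (2 * D) ^ (D + 1) := one_le_mul_of_one_le_of_one_le hs1 h2
  exact one_le_mul_of_one_le_of_one_le h4 h3

theorem kap_exp (hD : 1 ≤ D) : 7 * kap D ≤ Real.exp (20 * (D : ℝ) ^ 2) := by
  have hD1 : (1 : ℝ) ≤ D := by exact_mod_cast hD
  have e1 : ∀ x : ℝ, x ≤ Real.exp x := fun x => by
    have := Real.add_one_le_exp x
    linarith
  have h2 : (2 : ℝ) ≤ Real.exp 1 := by
    have := Real.add_one_le_exp 1
    linarith
  have h7 : (7 : ℝ) ≤ Real.exp 7 := e1 7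
  have hs : Real.sqrt D ≤ Real.exp D := by
    refine le_trans ?_ (e1 D)
    rw [Real.sqrt_le_left (by linarith)]
    nlinarith
  have hp : ((2 : ℝ) * D) ^ (D + 1) ≤ Real.exp (2 * D * (D + 1)) := by
    have h3 : Real.exp (2 * D * (D + 1)) = Real.exp (2 * D) ^ (D + 1) := by
      rw [← Real.exp_nat_mul]
      push_cast
      ring_nf
    rw [h3]
    exact pow_le_pow_left₀ (by linarith) (e1 _) _
  have hq : (2 : ℝ) ^ (4 * D ^ 2 + 3) ≤ Real.exp (4 * (D : ℝ) ^ 2 + 3) := by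
    have h3 : Real.exp (4 * (D : ℝ) ^ 2 + 3) = Real.exp 1 ^ (4 * D ^ 2 + 3) := by
      rw [← Real.exp_nat_mul]
      push_cast
      ring_nf
    rw [h3]
    exact pow_le_pow_left₀ (by norm_num) h2 _
  unfold kap
  calc 7 * (Real.sqrt D * (2 * D) ^ (D + 1) * 2 ^ (4 * D ^ 2 + 3))
      ≤ Real.exp 7 * (Real.exp D * Real.exp (2 * D * (D + 1)) * Real.exp (4 * (D : ℝ) ^ 2 + 3)) := by
        apply mul_le_mul h7 _ (by positivity) (Real.exp_pos _).le
        apply mul_le_mul _ hq (by positivity) (by positivity)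
        exact mul_le_mul hs hp (by positivity) (Real.exp_pos _).le
    _ = Real.exp (7 + (D + 2 * D * (D + 1) + (4 * (D : ℝ) ^ 2 + 3))) := by
        rw [← Real.exp_add, ← Real.exp_add, ← Real.exp_add]
    _ ≤ Real.exp (20 * (D : ℝ) ^ 2) := by
        apply Real.exp_le_exp.mpr
        nlinarith

theorem pow_exp (hD : 1 ≤ D) (m : ℕ) (hm : m ≤ D) :
    (7 * kap D) ^ m ≤ Real.exp (20 * (D : ℝ) ^ 3) := by
  have h1 := kap_one hD
  calc (7 * kap D) ^ m ≤ (7 * kap D) ^ D := pow_le_pow_right₀ (by linarith) hm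
    _ ≤ Real.exp (20 * (D : ℝ) ^ 2) ^ D := pow_le_pow_left₀ (by linarith) (kap_exp hD) _
    _ = Real.exp (20 * (D : ℝ) ^ 3) := by
        rw [← Real.exp_nat_mul]
        ring_nf

theorem card_sym (Q : ℕ) : ((Finset.Icc (-(Q : ℤ)) (Q : ℤ)).card : ℝ) = 2 * Q + 1 := by
  rw [Int.card_Icc]
  have h : ((Q : ℤ) + 1 - -(Q : ℤ)).toNat = 2 * Q + 1 := by omega
  rw [h]
  push_cast
  ring

end CLC_

open CLC_ in
/-- CLC: conversion lemma -/
theorem clc_proof (h1 : Stmt_CLZ) : Stmt_CLC := by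
  classical
  intro D r Λ N φ hD hN
  obtain ⟨m, G, M, hmD, hmΛ, ha, hb, hc, hd⟩ := core h1 r Λ N φ hD hN
  have hk1 := kap_one hD
  obtain ⟨d, ⟨e⟩⟩ : ∃ d : ℕ, Nonempty (Fin d ≃ {l : Fin m // 1 ≤ M l}) :=
    ⟨_, ⟨(Fintype.equivFin _).symm⟩⟩
  let ι : Fin d → Fin m := fun j => (e j).1
  have hι : Function.Injective ι := Subtype.val_injective.comp e.injective
  have hrange : ∀ l, 1 ≤ M l → ∃ j, ι j = l := by
    intro l hl
    refine ⟨e.symm ⟨l, hl⟩, ?_⟩
    show (e (e.symm ⟨l, hl⟩)).1 = l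
    rw [Equiv.apply_symm_apply]
  have hM : ∀ j, 1 ≤ M (ι j) := fun j => (e j).2
  have hdm : d ≤ m := by
    have := Fintype.card_le_of_injective ι hι
    simpa using this
  let g : (Fin d → ℤ) →ₗ[ℤ] (Fin r → ℤ) :=
    ∑ j, (LinearMap.proj j : (Fin d → ℤ) →ₗ[ℤ] ℤ).smulRight (G (ι j))
  have hg : ∀ u, g u = ∑ j, u j • G (ι j) := by
    intro u
    show (∑ j, (LinearMap.proj j : (Fin d → ℤ) →ₗ[ℤ] ℤ).smulRight (G (ι j))) u = _
    rw [LinearMap.sum_apply]
    rfl
  have hsum : ∀ w : Fin m → ℤ, (∀ l, ¬ 1 ≤ M l → w l = 0) →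
      ∑ l, w l • G l = g (fun j => w (ι j)) := by
    intro w hw
    rw [hg]
    symm
    apply Finset.sum_bij_ne_zero (fun j _ _ => ι j)
    · intro j _ _
      exact Finset.mem_univ _
    · intro j _ _ j' _ _ h
      exact hι h
    · intro l _ hl
      by_cases h1l : 1 ≤ M l
      · obtain ⟨j, rfl⟩ := hrange l h1l
        exact ⟨j, Finset.mem_univ _, hl, rfl⟩
      · exact absurd (by rw [hw l h1l, zero_smul]) hl
    · intro j _ _
      rfl
  let ex : (Fin d → ℤ) → (Fin m → ℤ) := fun u => Function.extend ι u 0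
  have hex1 : ∀ u j, ex u (ι j) = u j := fun u j => hι.extend_apply u 0 j
  have hex0 : ∀ u l, ¬ 1 ≤ M l → ex u l = 0 := by
    intro u l hl
    apply Function.extend_apply'
    rintro ⟨j, rfl⟩
    exact hl (hM j)
  have hexg : ∀ u, ∑ l, ex u l • G l = g u := by
    intro u
    rw [hsum _ (hex0 u)]
    congr 1
    funext j
    exact hex1 u j
  have hex8 : ∀ u : Fin d → ℤ, (∀ j, |u j| ≤ 8 * (M (ι j) : ℤ)) → ∀ l, |ex u l| ≤ 8 * (M l : ℤ) := by
    intro u hu l
    by_cases h1l : 1 ≤ M l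
    · obtain ⟨j, rfl⟩ := hrange l h1l
      rw [hex1]
      exact hu j
    · rw [hex0 u l h1l, abs_zero]
      positivity
  refine ⟨d, g, fun j => M (ι j), le_trans hdm hmΛ, hM, ?_, ?_, ?_, ?_⟩
  · intro u hu
    obtain ⟨y, hy1, hy2⟩ := ha (ex u) (hex8 u hu)
    exact ⟨y, hy1, by rw [hy2, hexg]⟩
  · intro u hu hu0
    have h3 := hb (ex u) (hex8 u hu) (by rw [hexg, hu0])
    funext j
    rw [← hex1 u j, h3]
    rfl
  · -- covering
    let Q : ℕ := ⌊2 * kap D + 1⌋₊
    let M' : Fin m → ℤ := fun l => max (M l : ℤ) 1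
    have hM'1 : ∀ l, 1 ≤ M' l := fun l => le_max_right _ _
    refine ⟨(Fintype.piFinset fun _ : Fin m => Finset.Icc (-(Q : ℤ)) (Q : ℤ)).image
      (fun w => ∑ l, (w l * M' l) • G l), ?_, ?_⟩
    · calc ((((Fintype.piFinset fun _ : Fin m => Finset.Icc (-(Q : ℤ)) (Q : ℤ)).image
            (fun w => ∑ l, (w l * M' l) • G l)).card : ℕ) : ℝ)
          ≤ ((Fintype.piFinset fun _ : Fin m => Finset.Icc (-(Q : ℤ)) (Q : ℤ)).card : ℝ) := by
            exact_mod_cast Finset.card_image_le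
        _ = (2 * (Q : ℝ) + 1) ^ m := by
            rw [Fintype.card_piFinset, Finset.prod_const, Finset.card_univ, Fintype.card_fin]
            rw [← card_sym Q]
            push_cast
            rfl
        _ ≤ (7 * kap D) ^ m := by
            have hQ : (Q : ℝ) ≤ 2 * kap D + 1 := Nat.floor_le (by linarith)
            apply pow_le_pow_left₀ (by positivity)
            linarith
        _ ≤ _ := pow_exp hD m hmD
    · intro y hy
      obtain ⟨v, hv, hvb⟩ := hc y hy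
      have hdec : ∀ l, v l = (v l / M' l) * M' l + v l % M' l := fun l =>
        by rw [mul_comm]; exact (Int.mul_ediv_add_emod (v l) (M' l)).symm
      refine ⟨∑ l, ((v l / M' l) * M' l) • G l, ?_, fun j => v (ι j) % M' (ι j), ?_, ?_⟩
      · rw [Finset.mem_image]
        refine ⟨fun l => v l / M' l, ?_, rfl⟩
        rw [Fintype.mem_piFinset]
        intro l
        have hM'pos : (0 : ℝ) < (M' l : ℝ) := by
          have := hM'1 l
          exact_mod_cast (by omega : 0 < M' l)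
        have hM'1r : (1 : ℝ) ≤ (M' l : ℝ) := by exact_mod_cast hM'1 l
        have hM'M : (M l : ℝ) + 1 ≤ 2 * (M' l : ℝ) := by
          have h3 : (M l : ℤ) + 1 ≤ 2 * M' l := by
            have h4 : (M l : ℤ) ≤ M' l := le_max_left _ _
            have := hM'1 l
            omega
          exact_mod_cast h3
        have hb1 : |(v l : ℝ)| ≤ 2 * kap D * (M' l : ℝ) := by
          have := hvb l
          have h5 : kap D * ((M l : ℝ) + 1) ≤ kap D * (2 * (M' l : ℝ)) :=
            mul_le_mul_of_nonneg_left hM'M (by linarith)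
          linarith
        obtain ⟨hb2, hb3⟩ := abs_le.mp hb1
        have hQ : 2 * kap D + 1 < (Q : ℝ) + 1 := Nat.lt_floor_add_one _
        have hr0 : 0 ≤ v l % M' l := Int.emod_nonneg _ (by have := hM'1 l; omega)
        have hr1 : v l % M' l < M' l := Int.emod_lt_of_pos _ (by have := hM'1 l; omega)
        have hr0' : (0 : ℝ) ≤ ((v l % M' l : ℤ) : ℝ) := by exact_mod_cast hr0
        have hr1' : ((v l % M' l : ℤ) : ℝ) < (M' l : ℝ) := by exact_mod_cast hr1
        have hdec' : (v l : ℝ) = ((v l / M' l : ℤ) : ℝ) * (M' l : ℝ) + ((v l % M' l : ℤ) : ℝ) := by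
          exact_mod_cast hdec l
        rw [Finset.mem_Icc]
        constructor
        · have h6 : -(Q : ℝ) - 1 < ((v l / M' l : ℤ) : ℝ) := by
            by_contra hcon
            push Not at hcon
            have h7 : ((v l / M' l : ℤ) : ℝ) * (M' l : ℝ) ≤ (-(Q : ℝ) - 1) * (M' l : ℝ) :=
              mul_le_mul_of_nonneg_right hcon hM'pos.le
            nlinarith
          have h8 : -(Q : ℤ) - 1 < v l / M' l := by exact_mod_cast h6
          omega
        · have h6 : ((v l / M' l : ℤ) : ℝ) < (Q : ℝ) + 1 := by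
            by_contra hcon
            push Not at hcon
            have h7 : ((Q : ℝ) + 1) * (M' l : ℝ) ≤ ((v l / M' l : ℤ) : ℝ) * (M' l : ℝ) :=
              mul_le_mul_of_nonneg_right hcon hM'pos.le
            nlinarith
          have h8 : v l / M' l < (Q : ℤ) + 1 := by exact_mod_cast h6
          omega
      · unfold box
        rw [Fintype.mem_piFinset]
        intro j
        have h9 : M' (ι j) = (M (ι j) : ℤ) := by
          have := hM j
          apply max_eq_left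
          exact_mod_cast this
        rw [Finset.mem_Ico]
        have hp : (0 : ℤ) < M' (ι j) := by have := hM'1 (ι j); omega
        refine ⟨Int.emod_nonneg _ hp.ne', ?_⟩
        rw [← h9]
        exact Int.emod_lt_of_pos _ hp
      · have h10 := hsum (fun l => v l % M' l) (by
          intro l hl
          have h11 : M' l = 1 := by
            apply max_eq_right
            have h12 : M l = 0 := by omega
            rw [h12]
            norm_num
          show v l % M' l = 0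
          rw [h11]
          exact Int.emod_one _)
        rw [← h10, hv, ← Finset.sum_add_distrib]
        apply Finset.sum_congr rfl
        intro l _
        rw [← add_smul, ← hdec l]
  · rcases hd with hd | ⟨V, hVi, hVb⟩
    · exact Or.inl (lt_of_le_of_lt hdm hd)
    · by_cases hlt : d < Module.finrank ℤ Λ
      · exact Or.inl hlt
      right
      have hdm' : d = m := by omega
      have hbij : Function.Bijective ι := by
        rw [Fintype.bijective_iff_injective_and_card]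
        exact ⟨hι, by simp [hdm']⟩
      have hM1 : ∀ l, 1 ≤ M l := by
        intro l
        obtain ⟨j, rfl⟩ := hbij.2 l
        exact hM j
      have hprod : ∏ j, ((M (ι j) : ℕ) : ℝ) = ∏ l, (M l : ℝ) :=
        Function.Bijective.prod_comp hbij (fun l => (M l : ℝ))
      rw [hprod]
      let B : Finset (Fin m → ℤ) := Fintype.piFinset fun l : Fin m =>
        Finset.Icc (-((⌊kap D * ((M l : ℝ) + 1)⌋₊ : ℕ) : ℤ)) ((⌊kap D * ((M l : ℝ) + 1)⌋₊ : ℕ) : ℤ)
      have hcard : {y : Fin D → ℤ | y ∈ Λ ∧ ∀ l, |(y l : ℝ)| ≤ N l}.ncard ≤ B.card := by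
        rw [← Set.ncard_coe_finset B]
        apply Set.ncard_le_ncard_of_injOn V _ hVi (Finset.finite_toSet B)
        intro y hy
        rw [Finset.mem_coe, Fintype.mem_piFinset]
        intro l
        have h13 := hVb y hy l
        have h14 : |V y l| ≤ ((⌊kap D * ((M l : ℝ) + 1)⌋₊ : ℕ) : ℤ) := by
          have h15 : ((V y l).natAbs : ℝ) ≤ kap D * ((M l : ℝ) + 1) := by
            rw [Nat.cast_natAbs, Int.cast_abs]
            exact h13
          have h16 := Nat.le_floor h15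
          rw [Int.abs_eq_natAbs]
          exact_mod_cast h16
        rw [Finset.mem_Icc]
        exact abs_le.mp h14
      calc (({y : Fin D → ℤ | y ∈ Λ ∧ ∀ l, |(y l : ℝ)| ≤ N l}.ncard : ℕ) : ℝ)
          ≤ (B.card : ℝ) := by exact_mod_cast hcard
        _ = ∏ l : Fin m, (2 * ((⌊kap D * ((M l : ℝ) + 1)⌋₊ : ℕ) : ℝ) + 1) := by
            rw [Fintype.card_piFinset]
            push_cast
            apply Finset.prod_congr rfl
            intro l _
            exact card_sym _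
        _ ≤ ∏ l : Fin m, ((7 * kap D) * (M l : ℝ)) := by
            apply Finset.prod_le_prod
            · intro l _
              positivity
            · intro l _
              have h17 : ((⌊kap D * ((M l : ℝ) + 1)⌋₊ : ℕ) : ℝ) ≤ kap D * ((M l : ℝ) + 1) :=
                Nat.floor_le (by
                  have : (0 : ℝ) ≤ (M l : ℝ) := Nat.cast_nonneg _
                  nlinarith)
              have h18 : (1 : ℝ) ≤ (M l : ℝ) := by exact_mod_cast hM1 l
              nlinarith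
        _ = (7 * kap D) ^ m * ∏ l, (M l : ℝ) := by
            rw [Finset.prod_mul_distrib, Finset.prod_const, Finset.card_univ, Fintype.card_fin]
        _ ≤ Real.exp (20 * (D : ℝ) ^ 3) * ∏ l, (M l : ℝ) := by
            apply mul_le_mul_of_nonneg_right (pow_exp hD m hmD)
            apply Finset.prod_nonneg
            intro l _
            positivity

end Pool.Agent.EMS
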