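import Pool.Agent.EMS.StmtsD

set_option autoImplicit false

open Finset
open scoped BigOperators Classical

namespace Pool.Agent.EMS

namespace CLS_

variable {r : ℕ}

lemma mem_box {N : Fin r → ℕ} {w : Fin r → ℤ} :
    w ∈ box N ↔ ∀ l, 0 ≤ w l ∧ w l < (N l : ℤ) := by
  unfold box
  rw [Fintype.mem_piFinset]
  simp only [Finset.mem_Ico]

lemma mem_UC {N : Fin r → ℕ} {c : Fin r → Fin 2} {U : ℕ → Finset (Fin r → ℤ)} {t : ℕ}
    {v : Fin r → ℤ} :
    v ∈ UC N c U t ↔ v ∈ box (Nc N c) ∧ cz c + (2 : ℤ) • v ∈ U t := by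
  unfold UC; rw [Finset.mem_filter]

lemma cz_apply (c : Fin r → Fin 2) (l : Fin r) : cz c l = ((c l : ℕ) : ℤ) := rfl

/-- a point of the class `c` in `box N` comes from `box (Nc N c)` -/
lemma box_of {N : Fin r → ℕ} {c : Fin r → Fin 2} {v : Fin r → ℤ}
    (h : cz c + (2 : ℤ) • v ∈ box N) : v ∈ box (Nc N c) := by
  rw [mem_box] at h ⊢
  intro l
  obtain ⟨h1, h2⟩ := h l
  simp only [Pi.add_apply, Pi.smul_apply, cz_apply, smul_eq_mul] at h1 h2
  have h3 : (c l : ℕ) < 2 := (c l).2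
  unfold Nc
  constructor
  · omega
  · omega

lemma inj (c : Fin r → Fin 2) :
    Function.Injective fun v : Fin r → ℤ => cz c + (2 : ℤ) • v := by
  intro v v' h
  funext l
  have := congrFun h l
  simp only [Pi.add_apply, Pi.smul_apply, smul_eq_mul] at this
  omega

lemma half_of_par {v v' : Fin r → ℤ} (h : Par v v') : ∃ m : Fin r → ℤ, m + m = v + v' := by
  have h1 : ∀ l, ∃ m : ℤ, m + m = v l + v' l := by
    intro l
    obtain ⟨k, hk⟩ := h l
    exact ⟨v' l + k, by linarith⟩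
  choose m hm using h1
  exact ⟨m, funext hm⟩

/-- from a midpoint in the class to `cz c + v + v'` -/
lemma mid_eq {c : Fin r → Fin 2} {v v' z : Fin r → ℤ}
    (h : z + z = (cz c + (2 : ℤ) • v) + (cz c + (2 : ℤ) • v')) : z = cz c + v + v' := by
  funext l
  have := congrFun h l
  simp only [Pi.add_apply, Pi.smul_apply, smul_eq_mul] at this ⊢
  omega

lemma eq_two {c : Fin r → Fin 2} {v v' m : Fin r → ℤ} (h : m + m = v + v') :
    cz c + v + v' = cz c + (2 : ℤ) • m := by
  rw [two_smul, h, add_assoc]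

lemma par_img {c : Fin r → Fin 2} (v v' : Fin r → ℤ) :
    Par (cz c + (2 : ℤ) • v) (cz c + (2 : ℤ) • v') := by
  intro l
  refine ⟨v l - v' l, ?_⟩
  simp only [Pi.add_apply, Pi.smul_apply, smul_eq_mul]
  ring

lemma Nc_le {N : Fin r → ℕ} (hN : ∀ l, 1 ≤ N l) (c : Fin r → Fin 2) (l : Fin r) :
    Nc N c l ≤ N l := by
  have := hN l
  unfold Nc
  omega

lemma le_Nc {N : Fin r → ℕ} (c : Fin r → Fin 2) (l : Fin r) (h : 1 ≤ Nc N c l) :
    N l ≤ 3 * Nc N c l := by
  unfold Nc at h ⊢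
  have h3 : (c l : ℕ) < 2 := (c l).2
  omega

end CLS_

open CLS_ in
theorem cls_proof : Stmt_CLS := by
  intro r κ N U hU hN
  refine ⟨fun c => ⟨⟨?_, ?_, ?_⟩, ?_, ?_, ?_, ?_, ?_, ?_⟩, ?_, ?_⟩
  · intro t v hv
    exact (mem_UC.1 hv).1
  · obtain ⟨T, hT⟩ := hU.fin
    refine ⟨T, fun t ht => ?_⟩
    rw [Finset.eq_empty_iff_forall_notMem]
    intro v hv
    have h1 := (mem_UC.1 hv).2
    rw [hT t ht] at h1
    exact absurd h1 (Finset.notMem_empty _)
  · intro t X hX hP hκ
    have h1 : (X.image fun v => cz c + (2 : ℤ) • v) ⊆ U t := by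
      intro w hw
      obtain ⟨v, hv, rfl⟩ := Finset.mem_image.1 hw
      exact (mem_UC.1 (hX hv)).2
    obtain ⟨x, hx, y, hy, hxy, z, hz, e⟩ := hU.link t _ h1 (by
      intro x hx y hy
      obtain ⟨v, hv, rfl⟩ := Finset.mem_image.1 hx
      obtain ⟨v', hv', rfl⟩ := Finset.mem_image.1 hy
      exact par_img v v') (by rw [Finset.card_image_of_injective _ (inj c)]; exact hκ)
    obtain ⟨v, hv, rfl⟩ := Finset.mem_image.1 hx
    obtain ⟨v', hv', rfl⟩ := Finset.mem_image.1 hy
    obtain ⟨m, hm⟩ := half_of_par (hP v hv v' hv')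
    have e2 : z = cz c + (2 : ℤ) • m := by rw [mid_eq e, eq_two hm]
    refine ⟨v, hv, v', hv', fun h => hxy (by rw [h]), m, ?_, hm⟩
    rw [mem_UC]
    rw [e2] at hz
    exact ⟨box_of (hU.sub _ hz), hz⟩
  · intro J hJ S hS
    refine hJ S fun t ht => ?_
    obtain ⟨v, hv⟩ := hS t ht
    exact ⟨_, (mem_UC.1 hv).2⟩
  · rintro ⟨v, hv⟩ l
    have h1 := mem_box.1 (mem_UC.1 hv).1 l
    omega
  · intro h
    unfold vol
    have h1 : (3 : ℝ) ^ r = ∏ _l : Fin r, (3 : ℝ) := by
      rw [Finset.prod_const, Finset.card_univ, Fintype.card_fin]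
    rw [h1, ← Finset.prod_mul_distrib]
    refine Finset.prod_le_prod (fun _ _ => by positivity) fun l _ => ?_
    exact_mod_cast le_Nc c l (h l)
  · unfold vol
    refine Finset.prod_le_prod (fun _ _ => by positivity) fun l _ => ?_
    exact_mod_cast Nc_le hN c l
  · intro t X hX w hw w' hw' hne hmem
    obtain ⟨m, hm⟩ := half_of_par (hX.2.1 w hw w' hw')
    rw [eq_two hm] at hmem
    exact hX.2.2 w hw w' hw' hne m (mem_UC.2 ⟨box_of (hU.sub _ hmem), hmem⟩) hm
  · intro t X hX hno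
    refine ⟨⟨?_, ?_, ?_⟩, Finset.card_image_of_injective _ (inj c)⟩
    · intro w hw
      obtain ⟨v, hv, rfl⟩ := Finset.mem_image.1 hw
      exact (mem_UC.1 (hX hv)).2
    · intro x hx y hy
      obtain ⟨v, hv, rfl⟩ := Finset.mem_image.1 hx
      obtain ⟨v', hv', rfl⟩ := Finset.mem_image.1 hy
      exact par_img v v'
    · intro x hx y hy hxy z hz e
      obtain ⟨v, hv, rfl⟩ := Finset.mem_image.1 hx
      obtain ⟨v', hv', rfl⟩ := Finset.mem_image.1 hy
      rw [mid_eq e] at hz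
      exact hno v hv v' hv' (fun h => hxy (by rw [h])) hz
  · intro t
    have h1 : U t = (Finset.univ : Finset (Fin r → Fin 2)).biUnion
        fun c => (UC N c U t).image fun v => cz c + (2 : ℤ) • v := by
      ext w
      rw [Finset.mem_biUnion]
      constructor
      · intro hw
        have h2 : ∀ l, ∃ (a : Fin 2) (b : ℤ), w l = ((a : ℕ) : ℤ) + 2 * b := by
          intro l
          rcases Int.even_or_odd (w l) with ⟨b, hb⟩ | ⟨b, hb⟩
          · exact ⟨0, b, by rw [hb]; simp; ring⟩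
          · exact ⟨1, b, by rw [hb]; simp; ring⟩
        choose c v hcv using h2
        have h3 : w = cz c + (2 : ℤ) • v := by
          funext l
          simp only [Pi.add_apply, Pi.smul_apply, smul_eq_mul, cz_apply]
          exact hcv l
        refine ⟨c, Finset.mem_univ _, Finset.mem_image.2 ⟨v, ?_, h3.symm⟩⟩
        rw [mem_UC]
        rw [h3] at hw
        exact ⟨box_of (hU.sub _ hw), hw⟩
      · rintro ⟨c, -, hc⟩
        obtain ⟨v, hv, rfl⟩ := Finset.mem_image.1 hc
        exact (mem_UC.1 hv).2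
    rw [h1, Finset.card_biUnion]
    · refine Finset.sum_congr rfl fun c _ => ?_
      exact Finset.card_image_of_injective _ (inj c)
    · intro c _ c' _ hcc
      rw [Function.onFun, Finset.disjoint_left]
      intro w hw hw'
      obtain ⟨v, hv, rfl⟩ := Finset.mem_image.1 hw
      obtain ⟨v', hv', e⟩ := Finset.mem_image.1 hw'
      apply hcc
      funext l
      have := congrFun e l
      simp only [Pi.add_apply, Pi.smul_apply, smul_eq_mul, cz_apply] at this
      apply Fin.ext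
      have h3 : (c l : ℕ) < 2 := (c l).2
      have h4 : (c' l : ℕ) < 2 := (c' l).2
      omega
  · unfold vol
    have h1 : ∀ l, (N l : ℝ) = ∑ a : Fin 2, (((N l + 1 - (a : ℕ)) / 2 : ℕ) : ℝ) := by
      intro l
      rw [Fin.sum_univ_two]
      have h2 : N l = (N l + 1 - ((0 : Fin 2) : ℕ)) / 2 + (N l + 1 - ((1 : Fin 2) : ℕ)) / 2 := by
        simp only [Fin.val_zero, Fin.val_one]
        omega
      exact_mod_cast h2
    rw [Finset.prod_congr rfl fun l _ => h1 l, Finset.prod_univ_sum, Fintype.piFinset_univ]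
    rfl

end Pool.Agent.EMS
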