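import Pool.Agent.EMS.StmtsC

set_option autoImplicit false

open Finset
open scoped BigOperators Classical

namespace Pool.Agent.EMS

namespace CLZ_

variable {E : Type} [NormedAddCommGroup E] [InnerProductSpace ℝ E] {d : ℕ}

/-- truncated combination -/
noncomputable def tr (b : Fin d → E) (v : Fin d → ℝ) (k : ℕ) : E :=
  ∑ j, (if j.val < k then v j else 0) • b j

theorem tr_succ (b : Fin d → E) (v : Fin d → ℝ) (l : Fin d) :
    tr b v (l.val + 1) = tr b v l.val + v l • b l := by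
  unfold tr
  have h : ∀ j : Fin d, (if j.val < l.val + 1 then v j else 0) • b j =
      (if j.val < l.val then v j else 0) • b j + (if j = l then v l • b l else 0) := by
    intro j
    by_cases h1 : j = l
    · subst h1
      simp
    · have h2 : j.val ≠ l.val := fun h => h1 (Fin.ext h)
      by_cases h3 : j.val < l.val
      · have h4 : j.val < l.val + 1 := by omega
        simp [h1, h3, h4]
      · have h4 : ¬ j.val < l.val + 1 := by omega
        simp [h1, h3, h4]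
  rw [Finset.sum_congr rfl fun j _ => h j, Finset.sum_add_distrib]
  simp

theorem tr_top (b : Fin d → E) (v : Fin d → ℝ) : tr b v d = ∑ j, v j • b j := by
  unfold tr
  refine Finset.sum_congr rfl fun j _ => ?_
  rw [if_pos j.isLt]

theorem coef (b : Fin d → E) (δ : Fin d → ℝ)
    (hδ : ∀ (v : Fin d → ℝ) (l : Fin d), (∀ j, l < j → v j = 0) → |v l| * δ l ≤ ‖∑ j, v j • b j‖)
    (v : Fin d → ℝ) (l : Fin d) : |v l| * δ l ≤ ‖tr b v (l.val + 1)‖ := by
  have h := hδ (fun j => if j.val < l.val + 1 then v j else 0) l (fun j hj => by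
    have : ¬ j.val < l.val + 1 := by
      have := Fin.lt_def.mp hj
      omega
    simp [this])
  simpa [tr] using h

theorem bound (b : Fin d → E) (δ : Fin d → ℝ) (c : ℝ) (hc : 0 ≤ c)
    (hb : ∀ l, ‖b l‖ ≤ c * δ l)
    (hδ : ∀ (v : Fin d → ℝ) (l : Fin d), (∀ j, l < j → v j = 0) → |v l| * δ l ≤ ‖∑ j, v j • b j‖)
    (v : Fin d → ℝ) (lam : ℝ) (hl : ‖∑ j, v j • b j‖ ≤ lam) :
    ∀ m : ℕ, m ≤ d → ‖tr b v (d - m)‖ ≤ (1 + c) ^ m * lam := by
  intro m
  induction m with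
  | zero =>
    intro _
    rw [Nat.sub_zero, tr_top, pow_zero, one_mul]
    exact hl
  | succ m ih =>
    intro hm
    have h1 := ih (by omega)
    have hk : d - (m + 1) < d := by omega
    set l : Fin d := ⟨d - (m + 1), hk⟩ with hldef
    have h2 : d - m = l.val + 1 := by
      simp only [hldef]
      omega
    have h3 : d - (m + 1) = l.val := rfl
    rw [h2] at h1
    rw [h3]
    have h4 := tr_succ b v l
    have h5 : tr b v l.val = tr b v (l.val + 1) - v l • b l := by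
      rw [h4, add_sub_cancel_right]
    have h6 := coef b δ hδ v l
    calc ‖tr b v l.val‖ ≤ ‖tr b v (l.val + 1)‖ + ‖v l • b l‖ := by
          rw [h5]
          exact norm_sub_le _ _
      _ ≤ ‖tr b v (l.val + 1)‖ + c * ‖tr b v (l.val + 1)‖ := by
          rw [norm_smul, Real.norm_eq_abs]
          have h7 : |v l| * ‖b l‖ ≤ |v l| * (c * δ l) :=
            mul_le_mul_of_nonneg_left (hb l) (abs_nonneg _)
          have h8 : c * (|v l| * δ l) ≤ c * ‖tr b v (l.val + 1)‖ :=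
            mul_le_mul_of_nonneg_left h6 hc
          nlinarith
      _ = (1 + c) * ‖tr b v (l.val + 1)‖ := by ring
      _ ≤ (1 + c) * ((1 + c) ^ m * lam) := by
          have : 0 ≤ 1 + c := by linarith
          exact mul_le_mul_of_nonneg_left h1 this
      _ = (1 + c) ^ (m + 1) * lam := by ring

theorem indep (b : Fin d → E) (δ : Fin d → ℝ) (hpos : ∀ l, 0 < δ l)
    (hδ : ∀ (v : Fin d → ℝ) (l : Fin d), (∀ j, l < j → v j = 0) →
      |v l| * δ l ≤ ‖∑ j, v j • b j‖) :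
    LinearIndependent ℝ b := by
  rw [Fintype.linearIndependent_iff]
  intro v hv
  by_contra hne
  push Not at hne
  obtain ⟨i, hi⟩ := hne
  have hS : (Finset.univ.filter fun j => v j ≠ 0).Nonempty := ⟨i, by simp [hi]⟩
  set l := (Finset.univ.filter fun j => v j ≠ 0).max' hS with hldef
  have hl : v l ≠ 0 := by
    have := Finset.max'_mem _ hS
    rw [← hldef] at this
    simpa using this
  have h0 : ∀ j, l < j → v j = 0 := by
    intro j hj
    by_contra hjne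
    have : j ≤ l := Finset.le_max' _ _ (by simp [hjne])
    exact absurd hj (not_lt.mpr this)
  have h1 := hδ v l h0
  rw [hv, norm_zero] at h1
  have h2 : 0 < |v l| * δ l := mul_pos (abs_pos.mpr hl) (hpos l)
  linarith

theorem const (n : ℕ) (hn : 1 ≤ n) (l : ℕ) (hl : l + 1 ≤ n) :
    ((1 : ℝ) + 2 ^ n) ^ (n - (l + 1)) * (8 * n * 2 ^ n) ≤ 2 ^ (4 * n ^ 2 + 3) := by
  have h1 : (1 : ℝ) + 2 ^ n ≤ 2 ^ (n + 1) := by
    have : (1 : ℝ) ≤ 2 ^ n := one_le_pow₀ (by norm_num)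
    rw [pow_succ]
    linarith
  have h2 : ((1 : ℝ) + 2 ^ n) ^ (n - (l + 1)) ≤ (2 ^ (n + 1)) ^ (n - 1) := by
    calc ((1 : ℝ) + 2 ^ n) ^ (n - (l + 1)) ≤ ((1 : ℝ) + 2 ^ n) ^ (n - 1) := by
          apply pow_le_pow_right₀
          · have : (0 : ℝ) < 2 ^ n := by positivity
            linarith
          · omega
      _ ≤ (2 ^ (n + 1)) ^ (n - 1) := by
          apply pow_le_pow_left₀ (by positivity) h1
  have h3 : (8 * (n : ℝ) * 2 ^ n) ≤ 2 ^ (3 + n + n) := by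
    have h4 : (n : ℝ) ≤ 2 ^ n := by exact_mod_cast Nat.lt_two_pow_self.le
    have h5 : (2 : ℝ) ^ (3 + n + n) = 8 * 2 ^ n * 2 ^ n := by
      rw [pow_add, pow_add]
      norm_num
    rw [h5]
    have h6 : (0 : ℝ) < 2 ^ n := by positivity
    nlinarith
  calc ((1 : ℝ) + 2 ^ n) ^ (n - (l + 1)) * (8 * n * 2 ^ n)
      ≤ (2 ^ (n + 1)) ^ (n - 1) * 2 ^ (3 + n + n) := by
        apply mul_le_mul h2 h3 (by positivity) (by positivity)
    _ = 2 ^ ((n + 1) * (n - 1) + (3 + n + n)) := by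
        rw [← pow_mul, ← pow_add]
    _ ≤ 2 ^ (4 * n ^ 2 + 3) := by
        apply pow_le_pow_right₀ (by norm_num)
        obtain ⟨k, rfl⟩ : ∃ k, n = k + 1 := ⟨n - 1, by omega⟩
        have : k + 1 - 1 = k := by omega
        rw [this]
        nlinarith

theorem main (L : Submodule ℤ E) (b : Fin d → E) (δ : Fin d → ℝ) (hbL : ∀ l, b l ∈ L)
    (hgen : ∀ y ∈ L, ∃ v : Fin d → ℤ, y = ∑ l, (v l : ℝ) • b l)
    (hδ1 : ∀ l, 0 < δ l ∧ ‖b l‖ ≤ 2 ^ d * δ l)
    (hδ2 : ∀ (v : Fin d → ℝ) (l : Fin d), (∀ j, l < j → v j = 0) →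
      |v l| * δ l ≤ ‖∑ j, v j • b j‖) :
    ∃ (b : Fin d → E) (M : Fin d → ℕ),
      (∀ l, b l ∈ L) ∧ LinearIndependent ℝ b ∧
      (∀ u : Fin d → ℤ, (∀ l, |u l| ≤ 8 * (M l : ℤ)) →
        ‖∑ l, (u l : ℝ) • b l‖ ≤ 1) ∧
      ∀ lam : ℝ, 1 ≤ lam → ∀ y ∈ L, ‖y‖ ≤ lam →
        ∃ v : Fin d → ℤ, y = ∑ l, (v l : ℝ) • b l ∧
          ∀ l, |(v l : ℝ)| ≤ lam * 2 ^ (4 * d ^ 2 + 3) * ((M l : ℝ) + 1) := by
  have hpos : ∀ l, 0 < δ l := fun l => (hδ1 l).1
  refine ⟨b, fun l => ⌊1 / (8 * (d : ℝ) * 2 ^ d * δ l)⌋₊, hbL,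
    CLZ_.indep b δ hpos hδ2, ?_, ?_⟩
  · intro u hu
    rcases Nat.eq_zero_or_pos d with h0 | hdpos
    · have : IsEmpty (Fin d) := by
        rw [h0]
        infer_instance
      simp
    have hd0 : (0 : ℝ) < d := by exact_mod_cast hdpos
    have hterm : ∀ l ∈ (Finset.univ : Finset (Fin d)), ‖(u l : ℝ) • b l‖ ≤ 1 / d := by
      intro l _
      have h2 : (0 : ℝ) < 8 * (d : ℝ) * 2 ^ d * δ l := by
        have := hpos l
        positivity
      have h3 : ((⌊1 / (8 * (d : ℝ) * 2 ^ d * δ l)⌋₊ : ℕ) : ℝ) ≤ 1 / (8 * (d : ℝ) * 2 ^ d * δ l) :=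
        Nat.floor_le (by positivity)
      have h4 : |(u l : ℝ)| ≤ 8 * (1 / (8 * (d : ℝ) * 2 ^ d * δ l)) := by
        have h5 : (|u l| : ℤ) ≤ 8 * ((⌊1 / (8 * (d : ℝ) * 2 ^ d * δ l)⌋₊ : ℕ) : ℤ) := hu l
        have h6 : ((|u l| : ℤ) : ℝ) ≤
            ((8 * ((⌊1 / (8 * (d : ℝ) * 2 ^ d * δ l)⌋₊ : ℕ) : ℤ) : ℤ) : ℝ) := by
          exact_mod_cast h5
        push_cast at h6
        linarith
      rw [norm_smul, Real.norm_eq_abs]
      calc |(u l : ℝ)| * ‖b l‖ ≤ (8 * (1 / (8 * (d : ℝ) * 2 ^ d * δ l))) * (2 ^ d * δ l) := by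
            apply mul_le_mul h4 (hδ1 l).2 (norm_nonneg _) (by positivity)
        _ = 1 / d := by
            have h7 := (hpos l).ne'
            field_simp
    calc ‖∑ l, (u l : ℝ) • b l‖ ≤ ∑ l, ‖(u l : ℝ) • b l‖ := norm_sum_le _ _
      _ ≤ ∑ _l : Fin d, 1 / (d : ℝ) := Finset.sum_le_sum hterm
      _ = 1 := by
          rw [Finset.sum_const, Finset.card_univ, Fintype.card_fin, nsmul_eq_mul]
          field_simp
  · intro lam hlam y hy hyl
    obtain ⟨v, hv⟩ := hgen y hy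
    refine ⟨v, hv, ?_⟩
    intro l
    have hdpos : 1 ≤ d := by
      have := l.isLt
      omega
    have hd0 : (0 : ℝ) < d := by exact_mod_cast hdpos
    have hl1 : l.val + 1 ≤ d := l.isLt
    have h3 : ‖∑ j, ((fun j => (v j : ℝ)) j) • b j‖ ≤ lam := by
      have : (∑ j, ((fun j => (v j : ℝ)) j) • b j) = y := hv.symm
      rw [this]
      exact hyl
    have h4 := CLZ_.bound b δ (2 ^ d) (by positivity) (fun l => (hδ1 l).2) hδ2
      (fun j => (v j : ℝ)) lam h3 (d - (l.val + 1)) (by omega)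
    have h5 : d - (d - (l.val + 1)) = l.val + 1 := by omega
    rw [h5] at h4
    have h6 := CLZ_.coef b δ hδ2 (fun j => (v j : ℝ)) l
    have h7 : |(v l : ℝ)| * δ l ≤ (1 + 2 ^ d) ^ (d - (l.val + 1)) * lam := h6.trans h4
    have h8 : (0 : ℝ) < 8 * (d : ℝ) * 2 ^ d * δ l := by
      have := hpos l
      positivity
    have h9 : 1 / (8 * (d : ℝ) * 2 ^ d * δ l) <
        ((⌊1 / (8 * (d : ℝ) * 2 ^ d * δ l)⌋₊ : ℕ) : ℝ) + 1 := Nat.lt_floor_add_one _
    set M : ℝ := ((⌊1 / (8 * (d : ℝ) * 2 ^ d * δ l)⌋₊ : ℕ) : ℝ) with hM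
    have h10 : 1 < (M + 1) * (8 * (d : ℝ) * 2 ^ d * δ l) := by
      rwa [div_lt_iff₀ h8] at h9
    have h11 := CLZ_.const d hdpos l.val hl1
    have hM0 : 0 ≤ M := by
      rw [hM]
      positivity
    have hA : (0 : ℝ) ≤ (1 + 2 ^ d) ^ (d - (l.val + 1)) * lam := by
      have : (0 : ℝ) ≤ lam := by linarith
      positivity
    have h12 : |(v l : ℝ)| * δ l ≤
        ((1 + 2 ^ d) ^ (d - (l.val + 1)) * lam) * ((M + 1) * (8 * (d : ℝ) * 2 ^ d * δ l)) := by
      refine h7.trans ?_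
      exact le_mul_of_one_le_right hA h10.le
    have h13 : |(v l : ℝ)| * δ l ≤
        (((1 + 2 ^ d) ^ (d - (l.val + 1)) * (8 * d * 2 ^ d)) * (lam * (M + 1))) * δ l := by
      refine h12.trans (le_of_eq ?_)
      ring
    have h14 : |(v l : ℝ)| ≤
        ((1 + 2 ^ d) ^ (d - (l.val + 1)) * (8 * d * 2 ^ d)) * (lam * (M + 1)) :=
      le_of_mul_le_mul_right h13 (hpos l)
    refine h14.trans ?_
    have h15 : (0 : ℝ) ≤ lam * (M + 1) := by
      have : (0 : ℝ) ≤ lam := by linarith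
      positivity
    calc ((1 + 2 ^ d) ^ (d - (l.val + 1)) * (8 * (d : ℝ) * 2 ^ d)) * (lam * (M + 1))
        ≤ 2 ^ (4 * d ^ 2 + 3) * (lam * (M + 1)) := mul_le_mul_of_nonneg_right h11 h15
      _ = lam * 2 ^ (4 * d ^ 2 + 3) * (M + 1) := by ring

end CLZ_

theorem clz_proof (h1 : Stmt_HKZ) : Stmt_CLZ := by
  intro E _ _ _ L _
  obtain ⟨b, δ, hbL, hgen, hδ1, hδ2⟩ := h1 E L
  exact CLZ_.main L b δ hbL hgen hδ1 hδ2

end Pool.Agent.EMS
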