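import Pool.Agent.EMS.Defs

/-!
# EMS, part B: regeneration (Lemma R), evolution, rounds
Recipes: /team-store/MP_973cda_EMS.md, paper proof /team-store/MP_973cda_proof_helper64.md, Sections 3-7
-/

set_option autoImplicit false

open Finset
open scoped BigOperators Classical

namespace Pool.Agent.EMS

/-! ## Definitions -/

/-- scaled points of the refined lattice: `x / 2^i` runs over the points of `2^{-i} Γ_i` in the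
box `∏ [0, N_l)` whose image `c + φ(x)/2^i` lies in `V` -/
noncomputable def EE {D r : ℕ} (φ : (Fin D → ℤ) →ₗ[ℤ] (Fin r → ℤ)) (c : Fin r → ℤ)
    (N : Fin D → ℕ) (i : ℕ) (V : Finset (Fin r → ℤ)) : Finset (Fin D → ℤ) :=
  (box fun l => 2 ^ i * N l).filter fun x => ∃ y ∈ V, φ x = (2 ^ i : ℤ) • (y - c)

/-- `Γ_i = {x : φ(x) ∈ 2^i ℤ^r}` -/
def Gam {D r : ℕ} (φ : (Fin D → ℤ) →ₗ[ℤ] (Fin r → ℤ)) (i : ℕ) (x : Fin D → ℤ) : Prop :=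
  ∃ y : Fin r → ℤ, φ x = (2 ^ i : ℤ) • y

/-- `[Γ_i : 2^i ℤ^D]` -/
noncomputable def iota {D r : ℕ} (φ : (Fin D → ℤ) →ₗ[ℤ] (Fin r → ℤ)) (i : ℕ) : ℕ :=
  ((box fun _ : Fin D => 2 ^ i).filter fun x => Gam φ i x).card

/-- two part GAPs (linear part): thin sides `M1`, thick sides `B^k` -/
structure TG (r B n : ℕ) where
  a : ℕ
  b : ℕ
  φ1 : (Fin a → ℤ) →ₗ[ℤ] (Fin r → ℤ)
  φ2 : (Fin b → ℤ) →ₗ[ℤ] (Fin r → ℤ)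
  M1 : Fin a → ℕ
  k : Fin b → ℕ
  pos : ∀ l, 1 ≤ M1 l
  thin : ∀ l, M1 l < B ^ (n + 1)
  thick : ∀ l, n + 1 ≤ k l
  proper : ∀ (u : Fin a → ℤ) (w : Fin b → ℤ), (∀ l, |u l| ≤ 8 * (M1 l : ℤ)) →
    (∀ l, |w l| ≤ 8 * (B : ℤ) ^ (k l)) → φ1 u + φ2 w = 0 → u = 0 ∧ w = 0

namespace TG

variable {r B n : ℕ}

/-- sides of the thick part -/
def M2 (P : TG r B n) : Fin P.b → ℕ := fun l => B ^ P.k l

/-- the point set -/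
noncomputable def set (P : TG r B n) (c : Fin r → ℤ) : Finset (Fin r → ℤ) :=
  (box P.M1 ×ˢ box P.M2).image fun z => c + P.φ1 z.1 + P.φ2 z.2

/-- its size -/
noncomputable def v (P : TG r B n) : ℝ := vol P.M1 * vol P.M2

end TG

/-- the constant `C_k` -/
noncomputable def Ck (κ : ℕ) : ℝ := Real.log (40 * (κ : ℝ) ^ 2) + 1

/-! ## Lemma R -/

/-- MSS: union bound form of Motzkin-Straus -/
def Stmt_MSS : Prop :=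
  ∀ (α : Type) (E : Finset α) (R : α → α → Prop) (κ : ℕ) (g : α → ℝ), 2 ≤ κ → (∀ x, 0 ≤ g x) →
    (∀ f : Fin κ → α, (∀ i, f i ∈ E) → ∃ i j, i < j ∧ R (f i) (f j)) →
    2 * (∑ x ∈ E, g x) ^ 2 ≤ (κ : ℝ) ^ 2 * ∑ x ∈ E, ∑ y ∈ E, if R x y then g x * g y else 0

/-- SCL: choice of the scale (entropy) -/
def Stmt_SCL : Prop :=
  ∀ (α I : Type) (E : Finset α) (n m : ℕ) (c : ℕ → α → I) (V : ℝ), E.Nonempty → 1 ≤ n → 1 ≤ m →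
    0 < V →
    (∀ j < n, ∀ x ∈ E, ∀ y ∈ E, c (j + 1) x = c (j + 1) y → c j x = c j y) →
    (∀ x ∈ E, ∀ y ∈ E, c 0 x = c 0 y) →
    (∀ j < n, ∀ x ∈ E, ((E.filter fun y => c j y = c j x).image (c (j + 1))).card ≤ m) →
    (∀ x ∈ E, (((E.filter fun y => c n y = c n x).card : ℝ)) ≤ V / (m : ℝ) ^ n) →
    ∃ j < n, ∃ (good : Finset I) (E' : Finset α), E' ⊆ E ∧ good ⊆ E.image (c j) ∧
      (E.card : ℝ) / 2 ≤ ∑ i ∈ good, ((E.filter fun y => c j y = i).card : ℝ) ∧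
      ∀ i ∈ good,
        (((E.filter fun y => c j y = i).card : ℝ) / 2 ≤ ((E'.filter fun y => c j y = i).card : ℝ)) ∧
        ((E.card : ℝ) / (4 * (m : ℝ) ^ j) ≤ ((E.filter fun y => c j y = i).card : ℝ)) ∧
        ∀ x ∈ E', c j x = i →
          ((E.filter fun y => c (j + 1) y = c (j + 1) x).card : ℝ) * (m : ℝ) ≤
            Real.exp (8 * (Real.log (V / (E.card : ℝ)) / n) + 1) *
              ((E.filter fun y => c j y = i).card : ℝ)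

/-- GAI: Gaussian integral of a product weight over `ℝ^D` and the product formula -/
def Stmt_GAI : Prop :=
  ∀ (D : ℕ) (σ : Fin D → ℝ), (∀ l, 0 < σ l) → ∀ w w' : Fin D → ℝ,
    (∫ c : Fin D → ℝ, Real.exp (-(∑ l, (w l - c l) ^ 2 / (2 * σ l ^ 2))) *
        Real.exp (-(∑ l, (w' l - c l) ^ 2 / (2 * σ l ^ 2)))
      = Real.exp (-(∑ l, ((w l - w' l) / 2) ^ 2 / σ l ^ 2)) * ∏ l, (Real.sqrt Real.pi * σ l)) ∧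
    MeasureTheory.Integrable (fun c : Fin D → ℝ =>
      Real.exp (-(∑ l, (w l - c l) ^ 2 / (2 * σ l ^ 2)))) ∧
    MeasureTheory.Integrable (fun c : Fin D → ℝ =>
      Real.exp (-(∑ l, (w l - c l) ^ 2 / (2 * σ l ^ 2))) *
        Real.exp (-(∑ l, (w' l - c l) ^ 2 / (2 * σ l ^ 2))))

/-- GAL: lower bound for the Gaussian mass near a box (sides `S`, `σ_l = S_l/√B`) -/
def Stmt_GAL : Prop :=
  ∀ (D : ℕ) (B : ℝ) (p S : Fin D → ℝ), 1 ≤ D → 10 ^ 4 * (D : ℝ) ^ 3 ≤ B → (∀ l, 0 < S l) →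
    ∀ w : Fin D → ℝ, (∀ l, p l ≤ w l ∧ w l ≤ p l + S l) →
    0.9 * ∏ l, (Real.sqrt (2 * Real.pi) * (S l / Real.sqrt B)) ≤
      ∫ c in {c : Fin D → ℝ | ∀ l, p l - S l / (25 * D) ≤ c l ∧ c l ≤ p l + S l + S l / (25 * D)},
        Real.exp (-(∑ l, (w l - c l) ^ 2 / (2 * (S l / Real.sqrt B) ^ 2)))

/-- GAG: grid sums of the Gaussian -/
def Stmt_GAG : Prop :=
  ∀ (D : ℕ) (B : ℝ) (p S : Fin D → ℝ), 1 ≤ D → 10 ^ 4 * (D : ℝ) ^ 3 ≤ B → (∀ l, 0 < S l) →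
    ∀ (m : Fin D → ℝ) (A : Finset (Fin D → ℝ)) (am : ℝ), 0 ≤ am →
    (∀ v : Fin D → ℤ, ((A.filter fun w => ∀ l, ⌊(w l - p l) * B / S l⌋ = v l).card : ℝ)
      ≤ am * ∏ l, (S l / B)) →
    ∑ w ∈ A, Real.exp (-(∑ l, (w l - m l) ^ 2 / (S l / Real.sqrt B) ^ 2)) ≤
      1.1 * am * ∏ l, (Real.sqrt Real.pi * (S l / Real.sqrt B))

/-- GBX: the Gaussian midpoint inequality in one box (from MSS, GAI, GAL, GAG) -/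
def Stmt_GBX : Prop :=
  ∀ (D κ F : ℕ) (B am : ℝ) (p S : Fin D → ℝ) (A Ap : Finset (Fin D → ℝ)) (C : Finset ℤ)
    (cls : (Fin D → ℝ) → ℤ) (I : Type) (img : (Fin D → ℝ) → I), 1 ≤ D →
    10 ^ 4 * (D : ℝ) ^ 3 ≤ B → 2 ≤ κ → 0 ≤ am → (∀ l, 0 < S l) →
    (∀ w ∈ A, ∀ l, p l ≤ w l ∧ w l ≤ p l + S l) → (∀ w ∈ A, cls w ∈ C) →
    (∀ f : Fin κ → (Fin D → ℝ), (∀ i, f i ∈ A) → (∀ i j, cls (f i) = cls (f j)) →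
      ∃ i j, i < j ∧ (img (f i) = img (f j) ∨ ∃ m ∈ Ap, m + m = f i + f j)) →
    (∀ w ∈ A, (A.filter fun w' => img w' = img w).card ≤ F) →
    (∀ v : Fin D → ℤ, ((A.filter fun w => ∀ l, ⌊(w l - p l) * B / S l⌋ = v l).card : ℝ)
      ≤ am * ∏ l, (S l / B)) →
    1.4 * 2 ^ D * (A.card : ℝ) ^ 2 ≤ (κ : ℝ) ^ 2 * (C.card : ℝ) *
      (1.1 * am * (Ap.card : ℝ) * ∏ l, S l + (A.card : ℝ) * F * Real.sqrt B ^ D)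

/-- LCO: counting lattice points in boxes whose corners are multiples of `2^i` -/
def Stmt_LCO : Prop :=
  ∀ (D r i : ℕ) (φ : (Fin D → ℤ) →ₗ[ℤ] (Fin r → ℤ)) (p : Fin D → ℤ) (m : Fin D → ℕ),
    {x : Fin D → ℤ | (∀ l, 2 ^ i * p l ≤ x l ∧ x l < 2 ^ i * (p l + m l)) ∧ Gam φ i x}.ncard
      = iota φ i * ∏ l, m l

/-- LCL: classes of `Γ_i` modulo `Γ_{i+1}` -/
def Stmt_LCL : Prop :=
  ∀ (D r i : ℕ) (φ : (Fin D → ℤ) →ₗ[ℤ] (Fin r → ℤ)),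
    ∃ (C : Finset ℤ) (cls : (Fin D → ℤ) → ℤ), C.card * iota φ (i + 1) = 2 ^ D * iota φ i ∧
      (∀ x, Gam φ i x → cls x ∈ C) ∧
      ∀ x y, Gam φ i x → Gam φ i y → cls x = cls y → Gam φ (i + 1) (x - y)

/-- IOT: growth of the index -/
def Stmt_IOT : Prop :=
  ∀ (D r i : ℕ) (φ : (Fin D → ℤ) →ₗ[ℤ] (Fin r → ℤ)),
    2 ^ (i * Module.finrank ℤ (LinearMap.ker φ)) ≤ iota φ i ∧ iota φ i ≤ iota φ (i + 1) ∧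
      iota φ 0 = 1

/-- LRR: Lemma R (from SCL, GBX, LCO, LCL, IOT) -/
def Stmt_LRR : Prop :=
  ∀ (D r B n κ : ℕ) (φ : (Fin D → ℤ) →ₗ[ℤ] (Fin r → ℤ)) (c : Fin r → ℤ) (k : Fin D → ℕ)
    (N : Fin r → ℕ) (U : ℕ → Finset (Fin r → ℤ)) (t i : ℕ) (a : ℝ), 1 ≤ D → 10 ^ 4 * D ^ 3 ≤ B →
    1 ≤ n → 2 ≤ κ → Chain κ N U → (∀ l, n + 1 ≤ k l) →
    (∀ u : Fin D → ℤ, (∀ l, |u l| < (B : ℤ) ^ k l) → φ u = 0 → u = 0) → 0 < a → a ≤ 1 →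
    a * (iota φ i : ℝ) * vol (fun l => B ^ k l) ≤
      ((EE φ c (fun l => B ^ k l) i (U t)).card : ℝ) →
    12 * (κ : ℝ) ^ 2 * (B : ℝ) ^ (n * D) / a ≤ vol (fun l => B ^ k l) →
    (iota φ (i + 1) : ℝ) * vol (fun l => B ^ k l) * a * Real.exp (-(8 * (Real.log (1 / a) / n))) /
        (40 * (κ : ℝ) ^ 2) ≤
      ((EE φ c (fun l => B ^ k l) (i + 1) (U (t + 1))).card : ℝ)

/-! ## Evolution and rounds -/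

/-- EVO: evolution lemma (from LRR, IOT) -/
def Stmt_EVO : Prop :=
  ∀ (r B n κ Δ t : ℕ) (P : TG r B n) (c : Fin r → ℤ) (N : Fin r → ℕ)
    (U : ℕ → Finset (Fin r → ℤ)) (y : ℝ), 10 ^ 4 * P.b ^ 3 ≤ B → 2 ≤ B → 1 ≤ n → 2 ≤ κ →
    Chain κ N U → 0 ≤ y → 2 * y + 2 + Δ * Ck κ ≤ n / 8 →
    100 * (κ : ℝ) ^ 2 * (B : ℝ) ^ (2 * (n + 1) * (P.a + P.b)) * Real.exp n ≤ P.v →
    Real.exp (-y) * P.v ≤ ((U t ∩ P.set c).card : ℝ) →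
    Real.exp (-y - 1 - Δ * Ck κ) * (iota P.φ2 Δ : ℝ) * P.v ≤
      ∑ u ∈ box P.M1, ((EE P.φ2 (c + P.φ1 u) P.M2 Δ (U (t + Δ))).card : ℝ)

/-- CNV: conversion of a refined two part GAP into a proper GAP (from CLC) -/
def Stmt_CNV : Prop :=
  ∀ (r B n Δ : ℕ) (P : TG r B n) (c : Fin r → ℤ) (V : Finset (Fin r → ℤ)) (A0 : ℝ), 2 ≤ B →
    1 ≤ P.a + P.b → 0 < A0 →
    A0 * (iota P.φ2 Δ : ℝ) * P.v ≤
      ∑ u ∈ box P.M1, ((EE P.φ2 (c + P.φ1 u) P.M2 Δ V).card : ℝ) →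
    ∃ (S : SG r) (c' : Fin r → ℤ), S.d ≤ P.a + P.b ∧
      A0 * Real.exp (-(23 * ((P.a + P.b : ℕ) : ℝ) ^ 3)) * S.v ≤ ((V ∩ S.bx c').card : ℝ) ∧
      Real.exp (-(23 * ((P.a + P.b : ℕ) : ℝ) ^ 3)) * P.v ≤ S.v ∧
      (∀ (W : Finset (Fin r → ℤ)) (Q : ℝ),
        (∀ x : Fin r → ℤ, (((P.set 0).filter fun y => y - x ∈ W).card : ℝ) ≤ Q * P.v) →
        ∀ x : Fin r → ℤ, (((S.bx c').filter fun y => y - x ∈ W).card : ℝ) ≤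
          Real.exp (23 * ((P.a + P.b : ℕ) : ℝ) ^ 3) * Q * S.v) ∧
      (S.d < P.a + P.b ∨ ∀ (W : Finset (Fin r → ℤ)) (Q : ℝ),
        (∀ x : Fin r → ℤ, (((P.set 0).filter fun y => y - x ∈ W).card : ℝ) ≤ Q * P.v) →
        ∀ x : Fin r → ℤ, (((S.bx c').filter fun y => y - x ∈ W).card : ℝ) *
          (iota P.φ2 Δ : ℝ) * P.v ≤ Real.exp (43 * ((P.a + P.b : ℕ) : ℝ) ^ 3) * Q * S.v ^ 2)

/-- NOR: normalisation of a GAP to a two part GAP -/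
def Stmt_NOR : Prop :=
  ∀ (r B n : ℕ) (S : SG r) (c : Fin r → ℤ) (V : Finset (Fin r → ℤ)), 2 ≤ B →
    ∃ (P : TG r B n) (c' : Fin r → ℤ), P.a + P.b = S.d ∧ P.v ≤ S.v ∧
      S.v ≤ (B : ℝ) ^ S.d * P.v ∧
      ((V ∩ S.bx c).card : ℝ) * P.v ≤ 2 ^ S.d * S.v * ((V ∩ P.set c').card : ℝ) ∧
      ∀ x : Fin r → ℤ, ∃ x' : Fin r → ℤ, ∀ W : Finset (Fin r → ℤ),
        ((P.set c').filter fun y => y - x ∈ W).card ≤ ((S.bx c).filter fun y => y - x' ∈ W).card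

/-- RND: one round (from EVO, CNV, NOR, IOT) -/
def Stmt_RND : Prop :=
  ∀ (r B n κ Δ t : ℕ) (P : TG r B n) (c : Fin r → ℤ) (N : Fin r → ℕ)
    (U : ℕ → Finset (Fin r → ℤ)) (y Y4 : ℝ) (W : Finset (Fin r → ℤ)) (q : ℝ),
    1 ≤ P.a + P.b → 10 ^ 4 * P.b ^ 3 ≤ B → 2 ≤ B → 1 ≤ n → 2 ≤ κ → Chain κ N U → 0 ≤ y →
    2 * y + 2 + Δ * Ck κ ≤ n / 8 →
    100 * (κ : ℝ) ^ 2 * (B : ℝ) ^ (2 * (n + 1) * (P.a + P.b)) * Real.exp n ≤ P.v →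
    Real.exp (-y) * P.v ≤ ((U t ∩ P.set c).card : ℝ) →
    60 * ((P.a + P.b : ℕ) : ℝ) ^ 3 + 4 * ((P.a + P.b : ℕ) : ℝ) * Real.log B + 2 ≤ Y4 →
    0 < q → (∀ x : Fin r → ℤ, (((P.set c).filter fun y => y - x ∈ W).card : ℝ) ≤ q * P.v) →
    ∃ (P' : TG r B n) (c' : Fin r → ℤ) (q' : ℝ), P'.a + P'.b ≤ P.a + P.b ∧ 0 < q' ∧
      Real.exp (-y - Δ * Ck κ - Y4) * P'.v ≤ ((U (t + Δ) ∩ P'.set c').card : ℝ) ∧
      Real.exp (-Y4) * P.v ≤ P'.v ∧ q' ≤ Real.exp Y4 * q ∧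
      (∀ x : Fin r → ℤ, (((P'.set c').filter fun y => y - x ∈ W).card : ℝ) ≤ q' * P'.v) ∧
      (P'.a + P'.b < P.a + P.b ∨
        (2 : ℝ) ^ (Δ * Module.finrank ℤ (LinearMap.ker P.φ2)) * Real.exp (-Y4) * P.v * q' ≤
          P'.v * q)

/-- SLI: the best slice of a two part GAP -/
def Stmt_SLI : Prop :=
  ∀ (r B n : ℕ) (P : TG r B n) (c : Fin r → ℤ) (V : Finset (Fin r → ℤ)), 2 ≤ B →
    ∃ (S : SG r) (c' : Fin r → ℤ), S.d = P.b ∧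
      S.kr = Module.finrank ℤ (LinearMap.ker P.φ2) ∧
      ((V ∩ P.set c).card : ℝ) * S.v ≤ ((V ∩ S.bx c').card : ℝ) * P.v ∧
      P.v ≤ (B : ℝ) ^ ((n + 1) * P.a) * S.v ∧ S.bx c' ⊆ P.set c

/-- ITR: iteration of rounds (from RND, SLI) -/
def Stmt_ITR : Prop :=
  ∀ (r B n κ Δ Dm t0 : ℕ) (N : Fin r → ℕ) (U : ℕ → Finset (Fin r → ℤ))
    (W : Finset (Fin r → ℤ)) (Q0 : TG r B n) (c0 : Fin r → ℤ) (q0 Y1 Y3 Y4 Φ0 : ℝ),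
    10 ^ 4 * Dm ^ 3 ≤ B → 2 ≤ B → 1 ≤ n → 2 ≤ κ → 1 ≤ Δ → Chain κ N U → 0 ≤ Y1 → 0 ≤ Y3 → 0 < Φ0 →
    Q0.a + Q0.b ≤ Dm → 1 ≤ Dm → 0 < q0 →
    60 * (Dm : ℝ) ^ 3 + 4 * (Dm : ℝ) * Real.log B + 2 ≤ Y4 → 2 * Y3 ≤ Δ * Ck κ →
    2 * Y4 ≤ Δ * Ck κ →
    2 * (Y1 + (3 * Dm + 1) * (Δ * Ck κ + Y4)) + 2 + Δ * Ck κ ≤ n / 8 →
    100 * (κ : ℝ) ^ 2 * (B : ℝ) ^ (2 * (n + 1) * Dm) * Real.exp n *
      Real.exp ((3 * Dm + 1) * Y4) ≤ Q0.v →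
    Real.exp (-Y1) * Q0.v ≤ ((U t0 ∩ Q0.set c0).card : ℝ) →
    (∀ x : Fin r → ℤ, (((Q0.set c0).filter fun y => y - x ∈ W).card : ℝ) ≤ q0 * Q0.v) →
    Real.log Φ0 - Y3 ≤ -Y1 + (1 / 2) * Real.log (Q0.v / q0) →
    (∀ t > t0, ∀ P : Finset (Fin r → ℤ), P.Nonempty → ∀ q : ℝ, 0 < q →
      (∀ x : Fin r → ℤ, ((P.filter fun y => y - x ∈ W).card : ℝ) ≤ q * P.card) →
      ((U t ∩ P).card : ℝ) ≤ Φ0 * Real.sqrt (q * P.card)) →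
    ∃ (t : ℕ) (Q : SG r) (c : Fin r → ℤ), t0 ≤ t ∧ Q.kr ≤ rho0 κ ∧ Q.d ≤ r + rho0 κ ∧
      Real.exp (-(Y1 + (3 * Dm + 1) * (Δ * Ck κ + Y4))) * Q.v ≤ ((U t ∩ Q.bx c).card : ℝ) ∧
      Real.exp (-((3 * Dm + 1) * Y4 + (n + 1) * Dm * Real.log B)) * Q0.v ≤ Q.v ∧
      ∀ x : Fin r → ℤ, (((Q.bx c).filter fun y => y - x ∈ W).card : ℝ) ≤
        Real.exp ((3 * Dm + 1) * Y4 + (n + 1) * Dm * Real.log B) * q0 * Q.v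

end Pool.Agent.EMS
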