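import Pool.Agent.EMS.StmtsA
import Pool.Agent.EMS.StmtsB

/-!
# EMS, module CNV: conversion of a refined two part GAP into a proper GAP
-/

set_option autoImplicit false

open Finset
open scoped BigOperators Classical

namespace Pool.Agent.EMS

namespace CNV_

variable {D r : ℕ}

theorem mem_box' {N : Fin D → ℕ} {y : Fin D → ℤ} :
    y ∈ box N ↔ ∀ l, 0 ≤ y l ∧ y l < (N l : ℤ) := by
  unfold box
  simp only [Fintype.mem_piFinset, Finset.mem_Ico]

theorem mem_sbox' {N : Fin D → ℕ} {y : Fin D → ℤ} :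
    y ∈ sbox N ↔ ∀ l, -(N l : ℤ) ≤ y l ∧ y l ≤ (N l : ℤ) := by
  unfold sbox
  simp only [Fintype.mem_piFinset, Finset.mem_Icc]

/-- the conversion map -/
noncomputable def psi (q : ℕ) (Φ : (Fin D → ℤ) →ₗ[ℤ] (Fin r → ℤ)) (y : Fin D → ℤ) :
    Fin r → ℤ := fun i => Φ y i / (q : ℤ)

/-- the standing assumptions -/
structure Cfg (q : ℕ) (M : Fin D → ℕ) (Φ : (Fin D → ℤ) →ₗ[ℤ] (Fin r → ℤ))
    (Λ : Submodule ℤ (Fin D → ℤ)) : Prop where
  hq : 1 ≤ q
  hM : ∀ l, 1 ≤ M l
  prop : ∀ u : Fin D → ℤ, (∀ l, |u l| ≤ 8 * (M l : ℤ)) → Φ u = 0 → u = 0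
  mul : ∀ z : Fin D → ℤ, (q : ℤ) • z ∈ Λ
  div : ∀ y ∈ Λ, ∀ i, (q : ℤ) ∣ Φ y i

variable {q : ℕ} {M : Fin D → ℕ} {Φ : (Fin D → ℤ) →ₗ[ℤ] (Fin r → ℤ)}
  {Λ : Submodule ℤ (Fin D → ℤ)}

theorem psi_smul (h : Cfg q M Φ Λ) {y : Fin D → ℤ} (hy : y ∈ Λ) :
    (q : ℤ) • psi q Φ y = Φ y := by
  ext i
  simp only [psi, Pi.smul_apply, smul_eq_mul]
  exact Int.mul_ediv_cancel' (h.div y hy i)

theorem psi_eq (h : Cfg q M Φ Λ) {y : Fin D → ℤ} (hy : y ∈ Λ) {z : Fin r → ℤ}
    (hz : (q : ℤ) • z = Φ y) : psi q Φ y = z := by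
  have hq0 : (q : ℤ) ≠ 0 := by have := h.hq; omega
  have h1 := psi_smul h hy
  rw [← hz] at h1
  ext i
  have h2 := congrFun h1 i
  simp only [Pi.smul_apply, smul_eq_mul] at h2
  exact mul_left_cancel₀ hq0 h2

theorem psi_add (h : Cfg q M Φ Λ) {y z : Fin D → ℤ} (hy : y ∈ Λ) (hz : z ∈ Λ) :
    psi q Φ (y + z) = psi q Φ y + psi q Φ z :=
  psi_eq h (Λ.add_mem hy hz) (by rw [smul_add, psi_smul h hy, psi_smul h hz, map_add])

theorem psi_sub (h : Cfg q M Φ Λ) {y z : Fin D → ℤ} (hy : y ∈ Λ) (hz : z ∈ Λ) :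
    psi q Φ (y - z) = psi q Φ y - psi q Φ z :=
  psi_eq h (Λ.sub_mem hy hz) (by rw [smul_sub, psi_smul h hy, psi_smul h hz, map_sub])

theorem psi_mul (h : Cfg q M Φ Λ) (z : Fin D → ℤ) : psi q Φ ((q : ℤ) • z) = Φ z :=
  psi_eq h (h.mul z) (by rw [map_smul])

/-- lattice points with `|y_l| ≤ k q M_l` -/
noncomputable def LK (q : ℕ) (M : Fin D → ℕ) (Λ : Submodule ℤ (Fin D → ℤ)) (k : ℕ) :
    Finset (Fin D → ℤ) := (sbox fun l => k * (q * M l)).filter fun y => y ∈ Λ

/-- lattice points of the box -/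
noncomputable def LB (q : ℕ) (M : Fin D → ℕ) (Λ : Submodule ℤ (Fin D → ℤ)) :
    Finset (Fin D → ℤ) := (box fun l => q * M l).filter fun y => y ∈ Λ

/-- residues -/
noncomputable def Res (q : ℕ) (Λ : Submodule ℤ (Fin D → ℤ)) :
    Finset (Fin D → ℤ) := (box fun _ => q).filter fun y => y ∈ Λ

/-- kernel points -/
noncomputable def ker1 (q : ℕ) (M : Fin D → ℕ) (Φ : (Fin D → ℤ) →ₗ[ℤ] (Fin r → ℤ))
    (Λ : Submodule ℤ (Fin D → ℤ)) : Finset (Fin D → ℤ) :=
  (LK q M Λ 1).filter fun y => psi q Φ y = 0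

theorem mem_LK {k : ℕ} {y : Fin D → ℤ} :
    y ∈ LK q M Λ k ↔ (∀ l, |y l| ≤ (k : ℤ) * ((q : ℤ) * (M l : ℤ))) ∧ y ∈ Λ := by
  unfold LK
  rw [Finset.mem_filter, mem_sbox']
  constructor
  · rintro ⟨h1, h2⟩
    refine ⟨fun l => ?_, h2⟩
    have := h1 l
    push_cast at this
    exact abs_le.mpr this
  · rintro ⟨h1, h2⟩
    refine ⟨fun l => ?_, h2⟩
    have := abs_le.mp (h1 l)
    push_cast
    exact this

theorem mem_LB {y : Fin D → ℤ} :
    y ∈ LB q M Λ ↔ (∀ l, 0 ≤ y l ∧ y l < (q : ℤ) * (M l : ℤ)) ∧ y ∈ Λ := by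
  unfold LB
  rw [Finset.mem_filter, mem_box']
  push_cast
  rfl

theorem mem_Res {y : Fin D → ℤ} :
    y ∈ Res q Λ ↔ (∀ l, 0 ≤ y l ∧ y l < (q : ℤ)) ∧ y ∈ Λ := by
  unfold Res
  rw [Finset.mem_filter, mem_box']

theorem mem_ker1 {y : Fin D → ℤ} :
    y ∈ ker1 q M Φ Λ ↔ ((∀ l, |y l| ≤ (q : ℤ) * (M l : ℤ)) ∧ y ∈ Λ) ∧ psi q Φ y = 0 := by
  unfold ker1
  rw [Finset.mem_filter, mem_LK]
  simp

/-- residue of a point -/
def rs (q : ℕ) (y : Fin D → ℤ) : Fin D → ℤ := fun l => y l % (q : ℤ)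

/-- quotient of a point -/
def qt (q : ℕ) (y : Fin D → ℤ) : Fin D → ℤ := fun l => y l / (q : ℤ)

theorem rs_qt (q : ℕ) (y : Fin D → ℤ) : y = rs q y + (q : ℤ) • qt q y := by
  ext l
  simp only [rs, qt, Pi.add_apply, Pi.smul_apply, smul_eq_mul]
  exact (Int.emod_add_mul_ediv _ _).symm

theorem rs_mem (h : Cfg q M Φ Λ) {y : Fin D → ℤ} (hy : y ∈ Λ) : rs q y ∈ Res q Λ := by
  have hq0 : (0 : ℤ) < (q : ℤ) := by have := h.hq; omega
  rw [mem_Res]
  refine ⟨fun l => ⟨Int.emod_nonneg _ hq0.ne', Int.emod_lt_of_pos _ hq0⟩, ?_⟩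
  have h1 : rs q y = y - (q : ℤ) • qt q y := by
    have := rs_qt q y
    exact eq_sub_of_add_eq this.symm
  rw [h1]
  exact Λ.sub_mem hy (h.mul _)

theorem zero_mem_Res (h : Cfg q M Φ Λ) : (0 : Fin D → ℤ) ∈ Res q Λ := by
  rw [mem_Res]
  refine ⟨fun l => ⟨le_rfl, ?_⟩, Λ.zero_mem⟩
  have := h.hq
  simp only [Pi.zero_apply]
  omega

theorem Res_pos (h : Cfg q M Φ Λ) : 1 ≤ (Res q Λ).card :=
  Finset.card_pos.mpr ⟨0, zero_mem_Res h⟩

theorem zero_mem_ker1 (h : Cfg q M Φ Λ) : (0 : Fin D → ℤ) ∈ ker1 q M Φ Λ := by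
  rw [mem_ker1]
  refine ⟨⟨fun l => ?_, Λ.zero_mem⟩, ?_⟩
  · simp only [Pi.zero_apply, abs_zero]
    positivity
  · exact psi_eq h Λ.zero_mem (by simp)

theorem ker1_pos (h : Cfg q M Φ Λ) : 1 ≤ (ker1 q M Φ Λ).card :=
  Finset.card_pos.mpr ⟨0, zero_mem_ker1 h⟩

theorem ker1_le (h : Cfg q M Φ Λ) : (ker1 q M Φ Λ).card ≤ (Res q Λ).card := by
  have hq0 : (0 : ℤ) < (q : ℤ) := by have := h.hq; omega
  refine Finset.card_le_card_of_injOn (rs q) (fun y hy => ?_) ?_
  · exact rs_mem h (mem_ker1.mp hy).1.2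
  · intro y hy z hz hyz
    obtain ⟨⟨hy1, hy2⟩, hy3⟩ := mem_ker1.mp hy
    obtain ⟨⟨hz1, hz2⟩, hz3⟩ := mem_ker1.mp hz
    have h1 : y - z = (q : ℤ) • (qt q y - qt q z) := by
      have e1 := rs_qt q y
      have e2 := rs_qt q z
      rw [← hyz] at e2
      calc y - z = (rs q y + (q : ℤ) • qt q y) - (rs q y + (q : ℤ) • qt q z) := by
            rw [← e1, ← e2]
        _ = _ := by rw [smul_sub]; abel
    have h2 : Φ (qt q y - qt q z) = 0 := by
      rw [← psi_mul h, ← h1, psi_sub h hy2 hz2, hy3, hz3, sub_zero]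
    have h3 : qt q y - qt q z = 0 := by
      refine h.prop _ (fun l => ?_) h2
      have h4 : |(y - z) l| ≤ 2 * ((q : ℤ) * (M l : ℤ)) := by
        have := hy1 l
        have := hz1 l
        rw [Pi.sub_apply]
        calc |y l - z l| ≤ |y l| + |z l| := abs_sub _ _
          _ ≤ _ := by linarith
      rw [h1, Pi.smul_apply, smul_eq_mul, abs_mul, abs_of_pos hq0] at h4
      have h5 : |(qt q y - qt q z) l| ≤ 2 * (M l : ℤ) := by
        refine le_of_mul_le_mul_left ?_ hq0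
        linarith
      have h6 : (0 : ℤ) ≤ (M l : ℤ) := Int.natCast_nonneg _
      linarith
    rw [h3, smul_zero] at h1
    exact sub_eq_zero.mp h1

/-- number of lattice points of the box -/
theorem LB_ge (h : Cfg q M Φ Λ) : (Res q Λ).card * ∏ l, M l ≤ (LB q M Λ).card := by
  have hq0 : (0 : ℤ) < (q : ℤ) := by have := h.hq; omega
  have hbox : (box M).card = ∏ l, M l := by
    unfold box
    rw [Fintype.card_piFinset]
    simp
  rw [← hbox, ← Finset.card_product]
  refine Finset.card_le_card_of_injOn (fun z => z.1 + (q : ℤ) • z.2) (fun z hz => ?_) ?_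
  · obtain ⟨hz1, hz2⟩ := Finset.mem_product.mp hz
    obtain ⟨h1, h2⟩ := mem_Res.mp hz1
    have h3 := mem_box'.mp hz2
    refine mem_LB.mpr ⟨fun l => ?_, Λ.add_mem h2 (h.mul _)⟩
    simp only [Pi.add_apply, Pi.smul_apply, smul_eq_mul]
    obtain ⟨h4, h5⟩ := h1 l
    obtain ⟨h6, h7⟩ := h3 l
    constructor
    · positivity
    · have h8 : z.2 l + 1 ≤ (M l : ℤ) := h7
      nlinarith
  · intro z hz w hw hzw
    obtain ⟨hz1, -⟩ := Finset.mem_product.mp hz
    obtain ⟨hw1, -⟩ := Finset.mem_product.mp hw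
    obtain ⟨h1, -⟩ := mem_Res.mp hz1
    obtain ⟨h2, -⟩ := mem_Res.mp hw1
    have h3 : ∀ l, z.1 l = w.1 l ∧ z.2 l = w.2 l := by
      intro l
      have h4 := congrFun hzw l
      simp only [Pi.add_apply, Pi.smul_apply, smul_eq_mul] at h4
      have e1 : (z.1 l + (q : ℤ) * z.2 l) % q = z.1 l := by
        rw [Int.add_mul_emod_self_left]
        exact Int.emod_eq_of_lt (h1 l).1 (h1 l).2
      have e2 : (w.1 l + (q : ℤ) * w.2 l) % q = w.1 l := by
        rw [Int.add_mul_emod_self_left]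
        exact Int.emod_eq_of_lt (h2 l).1 (h2 l).2
      have e3 : z.1 l = w.1 l := by rw [← e1, ← e2, h4]
      refine ⟨e3, ?_⟩
      rw [e3] at h4
      have h5 := add_left_cancel h4
      exact mul_left_cancel₀ hq0.ne' h5
    exact Prod.ext (funext fun l => (h3 l).1) (funext fun l => (h3 l).2)

/-- fibres -/
theorem fib (h : Cfg q M Φ Λ) (T : Finset (Fin D → ℤ)) (hT : T ⊆ LB q M Λ) :
    T.card ≤ (ker1 q M Φ Λ).card * (T.image (psi q Φ)).card := by
  refine Finset.card_le_mul_card_image _ _ fun p hp => ?_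
  obtain ⟨y0, hy0, hy0p⟩ := Finset.mem_image.mp hp
  refine Finset.card_le_card_of_injOn (fun y => y - y0) (fun y hy => ?_) ?_
  · obtain ⟨hy1, hy2⟩ := Finset.mem_filter.mp hy
    obtain ⟨h1, h2⟩ := mem_LB.mp (hT hy1)
    obtain ⟨h3, h4⟩ := mem_LB.mp (hT hy0)
    refine mem_ker1.mpr ⟨⟨fun l => ?_, Λ.sub_mem h2 h4⟩, ?_⟩
    · have := h1 l
      have := h3 l
      simp only [Pi.sub_apply]
      rw [abs_le]
      constructor <;> linarith
    · rw [psi_sub h h2 h4, hy2, hy0p, sub_self]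
  · intro y _ z _ hyz
    exact sub_left_injective hyz

/-- lifting -/
theorem lift (h : Cfg q M Φ Λ) (H : Finset (Fin r → ℤ))
    (hH : ∀ p ∈ H, ∃ y ∈ LK q M Λ 1, psi q Φ y = p) :
    H.card * (ker1 q M Φ Λ).card ≤ ((LK q M Λ 2).filter fun y => psi q Φ y ∈ H).card := by
  choose! L hL1 hL2 using hH
  rw [← Finset.card_product]
  refine Finset.card_le_card_of_injOn (fun z => L z.1 + z.2) (fun z hz => ?_) ?_
  · obtain ⟨hz1, hz2⟩ := Finset.mem_product.mp hz
    obtain ⟨h1, h2⟩ := mem_LK.mp (hL1 z.1 hz1)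
    obtain ⟨⟨h3, h4⟩, h5⟩ := mem_ker1.mp hz2
    refine Finset.mem_filter.mpr ⟨mem_LK.mpr ⟨fun l => ?_, Λ.add_mem h2 h4⟩, ?_⟩
    · have e1 := h1 l
      have e2 := h3 l
      simp only [Pi.add_apply]
      push_cast at e1 ⊢
      calc |L z.1 l + z.2 l| ≤ |L z.1 l| + |z.2 l| := abs_add_le _ _
        _ ≤ _ := by linarith
    · rw [psi_add h h2 h4, h5, add_zero, hL2 z.1 hz1]
      exact hz1
  · intro z hz w hw hzw
    obtain ⟨hz1, hz2⟩ := Finset.mem_product.mp hz
    obtain ⟨hw1, hw2⟩ := Finset.mem_product.mp hw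
    obtain ⟨-, h2⟩ := mem_LK.mp (hL1 z.1 hz1)
    obtain ⟨⟨-, h4⟩, h5⟩ := mem_ker1.mp hz2
    obtain ⟨-, h2'⟩ := mem_LK.mp (hL1 w.1 hw1)
    obtain ⟨⟨-, h4'⟩, h5'⟩ := mem_ker1.mp hw2
    have e1 : psi q Φ (L z.1 + z.2) = z.1 := by
      rw [psi_add h h2 h4, h5, add_zero, hL2 z.1 hz1]
    have e2 : psi q Φ (L w.1 + w.2) = w.1 := by
      rw [psi_add h h2' h4', h5', add_zero, hL2 w.1 hw1]
    have hzw' : L z.1 + z.2 = L w.1 + w.2 := hzw
    have e3 : z.1 = w.1 := by rw [← e1, ← e2, hzw']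
    refine Prod.ext e3 ?_
    rw [e3] at hzw'
    exact add_left_cancel hzw'

/-- counting in the double box -/
theorem dbl (h : Cfg q M Φ Λ) (p : (Fin r → ℤ) → Prop) (Q : ℝ)
    (hp : ∀ x : Fin r → ℤ, (((box M).filter fun w => p (x + Φ w)).card : ℝ) ≤ Q) :
    (((LK q M Λ 2).filter fun y => p (psi q Φ y)).card : ℝ) ≤
      5 ^ D * (Res q Λ).card * Q := by
  have hq0 : (0 : ℤ) < (q : ℤ) := by have := h.hq; omega
  have hM0 : ∀ l, (0 : ℤ) < (M l : ℤ) := fun l => by have := h.hM l; omega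
  let s5 : Finset (Fin D → ℤ) := sbox fun _ => 2
  have hs5 : s5.card = 5 ^ D := by
    simp only [s5]
    unfold sbox
    rw [Fintype.card_piFinset]
    simp
  let lab : (Fin D → ℤ) → (Fin D → ℤ) × (Fin D → ℤ) :=
    fun y => (rs q y, fun l => qt q y l / (M l : ℤ))
  have hmaps : ∀ y ∈ (LK q M Λ 2).filter (fun y => p (psi q Φ y)), lab y ∈ Res q Λ ×ˢ s5 := by
    intro y hy
    obtain ⟨hy1, -⟩ := Finset.mem_filter.mp hy
    obtain ⟨h1, h2⟩ := mem_LK.mp hy1
    refine Finset.mem_product.mpr ⟨rs_mem h h2, ?_⟩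
    refine mem_sbox'.mpr fun l => ?_
    have e1 := abs_le.mp (h1 l)
    simp only [lab, qt]
    push_cast at e1 ⊢
    rw [Int.ediv_ediv_of_nonneg hq0.le]
    constructor
    · rw [Int.le_ediv_iff_mul_le (mul_pos hq0 (hM0 l))]
      linarith [e1.1]
    · have h3 : y l / ((q : ℤ) * (M l : ℤ)) < 3 := by
        rw [Int.ediv_lt_iff_lt_mul (mul_pos hq0 (hM0 l))]
        have := mul_pos hq0 (hM0 l)
        linarith [e1.2]
      omega
  rw [Finset.card_eq_sum_card_fiberwise hmaps]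
  push_cast
  have hfib : ∀ ρ ∈ Res q Λ ×ˢ s5,
      ((((LK q M Λ 2).filter (fun y => p (psi q Φ y))).filter (fun y => lab y = ρ)).card : ℝ) ≤
        Q := by
    intro ρ hρ
    obtain ⟨hρ1, -⟩ := Finset.mem_product.mp hρ
    obtain ⟨-, hρ2⟩ := mem_Res.mp hρ1
    have key : ∀ y ∈ ((LK q M Λ 2).filter (fun y => p (psi q Φ y))).filter
        (fun y => lab y = ρ), psi q Φ y =
          (psi q Φ ρ.1 + Φ (fun l => (M l : ℤ) * ρ.2 l)) + Φ (fun l => qt q y l % (M l : ℤ)) := by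
      intro y hy
      obtain ⟨hy1, hy2⟩ := Finset.mem_filter.mp hy
      have hy3 : rs q y = ρ.1 := congrArg Prod.fst hy2
      have hy4 : (fun l => qt q y l / (M l : ℤ)) = ρ.2 := congrArg Prod.snd hy2
      have e1 : y = ρ.1 + (q : ℤ) • qt q y := by rw [← hy3]; exact rs_qt q y
      have e2 : qt q y = (fun l => (M l : ℤ) * ρ.2 l) + (fun l => qt q y l % (M l : ℤ)) := by
        ext l
        simp only [Pi.add_apply]
        rw [← hy4, add_comm]
        exact (Int.emod_add_mul_ediv _ _).symm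
      calc psi q Φ y = psi q Φ (ρ.1 + (q : ℤ) • qt q y) := by rw [← e1]
        _ = psi q Φ ρ.1 + Φ (qt q y) := by rw [psi_add h hρ2 (h.mul _), psi_mul h]
        _ = _ := by
            conv_lhs => rw [e2]
            rw [map_add, add_assoc]
    have h1 : (((LK q M Λ 2).filter (fun y => p (psi q Φ y))).filter (fun y => lab y = ρ)).card ≤
        ((box M).filter fun w =>
          p ((psi q Φ ρ.1 + Φ (fun l => (M l : ℤ) * ρ.2 l)) + Φ w)).card := by
      refine Finset.card_le_card_of_injOn (fun y l => qt q y l % (M l : ℤ)) (fun y hy => ?_) ?_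
      · refine Finset.mem_filter.mpr ⟨?_, ?_⟩
        · exact mem_box'.mpr fun l => ⟨Int.emod_nonneg _ (hM0 l).ne', Int.emod_lt_of_pos _ (hM0 l)⟩
        · have h2 := key y hy
          have h3 := (Finset.mem_filter.mp (Finset.mem_filter.mp hy).1).2
          rw [h2] at h3
          exact h3
      · intro y hy z hz hyz
        have hy2 := (Finset.mem_filter.mp hy).2
        have hz2 := (Finset.mem_filter.mp hz).2
        have e1 : rs q y = rs q z := by
          rw [show rs q y = ρ.1 from congrArg Prod.fst hy2,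
            show rs q z = ρ.1 from congrArg Prod.fst hz2]
        have e2 : qt q y = qt q z := by
          ext l
          have f1 : qt q y l / (M l : ℤ) = qt q z l / (M l : ℤ) := by
            have g1 : (fun l => qt q y l / (M l : ℤ)) = ρ.2 := congrArg Prod.snd hy2
            have g2 : (fun l => qt q z l / (M l : ℤ)) = ρ.2 := congrArg Prod.snd hz2
            exact congrFun (g1.trans g2.symm) l
          have f2 : qt q y l % (M l : ℤ) = qt q z l % (M l : ℤ) := congrFun hyz l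
          rw [← Int.emod_add_mul_ediv (qt q y l) (M l : ℤ),
            ← Int.emod_add_mul_ediv (qt q z l) (M l : ℤ), f1, f2]
        rw [rs_qt q y, rs_qt q z, e1, e2]
    refine le_trans ?_ (hp (psi q Φ ρ.1 + Φ (fun l => (M l : ℤ) * ρ.2 l)))
    exact_mod_cast h1
  refine (Finset.sum_le_sum hfib).trans (le_of_eq ?_)
  rw [Finset.sum_const, Finset.card_product, hs5, nsmul_eq_mul]
  push_cast
  ring

theorem dblH (h : Cfg q M Φ Λ) (H : Finset (Fin r → ℤ)) (Q : ℝ)
    (hp : ∀ x : Fin r → ℤ, (((box M).filter fun w => x + Φ w ∈ H).card : ℝ) ≤ Q) :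
    (((LK q M Λ 2).filter fun y => psi q Φ y ∈ H).card : ℝ) ≤
      5 ^ D * (Res q Λ).card * Q := by
  refine le_trans (le_of_eq ?_) (dbl h (fun p => p ∈ H) Q fun x =>
    le_trans (le_of_eq ?_) (hp x))
  · exact congrArg (fun s : Finset (Fin D → ℤ) => (s.card : ℝ))
      (by ext y; simp only [Finset.mem_filter])
  · exact congrArg (fun s : Finset (Fin D → ℤ) => (s.card : ℝ))
      (by ext y; simp only [Finset.mem_filter])

/-- the linear map on the lattice used in the conversion lemma -/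
noncomputable def phiL (h : Cfg q M Φ Λ) : Λ →ₗ[ℤ] (Fin r → ℤ) where
  toFun y := psi q Φ (y : Fin D → ℤ)
  map_add' y z := psi_add h y.2 z.2
  map_smul' c y := by
    refine psi_eq h (Λ.smul_mem c y.2) ?_
    rw [RingHom.id_apply, smul_comm, psi_smul h y.2, map_smul]

theorem core (hCLC : Stmt_CLC) (h : Cfg q M Φ Λ) (hD : 1 ≤ D) (c : Fin r → ℤ)
    (V : Finset (Fin r → ℤ)) (A0 : ℝ) (hA0 : 0 < A0)
    (hT : A0 * (Res q Λ).card * vol M ≤
      (((LB q M Λ).filter fun y => c + psi q Φ y ∈ V).card : ℝ)) :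
    ∃ (S : SG r) (c' : Fin r → ℤ), S.d ≤ D ∧
      A0 * Real.exp (-(23 * (D : ℝ) ^ 3)) * S.v ≤ ((V ∩ S.bx c').card : ℝ) ∧
      Real.exp (-(23 * (D : ℝ) ^ 3)) * vol M ≤ S.v ∧
      (∀ (W : Finset (Fin r → ℤ)) (Q : ℝ),
        (∀ x : Fin r → ℤ, (((box M).filter fun w => Φ w - x ∈ W).card : ℝ) ≤ Q * vol M) →
        ∀ x : Fin r → ℤ, (((S.bx c').filter fun y => y - x ∈ W).card : ℝ) ≤
          Real.exp (23 * (D : ℝ) ^ 3) * Q * S.v) ∧
      (S.d < D ∨ ∀ (W : Finset (Fin r → ℤ)) (Q : ℝ),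
        (∀ x : Fin r → ℤ, (((box M).filter fun w => Φ w - x ∈ W).card : ℝ) ≤ Q * vol M) →
        ∀ x : Fin r → ℤ, (((S.bx c').filter fun y => y - x ∈ W).card : ℝ) *
          ((Res q Λ).card : ℝ) * vol M ≤ Real.exp (43 * (D : ℝ) ^ 3) * Q * S.v ^ 2) := by
  have hqr : (0 : ℝ) < (q : ℝ) := by
    have := h.hq
    exact_mod_cast (by omega : 0 < q)
  have hMr : ∀ l, (0 : ℝ) < (M l : ℝ) := fun l => by
    have := h.hM l
    exact_mod_cast (by omega : 0 < M l)
  have hvM : 0 < vol M := Finset.prod_pos fun l _ => hMr l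
  obtain ⟨d, g, M', hd, hM', hg1, hg2, ⟨F, hF1, hF2⟩, hg4⟩ :=
    hCLC D r Λ (fun l => (q : ℝ) * M l) (phiL h) hD (fun l => mul_pos hqr (hMr l))
  obtain ⟨E, hE⟩ : ∃ E, E = Real.exp (20 * (D : ℝ) ^ 3) := ⟨_, rfl⟩
  rw [← hE] at hF1 hg4
  have hEpos : 0 < E := by rw [hE]; exact Real.exp_pos _
  let S : SG r := ⟨d, g, M', hM', hg2⟩
  have hSd : S.d = d := rfl
  have hSv : S.v = ∏ l, (M' l : ℝ) := rfl
  have hSvpos : 0 < S.v := by
    rw [hSv]
    refine Finset.prod_pos fun l _ => ?_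
    have := hM' l
    exact_mod_cast (by omega : 0 < M' l)
  have hdD : d ≤ D := by
    refine hd.trans ?_
    have h1 := Submodule.finrank_le Λ
    rwa [Module.finrank_fin_fun] at h1
  -- real box versus integer box
  have hreal : ∀ y : Fin D → ℤ, (∀ l, |(y l : ℝ)| ≤ (q : ℝ) * M l) ↔
      ∀ l, |y l| ≤ (q : ℤ) * (M l : ℤ) := by
    intro y
    refine forall_congr' fun l => ?_
    rw [← Int.cast_abs]
    exact_mod_cast Iff.rfl
  have hlift : ∀ u : Fin d → ℤ, (∀ l, |u l| ≤ 8 * (M' l : ℤ)) →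
      ∃ y ∈ LK q M Λ 1, psi q Φ y = g u := by
    intro u hu
    obtain ⟨y, hy1, hy2⟩ := hg1 u hu
    refine ⟨y, mem_LK.mpr ⟨fun l => ?_, y.2⟩, hy2⟩
    have := (hreal y).mp hy1 l
    simpa using this
  obtain ⟨kap, hkap⟩ : ∃ kap : ℝ, kap = ((ker1 q M Φ Λ).card : ℝ) := ⟨_, rfl⟩
  obtain ⟨I, hI⟩ : ∃ I : ℝ, I = ((Res q Λ).card : ℝ) := ⟨_, rfl⟩
  have hkap1 : 1 ≤ kap := by rw [hkap]; exact_mod_cast ker1_pos h
  have hkapI : kap ≤ I := by rw [hkap, hI]; exact_mod_cast ker1_le h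
  have hI1 : 1 ≤ I := hkap1.trans hkapI
  rw [← hI] at hT ⊢
  have hLB : I * vol M ≤ ((LB q M Λ).card : ℝ) := by
    have h1 := LB_ge h
    have h2 : (((Res q Λ).card * ∏ l, M l : ℕ) : ℝ) ≤ ((LB q M Λ).card : ℝ) := by
      exact_mod_cast h1
    push_cast at h2
    rw [hI]
    exact h2
  have h5 : (5 : ℝ) ^ D ≤ Real.exp (3 * (D : ℝ) ^ 3) := by
    have h6 : (5 : ℝ) ≤ Real.exp 3 := by
      have h7 : (2 : ℝ) ≤ Real.exp 1 := by
        have := Real.add_one_le_exp (1 : ℝ)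
        linarith
      have h8 : Real.exp 3 = Real.exp 1 ^ 3 := by
        rw [← Real.exp_nat_mul]; norm_num
      rw [h8]
      have h9 : (2 : ℝ) ^ 3 ≤ Real.exp 1 ^ 3 := pow_le_pow_left₀ (by norm_num) h7 3
      linarith
    calc (5 : ℝ) ^ D ≤ (Real.exp 3) ^ D := pow_le_pow_left₀ (by norm_num) h6 D
      _ = Real.exp (3 * (D : ℝ)) := by rw [← Real.exp_nat_mul]; congr 1; ring
      _ ≤ _ := by
          refine Real.exp_le_exp.mpr ?_
          have h7 : (1 : ℝ) ≤ (D : ℝ) := by exact_mod_cast hD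
          have h8 : (D : ℝ) ≤ (D : ℝ) ^ 3 := le_self_pow₀ h7 (by norm_num)
          linarith
  have h5E : 5 ^ D * E ≤ Real.exp (23 * (D : ℝ) ^ 3) := by
    rw [hE]
    calc (5 : ℝ) ^ D * Real.exp (20 * (D : ℝ) ^ 3) ≤
          Real.exp (3 * (D : ℝ) ^ 3) * Real.exp (20 * (D : ℝ) ^ 3) :=
          mul_le_mul_of_nonneg_right h5 (Real.exp_pos _).le
      _ = _ := by rw [← Real.exp_add]; congr 1; ring
  have h5E2 : 5 ^ D * E * E ≤ Real.exp (43 * (D : ℝ) ^ 3) := by
    calc (5 : ℝ) ^ D * E * E ≤ Real.exp (23 * (D : ℝ) ^ 3) * E :=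
          mul_le_mul_of_nonneg_right h5E hEpos.le
      _ = _ := by rw [hE, ← Real.exp_add]; congr 1; ring
  have hEle : E ≤ Real.exp (23 * (D : ℝ) ^ 3) := by
    rw [hE]
    refine Real.exp_le_exp.mpr ?_
    have : (0 : ℝ) ≤ (D : ℝ) ^ 3 := by positivity
    linarith
  -- (iii)
  have hcover : ∀ y ∈ LB q M Λ, ∃ f ∈ F, ∃ u ∈ box M', psi q Φ y = f + g u := by
    intro y hy
    obtain ⟨h1, h2⟩ := mem_LB.mp hy
    refine hF2 ⟨y, h2⟩ ((hreal y).mpr fun l => ?_)
    rw [abs_of_nonneg (h1 l).1]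
    exact (h1 l).2.le
  have hcardbox : ((box M').card : ℝ) = S.v := by
    rw [hSv]
    unfold box
    rw [Fintype.card_piFinset]
    push_cast
    simp
  have himg : (((LB q M Λ).image (psi q Φ)).card : ℝ) ≤ E * S.v := by
    have h1 : (LB q M Λ).image (psi q Φ) ⊆ (F ×ˢ box M').image fun z => z.1 + g z.2 := by
      intro p hp
      obtain ⟨y, hy, rfl⟩ := Finset.mem_image.mp hp
      obtain ⟨f, hf, u, hu, hfu⟩ := hcover y hy
      exact Finset.mem_image.mpr ⟨(f, u), Finset.mem_product.mpr ⟨hf, hu⟩, hfu.symm⟩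
    have h2 := (Finset.card_le_card h1).trans Finset.card_image_le
    rw [Finset.card_product] at h2
    have h3 : (((LB q M Λ).image (psi q Φ)).card : ℝ) ≤ (F.card : ℝ) * ((box M').card : ℝ) := by
      exact_mod_cast h2
    rw [hcardbox] at h3
    exact h3.trans (mul_le_mul_of_nonneg_right hF1 hSvpos.le)
  have hiii : I * vol M ≤ kap * (E * S.v) := by
    have h1 := fib h (LB q M Λ) (Finset.Subset.refl _)
    have h2 : ((LB q M Λ).card : ℝ) ≤ kap * (((LB q M Λ).image (psi q Φ)).card : ℝ) := by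
      rw [hkap]; exact_mod_cast h1
    exact hLB.trans (h2.trans (mul_le_mul_of_nonneg_left himg (by linarith)))
  have hiii' : vol M ≤ E * S.v := by
    have h1 : kap * vol M ≤ kap * (E * S.v) :=
      (mul_le_mul_of_nonneg_right hkapI hvM.le).trans hiii
    exact le_of_mul_le_mul_left h1 (by linarith)
  -- (i)
  obtain ⟨T, hTdef⟩ : ∃ T : Finset (Fin D → ℤ),
      T = (LB q M Λ).filter fun y => c + psi q Φ y ∈ V := ⟨_, rfl⟩
  rw [← hTdef] at hT
  have hTpos : 0 < (T.card : ℝ) :=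
    lt_of_lt_of_le (mul_pos (mul_pos hA0 (by linarith)) hvM) hT
  have hTLB : T ⊆ LB q M Λ := by rw [hTdef]; exact Finset.filter_subset _ _
  obtain ⟨Tf, hTf⟩ : ∃ Tf : (Fin r → ℤ) → Finset (Fin D → ℤ),
      ∀ f, Tf f = T.filter fun y => ∃ u ∈ box M', psi q Φ y = f + g u := ⟨_, fun f => rfl⟩
  have hTsub : T ⊆ F.biUnion Tf := by
    intro y hy
    obtain ⟨f, hf, hfu⟩ := hcover y (hTLB hy)
    exact Finset.mem_biUnion.mpr ⟨f, hf, by rw [hTf]; exact Finset.mem_filter.mpr ⟨hy, hfu⟩⟩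
  have hFne : F.Nonempty := by
    by_contra hcon
    rw [Finset.not_nonempty_iff_eq_empty] at hcon
    rw [hcon] at hTsub
    simp only [Finset.biUnion_empty, Finset.subset_empty] at hTsub
    rw [hTsub] at hTpos
    simp at hTpos
  obtain ⟨f0, hf0, hf0max⟩ := Finset.exists_max_image F (fun f => (Tf f).card) hFne
  have hi : (T.card : ℝ) ≤ E * ((Tf f0).card : ℝ) := by
    have h1 : T.card ≤ ∑ f ∈ F, (Tf f).card :=
      (Finset.card_le_card hTsub).trans Finset.card_biUnion_le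
    have h2 : ∑ f ∈ F, (Tf f).card ≤ ∑ _f ∈ F, (Tf f0).card :=
      Finset.sum_le_sum fun f hf => hf0max f hf
    rw [Finset.sum_const, smul_eq_mul] at h2
    have h3 : (T.card : ℝ) ≤ (F.card : ℝ) * ((Tf f0).card : ℝ) := by
      exact_mod_cast h1.trans h2
    exact h3.trans (mul_le_mul_of_nonneg_right hF1 (Nat.cast_nonneg _))
  have hfibf0 : ((Tf f0).card : ℝ) ≤ kap * ((V ∩ S.bx (c + f0)).card : ℝ) := by
    have h1 : Tf f0 ⊆ LB q M Λ := by
      rw [hTf]; exact (Finset.filter_subset _ _).trans hTLB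
    have h2 := fib h (Tf f0) h1
    have h3 : ((Tf f0).image (psi q Φ)).card ≤ (V ∩ S.bx (c + f0)).card := by
      refine Finset.card_le_card_of_injOn (fun p => c + p) (fun p hp => ?_) ?_
      · obtain ⟨y, hy, rfl⟩ := Finset.mem_image.mp hp
        rw [hTf] at hy
        obtain ⟨hy1, u, hu, hyu⟩ := Finset.mem_filter.mp hy
        rw [hTdef] at hy1
        refine Finset.mem_inter.mpr ⟨(Finset.mem_filter.mp hy1).2, ?_⟩
        refine Finset.mem_image.mpr ⟨u, hu, ?_⟩
        change c + f0 + g u = c + psi q Φ y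
        rw [hyu, add_assoc]
      · intro p _ p' _ hpp
        exact add_left_cancel hpp
    have h4 : ((Tf f0).card : ℝ) ≤ kap * (((Tf f0).image (psi q Φ)).card : ℝ) := by
      rw [hkap]; exact_mod_cast h2
    refine h4.trans (mul_le_mul_of_nonneg_left ?_ (by linarith))
    exact_mod_cast h3
  have hmem_bx : ∀ p ∈ S.bx (c + f0), ∃ u ∈ box M', p = c + f0 + g u := by
    intro p hp
    obtain ⟨u, hu, hpu⟩ := Finset.mem_image.mp hp
    exact ⟨u, hu, hpu.symm⟩
  have hbox8 : ∀ u ∈ box M', ∀ l, |u l| ≤ 8 * (M' l : ℤ) := by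
    intro u hu l
    have h1 := mem_box'.mp hu l
    rw [abs_of_nonneg h1.1]
    have : (0 : ℤ) ≤ (M' l : ℤ) := Int.natCast_nonneg _
    linarith [h1.2]
  -- (ii)
  have hginj : Set.InjOn g (box M' : Set (Fin d → ℤ)) := by
    intro u hu w hw huw
    have h1 : g (u - w) = 0 := by rw [map_sub, huw, sub_self]
    have h2 := hg2 (u - w) (fun l => by
      have e1 := mem_box'.mp hu l
      have e2 := mem_box'.mp hw l
      rw [Pi.sub_apply, abs_le]
      constructor <;> linarith [e1.1, e1.2, e2.1, e2.2]) h1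
    exact sub_eq_zero.mp h2
  have hii : S.v * kap ≤ 5 ^ D * I * vol M := by
    have h1 := lift h ((box M').image g) (fun p hp => by
      obtain ⟨u, hu, rfl⟩ := Finset.mem_image.mp hp
      exact hlift u (hbox8 u hu))
    rw [Finset.card_image_of_injOn hginj] at h1
    have h2 : (((box M').card * (ker1 q M Φ Λ).card : ℕ) : ℝ) ≤
        (((LK q M Λ 2).filter fun y => psi q Φ y ∈ (box M').image g).card : ℝ) := by
      exact_mod_cast h1
    push_cast at h2
    rw [hcardbox, ← hkap] at h2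
    have h3 := dblH h ((box M').image g) (vol M) (fun x => by
      have e1 : ((box M).filter fun w => x + Φ w ∈ (box M').image g).card ≤ (box M).card :=
        Finset.card_le_card (Finset.filter_subset _ _)
      have e2 : ((box M).card : ℝ) = vol M := by
        unfold box vol
        rw [Fintype.card_piFinset]
        push_cast
        simp
      rw [← e2]
      exact_mod_cast e1)
    rw [← hI] at h3
    exact h2.trans h3
  refine ⟨S, c + f0, hdD, ?_, ?_, ?_, ?_⟩
  · -- density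
    have h1 : A0 * (S.v * kap) ≤ kap * ((5 ^ D * E) * ((V ∩ S.bx (c + f0)).card : ℝ)) := by
      calc A0 * (S.v * kap) ≤ A0 * (5 ^ D * I * vol M) :=
            mul_le_mul_of_nonneg_left hii hA0.le
        _ = 5 ^ D * (A0 * I * vol M) := by ring
        _ ≤ 5 ^ D * (E * (kap * ((V ∩ S.bx (c + f0)).card : ℝ))) := by
            refine mul_le_mul_of_nonneg_left ?_ (by positivity)
            exact hT.trans (hi.trans (mul_le_mul_of_nonneg_left hfibf0 hEpos.le))
        _ = _ := by ring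
    have h2 : A0 * S.v ≤ (5 ^ D * E) * ((V ∩ S.bx (c + f0)).card : ℝ) := by
      have h3 : kap * (A0 * S.v) ≤ kap * ((5 ^ D * E) * ((V ∩ S.bx (c + f0)).card : ℝ)) := by
        calc kap * (A0 * S.v) = A0 * (S.v * kap) := by ring
          _ ≤ _ := h1
      exact le_of_mul_le_mul_left h3 (by linarith)
    have h3 : A0 * S.v ≤ Real.exp (23 * (D : ℝ) ^ 3) * ((V ∩ S.bx (c + f0)).card : ℝ) :=
      h2.trans (mul_le_mul_of_nonneg_right h5E (Nat.cast_nonneg _))
    rw [Real.exp_neg]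
    calc A0 * (Real.exp (23 * (D : ℝ) ^ 3))⁻¹ * S.v
        = (Real.exp (23 * (D : ℝ) ^ 3))⁻¹ * (A0 * S.v) := by ring
      _ ≤ (Real.exp (23 * (D : ℝ) ^ 3))⁻¹ * (Real.exp (23 * (D : ℝ) ^ 3) *
          ((V ∩ S.bx (c + f0)).card : ℝ)) :=
          mul_le_mul_of_nonneg_left h3 (inv_nonneg.mpr (Real.exp_pos _).le)
      _ = _ := by
          rw [← mul_assoc, inv_mul_cancel₀ (Real.exp_pos _).ne', one_mul]
  · -- size
    rw [Real.exp_neg, inv_mul_le_iff₀ (Real.exp_pos _)]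
    exact hiii'.trans (mul_le_mul_of_nonneg_right hEle hSvpos.le)
  · -- spread
    intro W Q hQ x
    have hQ0 : 0 ≤ Q := by
      have h1 : 0 ≤ Q * vol M := le_trans (Nat.cast_nonneg _) (hQ 0)
      exact nonneg_of_mul_nonneg_left h1 hvM
    have h1 := lift h (((S.bx (c + f0)).filter fun y => y - x ∈ W).image
      fun p => p - (c + f0)) (fun p hp => by
      obtain ⟨p', hp', rfl⟩ := Finset.mem_image.mp hp
      obtain ⟨u, hu, hpu⟩ := hmem_bx p' (Finset.mem_filter.mp hp').1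
      obtain ⟨y, hy1, hy2⟩ := hlift u (hbox8 u hu)
      exact ⟨y, hy1, by rw [hy2, hpu]; abel⟩)
    rw [Finset.card_image_of_injective _ sub_left_injective] at h1
    have h2 := dblH h (((S.bx (c + f0)).filter fun y => y - x ∈ W).image
      fun p => p - (c + f0)) (Q * vol M) (fun x' => by
        refine le_trans ?_ (hQ (x - (c + f0) - x'))
        have e1 : ((box M).filter fun w => x' + Φ w ∈
            ((S.bx (c + f0)).filter fun y => y - x ∈ W).image fun p => p - (c + f0)).card ≤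
            ((box M).filter fun w => Φ w - (x - (c + f0) - x') ∈ W).card := by
          refine Finset.card_le_card ?_
          intro w hw
          obtain ⟨hw1, hw2⟩ := Finset.mem_filter.mp hw
          obtain ⟨p, hp, hpw⟩ := Finset.mem_image.mp hw2
          refine Finset.mem_filter.mpr ⟨hw1, ?_⟩
          have e2 := (Finset.mem_filter.mp hp).2
          have e3 : Φ w - (x - (c + f0) - x') = p - x := by
            calc Φ w - (x - (c + f0) - x') = (x' + Φ w) + (c + f0) - x := by abel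
              _ = p - x := by rw [← hpw]; abel
          rw [e3]
          exact e2
        exact_mod_cast e1)
    rw [← hI] at h2
    have h3 : (((S.bx (c + f0)).filter fun y => y - x ∈ W).card : ℝ) * kap ≤
        5 ^ D * I * (Q * vol M) := by
      refine le_trans ?_ h2
      rw [hkap]
      exact_mod_cast h1
    have h4 : kap * (((S.bx (c + f0)).filter fun y => y - x ∈ W).card : ℝ) ≤
        kap * ((5 ^ D * E) * Q * S.v) := by
      calc kap * (((S.bx (c + f0)).filter fun y => y - x ∈ W).card : ℝ)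
          = (((S.bx (c + f0)).filter fun y => y - x ∈ W).card : ℝ) * kap := by ring
        _ ≤ 5 ^ D * I * (Q * vol M) := h3
        _ = 5 ^ D * Q * (I * vol M) := by ring
        _ ≤ 5 ^ D * Q * (kap * (E * S.v)) := mul_le_mul_of_nonneg_left hiii (by positivity)
        _ = _ := by ring
    have h5' := le_of_mul_le_mul_left h4 (by linarith : (0 : ℝ) < kap)
    refine h5'.trans ?_
    exact mul_le_mul_of_nonneg_right (mul_le_mul_of_nonneg_right h5E hQ0) hSvpos.le
  · -- second alternative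
    rcases Nat.lt_or_ge d D with hlt | hge
    · left; exact hlt
    · right
      have hdD' : d = D := le_antisymm hdD hge
      have hfr : ¬ d < Module.finrank ℤ Λ := by
        have h1 := Submodule.finrank_le Λ
        rw [Module.finrank_fin_fun] at h1
        omega
      have hcount := hg4.resolve_left hfr
      have hLK1 : {y : Fin D → ℤ | y ∈ Λ ∧ ∀ l, |(y l : ℝ)| ≤ (q : ℝ) * M l} =
          (LK q M Λ 1 : Set (Fin D → ℤ)) := by
        ext y
        simp only [Set.mem_setOf_eq, Finset.mem_coe]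
        rw [mem_LK, hreal y]
        simp [and_comm]
      rw [hLK1, Set.ncard_coe_finset] at hcount
      have hsub : LB q M Λ ⊆ LK q M Λ 1 := by
        intro y hy
        obtain ⟨h1, h2⟩ := mem_LB.mp hy
        refine mem_LK.mpr ⟨fun l => ?_, h2⟩
        rw [abs_of_nonneg (h1 l).1]
        have := (h1 l).2
        push_cast
        linarith
      have hIv : I * vol M ≤ E * S.v := by
        refine hLB.trans (le_trans ?_ hcount)
        exact_mod_cast Finset.card_le_card hsub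
      intro W Q hQ x
      have hQ0 : 0 ≤ Q := by
        have h1 : 0 ≤ Q * vol M := le_trans (Nat.cast_nonneg _) (hQ 0)
        exact nonneg_of_mul_nonneg_left h1 hvM
      have h1 := lift h (((S.bx (c + f0)).filter fun y => y - x ∈ W).image
        fun p => p - (c + f0)) (fun p hp => by
        obtain ⟨p', hp', rfl⟩ := Finset.mem_image.mp hp
        obtain ⟨u, hu, hpu⟩ := hmem_bx p' (Finset.mem_filter.mp hp').1
        obtain ⟨y, hy1, hy2⟩ := hlift u (hbox8 u hu)
        exact ⟨y, hy1, by rw [hy2, hpu]; abel⟩)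
      rw [Finset.card_image_of_injective _ sub_left_injective] at h1
      have h2 := dblH h (((S.bx (c + f0)).filter fun y => y - x ∈ W).image
        fun p => p - (c + f0)) (Q * vol M) (fun x' => by
          refine le_trans ?_ (hQ (x - (c + f0) - x'))
          have e1 : ((box M).filter fun w => x' + Φ w ∈
              ((S.bx (c + f0)).filter fun y => y - x ∈ W).image fun p => p - (c + f0)).card ≤
              ((box M).filter fun w => Φ w - (x - (c + f0) - x') ∈ W).card := by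
            refine Finset.card_le_card ?_
            intro w hw
            obtain ⟨hw1, hw2⟩ := Finset.mem_filter.mp hw
            obtain ⟨p, hp, hpw⟩ := Finset.mem_image.mp hw2
            refine Finset.mem_filter.mpr ⟨hw1, ?_⟩
            have e2 := (Finset.mem_filter.mp hp).2
            have e3 : Φ w - (x - (c + f0) - x') = p - x := by
              calc Φ w - (x - (c + f0) - x') = (x' + Φ w) + (c + f0) - x := by abel
                _ = p - x := by rw [← hpw]; abel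
            rw [e3]
            exact e2
          exact_mod_cast e1)
      rw [← hI] at h2
      have h3 : (((S.bx (c + f0)).filter fun y => y - x ∈ W).card : ℝ) * kap ≤
          5 ^ D * I * (Q * vol M) := by
        refine le_trans ?_ h2
        rw [hkap]
        exact_mod_cast h1
      have h4 : kap * ((((S.bx (c + f0)).filter fun y => y - x ∈ W).card : ℝ) * I * vol M) ≤
          kap * ((5 ^ D * E * E) * Q * S.v ^ 2) := by
        have hIv0 : 0 ≤ I * vol M := mul_nonneg (by linarith) hvM.le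
        calc kap * ((((S.bx (c + f0)).filter fun y => y - x ∈ W).card : ℝ) * I * vol M)
            = ((((S.bx (c + f0)).filter fun y => y - x ∈ W).card : ℝ) * kap) * (I * vol M) := by
              ring
          _ ≤ (5 ^ D * I * (Q * vol M)) * (I * vol M) := mul_le_mul_of_nonneg_right h3 hIv0
          _ = 5 ^ D * Q * ((I * vol M) * (I * vol M)) := by ring
          _ ≤ 5 ^ D * Q * ((kap * (E * S.v)) * (E * S.v)) := by
              refine mul_le_mul_of_nonneg_left ?_ (by positivity)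
              exact mul_le_mul hiii hIv hIv0 (by positivity)
          _ = _ := by ring
      have h5' := le_of_mul_le_mul_left h4 (by linarith : (0 : ℝ) < kap)
      refine h5'.trans ?_
      exact mul_le_mul_of_nonneg_right (mul_le_mul_of_nonneg_right h5E2 hQ0)
        (by positivity)

/-! ## specialisation to two part GAPs -/

/-- the combined linear map -/
noncomputable def bigPhi {r a b : ℕ} (φ1 : (Fin a → ℤ) →ₗ[ℤ] (Fin r → ℤ))
    (φ2 : (Fin b → ℤ) →ₗ[ℤ] (Fin r → ℤ)) : (Fin (a + b) → ℤ) →ₗ[ℤ] (Fin r → ℤ) :=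
  φ1 ∘ₗ LinearMap.funLeft ℤ ℤ (Fin.castAdd b) + φ2 ∘ₗ LinearMap.funLeft ℤ ℤ (Fin.natAdd a)

theorem bigPhi_apply {r a b : ℕ} (φ1 : (Fin a → ℤ) →ₗ[ℤ] (Fin r → ℤ))
    (φ2 : (Fin b → ℤ) →ₗ[ℤ] (Fin r → ℤ)) (y : Fin (a + b) → ℤ) :
    bigPhi φ1 φ2 y = φ1 (fun l => y (Fin.castAdd b l)) + φ2 (fun l => y (Fin.natAdd a l)) := rfl

/-- the lattice -/
noncomputable def bigLam {r a b : ℕ} (φ2 : (Fin b → ℤ) →ₗ[ℤ] (Fin r → ℤ)) (Δ : ℕ) :
    Submodule ℤ (Fin (a + b) → ℤ) where
  carrier := {y | (∀ l : Fin a, (2 ^ Δ : ℤ) ∣ y (Fin.castAdd b l)) ∧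
    Gam φ2 Δ (fun l => y (Fin.natAdd a l))}
  add_mem' := by
    rintro x y ⟨hx1, hx2, hx3⟩ ⟨hy1, hy2, hy3⟩
    refine ⟨fun l => dvd_add (hx1 l) (hy1 l), hx2 + hy2, ?_⟩
    rw [smul_add, ← hx3, ← hy3, ← map_add]
    rfl
  zero_mem' := by
    refine ⟨fun l => dvd_zero _, 0, ?_⟩
    rw [smul_zero]
    exact map_zero _
  smul_mem' := by
    rintro c x ⟨hx1, hx2, hx3⟩
    refine ⟨fun l => ?_, c • hx2, ?_⟩
    · rw [Pi.smul_apply, smul_eq_mul]
      exact Dvd.dvd.mul_left (hx1 l) c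
    · rw [smul_comm, ← hx3, ← map_smul]
      rfl

theorem mem_bigLam {r a b : ℕ} {φ2 : (Fin b → ℤ) →ₗ[ℤ] (Fin r → ℤ)} {Δ : ℕ}
    {y : Fin (a + b) → ℤ} : y ∈ bigLam (a := a) φ2 Δ ↔
      (∀ l : Fin a, (2 ^ Δ : ℤ) ∣ y (Fin.castAdd b l)) ∧
      Gam φ2 Δ (fun l => y (Fin.natAdd a l)) := Iff.rfl

theorem cfg {r B n : ℕ} (P : TG r B n) (hB : 2 ≤ B) (Δ : ℕ) :
    Cfg (2 ^ Δ) (Fin.append P.M1 P.M2) (bigPhi P.φ1 P.φ2) (bigLam (a := P.a) P.φ2 Δ) where
  hq := Nat.one_le_two_pow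
  hM := by
    intro l
    refine Fin.addCases (fun i => ?_) (fun i => ?_) l
    · rw [Fin.append_left]; exact P.pos i
    · rw [Fin.append_right]; exact Nat.one_le_pow _ _ (by omega)
  prop := by
    intro u hu h0
    rw [bigPhi_apply] at h0
    obtain ⟨h1, h2⟩ := P.proper _ _ (fun l => by
      have := hu (Fin.castAdd P.b l)
      rwa [Fin.append_left] at this) (fun l => by
      have := hu (Fin.natAdd P.a l)
      rw [Fin.append_right] at this
      have e : ((P.M2 l : ℕ) : ℤ) = (B : ℤ) ^ (P.k l) := by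
        unfold TG.M2; push_cast; rfl
      rwa [e] at this) h0
    ext l
    refine Fin.addCases (fun i => ?_) (fun i => ?_) l
    · exact congrFun h1 i
    · exact congrFun h2 i
  mul := by
    intro z
    refine mem_bigLam.mpr ⟨fun l => ?_, P.φ2 (fun l => z (Fin.natAdd P.a l)), ?_⟩
    · rw [Pi.smul_apply, smul_eq_mul]
      push_cast
      exact dvd_mul_right _ _
    · rw [← map_smul]
      congr 1
  div := by
    intro y hy i
    obtain ⟨h1, w, hw⟩ := mem_bigLam.mp hy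
    rw [bigPhi_apply, Pi.add_apply]
    push_cast
    refine dvd_add ?_ ?_
    · choose v hv using h1
      have e : (fun l => y (Fin.castAdd P.b l)) = (2 ^ Δ : ℤ) • v := by
        ext l; rw [Pi.smul_apply, smul_eq_mul]; exact hv l
      rw [e, map_smul, Pi.smul_apply, smul_eq_mul]
      exact dvd_mul_right _ _
    · rw [hw, Pi.smul_apply, smul_eq_mul]
      exact dvd_mul_right _ _

theorem res_card {r B n : ℕ} (P : TG r B n) (Δ : ℕ) :
    (Res (2 ^ Δ) (bigLam (a := P.a) P.φ2 Δ)).card = iota P.φ2 Δ := by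
  unfold iota
  refine Finset.card_bij' (fun y _ l => y (Fin.natAdd P.a l))
    (fun x _ => Fin.append (fun _ => 0) x) ?_ ?_ ?_ ?_
  · intro y hy
    obtain ⟨h1, h2⟩ := mem_Res.mp hy
    refine Finset.mem_filter.mpr ⟨mem_box'.mpr fun l => ?_, (mem_bigLam.mp h2).2⟩
    exact h1 (Fin.natAdd P.a l)
  · intro x hx
    obtain ⟨h1, h2⟩ := Finset.mem_filter.mp hx
    have h3 := mem_box'.mp h1
    refine mem_Res.mpr ⟨fun l => ?_, mem_bigLam.mpr ⟨fun l => ?_, ?_⟩⟩
    · refine Fin.addCases (fun i => ?_) (fun i => ?_) l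
      · rw [Fin.append_left]
        exact ⟨le_rfl, by positivity⟩
      · rw [Fin.append_right]
        exact h3 i
    · rw [Fin.append_left]; exact dvd_zero _
    · simp only [Fin.append_right]
      exact h2
  · intro y hy
    obtain ⟨h1, h2⟩ := mem_Res.mp hy
    ext l
    refine Fin.addCases (fun i => ?_) (fun i => ?_) l
    · rw [Fin.append_left]
      have h3 := (mem_bigLam.mp h2).1 i
      have h4 := h1 (Fin.castAdd P.b i)
      push_cast at h4
      exact (Int.eq_zero_of_dvd_of_nonneg_of_lt h4.1 h4.2 h3).symm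
    · rw [Fin.append_right]
  · intro x hx
    ext l
    simp only [Fin.append_right]

theorem vol_app {r B n : ℕ} (P : TG r B n) : vol (Fin.append P.M1 P.M2) = P.v := by
  unfold vol TG.v vol
  rw [Fin.prod_univ_add]
  simp only [Fin.append_left, Fin.append_right]

theorem count_le {r B n : ℕ} (P : TG r B n) (hB : 2 ≤ B) (Δ : ℕ) (c : Fin r → ℤ)
    (V : Finset (Fin r → ℤ)) :
    ∑ u ∈ box P.M1, (EE P.φ2 (c + P.φ1 u) P.M2 Δ V).card ≤
      ((LB (2 ^ Δ) (Fin.append P.M1 P.M2) (bigLam (a := P.a) P.φ2 Δ)).filter fun y =>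
        c + psi (2 ^ Δ) (bigPhi P.φ1 P.φ2) y ∈ V).card := by
  have hcfg := cfg P hB Δ
  rw [← Finset.card_sigma]
  have hval : ∀ (u : Fin P.a → ℤ) (x : Fin P.b → ℤ) (l : Fin P.a),
      (Fin.append ((2 ^ Δ : ℤ) • u) x : Fin (P.a + P.b) → ℤ) (Fin.castAdd P.b l) =
        (2 ^ Δ : ℤ) * u l := by
    intro u x l
    rw [Fin.append_left, Pi.smul_apply, smul_eq_mul]
  refine Finset.card_le_card_of_injOn
    (fun z => (Fin.append ((2 ^ Δ : ℤ) • z.1) z.2 : Fin (P.a + P.b) → ℤ)) (fun z hz => ?_) ?_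
  · obtain ⟨hz1, hz2⟩ := Finset.mem_sigma.mp hz
    unfold EE at hz2
    obtain ⟨hz3, y, hy, hyz⟩ := Finset.mem_filter.mp hz2
    have h1 := mem_box'.mp hz1
    have h2 := mem_box'.mp hz3
    have hG : P.φ2 z.2 = (2 ^ Δ : ℤ) • (y - (c + P.φ1 z.1)) := hyz
    have hmem : (Fin.append ((2 ^ Δ : ℤ) • z.1) z.2 : Fin (P.a + P.b) → ℤ) ∈
        bigLam (a := P.a) P.φ2 Δ := by
      refine mem_bigLam.mpr ⟨fun l => ?_, ?_⟩
      · rw [hval]; exact dvd_mul_right _ _
      · simp only [Fin.append_right]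
        exact ⟨_, hG⟩
    refine Finset.mem_filter.mpr ⟨mem_LB.mpr ⟨fun l => ?_, hmem⟩, ?_⟩
    · refine Fin.addCases (fun i => ?_) (fun i => ?_) l
      · simp only [hval, Fin.append_left]
        obtain ⟨e1, e2⟩ := h1 i
        have e3 : (0 : ℤ) < 2 ^ Δ := by positivity
        push_cast
        exact ⟨mul_nonneg e3.le e1, (mul_lt_mul_iff_right₀ e3).mpr e2⟩
      · simp only [Fin.append_right]
        have := h2 i
        push_cast at this ⊢
        exact this
    · have hpsi : psi (2 ^ Δ) (bigPhi P.φ1 P.φ2)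
          (Fin.append ((2 ^ Δ : ℤ) • z.1) z.2 : Fin (P.a + P.b) → ℤ) = y - c := by
        refine psi_eq hcfg hmem ?_
        rw [bigPhi_apply]
        have e1 : (fun l => (Fin.append ((2 ^ Δ : ℤ) • z.1) z.2 : Fin (P.a + P.b) → ℤ)
            (Fin.castAdd P.b l)) = (2 ^ Δ : ℤ) • z.1 := by
          ext l; rw [Fin.append_left]
        have e2 : (fun l => (Fin.append ((2 ^ Δ : ℤ) • z.1) z.2 : Fin (P.a + P.b) → ℤ)
            (Fin.natAdd P.a l)) = z.2 := by
          ext l; rw [Fin.append_right]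
        rw [e1, e2, map_smul, hG, ← smul_add]
        push_cast
        congr 1
        abel
      rw [hpsi]
      have : c + (y - c) = y := by abel
      rw [this]
      exact hy
  · intro z _ w _ hzw
    have h1 : z.1 = w.1 := by
      ext l
      have h2 := congrFun hzw (Fin.castAdd P.b l)
      simp only [hval] at h2
      have e3 : (2 ^ Δ : ℤ) ≠ 0 := by positivity
      exact mul_left_cancel₀ e3 h2
    have h2 : z.2 = w.2 := by
      ext l
      have h2 := congrFun hzw (Fin.natAdd P.a l)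
      simpa only [Fin.append_right] using h2
    obtain ⟨z1, z2⟩ := z
    obtain ⟨w1, w2⟩ := w
    simp only at h1 h2
    subst h1 h2
    rfl

theorem set_le {r B n : ℕ} (P : TG r B n) (hB : 2 ≤ B) (W : Finset (Fin r → ℤ))
    (x : Fin r → ℤ) :
    ((box (Fin.append P.M1 P.M2)).filter fun w => bigPhi P.φ1 P.φ2 w - x ∈ W).card ≤
      ((P.set 0).filter fun y => y - x ∈ W).card := by
  have hcfg := cfg P hB 0
  refine Finset.card_le_card_of_injOn (bigPhi P.φ1 P.φ2) (fun w hw => ?_) ?_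
  · obtain ⟨hw1, hw2⟩ := Finset.mem_filter.mp hw
    have h1 := mem_box'.mp hw1
    refine Finset.mem_filter.mpr ⟨?_, hw2⟩
    unfold TG.set
    refine Finset.mem_image.mpr ⟨(fun l => w (Fin.castAdd P.b l), fun l => w (Fin.natAdd P.a l)),
      Finset.mem_product.mpr ⟨mem_box'.mpr fun l => ?_, mem_box'.mpr fun l => ?_⟩, ?_⟩
    · have := h1 (Fin.castAdd P.b l)
      rwa [Fin.append_left] at this
    · have := h1 (Fin.natAdd P.a l)
      rwa [Fin.append_right] at this
    · rw [bigPhi_apply, zero_add]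
  · intro y hy z hz hyz
    have h1 := mem_box'.mp (Finset.mem_filter.mp hy).1
    have h2 := mem_box'.mp (Finset.mem_filter.mp hz).1
    have h3 : y - z = 0 := by
      refine hcfg.prop _ (fun l => ?_) (by rw [map_sub, hyz, sub_self])
      rw [Pi.sub_apply, abs_le]
      constructor <;> linarith [(h1 l).1, (h1 l).2, (h2 l).1, (h2 l).2]
    exact sub_eq_zero.mp h3

end CNV_

open CNV_ in
theorem cnv_proof (h1 : Stmt_CLC) : Stmt_CNV := by
  intro r B n Δ P c V A0 hB hab hA0 hT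
  have hcfg := cfg P hB Δ
  have hres := res_card P Δ
  have hvol := vol_app P
  obtain ⟨S, c', hS1, hS2, hS3, hS4, hS5⟩ := core h1 hcfg hab c V A0 hA0 (by
    rw [hres, hvol]
    refine hT.trans ?_
    have := count_le P hB Δ c V
    exact_mod_cast this)
  rw [hvol] at hS3 hS4 hS5
  rw [hres] at hS5
  refine ⟨S, c', hS1, hS2, hS3, ?_, ?_⟩
  · intro W Q hQ
    refine hS4 W Q fun x => le_trans ?_ (hQ x)
    exact_mod_cast set_le P hB W x
  · refine hS5.imp id fun h W Q hQ => ?_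
    refine h W Q fun x => le_trans ?_ (hQ x)
    exact_mod_cast set_le P hB W x

end Pool.Agent.EMS
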