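import Pool.Agent.EMS.StmtsD

set_option autoImplicit false

open Finset
open scoped BigOperators Classical

namespace Pool.Agent.EMS

namespace CRS_

lemma card_sy {r : ℕ} (T : SG r) (c : Fin r → ℤ) : ((T.sy c).card : ℝ) = T.sv := by
  have hinj : Set.InjOn (fun u => c + T.φ u) ((sbox T.M : Finset (Fin T.d → ℤ)) : Set _) := by
    intro u hu u' hu' h
    have h1 : T.φ (u - u') = 0 := by
      rw [map_sub, sub_eq_zero]
      exact add_left_cancel h
    have h2 : u - u' = 0 := by
      refine T.proper _ ?_ h1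
      intro l
      have h3 := mem_Icc.mp (Fintype.mem_piFinset.mp (mem_coe.mp hu) l)
      have h4 := mem_Icc.mp (Fintype.mem_piFinset.mp (mem_coe.mp hu') l)
      rw [Pi.sub_apply, abs_le]
      constructor <;> omega
    exact sub_eq_zero.mp h2
  unfold SG.sy
  rw [card_image_of_injOn hinj]
  unfold sbox SG.sv
  rw [Fintype.card_piFinset, Nat.cast_prod]
  refine prod_congr rfl ?_
  intro l _
  rw [Int.card_Icc]
  have h5 : (((T.M l : ℤ) + 1 - (-(T.M l : ℤ))).toNat) = 2 * T.M l + 1 := by omega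
  rw [h5]
  push_cast
  ring

lemma neg_mem_sy {r : ℕ} (T : SG r) {u : Fin r → ℤ} (h : u ∈ T.sy 0) : -u ∈ T.sy 0 := by
  obtain ⟨a, ha, rfl⟩ := mem_image.mp h
  refine mem_image.mpr ⟨-a, ?_, ?_⟩
  · refine Fintype.mem_piFinset.mpr ?_
    intro l
    have h3 := mem_Icc.mp (Fintype.mem_piFinset.mp ha l)
    rw [Pi.neg_apply, mem_Icc]
    constructor <;> omega
  · rw [map_neg, zero_add, zero_add]

end CRS_

open CRS_ in
theorem crs_proof : Stmt_CRS := by
  intro r Q T c P K hK hTQ hP y
  have hTc : ((T.sy 0).card : ℝ) = T.sv := card_sy T 0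
  set QT : Finset (Fin r → ℤ) := (Fintype.piFinset fun l =>
    Finset.Icc (-((Q.M l : ℤ) / 4)) ((Q.M l : ℤ) - 1 + (Q.M l : ℤ) / 4)).image
      (fun v => c + Q.φ v) with hQTdef
  have hQT : (QT.card : ℝ) ≤ 2 ^ Q.d * Q.v := by
    have h1 : QT.card ≤ ∏ l, (2 * Q.M l) := by
      refine le_trans card_image_le ?_
      rw [Fintype.card_piFinset]
      refine prod_le_prod' ?_
      intro l _
      rw [Int.card_Icc]
      have h2 := Q.pos l
      omega
    have h2 : (2 : ℝ) ^ Q.d * Q.v = ∏ l, (2 * (Q.M l : ℝ)) := by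
      unfold SG.v
      rw [prod_mul_distrib, prod_const, card_univ, Fintype.card_fin]
    rw [h2]
    calc (QT.card : ℝ) ≤ ((∏ l, (2 * Q.M l) : ℕ) : ℝ) := by exact_mod_cast h1
      _ = ∏ l, (2 * (Q.M l : ℝ)) := by
        rw [Nat.cast_prod]
        refine prod_congr rfl ?_
        intro l _
        push_cast
        ring
  set S := ((Q.bx c) ×ˢ P).filter fun z => z.1 + z.2 = y with hS
  have hcard : S.card * (T.sy 0).card ≤
      ∑ z ∈ QT, (P.filter fun w => w - (y - z) ∈ T.sy 0).card := by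
    rw [← card_product, ← card_sigma]
    refine card_le_card_of_injOn
      (fun a => (⟨a.1.1 - a.2, a.1.2⟩ : (_ : Fin r → ℤ) × (Fin r → ℤ))) ?_ ?_
    · intro a ha
      obtain ⟨⟨q, w⟩, u⟩ := a
      have h1 := mem_product.mp (mem_coe.mp ha)
      have h2 := mem_filter.mp h1.1
      have h3 := mem_product.mp h2.1
      have hq : q ∈ Q.bx c := h3.1
      have hw : w ∈ P := h3.2
      have hqw : q + w = y := h2.2
      have hu : u ∈ T.sy 0 := h1.2
      rw [mem_coe, mem_sigma]
      refine ⟨?_, ?_⟩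
      · show q - u ∈ QT
        obtain ⟨v, hv, hvq⟩ := mem_image.mp hq
        obtain ⟨a, ha', hau⟩ := mem_image.mp (hTQ hu)
        have ha1 := (mem_filter.mp ha').2
        refine mem_image.mpr ⟨v - a, ?_, ?_⟩
        · refine Fintype.mem_piFinset.mpr ?_
          intro l
          have h4 := mem_Ico.mp (Fintype.mem_piFinset.mp hv l)
          have h5 := ha1 l
          have h6 := abs_le.mp (le_refl |a l|)
          rw [Pi.sub_apply, mem_Icc]
          push_cast at h5
          constructor <;> omega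
        · rw [map_sub, ← hvq, ← hau]
          abel
      · show w ∈ P.filter fun w => w - (y - (q - u)) ∈ T.sy 0
        refine mem_filter.mpr ⟨hw, ?_⟩
        have h4 : w - (y - (q - u)) = -u := by
          rw [← hqw]
          abel
        rw [h4]
        exact neg_mem_sy T hu
    · intro a ha b hb hab
      obtain ⟨⟨q, w⟩, u⟩ := a
      obtain ⟨⟨q', w'⟩, u'⟩ := b
      have h1 := (mem_filter.mp (mem_product.mp (mem_coe.mp ha)).1).2
      have h2 := (mem_filter.mp (mem_product.mp (mem_coe.mp hb)).1).2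
      have h3 : q + w = y := h1
      have h4 : q' + w' = y := h2
      have h5 : q - u = q' - u' := congrArg Sigma.fst hab
      have h6 : w = w' := by
        have h7 := (Sigma.mk.inj_iff.mp hab).2
        exact eq_of_heq h7
      have h8 : q = q' := by
        rw [← h4, h6] at h3
        exact add_right_cancel h3
      have h9 : u = u' := by
        rw [h8] at h5
        exact sub_right_injective h5
      rw [h6, h8, h9]
  have hsum : ((∑ z ∈ QT, (P.filter fun w => w - (y - z) ∈ T.sy 0).card : ℕ) : ℝ) ≤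
      (QT.card : ℝ) * K := by
    rw [Nat.cast_sum]
    calc ∑ z ∈ QT, ((P.filter fun w => w - (y - z) ∈ T.sy 0).card : ℝ) ≤ ∑ _z ∈ QT, K :=
          sum_le_sum (fun z _ => hP (y - z))
      _ = _ := by rw [sum_const, nsmul_eq_mul]
  calc (S.card : ℝ) * T.sv = ((S.card * (T.sy 0).card : ℕ) : ℝ) := by
        rw [Nat.cast_mul, hTc]
    _ ≤ ((∑ z ∈ QT, (P.filter fun w => w - (y - z) ∈ T.sy 0).card : ℕ) : ℝ) := by
        exact_mod_cast hcard
    _ ≤ (QT.card : ℝ) * K := hsum
    _ ≤ 2 ^ Q.d * Q.v * K := mul_le_mul_of_nonneg_right hQT hK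

end Pool.Agent.EMS
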