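import Pool.Agent.EMS.StmtsC
import Pool.Agent.EMS7.CS

/-!
# EMS module CSI: Croot-Sisask almost periodicity
(derived from the almost periodicity theorem of helper7, `EMS7.almost_periods`)
-/

set_option autoImplicit false

open Finset
open scoped BigOperators Classical Pointwise

namespace Pool.Agent.EMS

namespace CSI_

theorem tele {G : Type} [AddCommGroup G] [Fintype G] (f : G → ℝ) (e m : ℝ) (l : ℕ) :
    ∀ s : Fin l → G, (∀ i, ((Finset.univ.filter fun x : G => e < |f (x + s i) - f x|).card : ℝ) ≤ m) →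
      ((Finset.univ.filter fun x : G => (l : ℝ) * e < |f (x + ∑ i, s i) - f x|).card : ℝ) ≤ l * m := by
  induction l with
  | zero =>
    intro s _
    simp
  | succ l ih =>
    intro s hs
    have h1 := ih (fun i => s i.castSucc) (fun i => hs i.castSucc)
    have h2 := hs (Fin.last l)
    have hsub : (Finset.univ.filter fun x : G => ((l + 1 : ℕ) : ℝ) * e < |f (x + ∑ i, s i) - f x|)
        ⊆ (Finset.univ.filter fun x : G => (l : ℝ) * e < |f (x + ∑ i : Fin l, s i.castSucc) - f x|) ∪
          ((Finset.univ.filter fun x : G => e < |f (x + s (Fin.last l)) - f x|).image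
            fun x => x - ∑ i : Fin l, s i.castSucc) := by
      intro x hx
      rw [Finset.mem_filter] at hx
      by_cases h : (l : ℝ) * e < |f (x + ∑ i : Fin l, s i.castSucc) - f x|
      · exact Finset.mem_union_left _ (Finset.mem_filter.mpr ⟨Finset.mem_univ _, h⟩)
      · refine Finset.mem_union_right _ (Finset.mem_image.mpr
          ⟨x + ∑ i : Fin l, s i.castSucc, Finset.mem_filter.mpr ⟨Finset.mem_univ _, ?_⟩, by abel⟩)
        have h3 := hx.2
        rw [Fin.sum_univ_castSucc, ← add_assoc] at h3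
        push_cast at h3
        rw [not_lt] at h
        have h4 := abs_sub_le (f (x + ∑ i : Fin l, s i.castSucc + s (Fin.last l)))
          (f (x + ∑ i : Fin l, s i.castSucc)) (f x)
        linarith
    have h3 := Finset.card_le_card hsub
    have h4 := h3.trans (Finset.card_union_le _ _)
    have h5 : ((Finset.univ.filter fun x : G => e < |f (x + s (Fin.last l)) - f x|).image
            fun x => x - ∑ i : Fin l, s i.castSucc).card ≤
        (Finset.univ.filter fun x : G => e < |f (x + s (Fin.last l)) - f x|).card :=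
      Finset.card_image_le
    have h6 : ((Finset.univ.filter fun x : G =>
        ((l + 1 : ℕ) : ℝ) * e < |f (x + ∑ i, s i) - f x|).card : ℝ) ≤
        ((Finset.univ.filter fun x : G => (l : ℝ) * e <
          |f (x + ∑ i : Fin l, s i.castSucc) - f x|).card : ℝ) +
        ((Finset.univ.filter fun x : G => e < |f (x + s (Fin.last l)) - f x|).card : ℝ) := by
      exact_mod_cast h4.trans (Nat.add_le_add_left h5 _)
    push_cast at h6 ⊢
    linarith

end CSI_

theorem csi_proof : Stmt_CSI := by
  intro G _ _ B l k hB hl hk hlk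
  have hN : (0 : ℝ) < Fintype.card G := by
    have : 0 < Fintype.card G := Fintype.card_pos_iff.2 ⟨hB.choose⟩
    exact_mod_cast this
  have hBc : (0 : ℝ) < B.card := by exact_mod_cast hB.card_pos
  have hBN : (B.card : ℝ) ≤ Fintype.card G := by exact_mod_cast Finset.card_le_univ B
  have hl1 : (1 : ℝ) ≤ l := by exact_mod_cast hl
  have hk1 : (1 : ℝ) ≤ k := by exact_mod_cast hk
  have hcorr : ∀ x, corr B x = EMS7.ff B (B + B) x := by
    intro x
    rfl
  have harg : 1 ≤ 64 * (l : ℝ) * (Fintype.card G : ℝ) / (B.card : ℝ) := by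
    rw [le_div_iff₀ hBc]
    nlinarith
  have hlog : 0 ≤ Real.log (64 * (l : ℝ) * (Fintype.card G : ℝ) / (B.card : ℝ)) := Real.log_nonneg harg
  have hδ : 4 * Real.exp (-(2 * k * (1 / (16 * (l : ℝ))) ^ 2)) ≤
      (B.card : ℝ) / (16 * l * (Fintype.card G : ℝ)) := by
    have h1 : Real.log (64 * (l : ℝ) * (Fintype.card G : ℝ) / (B.card : ℝ)) ≤
        2 * k * (1 / (16 * (l : ℝ))) ^ 2 := by
      have h2 : 128 * (l : ℝ) ^ 2 * Real.log (64 * (l : ℝ) * (Fintype.card G : ℝ) / (B.card : ℝ)) ≤ k := by
        refine le_trans ?_ hlk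
        gcongr
        norm_num
      rw [one_div, inv_pow, mul_pow, ← div_eq_mul_inv, le_div_iff₀ (by positivity)]
      nlinarith
    have h3 : Real.exp (-(2 * k * (1 / (16 * (l : ℝ))) ^ 2)) ≤
        Real.exp (-Real.log (64 * (l : ℝ) * (Fintype.card G : ℝ) / (B.card : ℝ))) :=
      Real.exp_le_exp.mpr (by linarith)
    rw [Real.exp_neg (Real.log _), Real.exp_log (by linarith)] at h3
    calc 4 * Real.exp (-(2 * k * (1 / (16 * (l : ℝ))) ^ 2)) ≤
        4 * (64 * (l : ℝ) * (Fintype.card G : ℝ) / (B.card : ℝ))⁻¹ := by gcongr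
      _ = (B.card : ℝ) / (16 * l * (Fintype.card G : ℝ)) := by
        rw [inv_div]
        field_simp
        norm_num
  obtain ⟨T, hT1, hT2⟩ := EMS7.almost_periods B (B + B) hB k (1 / (16 * (l : ℝ)))
    ((B.card : ℝ) / (16 * l * (Fintype.card G : ℝ))) (by positivity) hk hδ
  have hTc : ((B.card : ℝ) / (Fintype.card G : ℝ)) ^ k * (Fintype.card G : ℝ) / 2 ≤ (T.card : ℝ) := by
    rw [le_div_iff₀ hN] at hT1
    rw [div_pow, div_mul_eq_mul_div, div_div, div_le_iff₀ (by positivity)]
    linarith
  refine ⟨T, ?_, hTc, ?_⟩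
  · rw [← Finset.card_pos]
    have : (0 : ℝ) < T.card := lt_of_lt_of_le (by positivity) hTc
    exact_mod_cast this
  · intro t t' ht ht'
    have h1 := CSI_.tele (corr B) (2 * (1 / (16 * (l : ℝ))))
      (2 * ((B.card : ℝ) / (16 * l * (Fintype.card G : ℝ))) * (Fintype.card G : ℝ)) l
      (fun i => t i - t' i) (by
        intro i
        exact hT2 (t i) (ht i) (t' i) (ht' i))
    have h2 : (l : ℝ) * (2 * (1 / (16 * (l : ℝ)))) = 1 / 8 := by field_simp; norm_num
    have h3 : (l : ℝ) * (2 * ((B.card : ℝ) / (16 * l * (Fintype.card G : ℝ))) * (Fintype.card G : ℝ))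
        = (B.card : ℝ) / 8 := by field_simp; norm_num
    rw [h2, h3] at h1
    exact h1

end Pool.Agent.EMS
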