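import Pool.Agent.EMS.StmtsC

/-!
DPL: the dense piece lemma (from BR, BSG, NOR, ITR, CEL, ENG, QOB, ROO, HYP).
Paper proof: /team-store/MP_973cda_proof_helper64.md, Section 7.
-/

set_option autoImplicit false

open Finset
open scoped BigOperators Classical Pointwise

namespace Pool.Agent.EMS

namespace DPL_

/-! ### cardinalities -/

lemma card_box {d : ℕ} (N : Fin d → ℕ) : ((box N).card : ℝ) = vol N := by
  unfold box vol
  rw [Fintype.card_piFinset]
  push_cast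
  refine Finset.prod_congr rfl (fun l _ => ?_)
  rw [Int.card_Ico]
  simp

lemma vol_pos {r : ℕ} (N : Fin r → ℕ) (hN : ∀ l, 1 ≤ N l) : 0 < vol N := by
  unfold vol
  refine Finset.prod_pos fun l _ => ?_
  have := hN l
  exact_mod_cast this

lemma sv_pos {r : ℕ} (T : SG r) : 0 < T.sv := by
  unfold SG.sv
  exact Finset.prod_pos fun l _ => by positivity

lemma v_pos {r : ℕ} (S : SG r) : 0 < S.v := by
  unfold SG.v
  refine Finset.prod_pos fun l _ => ?_
  have := S.pos l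
  exact_mod_cast this

variable {r B n : ℕ}

lemma P_pos (P : TG r B n) (hB : 2 ≤ B) : 0 < P.v := by
  unfold TG.v
  refine mul_pos (vol_pos _ P.pos) (vol_pos _ fun l => ?_)
  unfold TG.M2
  exact Nat.one_le_pow _ _ (by omega)

lemma set_card (P : TG r B n) (c : Fin r → ℤ) : ((P.set c).card : ℝ) = P.v := by
  unfold TG.set
  rw [Finset.card_image_of_injOn, Finset.card_product]
  · push_cast
    rw [card_box, card_box]
    rfl
  · intro a ha b hb hab
    rw [Finset.mem_coe, Finset.mem_product] at ha hb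
    have hM1 : ∀ l, |(a.1 - b.1) l| ≤ 8 * (P.M1 l : ℤ) := by
      intro l
      have e1 := ha.1
      have e2 := hb.1
      unfold box at e1 e2
      rw [Fintype.mem_piFinset] at e1 e2
      have f1 := Finset.mem_Ico.1 (e1 l)
      have f2 := Finset.mem_Ico.1 (e2 l)
      rw [Pi.sub_apply, abs_le]
      constructor <;> omega
    have hM2 : ∀ l, |(a.2 - b.2) l| ≤ 8 * (B : ℤ) ^ (P.k l) := by
      intro l
      have e1 := ha.2
      have e2 := hb.2
      unfold box at e1 e2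
      rw [Fintype.mem_piFinset] at e1 e2
      have f1 := Finset.mem_Ico.1 (e1 l)
      have f2 := Finset.mem_Ico.1 (e2 l)
      have g : ((P.M2 l : ℕ) : ℤ) = (B : ℤ) ^ (P.k l) := by
        unfold TG.M2
        push_cast
        rfl
      rw [g] at f1 f2
      rw [Pi.sub_apply, abs_le]
      constructor <;> omega
    have h0 : P.φ1 (a.1 - b.1) + P.φ2 (a.2 - b.2) = 0 := by
      rw [map_sub, map_sub]
      have h := hab
      simp only at h
      have h' : (P.φ1 a.1 + P.φ2 a.2) = (P.φ1 b.1 + P.φ2 b.2) := by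
        have h2 : c + (P.φ1 a.1 + P.φ2 a.2) = c + (P.φ1 b.1 + P.φ2 b.2) := by
          rw [← add_assoc, ← add_assoc]
          exact h
        exact add_left_cancel h2
      have h3 : P.φ1 a.1 - P.φ1 b.1 + (P.φ2 a.2 - P.φ2 b.2) =
          (P.φ1 a.1 + P.φ2 a.2) - (P.φ1 b.1 + P.φ2 b.2) := by abel
      rw [h3, h', sub_self]
    obtain ⟨k1, k2⟩ := P.proper _ _ hM1 hM2 h0
    exact Prod.ext (sub_eq_zero.1 k1) (sub_eq_zero.1 k2)

/-- tripled box -/
noncomputable def box3 {d : ℕ} (N : Fin d → ℕ) : Finset (Fin d → ℤ) :=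
  Fintype.piFinset fun l => Finset.Ico (-(N l : ℤ)) (2 * (N l : ℤ))

lemma card_box3 {d : ℕ} (N : Fin d → ℕ) : ((box3 N).card : ℝ) = 3 ^ d * vol N := by
  unfold box3 vol
  rw [Fintype.card_piFinset]
  push_cast
  have : ∀ l : Fin d, (((Finset.Ico (-(N l : ℤ)) (2 * (N l : ℤ))).card : ℕ) : ℝ) = 3 * (N l : ℝ) := by
    intro l
    rw [Int.card_Ico]
    have e : (2 * (N l : ℤ) - -(N l : ℤ)).toNat = 3 * N l := by omega
    rw [e]
    push_cast
    ring
  rw [Finset.prod_congr rfl (fun l _ => this l), Finset.prod_mul_distrib, Finset.prod_const,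
    Finset.card_univ, Fintype.card_fin]

lemma box3_mem {d : ℕ} {N : Fin d → ℕ} {a b c : Fin d → ℤ} (ha : a ∈ box N) (hb : b ∈ box N)
    (hc : c ∈ box N) : a + b - c ∈ box3 N := by
  unfold box at ha hb hc
  unfold box3
  rw [Fintype.mem_piFinset] at *
  intro l
  have h1 := Finset.mem_Ico.1 (ha l)
  have h2 := Finset.mem_Ico.1 (hb l)
  have h3 := Finset.mem_Ico.1 (hc l)
  rw [Finset.mem_Ico, Pi.sub_apply, Pi.add_apply]
  constructor <;> omega

lemma card_PPP (P : TG r B n) (c : Fin r → ℤ) :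
    ((P.set c + P.set c - P.set c).card : ℝ) ≤ 3 ^ (P.a + P.b) * P.v := by
  have hsub : P.set c + P.set c - P.set c ⊆
      (box3 P.M1 ×ˢ box3 P.M2).image fun z => c + P.φ1 z.1 + P.φ2 z.2 := by
    intro x hx
    rw [Finset.mem_sub] at hx
    obtain ⟨y, hy, w, hw, rfl⟩ := hx
    rw [Finset.mem_add] at hy
    obtain ⟨y1, hy1, y2, hy2, rfl⟩ := hy
    unfold TG.set at hy1 hy2 hw
    rw [Finset.mem_image] at hy1 hy2 hw
    obtain ⟨a, ha, rfl⟩ := hy1
    obtain ⟨b, hb, rfl⟩ := hy2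
    obtain ⟨e, he, rfl⟩ := hw
    rw [Finset.mem_product] at ha hb he
    rw [Finset.mem_image]
    refine ⟨(a.1 + b.1 - e.1, a.2 + b.2 - e.2), ?_, ?_⟩
    · rw [Finset.mem_product]
      exact ⟨box3_mem ha.1 hb.1 he.1, box3_mem ha.2 hb.2 he.2⟩
    · simp only [map_sub, map_add]
      abel
  have h1 : (P.set c + P.set c - P.set c).card ≤ (box3 P.M1).card * (box3 P.M2).card := by
    refine (Finset.card_le_card hsub).trans (Finset.card_image_le.trans ?_)
    rw [Finset.card_product]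
  have h2 : ((P.set c + P.set c - P.set c).card : ℝ) ≤
      ((box3 P.M1).card : ℝ) * ((box3 P.M2).card : ℝ) := by exact_mod_cast h1
  refine h2.trans (le_of_eq ?_)
  rw [card_box3, card_box3, pow_add]
  unfold TG.v
  ring

lemma card_sbox {d : ℕ} (M : Fin d → ℕ) : ((sbox M).card : ℝ) = ∏ l, (2 * (M l : ℝ) + 1) := by
  unfold sbox
  rw [Fintype.card_piFinset]
  push_cast
  refine Finset.prod_congr rfl fun l _ => ?_
  rw [Int.card_Icc]
  have e : ((M l : ℤ) + 1 - -(M l : ℤ)).toNat = 2 * M l + 1 := by omega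
  rw [e]
  push_cast
  ring

lemma card_q2 (T : SG r) (x : Fin r → ℤ) : ((T.q 2 x).card : ℝ) ≤ T.sv := by
  unfold SG.q SG.sv
  rw [← card_sbox]
  have h : ((sbox fun l => 2 * T.M l).filter fun u => ∀ l, 4 * |u l| ≤ (2 : ℕ) * (T.M l : ℤ)) ⊆
      sbox T.M := by
    intro u hu
    rw [Finset.mem_filter] at hu
    unfold sbox
    rw [Fintype.mem_piFinset]
    intro l
    have h1 := hu.2 l
    rw [Finset.mem_Icc]
    have h2 : |u l| ≤ (T.M l : ℤ) := by
      have : 0 ≤ |u l| := abs_nonneg _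
      push_cast at h1
      omega
    exact abs_le.1 h2
  exact_mod_cast Finset.card_image_le.trans (Finset.card_le_card h)

/-! ### numbers -/

lemma pow_exp {a k : ℝ} (ha : 0 ≤ a) (h : a ≤ Real.exp k) (d : ℕ) : a ^ d ≤ Real.exp (k * d) := by
  calc a ^ d ≤ (Real.exp k) ^ d := by gcongr
    _ = Real.exp (k * d) := by rw [← Real.exp_nat_mul, mul_comm]

lemma e1 : (2.71 : ℝ) ≤ Real.exp 1 := by
  have := Real.exp_one_gt_d9
  linarith

lemma exp_nat (k : ℕ) : (2.71 : ℝ) ^ k ≤ Real.exp k := by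
  have : Real.exp (k : ℝ) = (Real.exp 1) ^ k := by
    rw [← Real.exp_nat_mul, mul_one]
  rw [this]
  gcongr
  exact e1

lemma mulpw {z : ℝ} (hz : 100000 ≤ z) (a : ℕ) : 100000 * z ^ a ≤ z ^ (a + 1) := by
  rw [pow_succ']
  gcongr

lemma pw {z : ℝ} (hz : 100000 ≤ z) {a b : ℕ} (h : a ≤ b) : z ^ a ≤ z ^ b :=
  pow_le_pow_right₀ (by linarith) h

lemma seven_le (d : ℕ) : (7 : ℝ) ^ d ≤ Real.exp (2 * d) := by
  refine pow_exp (by norm_num) ?_ d
  have h := exp_nat 2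
  push_cast at h
  refine le_trans ?_ h
  norm_num

lemma three_le (d : ℕ) : (3 : ℝ) ^ d ≤ Real.exp (2 * d) := by
  refine pow_exp (by norm_num) ?_ d
  have h := exp_nat 2
  push_cast at h
  refine le_trans ?_ h
  norm_num

lemma two_le (d : ℕ) : (2 : ℝ) ^ d ≤ Real.exp d := by
  have h := pow_exp (a := 2) (k := 1) (by norm_num) ?_ d
  · rwa [one_mul] at h
  · have h := exp_nat 1
    push_cast at h
    refine le_trans ?_ h
    norm_num

lemma tw_le (d : ℕ) : (144 : ℝ) ^ d ≤ Real.exp (5 * d) := by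
  refine pow_exp (by norm_num) ?_ d
  have h := exp_nat 5
  push_cast at h
  refine le_trans ?_ h
  norm_num

lemma tf_le (d : ℕ) : (24 : ℝ) ^ d ≤ Real.exp (4 * d) := by
  refine pow_exp (by norm_num) ?_ d
  have h := exp_nat 4
  push_cast at h
  refine le_trans ?_ h
  norm_num

/-- the value of `Φ0` against `m` -/
lemma phi_m {F m V0 sv x z : ℝ} {d r : ℕ} (hV : 0 < V0) (hsv : 0 < sv) (hd : (d : ℝ) ≤ z)
    (hr : (r : ℝ) ≤ z) (hF : F = Real.exp (-(x / 2)) * V0 / (Real.sqrt sv * 12 ^ d))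
    (hm : m * sv ≤ 7 ^ d * 3 ^ r * V0) : m * (Real.exp (-x - 9 * z) * V0) ≤ F ^ 2 := by
  have hF2 : F ^ 2 = Real.exp (-x) * V0 ^ 2 / (sv * 144 ^ d) := by
    rw [hF, div_pow, mul_pow, mul_pow, Real.sq_sqrt hsv.le, ← Real.exp_nat_mul, ← pow_mul,
      mul_comm d 2, pow_mul]
    congr 1
    · congr 2
      push_cast
      ring
    · norm_num
  rw [hF2, le_div_iff₀ (by positivity)]
  have h1 : (7 : ℝ) ^ d * 3 ^ r * 144 ^ d * Real.exp (-9 * z) ≤ 1 := by
    calc (7 : ℝ) ^ d * 3 ^ r * 144 ^ d * Real.exp (-9 * z)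
        ≤ Real.exp (2 * d) * Real.exp (2 * r) * Real.exp (5 * d) * Real.exp (-9 * z) := by
          have := seven_le d
          have := three_le r
          have := tw_le d
          gcongr
      _ = Real.exp (2 * d + 2 * r + 5 * d + -9 * z) := by
          rw [← Real.exp_add, ← Real.exp_add, ← Real.exp_add]
      _ ≤ 1 := by
          rw [← Real.exp_zero]
          apply Real.exp_le_exp.2
          linarith
  have h2 : Real.exp (-x - 9 * z) = Real.exp (-x) * Real.exp (-9 * z) := by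
    rw [← Real.exp_add]
    congr 1
    ring
  rw [h2]
  calc m * (Real.exp (-x) * Real.exp (-9 * z) * V0) * (sv * 144 ^ d)
      = (m * sv) * (Real.exp (-x) * Real.exp (-9 * z) * V0 * 144 ^ d) := by ring
    _ ≤ (7 ^ d * 3 ^ r * V0) * (Real.exp (-x) * Real.exp (-9 * z) * V0 * 144 ^ d) := by
        gcongr
    _ = (7 ^ d * 3 ^ r * 144 ^ d * Real.exp (-9 * z)) * (Real.exp (-x) * V0 ^ 2) := by ring
    _ ≤ 1 * (Real.exp (-x) * V0 ^ 2) := by gcongr
    _ = Real.exp (-x) * V0 ^ 2 := one_mul _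

/-- lower bound for `|A|` -/
lemma A_low {F m V0 x z I s : ℝ} (hm : 0 < m) (hs : 1 ≤ s) (hI : 0 ≤ I) (hIm : I ≤ m)
    (hF0 : 0 ≤ F) (h1 : m * (Real.exp (-x - 9 * z) * V0) ≤ F ^ 2)
    (h2 : F ≤ Real.exp (2 * z) * I * Real.sqrt s) :
    Real.exp (-x - 13 * z) * V0 ≤ I * s := by
  have h3 : F ^ 2 ≤ Real.exp (4 * z) * (I * (I * s)) := by
    calc F ^ 2 ≤ (Real.exp (2 * z) * I * Real.sqrt s) ^ 2 := by gcongr
      _ = (Real.exp (2 * z)) ^ 2 * I ^ 2 * (Real.sqrt s) ^ 2 := by ring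
      _ = Real.exp (4 * z) * (I * (I * s)) := by
          rw [Real.sq_sqrt (by linarith), ← Real.exp_nat_mul]
          have e : ((2 : ℕ) : ℝ) * (2 * z) = 4 * z := by push_cast; ring
          rw [e]
          ring
  have h4 : Real.exp (4 * z) * (I * (I * s)) ≤ Real.exp (4 * z) * (m * (I * s)) := by
    have : 0 ≤ I * s := by positivity
    gcongr
  have h5 : m * (Real.exp (-x - 9 * z) * V0) ≤ m * (Real.exp (4 * z) * (I * s)) := by
    calc m * (Real.exp (-x - 9 * z) * V0) ≤ Real.exp (4 * z) * (m * (I * s)) := h1.trans (h3.trans h4)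
      _ = m * (Real.exp (4 * z) * (I * s)) := by ring
  have h6 : Real.exp (-x - 9 * z) * V0 ≤ Real.exp (4 * z) * (I * s) := le_of_mul_le_mul_left h5 hm
  have h7 : Real.exp (-x - 9 * z) = Real.exp (4 * z) * Real.exp (-x - 13 * z) := by
    rw [← Real.exp_add]
    congr 1
    ring
  rw [h7, mul_assoc] at h6
  exact le_of_mul_le_mul_left h6 (Real.exp_pos _)

/-- upper bound for `1/|I|` -/
lemma I_low {F V0 x z I s sv : ℝ} {d : ℕ} (hsv : 0 < sv) (hd : (d : ℝ) ≤ z)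
    (hI : 0 ≤ I) (hss : s ≤ sv)
    (hF : F = Real.exp (-(x / 2)) * V0 / (Real.sqrt sv * 12 ^ d))
    (h2 : F ≤ Real.exp (2 * z) * I * Real.sqrt s) :
    V0 ≤ Real.exp (x / 2 + 5 * z) * I * sv := by
  have h12 : (12 : ℝ) ^ d ≤ Real.exp (3 * z) := by
    have h := pow_exp (a := 12) (k := 3) (by norm_num) ?_ d
    · refine h.trans (Real.exp_le_exp.2 ?_)
      linarith
    · have h := exp_nat 3
      push_cast at h
      refine le_trans ?_ h
      norm_num
  have hsq : 0 < Real.sqrt sv := Real.sqrt_pos.2 hsv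
  rw [hF, div_le_iff₀ (by positivity)] at h2
  have h3 : Real.sqrt s ≤ Real.sqrt sv := Real.sqrt_le_sqrt hss
  have h4 : Real.exp (-(x / 2)) * V0 ≤ Real.exp (5 * z) * I * sv := by
    calc Real.exp (-(x / 2)) * V0
        ≤ Real.exp (2 * z) * I * Real.sqrt s * (Real.sqrt sv * 12 ^ d) := h2
      _ ≤ Real.exp (2 * z) * I * Real.sqrt sv * (Real.sqrt sv * Real.exp (3 * z)) := by gcongr
      _ = (Real.exp (2 * z) * Real.exp (3 * z)) * I * (Real.sqrt sv * Real.sqrt sv) := by ring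
      _ = Real.exp (5 * z) * I * sv := by
          rw [Real.mul_self_sqrt hsv.le, ← Real.exp_add]
          congr 3
          ring
  calc V0 = Real.exp (x / 2) * (Real.exp (-(x / 2)) * V0) := by
        rw [← mul_assoc, ← Real.exp_add]
        simp
    _ ≤ Real.exp (x / 2) * (Real.exp (5 * z) * I * sv) := by gcongr
    _ = Real.exp (x / 2 + 5 * z) * I * sv := by
        rw [Real.exp_add]
        ring

/-- numerical inequalities -/
lemma n36 {z : ℝ} (hz : 100000 ≤ z) : 19 * z ≤ z ^ 36 := by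
  have h := pw hz (show 2 ≤ 36 by norm_num)
  nlinarith

lemma nlog {z : ℝ} (hz : 100000 ≤ z) : Real.log (z ^ 16) ≤ 16 * z := by
  rw [Real.log_pow]
  push_cast
  have := Real.log_le_sub_one_of_pos (show 0 < z by linarith)
  linarith

lemma nB {z : ℝ} (hz : 100000 ≤ z) (k : ℕ) {e : ℝ} (he : (k : ℝ) ≤ e) :
    (z ^ 16) ^ k ≤ Real.exp (16 * z * e) := by
  have h1 : z ^ 16 ≤ Real.exp (16 * z) := by
    have := Real.log_le_log (show 0 < z ^ 16 by positivity) (le_refl _)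
    rw [← Real.exp_log (show 0 < z ^ 16 by positivity)]
    exact Real.exp_le_exp.2 (nlog hz)
  refine (pow_exp (by positivity) h1 k).trans (Real.exp_le_exp.2 ?_)
  have : 0 ≤ 16 * z := by linarith
  gcongr

/-- BSG with the instances of `ℤ^r` -/
lemma sub_inst {G : Type} [Sub G] (i1 i2 : DecidableEq G) (A : Finset G) :
    (@HSub.hSub (Finset G) (Finset G) (Finset G) (@instHSub _ (@Finset.sub G i1 _)) A A) =
    (@HSub.hSub (Finset G) (Finset G) (Finset G) (@instHSub _ (@Finset.sub G i2 _)) A A) := by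
  have : i1 = i2 := Subsingleton.elim _ _
  subst this
  rfl

lemma bsg (h : Stmt_BSG) (z : ℝ) (hz : 100000 ≤ z) (A V : Finset (Fin r → ℤ)) (hA : A.Nonempty)
    (hV : (V.card : ℝ) ≤ Real.exp (25 * z) * (A.card : ℝ))
    (hp : Real.exp (-(4 * z)) * (A.card : ℝ) ^ 2 ≤
        (((A ×ˢ A).filter fun z => ∃ y ∈ V, y + y = z.1 + z.2).card : ℝ)) :
    ∃ A' ⊆ A, A'.Nonempty ∧ Real.exp (-(4 * z) - 2) * (A.card : ℝ) ≤ (A'.card : ℝ) ∧
      ((A' - A').card : ℝ) ≤ Real.exp (250 * z) * (A'.card : ℝ) := by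
  obtain ⟨A', hs, hn, hc, hd⟩ := h (Fin r → ℤ) A (V.image fun y => y + y) (Real.exp (-(4 * z)))
    (Real.exp (25 * z)) hA (Real.exp_pos _) (by
      rw [← Real.exp_zero]
      exact Real.exp_le_exp.2 (by linarith)) (Real.exp_pos _)
    (le_trans (by exact_mod_cast Finset.card_image_le) hV) (hp.trans (by
      refine Nat.cast_le.2 (Finset.card_le_card ?_)
      intro w hw
      simp only [Finset.mem_filter, Finset.mem_image] at hw ⊢
      exact hw))
  refine ⟨A', hs, hn, ?_, ?_⟩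
  · refine le_trans ?_ hc
    have h6 : Real.exp (-2) ≤ 1 / 6 := by
      rw [Real.exp_neg, ← one_div]
      have h := exp_nat 2
      push_cast at h
      refine one_div_le_one_div_of_le (by norm_num) (le_trans ?_ h)
      norm_num
    calc Real.exp (-(4 * z) - 2) * (A.card : ℝ)
        = Real.exp (-(4 * z)) * Real.exp (-2) * (A.card : ℝ) := by
          rw [← Real.exp_add]
          congr 1
      _ ≤ Real.exp (-(4 * z)) * (1 / 6) * (A.card : ℝ) := by gcongr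
      _ = Real.exp (-(4 * z)) / 6 * (A.card : ℝ) := by ring
  · have h2 : (2 : ℝ) ^ 30 * ((Real.exp (-(4 * z)))⁻¹) ^ 12 * (Real.exp (25 * z)) ^ 6 ≤
        Real.exp (250 * z) := by
      have h30 := two_le 30
      push_cast at h30
      calc (2 : ℝ) ^ 30 * ((Real.exp (-(4 * z)))⁻¹) ^ 12 * (Real.exp (25 * z)) ^ 6
          ≤ Real.exp 30 * ((Real.exp (-(4 * z)))⁻¹) ^ 12 * (Real.exp (25 * z)) ^ 6 := by gcongr
        _ = Real.exp (30 + 12 * (4 * z) + 6 * (25 * z)) := by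
            rw [← Real.exp_neg, neg_neg, ← Real.exp_nat_mul, ← Real.exp_nat_mul, ← Real.exp_add,
              ← Real.exp_add]
            push_cast
            rfl
        _ ≤ Real.exp (250 * z) := Real.exp_le_exp.2 (by linarith)
    have h3 : ((A' - A').card : ℝ) ≤ 2 ^ 30 * ((Real.exp (-(4 * z)))⁻¹) ^ 12 *
        (Real.exp (25 * z)) ^ 6 * (A'.card : ℝ) := by
      refine le_trans (le_of_eq ?_) hd
      rw [sub_inst]
    refine h3.trans ?_
    gcongr

lemma Ck_bd {κ : ℕ} {z : ℝ} (hκ : 2 ≤ κ) (hl : Real.log κ ≤ z) (hz : 100000 ≤ z) :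
    1 ≤ Ck κ ∧ Ck κ ≤ 4 * z ∧ 100 * (κ : ℝ) ^ 2 ≤ Real.exp (5 + 2 * z) := by
  have hk : (2 : ℝ) ≤ κ := by exact_mod_cast hκ
  have hk0 : (0 : ℝ) < κ := by linarith
  refine ⟨?_, ?_, ?_⟩
  · unfold Ck
    have : 0 ≤ Real.log (40 * (κ : ℝ) ^ 2) := Real.log_nonneg (by nlinarith)
    linarith
  · unfold Ck
    rw [Real.log_mul (by norm_num) (by positivity), Real.log_pow]
    have h40 : Real.log 40 ≤ 4 := by
      rw [Real.log_le_iff_le_exp (by norm_num)]
      have h := exp_nat 4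
      push_cast at h
      refine le_trans ?_ h
      norm_num
    push_cast
    linarith
  · have h1 : (κ : ℝ) ≤ Real.exp z := by
      rw [← Real.exp_log hk0]
      exact Real.exp_le_exp.2 hl
    have h2 : (κ : ℝ) ^ 2 ≤ Real.exp (2 * z) := by
      calc (κ : ℝ) ^ 2 ≤ (Real.exp z) ^ 2 := by gcongr
        _ = Real.exp (2 * z) := by
            rw [← Real.exp_nat_mul]
            push_cast
            rfl
    have h3 : (100 : ℝ) ≤ Real.exp 5 := by
      have h := exp_nat 5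
      push_cast at h
      refine le_trans ?_ h
      norm_num
    rw [Real.exp_add]
    gcongr

lemma q1 {z : ℝ} (hz : 100000 ≤ z) : z ^ 16 + z ^ 5 ≤ z ^ 17 := by
  have a1 := mulpw hz 16
  have a2 := pw hz (show 5 ≤ 16 by norm_num)
  have a3 : 0 ≤ z ^ 16 := by positivity
  norm_num at a1
  linarith

lemma q2 {z : ℝ} (hz : 100000 ≤ z) : 16 * z * z ^ 5 + z ^ 16 + 4 * z + 2 ≤ z ^ 17 := by
  have a1 := mulpw hz 16
  have a2 := pw hz (show 6 ≤ 16 by norm_num)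
  have a3 := pw hz (show 1 ≤ 16 by norm_num)
  have a4 := pw hz (show 0 ≤ 16 by norm_num)
  have a5 : 16 * z * z ^ 5 = 16 * z ^ 6 := by ring
  norm_num at a1 a3 a4
  rw [a5]
  linarith

lemma q3 {z : ℝ} (hz : 100000 ≤ z) :
    60 * (z ^ 5) ^ 3 + 4 * z ^ 5 * Real.log (z ^ 16) + 2 ≤ z ^ 16 := by
  have a1 := mulpw hz 15
  have a2 := pw hz (show 6 ≤ 15 by norm_num)
  have a4 := pw hz (show 0 ≤ 15 by norm_num)
  have a5 : 4 * z ^ 5 * Real.log (z ^ 16) ≤ 4 * z ^ 5 * (16 * z) := by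
    have := nlog hz
    gcongr
  have a6 : 4 * z ^ 5 * (16 * z) = 64 * z ^ 6 := by ring
  have a7 : (z ^ 5) ^ 3 = z ^ 15 := by ring
  norm_num at a1 a4
  rw [a7]
  rw [a6] at a5
  linarith

lemma q4 {z C : ℝ} (hz : 100000 ≤ z) (hC : 1 ≤ C) :
    2 * (3 * z ^ 17 + 2 * z) ≤ z ^ 18 * C ∧ 2 * z ^ 16 ≤ z ^ 18 * C := by
  have a1 := mulpw hz 17
  have a2 := pw hz (show 1 ≤ 17 by norm_num)
  have a3 := pw hz (show 16 ≤ 17 by norm_num)
  have a5 : z ^ 18 * 1 ≤ z ^ 18 * C := by gcongr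
  have a6 : 0 ≤ z ^ 16 := by positivity
  norm_num at a1 a2
  constructor <;> linarith

lemma q5 {z C : ℝ} (hz : 100000 ≤ z) (hC : C ≤ 4 * z) (hC1 : 1 ≤ C) :
    z ^ 17 + (3 * z ^ 5 + 1) * (z ^ 18 * C + z ^ 16) ≤ 21 * z ^ 24 := by
  have a1 : z ^ 18 * C ≤ z ^ 18 * (4 * z) := by gcongr
  have a2 : z ^ 18 * (4 * z) = 4 * z ^ 19 := by ring
  have a3 := pw hz (show 16 ≤ 19 by norm_num)
  have a4 := pw hz (show 17 ≤ 24 by norm_num)
  have a5 := pw hz (show 0 ≤ 5 by norm_num)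
  have a6 : (3 * z ^ 5 + 1) * (z ^ 18 * C + z ^ 16) ≤ (4 * z ^ 5) * (5 * z ^ 19) := by
    have b1 : 3 * z ^ 5 + 1 ≤ 4 * z ^ 5 := by
      norm_num at a5
      linarith
    have b2 : z ^ 18 * C + z ^ 16 ≤ 5 * z ^ 19 := by
      linarith
    gcongr
  have a7 : (4 * z ^ 5) * (5 * z ^ 19) = 20 * z ^ 24 := by ring
  linarith

lemma q6 {z C : ℝ} (hz : 100000 ≤ z) (hC : C ≤ 4 * z) (hC1 : 1 ≤ C) :
    2 * (z ^ 17 + (3 * z ^ 5 + 1) * (z ^ 18 * C + z ^ 16)) + 2 + z ^ 18 * C ≤ z ^ 28 / 8 := by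
  have a0 := q5 hz hC hC1
  have a1 : z ^ 18 * C ≤ z ^ 18 * (4 * z) := by gcongr
  have a2 : z ^ 18 * (4 * z) = 4 * z ^ 19 := by ring
  have a3 := pw hz (show 19 ≤ 24 by norm_num)
  have a4 := pw hz (show 0 ≤ 24 by norm_num)
  have a5 := mulpw hz 27
  have a6 := pw hz (show 24 ≤ 27 by norm_num)
  have a7 : 0 ≤ z ^ 24 := by positivity
  norm_num at a4 a5
  linarith

lemma q9 {z C : ℝ} (hz : 100000 ≤ z) (hC : C ≤ 4 * z) (hC1 : 1 ≤ C) :
    z ^ 17 + (3 * z ^ 5 + 1) * (z ^ 18 * C + z ^ 16) ≤ z ^ 35 := by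
  have a0 := q5 hz hC hC1
  have a5 := mulpw hz 34
  have a6 := pw hz (show 24 ≤ 34 by norm_num)
  have a7 : 0 ≤ z ^ 24 := by positivity
  norm_num at a5
  linarith

/-- the total loss -/
lemma q10 {z : ℝ} (hz : 100000 ≤ z) :
    (3 * z ^ 5 + 1) * z ^ 16 + (z ^ 28 + 1) * z ^ 5 * (16 * z) ≤ 40 * z ^ 34 := by
  have a5 := pw hz (show 0 ≤ 5 by norm_num)
  have a6 := pw hz (show 21 ≤ 34 by norm_num)
  have a7 := pw hz (show 6 ≤ 34 by norm_num)
  have b1 : (3 * z ^ 5 + 1) * z ^ 16 ≤ (4 * z ^ 5) * z ^ 16 := by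
    norm_num at a5
    gcongr
    linarith
  have b2 : (4 * z ^ 5) * z ^ 16 = 4 * z ^ 21 := by ring
  have b3 : (z ^ 28 + 1) * z ^ 5 * (16 * z) = 16 * z ^ 34 + 16 * z ^ 6 := by ring
  have b4 : 0 ≤ z ^ 34 := by positivity
  linarith

lemma q11 {z : ℝ} (hz : 100000 ≤ z) :
    40 * z ^ 34 + 3 * z ^ 17 + 13 * z ≤ z ^ 35 := by
  have a5 := mulpw hz 34
  have a6 := pw hz (show 17 ≤ 34 by norm_num)
  have a7 := pw hz (show 1 ≤ 34 by norm_num)
  norm_num at a5 a7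
  linarith

lemma q7 {z : ℝ} (hz : 100000 ≤ z) :
    (5 + 2 * z) + 16 * z * (2 * (z ^ 28 + 1) * z ^ 5) + z ^ 28 + (3 * z ^ 5 + 1) * z ^ 16 ≤
      z ^ 35 := by
  have a5 := mulpw hz 34
  have a0 := q10 hz
  have a6 := pw hz (show 6 ≤ 34 by norm_num)
  have a7 := pw hz (show 1 ≤ 34 by norm_num)
  have a8 := pw hz (show 0 ≤ 34 by norm_num)
  have a9 := pw hz (show 28 ≤ 34 by norm_num)
  have b1 : 16 * z * (2 * (z ^ 28 + 1) * z ^ 5) = 32 * z ^ 34 + 32 * z ^ 6 := by ring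
  have b2 : (z ^ 28 + 1) * z ^ 5 * (16 * z) = 16 * z ^ 34 + 16 * z ^ 6 := by ring
  have b3 : 0 ≤ z ^ 6 := by positivity
  norm_num at a5 a7 a8
  linarith

lemma q8 {z : ℝ} (hz : 100000 ≤ z) : z ^ 35 ≤ z ^ 36 - 13 * z - z ^ 17 := by
  have a5 := mulpw hz 35
  have a6 := pw hz (show 17 ≤ 35 by norm_num)
  have a7 := pw hz (show 1 ≤ 35 by norm_num)
  norm_num at a5 a7
  linarith

lemma q12 {z : ℝ} (hz : 100000 ≤ z) : 4 * z + 2 * z ^ 5 + 2 * z ^ 17 ≤ 3 * z ^ 17 := by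
  have a5 := mulpw hz 16
  have a6 := pw hz (show 5 ≤ 16 by norm_num)
  have a7 := pw hz (show 1 ≤ 16 by norm_num)
  norm_num at a5 a7
  linarith

end DPL_

open DPL_ in
theorem dpl_proof (h1 : Stmt_BR) (h2 : Stmt_BSG) (h3 : Stmt_NOR) (h4 : Stmt_ITR) (h5 : Stmt_CEL)
    (h6 : Stmt_ENG) (h7 : Stmt_QOB) (h8 : Stmt_ROO) (h9 : Stmt_HYP) : Stmt_DPL := by
  obtain ⟨Z1, hBR⟩ := h1
  obtain ⟨Z2, hENG⟩ := h6
  refine ⟨max (max Z1 Z2) 100000, ?_⟩
  intro Z hZ r κ τ N U T β ξ hr hTd hκ hlogκ hU hN hvolu hTs hβ hξ hvol hhyp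
  have hZ1 : Z1 ≤ Z := le_trans (le_trans (le_max_left _ _) (le_max_left _ _)) hZ
  have hZ2 : Z2 ≤ Z := le_trans (le_trans (le_max_right _ _) (le_max_left _ _)) hZ
  have hZn : 100000 ≤ Z := le_trans (le_max_right _ _) hZ
  obtain ⟨z, hzdef⟩ : ∃ z : ℝ, z = (Z : ℝ) := ⟨_, rfl⟩
  have hz : 100000 ≤ z := by
    rw [hzdef]
    exact_mod_cast hZn
  have hV : 0 < vol N := vol_pos N hN
  have hsv : 0 < T.sv := sv_pos T
  obtain ⟨m, x, C, hC⟩ := h5 r N T hN hTs
  obtain ⟨F, hF⟩ : ∃ F : ℝ, F = Real.exp (-((β + 2 * ξ) / 2)) * vol N /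
      (Real.sqrt T.sv * 12 ^ T.d) := ⟨_, rfl⟩
  have hF0 : 0 < F := by
    rw [hF]
    have : 0 < Real.sqrt T.sv := Real.sqrt_pos.2 hsv
    positivity
  have hFPhi : F ≤ Phi C U τ := by
    have h := h9 r m τ N T x C U β ξ hN hTs hC (hU.sub τ) hhyp
    rw [hF]
    refine le_trans (le_of_eq ?_) h
    congr 3
    ring
  have hdz : (T.d : ℝ) ≤ z := by
    rw [hzdef]
    exact_mod_cast hTd
  have hrz : (r : ℝ) ≤ z := by
    rw [hzdef]
    exact_mod_cast hr
  have hmF := phi_m hV hsv hdz hrz hF hC.num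
  have hFm : Real.exp (10 * Z) * (m : ℝ) ≤ F ^ 2 := by
    refine le_trans ?_ hmF
    rw [← hzdef] at hvol ⊢
    calc Real.exp (10 * z) * (m : ℝ)
        ≤ (Real.exp (-(β + 2 * ξ) - 9 * z) * Real.exp (β + 2 * ξ + z ^ 36)) * (m : ℝ) := by
          rw [← Real.exp_add]
          have : 10 * z ≤ -(β + 2 * ξ) - 9 * z + (β + 2 * ξ + z ^ 36) := by
            have := n36 hz
            linarith
          gcongr
      _ ≤ (Real.exp (-(β + 2 * ξ) - 9 * z) * vol N) * (m : ℝ) := by gcongr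
      _ = (m : ℝ) * (Real.exp (-(β + 2 * ξ) - 9 * z) * vol N) := by ring
  obtain ⟨t, s, I, A, V, hτt, hlast, hs1, hAU, hAI, hAs, hAc, hFI, hVA, hpairs⟩ :=
    hENG Z hZ2 r m κ τ N T x C U F hr hTd hκ hlogκ hU hN hvolu hC hF0 hFPhi hFm
  rw [← hzdef] at hFI hVA hpairs hlogκ
  have hI0 : 0 < (I.card : ℝ) := by
    rcases Nat.eq_zero_or_pos I.card with h | h
    · rw [h] at hFI
      simp only [Nat.cast_zero, mul_zero, zero_mul] at hFI
      linarith
    · exact_mod_cast h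
  have hs1r : (1 : ℝ) ≤ s := by exact_mod_cast hs1
  have hAcr : (A.card : ℝ) = (I.card : ℝ) * s := by
    rw [hAc]
    push_cast
    rfl
  have hA0 : 0 < (A.card : ℝ) := by
    rw [hAcr]
    positivity
  have hAn : A.Nonempty := Finset.card_pos.1 (by exact_mod_cast hA0)
  have hIm : (I.card : ℝ) ≤ m := by
    have := Finset.card_le_univ I
    rw [Fintype.card_fin] at this
    exact_mod_cast this
  have hm0 : (0 : ℝ) < m := lt_of_lt_of_le hI0 hIm
  -- lower bound for `|A|`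
  have hAlow : Real.exp (-(β + 2 * ξ) - 13 * z) * vol N ≤ (A.card : ℝ) := by
    rw [hAcr]
    exact A_low hm0 hs1r hI0.le hIm hF0.le hmF hFI
  -- the size of the level
  have hssv : (s : ℝ) ≤ T.sv := by
    have hIn : I.Nonempty := Finset.card_pos.1 (by exact_mod_cast hI0)
    obtain ⟨i, hi⟩ := hIn
    rw [← hAs i hi]
    refine le_trans ?_ (card_q2 T (x i))
    exact_mod_cast Finset.card_le_card (Finset.inter_subset_right.trans (hC.sub2 i))
  have hIlow : vol N ≤ Real.exp ((β + 2 * ξ) / 2 + 5 * z) * (I.card : ℝ) * T.sv :=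
    I_low hsv hdz hI0.le hssv hF hFI
  -- Balog-Szemeredi-Gowers and Bogolyubov-Ruzsa
  obtain ⟨A', hA'A, hA'n, hA'c, hA'd⟩ := bsg h2 z hz A V hAn hVA hpairs
  obtain ⟨Q, c1, hQd, hQ1, hQ2⟩ := hBR Z hZ1 r A' hA'n (by rw [← hzdef]; exact hA'd)
  rw [← hzdef] at hQ1 hQ2
  have hB2 : 2 ≤ Z ^ 16 := by
    calc 2 ≤ Z := by omega
      _ = Z ^ 1 := (pow_one _).symm
      _ ≤ Z ^ 16 := Nat.pow_le_pow_right (by omega) (by norm_num)
  obtain ⟨P, c', hPd, hPv, hPv2, hPA, -⟩ := h3 r (Z ^ 16) (Z ^ 28) Q c1 A' hB2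
  have hBr : ((Z ^ 16 : ℕ) : ℝ) = z ^ 16 := by rw [hzdef]; push_cast; rfl
  have hnr : ((Z ^ 28 : ℕ) : ℝ) = z ^ 28 := by rw [hzdef]; push_cast; rfl
  have hDr : ((Z ^ 5 : ℕ) : ℝ) = z ^ 5 := by rw [hzdef]; push_cast; rfl
  have hΔr : ((Z ^ 18 : ℕ) : ℝ) = z ^ 18 := by rw [hzdef]; push_cast; rfl
  have hP0 : 0 < P.v := P_pos P hB2
  have hQ0 : 0 < Q.v := v_pos Q
  have hQdz : (Q.d : ℝ) ≤ z ^ 5 := by
    rw [← hDr]
    exact_mod_cast hQd
  rw [hBr] at hPv2
  -- density of `A'` on `P`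
  have hdens : Real.exp (-(z ^ 17)) * P.v ≤ ((A ∩ P.set c').card : ℝ) := by
    have k1 : Real.exp (-(z ^ 16)) * Q.v * P.v ≤ 2 ^ Q.d * Q.v * ((A' ∩ P.set c').card : ℝ) :=
      le_trans (by gcongr) hPA
    have k2 : Real.exp (-(z ^ 16)) * P.v ≤ 2 ^ Q.d * ((A' ∩ P.set c').card : ℝ) := by
      refine le_of_mul_le_mul_left ?_ hQ0
      calc Q.v * (Real.exp (-(z ^ 16)) * P.v) = Real.exp (-(z ^ 16)) * Q.v * P.v := by ring
        _ ≤ 2 ^ Q.d * Q.v * ((A' ∩ P.set c').card : ℝ) := k1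
        _ = Q.v * (2 ^ Q.d * ((A' ∩ P.set c').card : ℝ)) := by ring
    have k3 : (2 : ℝ) ^ Q.d ≤ Real.exp (z ^ 5) := (two_le Q.d).trans (Real.exp_le_exp.2 hQdz)
    have k4 : ((A' ∩ P.set c').card : ℝ) ≤ ((A ∩ P.set c').card : ℝ) := by
      exact_mod_cast Finset.card_le_card (Finset.inter_subset_inter_right hA'A)
    have k5 : Real.exp (-(z ^ 16)) * P.v ≤ Real.exp (z ^ 5) * ((A ∩ P.set c').card : ℝ) :=
      k2.trans (by gcongr)
    calc Real.exp (-(z ^ 17)) * P.v ≤ Real.exp (-(z ^ 5) + -(z ^ 16)) * P.v := by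
          have : -(z ^ 17) ≤ -(z ^ 5) + -(z ^ 16) := by
            have := DPL_.q1 hz
            linarith
          gcongr
      _ = Real.exp (-(z ^ 5)) * (Real.exp (-(z ^ 16)) * P.v) := by
          rw [Real.exp_add]
          ring
      _ ≤ Real.exp (-(z ^ 5)) * (Real.exp (z ^ 5) * ((A ∩ P.set c').card : ℝ)) := by gcongr
      _ = ((A ∩ P.set c').card : ℝ) := by
          rw [← mul_assoc, ← Real.exp_add]
          simp
  -- size of `P`
  have hPA2 : Real.exp (-(z ^ 17)) * (A.card : ℝ) ≤ P.v := by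
    have k1 : (z ^ 16) ^ Q.d ≤ Real.exp (16 * z * z ^ 5) := nB hz Q.d hQdz
    have k2 : Real.exp (-(z ^ 16)) * (Real.exp (-(4 * z) - 2) * (A.card : ℝ)) ≤
        Real.exp (16 * z * z ^ 5) * P.v := by
      calc Real.exp (-(z ^ 16)) * (Real.exp (-(4 * z) - 2) * (A.card : ℝ))
          ≤ Real.exp (-(z ^ 16)) * (A'.card : ℝ) := by gcongr
        _ ≤ Q.v := hQ2
        _ ≤ (z ^ 16) ^ Q.d * P.v := hPv2
        _ ≤ Real.exp (16 * z * z ^ 5) * P.v := by gcongr
    calc Real.exp (-(z ^ 17)) * (A.card : ℝ)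
        ≤ Real.exp (-(16 * z * z ^ 5) + -(z ^ 16) + (-(4 * z) - 2)) * (A.card : ℝ) := by
          have : -(z ^ 17) ≤ -(16 * z * z ^ 5) + -(z ^ 16) + (-(4 * z) - 2) := by
            have := DPL_.q2 hz
            linarith
          gcongr
      _ = Real.exp (-(16 * z * z ^ 5)) *
          (Real.exp (-(z ^ 16)) * (Real.exp (-(4 * z) - 2) * (A.card : ℝ))) := by
          rw [Real.exp_add, Real.exp_add]
          ring
      _ ≤ Real.exp (-(16 * z * z ^ 5)) * (Real.exp (16 * z * z ^ 5) * P.v) := by gcongr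
      _ = P.v := by
          rw [← mul_assoc, ← Real.exp_add]
          simp
  have hPc : ((P.set c').card : ℝ) = P.v := set_card P c'
  have hPn : (P.set c').Nonempty := Finset.card_pos.1 (by
    have : (0 : ℝ) < ((P.set c').card : ℝ) := by rw [hPc]; exact hP0
    exact_mod_cast this)
  -- evenly spread
  have hqob := h7 r m s N T x C I A (P.set c') (z ^ 17) (3 ^ (P.a + P.b)) hC hAI hAs hs1 hAc
    hPn hAn (by rw [hPc]; exact hdens) (by rw [hPc]; exact hPA2) (by rw [hPc]; exact card_PPP P c')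
  have hPdz : ((P.a + P.b : ℕ) : ℝ) ≤ z ^ 5 := by
    rw [hPd]
    exact hQdz
  obtain ⟨q0, hq0⟩ : ∃ q0 : ℝ, q0 = Real.exp (3 * z ^ 17) / (I.card : ℝ) := ⟨_, rfl⟩
  have hq00 : 0 < q0 := by
    rw [hq0]
    positivity
  have hsp : ∀ y : Fin r → ℤ, (((P.set c').filter fun w => w - y ∈ T.sy 0).card : ℝ) ≤
      q0 * P.v := by
    intro y
    have k := hqob y
    rw [hPc] at k
    have k1 : (24 : ℝ) ^ T.d ≤ Real.exp (4 * z) :=
      (tf_le T.d).trans (Real.exp_le_exp.2 (by linarith))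
    have k2 : (3 : ℝ) ^ (P.a + P.b) ≤ Real.exp (2 * z ^ 5) :=
      (three_le (P.a + P.b)).trans (Real.exp_le_exp.2 (by linarith))
    have k3 : (24 : ℝ) ^ T.d * 3 ^ (P.a + P.b) * Real.exp (2 * z ^ 17) ≤ Real.exp (3 * z ^ 17) := by
      calc (24 : ℝ) ^ T.d * 3 ^ (P.a + P.b) * Real.exp (2 * z ^ 17)
          ≤ Real.exp (4 * z) * Real.exp (2 * z ^ 5) * Real.exp (2 * z ^ 17) := by gcongr
        _ = Real.exp (4 * z + 2 * z ^ 5 + 2 * z ^ 17) := by
            rw [← Real.exp_add, ← Real.exp_add]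
        _ ≤ Real.exp (3 * z ^ 17) := Real.exp_le_exp.2 (q12 hz)
    rw [hq0, div_mul_eq_mul_div, le_div_iff₀ hI0]
    refine k.trans ?_
    gcongr
  obtain ⟨hC1, hC2, hC3⟩ := Ck_bd hκ hlogκ hz
  have hZpos : 0 < Z := by omega
  -- room
  have hroom : ∀ t' > t, ∀ P : Finset (Fin r → ℤ), P.Nonempty → ∀ q : ℝ, 0 < q →
      (∀ x : Fin r → ℤ, ((P.filter fun y => y - x ∈ T.sy 0).card : ℝ) ≤ q * P.card) →
      ((U t' ∩ P).card : ℝ) ≤ F * Real.sqrt (q * P.card) := fun t' ht' =>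
    h8 r m t' N T x C U F hC (hU.sub t') (hlast t' ht')
  -- the size hypothesis
  have hsize : 100 * (κ : ℝ) ^ 2 * ((Z ^ 16 : ℕ) : ℝ) ^ (2 * (Z ^ 28 + 1) * Z ^ 5) *
      Real.exp ((Z ^ 28 : ℕ) : ℝ) * Real.exp ((3 * ((Z ^ 5 : ℕ) : ℝ) + 1) * z ^ 16) ≤ P.v := by
    rw [hBr, hnr, hDr]
    have k1 : (z ^ 16) ^ (2 * (Z ^ 28 + 1) * Z ^ 5) ≤
        Real.exp (16 * z * (2 * (z ^ 28 + 1) * z ^ 5)) := by
      refine nB hz _ (le_of_eq ?_)
      rw [hzdef]
      push_cast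
      rfl
    have k2 : Real.exp (z ^ 35) ≤ P.v := by
      calc Real.exp (z ^ 35)
          ≤ Real.exp (-(z ^ 17) + (-(β + 2 * ξ) - 13 * z) + (β + 2 * ξ + z ^ 36)) := by
            refine Real.exp_le_exp.2 ?_
            have := DPL_.q8 hz
            linarith
        _ = Real.exp (-(z ^ 17)) * (Real.exp (-(β + 2 * ξ) - 13 * z) *
            Real.exp (β + 2 * ξ + z ^ 36)) := by
            rw [Real.exp_add, Real.exp_add]
            ring
        _ ≤ Real.exp (-(z ^ 17)) * (Real.exp (-(β + 2 * ξ) - 13 * z) * vol N) := by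
            rw [← hzdef] at hvol
            gcongr
        _ ≤ Real.exp (-(z ^ 17)) * (A.card : ℝ) := by gcongr
        _ ≤ P.v := hPA2
    refine le_trans ?_ k2
    calc 100 * (κ : ℝ) ^ 2 * (z ^ 16) ^ (2 * (Z ^ 28 + 1) * Z ^ 5) * Real.exp (z ^ 28) *
          Real.exp ((3 * z ^ 5 + 1) * z ^ 16)
        ≤ Real.exp (5 + 2 * z) * Real.exp (16 * z * (2 * (z ^ 28 + 1) * z ^ 5)) *
          Real.exp (z ^ 28) * Real.exp ((3 * z ^ 5 + 1) * z ^ 16) := by gcongr
      _ = Real.exp ((5 + 2 * z) + 16 * z * (2 * (z ^ 28 + 1) * z ^ 5) + z ^ 28 +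
          (3 * z ^ 5 + 1) * z ^ 16) := by
          rw [← Real.exp_add, ← Real.exp_add, ← Real.exp_add]
      _ ≤ Real.exp (z ^ 35) := Real.exp_le_exp.2 (DPL_.q7 hz)
  -- the functional at the start
  have hstart : Real.log F - (3 * z ^ 17 + 2 * z) ≤
      -(z ^ 17) + (1 / 2) * Real.log (P.v / q0) := by
    have k1 : Real.exp (-(4 * z ^ 17)) * ((I.card : ℝ) * Real.sqrt s) ^ 2 ≤ P.v / q0 := by
      rw [hq0, div_div_eq_mul_div, le_div_iff₀ (Real.exp_pos _)]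
      calc Real.exp (-(4 * z ^ 17)) * ((I.card : ℝ) * Real.sqrt s) ^ 2 * Real.exp (3 * z ^ 17)
          = (Real.exp (-(4 * z ^ 17)) * Real.exp (3 * z ^ 17)) *
            ((I.card : ℝ) ^ 2 * (Real.sqrt s) ^ 2) := by ring
        _ = Real.exp (-(z ^ 17)) * ((I.card : ℝ) ^ 2 * s) := by
            rw [Real.sq_sqrt (by linarith), ← Real.exp_add]
            congr 2
            ring
        _ = (Real.exp (-(z ^ 17)) * (A.card : ℝ)) * (I.card : ℝ) := by
            rw [hAcr]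
            ring
        _ ≤ P.v * (I.card : ℝ) := by gcongr
    have hsq : 0 < Real.sqrt s := Real.sqrt_pos.2 (by linarith)
    have hIs : 0 < (I.card : ℝ) * Real.sqrt s := by positivity
    have k2 : -(4 * z ^ 17) + 2 * Real.log ((I.card : ℝ) * Real.sqrt s) ≤ Real.log (P.v / q0) := by
      have h := Real.log_le_log (by positivity) k1
      rw [Real.log_mul (Real.exp_pos _).ne' (by positivity), Real.log_exp, Real.log_pow] at h
      push_cast at h
      exact h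
    have k3 : Real.log F ≤ 2 * z + Real.log ((I.card : ℝ) * Real.sqrt s) := by
      have h := Real.log_le_log hF0 hFI
      rw [mul_assoc, Real.log_mul (Real.exp_pos _).ne' hIs.ne', Real.log_exp] at h
      exact h
    linarith
  obtain ⟨t1, Q', c2, ht1, hkr, hQ'd, hd1, hd2, hd3⟩ := h4 r (Z ^ 16) (Z ^ 28) κ (Z ^ 18) (Z ^ 5) t
    N U (T.sy 0) P c' q0 (z ^ 17) (3 * z ^ 17 + 2 * z) (z ^ 16) F
    (by
      calc 10 ^ 4 * (Z ^ 5) ^ 3 = 10 ^ 4 * Z ^ 15 := by ring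
        _ ≤ Z * Z ^ 15 := Nat.mul_le_mul_right _ (by omega)
        _ = Z ^ 16 := by ring)
    hB2 (Nat.one_le_pow _ _ hZpos) hκ (Nat.one_le_pow _ _ hZpos) hU (by positivity)
    (by positivity) hF0 (by rw [hPd]; exact hQd) (Nat.one_le_pow _ _ hZpos) hq00
    (by rw [hBr, hDr]; exact DPL_.q3 hz)
    (by rw [hΔr]; exact (DPL_.q4 hz hC1).1)
    (by rw [hΔr]; exact (DPL_.q4 hz hC1).2)
    (by rw [hΔr, hDr, hnr]; exact DPL_.q6 hz hC2 hC1)
    hsize
    (by
      refine hdens.trans ?_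
      exact_mod_cast Finset.card_le_card (Finset.inter_subset_inter_right hAU))
    hsp hstart hroom
  rw [hΔr, hDr] at hd1
  rw [hBr, hDr, hnr] at hd2 hd3
  obtain ⟨E, hE⟩ : ∃ E : ℝ, E = (3 * z ^ 5 + 1) * z ^ 16 + (z ^ 28 + 1) * z ^ 5 *
    Real.log (z ^ 16) := ⟨_, rfl⟩
  rw [← hE] at hd2 hd3
  have hE2 : E ≤ 40 * z ^ 34 := by
    refine le_trans ?_ (DPL_.q10 hz)
    rw [hE]
    have := nlog hz
    gcongr
  have hQ'0 : 0 < Q'.v := v_pos Q'
  rw [← hzdef]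
  refine ⟨t1, Q', c2, hτt.trans ht1, hkr, hQ'd, ?_, ?_, ?_⟩
  · refine le_trans ?_ hd1
    have := DPL_.q9 hz hC2 hC1
    gcongr
  · refine le_trans ?_ hd2
    calc Real.exp (-β - 2 * ξ - z ^ 35) * vol N
        ≤ Real.exp (-E + -(z ^ 17) + (-(β + 2 * ξ) - 13 * z)) * vol N := by
          have : -β - 2 * ξ - z ^ 35 ≤ -E + -(z ^ 17) + (-(β + 2 * ξ) - 13 * z) := by
            have := DPL_.q11 hz
            have h17 : 0 ≤ z ^ 17 := by positivity
            linarith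
          gcongr
      _ = Real.exp (-E) * (Real.exp (-(z ^ 17)) * (Real.exp (-(β + 2 * ξ) - 13 * z) * vol N)) := by
          rw [Real.exp_add, Real.exp_add]
          ring
      _ ≤ Real.exp (-E) * (Real.exp (-(z ^ 17)) * (A.card : ℝ)) := by gcongr
      _ ≤ Real.exp (-E) * P.v := by gcongr
  · intro y
    have k := hd3 y
    calc (((Q'.bx c2).filter fun w => w - y ∈ T.sy 0).card : ℝ) * vol N
        ≤ (Real.exp E * q0 * Q'.v) * vol N := by gcongr
      _ ≤ (Real.exp E * q0 * Q'.v) *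
          (Real.exp ((β + 2 * ξ) / 2 + 5 * z) * (I.card : ℝ) * T.sv) := by gcongr
      _ = (Real.exp E * Real.exp (3 * z ^ 17) * Real.exp ((β + 2 * ξ) / 2 + 5 * z)) *
          T.sv * Q'.v := by
          rw [hq0]
          field_simp
      _ = Real.exp (E + 3 * z ^ 17 + ((β + 2 * ξ) / 2 + 5 * z)) * T.sv * Q'.v := by
          rw [← Real.exp_add, ← Real.exp_add]
      _ ≤ Real.exp (β / 2 + ξ + z ^ 35) * T.sv * Q'.v := by
          have : E + 3 * z ^ 17 + ((β + 2 * ξ) / 2 + 5 * z) ≤ β / 2 + ξ + z ^ 35 := by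
            have := DPL_.q11 hz
            linarith
          gcongr


end Pool.Agent.EMS
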