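import Mathlib

/-!
# EMS: the Erdos-Moser sum-free problem (MP_973cda_nt), definitions
Paper proof: /team-store/MP_973cda_proof_helper64.md
-/

set_option autoImplicit false

open Finset
open scoped BigOperators Classical

namespace Pool.Agent.EMS

/-- the box `∏ [0, N_l)` in `ℤ^r` -/
noncomputable def box {r : ℕ} (N : Fin r → ℕ) : Finset (Fin r → ℤ) :=
  Fintype.piFinset fun l => Finset.Ico (0 : ℤ) (N l)

/-- the symmetric box `{|u_l| ≤ N_l}` -/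
noncomputable def sbox {r : ℕ} (N : Fin r → ℕ) : Finset (Fin r → ℤ) :=
  Fintype.piFinset fun l => Finset.Icc (-(N l : ℤ)) (N l)

/-- the enlarged box `∏ [-N_l, 2N_l]` -/
noncomputable def ebox {r : ℕ} (N : Fin r → ℕ) : Finset (Fin r → ℤ) :=
  Fintype.piFinset fun l => Finset.Icc (-(N l : ℤ)) (2 * N l)

/-- number of points of a box, as a real number -/
noncomputable def vol {r : ℕ} (N : Fin r → ℕ) : ℝ := ∏ l, (N l : ℝ)

/-- same class mod 2 -/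
def Par {r : ℕ} (x y : Fin r → ℤ) : Prop := ∀ l, (2 : ℤ) ∣ x l - y l

/-- a `κ`-linked chain on the box `box N` -/
structure Chain {r : ℕ} (κ : ℕ) (N : Fin r → ℕ) (U : ℕ → Finset (Fin r → ℤ)) : Prop where
  sub : ∀ t, U t ⊆ box N
  fin : ∃ T, ∀ t, T ≤ t → U t = ∅
  link : ∀ t, ∀ X ⊆ U t, (∀ x ∈ X, ∀ y ∈ X, Par x y) → κ ≤ X.card →
    ∃ x ∈ X, ∃ y ∈ X, x ≠ y ∧ ∃ z ∈ U (t + 1), z + z = x + y

/-- at most `J` non-empty times -/
def NT {r : ℕ} (U : ℕ → Finset (Fin r → ℤ)) (J : ℝ) : Prop :=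
  ∀ S : Finset ℕ, (∀ t ∈ S, (U t).Nonempty) → (S.card : ℝ) ≤ J

/-- a certificate at time `t`: one class mod 2, no midpoint in `U (t+1)` -/
def Cert {r : ℕ} (U : ℕ → Finset (Fin r → ℤ)) (t : ℕ) (X : Finset (Fin r → ℤ)) : Prop :=
  X ⊆ U t ∧ (∀ x ∈ X, ∀ y ∈ X, Par x y) ∧
    ∀ x ∈ X, ∀ y ∈ X, x ≠ y → ∀ z ∈ U (t + 1), z + z ≠ x + y

/-- symmetric proper generalized arithmetic progressions in `ℤ^r` (linear part) -/
structure SG (r : ℕ) where
  /-- rank -/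
  d : ℕ
  /-- linear map -/
  φ : (Fin d → ℤ) →ₗ[ℤ] (Fin r → ℤ)
  /-- sides -/
  M : Fin d → ℕ
  pos : ∀ l, 1 ≤ M l
  proper : ∀ u : Fin d → ℤ, (∀ l, |u l| ≤ 8 * (M l : ℤ)) → φ u = 0 → u = 0

namespace SG

variable {r : ℕ}

/-- the GAP `{c + φ(u) : 0 ≤ u_l < M_l}` -/
noncomputable def bx (S : SG r) (c : Fin r → ℤ) : Finset (Fin r → ℤ) :=
  (box S.M).image fun u => c + S.φ u

/-- the translate `{c + φ(u) : |u_l| ≤ M_l}` of the symmetric GAP -/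
noncomputable def sy (S : SG r) (c : Fin r → ℤ) : Finset (Fin r → ℤ) :=
  (sbox S.M).image fun u => c + S.φ u

/-- `{c + φ(u) : 4|u_l| ≤ k M_l}` (so `q 4 c = sy c`) -/
noncomputable def q (S : SG r) (k : ℕ) (c : Fin r → ℤ) : Finset (Fin r → ℤ) :=
  ((sbox fun l => k * S.M l).filter fun u => ∀ l, 4 * |u l| ≤ k * (S.M l : ℤ)).image
    fun u => c + S.φ u

/-- `∏ M_l`, the size of `bx` -/
noncomputable def v (S : SG r) : ℝ := ∏ l, (S.M l : ℝ)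

/-- `∏ (2 M_l + 1)`, the size of `sy` -/
noncomputable def sv (S : SG r) : ℝ := ∏ l, (2 * (S.M l : ℝ) + 1)

/-- kernel rank -/
noncomputable def kr (S : SG r) : ℕ := Module.finrank ℤ (LinearMap.ker S.φ)

/-- pull back of a chain to the GAP `bx c` -/
noncomputable def pb (S : SG r) (c : Fin r → ℤ) (U : ℕ → Finset (Fin r → ℤ)) :
    ℕ → Finset (Fin S.d → ℤ) :=
  fun t => (box S.M).filter fun u => c + S.φ u ∈ U t

/-- sides of the box carrying the pull back to `sy c` -/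
def sM (S : SG r) : Fin S.d → ℕ := fun l => 2 * S.M l + 1

/-- pull back of a chain to the symmetric GAP `sy c` -/
noncomputable def pbs (S : SG r) (c : Fin r → ℤ) (U : ℕ → Finset (Fin r → ℤ)) :
    ℕ → Finset (Fin S.d → ℤ) :=
  fun t => (box S.sM).filter fun u => c + S.φ (fun l => u l - (S.M l : ℤ)) ∈ U t

end SG

/-- random certificates: total expected size at least `W`, spread at most `s` -/
def RC {r : ℕ} (U : ℕ → Finset (Fin r → ℤ)) (W s : ℝ) : Prop :=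
  ∃ (Ω : Type) (_ : Fintype Ω) (p : Ω → ℝ) (X : Ω → ℕ → Finset (Fin r → ℤ)) (T : ℕ),
    (∀ ω, 0 ≤ p ω) ∧ ∑ ω, p ω = 1 ∧ (∀ ω t, Cert U t (X ω t)) ∧
    (∀ t x, ∑ ω, (if x ∈ X ω t then p ω else 0) ≤ s) ∧
    W ≤ ∑ ω, p ω * ∑ t ∈ Finset.range T, ((X ω t).card : ℝ)

/-- the statement (P_I): `Yc` = log of the initial density loss -/
def PI (κ : ℕ) (J D0 W θ : ℝ) (R : ℕ) (lo hi : ℝ) : Prop :=
  ∀ (r : ℕ) (N : Fin r → ℕ) (U : ℕ → Finset (Fin r → ℤ)), r ≤ R → (∀ l, 1 ≤ N l) →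
    Chain κ N U → NT U J → Real.exp lo ≤ vol N → vol N ≤ Real.exp hi →
    Real.exp (-D0) * vol N ≤ ((U 0).card : ℝ) → RC U W (Real.exp θ / vol N)

/-- kernel rank bound -/
noncomputable def rho0 (κ : ℕ) : ℕ := ⌈12 * (Real.log (40 * (κ : ℝ) ^ 2) + 1)⌉₊

end Pool.Agent.EMS
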