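import Pool.Agent.EMS.StmtsC

/-!
# EMS, module ENG: an evenly spread set with many midpoints in a small set (helper48)
MP_973cda_nt, Sections 7.3 and 7.4 of the paper proof.
-/

set_option autoImplicit false

open Finset
open scoped BigOperators Classical Pointwise

namespace Pool.Agent.EMS

namespace ENG_

theorem card_biUnion_real {ι α : Type*} [DecidableEq α] (s : Finset ι) (f : ι → Finset α) (c : ℝ)
    (h : ∀ i ∈ s, ((f i).card : ℝ) ≤ c) : ((s.biUnion f).card : ℝ) ≤ s.card * c := by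
  calc ((s.biUnion f).card : ℝ) ≤ ((∑ i ∈ s, (f i).card : ℕ) : ℝ) := by
        exact_mod_cast Finset.card_biUnion_le
    _ = ∑ i ∈ s, ((f i).card : ℝ) := by push_cast; rfl
    _ ≤ ∑ i ∈ s, c := Finset.sum_le_sum h
    _ = s.card * c := by rw [Finset.sum_const, nsmul_eq_mul]

theorem card_filter_inst {α : Type*} (s : Finset α) (p : α → Prop) (i1 i2 : DecidablePred p) :
    (@Finset.filter α p i1 s).card = (@Finset.filter α p i2 s).card := by
  rw [Subsingleton.elim i1 i2]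

theorem core {r m : ℕ} (C : Fin m → Finset (Fin r → ℤ)) (U1 A : Finset (Fin r → ℤ))
    (I : Finset (Fin m)) (s : ℕ) (E : ℝ) (hE : 32 ≤ E) (hs : 1 ≤ s)
    (hcov : ∀ w ∈ U1, ∃ i, w ∈ C i) (hA : ∀ w ∈ A, ∃ i ∈ I, w ∈ C i)
    (hAc : ∀ i ∈ I, (A ∩ C i).card = s) (hcard : A.card = I.card * s)
    (mid1 : ∀ i j : Fin m, ((Finset.univ.filter fun k => ∃ w ∈ C i, ∃ w' ∈ C j, ∃ z ∈ C k,
        z + z = w + w').card : ℝ) ≤ E ^ 4)
    (mid2 : ∀ (k : Fin m) (w' : Fin r → ℤ), ((Finset.univ.filter fun i => ∃ w ∈ C i, ∃ z ∈ C k,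
        z + z = w + w').card : ℝ) ≤ E ^ 4)
    (hphi : ∑ i, Real.sqrt ((U1 ∩ C i).card : ℝ) ≤ E ^ 2 * (I.card : ℝ) * Real.sqrt s)
    (hL : (A.card : ℝ) ^ 2 ≤
      E ^ 3 * (((A ×ˢ A).filter fun z => ∃ y ∈ U1, y + y = z.1 + z.2).card : ℝ)) :
    ∃ V : Finset (Fin r → ℤ), (V.card : ℝ) ≤ E ^ 25 * (A.card : ℝ) ∧
      (A.card : ℝ) ^ 2 ≤
        E ^ 4 * (((A ×ˢ A).filter fun z => ∃ y ∈ V, y + y = z.1 + z.2).card : ℝ) := by
  have hE0 : 0 < E := by linarith
  set σ := Real.sqrt (s : ℝ) with hσ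
  have hs1 : (1 : ℝ) ≤ s := by exact_mod_cast hs
  have hσ0 : 0 < σ := Real.sqrt_pos.mpr (by linarith)
  have hσ2 : σ ^ 2 = s := Real.sq_sqrt (by linarith)
  let g : Fin m → ℝ := fun k => Real.sqrt ((U1 ∩ C k).card : ℝ)
  have hg0 : ∀ k, 0 ≤ g k := fun k => Real.sqrt_nonneg _
  have hg2 : ∀ k, g k ^ 2 = ((U1 ∩ C k).card : ℝ) := fun k => Real.sq_sqrt (Nat.cast_nonneg _)
  have hAr : (A.card : ℝ) = I.card * s := by
    rw [hcard]; push_cast; rfl
  have hI0 : (0 : ℝ) ≤ I.card := Nat.cast_nonneg _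
  have hA0 : (0 : ℝ) ≤ A.card := Nat.cast_nonneg _
  -- the numbers of cells
  let K1 : Finset (Fin m) := univ.filter fun k => σ ≤ 2 * E ^ 4 * g k
  let K2 : Finset (Fin m) := univ.filter fun k => 4 * E ^ 9 * σ < g k
  have hn1 : (K1.card : ℝ) ≤ 2 * E ^ 6 * I.card := by
    have h1 : (K1.card : ℝ) * σ ≤ 2 * E ^ 4 * ∑ i, g i := by
      calc (K1.card : ℝ) * σ = ∑ k ∈ K1, σ := by rw [Finset.sum_const, nsmul_eq_mul]
        _ ≤ ∑ k ∈ K1, 2 * E ^ 4 * g k :=
            Finset.sum_le_sum fun k hk => (Finset.mem_filter.mp hk).2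
        _ ≤ ∑ k, 2 * E ^ 4 * g k :=
            Finset.sum_le_sum_of_subset_of_nonneg (Finset.subset_univ _)
              (fun k _ _ => mul_nonneg (by positivity) (hg0 k))
        _ = 2 * E ^ 4 * ∑ i, g i := by rw [Finset.mul_sum]
    have h2 : (K1.card : ℝ) * σ ≤ (2 * E ^ 6 * I.card) * σ := by
      calc (K1.card : ℝ) * σ ≤ 2 * E ^ 4 * ∑ i, g i := h1
        _ ≤ 2 * E ^ 4 * (E ^ 2 * (I.card : ℝ) * σ) :=
            mul_le_mul_of_nonneg_left hphi (by positivity)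
        _ = (2 * E ^ 6 * I.card) * σ := by ring
    exact le_of_mul_le_mul_right h2 hσ0
  have hn2 : 4 * E ^ 7 * (K2.card : ℝ) ≤ I.card := by
    have h1 : (K2.card : ℝ) * (4 * E ^ 9 * σ) ≤ ∑ i, g i := by
      calc (K2.card : ℝ) * (4 * E ^ 9 * σ) = ∑ k ∈ K2, (4 * E ^ 9 * σ) := by
            rw [Finset.sum_const, nsmul_eq_mul]
        _ ≤ ∑ k ∈ K2, g k :=
            Finset.sum_le_sum fun k hk => (Finset.mem_filter.mp hk).2.le
        _ ≤ ∑ k, g k :=
            Finset.sum_le_sum_of_subset_of_nonneg (Finset.subset_univ _) (fun k _ _ => hg0 k)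
    have h2 : (4 * E ^ 7 * (K2.card : ℝ)) * (E ^ 2 * σ) ≤ I.card * (E ^ 2 * σ) := by
      calc (4 * E ^ 7 * (K2.card : ℝ)) * (E ^ 2 * σ) = (K2.card : ℝ) * (4 * E ^ 9 * σ) := by ring
        _ ≤ ∑ i, g i := h1
        _ ≤ E ^ 2 * (I.card : ℝ) * σ := hphi
        _ = I.card * (E ^ 2 * σ) := by ring
    exact le_of_mul_le_mul_right h2 (by positivity)
  -- the set V
  let V : Finset (Fin r → ℤ) :=
    U1.filter fun y => ∃ k, y ∈ C k ∧ σ ≤ 2 * E ^ 4 * g k ∧ g k ≤ 4 * E ^ 9 * σ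
  refine ⟨V, ?_, ?_⟩
  · have hsub : V ⊆ (K1.filter fun k => g k ≤ 4 * E ^ 9 * σ).biUnion fun k => U1 ∩ C k := by
      intro y hy
      obtain ⟨hy1, k, hk1, hk2, hk3⟩ := Finset.mem_filter.mp hy
      refine Finset.mem_biUnion.mpr ⟨k, ?_, Finset.mem_inter.mpr ⟨hy1, hk1⟩⟩
      exact Finset.mem_filter.mpr ⟨Finset.mem_filter.mpr ⟨Finset.mem_univ _, hk2⟩, hk3⟩
    have h1 : (V.card : ℝ) ≤ ((K1.filter fun k => g k ≤ 4 * E ^ 9 * σ).card : ℝ) *
        (16 * E ^ 18 * s) := by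
      refine le_trans (by exact_mod_cast Finset.card_le_card hsub) (card_biUnion_real _ _ _ ?_)
      intro k hk
      have hk3 := (Finset.mem_filter.mp hk).2
      rw [← hg2 k]
      calc g k ^ 2 ≤ (4 * E ^ 9 * σ) ^ 2 := pow_le_pow_left₀ (hg0 k) hk3 2
        _ = 16 * E ^ 18 * σ ^ 2 := by ring
        _ = 16 * E ^ 18 * s := by rw [hσ2]
    have h2 : ((K1.filter fun k => g k ≤ 4 * E ^ 9 * σ).card : ℝ) ≤ K1.card := by
      exact_mod_cast Finset.card_le_card (Finset.filter_subset _ _)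
    calc (V.card : ℝ) ≤ _ := h1
      _ ≤ (2 * E ^ 6 * I.card) * (16 * E ^ 18 * s) :=
          mul_le_mul_of_nonneg_right (h2.trans hn1) (by positivity)
      _ = 32 * (E ^ 24 * (I.card * s)) := by ring
      _ = 32 * (E ^ 24 * A.card) := by rw [hAr]
      _ ≤ E * (E ^ 24 * A.card) := mul_le_mul_of_nonneg_right hE (by positivity)
      _ = E ^ 25 * A.card := by ring
  · -- counting pairs
    let L := (A ×ˢ A).filter fun z => ∃ y ∈ U1, y + y = z.1 + z.2
    let G := (A ×ˢ A).filter fun z => ∃ y ∈ V, y + y = z.1 + z.2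
    let B1 := (A ×ˢ A).filter fun z => ∃ y ∈ U1, y + y = z.1 + z.2 ∧
      ∃ k, y ∈ C k ∧ 2 * E ^ 4 * g k < σ
    let B2 := (A ×ˢ A).filter fun z => ∃ y ∈ U1, y + y = z.1 + z.2 ∧
      ∃ k, y ∈ C k ∧ 4 * E ^ 9 * σ < g k
    have hLsub : L ⊆ (B1 ∪ B2) ∪ G := by
      intro z hz
      obtain ⟨hz1, y, hy, hyz⟩ := Finset.mem_filter.mp hz
      obtain ⟨k, hk⟩ := hcov y hy
      rcases lt_or_ge (2 * E ^ 4 * g k) σ with h1 | h1
      · exact Finset.mem_union_left _ (Finset.mem_union_left _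
          (Finset.mem_filter.mpr ⟨hz1, y, hy, hyz, k, hk, h1⟩))
      · rcases lt_or_ge (4 * E ^ 9 * σ) (g k) with h2 | h2
        · exact Finset.mem_union_left _ (Finset.mem_union_right _
            (Finset.mem_filter.mpr ⟨hz1, y, hy, hyz, k, hk, h2⟩))
        · exact Finset.mem_union_right _ (Finset.mem_filter.mpr ⟨hz1, y,
            Finset.mem_filter.mpr ⟨hy, k, hk, h1, h2⟩, hyz⟩)
    have hLcard : (L.card : ℝ) ≤ B1.card + B2.card + G.card := by
      have h1 := (Finset.card_le_card hLsub).trans (Finset.card_union_le _ _)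
      have h2 := h1.trans (Nat.add_le_add_right (Finset.card_union_le B1 B2) _)
      exact_mod_cast h2
    -- B1
    have hB1 : 4 * E ^ 3 * (B1.card : ℝ) ≤ (A.card : ℝ) ^ 2 := by
      let Y : (Fin r → ℤ) → Finset (Fin r → ℤ) := fun w =>
        U1.filter fun y => ∃ w' ∈ A, y + y = w + w' ∧ ∃ k, y ∈ C k ∧ 2 * E ^ 4 * g k < σ
      have hsub : B1 ⊆ A.biUnion fun w => (Y w).image fun y => (w, y + y - w) := by
        intro z hz
        obtain ⟨hz1, y, hy, hyz, hk⟩ := Finset.mem_filter.mp hz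
        obtain ⟨hz2, hz3⟩ := Finset.mem_product.mp hz1
        refine Finset.mem_biUnion.mpr ⟨z.1, hz2, Finset.mem_image.mpr ⟨y, ?_, ?_⟩⟩
        · exact Finset.mem_filter.mpr ⟨hy, z.2, hz3, hyz, hk⟩
        · rw [hyz, add_sub_cancel_left]
      have hYc : ∀ w ∈ A, ((Y w).card : ℝ) ≤ I.card * (E ^ 4 * (s / (4 * E ^ 8))) := by
        intro w hw
        obtain ⟨i, _, hiw⟩ := hA w hw
        have hsub2 : Y w ⊆ I.biUnion fun j =>
            ((univ.filter fun k => ∃ w ∈ C i, ∃ w' ∈ C j, ∃ z ∈ C k,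
              z + z = w + w').filter fun k => 2 * E ^ 4 * g k < σ).biUnion
                fun k => U1 ∩ C k := by
          intro y hy
          obtain ⟨hy1, w', hw', hyw, k, hk, hk2⟩ := Finset.mem_filter.mp hy
          obtain ⟨j, hj, hjw⟩ := hA w' hw'
          refine Finset.mem_biUnion.mpr ⟨j, hj, Finset.mem_biUnion.mpr ⟨k, ?_,
            Finset.mem_inter.mpr ⟨hy1, hk⟩⟩⟩
          exact Finset.mem_filter.mpr ⟨Finset.mem_filter.mpr ⟨Finset.mem_univ _,
            w, hiw, w', hjw, y, hk, hyw⟩, hk2⟩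
        refine le_trans (by exact_mod_cast Finset.card_le_card hsub2)
          (card_biUnion_real _ _ _ ?_)
        intro j _
        refine le_trans (card_biUnion_real _ _ (s / (4 * E ^ 8)) ?_) ?_
        · intro k hk
          have hk2 := (Finset.mem_filter.mp hk).2
          rw [← hg2 k, le_div_iff₀ (by positivity)]
          calc g k ^ 2 * (4 * E ^ 8) = (2 * E ^ 4 * g k) ^ 2 := by ring
            _ ≤ σ ^ 2 := pow_le_pow_left₀ (mul_nonneg (by positivity) (hg0 k)) hk2.le 2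
            _ = s := hσ2
        · refine mul_le_mul_of_nonneg_right ?_ (by positivity)
          refine le_trans ?_ (mid1 i j)
          exact_mod_cast Finset.card_le_card (Finset.filter_subset _ _)
      have h1 : (B1.card : ℝ) ≤ A.card * (I.card * (E ^ 4 * (s / (4 * E ^ 8)))) := by
        refine le_trans (by exact_mod_cast Finset.card_le_card hsub) (card_biUnion_real _ _ _ ?_)
        intro w hw
        refine le_trans ?_ (hYc w hw)
        exact_mod_cast Finset.card_image_le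
      have h2 : 4 * E ^ 3 * (B1.card : ℝ) * E ≤ (A.card : ℝ) ^ 2 := by
        calc 4 * E ^ 3 * (B1.card : ℝ) * E
            ≤ 4 * E ^ 3 * ((A.card : ℝ) * (I.card * (E ^ 4 * (s / (4 * E ^ 8))))) * E := by
              refine mul_le_mul_of_nonneg_right ?_ hE0.le
              exact mul_le_mul_of_nonneg_left h1 (by positivity)
          _ = (A.card : ℝ) * (I.card * s) := by
              field_simp
          _ = (A.card : ℝ) ^ 2 := by rw [← hAr]; ring
      have h3 : 4 * E ^ 3 * (B1.card : ℝ) ≤ 4 * E ^ 3 * (B1.card : ℝ) * E := by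
        have h4 : 0 ≤ 4 * E ^ 3 * (B1.card : ℝ) := by positivity
        have h5 : (1 : ℝ) ≤ E := by linarith
        nlinarith
      exact h3.trans h2
    -- B2
    have hB2 : 4 * E ^ 3 * (B2.card : ℝ) ≤ (A.card : ℝ) ^ 2 := by
      have hsub : B2 ⊆ A.biUnion fun w' => K2.biUnion fun k =>
          ((univ.filter fun i => ∃ w ∈ C i, ∃ z ∈ C k, z + z = w + w').filter
            fun i => i ∈ I).biUnion fun i => (A ∩ C i).image fun w => (w, w') := by
        intro z hz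
        obtain ⟨hz1, y, hy, hyz, k, hk, hk2⟩ := Finset.mem_filter.mp hz
        obtain ⟨hz2, hz3⟩ := Finset.mem_product.mp hz1
        obtain ⟨i, hi, hiw⟩ := hA z.1 hz2
        refine Finset.mem_biUnion.mpr ⟨z.2, hz3, Finset.mem_biUnion.mpr ⟨k,
          Finset.mem_filter.mpr ⟨Finset.mem_univ _, hk2⟩, Finset.mem_biUnion.mpr ⟨i, ?_,
          Finset.mem_image.mpr ⟨z.1, Finset.mem_inter.mpr ⟨hz2, hiw⟩, rfl⟩⟩⟩⟩
        exact Finset.mem_filter.mpr ⟨Finset.mem_filter.mpr ⟨Finset.mem_univ _,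
          z.1, hiw, y, hk, hyz⟩, hi⟩
      have h1 : (B2.card : ℝ) ≤ A.card * (K2.card * (E ^ 4 * s)) := by
        refine le_trans (by exact_mod_cast Finset.card_le_card hsub) (card_biUnion_real _ _ _ ?_)
        intro w' _
        refine card_biUnion_real _ _ _ ?_
        intro k _
        refine le_trans (card_biUnion_real _ _ (s : ℝ) ?_) ?_
        · intro i hi
          have hiI := (Finset.mem_filter.mp hi).2
          refine le_trans (Nat.cast_le.mpr Finset.card_image_le) ?_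
          rw [hAc i hiI]
        · refine mul_le_mul_of_nonneg_right ?_ (by linarith)
          refine le_trans ?_ (mid2 k w')
          exact_mod_cast Finset.card_le_card (Finset.filter_subset _ _)
      calc 4 * E ^ 3 * (B2.card : ℝ) ≤ 4 * E ^ 3 * (A.card * (K2.card * (E ^ 4 * s))) :=
            mul_le_mul_of_nonneg_left h1 (by positivity)
        _ = A.card * s * (4 * E ^ 7 * K2.card) := by ring
        _ ≤ A.card * s * I.card := mul_le_mul_of_nonneg_left hn2 (by positivity)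
        _ = A.card * (I.card * s) := by ring
        _ = (A.card : ℝ) ^ 2 := by rw [← hAr]; ring
    -- conclusion
    show (A.card : ℝ) ^ 2 ≤ E ^ 4 * (G.card : ℝ)
    have hL' : (A.card : ℝ) ^ 2 ≤ E ^ 3 * (L.card : ℝ) := hL
    have hG0 : 0 ≤ (G.card : ℝ) := Nat.cast_nonneg _
    have hE3 : 0 < E ^ 3 := by positivity
    have h5 : (A.card : ℝ) ^ 2 ≤ 2 * (E ^ 3 * (G.card : ℝ)) := by
      have h6 : E ^ 3 * (L.card : ℝ) ≤ E ^ 3 * (B1.card + B2.card + G.card) :=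
        mul_le_mul_of_nonneg_left hLcard hE3.le
      nlinarith
    calc (A.card : ℝ) ^ 2 ≤ 2 * (E ^ 3 * (G.card : ℝ)) := h5
      _ ≤ E * (E ^ 3 * (G.card : ℝ)) :=
          mul_le_mul_of_nonneg_right (by linarith) (by positivity)
      _ = E ^ 4 * (G.card : ℝ) := by ring

end ENG_

open ENG_ in
theorem eng_proof (h1 : Stmt_LTM) (h2 : Stmt_MID) (h3 : Stmt_LNK) : Stmt_ENG := by
  refine ⟨4, ?_⟩
  intro Z hZ r m κ τ N T x C U Φ0 hr hd hκ hlκ hch hN hvol hcell hΦ0 hΦ hm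
  have hZr : (4 : ℝ) ≤ Z := by exact_mod_cast hZ
  set E := Real.exp (Z : ℝ) with hE
  have hE0 : 0 < E := Real.exp_pos _
  have hE54 : 54 ≤ E := by
    have h4 : Real.exp 4 ≤ E := Real.exp_le_exp.mpr hZr
    have h5 : (54 : ℝ) ≤ Real.exp 4 := by
      have h6 : Real.exp 4 = Real.exp 1 ^ 4 := by
        rw [← Real.exp_nat_mul]; norm_num
      have h7 : (2.7182818283 : ℝ) < Real.exp 1 := Real.exp_one_gt_d9
      rw [h6]
      calc (54 : ℝ) ≤ (2.7182818283 : ℝ) ^ 4 := by norm_num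
        _ ≤ Real.exp 1 ^ 4 := pow_le_pow_left₀ (by norm_num) h7.le 4
    exact h5.trans h4
  have hEk : ∀ k : ℕ, Real.exp ((k : ℝ) * Z) = E ^ k := fun k => by
    rw [hE, ← Real.exp_nat_mul]
  have hE2 : Real.exp (2 * (Z : ℝ)) = E ^ 2 := by exact_mod_cast hEk 2
  have hE25 : Real.exp (25 * (Z : ℝ)) = E ^ 25 := by exact_mod_cast hEk 25
  have hE10 : Real.exp (10 * (Z : ℝ)) = E ^ 10 := by exact_mod_cast hEk 10
  have hE4 : Real.exp (4 * (Z : ℝ)) = E ^ 4 := by exact_mod_cast hEk 4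
  -- powers
  have hpw : ∀ (b : ℝ) (c n : ℕ), 1 ≤ b → b ≤ Real.exp c → n ≤ Z → b ^ n ≤ E ^ c := by
    intro b c n hb hbc hn
    calc b ^ n ≤ b ^ Z := pow_le_pow_right₀ hb hn
      _ ≤ (Real.exp c) ^ Z := pow_le_pow_left₀ (by linarith) hbc Z
      _ = E ^ c := by
          rw [← Real.exp_nat_mul, ← hEk c, mul_comm]
  have he1 : (2.7182818283 : ℝ) < Real.exp 1 := Real.exp_one_gt_d9
  have hexp1 : ∀ c : ℕ, Real.exp (c : ℝ) = Real.exp 1 ^ c := fun c => by
    rw [← Real.exp_nat_mul, mul_one]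
  have h48 : (48 : ℝ) ≤ Real.exp ((4 : ℕ) : ℝ) := by
    rw [hexp1]
    calc (48 : ℝ) ≤ (2.7182818283 : ℝ) ^ 4 := by norm_num
      _ ≤ Real.exp 1 ^ 4 := pow_le_pow_left₀ (by norm_num) he1.le 4
  have h2e : (2 : ℝ) ≤ Real.exp ((1 : ℕ) : ℝ) := by
    rw [hexp1, pow_one]; linarith
  have h4e : (4 : ℝ) ≤ Real.exp ((2 : ℕ) : ℝ) := by
    rw [hexp1]
    calc (4 : ℝ) ≤ (2.7182818283 : ℝ) ^ 2 := by norm_num
      _ ≤ Real.exp 1 ^ 2 := pow_le_pow_left₀ (by norm_num) he1.le 2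
  have hκ0 : (0 : ℝ) < κ := by exact_mod_cast (by omega : 0 < κ)
  have hκE : (κ : ℝ) ≤ E := by
    rw [← Real.exp_log hκ0]
    exact Real.exp_le_exp.mpr hlκ
  have hκ2 : (κ : ℝ) ^ 2 ≤ E ^ 2 := pow_le_pow_left₀ hκ0.le hκE 2
  -- LTM
  have hvol0 : 0 < vol N := by
    unfold vol
    exact Finset.prod_pos fun l _ => by exact_mod_cast hN l
  have hlog2 : (0.6931471803 : ℝ) < Real.log 2 := Real.log_two_gt_d9
  have hCL : 2 * (Real.log (vol N) / Real.log 2 + 1) ≤ E ^ 2 := by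
    have h4 : Real.log (vol N) ≤ E := by
      rw [Real.log_le_iff_le_exp hvol0]
      exact hvol
    have h5 : Real.log (vol N) / Real.log 2 ≤ 2 * E := by
      rw [div_le_iff₀ (by linarith)]
      nlinarith
    nlinarith
  obtain ⟨t, s, I, hτ, hlast, hs, hIs, hlev⟩ :=
    h1 r m N C U τ Φ0 (E ^ 2) hch.sub hch.fin hΦ0 hΦ hCL
  -- the set A
  have hsel : ∀ i : Fin m, ∃ S : Finset (Fin r → ℤ), i ∈ I → (S ⊆ U t ∩ C i ∧ S.card = s) := by
    intro i
    by_cases hi : i ∈ I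
    · obtain ⟨S, hS1, hS2⟩ := Finset.exists_subset_card_eq (hIs i hi)
      exact ⟨S, fun _ => ⟨hS1, hS2⟩⟩
    · exact ⟨∅, fun h => absurd h hi⟩
  choose S hS using hsel
  set A : Finset (Fin r → ℤ) := I.biUnion S with hAdef
  have hAU : A ⊆ U t := by
    intro w hw
    obtain ⟨i, hi, hwi⟩ := Finset.mem_biUnion.mp hw
    exact (Finset.mem_inter.mp ((hS i hi).1 hwi)).1
  have hAI : ∀ w ∈ A, ∃ i ∈ I, w ∈ C i := by
    intro w hw
    obtain ⟨i, hi, hwi⟩ := Finset.mem_biUnion.mp hw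
    exact ⟨i, hi, (Finset.mem_inter.mp ((hS i hi).1 hwi)).2⟩
  have hSd : ∀ i ∈ I, ∀ j ∈ I, i ≠ j → Disjoint (S i) (S j) := by
    intro i hi j hj hij
    refine Finset.disjoint_of_subset_left (fun w hw => (Finset.mem_inter.mp ((hS i hi).1 hw)).2)
      (Finset.disjoint_of_subset_right (fun w hw => (Finset.mem_inter.mp ((hS j hj).1 hw)).2)
        (hcell.disj i j hij))
  have hAc0 : ∀ i ∈ I, A ∩ C i = S i := by
    intro i hi
    apply Finset.Subset.antisymm
    · intro w hw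
      obtain ⟨hw1, hw2⟩ := Finset.mem_inter.mp hw
      obtain ⟨j, hj, hwj⟩ := Finset.mem_biUnion.mp hw1
      by_cases hij : i = j
      · subst hij; exact hwj
      · exfalso
        have h4 := (Finset.mem_inter.mp ((hS j hj).1 hwj)).2
        exact Finset.disjoint_left.mp (hcell.disj i j hij) hw2 h4
    · intro w hw
      exact Finset.mem_inter.mpr ⟨Finset.mem_biUnion.mpr ⟨i, hi, hw⟩,
        (Finset.mem_inter.mp ((hS i hi).1 hw)).2⟩
  have hAc : ∀ i ∈ I, (A ∩ C i).card = s := fun i hi => by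
    rw [hAc0 i hi]; exact (hS i hi).2
  have hAcard : A.card = I.card * s := by
    rw [hAdef, Finset.card_biUnion hSd, Finset.sum_congr rfl fun i hi => (hS i hi).2,
      Finset.sum_const, smul_eq_mul]
  -- A is large
  have hs1 : (1 : ℝ) ≤ s := by exact_mod_cast hs
  have hIm : (I.card : ℝ) ≤ m := by
    have := Finset.card_le_univ I
    rw [Fintype.card_fin] at this
    exact_mod_cast this
  have hm0 : 0 < (m : ℝ) := by
    rcases Nat.eq_zero_or_pos m with h | h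
    · exfalso
      subst h
      have : Phi C U τ = 0 := by
        unfold Phi
        exact Finset.sum_of_isEmpty _
      linarith
    · exact_mod_cast h
  have hAr : (A.card : ℝ) = I.card * s := by
    rw [hAcard]; push_cast; rfl
  have hAbig : E ^ 6 ≤ (A.card : ℝ) := by
    have h4 : Φ0 ^ 2 ≤ (E ^ 2 * (I.card : ℝ) * Real.sqrt s) ^ 2 :=
      pow_le_pow_left₀ hΦ0.le hlev 2
    have h5 : (E ^ 2 * (I.card : ℝ) * Real.sqrt s) ^ 2 = E ^ 4 * (I.card * (A.card : ℝ)) := by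
      rw [hAr, mul_pow, mul_pow, Real.sq_sqrt (by linarith)]
      ring
    have h6 : E ^ 10 * (m : ℝ) ≤ E ^ 4 * (I.card * (A.card : ℝ)) := by
      rw [← h5, ← hE10]
      exact hm.trans h4
    have h7 : E ^ 4 * (I.card * (A.card : ℝ)) ≤ E ^ 4 * (m * (A.card : ℝ)) :=
      mul_le_mul_of_nonneg_left (mul_le_mul_of_nonneg_right hIm (Nat.cast_nonneg _))
        (by positivity)
    have h8 : (E ^ 4 * m) * E ^ 6 ≤ (E ^ 4 * m) * (A.card : ℝ) := by
      calc (E ^ 4 * m) * E ^ 6 = E ^ 10 * (m : ℝ) := by ring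
        _ ≤ E ^ 4 * (m * (A.card : ℝ)) := h6.trans h7
        _ = (E ^ 4 * m) * (A.card : ℝ) := by ring
    exact le_of_mul_le_mul_left h8 (by positivity)
  -- LNK
  have hcond : 2 * 4 ^ r * (κ : ℝ) ^ 2 ≤ (A.card : ℝ) ^ 2 := by
    have h4 : (4 : ℝ) ^ r ≤ E ^ 2 := hpw 4 2 r (by norm_num) h4e hr
    calc 2 * 4 ^ r * (κ : ℝ) ^ 2 ≤ E * E ^ 2 * E ^ 2 := by
          refine mul_le_mul ?_ hκ2 (by positivity) (by positivity)
          exact mul_le_mul (by linarith) h4 (by positivity) hE0.le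
      _ = E ^ 5 := by ring
      _ ≤ E ^ 12 := pow_le_pow_right₀ (by linarith) (by norm_num)
      _ = (E ^ 6) ^ 2 := by ring
      _ ≤ (A.card : ℝ) ^ 2 := pow_le_pow_left₀ (by positivity) hAbig 2
  have hlnk := h3 r κ t N U A hκ hch hAU hcond
  have hL : (A.card : ℝ) ^ 2 ≤
      E ^ 3 * (((A ×ˢ A).filter fun z => ∃ y ∈ U (t + 1), y + y = z.1 + z.2).card : ℝ) := by
    refine hlnk.trans (mul_le_mul_of_nonneg_right ?_ (Nat.cast_nonneg _))
    have h4 : (2 : ℝ) ^ r ≤ E ^ 1 := hpw 2 1 r (by norm_num) h2e hr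
    calc (κ : ℝ) ^ 2 * 2 ^ r ≤ E ^ 2 * E ^ 1 := mul_le_mul hκ2 h4 (by positivity) (by positivity)
      _ = E ^ 3 := by ring
  -- MID
  obtain ⟨hm1, hm2⟩ := h2 r m N T x C hcell
  have h48d : (48 : ℝ) ^ T.d ≤ E ^ 4 := hpw 48 4 T.d (by norm_num) h48 hd
  have h24d : (24 : ℝ) ^ T.d ≤ E ^ 4 := by
    refine le_trans (pow_le_pow_left₀ (by norm_num) (by norm_num) _) h48d
  obtain ⟨V, hV1, hV2⟩ := core C (U (t + 1)) A I s E (by linarith) hs
    (fun w hw => hcell.cover w (hch.sub _ hw)) hAI hAc hAcard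
    (fun i j => le_trans (by exact_mod_cast hm1 i j) h48d)
    (fun k w' => le_trans (by exact_mod_cast hm2 k w') h24d)
    (((hlast (t + 1) (Nat.lt_succ_self t)).le).trans hlev)
    (hL.trans_eq (congrArg (fun n : ℕ => E ^ 3 * (n : ℝ)) (card_filter_inst _ _ _ _)))
  refine ⟨t, s, I, A, V, hτ, hlast, hs, hAU, hAI, hAc, hAcard, ?_, ?_, ?_⟩
  · rw [hE2]; exact hlev
  · rw [hE25]; exact hV1
  · rw [Real.exp_neg, hE4, inv_mul_le_iff₀ (by positivity)]
    exact hV2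

end Pool.Agent.EMS
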