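import Pool.Agent.EMS.StmtsC

/-!
Squad EMS, module EVO: the evolution lemma.
-/

set_option autoImplicit false

open Finset
open scoped BigOperators Classical

namespace Pool.Agent.EMS

namespace EVO_

theorem card_box {r : ℕ} (N : Fin r → ℕ) : ((box N).card : ℝ) = vol N := by
  unfold box vol
  rw [Fintype.card_piFinset]
  push_cast
  apply Finset.prod_congr rfl
  intro l _
  simp

theorem box_zero {r : ℕ} (N : Fin r → ℕ) : (box fun l => 2 ^ 0 * N l) = box N := by
  congr 1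
  funext l
  simp

theorem vol_nonneg {r : ℕ} (N : Fin r → ℕ) : 0 ≤ vol N :=
  Finset.prod_nonneg fun _ _ => Nat.cast_nonneg _

theorem Ck_nonneg (κ : ℕ) (hκ : 2 ≤ κ) : 0 ≤ Ck κ := by
  unfold Ck
  have h1 : (2 : ℝ) ≤ κ := by exact_mod_cast hκ
  have h2 : (1 : ℝ) ≤ 40 * (κ : ℝ) ^ 2 := by nlinarith
  have h3 := Real.log_nonneg h2
  linarith

/-- the slices of the point set -/
theorem sum_slices {r B n : ℕ} (P : TG r B n) (c : Fin r → ℤ) (V : Finset (Fin r → ℤ)) :
    ((V ∩ P.set c).card : ℝ) ≤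
      ∑ u ∈ box P.M1, ((EE P.φ2 (c + P.φ1 u) P.M2 0 V).card : ℝ) := by
  have h1 : (V ∩ P.set c).card ≤
      ((box P.M1 ×ˢ box P.M2).filter fun z => c + P.φ1 z.1 + P.φ2 z.2 ∈ V).card := by
    have hsub : V ∩ P.set c ⊆ ((box P.M1 ×ˢ box P.M2).filter
        fun z => c + P.φ1 z.1 + P.φ2 z.2 ∈ V).image
          (fun z => c + P.φ1 z.1 + P.φ2 z.2) := by
      intro w hw
      rw [Finset.mem_inter] at hw
      obtain ⟨hw1, hw2⟩ := hw
      unfold TG.set at hw2
      rw [Finset.mem_image] at hw2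
      obtain ⟨z, hz, hzw⟩ := hw2
      rw [Finset.mem_image]
      refine ⟨z, ?_, hzw⟩
      rw [Finset.mem_filter]
      refine ⟨hz, ?_⟩
      rw [hzw]
      exact hw1
    exact (Finset.card_le_card hsub).trans Finset.card_image_le
  have h2 : ((box P.M1 ×ˢ box P.M2).filter fun z => c + P.φ1 z.1 + P.φ2 z.2 ∈ V).card =
      ∑ u ∈ box P.M1, ((box P.M2).filter fun x => c + P.φ1 u + P.φ2 x ∈ V).card := by
    rw [Finset.card_filter, Finset.sum_product]
    apply Finset.sum_congr rfl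
    intro u _
    rw [Finset.card_filter]
  have h3 : ∀ u ∈ box P.M1, ((box P.M2).filter fun x => c + P.φ1 u + P.φ2 x ∈ V).card ≤
      (EE P.φ2 (c + P.φ1 u) P.M2 0 V).card := by
    intro u _
    apply Finset.card_le_card
    intro x hx
    rw [Finset.mem_filter] at hx
    unfold EE
    rw [box_zero, Finset.mem_filter]
    refine ⟨hx.1, _, hx.2, ?_⟩
    simp
  have h4 : (V ∩ P.set c).card ≤ ∑ u ∈ box P.M1, (EE P.φ2 (c + P.φ1 u) P.M2 0 V).card :=
    h1.trans (h2.le.trans (Finset.sum_le_sum h3))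
  exact_mod_cast h4

/-- upper bound for the thin volume -/
theorem vol_thin {r B n : ℕ} (P : TG r B n) : vol P.M1 ≤ (B : ℝ) ^ ((n + 1) * P.a) := by
  unfold vol
  have h1 : ∏ l, (P.M1 l : ℝ) ≤ ∏ _l : Fin P.a, (B : ℝ) ^ (n + 1) := by
    apply Finset.prod_le_prod
    · intro l _
      exact Nat.cast_nonneg _
    · intro l _
      exact_mod_cast (P.thin l).le
  have h2 : ∏ _l : Fin P.a, (B : ℝ) ^ (n + 1) = (B : ℝ) ^ ((n + 1) * P.a) := by
    rw [Finset.prod_const, Finset.card_univ, Fintype.card_fin, ← pow_mul]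
  rw [← h2]
  exact h1

theorem vol_thin_pos {r B n : ℕ} (P : TG r B n) : 0 < vol P.M1 :=
  Finset.prod_pos fun l _ => by exact_mod_cast (P.pos l)

theorem vol_thick_pos {r B n : ℕ} (P : TG r B n) (hB : 2 ≤ B) : 0 < vol P.M2 :=
  Finset.prod_pos fun l _ => by
    have : 0 < B ^ P.k l := pow_pos (by omega) _
    exact_mod_cast this

/-- lower bound for the thick volume -/
theorem vol_thick {r B n κ : ℕ} (P : TG r B n) (hB : 2 ≤ B)
    (hv : 100 * (κ : ℝ) ^ 2 * (B : ℝ) ^ (2 * (n + 1) * (P.a + P.b)) * Real.exp n ≤ P.v) :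
    100 * (κ : ℝ) ^ 2 * (B : ℝ) ^ (n * P.b) * Real.exp n ≤ vol P.M2 := by
  have hB1 : (1 : ℝ) ≤ B := by
    have : 1 ≤ B := by omega
    exact_mod_cast this
  have h1 : (B : ℝ) ^ (n * P.b) * (B : ℝ) ^ ((n + 1) * P.a) ≤
      (B : ℝ) ^ (2 * (n + 1) * (P.a + P.b)) := by
    rw [← pow_add]
    apply pow_le_pow_right₀ hB1
    nlinarith [Nat.zero_le P.a, Nat.zero_le P.b, Nat.zero_le n, Nat.zero_le (n * P.b),
      Nat.zero_le (n * P.a)]
  have h2 : 100 * (κ : ℝ) ^ 2 * (B : ℝ) ^ (n * P.b) * Real.exp n * (B : ℝ) ^ ((n + 1) * P.a) ≤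
      vol P.M2 * (B : ℝ) ^ ((n + 1) * P.a) := by
    calc 100 * (κ : ℝ) ^ 2 * (B : ℝ) ^ (n * P.b) * Real.exp n * (B : ℝ) ^ ((n + 1) * P.a)
        = 100 * (κ : ℝ) ^ 2 * ((B : ℝ) ^ (n * P.b) * (B : ℝ) ^ ((n + 1) * P.a)) *
            Real.exp n := by ring
      _ ≤ 100 * (κ : ℝ) ^ 2 * (B : ℝ) ^ (2 * (n + 1) * (P.a + P.b)) * Real.exp n := by
          have := (Real.exp_pos n).le
          gcongr
      _ ≤ P.v := hv
      _ = vol P.M2 * vol P.M1 := by unfold TG.v; ring
      _ ≤ vol P.M2 * (B : ℝ) ^ ((n + 1) * P.a) :=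
          mul_le_mul_of_nonneg_left (vol_thin P) (vol_nonneg _)
  have h3 : (0 : ℝ) < (B : ℝ) ^ ((n + 1) * P.a) := by positivity
  exact le_of_mul_le_mul_right h2 h3

theorem b_pos {r B n κ : ℕ} (P : TG r B n) (hB : 2 ≤ B) (hn : 1 ≤ n) (hκ : 2 ≤ κ)
    (hv : 100 * (κ : ℝ) ^ 2 * (B : ℝ) ^ (2 * (n + 1) * (P.a + P.b)) * Real.exp n ≤ P.v) :
    1 ≤ P.b := by
  by_contra h
  have hb : P.b = 0 := by omega
  have h1 := vol_thick P hB hv
  have h2 : vol P.M2 = 1 := by
    unfold vol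
    apply Finset.prod_eq_one
    intro l
    exact absurd l.2 (by omega)
  rw [h2, hb, mul_zero, pow_zero, mul_one] at h1
  have h3 : (1 : ℝ) ≤ Real.exp n := Real.one_le_exp (Nat.cast_nonneg n)
  have h4 : (2 : ℝ) ≤ κ := by exact_mod_cast hκ
  nlinarith

/-- one slice -/
theorem slice (hL : Stmt_LRR) (hI : Stmt_IOT) {r B n κ Δ t : ℕ} (P : TG r B n)
    (c : Fin r → ℤ) (N : Fin r → ℕ) (U : ℕ → Finset (Fin r → ℤ)) (y : ℝ)
    (hB3 : 10 ^ 4 * P.b ^ 3 ≤ B) (hB : 2 ≤ B) (hn : 1 ≤ n) (hκ : 2 ≤ κ) (hU : Chain κ N U)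
    (hy : 0 ≤ y) (hny : 2 * y + 2 + Δ * Ck κ ≤ n / 8)
    (hv : 100 * (κ : ℝ) ^ 2 * (B : ℝ) ^ (2 * (n + 1) * (P.a + P.b)) * Real.exp n ≤ P.v)
    (A : ℝ) (hA : A = ((EE P.φ2 c P.M2 0 (U t)).card : ℝ))
    (hA1 : Real.exp (-y) / 2 * vol P.M2 ≤ A) :
    ∀ i : ℕ, i ≤ Δ → A * Real.exp (-(i * Ck κ)) * (iota P.φ2 i : ℝ) ≤
      ((EE P.φ2 c P.M2 i (U (t + i))).card : ℝ) := by
  have hV := vol_thick_pos P hB
  have hC := Ck_nonneg κ hκ
  have hAV : A ≤ vol P.M2 := by
    rw [hA, ← card_box]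
    have : (EE P.φ2 c P.M2 0 (U t)).card ≤ (box P.M2).card := by
      unfold EE
      rw [box_zero]
      exact Finset.card_filter_le _ _
    exact_mod_cast this
  have hA0 : 0 < A := lt_of_lt_of_le (by positivity) hA1
  intro i
  induction i with
  | zero =>
    intro _
    rw [(hI P.b r 0 P.φ2).2.2]
    simp [hA]
  | succ i ih =>
    intro hi
    have ih' := ih (by omega)
    set a : ℝ := A / vol P.M2 * Real.exp (-(i * Ck κ)) with ha
    have hiC : 0 ≤ (i : ℝ) * Ck κ := mul_nonneg (Nat.cast_nonneg i) hC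
    have ha0 : 0 < a := by
      rw [ha]
      positivity
    have ha1 : a ≤ 1 := by
      rw [ha]
      have h1 : A / vol P.M2 ≤ 1 := (div_le_one hV).2 hAV
      have h2 : Real.exp (-(i * Ck κ)) ≤ 1 := by
        rw [Real.exp_le_one_iff]
        linarith
      calc A / vol P.M2 * Real.exp (-(i * Ck κ)) ≤ 1 * 1 := by
            apply mul_le_mul h1 h2 (Real.exp_pos _).le zero_le_one
        _ = 1 := one_mul 1
    have hiD : (i : ℝ) * Ck κ ≤ Δ * Ck κ := by
      apply mul_le_mul_of_nonneg_right _ hC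
      exact_mod_cast (by omega : i ≤ Δ)
    have hlow : Real.exp (-(n / 8 : ℝ)) ≤ a := by
      have h1 : Real.exp (-y) / 2 ≤ A / vol P.M2 := by
        rw [le_div_iff₀ hV]
        exact hA1
      have h2 : Real.exp (-y - 1) ≤ Real.exp (-y) / 2 := by
        rw [Real.exp_sub, div_le_div_iff_of_pos_left (Real.exp_pos _) (Real.exp_pos _) (by norm_num)]
        have := Real.add_one_le_exp (1 : ℝ)
        linarith
      calc Real.exp (-(n / 8 : ℝ)) ≤ Real.exp (-y - 1 + -(i * Ck κ)) := by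
            apply Real.exp_le_exp.2
            linarith
        _ = Real.exp (-y - 1) * Real.exp (-(i * Ck κ)) := Real.exp_add _ _
        _ ≤ A / vol P.M2 * Real.exp (-(i * Ck κ)) := by
            apply mul_le_mul_of_nonneg_right (h2.trans h1) (Real.exp_pos _).le
        _ = a := ha.symm
    have hloga : Real.log (1 / a) ≤ n / 8 := by
      rw [one_div, Real.log_inv]
      have := Real.log_le_log (Real.exp_pos _) hlow
      rw [Real.log_exp] at this
      linarith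
    have hn0 : (0 : ℝ) < n := by exact_mod_cast (by omega : 0 < n)
    have hmain := hL P.b r B n κ P.φ2 c P.k N U (t + i) i a (b_pos P hB hn hκ hv) hB3 hn hκ hU
      P.thick (by
        intro u hu h0
        refine (P.proper 0 u ?_ ?_ ?_).2
        · intro l
          simp
        · intro l
          have h1 := (hu l).le
          have h2 : (0 : ℤ) ≤ (B : ℤ) ^ P.k l := by positivity
          linarith
        · rw [map_zero, zero_add]
          exact h0) ha0 ha1 (by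
        have e1 : a * (iota P.φ2 i : ℝ) * vol (fun l => B ^ P.k l) =
            A * Real.exp (-(i * Ck κ)) * (iota P.φ2 i : ℝ) := by
          have e2 : vol (fun l => B ^ P.k l) = vol P.M2 := rfl
          rw [e2, ha]
          field_simp
        rw [e1]
        exact ih') (by
        have e2 : vol (fun l => B ^ P.k l) = vol P.M2 := rfl
        rw [e2]
        refine le_trans ?_ (vol_thick P hB hv)
        rw [div_le_iff₀ ha0]
        have h5 : Real.exp n * Real.exp (-(n / 8 : ℝ)) ≤ Real.exp n * a :=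
          mul_le_mul_of_nonneg_left hlow (Real.exp_pos _).le
        have h6 : (1 : ℝ) ≤ Real.exp n * Real.exp (-(n / 8 : ℝ)) := by
          rw [← Real.exp_add]
          apply Real.one_le_exp
          linarith
        have h7 : (1 : ℝ) ≤ Real.exp n * a := h6.trans h5
        have h8 : (0 : ℝ) ≤ (κ : ℝ) ^ 2 * (B : ℝ) ^ (n * P.b) := by positivity
        calc 12 * (κ : ℝ) ^ 2 * (B : ℝ) ^ (n * P.b)
            ≤ 100 * ((κ : ℝ) ^ 2 * (B : ℝ) ^ (n * P.b)) * 1 := by nlinarith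
          _ ≤ 100 * ((κ : ℝ) ^ 2 * (B : ℝ) ^ (n * P.b)) * (Real.exp n * a) := by
              apply mul_le_mul_of_nonneg_left h7 (by positivity)
          _ = 100 * (κ : ℝ) ^ 2 * (B : ℝ) ^ (n * P.b) * Real.exp n * a := by ring)
    have e3 : t + i + 1 = t + (i + 1) := by ring
    rw [e3] at hmain
    refine le_trans ?_ hmain
    have hκ0 : (0 : ℝ) < κ := by exact_mod_cast (by omega : 0 < κ)
    have h9 : Real.exp (-(1 : ℝ)) ≤ Real.exp (-(8 * (Real.log (1 / a) / n))) := by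
      apply Real.exp_le_exp.2
      have h10 : Real.log (1 / a) / n ≤ 1 / 8 := by
        rw [div_le_iff₀ hn0]
        linarith
      linarith
    have h11 : Real.exp (-(Ck κ)) = Real.exp (-(1 : ℝ)) / (40 * (κ : ℝ) ^ 2) := by
      unfold Ck
      rw [neg_add, Real.exp_add, Real.exp_neg (Real.log _), Real.exp_log (by positivity)]
      field_simp
    have e4 : Real.exp (-(((i + 1 : ℕ) : ℝ) * Ck κ)) =
        Real.exp (-(i * Ck κ)) * Real.exp (-(Ck κ)) := by
      rw [← Real.exp_add]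
      congr 1
      push_cast
      ring
    have e5 : vol (fun l => B ^ P.k l) = vol P.M2 := rfl
    rw [e4, h11, e5]
    have e6 : A * (Real.exp (-(i * Ck κ)) * (Real.exp (-(1 : ℝ)) / (40 * (κ : ℝ) ^ 2))) *
        (iota P.φ2 (i + 1) : ℝ) =
        (iota P.φ2 (i + 1) : ℝ) * vol P.M2 * a * Real.exp (-(1 : ℝ)) / (40 * (κ : ℝ) ^ 2) := by
      rw [ha]
      field_simp
    rw [e6]
    have h12 : (0 : ℝ) ≤ (iota P.φ2 (i + 1) : ℝ) * vol P.M2 * a := by positivity
    gcongr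

end EVO_

open EVO_ in
theorem evo_proof (h1 : Stmt_LRR) (h2 : Stmt_IOT) : Stmt_EVO := by
  intro r B n κ Δ t P c N U y hB3 hB hn hκ hU hy hny hv hden
  have hC := Ck_nonneg κ hκ
  have hV2 := vol_thick_pos P hB
  have hV1 := vol_thin_pos P
  set A : (Fin P.a → ℤ) → ℝ := fun u => ((EE P.φ2 (c + P.φ1 u) P.M2 0 (U t)).card : ℝ) with hA
  have hsum : Real.exp (-y) * P.v ≤ ∑ u ∈ box P.M1, A u := hden.trans (sum_slices P c (U t))
  set G : Finset (Fin P.a → ℤ) :=
    (box P.M1).filter fun u => Real.exp (-y) / 2 * vol P.M2 ≤ A u with hG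
  have hsplit : ∑ u ∈ G, A u + ∑ u ∈ (box P.M1).filter
      (fun u => ¬ (Real.exp (-y) / 2 * vol P.M2 ≤ A u)), A u = ∑ u ∈ box P.M1, A u :=
    Finset.sum_filter_add_sum_filter_not _ _ _
  have hbad : ∑ u ∈ (box P.M1).filter
      (fun u => ¬ (Real.exp (-y) / 2 * vol P.M2 ≤ A u)), A u ≤ Real.exp (-y) / 2 * P.v := by
    calc ∑ u ∈ (box P.M1).filter (fun u => ¬ (Real.exp (-y) / 2 * vol P.M2 ≤ A u)), A u
        ≤ ∑ _u ∈ (box P.M1).filter (fun u => ¬ (Real.exp (-y) / 2 * vol P.M2 ≤ A u)),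
            Real.exp (-y) / 2 * vol P.M2 := by
          apply Finset.sum_le_sum
          intro u hu
          rw [Finset.mem_filter, not_le] at hu
          exact hu.2.le
      _ ≤ ∑ _u ∈ box P.M1, Real.exp (-y) / 2 * vol P.M2 := by
          apply Finset.sum_le_sum_of_subset_of_nonneg (Finset.filter_subset _ _)
          intro u _ _
          positivity
      _ = Real.exp (-y) / 2 * P.v := by
          rw [Finset.sum_const, nsmul_eq_mul, card_box]
          unfold TG.v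
          ring
  have hgood : Real.exp (-y) / 2 * P.v ≤ ∑ u ∈ G, A u := by linarith
  have hstep : ∀ u ∈ G, A u * Real.exp (-(Δ * Ck κ)) * (iota P.φ2 Δ : ℝ) ≤
      ((EE P.φ2 (c + P.φ1 u) P.M2 Δ (U (t + Δ))).card : ℝ) := by
    intro u hu
    rw [hG, Finset.mem_filter] at hu
    exact slice h1 h2 P (c + P.φ1 u) N U y hB3 hB hn hκ hU hy hny hv (A u) rfl hu.2 Δ le_rfl
  have hPv : 0 < P.v := by
    unfold TG.v
    positivity
  have he : Real.exp (-y - 1) ≤ Real.exp (-y) / 2 := by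
    rw [Real.exp_sub, div_le_div_iff_of_pos_left (Real.exp_pos _) (Real.exp_pos _) (by norm_num)]
    have := Real.add_one_le_exp (1 : ℝ)
    linarith
  calc Real.exp (-y - 1 - Δ * Ck κ) * (iota P.φ2 Δ : ℝ) * P.v
      = (Real.exp (-y - 1) * P.v) * (Real.exp (-(Δ * Ck κ)) * (iota P.φ2 Δ : ℝ)) := by
        have : Real.exp (-y - 1 - Δ * Ck κ) = Real.exp (-y - 1) * Real.exp (-(Δ * Ck κ)) := by
          rw [← Real.exp_add]
          congr 1
        rw [this]
        ring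
    _ ≤ (Real.exp (-y) / 2 * P.v) * (Real.exp (-(Δ * Ck κ)) * (iota P.φ2 Δ : ℝ)) := by
        apply mul_le_mul_of_nonneg_right _ (by positivity)
        exact mul_le_mul_of_nonneg_right he hPv.le
    _ ≤ (∑ u ∈ G, A u) * (Real.exp (-(Δ * Ck κ)) * (iota P.φ2 Δ : ℝ)) :=
        mul_le_mul_of_nonneg_right hgood (by positivity)
    _ = ∑ u ∈ G, A u * Real.exp (-(Δ * Ck κ)) * (iota P.φ2 Δ : ℝ) := by
        rw [Finset.sum_mul]
        apply Finset.sum_congr rfl
        intro u _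
        ring
    _ ≤ ∑ u ∈ G, ((EE P.φ2 (c + P.φ1 u) P.M2 Δ (U (t + Δ))).card : ℝ) := Finset.sum_le_sum hstep
    _ ≤ ∑ u ∈ box P.M1, ((EE P.φ2 (c + P.φ1 u) P.M2 Δ (U (t + Δ))).card : ℝ) := by
        apply Finset.sum_le_sum_of_subset_of_nonneg (Finset.filter_subset _ _)
        intro u _ _
        exact Nat.cast_nonneg _

end Pool.Agent.EMS
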