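import Pool.Agent.EMS.StmtsD

set_option autoImplicit false

/-!
Module FIN: from sets of positive integers to sets of integers.
-/

open Finset
open scoped BigOperators Classical

namespace Pool.Agent.EMS

namespace FIN_

/-- positive part of a set of integers, as a set of natural numbers -/
noncomputable def pos (B : Finset ℤ) : Finset ℕ := (B.filter fun x => 0 < x).image Int.toNat

theorem mem_pos {B : Finset ℤ} {n : ℕ} : n ∈ pos B ↔ 0 < n ∧ (n : ℤ) ∈ B := by
  unfold pos
  rw [Finset.mem_image]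
  constructor
  · rintro ⟨x, hx, rfl⟩
    rw [Finset.mem_filter] at hx
    refine ⟨by omega, ?_⟩
    rw [Int.toNat_of_nonneg hx.2.le]
    exact hx.1
  · rintro ⟨h1, h2⟩
    exact ⟨(n : ℤ), Finset.mem_filter.2 ⟨h2, by exact_mod_cast h1⟩, Int.toNat_natCast n⟩

theorem crd_pos (B : Finset ℤ) : (pos B).card = (B.filter fun x => 0 < x).card := by
  unfold pos
  refine Finset.card_image_of_injOn ?_
  intro x hx y hy h
  have h1 := (Finset.mem_filter.1 (Finset.mem_coe.1 hx)).2
  have h2 := (Finset.mem_filter.1 (Finset.mem_coe.1 hy)).2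
  omega

theorem core {n0 : ℕ} (h : ∀ A : Finset ℕ, n0 ≤ A.card → (∀ a ∈ A, 0 < a) → ∀ κ : ℕ, 2 ≤ κ →
    (κ : ℝ) ≤ (Real.log (2 * (A.card : ℝ) + 1)) ^ (100 : ℕ) + 1 →
    ∃ S ⊆ A, κ ≤ S.card ∧ ∀ s ∈ S, ∀ s' ∈ S, s ≠ s' → s + s' ∉ A)
    (n : ℕ) (hn : 8 ≤ n) (hn0 : 2 * n0 + 1 ≤ n) (B : Finset ℤ)
    (hB : n ≤ 2 * (pos B).card + 1) :
    ∃ S : Finset ℤ, S ⊆ B ∧ (Real.log (n : ℝ)) ^ (100 : ℕ) ≤ (S.card : ℝ) ∧
      ∀ s ∈ S, ∀ s' ∈ S, s ≠ s' → s + s' ∉ B := by
  set κ : ℕ := ⌈(Real.log (n : ℝ)) ^ (100 : ℕ)⌉₊ with hκ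
  have hlog : (2 : ℝ) ≤ Real.log n := by
    rw [Real.le_log_iff_exp_le (by positivity)]
    have h1 : Real.exp 2 = Real.exp 1 * Real.exp 1 := by
      rw [← Real.exp_add]
      norm_num
    have h2 := Real.exp_one_lt_d9
    have h3 := Real.exp_pos 1
    have h4 : (8 : ℝ) ≤ (n : ℝ) := by exact_mod_cast hn
    rw [h1]
    nlinarith
  have hpow : (2 : ℝ) ≤ (Real.log (n : ℝ)) ^ (100 : ℕ) := by
    calc (2 : ℝ) ≤ 2 ^ (100 : ℕ) := by norm_num
      _ ≤ (Real.log (n : ℝ)) ^ (100 : ℕ) := pow_le_pow_left₀ (by norm_num) hlog 100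
  have hκ2 : 2 ≤ κ := by
    have h1 : (2 : ℝ) ≤ (κ : ℝ) := hpow.trans (Nat.le_ceil _)
    exact_mod_cast h1
  obtain ⟨S, hS, hcard, hfree⟩ := h (pos B) (by omega) (fun a ha => (mem_pos.1 ha).1) κ hκ2 (by
    have h1 : (κ : ℝ) < (Real.log (n : ℝ)) ^ (100 : ℕ) + 1 := Nat.ceil_lt_add_one (by linarith)
    refine h1.le.trans ?_
    have h2 : Real.log (n : ℝ) ≤ Real.log (2 * ((pos B).card : ℝ) + 1) := by
      apply Real.log_le_log (by positivity)
      exact_mod_cast hB
    have h3 := pow_le_pow_left₀ (by linarith) h2 100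
    linarith)
  refine ⟨S.image fun a : ℕ => (a : ℤ), ?_, ?_, ?_⟩
  · intro x hx
    obtain ⟨a, ha, rfl⟩ := Finset.mem_image.1 hx
    exact (mem_pos.1 (hS ha)).2
  · rw [Finset.card_image_of_injective _ Nat.cast_injective]
    have h1 : (κ : ℝ) ≤ (S.card : ℝ) := by exact_mod_cast hcard
    exact (Nat.le_ceil _).trans h1
  · intro s hs s' hs' hne hmem
    obtain ⟨a, ha, rfl⟩ := Finset.mem_image.1 hs
    obtain ⟨b, hb, rfl⟩ := Finset.mem_image.1 hs'
    refine hfree a ha b hb (fun h => hne (by rw [h])) (mem_pos.2 ⟨?_, ?_⟩)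
    · have := (mem_pos.1 (hS ha)).1
      omega
    · push_cast
      exact hmem

end FIN_

open FIN_ in
theorem fin_proof (h1 : Stmt_POS) : Stmt_FIN := by
  obtain ⟨n0, h⟩ := h1
  refine ⟨8 + (2 * n0 + 1), fun A hA => ?_⟩
  have hsplit : A.card ≤ (A.filter fun x => 0 < x).card + (A.filter fun x => x < 0).card + 1 := by
    have hsub : A ⊆ ((A.filter fun x => 0 < x) ∪ (A.filter fun x => x < 0)) ∪ {0} := by
      intro x hx
      rcases lt_trichotomy x 0 with h0 | h0 | h0
      · exact Finset.mem_union_left _ (Finset.mem_union_right _ (Finset.mem_filter.2 ⟨hx, h0⟩))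
      · exact Finset.mem_union_right _ (Finset.mem_singleton.2 h0)
      · exact Finset.mem_union_left _ (Finset.mem_union_left _ (Finset.mem_filter.2 ⟨hx, h0⟩))
    refine (Finset.card_le_card hsub).trans ((Finset.card_union_le _ _).trans ?_)
    have := Finset.card_union_le (A.filter fun x => 0 < x) (A.filter fun x => x < 0)
    rw [Finset.card_singleton]
    omega
  by_cases hc : A.card ≤ 2 * (A.filter fun x => 0 < x).card + 1
  · exact core h A.card (by omega) (by omega) A (by rw [crd_pos]; exact hc)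
  · have hneg : (A.filter fun x => x < 0).card = ((A.image fun x => -x).filter fun x => 0 < x).card := by
      have h2 : ((A.image fun x => -x).filter fun x => 0 < x) =
          (A.filter fun x => x < 0).image fun x => -x := by
        ext x
        simp only [Finset.mem_filter, Finset.mem_image]
        constructor
        · rintro ⟨⟨y, hy, rfl⟩, hx⟩
          exact ⟨y, ⟨hy, by omega⟩, rfl⟩
        · rintro ⟨y, ⟨hy, hy0⟩, rfl⟩
          exact ⟨⟨y, hy, rfl⟩, by omega⟩
      rw [h2, Finset.card_image_of_injective _ neg_injective]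
    obtain ⟨S, hS, hcard, hfree⟩ := core h A.card (by omega) (by omega) (A.image fun x => -x) (by
      rw [crd_pos, ← hneg]
      omega)
    refine ⟨S.image fun x => -x, ?_, ?_, ?_⟩
    · intro x hx
      obtain ⟨y, hy, rfl⟩ := Finset.mem_image.1 hx
      obtain ⟨z, hz, rfl⟩ := Finset.mem_image.1 (hS hy)
      rw [neg_neg]
      exact hz
    · rw [Finset.card_image_of_injective _ neg_injective]
      exact hcard
    · intro s hs s' hs' hne hmem
      obtain ⟨a, ha, rfl⟩ := Finset.mem_image.1 hs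
      obtain ⟨b, hb, rfl⟩ := Finset.mem_image.1 hs'
      refine hfree a ha b hb (fun h => hne (by rw [h])) (Finset.mem_image.2 ⟨-a + -b, hmem, ?_⟩)
      ring

end Pool.Agent.EMS
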