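import Pool.Agent.EMS.StmtsB

/-!
# EMS, module GAG: grid sums of the Gaussian
-/

set_option autoImplicit false

open Finset
open scoped BigOperators Classical

namespace Pool.Agent.EMS

namespace GAG_

/-- one sided sums -/
lemma half (b : ℝ) (hb : 0 < b) (F : Finset ℕ) :
    ∑ i ∈ F, Real.exp (-b * (i : ℝ) ^ 2) ≤ 1 + Real.sqrt (Real.pi / b) / 2 := by
  obtain ⟨K, hK⟩ : ∃ K : ℕ, F ⊆ Finset.range (K + 1) :=
    ⟨F.sup id, fun i hi => Finset.mem_range.mpr (Nat.lt_succ_of_le (Finset.le_sup (f := id) hi))⟩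
  have h1 : ∑ i ∈ F, Real.exp (-b * (i : ℝ) ^ 2) ≤
      ∑ i ∈ Finset.range (K + 1), Real.exp (-b * (i : ℝ) ^ 2) :=
    Finset.sum_le_sum_of_subset_of_nonneg hK fun _ _ _ => (Real.exp_pos _).le
  have hanti : AntitoneOn (fun x : ℝ => Real.exp (-b * x ^ 2)) (Set.Icc 0 (0 + (K : ℝ))) := by
    intro x hx y hy hxy
    apply Real.exp_le_exp.mpr
    have : x ^ 2 ≤ y ^ 2 := pow_le_pow_left₀ hx.1 hxy 2
    nlinarith
  have h2 := hanti.sum_le_integral
  have h3 : ∫ x in (0 : ℝ)..(0 + (K : ℝ)), Real.exp (-b * x ^ 2) ≤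
      ∫ x in Set.Ioi (0 : ℝ), Real.exp (-b * x ^ 2) := by
    rw [intervalIntegral.integral_of_le (by positivity)]
    apply MeasureTheory.setIntegral_mono_set
    · exact (integrable_exp_neg_mul_sq hb).integrableOn
    · exact Filter.Eventually.of_forall fun x => (Real.exp_pos _).le
    · apply Filter.Eventually.of_forall
      intro x hx
      exact hx.1
  rw [integral_gaussian_Ioi] at h3
  rw [Finset.sum_range_succ'] at h1
  have h4 : ∑ i ∈ Finset.range K, Real.exp (-b * ((i + 1 : ℕ) : ℝ) ^ 2) ≤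
      Real.sqrt (Real.pi / b) / 2 := by
    refine le_trans (le_of_eq ?_) (h2.trans h3)
    apply Finset.sum_congr rfl
    intro i _
    rw [zero_add]
  have h5 : Real.exp (-b * ((0 : ℕ) : ℝ) ^ 2) = 1 := by simp
  rw [h5] at h1
  linarith

/-- distance in cells -/
def jj (n v : ℤ) : ℕ := (v - n).natAbs - 1

lemma line (b : ℝ) (hb : 0 < b) (n : ℤ) (V : Finset ℤ) :
    ∑ v ∈ V, Real.exp (-b * (jj n v : ℝ) ^ 2) ≤ 3 + Real.sqrt (Real.pi / b) := by
  have hsplit : ∑ v ∈ V, Real.exp (-b * (jj n v : ℝ) ^ 2) =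
      ∑ v ∈ V.filter (fun v => n < v), Real.exp (-b * (jj n v : ℝ) ^ 2) +
      ∑ v ∈ V.filter (fun v => ¬ n < v), Real.exp (-b * (jj n v : ℝ) ^ 2) :=
    (Finset.sum_filter_add_sum_filter_not V (fun v => n < v) _).symm
  have hsplit2 : ∑ v ∈ V.filter (fun v => ¬ n < v), Real.exp (-b * (jj n v : ℝ) ^ 2) =
      ∑ v ∈ (V.filter (fun v => ¬ n < v)).filter (fun v => v < n),
        Real.exp (-b * (jj n v : ℝ) ^ 2) +
      ∑ v ∈ (V.filter (fun v => ¬ n < v)).filter (fun v => ¬ v < n),
        Real.exp (-b * (jj n v : ℝ) ^ 2) :=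
    (Finset.sum_filter_add_sum_filter_not _ (fun v => v < n) _).symm
  have h1 : ∑ v ∈ V.filter (fun v => n < v), Real.exp (-b * (jj n v : ℝ) ^ 2) ≤
      1 + Real.sqrt (Real.pi / b) / 2 := by
    have hinj : Set.InjOn (jj n) (V.filter (fun v => n < v) : Set ℤ) := by
      intro v hv w hw h
      simp only [Finset.coe_filter, Set.mem_ofPred_eq] at hv hw
      unfold jj at h
      omega
    rw [← Finset.sum_image (f := fun i : ℕ => Real.exp (-b * (i : ℝ) ^ 2)) hinj]
    exact half b hb _
  have h2 : ∑ v ∈ (V.filter (fun v => ¬ n < v)).filter (fun v => v < n),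
        Real.exp (-b * (jj n v : ℝ) ^ 2) ≤ 1 + Real.sqrt (Real.pi / b) / 2 := by
    have hinj : Set.InjOn (jj n)
        ((V.filter (fun v => ¬ n < v)).filter (fun v => v < n) : Set ℤ) := by
      intro v hv w hw h
      simp only [Finset.coe_filter, Finset.mem_filter, Set.mem_ofPred_eq] at hv hw
      unfold jj at h
      omega
    rw [← Finset.sum_image (f := fun i : ℕ => Real.exp (-b * (i : ℝ) ^ 2)) hinj]
    exact half b hb _
  have h3 : ∑ v ∈ (V.filter (fun v => ¬ n < v)).filter (fun v => ¬ v < n),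
        Real.exp (-b * (jj n v : ℝ) ^ 2) ≤ 1 := by
    have hsub : (V.filter (fun v => ¬ n < v)).filter (fun v => ¬ v < n) ⊆ {n} := by
      intro v hv
      simp only [Finset.mem_filter] at hv
      rw [Finset.mem_singleton]
      omega
    calc _ ≤ ∑ v ∈ ({n} : Finset ℤ), Real.exp (-b * (jj n v : ℝ) ^ 2) :=
          Finset.sum_le_sum_of_subset_of_nonneg hsub fun _ _ _ => (Real.exp_pos _).le
      _ = 1 := by simp [jj]
  rw [hsplit, hsplit2]
  linarith

/-- one dimensional domination -/
lemma dom (p s σ m w b : ℝ) (hs : 0 < s) (hσ : 0 < σ) (hb : s ^ 2 = b * σ ^ 2) :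
    (w - m) ^ 2 / σ ^ 2 ≥ b * (jj ⌊(m - p) / s⌋ ⌊(w - p) / s⌋ : ℝ) ^ 2 := by
  set n := ⌊(m - p) / s⌋ with hn
  set v := ⌊(w - p) / s⌋ with hv
  set y := (w - p) / s with hy
  set u := (m - p) / s with hu
  have hwm : w - m = s * (y - u) := by
    rw [hy, hu]
    field_simp
    ring
  have h1 : (v : ℝ) ≤ y := Int.floor_le y
  have h2 : y < v + 1 := Int.lt_floor_add_one y
  have h3 : (n : ℝ) ≤ u := Int.floor_le u
  have h4 : u < n + 1 := Int.lt_floor_add_one u
  have h5 : (jj n v : ℝ) ^ 2 ≤ (y - u) ^ 2 := by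
    rcases lt_trichotomy v n with h | h | h
    · have hj : (jj n v : ℝ) = (n : ℝ) - v - 1 := by
        have : ((jj n v : ℕ) : ℤ) = n - v - 1 := by
          unfold jj
          omega
        exact_mod_cast congrArg (fun z : ℤ => (z : ℝ)) this
      have h6 : (v : ℝ) + 1 ≤ n := by exact_mod_cast h
      rw [hj, ← neg_sq (y - u)]
      apply pow_le_pow_left₀ (by linarith)
      linarith
    · have hj : jj n v = 0 := by simp [jj, h]
      rw [hj]
      simpa using sq_nonneg (y - u)
    · have hj : (jj n v : ℝ) = (v : ℝ) - n - 1 := by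
        have : ((jj n v : ℕ) : ℤ) = v - n - 1 := by
          unfold jj
          omega
        exact_mod_cast congrArg (fun z : ℤ => (z : ℝ)) this
      have h6 : (n : ℝ) + 1 ≤ v := by exact_mod_cast h
      rw [hj]
      apply pow_le_pow_left₀ (by linarith)
      linarith
  rw [hwm, mul_pow, ge_iff_le, le_div_iff₀ (by positivity), hb]
  have h6 : 0 ≤ b * σ ^ 2 := by
    rw [← hb]
    positivity
  nlinarith

end GAG_

open GAG_ in
theorem gag_proof : Stmt_GAG := by
  intro D B p S hD hB hS m A am ham hA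
  have hDr : (1 : ℝ) ≤ D := by exact_mod_cast hD
  have hB1 : 0 < B := by
    have : (0 : ℝ) < 10 ^ 4 * (D : ℝ) ^ 3 := by positivity
    linarith
  have hsB : 0 < Real.sqrt B := Real.sqrt_pos.mpr hB1
  have hsq : Real.sqrt B ^ 2 = B := Real.sq_sqrt hB1.le
  -- the cell map
  let fl : (Fin D → ℝ) → (Fin D → ℤ) := fun w l => ⌊(w l - p l) * B / S l⌋
  let nn : Fin D → ℤ := fun l => ⌊(m l - p l) * B / S l⌋
  let G : (Fin D → ℤ) → ℝ := fun v => ∏ l, Real.exp (-(1 / B) * (jj (nn l) (v l) : ℝ) ^ 2)
  have hG0 : ∀ v, 0 ≤ G v := fun v => Finset.prod_nonneg fun _ _ => (Real.exp_pos _).le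
  have hpt : ∀ w : Fin D → ℝ,
      Real.exp (-(∑ l, (w l - m l) ^ 2 / (S l / Real.sqrt B) ^ 2)) ≤ G (fl w) := by
    intro w
    simp only [G]
    rw [← Real.exp_sum]
    apply Real.exp_le_exp.mpr
    rw [← Finset.sum_neg_distrib]
    apply Finset.sum_le_sum
    intro l _
    have hSl := hS l
    have h := dom (p l) (S l / B) (S l / Real.sqrt B) (m l) (w l) (1 / B) (by positivity)
      (by positivity) (by
        rw [div_pow, div_pow, hsq]
        field_simp)
    have e1 : (m l - p l) / (S l / B) = (m l - p l) * B / S l := by field_simp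
    have e2 : (w l - p l) / (S l / B) = (w l - p l) * B / S l := by field_simp
    rw [e1, e2] at h
    have : (jj (nn l) (fl w l) : ℝ) =
      (jj ⌊(m l - p l) * B / S l⌋ ⌊(w l - p l) * B / S l⌋ : ℝ) := rfl
    rw [this]
    linarith
  let c : ℝ := ∏ l, (S l / B)
  have hc : 0 < c := Finset.prod_pos fun l _ => div_pos (hS l) hB1
  have h1 : ∑ w ∈ A, Real.exp (-(∑ l, (w l - m l) ^ 2 / (S l / Real.sqrt B) ^ 2)) ≤
      ∑ v ∈ A.image fl, am * c * G v := by
    calc ∑ w ∈ A, Real.exp (-(∑ l, (w l - m l) ^ 2 / (S l / Real.sqrt B) ^ 2))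
        ≤ ∑ w ∈ A, G (fl w) := Finset.sum_le_sum fun w _ => hpt w
      _ = ∑ v ∈ A.image fl, ∑ w ∈ A.filter (fun w => fl w = v), G (fl w) :=
          (Finset.sum_fiberwise_of_maps_to (fun w hw => Finset.mem_image_of_mem fl hw) _).symm
      _ ≤ ∑ v ∈ A.image fl, am * c * G v := by
          apply Finset.sum_le_sum
          intro v _
          have e1 : ∑ w ∈ A.filter (fun w => fl w = v), G (fl w) =
              ((A.filter (fun w => fl w = v)).card : ℝ) * G v := by
            rw [Finset.sum_congr rfl (fun w hw => by rw [(Finset.mem_filter.mp hw).2]),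
              Finset.sum_const, nsmul_eq_mul]
          rw [e1]
          apply mul_le_mul_of_nonneg_right _ (hG0 v)
          have h2 := hA v
          have e2 : (A.filter (fun w => fl w = v)) =
              (A.filter fun w => ∀ l, ⌊(w l - p l) * B / S l⌋ = v l) := by
            apply Finset.filter_congr
            intro w _
            exact funext_iff
          rw [e2]
          exact h2
  have h2 : ∑ v ∈ A.image fl, G v ≤ ∏ _l : Fin D, (3 + Real.sqrt (Real.pi / (1 / B))) := by
    calc ∑ v ∈ A.image fl, G v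
        ≤ ∑ v ∈ Fintype.piFinset (fun l => (A.image fl).image (fun v => v l)), G v := by
          apply Finset.sum_le_sum_of_subset_of_nonneg
          · intro v hv
            rw [Fintype.mem_piFinset]
            intro l
            exact Finset.mem_image_of_mem (fun v : Fin D → ℤ => v l) hv
          · intro v _ _
            exact hG0 v
      _ = ∏ l, ∑ z ∈ (A.image fl).image (fun v => v l),
            Real.exp (-(1 / B) * (jj (nn l) z : ℝ) ^ 2) := by
          rw [Finset.prod_univ_sum]
      _ ≤ ∏ _l : Fin D, (3 + Real.sqrt (Real.pi / (1 / B))) := by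
          apply Finset.prod_le_prod
          · intro l _
            exact Finset.sum_nonneg fun _ _ => (Real.exp_pos _).le
          · intro l _
            exact line (1 / B) (by positivity) (nn l) _
  have hpi : 1 ≤ Real.sqrt Real.pi := by
    rw [Real.one_le_sqrt]
    linarith [Real.pi_gt_three]
  have h3 : (3 + Real.sqrt (Real.pi / (1 / B))) ≤
      Real.sqrt Real.pi * Real.sqrt B * (1 + 3 / Real.sqrt B) := by
    have e1 : Real.pi / (1 / B) = Real.pi * B := by field_simp
    rw [e1, Real.sqrt_mul Real.pi_pos.le]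
    have e2 : Real.sqrt Real.pi * Real.sqrt B * (1 + 3 / Real.sqrt B) =
        Real.sqrt Real.pi * Real.sqrt B + 3 * Real.sqrt Real.pi := by field_simp
    rw [e2]
    linarith
  have h4 : (1 + 3 / Real.sqrt B) ^ D ≤ 1.1 := by
    have hsB100 : 100 * (D : ℝ) ≤ Real.sqrt B := by
      apply Real.le_sqrt_of_sq_le
      have : (D : ℝ) ^ 2 ≤ (D : ℝ) ^ 3 := pow_le_pow_right₀ hDr (by norm_num)
      nlinarith
    have h5 : 3 / Real.sqrt B ≤ 3 / (100 * (D : ℝ)) := by
      apply div_le_div_of_nonneg_left (by norm_num) (by positivity) hsB100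
    calc (1 + 3 / Real.sqrt B) ^ D ≤ (Real.exp (3 / Real.sqrt B)) ^ D := by
          apply pow_le_pow_left₀ (by positivity)
          linarith [Real.add_one_le_exp (3 / Real.sqrt B)]
      _ = Real.exp (D * (3 / Real.sqrt B)) := by rw [← Real.exp_nat_mul]
      _ ≤ Real.exp (3 / 100) := by
          apply Real.exp_le_exp.mpr
          calc (D : ℝ) * (3 / Real.sqrt B) ≤ D * (3 / (100 * (D : ℝ))) :=
                mul_le_mul_of_nonneg_left h5 (by positivity)
            _ = 3 / 100 := by field_simp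
      _ ≤ 1.1 := by
          have := Real.exp_bound_div_one_sub_of_interval (x := 3 / 100) (by norm_num) (by norm_num)
          norm_num at this ⊢
          linarith
  calc ∑ w ∈ A, Real.exp (-(∑ l, (w l - m l) ^ 2 / (S l / Real.sqrt B) ^ 2))
      ≤ ∑ v ∈ A.image fl, am * c * G v := h1
    _ = am * c * ∑ v ∈ A.image fl, G v := by rw [Finset.mul_sum]
    _ ≤ am * c * ∏ _l : Fin D, (Real.sqrt Real.pi * Real.sqrt B * (1 + 3 / Real.sqrt B)) := by
        apply mul_le_mul_of_nonneg_left _ (by positivity)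
        refine h2.trans ?_
        apply Finset.prod_le_prod
        · intro l _
          positivity
        · intro l _
          exact h3
    _ = am * (1 + 3 / Real.sqrt B) ^ D * (c * ∏ _l : Fin D, (Real.sqrt Real.pi * Real.sqrt B)) := by
        rw [Finset.prod_mul_distrib (f := fun _ => Real.sqrt Real.pi * Real.sqrt B)]
        simp only [Finset.prod_const, Finset.card_univ, Fintype.card_fin]
        ring
    _ = am * (1 + 3 / Real.sqrt B) ^ D * ∏ l, (Real.sqrt Real.pi * (S l / Real.sqrt B)) := by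
        congr 1
        rw [← Finset.prod_mul_distrib]
        apply Finset.prod_congr rfl
        intro l _
        have : B = Real.sqrt B * Real.sqrt B := by
          rw [← sq, hsq]
        field_simp
        rw [hsq]
    _ ≤ am * 1.1 * ∏ l, (Real.sqrt Real.pi * (S l / Real.sqrt B)) := by
        apply mul_le_mul_of_nonneg_right
        · exact mul_le_mul_of_nonneg_left h4 ham
        · apply Finset.prod_nonneg
          intro l _
          have := hS l
          positivity
    _ = 1.1 * am * ∏ l, (Real.sqrt Real.pi * (S l / Real.sqrt B)) := by ring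

end Pool.Agent.EMS
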