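import Pool.Agent.EMS.StmtsC

set_option autoImplicit false

open Finset MeasureTheory
open scoped BigOperators

namespace Pool.Agent.EMS

namespace GAI_

theorem one_int (s w : ℝ) (hs : 0 < s) :
    Integrable (fun c : ℝ => Real.exp (-((w - c) ^ 2 / (2 * s ^ 2)))) := by
  have hb : (0 : ℝ) < 1 / (2 * s ^ 2) := by positivity
  have h1 := (integrable_exp_neg_mul_sq hb).comp_sub_right w
  refine h1.congr (Filter.Eventually.of_forall fun c => ?_)
  show Real.exp (-(1 / (2 * s ^ 2)) * (c - w) ^ 2) = Real.exp (-((w - c) ^ 2 / (2 * s ^ 2)))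
  congr 1
  ring

theorem two_eq (s w w' c : ℝ) (hs : 0 < s) :
    Real.exp (-((w - c) ^ 2 / (2 * s ^ 2))) * Real.exp (-((w' - c) ^ 2 / (2 * s ^ 2)))
      = Real.exp (-(((w - w') / 2) ^ 2 / s ^ 2)) *
        Real.exp (-(1 / s ^ 2) * (c - (w + w') / 2) ^ 2) := by
  rw [← Real.exp_add, ← Real.exp_add]
  congr 1
  have hs' : s ≠ 0 := hs.ne'
  field_simp
  ring

theorem two_int (s w w' : ℝ) (hs : 0 < s) :
    Integrable (fun c : ℝ => Real.exp (-((w - c) ^ 2 / (2 * s ^ 2))) *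
      Real.exp (-((w' - c) ^ 2 / (2 * s ^ 2)))) := by
  have hb : (0 : ℝ) < 1 / s ^ 2 := by positivity
  have h1 := ((integrable_exp_neg_mul_sq hb).comp_sub_right ((w + w') / 2)).const_mul
    (Real.exp (-(((w - w') / 2) ^ 2 / s ^ 2)))
  refine h1.congr (Filter.Eventually.of_forall fun c => ?_)
  exact (two_eq s w w' c hs).symm

theorem two_integral (s w w' : ℝ) (hs : 0 < s) :
    ∫ c : ℝ, Real.exp (-((w - c) ^ 2 / (2 * s ^ 2))) * Real.exp (-((w' - c) ^ 2 / (2 * s ^ 2)))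
      = Real.exp (-(((w - w') / 2) ^ 2 / s ^ 2)) * (Real.sqrt Real.pi * s) := by
  have h1 : ∀ c : ℝ, Real.exp (-((w - c) ^ 2 / (2 * s ^ 2))) *
      Real.exp (-((w' - c) ^ 2 / (2 * s ^ 2))) = Real.exp (-(((w - w') / 2) ^ 2 / s ^ 2)) *
        Real.exp (-(1 / s ^ 2) * (c - (w + w') / 2) ^ 2) := fun c => two_eq s w w' c hs
  simp only [h1]
  rw [integral_const_mul]
  congr 1
  rw [integral_sub_right_eq_self (fun c : ℝ => Real.exp (-(1 / s ^ 2) * c ^ 2)) ((w + w') / 2)]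
  rw [integral_gaussian]
  have h2 : Real.pi / (1 / s ^ 2) = Real.pi * s ^ 2 := by
    field_simp
  rw [h2, Real.sqrt_mul Real.pi_pos.le, Real.sqrt_sq hs.le]

theorem exp_sum {D : ℕ} (f : Fin D → ℝ) :
    Real.exp (-(∑ l, f l)) = ∏ l, Real.exp (-(f l)) := by
  rw [← Finset.sum_neg_distrib, Real.exp_sum]

end GAI_

theorem gai_proof : Stmt_GAI := by
  intro D σ hσ w w'
  refine ⟨?_, ?_, ?_⟩
  · have h1 : ∀ c : Fin D → ℝ, Real.exp (-(∑ l, (w l - c l) ^ 2 / (2 * σ l ^ 2))) *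
        Real.exp (-(∑ l, (w' l - c l) ^ 2 / (2 * σ l ^ 2))) =
        ∏ l, (fun (l : Fin D) (x : ℝ) => Real.exp (-((w l - x) ^ 2 / (2 * σ l ^ 2))) *
          Real.exp (-((w' l - x) ^ 2 / (2 * σ l ^ 2)))) l (c l) := by
      intro c
      rw [GAI_.exp_sum, GAI_.exp_sum, ← Finset.prod_mul_distrib]
    simp only [h1]
    rw [integral_fintype_prod_volume_eq_prod (fun (l : Fin D) (x : ℝ) =>
      Real.exp (-((w l - x) ^ 2 / (2 * σ l ^ 2))) *
          Real.exp (-((w' l - x) ^ 2 / (2 * σ l ^ 2))))]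
    rw [GAI_.exp_sum, ← Finset.prod_mul_distrib]
    refine Finset.prod_congr rfl fun l _ => ?_
    exact GAI_.two_integral (σ l) (w l) (w' l) (hσ l)
  · have h1 : Integrable (fun c : Fin D → ℝ =>
        ∏ l, (fun (l : Fin D) (x : ℝ) => Real.exp (-((w l - x) ^ 2 / (2 * σ l ^ 2)))) l (c l)) := by
      rw [volume_pi]
      exact Integrable.fintype_prod_dep (fun l => GAI_.one_int (σ l) (w l) (hσ l))
    refine h1.congr (Filter.Eventually.of_forall fun c => ?_)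
    exact (GAI_.exp_sum _).symm
  · have h1 : Integrable (fun c : Fin D → ℝ =>
        ∏ l, (fun (l : Fin D) (x : ℝ) => Real.exp (-((w l - x) ^ 2 / (2 * σ l ^ 2))) *
          Real.exp (-((w' l - x) ^ 2 / (2 * σ l ^ 2)))) l (c l)) := by
      rw [volume_pi]
      exact Integrable.fintype_prod_dep (fun l => GAI_.two_int (σ l) (w l) (w' l) (hσ l))
    refine h1.congr (Filter.Eventually.of_forall fun c => ?_)
    show ∏ l, (Real.exp (-((w l - c l) ^ 2 / (2 * σ l ^ 2))) *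
          Real.exp (-((w' l - c l) ^ 2 / (2 * σ l ^ 2)))) =
      Real.exp (-(∑ l, (w l - c l) ^ 2 / (2 * σ l ^ 2))) *
        Real.exp (-(∑ l, (w' l - c l) ^ 2 / (2 * σ l ^ 2)))
    rw [GAI_.exp_sum, GAI_.exp_sum, ← Finset.prod_mul_distrib]

end Pool.Agent.EMS
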