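import Pool.Agent.EMS.StmtsC

set_option autoImplicit false

open Finset MeasureTheory
open scoped BigOperators

namespace Pool.Agent.EMS

namespace GAL_

theorem exp_sum {D : ℕ} (f : Fin D → ℝ) :
    Real.exp (-(∑ l, f l)) = ∏ l, Real.exp (-(f l)) := by
  rw [← Finset.sum_neg_distrib, Real.exp_sum]

theorem int_shift (b w : ℝ) (hb : 0 < b) :
    Integrable (fun c : ℝ => Real.exp (-(b * (w - c) ^ 2))) := by
  have h1 := (integrable_exp_neg_mul_sq hb).comp_sub_right w
  refine h1.congr (Filter.Eventually.of_forall fun c => ?_)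
  show Real.exp (-b * (c - w) ^ 2) = Real.exp (-(b * (w - c) ^ 2))
  congr 1
  ring

theorem integral_shift (b w : ℝ) :
    ∫ c : ℝ, Real.exp (-(b * (w - c) ^ 2)) = Real.sqrt (Real.pi / b) := by
  have h1 : ∀ c : ℝ, Real.exp (-(b * (w - c) ^ 2)) = Real.exp (-b * (c - w) ^ 2) := by
    intro c
    congr 1
    ring
  simp only [h1]
  rw [integral_sub_right_eq_self (fun c : ℝ => Real.exp (-b * c ^ 2)) w, integral_gaussian]

/-- one dimension: `b = 1/(2 s^2)` -/
theorem one_dim (b w x y d : ℝ) (hb : 0 < b) (hd : 0 ≤ d) (hx : x ≤ w - d) (hy : w + d ≤ y) :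
    Real.sqrt (Real.pi / b) * (1 - Real.sqrt 2 * Real.exp (-(b / 2 * d ^ 2))) ≤
      ∫ c in Set.Icc x y, Real.exp (-(b * (w - c) ^ 2)) := by
  have hb2 : 0 < b / 2 := by positivity
  have h1 := int_shift b w hb
  have h2 := int_shift (b / 2) w hb2
  have h3 : Integrable (fun c : ℝ => Real.exp (-(b * (w - c) ^ 2)) -
      Real.exp (-(b / 2 * d ^ 2)) * Real.exp (-(b / 2 * (w - c) ^ 2))) :=
    h1.sub (h2.const_mul _)
  have h4 : ∫ c : ℝ, (Real.exp (-(b * (w - c) ^ 2)) -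
      Real.exp (-(b / 2 * d ^ 2)) * Real.exp (-(b / 2 * (w - c) ^ 2))) =
      Real.sqrt (Real.pi / b) * (1 - Real.sqrt 2 * Real.exp (-(b / 2 * d ^ 2))) := by
    rw [integral_sub h1 (h2.const_mul _), integral_const_mul, integral_shift, integral_shift]
    have h5 : Real.pi / (b / 2) = 2 * (Real.pi / b) := by
      field_simp
    rw [h5, Real.sqrt_mul (by norm_num : (0 : ℝ) ≤ 2)]
    ring
  rw [← h4, ← integral_indicator measurableSet_Icc]
  refine integral_mono h3 (h1.indicator measurableSet_Icc) fun c => ?_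
  show Real.exp (-(b * (w - c) ^ 2)) -
      Real.exp (-(b / 2 * d ^ 2)) * Real.exp (-(b / 2 * (w - c) ^ 2)) ≤
      (Set.Icc x y).indicator (fun c : ℝ => Real.exp (-(b * (w - c) ^ 2))) c
  by_cases hc : c ∈ Set.Icc x y
  · rw [Set.indicator_of_mem hc]
    have : 0 ≤ Real.exp (-(b / 2 * d ^ 2)) * Real.exp (-(b / 2 * (w - c) ^ 2)) := by positivity
    linarith
  · rw [Set.indicator_of_notMem hc]
    have h6 : d ^ 2 ≤ (w - c) ^ 2 := by
      rw [Set.mem_Icc, not_and_or, not_le, not_le] at hc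
      rcases hc with hc | hc
      · have : d ≤ w - c := by linarith
        exact pow_le_pow_left₀ hd this 2
      · have : d ≤ c - w := by linarith
        calc d ^ 2 ≤ (c - w) ^ 2 := pow_le_pow_left₀ hd this 2
          _ = (w - c) ^ 2 := by ring
    have h7 : Real.exp (-(b * (w - c) ^ 2)) ≤
        Real.exp (-(b / 2 * d ^ 2)) * Real.exp (-(b / 2 * (w - c) ^ 2)) := by
      rw [← Real.exp_add]
      apply Real.exp_le_exp.mpr
      nlinarith
    linarith

theorem num (D : ℕ) (hD : 1 ≤ D) :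
    (0.9 : ℝ) ≤ (1 - Real.sqrt 2 * Real.exp (-(4 * (D : ℝ)))) ^ D := by
  have hD' : (1 : ℝ) ≤ D := by exact_mod_cast hD
  have hs : Real.sqrt 2 ≤ 1.415 := by
    rw [Real.sqrt_le_left (by norm_num)]
    norm_num
  have hs0 : 0 ≤ Real.sqrt 2 := Real.sqrt_nonneg 2
  have h1 : 16 * (D : ℝ) ≤ Real.exp (4 * (D : ℝ)) := by
    have h2 : (1 + (D : ℝ)) ≤ Real.exp D := by
      have := Real.add_one_le_exp (D : ℝ)
      linarith
    have h3 : Real.exp (4 * (D : ℝ)) = Real.exp D ^ 4 := by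
      rw [← Real.exp_nat_mul]
      norm_num
    rw [h3]
    calc 16 * (D : ℝ) ≤ (1 + (D : ℝ)) ^ 4 := by nlinarith [sq_nonneg ((D : ℝ) - 1), sq_nonneg ((D : ℝ) + 1)]
      _ ≤ Real.exp D ^ 4 := pow_le_pow_left₀ (by positivity) h2 4
  have h4 : Real.exp (-(4 * (D : ℝ))) ≤ 1 / (16 * (D : ℝ)) := by
    rw [Real.exp_neg, ← one_div]
    exact one_div_le_one_div_of_le (by positivity) h1
  have h5 : Real.sqrt 2 * Real.exp (-(4 * (D : ℝ))) ≤ 0.1 / D := by
    calc Real.sqrt 2 * Real.exp (-(4 * (D : ℝ))) ≤ 1.415 * (1 / (16 * (D : ℝ))) :=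
          mul_le_mul hs h4 (Real.exp_pos _).le (by norm_num)
      _ = (1.415 / 16) / D := by field_simp
      _ ≤ 0.1 / D := by
          apply div_le_div_of_nonneg_right _ (by positivity)
          norm_num
  have h6 : (0.1 : ℝ) / D ≤ 0.1 := by
    rw [div_le_iff₀ (by positivity)]
    nlinarith
  have h7 := one_add_mul_le_pow (a := -(Real.sqrt 2 * Real.exp (-(4 * (D : ℝ))))) (by linarith) D
  have h8 : (D : ℝ) * (Real.sqrt 2 * Real.exp (-(4 * (D : ℝ)))) ≤ 0.1 := by
    calc (D : ℝ) * (Real.sqrt 2 * Real.exp (-(4 * (D : ℝ)))) ≤ D * (0.1 / D) :=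
          mul_le_mul_of_nonneg_left h5 (by positivity)
      _ = 0.1 := by field_simp
  have h9 : 1 + -(Real.sqrt 2 * Real.exp (-(4 * (D : ℝ)))) =
      1 - Real.sqrt 2 * Real.exp (-(4 * (D : ℝ))) := by ring
  rw [h9] at h7
  linarith

end GAL_

theorem gal_proof : Stmt_GAL := by
  intro D B p S hD hB hS w hw
  have hD' : (1 : ℝ) ≤ D := by exact_mod_cast hD
  have hD3 : (1 : ℝ) ≤ (D : ℝ) ^ 3 := one_le_pow₀ hD'
  have hB0 : 0 < B := by linarith
  have hsB : 0 < Real.sqrt B := Real.sqrt_pos.mpr hB0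
  set e : ℝ := Real.sqrt 2 * Real.exp (-(4 * (D : ℝ))) with he
  have hset : {c : Fin D → ℝ | ∀ l, p l - S l / (25 * D) ≤ c l ∧ c l ≤ p l + S l + S l / (25 * D)}
      = Set.pi Set.univ (fun l => Set.Icc (p l - S l / (25 * D)) (p l + S l + S l / (25 * D))) := by
    ext c
    rw [Set.mem_univ_pi]
    rfl
  rw [hset, volume_pi, Measure.restrict_pi_pi]
  have h1 : ∀ c : Fin D → ℝ, Real.exp (-(∑ l, (w l - c l) ^ 2 / (2 * (S l / Real.sqrt B) ^ 2))) =
      ∏ l, (fun (l : Fin D) (x : ℝ) =>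
        Real.exp (-(1 / (2 * (S l / Real.sqrt B) ^ 2) * (w l - x) ^ 2))) l (c l) := by
    intro c
    rw [GAL_.exp_sum]
    refine Finset.prod_congr rfl fun l _ => ?_
    show Real.exp (-((w l - c l) ^ 2 / (2 * (S l / Real.sqrt B) ^ 2))) =
      Real.exp (-(1 / (2 * (S l / Real.sqrt B) ^ 2) * (w l - c l) ^ 2))
    congr 1
    ring
  simp only [h1]
  rw [integral_fintype_prod_eq_prod (fun (l : Fin D) (x : ℝ) =>
        Real.exp (-(1 / (2 * (S l / Real.sqrt B) ^ 2) * (w l - x) ^ 2)))]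
  have h2 : ∀ l : Fin D, Real.sqrt (2 * Real.pi) * (S l / Real.sqrt B) * (1 - e) ≤
      ∫ x in Set.Icc (p l - S l / (25 * D)) (p l + S l + S l / (25 * D)),
        Real.exp (-(1 / (2 * (S l / Real.sqrt B) ^ 2) * (w l - x) ^ 2)) := by
    intro l
    have hs : 0 < S l / Real.sqrt B := div_pos (hS l) hsB
    have hb : 0 < 1 / (2 * (S l / Real.sqrt B) ^ 2) := by positivity
    have hd : 0 ≤ S l / (25 * D) := by
      have := (hS l).le
      positivity
    have h3 := GAL_.one_dim (1 / (2 * (S l / Real.sqrt B) ^ 2)) (w l) (p l - S l / (25 * D))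
      (p l + S l + S l / (25 * D)) (S l / (25 * D)) hb hd (by linarith [(hw l).1])
      (by linarith [(hw l).2])
    refine le_trans ?_ h3
    have h4 : Real.pi / (1 / (2 * (S l / Real.sqrt B) ^ 2)) =
        (2 * Real.pi) * (S l / Real.sqrt B) ^ 2 := by
      field_simp
    rw [h4, Real.sqrt_mul (by positivity : (0 : ℝ) ≤ 2 * Real.pi) ((S l / Real.sqrt B) ^ 2),
      Real.sqrt_sq hs.le]
    apply mul_le_mul_of_nonneg_left _ (by positivity)
    have h5 : 4 * (D : ℝ) ≤ 1 / (2 * (S l / Real.sqrt B) ^ 2) / 2 * (S l / (25 * D)) ^ 2 := by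
      have h6 : 1 / (2 * (S l / Real.sqrt B) ^ 2) / 2 * (S l / (25 * D)) ^ 2 =
          B / (2500 * (D : ℝ) ^ 2) := by
        have hSl := (hS l).ne'
        have h7 : Real.sqrt B ^ 2 = B := Real.sq_sqrt hB0.le
        field_simp
        rw [h7]
        ring
      rw [h6, le_div_iff₀ (by positivity)]
      nlinarith
    have h8 : Real.exp (-(1 / (2 * (S l / Real.sqrt B) ^ 2) / 2 * (S l / (25 * D)) ^ 2)) ≤
        Real.exp (-(4 * (D : ℝ))) := by
      apply Real.exp_le_exp.mpr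
      linarith
    have h9 : 0 ≤ Real.sqrt 2 := Real.sqrt_nonneg 2
    nlinarith
  have he1 : e ≤ 1 := by
    have h10 : Real.sqrt 2 ≤ 1.5 := by
      rw [Real.sqrt_le_left (by norm_num)]
      norm_num
    have h11 : Real.exp (-(4 * (D : ℝ))) ≤ 1 / 4 := by
      have h12 : (4 : ℝ) ≤ Real.exp (4 * (D : ℝ)) := by
        have := Real.add_one_le_exp (4 * (D : ℝ))
        linarith
      rw [Real.exp_neg, ← one_div]
      exact one_div_le_one_div_of_le (by norm_num) h12
    have h13 : 0 < Real.exp (-(4 * (D : ℝ))) := Real.exp_pos _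
    have h14 : 0 ≤ Real.sqrt 2 := Real.sqrt_nonneg 2
    rw [he]
    nlinarith
  have h15 : ∏ l, (Real.sqrt (2 * Real.pi) * (S l / Real.sqrt B) * (1 - e)) ≤
      ∏ l, ∫ x in Set.Icc (p l - S l / (25 * D)) (p l + S l + S l / (25 * D)),
        Real.exp (-(1 / (2 * (S l / Real.sqrt B) ^ 2) * (w l - x) ^ 2)) := by
    refine Finset.prod_le_prod (fun l _ => ?_) fun l _ => h2 l
    have hs : 0 < S l / Real.sqrt B := div_pos (hS l) hsB
    have : 0 ≤ 1 - e := by linarith
    positivity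
  refine le_trans ?_ h15
  have h16 : ∏ l, (Real.sqrt (2 * Real.pi) * (S l / Real.sqrt B) * (1 - e)) =
      (∏ l, (Real.sqrt (2 * Real.pi) * (S l / Real.sqrt B))) * (1 - e) ^ D := by
    rw [Finset.prod_mul_distrib, Finset.prod_const, Finset.card_univ, Fintype.card_fin]
  rw [h16, mul_comm]
  apply mul_le_mul_of_nonneg_left (GAL_.num D hD)
  refine Finset.prod_nonneg fun l _ => ?_
  have hs : 0 < S l / Real.sqrt B := div_pos (hS l) hsB
  positivity

end Pool.Agent.EMS
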