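import Pool.Agent.EMS.StmtsB

/-!
# EMS, module GBX: the Gaussian midpoint inequality in one box
-/

set_option autoImplicit false

open Finset MeasureTheory
open scoped BigOperators Classical

namespace Pool.Agent.EMS

namespace GBX_

/-- Gaussian weight -/
noncomputable def gw {D : ℕ} (σ : Fin D → ℝ) (w c : Fin D → ℝ) : ℝ :=
  Real.exp (-(∑ l, (w l - c l) ^ 2 / (2 * σ l ^ 2)))

theorem pointwise (hM : Stmt_MSS) {α : Type} (κ : ℕ) (hκ : 2 ≤ κ) (A : Finset α) (C : Finset ℤ)
    (cls : α → ℤ) (hC : ∀ w ∈ A, cls w ∈ C) (R : α → α → Prop)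
    (hR : ∀ f : Fin κ → α, (∀ i, f i ∈ A) → (∀ i j, cls (f i) = cls (f j)) →
      ∃ i j, i < j ∧ R (f i) (f j))
    (g : α → ℝ) (hg : ∀ x, 0 ≤ g x) :
    2 * (∑ x ∈ A, g x) ^ 2 ≤
      (κ : ℝ) ^ 2 * C.card * ∑ x ∈ A, ∑ y ∈ A, if R x y then g x * g y else 0 := by
  have h1 : ∑ x ∈ A, g x = ∑ i ∈ C, ∑ x ∈ A with cls x = i, g x :=
    (Finset.sum_fiberwise_of_maps_to hC g).symm
  have h2 : (∑ i ∈ C, ∑ x ∈ A with cls x = i, g x) ^ 2 ≤
      C.card * ∑ i ∈ C, (∑ x ∈ A with cls x = i, g x) ^ 2 := sq_sum_le_card_mul_sum_sq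
  have h3 : ∀ i ∈ C, 2 * (∑ x ∈ A with cls x = i, g x) ^ 2 ≤
      (κ : ℝ) ^ 2 * ∑ x ∈ A with cls x = i, ∑ y ∈ A, (if R x y then g x * g y else 0) := by
    intro i _
    have h4 := hM α (A.filter fun x => cls x = i) R κ g hκ hg (fun f hf => by
      refine hR f (fun j => (Finset.mem_filter.mp (hf j)).1) fun j k => ?_
      rw [(Finset.mem_filter.mp (hf j)).2, (Finset.mem_filter.mp (hf k)).2])
    refine h4.trans (mul_le_mul_of_nonneg_left ?_ (sq_nonneg _))
    refine Finset.sum_le_sum fun x _ => ?_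
    refine Finset.sum_le_sum_of_subset_of_nonneg (Finset.filter_subset _ _) fun y _ _ => ?_
    split_ifs
    · exact mul_nonneg (hg _) (hg _)
    · exact le_rfl
  have h5 : ∑ i ∈ C, ∑ x ∈ A with cls x = i, ∑ y ∈ A, (if R x y then g x * g y else 0) =
      ∑ x ∈ A, ∑ y ∈ A, (if R x y then g x * g y else 0) :=
    Finset.sum_fiberwise_of_maps_to hC _
  have h6 := Finset.sum_le_sum h3
  rw [← Finset.mul_sum, ← Finset.mul_sum, h5] at h6
  rw [h1]
  have h7 : (0 : ℝ) ≤ C.card := Nat.cast_nonneg _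
  nlinarith [mul_le_mul_of_nonneg_left h6 h7]

theorem vol_bound (D : ℕ) (hD : 1 ≤ D) (p S : Fin D → ℝ) (hS : ∀ l, 0 < S l) :
    volume.real {c : Fin D → ℝ | ∀ l, p l - S l / (25 * D) ≤ c l ∧
      c l ≤ p l + S l + S l / (25 * D)} ≤ 1.1 * ∏ l, S l ∧
    volume {c : Fin D → ℝ | ∀ l, p l - S l / (25 * D) ≤ c l ∧
      c l ≤ p l + S l + S l / (25 * D)} < ⊤ ∧
    0 < volume.real {c : Fin D → ℝ | ∀ l, p l - S l / (25 * D) ≤ c l ∧
      c l ≤ p l + S l + S l / (25 * D)} ∧
    MeasurableSet {c : Fin D → ℝ | ∀ l, p l - S l / (25 * D) ≤ c l ∧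
      c l ≤ p l + S l + S l / (25 * D)} := by
  have hDr : (1 : ℝ) ≤ D := by exact_mod_cast hD
  have hset : {c : Fin D → ℝ | ∀ l, p l - S l / (25 * D) ≤ c l ∧
      c l ≤ p l + S l + S l / (25 * D)} =
      Set.Icc (fun l => p l - S l / (25 * D)) (fun l => p l + S l + S l / (25 * D)) := by
    ext c
    simp only [Set.mem_Icc, Pi.le_def]
    constructor
    · intro h; exact ⟨fun l => (h l).1, fun l => (h l).2⟩
    · intro h l; exact ⟨h.1 l, h.2 l⟩
  have hle : (fun l => p l - S l / (25 * D)) ≤ (fun l => p l + S l + S l / (25 * D)) := by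
    intro l
    have : 0 ≤ S l / (25 * D) := div_nonneg (hS l).le (by positivity)
    have := hS l
    simp only
    linarith
  rw [hset]
  have hvol : volume.real (Set.Icc (fun l => p l - S l / (25 * D))
      (fun l => p l + S l + S l / (25 * D))) = ∏ l, (S l * (1 + 2 / (25 * D))) := by
    rw [measureReal_def, Real.volume_Icc_pi_toReal hle]
    refine Finset.prod_congr rfl fun l _ => ?_
    field_simp
    ring
  refine ⟨?_, isCompact_Icc.measure_lt_top, ?_, measurableSet_Icc⟩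
  · rw [hvol, Finset.prod_mul_distrib, mul_comm]
    refine mul_le_mul_of_nonneg_right ?_ (Finset.prod_nonneg fun l _ => (hS l).le)
    rw [Finset.prod_const, Finset.card_univ, Fintype.card_fin]
    have h1 : (1 + 2 / (25 * (D : ℝ))) ^ D ≤ Real.exp (2 / 25) := by
      have h2 : 1 + 2 / (25 * (D : ℝ)) ≤ Real.exp (2 / (25 * D)) := by
        have := Real.add_one_le_exp (2 / (25 * (D : ℝ)))
        linarith
      calc (1 + 2 / (25 * (D : ℝ))) ^ D ≤ (Real.exp (2 / (25 * D))) ^ D :=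
            pow_le_pow_left₀ (by positivity) h2 D
        _ = Real.exp (2 / 25) := by
            rw [← Real.exp_nat_mul]
            congr 1
            field_simp
    refine h1.trans ?_
    have h3 : Real.exp (2 / 25) ≤ 1 / (1 - 2 / 25) := by
      have h4 := Real.add_one_le_exp (-(2 / 25 : ℝ))
      have h5 : 0 < Real.exp (2 / 25 : ℝ) := Real.exp_pos _
      rw [Real.exp_neg] at h4
      rw [le_div_iff₀ (by norm_num)]
      have h6 : Real.exp (2 / 25 : ℝ) * (Real.exp (2 / 25 : ℝ))⁻¹ = 1 := mul_inv_cancel₀ h5.ne'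
      nlinarith
    refine h3.trans ?_
    norm_num
  · rw [hvol]
    exact Finset.prod_pos fun l _ => mul_pos (hS l) (by positivity)

end GBX_

open GBX_ in
theorem gbx_proof (h1 : Stmt_MSS) (h2 : Stmt_GAI) (h3 : Stmt_GAL) (h4 : Stmt_GAG) :
    Stmt_GBX := by
  intro D κ F B am p S A Ap C cls I img hD hB hκ ham hS hA hC hf hF hgrid
  have hDr : (1 : ℝ) ≤ D := by exact_mod_cast hD
  have hBpos : 0 < B := lt_of_lt_of_le (by positivity) hB
  have hsB : 0 < Real.sqrt B := Real.sqrt_pos.mpr hBpos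
  let σ : Fin D → ℝ := fun l => S l / Real.sqrt B
  have hσ : ∀ l, 0 < σ l := fun l => div_pos (hS l) hsB
  obtain ⟨R, hRdef⟩ : ∃ R : (Fin D → ℝ) → (Fin D → ℝ) → Prop,
      ∀ x y, R x y ↔ (img x = img y ∨ ∃ m ∈ Ap, m + m = x + y) := ⟨_, fun x y => Iff.rfl⟩
  have hR : ∀ f : Fin κ → (Fin D → ℝ), (∀ i, f i ∈ A) → (∀ i j, cls (f i) = cls (f j)) →
      ∃ i j, i < j ∧ R (f i) (f j) := by
    intro f hf1 hf2
    obtain ⟨i, j, hij, h⟩ := hf f hf1 hf2
    exact ⟨i, j, hij, (hRdef _ _).mpr h⟩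
  have hpt : ∀ c : Fin D → ℝ, 2 * (∑ x ∈ A, gw σ x c) ^ 2 ≤
      (κ : ℝ) ^ 2 * C.card * ∑ x ∈ A, ∑ y ∈ A, if R x y then gw σ x c * gw σ y c else 0 :=
    fun c => pointwise h1 κ hκ A C cls hC R hR (fun x => gw σ x c) fun x => (Real.exp_pos _).le
  obtain ⟨hv1, hv2, hv3, hv4⟩ := vol_bound D hD p S hS
  set β : Set (Fin D → ℝ) := {c : Fin D → ℝ | ∀ l, p l - S l / (25 * D) ≤ c l ∧
      c l ≤ p l + S l + S l / (25 * D)} with hβ
  -- integrability
  have hint1 : ∀ x : Fin D → ℝ, Integrable (fun c => gw σ x c) := fun x => (h2 D σ hσ x x).2.1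
  have hint2 : ∀ x y : Fin D → ℝ, Integrable (fun c => gw σ x c * gw σ y c) :=
    fun x y => (h2 D σ hσ x y).2.2
  have hsq : ∀ c : Fin D → ℝ, (∑ x ∈ A, gw σ x c) ^ 2 =
      ∑ x ∈ A, ∑ y ∈ A, gw σ x c * gw σ y c := by
    intro c
    rw [sq, Finset.sum_mul_sum]
  have hintf : Integrable (fun c => ∑ x ∈ A, gw σ x c) :=
    integrable_finset_sum _ fun x _ => hint1 x
  have hintf2 : Integrable (fun c => (∑ x ∈ A, gw σ x c) ^ 2) := by
    simp only [hsq]
    exact integrable_finset_sum _ fun x _ => integrable_finset_sum _ fun y _ => hint2 x y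
  have hintR : ∀ x y : Fin D → ℝ, Integrable (fun c =>
      if R x y then gw σ x c * gw σ y c else 0) := by
    intro x y
    by_cases h : R x y
    · simp only [if_pos h]; exact hint2 x y
    · simp only [if_neg h]; exact integrable_zero _ _ _
  have hintR2 : Integrable (fun c => ∑ x ∈ A, ∑ y ∈ A,
      if R x y then gw σ x c * gw σ y c else 0) :=
    integrable_finset_sum _ fun x _ => integrable_finset_sum _ fun y _ => hintR x y
  -- Gaussian constants
  obtain ⟨G', hG'⟩ : ∃ G', G' = ∏ l, (Real.sqrt Real.pi * σ l) := ⟨_, rfl⟩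
  have hG'pos : 0 < G' := by
    rw [hG']
    exact Finset.prod_pos fun l _ => mul_pos (Real.sqrt_pos.mpr Real.pi_pos) (hσ l)
  obtain ⟨G, hG⟩ : ∃ G, G = ∏ l, (Real.sqrt (2 * Real.pi) * σ l) := ⟨_, rfl⟩
  have hGG : G ^ 2 = 2 ^ D * G' ^ 2 := by
    rw [hG, hG', ← Finset.prod_pow, ← Finset.prod_pow]
    have h5 : (2 : ℝ) ^ D = ∏ _l : Fin D, (2 : ℝ) := by simp
    rw [h5, ← Finset.prod_mul_distrib]
    refine Finset.prod_congr rfl fun l _ => ?_
    rw [mul_pow, mul_pow, Real.sq_sqrt (by positivity), Real.sq_sqrt Real.pi_pos.le]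
    ring
  have hGpos : 0 < G := by
    rw [hG]
    exact Finset.prod_pos fun l _ => mul_pos (Real.sqrt_pos.mpr (by positivity)) (hσ l)
  -- lower bound
  have hI : 0.9 * G * A.card ≤ ∫ c in β, ∑ x ∈ A, gw σ x c := by
    rw [integral_finset_sum _ fun x _ => (hint1 x).integrableOn]
    have h5 : ∑ _x ∈ A, 0.9 * G ≤ ∑ x ∈ A, ∫ c in β, gw σ x c := by
      refine Finset.sum_le_sum fun x hx => ?_
      rw [hG]
      exact h3 D B p S hD hB hS x (hA x hx)
    rw [Finset.sum_const, nsmul_eq_mul] at h5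
    linarith
  have hJ : (∫ c in β, ∑ x ∈ A, gw σ x c) ^ 2 ≤
      volume.real β * ∫ c in β, (∑ x ∈ A, gw σ x c) ^ 2 := by
    set f : (Fin D → ℝ) → ℝ := fun c => ∑ x ∈ A, gw σ x c with hfdef
    set J1 := ∫ c in β, f c with hJ1
    set V := volume.real β with hV
    have hfin : volume β ≠ ⊤ := hv2.ne
    have h5 : 0 ≤ ∫ c in β, (f c - J1 / V) ^ 2 := integral_nonneg fun c => sq_nonneg _
    have h6 : ∫ c in β, (f c - J1 / V) ^ 2 =
        (∫ c in β, (f c) ^ 2) - 2 * (J1 / V) * J1 + (J1 / V) ^ 2 * V := by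
      have h7 : ∀ c, (f c - J1 / V) ^ 2 = ((f c) ^ 2 - 2 * (J1 / V) * f c) + (J1 / V) ^ 2 := by
        intro c; ring
      simp only [h7]
      have hi1 : IntegrableOn (fun c => (f c) ^ 2) β := hintf2.integrableOn
      have hi2 : IntegrableOn (fun c => 2 * (J1 / V) * f c) β := (hintf.const_mul _).integrableOn
      have hi3 : IntegrableOn (fun _ : Fin D → ℝ => (J1 / V) ^ 2) β :=
        integrableOn_const hfin
      have e1 : ∫ c in β, ((f c ^ 2 - 2 * (J1 / V) * f c) + (J1 / V) ^ 2) =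
          (∫ c in β, (f c ^ 2 - 2 * (J1 / V) * f c)) + ∫ _c in β, (J1 / V) ^ 2 :=
        integral_add (hi1.sub hi2) hi3
      have e2 : ∫ c in β, (f c ^ 2 - 2 * (J1 / V) * f c) =
          (∫ c in β, f c ^ 2) - ∫ c in β, 2 * (J1 / V) * f c := integral_sub hi1 hi2
      rw [e1, e2, integral_const_mul, setIntegral_const, smul_eq_mul]
      ring
    rw [h6] at h5
    have h8 : V ≠ 0 := hv3.ne'
    have h9 : (∫ c in β, (f c) ^ 2) - 2 * (J1 / V) * J1 + (J1 / V) ^ 2 * V =
        (∫ c in β, (f c) ^ 2) - J1 ^ 2 / V := by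
      field_simp
      ring
    rw [h9, sub_nonneg, div_le_iff₀ hv3] at h5
    linarith
  have hK : ∫ c in β, (∑ x ∈ A, gw σ x c) ^ 2 ≤ ∫ c, (∑ x ∈ A, gw σ x c) ^ 2 :=
    setIntegral_le_integral hintf2 (Filter.Eventually.of_forall fun c => sq_nonneg _)
  have hL : 2 * ∫ c, (∑ x ∈ A, gw σ x c) ^ 2 ≤ (κ : ℝ) ^ 2 * C.card *
      ∑ x ∈ A, ∑ y ∈ A, ∫ c, (if R x y then gw σ x c * gw σ y c else 0) := by
    have h5 := integral_mono (hintf2.const_mul 2) (hintR2.const_mul ((κ : ℝ) ^ 2 * C.card)) hpt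
    rw [integral_const_mul, integral_const_mul] at h5
    refine h5.trans (le_of_eq ?_)
    congr 1
    rw [integral_finset_sum _ fun x _ => integrable_finset_sum _ fun y _ => hintR x y]
    refine Finset.sum_congr rfl fun x _ => ?_
    rw [integral_finset_sum _ fun y _ => hintR x y]
  -- upper bound for the related pairs
  have hpair : ∀ x ∈ A, ∀ y ∈ A, ∫ c, (if R x y then gw σ x c * gw σ y c else 0) ≤
      (if img y = img x then G' else 0) +
        ∑ m ∈ Ap, (if m + m = x + y then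
          Real.exp (-(∑ l, (x l - m l) ^ 2 / (S l / Real.sqrt B) ^ 2)) * G' else 0) := by
    intro x _ y _
    have hsumnn : 0 ≤ ∑ m ∈ Ap, (if m + m = x + y then
          Real.exp (-(∑ l, (x l - m l) ^ 2 / (S l / Real.sqrt B) ^ 2)) * G' else 0) := by
      refine Finset.sum_nonneg fun m _ => ?_
      split_ifs
      · positivity
      · exact le_rfl
    by_cases h : R x y
    · simp only [if_pos h]
      have hval : ∫ c, gw σ x c * gw σ y c =
          Real.exp (-(∑ l, ((x l - y l) / 2) ^ 2 / σ l ^ 2)) * G' := by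
        rw [hG']; exact (h2 D σ hσ x y).1
      rw [hval]
      by_cases h' : img y = img x
      · rw [if_pos h']
        have h5 : Real.exp (-(∑ l, ((x l - y l) / 2) ^ 2 / σ l ^ 2)) ≤ 1 := by
          rw [Real.exp_le_one_iff, neg_nonpos]
          exact Finset.sum_nonneg fun l _ => div_nonneg (sq_nonneg _) (sq_nonneg _)
        nlinarith
      · rw [if_neg h', zero_add]
        rcases (hRdef _ _).mp h with h | ⟨m, hm, hmm⟩
        · exact absurd h.symm h'
        · have h6 : (if m + m = x + y then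
              Real.exp (-(∑ l, (x l - m l) ^ 2 / (S l / Real.sqrt B) ^ 2)) * G' else 0) ≤
              ∑ m ∈ Ap, (if m + m = x + y then
                Real.exp (-(∑ l, (x l - m l) ^ 2 / (S l / Real.sqrt B) ^ 2)) * G' else 0) :=
            Finset.single_le_sum (f := fun m => if m + m = x + y then
              Real.exp (-(∑ l, (x l - m l) ^ 2 / (S l / Real.sqrt B) ^ 2)) * G' else 0)
              (fun m _ => by
                split_ifs
                · positivity
                · exact le_rfl) hm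
          refine le_trans (le_of_eq ?_) h6
          rw [if_pos hmm]
          congr 3
          refine Finset.sum_congr rfl fun l _ => ?_
          have h7 : m l + m l = x l + y l := congrFun hmm l
          have h8 : (x l - y l) / 2 = x l - m l := by linarith
          rw [h8]
    · simp only [if_neg h, integral_zero]
      refine add_nonneg ?_ hsumnn
      split_ifs
      · exact hG'pos.le
      · exact le_rfl
  have hsum : ∑ x ∈ A, ∑ y ∈ A, ∫ c, (if R x y then gw σ x c * gw σ y c else 0) ≤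
      A.card * F * G' + Ap.card * (1.1 * am * G') * G' := by
    refine (Finset.sum_le_sum fun x hx => Finset.sum_le_sum fun y hy => hpair x hx y hy).trans ?_
    simp only [Finset.sum_add_distrib]
    refine add_le_add ?_ ?_
    · calc ∑ x ∈ A, ∑ y ∈ A, (if img y = img x then G' else 0)
          ≤ ∑ _x ∈ A, (F : ℝ) * G' := by
            refine Finset.sum_le_sum fun x hx => ?_
            rw [← Finset.sum_filter, Finset.sum_const, nsmul_eq_mul]
            refine mul_le_mul_of_nonneg_right ?_ hG'pos.le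
            exact_mod_cast hF x hx
        _ = A.card * F * G' := by
            rw [Finset.sum_const, nsmul_eq_mul]; ring
    · have hswap : ∑ x ∈ A, ∑ y ∈ A, ∑ m ∈ Ap, (if m + m = x + y then
            Real.exp (-(∑ l, (x l - m l) ^ 2 / (S l / Real.sqrt B) ^ 2)) * G' else 0) =
          ∑ m ∈ Ap, ∑ x ∈ A, ∑ y ∈ A, (if m + m = x + y then
            Real.exp (-(∑ l, (x l - m l) ^ 2 / (S l / Real.sqrt B) ^ 2)) * G' else 0) := by
        refine (Finset.sum_congr rfl fun x _ => Finset.sum_comm).trans ?_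
        exact Finset.sum_comm
      rw [hswap]
      calc ∑ m ∈ Ap, ∑ x ∈ A, ∑ y ∈ A, (if m + m = x + y then
              Real.exp (-(∑ l, (x l - m l) ^ 2 / (S l / Real.sqrt B) ^ 2)) * G' else 0)
          ≤ ∑ m ∈ Ap, ∑ x ∈ A,
              Real.exp (-(∑ l, (x l - m l) ^ 2 / (S l / Real.sqrt B) ^ 2)) * G' := by
            refine Finset.sum_le_sum fun m _ => Finset.sum_le_sum fun x _ => ?_
            rw [← Finset.sum_filter, Finset.sum_const, nsmul_eq_mul]
            have h5 : (A.filter fun y => m + m = x + y).card ≤ 1 := by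
              rw [Finset.card_le_one]
              intro a ha b hb
              have h6 := (Finset.mem_filter.mp ha).2
              have h7 := (Finset.mem_filter.mp hb).2
              rw [h6] at h7
              exact add_left_cancel h7
            have h6 : ((A.filter fun y => m + m = x + y).card : ℝ) ≤ 1 := by exact_mod_cast h5
            have h7 : 0 ≤ Real.exp (-(∑ l, (x l - m l) ^ 2 / (S l / Real.sqrt B) ^ 2)) * G' := by
              positivity
            nlinarith
        _ ≤ ∑ _m ∈ Ap, (1.1 * am * G') * G' := by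
            refine Finset.sum_le_sum fun m _ => ?_
            rw [← Finset.sum_mul]
            refine mul_le_mul_of_nonneg_right ?_ hG'pos.le
            rw [hG']
            exact h4 D B p S hD hB hS m A am ham hgrid
        _ = Ap.card * (1.1 * am * G') * G' := by
            rw [Finset.sum_const, nsmul_eq_mul]; ring
  -- conclusion
  have hPS : 0 < ∏ l, S l := Finset.prod_pos fun l _ => hS l
  have hfinal1 : 2 * (0.9 * G * A.card) ^ 2 ≤ 1.1 * (∏ l, S l) *
      ((κ : ℝ) ^ 2 * C.card * (A.card * F * G' + Ap.card * (1.1 * am * G') * G')) := by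
    have h5 : (0.9 * G * A.card) ^ 2 ≤ (∫ c in β, ∑ x ∈ A, gw σ x c) ^ 2 :=
      pow_le_pow_left₀ (by positivity) hI 2
    have h6 : 0 ≤ ∫ c, (∑ x ∈ A, gw σ x c) ^ 2 := integral_nonneg fun c => sq_nonneg _
    have h7 : (∫ c in β, ∑ x ∈ A, gw σ x c) ^ 2 ≤
        1.1 * (∏ l, S l) * ∫ c, (∑ x ∈ A, gw σ x c) ^ 2 := by
      refine hJ.trans ?_
      exact mul_le_mul hv1 hK (integral_nonneg fun c => sq_nonneg _) (by positivity)
    have h8 : 2 * ∫ c, (∑ x ∈ A, gw σ x c) ^ 2 ≤ (κ : ℝ) ^ 2 * C.card *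
        (A.card * F * G' + Ap.card * (1.1 * am * G') * G') :=
      hL.trans (mul_le_mul_of_nonneg_left hsum (by positivity))
    calc 2 * (0.9 * G * A.card) ^ 2 ≤ 2 * (1.1 * (∏ l, S l) *
          ∫ c, (∑ x ∈ A, gw σ x c) ^ 2) := by linarith
      _ = 1.1 * (∏ l, S l) * (2 * ∫ c, (∑ x ∈ A, gw σ x c) ^ 2) := by ring
      _ ≤ _ := mul_le_mul_of_nonneg_left h8 (by positivity)
  have hPG : (∏ l, S l) ≤ Real.sqrt B ^ D * G' := by
    have h5 : Real.sqrt B ^ D = ∏ _l : Fin D, Real.sqrt B := by simp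
    rw [h5, hG', ← Finset.prod_mul_distrib]
    refine Finset.prod_le_prod (fun l _ => (hS l).le) fun l _ => ?_
    have h6 : Real.sqrt B * (Real.sqrt Real.pi * σ l) = Real.sqrt Real.pi * S l := by
      simp only [σ]
      field_simp
    rw [h6]
    have h7 : 1 ≤ Real.sqrt Real.pi := by
      rw [Real.one_le_sqrt]
      linarith [Real.pi_gt_three]
    nlinarith [hS l]
  have hk0 : (0 : ℝ) ≤ (κ : ℝ) ^ 2 * C.card := by positivity
  have hfinal2 : 1.62 * 2 ^ D * (A.card : ℝ) ^ 2 * G' ^ 2 ≤ 1.1 * ((κ : ℝ) ^ 2 * C.card *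
      (1.1 * am * (Ap.card : ℝ) * ∏ l, S l + (A.card : ℝ) * F * Real.sqrt B ^ D)) * G' ^ 2 := by
    have h5 : 2 * (0.9 * G * A.card) ^ 2 = 1.62 * 2 ^ D * (A.card : ℝ) ^ 2 * G' ^ 2 := by
      calc 2 * (0.9 * G * A.card) ^ 2 = 1.62 * G ^ 2 * (A.card : ℝ) ^ 2 := by ring
        _ = _ := by rw [hGG]; ring
    rw [h5] at hfinal1
    refine hfinal1.trans ?_
    have h6 : (∏ l, S l) * (A.card * F * G') ≤ (A.card * F * Real.sqrt B ^ D) * G' ^ 2 := by
      have h7 : (0 : ℝ) ≤ A.card * F * G' := by positivity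
      calc (∏ l, S l) * (A.card * F * G') ≤ (Real.sqrt B ^ D * G') * (A.card * F * G') :=
            mul_le_mul_of_nonneg_right hPG h7
        _ = _ := by ring
    have h8 : 1.1 * (∏ l, S l) *
      ((κ : ℝ) ^ 2 * C.card * (A.card * F * G' + Ap.card * (1.1 * am * G') * G')) =
      1.1 * ((κ : ℝ) ^ 2 * C.card) * ((∏ l, S l) * (A.card * F * G') +
        1.1 * am * Ap.card * (∏ l, S l) * G' ^ 2) := by ring
    rw [h8]
    calc 1.1 * ((κ : ℝ) ^ 2 * C.card) * ((∏ l, S l) * (A.card * F * G') +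
        1.1 * am * Ap.card * (∏ l, S l) * G' ^ 2)
        ≤ 1.1 * ((κ : ℝ) ^ 2 * C.card) * ((A.card * F * Real.sqrt B ^ D) * G' ^ 2 +
        1.1 * am * Ap.card * (∏ l, S l) * G' ^ 2) := by
          refine mul_le_mul_of_nonneg_left ?_ (by positivity)
          linarith
      _ = _ := by ring
  have hG2 : 0 < G' ^ 2 := by positivity
  have hfinal3 := le_of_mul_le_mul_right hfinal2 hG2
  have h5 : 0 ≤ 2 ^ D * (A.card : ℝ) ^ 2 := by positivity
  nlinarith

end Pool.Agent.EMS
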