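import Pool.Agent.EMS.StmtsC

/-!
# HKZ: reduced bases of a discrete submodule (induction on the dimension)
-/

set_option autoImplicit false

open scoped BigOperators RealInnerProductSpace

namespace Pool.Agent.EMS

namespace HKZ_

variable {E : Type} [NormedAddCommGroup E] [InnerProductSpace ℝ E]

/-- projection orthogonal to `b` -/
noncomputable def pr (b : E) : E →ₗ[ℝ] E :=
  LinearMap.id - (innerₛₗ ℝ b).smulRight ((‖b‖ ^ 2)⁻¹ • b)

lemma pr_apply (b y : E) : pr b y = y - inner ℝ b y • (‖b‖ ^ 2)⁻¹ • b := by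
  simp [pr]

lemma pr_add (b y : E) : y = pr b y + (inner ℝ b y * (‖b‖ ^ 2)⁻¹) • b := by
  rw [pr_apply, smul_smul]; abel

lemma pr_self (b : E) (hb : b ≠ 0) : pr b b = 0 := by
  rw [pr_apply, real_inner_self_eq_norm_sq, smul_smul,
    mul_inv_cancel₀ (by have := norm_pos_iff.mpr hb; positivity), one_smul, sub_self]

lemma inner_pr (b y : E) (hb : b ≠ 0) : inner ℝ b (pr b y) = (0 : ℝ) := by
  have h : ‖b‖ ^ 2 ≠ 0 := by have := norm_pos_iff.mpr hb; positivity
  rw [pr_apply, inner_sub_right, inner_smul_right, inner_smul_right, real_inner_self_eq_norm_sq,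
    inv_mul_cancel₀ h, mul_one, sub_self]

lemma norm_add (b y : E) (hb : b ≠ 0) (μ : ℝ) :
    ‖pr b y + μ • b‖ ^ 2 = ‖pr b y‖ ^ 2 + μ ^ 2 * ‖b‖ ^ 2 := by
  rw [norm_add_sq_real, inner_smul_right, real_inner_comm, inner_pr b y hb, norm_smul, mul_pow,
    Real.norm_eq_abs, sq_abs]
  ring

lemma norm_pr_le (b y : E) (hb : b ≠ 0) : ‖pr b y‖ ≤ ‖y‖ := by
  have h := norm_add b y hb (inner ℝ b y * (‖b‖ ^ 2)⁻¹)
  rw [← pr_add] at h
  apply le_of_sq_le_sq _ (norm_nonneg _)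
  rw [h]
  nlinarith [mul_nonneg (sq_nonneg (inner ℝ b y * (‖b‖ ^ 2)⁻¹)) (sq_nonneg ‖b‖)]

/-- lifts with small last coordinate -/
lemma lift (L : Submodule ℤ E) (b : E) (hb : b ≠ 0) (hbL : b ∈ L) (y : E) (hy : y ∈ L) :
    ∃ z ∈ L, pr b z = pr b y ∧ ‖z‖ ^ 2 ≤ ‖pr b y‖ ^ 2 + ‖b‖ ^ 2 / 4 := by
  set c : ℝ := inner ℝ b y * (‖b‖ ^ 2)⁻¹ with hc
  have hz : y - (round c : ℤ) • b = pr b y + (c - round c) • b := by
    conv_lhs => rw [pr_add b y]
    rw [← hc, sub_smul, Int.cast_smul_eq_zsmul]; abel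
  refine ⟨y - (round c : ℤ) • b, L.sub_mem hy (L.smul_mem _ hbL), ?_, ?_⟩
  · rw [map_sub, map_zsmul, pr_self b hb, smul_zero, sub_zero]
  · rw [hz, norm_add b y hb]
    have h1 : |c - round c| ≤ 1 / 2 := abs_sub_round c
    have h2 : (c - round c) ^ 2 ≤ 1 / 4 := by
      rw [← sq_abs]
      nlinarith [abs_nonneg (c - round c)]
    nlinarith [mul_le_mul_of_nonneg_right h2 (sq_nonneg ‖b‖)]

lemma main [FiniteDimensional ℝ E] : ∀ (n : ℕ) (W : Submodule ℝ E), Module.finrank ℝ W ≤ n →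
    ∀ (L : Submodule ℤ E), (∀ y ∈ L, y ∈ W) → (∀ R : ℝ, {y : E | y ∈ L ∧ ‖y‖ ≤ R}.Finite) →
    ∃ (d : ℕ) (b : Fin d → E) (δ : Fin d → ℝ),
      (∀ l, b l ∈ L) ∧ (∀ y ∈ L, ∃ v : Fin d → ℤ, y = ∑ l, (v l : ℝ) • b l) ∧
      (∀ l, 0 < δ l) ∧ (∀ l : Fin d, ‖b l‖ ^ 2 ≤ (4 / 3 : ℝ) ^ (l : ℕ) * δ l ^ 2) ∧
      (∀ m : ℝ, 0 ≤ m → (∀ y ∈ L, y ≠ 0 → m ≤ ‖y‖) →
        ∀ l : Fin d, m ^ 2 ≤ (4 / 3 : ℝ) ^ (l : ℕ) * δ l ^ 2) ∧
      ∀ (v : Fin d → ℝ) (l : Fin d), (∀ j, l < j → v j = 0) → |v l| * δ l ≤ ‖∑ j, v j • b j‖ := by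
  intro n
  induction n with
  | zero =>
    intro W hW L hLW _
    have hW0 : W = ⊥ := Submodule.finrank_eq_zero.mp (Nat.le_zero.mp hW)
    refine ⟨0, Fin.elim0, Fin.elim0, fun l => l.elim0, ?_, fun l => l.elim0, fun l => l.elim0,
      fun _ _ _ l => l.elim0, fun _ l => l.elim0⟩
    intro y hy
    refine ⟨fun _ => 0, ?_⟩
    have := hLW y hy
    rw [hW0, Submodule.mem_bot] at this
    simp [this]
  | succ n ih =>
    intro W hW L hLW hfin
    by_cases hL : ∀ y ∈ L, y = 0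
    · refine ⟨0, Fin.elim0, Fin.elim0, fun l => l.elim0, ?_, fun l => l.elim0, fun l => l.elim0,
        fun _ _ _ l => l.elim0, fun _ l => l.elim0⟩
      intro y hy
      refine ⟨fun _ => 0, ?_⟩
      simp [hL y hy]
    push Not at hL
    obtain ⟨y0, hy0, hy0n⟩ := hL
    -- shortest vector
    obtain ⟨b, ⟨⟨hbL, -⟩, hb⟩, hmin⟩ : ∃ b ∈ {y : E | y ∈ L ∧ ‖y‖ ≤ ‖y0‖} \ {0},
        ∀ z ∈ {y : E | y ∈ L ∧ ‖y‖ ≤ ‖y0‖} \ {0}, ‖b‖ ≤ ‖z‖ :=
      Set.exists_min_image _ (fun y => ‖y‖) ((hfin ‖y0‖).subset Set.diff_subset)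
        ⟨y0, ⟨hy0, le_refl _⟩, hy0n⟩
    have hb : b ≠ 0 := hb
    have hshort : ∀ z ∈ L, z ≠ 0 → ‖b‖ ≤ ‖z‖ := by
      intro z hz hzn
      by_cases h : ‖z‖ ≤ ‖y0‖
      · exact hmin z ⟨⟨hz, h⟩, hzn⟩
      · push Not at h
        exact le_trans (hmin y0 ⟨⟨hy0, le_refl _⟩, hy0n⟩) h.le
    have hbn : 0 < ‖b‖ := norm_pos_iff.mpr hb
    -- the projected lattice
    set L' : Submodule ℤ E := L.map ((pr b).restrictScalars ℤ) with hL'
    have hmem' : ∀ y, y ∈ L' ↔ ∃ z ∈ L, pr b z = y := by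
      intro y; rw [hL', Submodule.mem_map]; rfl
    set W' : Submodule ℝ E := W ⊓ (ℝ ∙ b)ᗮ with hW'
    have hbW : b ∈ W := hLW b hbL
    have hlt : W' < W := by
      refine lt_of_le_of_ne inf_le_left ?_
      intro h
      have h1 : b ∈ W' := by rw [h]; exact hbW
      have h2 := (Submodule.mem_orthogonal_singleton_iff_inner_right.mp h1.2)
      exact hb (inner_self_eq_zero.mp h2)
    have hWd : Module.finrank ℝ W' ≤ n := by
      have := Submodule.finrank_lt_finrank_of_lt hlt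
      omega
    have hLW' : ∀ y ∈ L', y ∈ W' := by
      intro y hy
      obtain ⟨z, hz, rfl⟩ := (hmem' y).mp hy
      refine ⟨?_, Submodule.mem_orthogonal_singleton_iff_inner_right.mpr (inner_pr b z hb)⟩
      rw [pr_apply]
      exact W.sub_mem (hLW z hz) (W.smul_mem _ (W.smul_mem _ hbW))
    have hfin' : ∀ R : ℝ, {y : E | y ∈ L' ∧ ‖y‖ ≤ R}.Finite := by
      intro R
      refine ((hfin (|R| + ‖b‖)).image (pr b)).subset ?_
      rintro y ⟨hy, hyR⟩
      obtain ⟨z, hz, rfl⟩ := (hmem' y).mp hy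
      obtain ⟨x, hx, hxz, hxn⟩ := lift L b hb hbL z hz
      refine ⟨x, ⟨hx, ?_⟩, hxz⟩
      apply le_of_sq_le_sq _ (by positivity)
      have h1 : ‖pr b z‖ ≤ |R| := hyR.trans (le_abs_self R)
      nlinarith [norm_nonneg (pr b z), abs_nonneg R]
    obtain ⟨d, b', δ', h1, h2, h3, h4, h5, h6⟩ := ih W' hWd L' hLW' hfin'
    have hex : ∀ l, ∃ z ∈ L, pr b z = b' l ∧ ‖z‖ ^ 2 ≤ ‖b' l‖ ^ 2 + ‖b‖ ^ 2 / 4 := by
      intro l
      obtain ⟨z, hz, hzb⟩ := (hmem' _).mp (h1 l)
      obtain ⟨x, hx, hxz, hxn⟩ := lift L b hb hbL z hz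
      exact ⟨x, hx, hxz.trans hzb, by rw [← hzb]; exact hxn⟩
    choose c hcL hcb hcn using hex
    -- lower bound for the projected lattice
    have h5' : ∀ l : Fin d, 3 / 4 * ‖b‖ ^ 2 ≤ (4 / 3 : ℝ) ^ (l : ℕ) * δ' l ^ 2 := by
      have hs : (Real.sqrt (3 / 4) * ‖b‖) ^ 2 = 3 / 4 * ‖b‖ ^ 2 := by
        rw [mul_pow, Real.sq_sqrt (by norm_num)]
      intro l
      rw [← hs]
      refine h5 _ (by positivity) ?_ l
      intro y hy hyn
      obtain ⟨z, hz, rfl⟩ := (hmem' y).mp hy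
      obtain ⟨x, hx, hxz, hxn⟩ := lift L b hb hbL z hz
      have hx0 : x ≠ 0 := by
        rintro rfl
        exact hyn (by rw [← hxz, map_zero])
      have := hshort x hx hx0
      apply le_of_sq_le_sq _ (norm_nonneg _)
      rw [hs]
      nlinarith [norm_nonneg x]
    refine ⟨d + 1, Fin.cons b c, Fin.cons ‖b‖ δ', ?_, ?_, ?_, ?_, ?_, ?_⟩
    · intro l
      refine Fin.cases ?_ (fun i => ?_) l
      · simpa using hbL
      · simpa using hcL i
    · intro y hy
      obtain ⟨v, hv⟩ := h2 (pr b y) ((hmem' _).mpr ⟨y, hy, rfl⟩)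
      set w : E := y - ∑ l, (v l : ℝ) • c l with hw
      have hwL : w ∈ L := by
        refine L.sub_mem hy (L.sum_mem fun l _ => ?_)
        rw [Int.cast_smul_eq_zsmul]
        exact L.smul_mem _ (hcL l)
      have hwp : pr b w = 0 := by
        rw [hw, map_sub, hv, map_sum]
        simp only [map_smul, hcb, sub_self]
      set a : ℝ := inner ℝ b w * (‖b‖ ^ 2)⁻¹ with ha
      have hwa : w = a • b := by
        conv_lhs => rw [pr_add b w]
        rw [hwp, zero_add]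
      have hr : w - (round a : ℤ) • b = (a - round a) • b := by
        rw [sub_smul, Int.cast_smul_eq_zsmul, ← hwa]
      have hz0 : w - (round a : ℤ) • b = 0 := by
        by_contra hne
        have h7 := hshort _ (L.sub_mem hwL (L.smul_mem _ hbL)) hne
        rw [hr, norm_smul, Real.norm_eq_abs] at h7
        have h8 : |a - round a| ≤ 1 / 2 := abs_sub_round a
        nlinarith
      refine ⟨Fin.cons (round a) v, ?_⟩
      rw [Fin.sum_univ_succ]
      simp only [Fin.cons_zero, Fin.cons_succ]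
      rw [Int.cast_smul_eq_zsmul, ← sub_eq_zero.mp hz0, hw]
      abel
    · intro l
      refine Fin.cases ?_ (fun i => ?_) l
      · simpa using hb
      · simpa using h3 i
    · intro l
      refine Fin.cases ?_ (fun i => ?_) l
      · simp
      · simp only [Fin.cons_succ, Fin.val_succ]
        have e1 := hcn i
        have e2 := h4 i
        have e3 := h5' i
        have e4 : (4 / 3 : ℝ) ^ ((i : ℕ) + 1) * δ' i ^ 2
            = 4 / 3 * ((4 / 3 : ℝ) ^ (i : ℕ) * δ' i ^ 2) := by ring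
        linarith
    · intro m hm hm2 l
      have hmb : m ≤ ‖b‖ := hm2 b hbL hb
      have hmb2 : m ^ 2 ≤ ‖b‖ ^ 2 := by nlinarith
      refine Fin.cases ?_ (fun i => ?_) l
      · simpa using hmb2
      · simp only [Fin.cons_succ, Fin.val_succ]
        have e3 := h5' i
        have e4 : (4 / 3 : ℝ) ^ ((i : ℕ) + 1) * δ' i ^ 2
            = 4 / 3 * ((4 / 3 : ℝ) ^ (i : ℕ) * δ' i ^ 2) := by ring
        linarith
    · intro v l hvl
      rw [Fin.sum_univ_succ]
      simp only [Fin.cons_zero, Fin.cons_succ]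
      revert hvl
      refine Fin.cases ?_ (fun i => ?_) l
      · intro hvl
        have : ∑ i : Fin d, v i.succ • c i = 0 :=
          Finset.sum_eq_zero fun i _ => by rw [hvl i.succ (Fin.succ_pos i), zero_smul]
        rw [this, add_zero, norm_smul, Fin.cons_zero, Real.norm_eq_abs]
      · intro hvl
        rw [Fin.cons_succ]
        refine (h6 (fun j => v j.succ) i (fun j hj => hvl _ (Fin.succ_lt_succ_iff.mpr hj))).trans ?_
        refine le_trans (le_of_eq ?_) (norm_pr_le b _ hb)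
        rw [map_add, map_smul, pr_self b hb, smul_zero, zero_add, map_sum]
        simp only [map_smul, hcb]

end HKZ_

open HKZ_ in
theorem hkz_proof : Stmt_HKZ := by
  intro E _ _ _ L _
  have hcl : IsClosed (L.toAddSubgroup : Set E) := by
    have : DiscreteTopology L.toAddSubgroup := inferInstanceAs (DiscreteTopology L)
    exact AddSubgroup.isClosed_of_discrete
  have hfin : ∀ R : ℝ, {y : E | y ∈ L ∧ ‖y‖ ≤ R}.Finite := by
    intro R
    have hd : IsDiscrete (L.toAddSubgroup : Set E) := ⟨inferInstanceAs (DiscreteTopology L)⟩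
    have h := Metric.finite_isBounded_inter_isClosed hd
      (Metric.isBounded_closedBall (x := (0 : E)) (r := R)) hcl
    refine h.subset ?_
    rintro y ⟨hy, hyR⟩
    exact ⟨by simpa using hyR, hy⟩
  obtain ⟨d, b, δ, h1, h2, h3, h4, -, h6⟩ := main (Module.finrank ℝ (⊤ : Submodule ℝ E)) ⊤ (le_refl _)
    L (fun _ _ => Submodule.mem_top) hfin
  have hind : LinearIndependent ℤ (fun l => (⟨b l, h1 l⟩ : L)) := by
    rw [Fintype.linearIndependent_iff]
    intro g hg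
    have hg' : ∑ l, (g l : ℝ) • b l = 0 := by
      have := congrArg (fun x : L => (x : E)) hg
      simpa [Int.cast_smul_eq_zsmul] using this
    by_contra hne
    push Not at hne
    obtain ⟨i, hi⟩ := hne
    have hne' : (Finset.univ.filter fun i => g i ≠ 0).Nonempty := ⟨i, by simpa using hi⟩
    set l := (Finset.univ.filter fun i => g i ≠ 0).max' hne' with hl
    have hlm : g l ≠ 0 := by
      have := Finset.max'_mem _ hne'
      simpa using (Finset.mem_filter.mp this).2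
    have h7 := h6 (fun j => (g j : ℝ)) l (by
      intro j hj
      by_contra hgj
      have : j ∈ Finset.univ.filter fun i => g i ≠ 0 := by
        refine Finset.mem_filter.mpr ⟨Finset.mem_univ _, ?_⟩
        intro h
        exact hgj (by simp [h])
      exact absurd (Finset.le_max' _ j this) (not_le.mpr hj))
    rw [hg', norm_zero] at h7
    have h8 : 0 < |(g l : ℝ)| * δ l := mul_pos (abs_pos.mpr (by exact_mod_cast hlm)) (h3 l)
    linarith
  have hspan : ⊤ ≤ Submodule.span ℤ (Set.range fun l => (⟨b l, h1 l⟩ : L)) := by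
    rintro ⟨y, hy⟩ -
    obtain ⟨v, hv⟩ := h2 y hy
    have : (⟨y, hy⟩ : L) = ∑ l, v l • (⟨b l, h1 l⟩ : L) := by
      apply Subtype.ext
      refine hv.trans ?_
      simp [Int.cast_smul_eq_zsmul]
    rw [this]
    exact Submodule.sum_mem _ fun l _ => Submodule.smul_mem _ _ (Submodule.subset_span ⟨l, rfl⟩)
  have hrank : d = Module.finrank ℤ L := by
    have := Module.finrank_eq_card_basis (Module.Basis.mk hind hspan)
    rw [this, Fintype.card_fin]
  subst hrank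
  refine ⟨b, δ, h1, h2, fun l => ⟨h3 l, ?_⟩, h6⟩
  have h3l := h3 l
  apply le_of_sq_le_sq _ (by positivity)
  refine (h4 l).trans ?_
  rw [mul_pow]
  refine mul_le_mul_of_nonneg_right ?_ (by positivity)
  calc (4 / 3 : ℝ) ^ (l : ℕ) ≤ 4 ^ (l : ℕ) := by gcongr; norm_num
    _ ≤ 4 ^ (Module.finrank ℤ L) := pow_le_pow_right₀ (by norm_num) l.2.le
    _ = (2 ^ (Module.finrank ℤ L)) ^ 2 := by rw [← pow_mul, mul_comm, pow_mul]; norm_num

end Pool.Agent.EMS
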