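import Pool.Agent.EMS.StmtsC

set_option autoImplicit false

namespace Pool.Agent.EMS

open Finset

namespace HOE_

lemma exp_le_cosh {lam x : ℝ} (h1 : -1 ≤ x) (h2 : x ≤ 1) :
    Real.exp (lam * x) ≤ Real.cosh lam + x * Real.sinh lam := by
  have ha : 0 ≤ (1 + x) / 2 := by linarith
  have hb : 0 ≤ (1 - x) / 2 := by linarith
  have hab : (1 + x) / 2 + (1 - x) / 2 = 1 := by ring
  have hconv := convexOn_exp.2 (Set.mem_univ lam) (Set.mem_univ (-lam)) ha hb hab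
  have h3 : ((1 + x) / 2) • lam + ((1 - x) / 2) • (-lam) = lam * x := by
    simp only [smul_eq_mul]
    ring
  rw [h3] at hconv
  refine le_trans hconv (le_of_eq ?_)
  simp only [smul_eq_mul]
  rw [Real.cosh_eq, Real.sinh_eq]
  ring

lemma mgf {α : Type} (A : Finset α) (g : α → ℝ) (h1 : ∀ a ∈ A, -1 ≤ g a ∧ g a ≤ 1)
    (h0 : ∑ a ∈ A, g a = 0) (lam : ℝ) :
    ∑ a ∈ A, Real.exp (lam * g a) ≤ Real.exp (lam ^ 2 / 2) * (A.card : ℝ) := by
  calc ∑ a ∈ A, Real.exp (lam * g a) ≤ ∑ a ∈ A, (Real.cosh lam + g a * Real.sinh lam) :=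
        sum_le_sum (fun a ha => exp_le_cosh (h1 a ha).1 (h1 a ha).2)
    _ = (A.card : ℝ) * Real.cosh lam := by
        rw [sum_add_distrib, ← sum_mul, h0, zero_mul, add_zero, sum_const, nsmul_eq_mul]
    _ ≤ (A.card : ℝ) * Real.exp (lam ^ 2 / 2) :=
        mul_le_mul_of_nonneg_left (Real.cosh_le_exp_half_sq lam) (by positivity)
    _ = _ := mul_comm _ _

/-- one sided bound -/
lemma onesided {α : Type} (A : Finset α) (g : α → ℝ) (h1 : ∀ a ∈ A, -1 ≤ g a ∧ g a ≤ 1)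
    (h0 : ∑ a ∈ A, g a = 0) (k : ℕ) (ε : ℝ) (hε : 0 < ε) :
    (((Fintype.piFinset fun _ : Fin k => A).filter fun a =>
        (k : ℝ) * ε < ∑ i, g (a i)).card : ℝ)
      ≤ Real.exp (-((k : ℝ) * ε ^ 2 / 2)) * (A.card : ℝ) ^ k := by
  classical
  set S := (Fintype.piFinset fun _ : Fin k => A) with hS
  have h2 : ∑ a ∈ S, Real.exp (ε * ∑ i, g (a i)) = (∑ x ∈ A, Real.exp (ε * g x)) ^ k := by
    have h3 := Finset.prod_univ_sum (fun _ : Fin k => A)
      (fun (_ : Fin k) (x : α) => Real.exp (ε * g x))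
    rw [prod_const, card_univ, Fintype.card_fin] at h3
    rw [h3]
    refine sum_congr rfl ?_
    intro a _
    rw [← Real.exp_sum, mul_sum]
  have h3 : ∑ a ∈ S, Real.exp (ε * ∑ i, g (a i)) ≤
      (Real.exp (ε ^ 2 / 2) * (A.card : ℝ)) ^ k := by
    rw [h2]
    refine pow_le_pow_left₀ (sum_nonneg (fun a _ => (Real.exp_pos _).le)) (mgf A g h1 h0 ε) k
  have h4 : ((S.filter fun a => (k : ℝ) * ε < ∑ i, g (a i)).card : ℝ) *
      Real.exp (ε * ((k : ℝ) * ε)) ≤ ∑ a ∈ S, Real.exp (ε * ∑ i, g (a i)) := by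
    calc ((S.filter fun a => (k : ℝ) * ε < ∑ i, g (a i)).card : ℝ) * Real.exp (ε * ((k : ℝ) * ε))
        = ∑ _a ∈ S.filter (fun a => (k : ℝ) * ε < ∑ i, g (a i)), Real.exp (ε * ((k : ℝ) * ε)) := by
          rw [sum_const, nsmul_eq_mul]
      _ ≤ ∑ a ∈ S.filter (fun a => (k : ℝ) * ε < ∑ i, g (a i)), Real.exp (ε * ∑ i, g (a i)) := by
          refine sum_le_sum ?_
          intro a ha
          have h5 := (mem_filter.mp ha).2
          exact Real.exp_le_exp.mpr (mul_le_mul_of_nonneg_left h5.le hε.le)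
      _ ≤ _ := sum_le_sum_of_subset_of_nonneg (filter_subset _ _)
          (fun a _ _ => (Real.exp_pos _).le)
  have h5 := le_trans h4 h3
  rw [mul_pow, ← Real.exp_nat_mul] at h5
  have h6 : Real.exp (-((k : ℝ) * ε ^ 2 / 2)) * (A.card : ℝ) ^ k =
      (Real.exp ((k : ℝ) * (ε ^ 2 / 2)) * (A.card : ℝ) ^ k) / Real.exp (ε * ((k : ℝ) * ε)) := by
    have h7 : Real.exp (-((k : ℝ) * ε ^ 2 / 2)) =
        Real.exp ((k : ℝ) * (ε ^ 2 / 2)) / Real.exp (ε * ((k : ℝ) * ε)) := by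
      rw [← Real.exp_sub]
      congr 1
      ring
    rw [h7]
    ring
  rw [h6, le_div_iff₀ (Real.exp_pos _)]
  exact h5

end HOE_

open HOE_ in
theorem hoe_proof : Stmt_HOE := by
  classical
  intro α A f k ε hA hf hk hε
  have hApos : (0 : ℝ) < (A.card : ℝ) := by exact_mod_cast card_pos.mpr hA
  have hk0 : (0 : ℝ) < (k : ℝ) := by exact_mod_cast (by omega : 0 < k)
  set μ : ℝ := (∑ x ∈ A, f x) / (A.card : ℝ) with hμ
  have hμ0 : 0 ≤ μ := div_nonneg (sum_nonneg (fun a ha => (hf a ha).1)) hApos.le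
  have hμ1 : μ ≤ 1 := by
    rw [hμ, div_le_one hApos]
    calc ∑ x ∈ A, f x ≤ ∑ _x ∈ A, (1 : ℝ) := sum_le_sum (fun a ha => (hf a ha).2)
      _ = A.card := by rw [sum_const, nsmul_eq_mul, mul_one]
  have hsum : ∑ x ∈ A, (f x - μ) = 0 := by
    rw [sum_sub_distrib, sum_const, nsmul_eq_mul, hμ]
    field_simp
    ring
  have hsum' : ∑ x ∈ A, (μ - f x) = 0 := by
    have h1 : ∑ x ∈ A, (μ - f x) = - ∑ x ∈ A, (f x - μ) := by
      rw [← sum_neg_distrib]
      exact sum_congr rfl (fun x _ => by ring)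
    rw [h1, hsum, neg_zero]
  have h1 := onesided A (fun x => f x - μ)
    (fun a ha => ⟨by linarith [(hf a ha).1], by linarith [(hf a ha).2]⟩) hsum k ε hε
  have h2 := onesided A (fun x => μ - f x)
    (fun a ha => ⟨by linarith [(hf a ha).2], by linarith [(hf a ha).1]⟩) hsum' k ε hε
  set S := (Fintype.piFinset fun _ : Fin k => A) with hS
  have hsub : (S.filter fun a => ε < |(∑ i, f (a i)) / (k : ℝ) - μ|) ⊆
      (S.filter fun a => (k : ℝ) * ε < ∑ i, (f (a i) - μ)) ∪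
      (S.filter fun a => (k : ℝ) * ε < ∑ i, (μ - f (a i))) := by
    intro a ha
    have h3 := mem_filter.mp ha
    have h4 : ∑ i, (f (a i) - μ) = (k : ℝ) * ((∑ i, f (a i)) / (k : ℝ) - μ) := by
      rw [sum_sub_distrib, sum_const, card_univ, Fintype.card_fin, nsmul_eq_mul]
      field_simp
    have h5 : ∑ i, (μ - f (a i)) = (k : ℝ) * (-((∑ i, f (a i)) / (k : ℝ) - μ)) := by
      rw [sum_sub_distrib, sum_const, card_univ, Fintype.card_fin, nsmul_eq_mul]
      field_simp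
      ring
    rw [mem_union]
    rcases lt_abs.mp h3.2 with h | h
    · left
      refine mem_filter.mpr ⟨h3.1, ?_⟩
      rw [h4]
      exact mul_lt_mul_of_pos_left h hk0
    · right
      refine mem_filter.mpr ⟨h3.1, ?_⟩
      rw [h5]
      exact mul_lt_mul_of_pos_left h hk0
  calc ((S.filter fun a => ε < |(∑ i, f (a i)) / (k : ℝ) - μ|).card : ℝ) ≤
      (((S.filter fun a => (k : ℝ) * ε < ∑ i, (f (a i) - μ)) ∪
      (S.filter fun a => (k : ℝ) * ε < ∑ i, (μ - f (a i)))).card : ℝ) := by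
        exact_mod_cast card_le_card hsub
    _ ≤ ((S.filter fun a => (k : ℝ) * ε < ∑ i, (f (a i) - μ)).card : ℝ) +
      ((S.filter fun a => (k : ℝ) * ε < ∑ i, (μ - f (a i))).card : ℝ) := by
        exact_mod_cast card_union_le _ _
    _ ≤ Real.exp (-((k : ℝ) * ε ^ 2 / 2)) * (A.card : ℝ) ^ k +
        Real.exp (-((k : ℝ) * ε ^ 2 / 2)) * (A.card : ℝ) ^ k := add_le_add h1 h2
    _ = 2 * Real.exp (-((k : ℝ) * ε ^ 2 / 2)) * (A.card : ℝ) ^ k := by ring

end Pool.Agent.EMS
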