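import Pool.Agent.EMS.StmtsC

set_option autoImplicit false

open Finset
open scoped BigOperators Classical Pointwise

namespace Pool.Agent.EMS

namespace HYP_

lemma mem_sy {r : ℕ} {T : SG r} {c w : Fin r → ℤ} (h : w ∈ T.sy c) :
    ∃ u : Fin T.d → ℤ, (∀ l, |u l| ≤ (T.M l : ℤ)) ∧ w = c + T.φ u := by
  unfold SG.sy at h
  rw [Finset.mem_image] at h
  obtain ⟨u, hu, rfl⟩ := h
  refine ⟨u, fun l => ?_, rfl⟩
  have := Fintype.mem_piFinset.1 hu l
  rw [Finset.mem_Icc] at this
  exact abs_le.2 this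

lemma mem_q {r : ℕ} {T : SG r} {k : ℕ} {c w : Fin r → ℤ} (h : w ∈ T.q k c) :
    ∃ u : Fin T.d → ℤ, (∀ l, 4 * |u l| ≤ k * (T.M l : ℤ)) ∧ w = c + T.φ u := by
  unfold SG.q at h
  rw [Finset.mem_image] at h
  obtain ⟨u, hu, rfl⟩ := h
  exact ⟨u, (Finset.mem_filter.1 hu).2, rfl⟩

lemma q_mem {r : ℕ} {T : SG r} {k : ℕ} {c : Fin r → ℤ} (u : Fin T.d → ℤ)
    (hu : ∀ l, 4 * |u l| ≤ k * (T.M l : ℤ)) : c + T.φ u ∈ T.q k c := by
  unfold SG.q
  rw [Finset.mem_image]
  refine ⟨u, ?_, rfl⟩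
  rw [Finset.mem_filter]
  refine ⟨?_, hu⟩
  unfold sbox
  rw [Fintype.mem_piFinset]
  intro l
  rw [Finset.mem_Icc, ← abs_le]
  have h1 := hu l
  have h2 := abs_nonneg (u l)
  push_cast
  linarith

lemma sv_pos {r : ℕ} (T : SG r) : 0 < T.sv := by
  unfold SG.sv
  exact Finset.prod_pos fun l _ => by positivity

lemma card_q6 {r : ℕ} (T : SG r) (c : Fin r → ℤ) :
    ((T.q 6 c).card : ℝ) ≤ (3 / 2) ^ T.d * T.sv := by
  have h1 : (T.q 6 c).card ≤ (Fintype.piFinset fun l : Fin T.d =>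
      Finset.Icc (-((6 * T.M l / 4 : ℕ) : ℤ)) ((6 * T.M l / 4 : ℕ) : ℤ)).card := by
    unfold SG.q
    refine Finset.card_image_le.trans (Finset.card_le_card fun u hu => ?_)
    rw [Fintype.mem_piFinset]
    intro l
    have h2 := (Finset.mem_filter.1 hu).2 l
    rw [Finset.mem_Icc, ← abs_le]
    push_cast at h2 ⊢
    omega
  rw [Fintype.card_piFinset] at h1
  have h3 : ((T.q 6 c).card : ℝ) ≤ ∏ l : Fin T.d, (3 * (T.M l : ℝ) + 1) := by
    refine (Nat.cast_le.2 h1).trans ?_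
    push_cast
    refine Finset.prod_le_prod (fun _ _ => by positivity) fun l _ => ?_
    rw [Int.card_Icc]
    have h4 : (((6 * T.M l / 4 : ℕ) : ℤ) + 1 - -((6 * T.M l / 4 : ℕ) : ℤ)).toNat
        ≤ 3 * T.M l + 1 := by omega
    exact_mod_cast h4
  refine h3.trans ?_
  unfold SG.sv
  have h5 : ((3 : ℝ) / 2) ^ T.d = ∏ _l : Fin T.d, ((3 : ℝ) / 2) := by
    rw [Finset.prod_const, Finset.card_univ, Fintype.card_fin]
  rw [h5, ← Finset.prod_mul_distrib]
  refine Finset.prod_le_prod (fun _ _ => by positivity) fun l _ => ?_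
  have : (0 : ℝ) ≤ T.M l := by positivity
  linarith

end HYP_

open HYP_ in
theorem hyp_proof : Stmt_HYP := by
  intro r m τ N T x C U β ξ hN hT hC hU hY
  have hsv := sv_pos T
  set bd : ℝ := Real.exp (-β) * T.sv / 24 ^ T.d with hbd
  have hbd0 : 0 < bd := by have := Real.exp_pos (-β); positivity
  set J := Finset.univ.filter fun i : Fin m => bd ≤ ((U τ ∩ C i).card : ℝ) with hJ
  set Yc := (ebox N).filter fun y => Real.exp (-β) * T.sv ≤ ((U τ ∩ T.sy y).card : ℝ) with hYc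
  -- every counted y is in `q 6 (x i)` for some `i ∈ J`
  have hcov : Yc ⊆ J.biUnion fun i => T.q 6 (x i) := by
    intro y hy
    have hy2 := (Finset.mem_filter.1 hy).2
    set I0 := Finset.univ.filter fun i : Fin m => x i ∈ T.q 6 y with hI0
    have hI0c : (I0.card : ℝ) ≤ 24 ^ T.d := by exact_mod_cast hC.cnt 6 (by norm_num) y
    have hsub : U τ ∩ T.sy y ⊆ I0.biUnion fun i => U τ ∩ C i ∩ T.sy y := by
      intro w hw
      rw [Finset.mem_inter] at hw
      obtain ⟨i, hi⟩ := hC.cover w (hU hw.1)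
      rw [Finset.mem_biUnion]
      refine ⟨i, ?_, by
        rw [Finset.mem_inter, Finset.mem_inter]; exact ⟨⟨hw.1, hi⟩, hw.2⟩⟩
      rw [hI0, Finset.mem_filter]
      refine ⟨Finset.mem_univ _, ?_⟩
      obtain ⟨v, hv, hwv⟩ := mem_q (hC.sub2 i hi)
      obtain ⟨u, hu, hwu⟩ := mem_sy hw.2
      have e1 : x i = y + T.φ (u - v) := by
        rw [map_sub]
        have h1 : x i + T.φ v = y + T.φ u := by rw [← hwv, ← hwu]
        have h2 : x i = y + T.φ u - T.φ v := by rw [← h1]; abel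
        rw [h2]; abel
      rw [e1]
      refine q_mem _ fun l => ?_
      have h5 := hv l
      have h6 := hu l
      have h8 : |(u - v) l| ≤ |u l| + |v l| := by
        simp only [Pi.sub_apply]
        exact abs_sub _ _
      push_cast at h5 ⊢
      linarith
    obtain ⟨i, hi, hib⟩ : ∃ i ∈ I0, bd ≤ ((U τ ∩ C i ∩ T.sy y).card : ℝ) := by
      by_contra! hcon
      have h1 : ((U τ ∩ T.sy y).card : ℝ) ≤ ∑ i ∈ I0, ((U τ ∩ C i ∩ T.sy y).card : ℝ) := by
        have := (Finset.card_le_card hsub).trans Finset.card_biUnion_le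
        exact_mod_cast this
      rcases I0.eq_empty_or_nonempty with h0 | h0
      · rw [h0, Finset.sum_empty] at h1
        have : 0 < Real.exp (-β) * T.sv := mul_pos (Real.exp_pos _) hsv
        linarith
      · have h2 : ∑ i ∈ I0, ((U τ ∩ C i ∩ T.sy y).card : ℝ) < ∑ i ∈ I0, bd :=
          Finset.sum_lt_sum_of_nonempty h0 fun i hi => hcon i hi
        rw [Finset.sum_const, nsmul_eq_mul] at h2
        have h3 : (I0.card : ℝ) * bd ≤ 24 ^ T.d * bd := mul_le_mul_of_nonneg_right hI0c hbd0.le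
        have h4 : (24 : ℝ) ^ T.d * bd = Real.exp (-β) * T.sv := by
          rw [hbd]; field_simp
        linarith
    rw [Finset.mem_biUnion]
    refine ⟨i, ?_, ?_⟩
    · rw [hJ, Finset.mem_filter]
      refine ⟨Finset.mem_univ _, hib.trans ?_⟩
      exact_mod_cast Finset.card_le_card Finset.inter_subset_left
    · obtain ⟨u, hu, hxu⟩ := mem_q (Finset.mem_filter.1 hi).2
      have e1 : y = x i + T.φ (-u) := by rw [hxu, map_neg]; abel
      rw [e1]
      refine q_mem _ fun l => ?_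
      rw [Pi.neg_apply, abs_neg]; exact hu l
  have hJc : (Yc.card : ℝ) ≤ J.card * ((3 / 2) ^ T.d * T.sv) := by
    have h1 : (Yc.card : ℝ) ≤ ∑ i ∈ J, ((T.q 6 (x i)).card : ℝ) := by
      have := (Finset.card_le_card hcov).trans Finset.card_biUnion_le
      exact_mod_cast this
    refine h1.trans ?_
    calc ∑ i ∈ J, ((T.q 6 (x i)).card : ℝ) ≤ ∑ i ∈ J, ((3 / 2) ^ T.d * T.sv) :=
          Finset.sum_le_sum fun i _ => card_q6 T (x i)
      _ = _ := by rw [Finset.sum_const, nsmul_eq_mul]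
  have hPhi : (J.card : ℝ) * Real.sqrt bd ≤ Phi C U τ := by
    unfold Phi
    calc (J.card : ℝ) * Real.sqrt bd = ∑ i ∈ J, Real.sqrt bd := by
          rw [Finset.sum_const, nsmul_eq_mul]
      _ ≤ ∑ i ∈ J, Real.sqrt ((U τ ∩ C i).card : ℝ) :=
          Finset.sum_le_sum fun i hi => Real.sqrt_le_sqrt (Finset.mem_filter.1 hi).2
      _ ≤ ∑ i, Real.sqrt ((U τ ∩ C i).card : ℝ) :=
          Finset.sum_le_sum_of_subset_of_nonneg (Finset.subset_univ _)
            (fun _ _ _ => Real.sqrt_nonneg _)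
  refine le_trans ?_ hPhi
  -- numerics
  have hV : Real.exp (-ξ) * vol N ≤ J.card * ((3 / 2) ^ T.d * T.sv) := hY.trans hJc
  have hsq : Real.sqrt bd = Real.exp (-β / 2) * Real.sqrt T.sv / Real.sqrt 24 ^ T.d := by
    rw [hbd, Real.sqrt_div (by have := Real.exp_pos (-β); positivity),
      Real.sqrt_mul (Real.exp_pos _).le]
    congr 1
    · congr 1
      rw [Real.exp_half, ← Real.exp_half]
    · rw [Real.sqrt_eq_iff_mul_self_eq (by positivity) (by positivity), ← mul_pow,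
        Real.mul_self_sqrt (by norm_num)]
  have h24 : Real.sqrt 24 ≤ 8 := by
    rw [Real.sqrt_le_left (by norm_num)]; norm_num
  have h24p : 0 < Real.sqrt 24 := Real.sqrt_pos.2 (by norm_num)
  have hss : Real.sqrt T.sv * Real.sqrt T.sv = T.sv := Real.mul_self_sqrt hsv.le
  have hssp : 0 < Real.sqrt T.sv := Real.sqrt_pos.2 hsv
  have hJ2 : Real.exp (-ξ) * vol N / ((3 / 2) ^ T.d * T.sv) ≤ J.card := by
    rw [div_le_iff₀ (by positivity)]; exact hV
  have hvol : 0 ≤ vol N := by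
    unfold vol; exact Finset.prod_nonneg fun _ _ => by positivity
  calc Real.exp (-ξ - β / 2) * vol N / (Real.sqrt T.sv * 12 ^ T.d)
      ≤ Real.exp (-ξ - β / 2) * vol N / (Real.sqrt T.sv * ((3 / 2) * Real.sqrt 24) ^ T.d) := by
        refine div_le_div_of_nonneg_left (by have := Real.exp_pos (-ξ - β / 2); positivity)
          (by positivity) ?_
        refine mul_le_mul_of_nonneg_left ?_ hssp.le
        exact pow_le_pow_left₀ (by positivity) (by linarith) _
    _ = Real.exp (-ξ) * vol N / ((3 / 2) ^ T.d * T.sv)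
          * (Real.exp (-β / 2) * Real.sqrt T.sv / Real.sqrt 24 ^ T.d) := by
        have e1 : Real.exp (-ξ - β / 2) = Real.exp (-ξ) * Real.exp (-β / 2) := by
          rw [← Real.exp_add]; congr 1; ring
        rw [e1, mul_pow]
        have e2 : Real.exp (-ξ) * vol N / ((3 / 2) ^ T.d * T.sv)
          * (Real.exp (-β / 2) * Real.sqrt T.sv / Real.sqrt 24 ^ T.d)
          = Real.exp (-ξ) * vol N / ((3 / 2) ^ T.d * (Real.sqrt T.sv * Real.sqrt T.sv))
          * (Real.exp (-β / 2) * Real.sqrt T.sv / Real.sqrt 24 ^ T.d) := by rw [hss]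
        rw [e2]
        field_simp
    _ ≤ J.card * Real.sqrt bd := by
        rw [hsq]
        exact mul_le_mul_of_nonneg_right hJ2 (by have := Real.exp_pos (-β / 2); positivity)

end Pool.Agent.EMS
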