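import Pool.Agent.EMS.StmtsD

/-!
IGP: the initial GAP.
-/

set_option autoImplicit false

open Finset
open scoped BigOperators Classical Pointwise

namespace Pool.Agent.EMS

namespace IGP_

/-- the embedding of the natural numbers -/
def io (a : ℕ) : Fin 1 → ℤ := fun _ => (a : ℤ)

lemma io_inj : Function.Injective io := by
  intro a b h
  have := congrFun h 0
  unfold io at this
  exact_mod_cast this

lemma io_add (a b : ℕ) : io (a + b) = io a + io b := by
  funext i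
  unfold io
  push_cast
  rfl

lemma log_add {a b t : ℕ} (ha : 0 < a) (hb : 0 < b) (h1 : Nat.log 2 a = t) (h2 : Nat.log 2 b = t) :
    Nat.log 2 (a + b) = t + 1 := by
  have e1 := Nat.pow_log_le_self 2 ha.ne'
  have e2 := Nat.pow_log_le_self 2 hb.ne'
  have e3 := Nat.lt_pow_succ_log_self (b := 2) (by norm_num) a
  have e4 := Nat.lt_pow_succ_log_self (b := 2) (by norm_num) b
  rw [h1] at e1 e3
  rw [h2] at e2 e4
  rw [Nat.succ_eq_add_one] at e3 e4
  rw [Nat.log_eq_iff (Or.inl (by omega))]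
  constructor
  · rw [pow_succ]
    omega
  · rw [pow_succ 2 (t + 1)]
    omega

lemma sub_card {G : Type} [AddCommGroup G] (i j : DecidableEq G) (A : Finset G) :
    (@HSub.hSub (Finset G) (Finset G) (Finset G) (@instHSub (Finset G) (@Finset.sub G i _)) A A).card =
    (@HSub.hSub (Finset G) (Finset G) (Finset G) (@instHSub (Finset G) (@Finset.sub G j _)) A A).card := by
  have h : i = j := Subsingleton.elim i j
  subst h
  rfl

lemma filter_card {α : Type} (q : α → Prop) (i j : DecidablePred q) (s : Finset α) :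
    (@Finset.filter α q i s).card = (@Finset.filter α q j s).card := by
  have h : i = j := Subsingleton.elim i j
  subst h
  rfl

/-- pairs in a level -/
lemma pairs (h : Stmt_MSS) {A : Finset ℕ} {κ : ℕ} (hκ : 2 ≤ κ)
    (hA : ∀ S' ⊆ A, κ ≤ S'.card → ∃ s ∈ S', ∃ s' ∈ S', s ≠ s' ∧ s + s' ∈ A)
    {E : Finset ℕ} (hE : E ⊆ A) (hEκ : (κ : ℝ) ^ 2 ≤ (E.card : ℝ)) :
    ((κ : ℝ) ^ 2)⁻¹ * (E.card : ℝ) ^ 2 ≤
      (((E ×ˢ E).filter fun z => z.1 + z.2 ∈ A).card : ℝ) := by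
  have h1 := h ℕ E (fun x y => x = y ∨ x + y ∈ A) κ (fun _ => 1) hκ (fun _ => zero_le_one) (by
    intro f hf
    by_cases hinj : Function.Injective f
    · have hc : (Finset.univ.image f).card = κ := by
        rw [Finset.card_image_of_injective _ hinj, Finset.card_univ, Fintype.card_fin]
      obtain ⟨s, hs, s', hs', hne, hsum⟩ := hA (Finset.univ.image f) (by
        intro x hx
        rw [Finset.mem_image] at hx
        obtain ⟨i, -, rfl⟩ := hx
        exact hE (hf i)) hc.ge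
      rw [Finset.mem_image] at hs hs'
      obtain ⟨i, -, rfl⟩ := hs
      obtain ⟨j, -, rfl⟩ := hs'
      have hij : i ≠ j := fun e => hne (by rw [e])
      rcases lt_or_gt_of_ne hij with hlt | hlt
      · exact ⟨i, j, hlt, Or.inr hsum⟩
      · exact ⟨j, i, hlt, Or.inr (by rw [add_comm]; exact hsum)⟩
    · unfold Function.Injective at hinj
      push Not at hinj
      obtain ⟨i, j, he, hne⟩ := hinj
      rcases lt_or_gt_of_ne hne with hlt | hlt
      · exact ⟨i, j, hlt, Or.inl he⟩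
      · exact ⟨j, i, hlt, Or.inl he.symm⟩)
  have h2 : ∑ x ∈ E, ∑ y ∈ E, (@ite ℝ (x = y ∨ x + y ∈ A) (Classical.propDecidable _) ((1 : ℝ) * 1) 0) ≤
      (E.card : ℝ) + (((E ×ˢ E).filter fun z => z.1 + z.2 ∈ A).card : ℝ) := by
    have e1 : ∀ x ∈ E, ∀ y ∈ E, (@ite ℝ (x = y ∨ x + y ∈ A) (Classical.propDecidable _) ((1 : ℝ) * 1) 0) ≤
        (if x = y then (1 : ℝ) else 0) + (if x + y ∈ A then (1 : ℝ) else 0) := by
      intro x _ y _
      by_cases h3 : x = y <;> by_cases h4 : x + y ∈ A <;> simp [h3, h4]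
      all_goals (split_ifs <;> norm_num)
    have e2 : ∑ x ∈ E, ∑ y ∈ E, (@ite ℝ (x = y ∨ x + y ∈ A) (Classical.propDecidable _) ((1 : ℝ) * 1) 0) ≤
        ∑ x ∈ E, ∑ y ∈ E, ((if x = y then (1 : ℝ) else 0) + (if x + y ∈ A then (1 : ℝ) else 0)) :=
      Finset.sum_le_sum fun x hx => Finset.sum_le_sum fun y hy => e1 x hx y hy
    refine e2.trans (le_of_eq ?_)
    simp only [Finset.sum_add_distrib]
    congr 1
    · have e3 : ∀ x ∈ E, ∑ y ∈ E, (if x = y then (1 : ℝ) else 0) = 1 := by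
        intro x hx
        rw [Finset.sum_ite_eq]
        simp [hx]
      rw [Finset.sum_congr rfl e3]
      simp
    · rw [← Finset.sum_product' (f := fun x y => if x + y ∈ A then (1 : ℝ) else 0)]
      rw [Finset.sum_ite, Finset.sum_const_zero, add_zero, Finset.sum_const, nsmul_eq_mul, mul_one]
  have h3 : ∑ x ∈ E, (1 : ℝ) = (E.card : ℝ) := by simp
  rw [h3] at h1
  have hκ0 : (0 : ℝ) < (κ : ℝ) ^ 2 := by positivity
  have h4 : 2 * (E.card : ℝ) ^ 2 ≤ (κ : ℝ) ^ 2 *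
      ((E.card : ℝ) + (((E ×ˢ E).filter fun z => z.1 + z.2 ∈ A).card : ℝ)) :=
    h1.trans (mul_le_mul_of_nonneg_left h2 hκ0.le)
  rw [inv_mul_le_iff₀ hκ0]
  have h5 : (κ : ℝ) ^ 2 * (E.card : ℝ) ≤ (E.card : ℝ) ^ 2 := by
    have : (0 : ℝ) ≤ E.card := Nat.cast_nonneg _
    nlinarith
  linarith

end IGP_

open IGP_ in
theorem igp_proof (h1 : Stmt_LEV) (h2 : Stmt_MSS) (h3 : Stmt_BSG) (h4 : Stmt_BR) : Stmt_IGP := by
  obtain ⟨Z0, hZ0⟩ := h4
  refine ⟨max Z0 2, fun Z1 hZ1 A κ hκ hlog hpos hA hsize => ?_⟩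
  have hZ2 : 2 ≤ Z1 := (le_max_right _ _).trans hZ1
  have hZ2' : (2 : ℝ) ≤ Z1 := by exact_mod_cast hZ2
  obtain ⟨t0, hE1, hE2⟩ := h1 A κ hκ hpos hA hsize
  set E : Finset ℕ := A.filter fun a => Nat.log 2 a = t0 with hE
  set S : Finset ℕ := A.filter fun a => Nat.log 2 a = t0 + 1 with hS
  have hEA : E ⊆ A := Finset.filter_subset _ _
  have hκ2 : (2 : ℝ) ≤ κ := by exact_mod_cast hκ
  have hκpos : (0 : ℝ) < κ := by linarith
  have hE0 : (0 : ℝ) ≤ E.card := Nat.cast_nonneg _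
  have hEκ : (κ : ℝ) ^ 2 ≤ (E.card : ℝ) := by
    have e1 : (8 * (κ : ℝ) ^ 6 * ((Nat.log 2 A.card : ℝ) + 5) ^ 2) ^ 2 ≤ (E.card : ℝ) ^ 2 :=
      hsize.trans hE1
    have e2 := (pow_le_pow_iff_left₀ (by positivity) hE0 (by norm_num : (2 : ℕ) ≠ 0)).1 e1
    refine le_trans ?_ e2
    have e3 : (1 : ℝ) ≤ ((Nat.log 2 A.card : ℝ) + 5) ^ 2 := by
      have : (0 : ℝ) ≤ (Nat.log 2 A.card : ℝ) := Nat.cast_nonneg _
      nlinarith
    have e4 : (κ : ℝ) ^ 2 ≤ (κ : ℝ) ^ 6 := pow_le_pow_right₀ (by linarith) (by norm_num)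
    have e5 : (0 : ℝ) ≤ (κ : ℝ) ^ 6 := by positivity
    nlinarith
  have hpairs := pairs h2 hκ hA hEA hEκ
  have hEne : E.Nonempty := by
    rw [← Finset.card_pos]
    have : (0 : ℝ) < E.card := by nlinarith
    exact_mod_cast this
  have hcE : (E.image io).card = E.card := Finset.card_image_of_injective _ io_inj
  have hcS : (S.image io).card = S.card := Finset.card_image_of_injective _ io_inj
  have hpairs2 : ((κ : ℝ) ^ 2)⁻¹ * ((E.image io).card : ℝ) ^ 2 ≤
      ((((E.image io) ×ˢ (E.image io)).filter fun z => z.1 + z.2 ∈ S.image io).card : ℝ) := by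
    rw [hcE]
    refine hpairs.trans ?_
    have hsub : ((E ×ˢ E).filter fun z => z.1 + z.2 ∈ A).image (fun z => (io z.1, io z.2)) ⊆
        ((E.image io) ×ˢ (E.image io)).filter fun z => z.1 + z.2 ∈ S.image io := by
      intro w hw
      rw [Finset.mem_image] at hw
      obtain ⟨z, hz, rfl⟩ := hw
      rw [Finset.mem_filter, Finset.mem_product] at hz
      obtain ⟨⟨hz1, hz2⟩, hz3⟩ := hz
      rw [Finset.mem_filter, Finset.mem_product]
      refine ⟨⟨Finset.mem_image_of_mem _ hz1, Finset.mem_image_of_mem _ hz2⟩, ?_⟩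
      simp only
      rw [← io_add]
      apply Finset.mem_image_of_mem
      rw [hE, Finset.mem_filter] at hz1 hz2
      rw [hS, Finset.mem_filter]
      exact ⟨hz3, log_add (hpos _ hz1.1) (hpos _ hz2.1) hz1.2 hz2.2⟩
    have hinj : Function.Injective (fun z : ℕ × ℕ => (io z.1, io z.2)) := by
      intro z w hzw
      simp only [Prod.mk.injEq] at hzw
      exact Prod.ext (io_inj hzw.1) (io_inj hzw.2)
    have := Finset.card_le_card hsub
    rw [Finset.card_image_of_injective _ hinj] at this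
    exact_mod_cast this
  have hp0 : (0 : ℝ) < ((κ : ℝ) ^ 2)⁻¹ := by positivity
  have hp1 : ((κ : ℝ) ^ 2)⁻¹ ≤ 1 := by
    apply inv_le_one_of_one_le₀
    nlinarith
  obtain ⟨A', hA'1, hA'2, hA'3, hA'4⟩ := h3 (Fin 1 → ℤ) (E.image io) (S.image io)
    ((κ : ℝ) ^ 2)⁻¹ 1 (hEne.image _) hp0 hp1 one_pos (by
      rw [one_mul, hcE, hcS]
      exact_mod_cast hE2) (by
      rw [filter_card (fun z : (Fin 1 → ℤ) × (Fin 1 → ℤ) => z.1 + z.2 ∈ S.image io) _
        (fun z => Classical.propDecidable _)]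
      rw [filter_card (fun z : (Fin 1 → ℤ) × (Fin 1 → ℤ) => z.1 + z.2 ∈ S.image io) _
        (fun z => Classical.propDecidable _)] at hpairs2
      exact hpairs2)
  have hA'5 : ((A' - A').card : ℝ) ≤
      2 ^ 30 * ((((κ : ℝ) ^ 2)⁻¹)⁻¹) ^ 12 * 1 ^ 6 * (A'.card : ℝ) := by
    rw [sub_card _ (fun a b => Classical.propDecidable (a = b)) A']
    exact hA'4
  have hκexp : (κ : ℝ) ≤ Real.exp Z1 := by
    rw [← Real.log_le_iff_le_exp hκpos]
    exact hlog
  have hdiff : ((A' - A').card : ℝ) ≤ Real.exp (250 * Z1) * (A'.card : ℝ) := by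
    refine hA'5.trans (mul_le_mul_of_nonneg_right ?_ (Nat.cast_nonneg _))
    rw [inv_inv, one_pow, mul_one, ← pow_mul]
    have e1 : (κ : ℝ) ^ (2 * 12) ≤ Real.exp (24 * Z1) := by
      calc (κ : ℝ) ^ (2 * 12) ≤ (Real.exp Z1) ^ (2 * 12) := by gcongr
        _ = Real.exp (24 * Z1) := by
          rw [← Real.exp_nat_mul]
          norm_num
    have e2 : (2 : ℝ) ^ 30 ≤ Real.exp 30 := by
      have h5 : (2 : ℝ) ≤ Real.exp 1 := by
        have := Real.add_one_le_exp (1 : ℝ)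
        linarith
      calc (2 : ℝ) ^ 30 ≤ (Real.exp 1) ^ 30 := by gcongr
        _ = Real.exp 30 := by
          rw [← Real.exp_nat_mul]
          norm_num
    calc (2 : ℝ) ^ 30 * (κ : ℝ) ^ (2 * 12) ≤ Real.exp 30 * Real.exp (24 * Z1) := by gcongr
      _ = Real.exp (30 + 24 * Z1) := by rw [← Real.exp_add]
      _ ≤ Real.exp (250 * Z1) := by
        apply Real.exp_le_exp.2
        linarith
  obtain ⟨Q, c, hQ1, hQ2, hQ3⟩ := hZ0 Z1 ((le_max_left _ _).trans hZ1) 1 A' hA'2 hdiff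
  have hexp0 := Real.exp_pos ((Z1 : ℝ) ^ 16)
  have hinv : Real.exp (-((Z1 : ℝ) ^ 16)) * Real.exp ((Z1 : ℝ) ^ 16) = 1 := by
    rw [← Real.exp_add]
    simp
  refine ⟨t0, Q, c, hQ1, ?_, ?_, ?_⟩
  · refine hQ2.trans ?_
    have hsub : A' ∩ Q.bx c ⊆ (IU A Q c t0 0).image fun u => c + Q.φ u := by
      intro y hy
      rw [Finset.mem_inter] at hy
      obtain ⟨hy1, hy2⟩ := hy
      unfold SG.bx at hy2
      rw [Finset.mem_image] at hy2
      obtain ⟨u, hu, rfl⟩ := hy2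
      have hy3 := hA'1 hy1
      rw [Finset.mem_image] at hy3
      obtain ⟨a, ha, hae⟩ := hy3
      rw [hE, Finset.mem_filter] at ha
      refine Finset.mem_image.2 ⟨u, ?_, rfl⟩
      unfold IU
      rw [Finset.mem_filter]
      refine ⟨hu, a, ha.1, by rw [add_zero]; exact ha.2, ?_⟩
      rw [pow_zero, one_mul, ← hae]
      rfl
    have h6 := (Finset.card_le_card hsub).trans Finset.card_image_le
    exact_mod_cast h6
  · have e1 : Real.sqrt (A.card : ℝ) ≤ (E.card : ℝ) := by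
      apply Real.sqrt_le_iff.2
      exact ⟨hE0, hE1⟩
    have e2 : (E.card : ℝ) ≤ 6 * (κ : ℝ) ^ 2 * (A'.card : ℝ) := by
      rw [hcE] at hA'3
      have hk : (0 : ℝ) < (κ : ℝ) ^ 2 := by positivity
      have e3 : ((κ : ℝ) ^ 2)⁻¹ / 6 * (E.card : ℝ) * (6 * (κ : ℝ) ^ 2) ≤
          (A'.card : ℝ) * (6 * (κ : ℝ) ^ 2) := mul_le_mul_of_nonneg_right hA'3 (by positivity)
      have e4 : ((κ : ℝ) ^ 2)⁻¹ / 6 * (E.card : ℝ) * (6 * (κ : ℝ) ^ 2) = (E.card : ℝ) := by
        field_simp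
      rw [e4] at e3
      linarith
    have e3 : (A'.card : ℝ) ≤ Real.exp ((Z1 : ℝ) ^ 16) * Q.v := by
      have := mul_le_mul_of_nonneg_left hQ3 hexp0.le
      rw [← mul_assoc, mul_comm (Real.exp ((Z1 : ℝ) ^ 16)), hinv, one_mul] at this
      exact this
    have e4 : 6 * (κ : ℝ) ^ 2 ≤ Real.exp ((Z1 : ℝ) ^ 16) := by
      have h7 : (6 : ℝ) ≤ Real.exp 3 := by
        have h5 : (2 : ℝ) ≤ Real.exp 1 := by
          have := Real.add_one_le_exp (1 : ℝ)
          linarith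
        calc (6 : ℝ) ≤ 2 ^ 3 := by norm_num
          _ ≤ (Real.exp 1) ^ 3 := by gcongr
          _ = Real.exp 3 := by
            rw [← Real.exp_nat_mul]
            norm_num
      have h8 : (κ : ℝ) ^ 2 ≤ Real.exp (2 * Z1) := by
        calc (κ : ℝ) ^ 2 ≤ (Real.exp Z1) ^ 2 := by gcongr
          _ = Real.exp (2 * Z1) := by
            rw [← Real.exp_nat_mul]
            norm_num
      calc 6 * (κ : ℝ) ^ 2 ≤ Real.exp 3 * Real.exp (2 * Z1) := by gcongr
        _ = Real.exp (3 + 2 * Z1) := by rw [← Real.exp_add]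
        _ ≤ Real.exp ((Z1 : ℝ) ^ 16) := by
          apply Real.exp_le_exp.2
          have h9 : (Z1 : ℝ) ^ 3 ≤ (Z1 : ℝ) ^ 16 := pow_le_pow_right₀ (by linarith) (by norm_num)
          nlinarith [mul_nonneg (sub_nonneg.2 hZ2') (sub_nonneg.2 hZ2'), sq_nonneg ((Z1 : ℝ) - 2)]
    calc Real.sqrt (A.card : ℝ) ≤ (E.card : ℝ) := e1
      _ ≤ 6 * (κ : ℝ) ^ 2 * (A'.card : ℝ) := e2
      _ ≤ Real.exp ((Z1 : ℝ) ^ 16) * (Real.exp ((Z1 : ℝ) ^ 16) * Q.v) := by
        apply mul_le_mul e4 e3 (Nat.cast_nonneg _) hexp0.le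
      _ = Real.exp (2 * (Z1 : ℝ) ^ 16) * Q.v := by
        rw [← mul_assoc, ← Real.exp_add]
        congr 2
        ring
  · have e5 : ((A' ∩ Q.bx c).card : ℝ) ≤ (A.card : ℝ) := by
      have h6 : (A' ∩ Q.bx c).card ≤ A.card := by
        calc (A' ∩ Q.bx c).card ≤ A'.card := Finset.card_le_card Finset.inter_subset_left
          _ ≤ (E.image io).card := Finset.card_le_card hA'1
          _ = E.card := hcE
          _ ≤ A.card := Finset.card_le_card hEA
      exact_mod_cast h6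
    have e6 := mul_le_mul_of_nonneg_left (hQ2.trans e5) hexp0.le
    rw [← mul_assoc, mul_comm (Real.exp ((Z1 : ℝ) ^ 16)), hinv, one_mul] at e6
    exact e6

end Pool.Agent.EMS
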