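import Pool.Agent.EMS.StmtsD

set_option autoImplicit false

open Finset
open scoped BigOperators Classical

namespace Pool.Agent.EMS

namespace INC_

/-- the value of `u` at level `t` -/
noncomputable def av (S : SG 1) (c : Fin 1 → ℤ) (t : ℕ) (u : Fin S.d → ℤ) : ℕ :=
  ((2 : ℤ) ^ t * ((c + S.φ u) 0)).toNat

lemma av_spec {A : Finset ℕ} {S : SG 1} {c : Fin 1 → ℤ} {t0 t : ℕ} {u : Fin S.d → ℤ}
    (hu : u ∈ IU A S c t0 t) :
    av S c t u ∈ A ∧ Nat.log 2 (av S c t u) = t0 + t ∧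
      (2 : ℤ) ^ t * ((c + S.φ u) 0) = ((av S c t u : ℕ) : ℤ) := by
  obtain ⟨a, ha, hlog, heq⟩ := (mem_filter.mp hu).2
  have h1 : av S c t u = a := by
    unfold av
    rw [heq]
    exact Int.toNat_natCast a
  rw [h1]
  exact ⟨ha, hlog, heq⟩

lemma av_inj {A : Finset ℕ} {S : SG 1} {c : Fin 1 → ℤ} {t0 t : ℕ} {u u' : Fin S.d → ℤ}
    (hu : u ∈ IU A S c t0 t) (hu' : u' ∈ IU A S c t0 t) (h : av S c t u = av S c t u') :
    u = u' := by
  have h1 := (av_spec hu).2.2
  have h2 := (av_spec hu').2.2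
  rw [h, ← h2] at h1
  have hpow : ((2 : ℤ) ^ t) ≠ 0 := pow_ne_zero _ (by norm_num)
  have h3 : (c + S.φ u) 0 = (c + S.φ u') 0 := mul_left_cancel₀ hpow h1
  have h4 : S.φ (u - u') = 0 := by
    rw [map_sub]
    funext i
    have hi : i = 0 := Subsingleton.elim _ _
    rw [hi]
    rw [Pi.add_apply, Pi.add_apply] at h3
    rw [Pi.sub_apply, Pi.zero_apply]
    linarith
  have h5 : u - u' = 0 := by
    refine S.proper _ ?_ h4
    intro l
    have h6 := mem_Ico.mp (Fintype.mem_piFinset.mp (mem_filter.mp hu).1 l)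
    have h7 := mem_Ico.mp (Fintype.mem_piFinset.mp (mem_filter.mp hu').1 l)
    rw [Pi.sub_apply, abs_le]
    constructor <;> omega
  exact sub_eq_zero.mp h5

lemma mid {A : Finset ℕ} {S : SG 1} {c : Fin 1 → ℤ} {t0 t : ℕ} {u u' : Fin S.d → ℤ}
    (hpos : ∀ a ∈ A, 0 < a) (hu : u ∈ IU A S c t0 t) (hu' : u' ∈ IU A S c t0 t)
    (hpar : Par u u') (hA : av S c t u + av S c t u' ∈ A) :
    ∃ z ∈ IU A S c t0 (t + 1), z + z = u + u' := by
  have h1 := av_spec hu
  have h2 := av_spec hu'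
  have hz : (fun l => (u l + u' l) / 2) + (fun l => (u l + u' l) / 2) = u + u' := by
    funext l
    have h3 := hpar l
    rw [Pi.add_apply, Pi.add_apply]
    omega
  refine ⟨fun l => (u l + u' l) / 2, ?_, hz⟩
  refine mem_filter.mpr ⟨?_, av S c t u + av S c t u', hA, ?_, ?_⟩
  · refine Fintype.mem_piFinset.mpr ?_
    intro l
    have h6 := mem_Ico.mp (Fintype.mem_piFinset.mp (mem_filter.mp hu).1 l)
    have h7 := mem_Ico.mp (Fintype.mem_piFinset.mp (mem_filter.mp hu').1 l)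
    rw [mem_Ico]
    constructor <;> omega
  · have ha0 : av S c t u ≠ 0 := (hpos _ h1.1).ne'
    have hb0 : av S c t u' ≠ 0 := (hpos _ h2.1).ne'
    have h3 := Nat.pow_log_le_self 2 ha0
    have h4 := Nat.pow_log_le_self 2 hb0
    have h5 := Nat.lt_pow_succ_log_self (b := 2) (by norm_num) (av S c t u)
    have h6 := Nat.lt_pow_succ_log_self (b := 2) (by norm_num) (av S c t u')
    rw [h1.2.1] at h3 h5
    rw [h2.2.1] at h4 h6
    refine Nat.log_eq_of_pow_le_of_lt_pow ?_ ?_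
    · rw [← add_assoc, pow_succ]
      omega
    · rw [← add_assoc, pow_succ, pow_succ]
      rw [Nat.succ_eq_add_one, pow_succ] at h5 h6
      omega
  · have h3 : (2 : ℤ) ^ (t + 1) * ((c + S.φ (fun l => (u l + u' l) / 2)) 0) =
        (2 : ℤ) ^ t * ((c + S.φ u) 0) + (2 : ℤ) ^ t * ((c + S.φ u') 0) := by
      have h4 : S.φ (fun l => (u l + u' l) / 2) + S.φ (fun l => (u l + u' l) / 2) =
          S.φ u + S.φ u' := by
        rw [← map_add, ← map_add, hz]
      have h5 := congrFun h4 0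
      rw [Pi.add_apply, Pi.add_apply] at h5
      rw [Pi.add_apply, Pi.add_apply, Pi.add_apply, pow_succ]
      linear_combination (2 : ℤ) ^ t * h5
    rw [h3, h1.2.2, h2.2.2]
    push_cast
    ring

lemma use_lmf (h : Stmt_LMF) {A : Finset ℕ} {κ : ℕ} {S : SG 1} {c : Fin 1 → ℤ} {t0 : ℕ}
    (hκ : 2 ≤ κ) (hpos : ∀ a ∈ A, 0 < a)
    (hA : ∀ S' ⊆ A, κ ≤ S'.card → ∃ s ∈ S', ∃ s' ∈ S', s ≠ s' ∧ s + s' ∈ A)
    (X : ℕ → Finset (Fin S.d → ℤ)) (hX : ∀ t, X t ⊆ IU A S c t0 t)
    (hpar : ∀ t, ∀ x ∈ X t, ∀ y ∈ X t, Par x y)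
    (hno : ∀ t, ∀ x ∈ X t, ∀ y ∈ X t, x ≠ y → ∀ z ∈ IU A S c t0 (t + 1), z + z ≠ x + y) (T : ℕ) :
    ∑ t ∈ Finset.range T, (X t).card ≤ 8 * κ ^ 6 * (Nat.log 2 A.card + 5) ^ 2 := by
  set Y : ℕ → Finset ℕ := fun τ =>
    if t0 ≤ τ then (X (τ - t0)).image (av S c (τ - t0)) else ∅ with hY
  have hY1 : ∀ t, Y t ⊆ A.filter fun a => Nat.log 2 a = t := by
    intro t a ha
    by_cases ht : t0 ≤ t
    · have h1 : Y t = (X (t - t0)).image (av S c (t - t0)) := if_pos ht
      rw [h1] at ha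
      obtain ⟨u, hu, rfl⟩ := mem_image.mp ha
      have h2 := av_spec (hX _ hu)
      refine mem_filter.mpr ⟨h2.1, ?_⟩
      rw [h2.2.1]
      omega
    · have h1 : Y t = ∅ := if_neg ht
      rw [h1] at ha
      exact absurd ha (notMem_empty _)
  have hY2 : ∀ t, ∀ x ∈ Y t, ∀ y ∈ Y t, x ≠ y → x + y ∉ A := by
    intro t x hx y hy hxy hcon
    by_cases ht : t0 ≤ t
    · have h1 : Y t = (X (t - t0)).image (av S c (t - t0)) := if_pos ht
      rw [h1] at hx hy
      obtain ⟨u, hu, rfl⟩ := mem_image.mp hx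
      obtain ⟨u', hu', rfl⟩ := mem_image.mp hy
      have hne : u ≠ u' := by
        intro h2
        exact hxy (by rw [h2])
      obtain ⟨z, hz, hzz⟩ := mid hpos (hX _ hu) (hX _ hu') (hpar _ u hu u' hu') hcon
      exact hno _ u hu u' hu' hne z hz hzz
    · have h1 : Y t = ∅ := if_neg ht
      rw [h1] at hx
      exact absurd hx (notMem_empty _)
  have h1 := h A κ hκ hpos hA Y hY1 hY2 (t0 + T)
  rw [sum_range_add] at h1
  have h2 : ∀ t ∈ Finset.range T, (Y (t0 + t)).card = (X t).card := by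
    intro t _
    have h3 : Y (t0 + t) = (X (t0 + t - t0)).image (av S c (t0 + t - t0)) :=
      if_pos (Nat.le_add_right _ _)
    rw [h3, Nat.add_sub_cancel_left]
    refine card_image_of_injOn ?_
    intro u hu u' hu' huu
    exact av_inj (hX _ hu) (hX _ hu') huu
  rw [sum_congr rfl h2] at h1
  omega

end INC_

open INC_ in
theorem inc_proof (h : Stmt_LMF) : Stmt_INC := by
  intro A κ S c t0 hκ hpos hA
  refine ⟨⟨?_, ?_, ?_⟩, ?_, ?_⟩
  · intro t
    exact filter_subset _ _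
  · refine ⟨A.sup id + 1, ?_⟩
    intro t ht
    refine filter_eq_empty_iff.mpr ?_
    rintro u _ ⟨a, ha, hlog, _⟩
    have h1 : a ≤ A.sup id := le_sup (f := id) ha
    have h2 : Nat.log 2 a ≤ a := Nat.log_le_self 2 a
    omega
  · intro t X hX hpar hcard
    have hinj : Set.InjOn (av S c t) (X : Set (Fin S.d → ℤ)) := by
      intro u hu u' hu' huu
      exact av_inj (hX hu) (hX hu') huu
    have h1 : X.image (av S c t) ⊆ A := by
      intro a ha
      obtain ⟨u, hu, rfl⟩ := mem_image.mp ha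
      exact (av_spec (hX hu)).1
    obtain ⟨s, hs, s', hs', hne, hsum⟩ := hA _ h1 (by rw [card_image_of_injOn hinj]; exact hcard)
    obtain ⟨u, hu, rfl⟩ := mem_image.mp hs
    obtain ⟨u', hu', rfl⟩ := mem_image.mp hs'
    obtain ⟨z, hz, hzz⟩ := mid hpos (hX hu) (hX hu') (hpar u hu u' hu') hsum
    refine ⟨u, hu, u', hu', ?_, z, hz, hzz⟩
    intro h2
    exact hne (by rw [h2])
  · intro Sf hSf
    set X : ℕ → Finset (Fin S.d → ℤ) := fun t =>
      if ht : (t ∈ Sf) then {(hSf t ht).choose} else ∅ with hXdef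
    have hXpos : ∀ t (ht : t ∈ Sf), X t = {(hSf t ht).choose} := fun t ht => dif_pos ht
    have hXneg : ∀ t, t ∉ Sf → X t = ∅ := fun t ht => dif_neg ht
    have hX1 : ∀ t, X t ⊆ IU A S c t0 t := by
      intro t x hx
      by_cases ht : t ∈ Sf
      · rw [hXpos t ht, mem_singleton] at hx
        rw [hx]
        exact (hSf t ht).choose_spec
      · rw [hXneg t ht] at hx
        exact absurd hx (notMem_empty _)
    have hX2 : ∀ t, ∀ x ∈ X t, ∀ y ∈ X t, x = y := by
      intro t x hx y hy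
      by_cases ht : t ∈ Sf
      · rw [hXpos t ht, mem_singleton] at hx hy
        rw [hx, hy]
      · rw [hXneg t ht] at hx
        exact absurd hx (notMem_empty _)
    have h1 := use_lmf h hκ hpos hA X hX1
      (by
        intro t x hx y hy l
        rw [hX2 t x hx y hy, sub_self]
        exact dvd_zero _)
      (by
        intro t x hx y hy hxy
        exact absurd (hX2 t x hx y hy) hxy) (Sf.sup id + 1)
    have h2 : Sf.card ≤ ∑ t ∈ Finset.range (Sf.sup id + 1), (X t).card := by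
      calc Sf.card = ∑ t ∈ Sf, (X t).card := by
            rw [card_eq_sum_ones]
            refine sum_congr rfl ?_
            intro t ht
            rw [hXpos t ht, card_singleton]
        _ ≤ _ := by
            refine sum_le_sum_of_subset ?_
            intro t ht
            rw [mem_range]
            have h3 : t ≤ Sf.sup id := le_sup (f := id) ht
            omega
    have h3 := le_trans h2 h1
    exact_mod_cast h3
  · intro X hX T
    have h1 := use_lmf h hκ hpos hA X (fun t => (hX t).1) (fun t => (hX t).2.1)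
      (fun t => (hX t).2.2) T
    exact_mod_cast h1

end Pool.Agent.EMS
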