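import Pool.Agent.EMS.StmtsC

/-!
# EMS, module INT: the intersection lemma (from CLC)
-/

set_option autoImplicit false

open Finset
open scoped BigOperators Classical Pointwise

namespace Pool.Agent.EMS

namespace INT_

/-- rank bound for the fibre product -/
lemma rank_bound {r a b : ℕ} (f : (Fin a → ℤ) →ₗ[ℤ] (Fin r → ℤ))
    (g : (Fin b → ℤ) →ₗ[ℤ] (Fin r → ℤ))
    (L1 : (Fin (a + b) → ℤ) →ₗ[ℤ] (Fin a → ℤ)) (L2 : (Fin (a + b) → ℤ) →ₗ[ℤ] (Fin b → ℤ))
    (hinj : ∀ z, L1 z = 0 → L2 z = 0 → z = 0) :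
    Module.finrank ℤ (LinearMap.ker (f ∘ₗ L1 - g ∘ₗ L2)) ≤
      a + Module.finrank ℤ (LinearMap.ker g) := by
  set Λ := LinearMap.ker (f ∘ₗ L1 - g ∘ₗ L2) with hΛ
  set P : Λ →ₗ[ℤ] (Fin a → ℤ) := L1 ∘ₗ Λ.subtype with hP
  have h1 : Module.finrank ℤ (LinearMap.range P) + Module.finrank ℤ (LinearMap.ker P) =
      Module.finrank ℤ Λ := by
    rw [← (P.quotKerEquivRange).finrank_eq]
    exact Submodule.finrank_quotient_add_finrank (LinearMap.ker P)
  have h2 : Module.finrank ℤ (LinearMap.range P) ≤ a := by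
    have := Submodule.finrank_le (LinearMap.range P)
    simpa using this
  have hz : ∀ z : LinearMap.ker P, L2 ((z : Λ) : Fin (a + b) → ℤ) ∈ LinearMap.ker g := by
    intro z
    have hz1 : L1 ((z : Λ) : Fin (a + b) → ℤ) = 0 := z.2
    have hz2 : (f ∘ₗ L1 - g ∘ₗ L2) ((z : Λ) : Fin (a + b) → ℤ) = 0 := (z : Λ).2
    rw [LinearMap.sub_apply, LinearMap.comp_apply, LinearMap.comp_apply, hz1, map_zero,
      zero_sub, neg_eq_zero] at hz2
    exact hz2
  set R : LinearMap.ker P →ₗ[ℤ] LinearMap.ker g :=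
    ((L2 ∘ₗ Λ.subtype) ∘ₗ (LinearMap.ker P).subtype).codRestrict (LinearMap.ker g) hz with hR
  have hRinj : Function.Injective R := by
    rw [← LinearMap.ker_eq_bot, LinearMap.ker_eq_bot']
    intro z hz0
    have e1 : L1 ((z : Λ) : Fin (a + b) → ℤ) = 0 := z.2
    have e2 : L2 ((z : Λ) : Fin (a + b) → ℤ) = 0 := congrArg Subtype.val hz0
    have e3 := hinj _ e1 e2
    apply Subtype.ext
    apply Subtype.ext
    exact e3
  have h3 : Module.finrank ℤ (LinearMap.ker P) ≤ Module.finrank ℤ (LinearMap.ker g) :=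
    LinearMap.finrank_le_finrank_of_injective hRinj
  omega

lemma card_box {d : ℕ} (M : Fin d → ℕ) : ((box M).card : ℝ) = ∏ l, (M l : ℝ) := by
  unfold box
  rw [Fintype.card_piFinset]
  simp

lemma card_sbox_two {r : ℕ} (N : Fin r → ℕ) (hN : ∀ l, 1 ≤ N l) :
    ((sbox fun l => 2 * N l).card : ℝ) ≤ 5 ^ r * vol N := by
  unfold sbox vol
  rw [Fintype.card_piFinset]
  push_cast
  have h5 : (5 : ℝ) ^ r = ∏ _l : Fin r, (5 : ℝ) := by simp
  rw [h5, ← Finset.prod_mul_distrib]
  apply Finset.prod_le_prod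
  · intro l _; positivity
  · intro l _
    rw [Int.card_Icc]
    have h1 : (1 : ℝ) ≤ (N l : ℝ) := by exact_mod_cast hN l
    have h2 : ((2 * (N l : ℤ) + 1 - -(2 * (N l : ℤ))).toNat : ℝ) = 4 * (N l : ℝ) + 1 := by
      have : (2 * (N l : ℤ) + 1 - -(2 * (N l : ℤ))).toNat = 4 * N l + 1 := by omega
      rw [this]; push_cast; ring
    rw [h2]
    linarith

lemma card_bx {r : ℕ} (Q : SG r) (c : Fin r → ℤ) : ((Q.bx c).card : ℝ) = Q.v := by
  have h : (Q.bx c).card = (box Q.M).card := by
    unfold SG.bx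
    apply Finset.card_image_of_injOn
    intro u hu u' hu' he
    have he' : Q.φ u = Q.φ u' := add_left_cancel he
    have h0 : Q.φ (u - u') = 0 := by rw [map_sub, he', sub_self]
    have hu1 := Fintype.mem_piFinset.mp (Finset.mem_coe.mp hu)
    have hu2 := Fintype.mem_piFinset.mp (Finset.mem_coe.mp hu')
    have := Q.proper (u - u') (by
      intro l
      have a1 := Finset.mem_Ico.mp (hu1 l)
      have a2 := Finset.mem_Ico.mp (hu2 l)
      rw [Pi.sub_apply, abs_le]
      constructor <;> linarith [a1.1, a1.2, a2.1, a2.2]) h0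
    exact sub_eq_zero.mp this
  rw [h, card_box]
  rfl

lemma card_bx_add {r : ℕ} (Q : SG r) (c : Fin r → ℤ) :
    ((Q.bx c + Q.bx c).card : ℝ) ≤ 2 ^ Q.d * Q.v := by
  have hsub : Q.bx c + Q.bx c ⊆ (box fun l => 2 * Q.M l).image fun w => c + c + Q.φ w := by
    intro z hz
    obtain ⟨x, hx, y, hy, rfl⟩ := Finset.mem_add.mp hz
    obtain ⟨u, hu, rfl⟩ := Finset.mem_image.mp hx
    obtain ⟨v, hv, rfl⟩ := Finset.mem_image.mp hy
    have hu1 := Fintype.mem_piFinset.mp hu
    have hu2 := Fintype.mem_piFinset.mp hv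
    refine Finset.mem_image.mpr ⟨u + v, ?_, ?_⟩
    · unfold box
      rw [Fintype.mem_piFinset]
      intro l
      have a1 := Finset.mem_Ico.mp (hu1 l)
      have a2 := Finset.mem_Ico.mp (hu2 l)
      rw [Pi.add_apply, Finset.mem_Ico]
      push_cast
      constructor <;> linarith [a1.1, a1.2, a2.1, a2.2]
    · simp only [map_add]
      abel
  have h1 : ((Q.bx c + Q.bx c).card : ℝ) ≤ ((box fun l => 2 * Q.M l).card : ℝ) := by
    exact_mod_cast (Finset.card_le_card hsub).trans Finset.card_image_le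
  rw [card_box] at h1
  refine h1.trans (le_of_eq ?_)
  push_cast
  rw [Finset.prod_mul_distrib]
  simp [SG.v]

end INT_

open INT_ in
theorem int_proof (hCLC : Stmt_CLC) : Stmt_INT := by
  refine ⟨2, ?_⟩
  intro Z hZ r N T Q c hr hTd hQd hN hTN hE
  have hvN : (1 : ℝ) ≤ vol N := by
    unfold vol
    have : ∏ _l : Fin r, (1 : ℝ) ≤ ∏ l, (N l : ℝ) := by
      apply Finset.prod_le_prod
      · intro l _; norm_num
      · intro l _; exact_mod_cast hN l
    simpa using this
  have hTsv : (1 : ℝ) ≤ T.sv := by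
    unfold SG.sv
    have : ∏ _l : Fin T.d, (1 : ℝ) ≤ ∏ l, (2 * (T.M l : ℝ) + 1) := by
      apply Finset.prod_le_prod
      · intro l _; norm_num
      · intro l _
        have : (0 : ℝ) ≤ T.M l := by positivity
        linarith
    simpa using this
  have hQv : (1 : ℝ) ≤ Q.v := by
    unfold SG.v
    have : ∏ _l : Fin Q.d, (1 : ℝ) ≤ ∏ l, (Q.M l : ℝ) := by
      apply Finset.prod_le_prod
      · intro l _; norm_num
      · intro l _; exact_mod_cast Q.pos l
    simpa using this
  have hZr : (2 : ℝ) ≤ (Z : ℝ) := by exact_mod_cast hZ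
  set Y : ℝ := (Z : ℝ) ^ 35 with hY
  have hY0 : 0 ≤ Y := by positivity
  rcases Nat.eq_zero_or_pos (T.d + Q.d) with hD | hD
  · -- rank zero
    have hT0 : T.d = 0 := by omega
    have hQ0 : Q.d = 0 := by omega
    refine ⟨T, subset_rfl, ?_, by omega, ?_⟩
    · intro z hz
      obtain ⟨u, hu, rfl⟩ := Finset.mem_image.mp hz
      have hem : IsEmpty (Fin T.d) := by rw [hT0]; infer_instance
      have hu0 : u = 0 := Subsingleton.elim _ _
      subst hu0
      unfold SG.q
      refine Finset.mem_image.mpr ⟨0, ?_, by simp⟩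
      rw [Finset.mem_filter]
      refine ⟨?_, by intro l; simp⟩
      unfold sbox
      rw [Fintype.mem_piFinset]
      intro l
      rw [Finset.mem_Icc]
      constructor <;> simp
    · have hem : IsEmpty (Fin Q.d) := by rw [hQ0]; infer_instance
      have hQ1 : Q.v = 1 := by unfold SG.v; simp
      rw [hQ1, mul_one]
      have h1 : Real.exp (-(2 * Y)) ≤ 1 := by
        rw [Real.exp_le_one_iff]; linarith
      calc Real.exp (-(2 * Y)) * T.sv ≤ 1 * T.sv := by
            apply mul_le_mul_of_nonneg_right h1; linarith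
        _ = T.sv * 1 := by ring
        _ ≤ T.sv * vol N := by
            apply mul_le_mul_of_nonneg_left hvN; linarith
  -- main case
  set L1 : (Fin (T.d + Q.d) → ℤ) →ₗ[ℤ] (Fin T.d → ℤ) :=
    LinearMap.funLeft ℤ ℤ (Fin.castAdd Q.d) with hL1
  set L2 : (Fin (T.d + Q.d) → ℤ) →ₗ[ℤ] (Fin Q.d → ℤ) :=
    LinearMap.funLeft ℤ ℤ (Fin.natAdd T.d) with hL2
  have hL1a : ∀ (z : Fin (T.d + Q.d) → ℤ) (l : Fin T.d), L1 z l = z (Fin.castAdd Q.d l) :=
    fun z l => rfl
  have hL2a : ∀ (z : Fin (T.d + Q.d) → ℤ) (l : Fin Q.d), L2 z l = z (Fin.natAdd T.d l) :=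
    fun z l => rfl
  set Λ : Submodule ℤ (Fin (T.d + Q.d) → ℤ) := LinearMap.ker (T.φ ∘ₗ L1 - Q.φ ∘ₗ L2) with hΛ
  have hmemΛ : ∀ z, z ∈ Λ ↔ T.φ (L1 z) = Q.φ (L2 z) := by
    intro z
    rw [hΛ, LinearMap.mem_ker, LinearMap.sub_apply, LinearMap.comp_apply, LinearMap.comp_apply,
      sub_eq_zero]
  set Nb : Fin (T.d + Q.d) → ℝ :=
    Fin.append (fun l => (T.M l : ℝ)) (fun l => (Q.M l : ℝ) / 4) with hNb
  have hNb1 : ∀ l : Fin T.d, Nb (Fin.castAdd Q.d l) = (T.M l : ℝ) := by
    intro l; rw [hNb, Fin.append_left]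
  have hNb2 : ∀ l : Fin Q.d, Nb (Fin.natAdd T.d l) = (Q.M l : ℝ) / 4 := by
    intro l; rw [hNb, Fin.append_right]
  have hNbpos : ∀ l, 0 < Nb l := by
    intro l
    refine Fin.addCases (fun l => ?_) (fun l => ?_) l
    · rw [hNb1]; exact_mod_cast T.pos l
    · rw [hNb2]
      have : (0 : ℝ) < (Q.M l : ℝ) := by exact_mod_cast Q.pos l
      positivity
  obtain ⟨d, g, M, hd, hM, hg1, hg2, ⟨F, hFc, hF⟩, -⟩ :=
    hCLC (T.d + Q.d) r Λ Nb ((T.φ ∘ₗ L1) ∘ₗ Λ.subtype) hD hNbpos
  have hφ : ∀ y : Λ, ((T.φ ∘ₗ L1) ∘ₗ Λ.subtype) y = T.φ (L1 (y : Fin (T.d + Q.d) → ℤ)) :=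
    fun y => rfl
  have hbnd : ∀ y : Fin (T.d + Q.d) → ℤ, (∀ l, |((y l : ℤ) : ℝ)| ≤ Nb l) ↔
      (∀ l, |L1 y l| ≤ (T.M l : ℤ)) ∧ (∀ l, 4 * |L2 y l| ≤ (Q.M l : ℤ)) := by
    intro y
    constructor
    · intro h
      constructor
      · intro l
        have := h (Fin.castAdd Q.d l)
        rw [hNb1] at this
        rw [hL1a]
        exact_mod_cast this
      · intro l
        have := h (Fin.natAdd T.d l)
        rw [hNb2] at this
        rw [hL2a]
        have h4 : 4 * |((y (Fin.natAdd T.d l) : ℤ) : ℝ)| ≤ (Q.M l : ℝ) := by linarith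
        exact_mod_cast h4
    · rintro ⟨h1, h2⟩ l
      refine Fin.addCases (fun l => ?_) (fun l => ?_) l
      · rw [hNb1]
        have := h1 l
        rw [hL1a] at this
        exact_mod_cast this
      · rw [hNb2]
        have := h2 l
        rw [hL2a] at this
        have h4 : 4 * |((y (Fin.natAdd T.d l) : ℤ) : ℝ)| ≤ (Q.M l : ℝ) := by exact_mod_cast this
        linarith
  refine ⟨⟨d, g, M, hM, hg2⟩, ?_, ?_, ?_, ?_⟩
  · -- inside `T`
    intro z hz
    obtain ⟨u, hu, rfl⟩ := Finset.mem_image.mp hz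
    have hu1 := Fintype.mem_piFinset.mp hu
    obtain ⟨y, hy1, hy2⟩ := hg1 u (by
      intro l
      have a1 := Finset.mem_Icc.mp (hu1 l)
      change -(M l : ℤ) ≤ u l ∧ u l ≤ (M l : ℤ) at a1
      rw [abs_le]
      have : (0 : ℤ) ≤ (M l : ℤ) := by positivity
      constructor <;> linarith [a1.1, a1.2])
    have hb := (hbnd y).mp hy1
    change (0 : Fin r → ℤ) + g u ∈ T.sy 0
    unfold SG.sy
    refine Finset.mem_image.mpr ⟨L1 y, ?_, ?_⟩
    · unfold sbox
      rw [Fintype.mem_piFinset]
      intro l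
      rw [Finset.mem_Icc]
      exact abs_le.mp (hb.1 l)
    · rw [← hy2, hφ]
  · -- inside `Q`
    intro z hz
    obtain ⟨u, hu, rfl⟩ := Finset.mem_image.mp hz
    have hu1 := Fintype.mem_piFinset.mp hu
    obtain ⟨y, hy1, hy2⟩ := hg1 u (by
      intro l
      have a1 := Finset.mem_Icc.mp (hu1 l)
      change -(M l : ℤ) ≤ u l ∧ u l ≤ (M l : ℤ) at a1
      rw [abs_le]
      have : (0 : ℤ) ≤ (M l : ℤ) := by positivity
      constructor <;> linarith [a1.1, a1.2])
    have hb := (hbnd y).mp hy1
    change (0 : Fin r → ℤ) + g u ∈ Q.q 1 0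
    unfold SG.q
    refine Finset.mem_image.mpr ⟨L2 y, ?_, ?_⟩
    · rw [Finset.mem_filter]
      refine ⟨?_, ?_⟩
      · unfold sbox
        rw [Fintype.mem_piFinset]
        intro l
        rw [Finset.mem_Icc]
        have h1 := hb.2 l
        have h2 : |L2 (y : Fin (T.d + Q.d) → ℤ) l| ≤ (Q.M l : ℤ) := by
          have := abs_nonneg (L2 (y : Fin (T.d + Q.d) → ℤ) l)
          linarith
        push_cast
        rw [one_mul]
        exact abs_le.mp h2
      · intro l
        have h1 := hb.2 l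
        push_cast
        rw [one_mul]
        exact h1
    · rw [← hy2, hφ, (hmemΛ _).mp y.2]
  · -- rank
    change d ≤ T.d + Q.kr
    refine hd.trans ?_
    apply rank_bound T.φ Q.φ L1 L2
    intro z h1 h2
    funext l
    refine Fin.addCases (fun l => ?_) (fun l => ?_) l
    · have := congrFun h1 l
      rw [hL1a] at this
      exact this
    · have := congrFun h2 l
      rw [hL2a] at this
      exact this
  · -- size
    set T' : SG r := ⟨d, g, M, hM, hg2⟩ with hT'
    -- covering of Q
    set E := box N ∩ Q.bx c with hEdef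
    have hEpos : (0 : ℝ) < (E.card : ℝ) := lt_of_lt_of_le (by positivity) hE
    have hEne : E.Nonempty := Finset.card_pos.mp (by exact_mod_cast hEpos)
    have hKc : ((Q.bx c + E).card : ℝ) ≤ (2 ^ Q.d * Real.exp Y) * (E.card : ℝ) := by
      have h1 : Q.bx c + E ⊆ Q.bx c + Q.bx c :=
        Finset.add_subset_add_left (Finset.inter_subset_right)
      have h2 : ((Q.bx c + E).card : ℝ) ≤ ((Q.bx c + Q.bx c).card : ℝ) := by
        exact_mod_cast Finset.card_le_card h1
      have h3 : Q.v ≤ Real.exp Y * (E.card : ℝ) := by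
        have h4 : Real.exp Y * (Real.exp (-Y) * Q.v) ≤ Real.exp Y * (E.card : ℝ) :=
          mul_le_mul_of_nonneg_left hE (Real.exp_pos _).le
        rw [← mul_assoc, ← Real.exp_add, add_neg_cancel, Real.exp_zero, one_mul] at h4
        exact h4
      calc ((Q.bx c + E).card : ℝ) ≤ _ := h2
        _ ≤ 2 ^ Q.d * Q.v := card_bx_add Q c
        _ ≤ 2 ^ Q.d * (Real.exp Y * (E.card : ℝ)) := by
            apply mul_le_mul_of_nonneg_left h3; positivity
        _ = _ := by ring
    obtain ⟨X, -, hXc, hX⟩ := Finset.ruzsa_covering_add (A := Q.bx c) hEne hKc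
    -- the set of values
    set Vs : Finset (Fin r → ℤ) := (X ×ˢ sbox fun l => 2 * N l).image
      (fun p => p.2 - p.1 + c) with hVs
    have hVsc : (Vs.card : ℝ) ≤ (2 ^ Q.d * Real.exp Y) * (5 ^ r * vol N) := by
      have h1 : (Vs.card : ℝ) ≤ ((X.card : ℝ)) * ((sbox fun l => 2 * N l).card : ℝ) := by
        have : Vs.card ≤ X.card * (sbox fun l => 2 * N l).card := by
          refine Finset.card_image_le.trans ?_
          rw [Finset.card_product]
        exact_mod_cast this
      refine h1.trans ?_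
      exact mul_le_mul hXc (card_sbox_two N hN) (by positivity) (by positivity)
    -- the domain
    set D1 : Finset (Fin T.d → ℤ) := Fintype.piFinset fun l => Finset.Icc (0 : ℤ) (T.M l) with hD1
    set D2 : Finset (Fin Q.d → ℤ) := Fintype.piFinset fun l =>
      Finset.Icc (0 : ℤ) ((Q.M l / 4 : ℕ) : ℤ) with hD2
    have hD1c : T.sv ≤ 2 ^ T.d * (D1.card : ℝ) := by
      rw [hD1, Fintype.card_piFinset]
      push_cast
      have h2 : (2 : ℝ) ^ T.d = ∏ _l : Fin T.d, (2 : ℝ) := by simp
      rw [h2, ← Finset.prod_mul_distrib]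
      unfold SG.sv
      apply Finset.prod_le_prod
      · intro l _; positivity
      · intro l _
        rw [Int.card_Icc]
        have : ((T.M l : ℤ) + 1 - 0).toNat = T.M l + 1 := by omega
        rw [this]
        push_cast
        linarith
    have hD2c : Q.v ≤ 4 ^ Q.d * (D2.card : ℝ) := by
      rw [hD2, Fintype.card_piFinset]
      push_cast
      have h2 : (4 : ℝ) ^ Q.d = ∏ _l : Fin Q.d, (4 : ℝ) := by simp
      rw [h2, ← Finset.prod_mul_distrib]
      unfold SG.v
      apply Finset.prod_le_prod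
      · intro l _; positivity
      · intro l _
        rw [Int.card_Icc]
        have h5 : ((Q.M l : ℤ) / 4 + 1 - 0).toNat = Q.M l / 4 + 1 := by omega
        rw [h5]
        have h6 : Q.M l ≤ 4 * (Q.M l / 4 + 1) := by omega
        exact_mod_cast h6
    -- target of the pigeonhole
    set W : Finset (Fin r → ℤ) := (F ×ˢ box M).image (fun p => p.1 + g p.2) with hW
    have hWc : (W.card : ℝ) ≤ Real.exp (20 * ((T.d + Q.d : ℕ) : ℝ) ^ 3) * T'.sv := by
      have h1 : (W.card : ℝ) ≤ (F.card : ℝ) * ((box M).card : ℝ) := by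
        have : W.card ≤ F.card * (box M).card := by
          refine Finset.card_image_le.trans ?_
          rw [Finset.card_product]
        exact_mod_cast this
      refine h1.trans ?_
      rw [card_box]
      have h2 : ∏ l, (M l : ℝ) ≤ T'.sv := by
        change ∏ l, (M l : ℝ) ≤ ∏ l, (2 * (M l : ℝ) + 1)
        apply Finset.prod_le_prod
        · intro l _; positivity
        · intro l _
          have : (0 : ℝ) ≤ (M l : ℝ) := by positivity
          linarith
      exact mul_le_mul hFc h2 (by positivity) (by positivity)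
    have hpig : (D1 ×ˢ D2).card ≤ W.card * Vs.card := by
      apply Finset.card_le_mul_card_image_of_maps_to
        (f := fun p : (Fin T.d → ℤ) × (Fin Q.d → ℤ) => T.φ p.1 - Q.φ p.2)
      · rintro ⟨u, v⟩ huv
        rw [Finset.mem_product] at huv
        have hu := Fintype.mem_piFinset.mp huv.1
        have hv := Fintype.mem_piFinset.mp huv.2
        -- T.φ u in sbox N
        have h1 : T.φ u ∈ sbox N := by
          apply hTN
          unfold SG.sy
          refine Finset.mem_image.mpr ⟨u, ?_, by simp⟩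
          unfold sbox
          rw [Fintype.mem_piFinset]
          intro l
          have a1 := Finset.mem_Icc.mp (hu l)
          have a2 : (0 : ℤ) ≤ (T.M l : ℤ) := by positivity
          rw [Finset.mem_Icc]
          constructor <;> linarith [a1.1, a1.2]
        have h2 : c + Q.φ v ∈ Q.bx c := by
          unfold SG.bx
          refine Finset.mem_image.mpr ⟨v, ?_, rfl⟩
          unfold box
          rw [Fintype.mem_piFinset]
          intro l
          have a1 := Finset.mem_Icc.mp (hv l)
          have a2 := Q.pos l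
          rw [Finset.mem_Ico]
          refine ⟨a1.1, lt_of_le_of_lt a1.2 ?_⟩
          have : Q.M l / 4 < Q.M l := by omega
          exact_mod_cast this
        obtain ⟨x, hx, w, hw, hxw⟩ := Finset.mem_add.mp (hX h2)
        obtain ⟨e1, he1, e2, he2, rfl⟩ := Finset.mem_sub.mp hw
        have he1' := Fintype.mem_piFinset.mp (Finset.mem_inter.mp he1).1
        have he2' := Fintype.mem_piFinset.mp (Finset.mem_inter.mp he2).1
        have h1' := Fintype.mem_piFinset.mp h1
        refine Finset.mem_image.mpr ⟨(x, T.φ u - (e1 - e2)), ?_, ?_⟩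
        · rw [Finset.mem_product]
          refine ⟨hx, ?_⟩
          unfold sbox
          rw [Fintype.mem_piFinset]
          intro l
          have a1 := Finset.mem_Ico.mp (he1' l)
          have a2 := Finset.mem_Ico.mp (he2' l)
          have a3 := Finset.mem_Icc.mp (h1' l)
          simp only [Pi.sub_apply]
          rw [Finset.mem_Icc]
          push_cast
          constructor <;> linarith [a1.1, a1.2, a2.1, a2.2, a3.1, a3.2]
        · change T.φ u - (e1 - e2) - x + c = T.φ u - Q.φ v
          have : Q.φ v = x + (e1 - e2) - c := by rw [hxw]; abel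
          rw [this]
          abel
      · intro b _
        rcases (((D1 ×ˢ D2).filter fun p => T.φ p.1 - Q.φ p.2 = b)).eq_empty_or_nonempty
          with hemp | ⟨z0, hz0⟩
        · rw [hemp]; simp
        · rw [Finset.mem_filter, Finset.mem_product] at hz0
          have hz1 := Fintype.mem_piFinset.mp hz0.1.1
          have hz2 := Fintype.mem_piFinset.mp hz0.1.2
          apply Finset.card_le_card_of_injOn (fun p => T.φ (p.1 - z0.1))
          · rintro ⟨u, v⟩ huv
            rw [Finset.mem_coe, Finset.mem_filter, Finset.mem_product] at huv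
            obtain ⟨⟨hu, hv⟩, huvb⟩ := huv
            have hu := Fintype.mem_piFinset.mp hu
            have hv := Fintype.mem_piFinset.mp hv
            set y : Fin (T.d + Q.d) → ℤ := Fin.append (u - z0.1) (v - z0.2) with hy
            have hy1 : L1 y = u - z0.1 := by
              funext l; rw [hL1a, hy, Fin.append_left]
            have hy2 : L2 y = v - z0.2 := by
              funext l; rw [hL2a, hy, Fin.append_right]
            have hyΛ : y ∈ Λ := by
              rw [hmemΛ, hy1, hy2, map_sub, map_sub]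
              have e1 := huvb
              have e2 := hz0.2
              simp only at e1
              have e3 : T.φ u - Q.φ v = T.φ z0.1 - Q.φ z0.2 := by rw [e1, e2]
              have e4 : T.φ u = T.φ z0.1 - Q.φ z0.2 + Q.φ v := by rw [← e3]; abel
              rw [e4]
              abel
            have hyb : ∀ l, |((y l : ℤ) : ℝ)| ≤ Nb l := by
              rw [hbnd]
              constructor
              · intro l
                rw [hy1, Pi.sub_apply, abs_le]
                have a1 := Finset.mem_Icc.mp (hu l)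
                have a2 := Finset.mem_Icc.mp (hz1 l)
                constructor <;> linarith [a1.1, a1.2, a2.1, a2.2]
              · intro l
                rw [hy2, Pi.sub_apply]
                have a1 := Finset.mem_Icc.mp (hv l)
                have a2 := Finset.mem_Icc.mp (hz2 l)
                have a3 : |v l - z0.2 l| ≤ ((Q.M l / 4 : ℕ) : ℤ) := by
                  rw [abs_le]
                  constructor <;> linarith [a1.1, a1.2, a2.1, a2.2]
                have a4 : 4 * ((Q.M l / 4 : ℕ) : ℤ) ≤ (Q.M l : ℤ) := by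
                  have : 4 * (Q.M l / 4) ≤ Q.M l := by omega
                  exact_mod_cast this
                linarith
            obtain ⟨f, hf, w, hw, hfw⟩ := hF ⟨y, hyΛ⟩ hyb
            rw [hφ] at hfw
            change T.φ (L1 y) = f + g w at hfw
            rw [hy1] at hfw
            change T.φ (u - z0.1) ∈ ((W : Finset (Fin r → ℤ)) : Set (Fin r → ℤ))
            rw [Finset.mem_coe, hfw]
            exact Finset.mem_image.mpr ⟨(f, w), Finset.mem_product.mpr ⟨hf, hw⟩, rfl⟩
          · rintro ⟨u, v⟩ huv ⟨u', v'⟩ huv' heq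
            rw [Finset.mem_coe, Finset.mem_filter, Finset.mem_product] at huv huv'
            obtain ⟨⟨hu, hv⟩, huvb⟩ := huv
            obtain ⟨⟨hu', hv'⟩, huvb'⟩ := huv'
            have hu := Fintype.mem_piFinset.mp hu
            have hv := Fintype.mem_piFinset.mp hv
            have hu' := Fintype.mem_piFinset.mp hu'
            have hv' := Fintype.mem_piFinset.mp hv'
            simp only [map_sub] at heq
            have e1 : T.φ u = T.φ u' := sub_left_injective heq
            have e2 : T.φ (u - u') = 0 := by rw [map_sub, e1, sub_self]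
            have e3 : u - u' = 0 := by
              apply T.proper _ _ e2
              intro l
              have a1 := Finset.mem_Icc.mp (hu l)
              have a2 := Finset.mem_Icc.mp (hu' l)
              have a3 : (0 : ℤ) ≤ (T.M l : ℤ) := by positivity
              rw [Pi.sub_apply, abs_le]
              constructor <;> linarith [a1.1, a1.2, a2.1, a2.2]
            simp only at huvb huvb'
            have e4 : Q.φ v = Q.φ v' := by
              have e5 : T.φ u - Q.φ v = T.φ u' - Q.φ v' := by rw [huvb, huvb']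
              rw [e1] at e5
              exact sub_right_injective e5
            have e6 : Q.φ (v - v') = 0 := by rw [map_sub, e4, sub_self]
            have e7 : v - v' = 0 := by
              apply Q.proper _ _ e6
              intro l
              have a1 := Finset.mem_Icc.mp (hv l)
              have a2 := Finset.mem_Icc.mp (hv' l)
              have a4 : ((Q.M l / 4 : ℕ) : ℤ) ≤ (Q.M l : ℤ) := by
                have : (Q.M l / 4) ≤ Q.M l := by omega
                exact_mod_cast this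
              have a3 : (0 : ℤ) ≤ (Q.M l : ℤ) := by positivity
              rw [Pi.sub_apply, abs_le]
              constructor <;> linarith [a1.1, a1.2, a2.1, a2.2]
            rw [sub_eq_zero.mp e3, sub_eq_zero.mp e7]
    -- final computation
    have hpig' : (D1.card : ℝ) * (D2.card : ℝ) ≤ (W.card : ℝ) * (Vs.card : ℝ) := by
      rw [Finset.card_product] at hpig
      exact_mod_cast hpig
    have hsv0 : 0 ≤ T'.sv := by
      change 0 ≤ ∏ l, (2 * (M l : ℝ) + 1)
      positivity
    have hvol0 : 0 ≤ vol N := by linarith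
    have hmain : T.sv * Q.v ≤ (2 ^ T.d * 4 ^ Q.d) *
        ((Real.exp (20 * ((T.d + Q.d : ℕ) : ℝ) ^ 3) * T'.sv) *
          ((2 ^ Q.d * Real.exp Y) * (5 ^ r * vol N))) := by
      calc T.sv * Q.v ≤ (2 ^ T.d * (D1.card : ℝ)) * (4 ^ Q.d * (D2.card : ℝ)) :=
            mul_le_mul hD1c hD2c (by linarith) (by positivity)
        _ = (2 ^ T.d * 4 ^ Q.d) * ((D1.card : ℝ) * (D2.card : ℝ)) := by ring
        _ ≤ (2 ^ T.d * 4 ^ Q.d) * ((W.card : ℝ) * (Vs.card : ℝ)) := by
            apply mul_le_mul_of_nonneg_left hpig'; positivity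
        _ ≤ _ := by
            apply mul_le_mul_of_nonneg_left _ (by positivity)
            exact mul_le_mul hWc hVsc (by positivity) (by positivity)
    -- constants
    have hconst : (2 : ℝ) ^ T.d * 4 ^ Q.d * 2 ^ Q.d * 5 ^ r *
        Real.exp (20 * ((T.d + Q.d : ℕ) : ℝ) ^ 3) ≤ Real.exp Y := by
      have e2 : (2 : ℝ) ≤ Real.exp 1 := by
        have := Real.add_one_le_exp (1 : ℝ); linarith
      have e4 : (4 : ℝ) ≤ Real.exp 2 := by
        have : Real.exp 2 = Real.exp 1 * Real.exp 1 := by rw [← Real.exp_add]; norm_num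
        rw [this]; nlinarith
      have e5 : (5 : ℝ) ≤ Real.exp 3 := by
        have : Real.exp 3 = Real.exp 2 * Real.exp 1 := by rw [← Real.exp_add]; norm_num
        rw [this]; nlinarith
      have p1 : (2 : ℝ) ^ T.d ≤ Real.exp (Z : ℝ) := by
        calc (2 : ℝ) ^ T.d ≤ (Real.exp 1) ^ T.d := pow_le_pow_left₀ (by norm_num) e2 _
          _ ≤ (Real.exp 1) ^ Z := pow_le_pow_right₀ (by linarith) hTd
          _ = Real.exp (Z : ℝ) := by rw [← Real.exp_nat_mul, mul_one]
      have p2 : (4 : ℝ) ^ Q.d ≤ Real.exp (4 * (Z : ℝ)) := by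
        calc (4 : ℝ) ^ Q.d ≤ (Real.exp 2) ^ Q.d := pow_le_pow_left₀ (by norm_num) e4 _
          _ ≤ (Real.exp 2) ^ (2 * Z) := pow_le_pow_right₀ (by linarith) hQd
          _ = Real.exp (4 * (Z : ℝ)) := by rw [← Real.exp_nat_mul]; push_cast; ring_nf
      have p3 : (2 : ℝ) ^ Q.d ≤ Real.exp (2 * (Z : ℝ)) := by
        calc (2 : ℝ) ^ Q.d ≤ (Real.exp 1) ^ Q.d := pow_le_pow_left₀ (by norm_num) e2 _
          _ ≤ (Real.exp 1) ^ (2 * Z) := pow_le_pow_right₀ (by linarith) hQd
          _ = Real.exp (2 * (Z : ℝ)) := by rw [← Real.exp_nat_mul]; push_cast; ring_nf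
      have p4 : (5 : ℝ) ^ r ≤ Real.exp (3 * (Z : ℝ)) := by
        calc (5 : ℝ) ^ r ≤ (Real.exp 3) ^ r := pow_le_pow_left₀ (by norm_num) e5 _
          _ ≤ (Real.exp 3) ^ Z := pow_le_pow_right₀ (by linarith) hr
          _ = Real.exp (3 * (Z : ℝ)) := by rw [← Real.exp_nat_mul]; ring_nf
      have p5 : Real.exp (20 * ((T.d + Q.d : ℕ) : ℝ) ^ 3) ≤ Real.exp (540 * (Z : ℝ) ^ 3) := by
        apply Real.exp_le_exp.mpr
        have h1 : ((T.d + Q.d : ℕ) : ℝ) ≤ 3 * (Z : ℝ) := by
          have : T.d + Q.d ≤ 3 * Z := by omega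
          exact_mod_cast this
        have h2 : ((T.d + Q.d : ℕ) : ℝ) ^ 3 ≤ (3 * (Z : ℝ)) ^ 3 :=
          pow_le_pow_left₀ (by positivity) h1 3
        calc 20 * ((T.d + Q.d : ℕ) : ℝ) ^ 3 ≤ 20 * (3 * (Z : ℝ)) ^ 3 := by linarith
          _ = 540 * (Z : ℝ) ^ 3 := by ring
      calc (2 : ℝ) ^ T.d * 4 ^ Q.d * 2 ^ Q.d * 5 ^ r *
            Real.exp (20 * ((T.d + Q.d : ℕ) : ℝ) ^ 3)
          ≤ Real.exp (Z : ℝ) * Real.exp (4 * (Z : ℝ)) * Real.exp (2 * (Z : ℝ)) *
            Real.exp (3 * (Z : ℝ)) * Real.exp (540 * (Z : ℝ) ^ 3) := by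
            gcongr
        _ = Real.exp (10 * (Z : ℝ) + 540 * (Z : ℝ) ^ 3) := by
            rw [← Real.exp_add, ← Real.exp_add, ← Real.exp_add, ← Real.exp_add]
            congr 1
            ring
        _ ≤ Real.exp Y := by
            apply Real.exp_le_exp.mpr
            have q1 : (1 : ℝ) ≤ (Z : ℝ) := by linarith
            have q2 : (Z : ℝ) ≤ (Z : ℝ) ^ 3 := by
              calc (Z : ℝ) = (Z : ℝ) ^ 1 := (pow_one _).symm
                _ ≤ (Z : ℝ) ^ 3 := pow_le_pow_right₀ q1 (by norm_num)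
            have q3 : (550 : ℝ) ≤ (Z : ℝ) ^ 32 := by
              calc (550 : ℝ) ≤ 2 ^ 32 := by norm_num
                _ ≤ (Z : ℝ) ^ 32 := pow_le_pow_left₀ (by norm_num) hZr 32
            have q4 : 550 * (Z : ℝ) ^ 3 ≤ (Z : ℝ) ^ 32 * (Z : ℝ) ^ 3 :=
              mul_le_mul_of_nonneg_right q3 (by positivity)
            have q5 : (Z : ℝ) ^ 32 * (Z : ℝ) ^ 3 = Y := by rw [hY, ← pow_add]
            rw [q5] at q4
            linarith
    calc Real.exp (-(2 * Y)) * T.sv * Q.v = Real.exp (-(2 * Y)) * (T.sv * Q.v) := by ring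
      _ ≤ Real.exp (-(2 * Y)) * ((2 ^ T.d * 4 ^ Q.d) *
        ((Real.exp (20 * ((T.d + Q.d : ℕ) : ℝ) ^ 3) * T'.sv) *
          ((2 ^ Q.d * Real.exp Y) * (5 ^ r * vol N)))) :=
          mul_le_mul_of_nonneg_left hmain (Real.exp_pos _).le
      _ = ((2 : ℝ) ^ T.d * 4 ^ Q.d * 2 ^ Q.d * 5 ^ r *
        Real.exp (20 * ((T.d + Q.d : ℕ) : ℝ) ^ 3)) * (Real.exp (-(2 * Y)) * Real.exp Y) *
          (T'.sv * vol N) := by ring
      _ ≤ Real.exp Y * (Real.exp (-(2 * Y)) * Real.exp Y) * (T'.sv * vol N) := by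
          gcongr
      _ = T'.sv * vol N := by
          rw [← Real.exp_add, ← Real.exp_add]
          have : Y + (-(2 * Y) + Y) = 0 := by ring
          rw [this, Real.exp_zero, one_mul]

end Pool.Agent.EMS
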