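import Pool.Agent.EMS.StmtsC

/-!
# EMS, module IOT: growth of the index
-/

set_option autoImplicit false

open Finset
open scoped BigOperators Classical

namespace Pool.Agent.EMS

namespace IOT_

variable {D r : ℕ} (φ : (Fin D → ℤ) →ₗ[ℤ] (Fin r → ℤ))

theorem mem_box' {D : ℕ} {N : ℕ} {x : Fin D → ℤ} :
    x ∈ box (fun _ : Fin D => N) ↔ ∀ l, 0 ≤ x l ∧ x l < N := by
  unfold box
  rw [Fintype.mem_piFinset]
  exact forall_congr' fun l => Finset.mem_Ico

/-- reduction modulo `m` -/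
def red {D : ℕ} (m : ℤ) (x : Fin D → ℤ) : Fin D → ℤ := fun l => x l % m

theorem red_eq {D : ℕ} (m : ℤ) (x : Fin D → ℤ) : x = red m x + m • (fun l => x l / m) := by
  funext l
  show x l = x l % m + m * (x l / m)
  exact (Int.emod_add_mul_ediv (x l) m).symm

theorem red_sub {D : ℕ} {m : ℤ} {x x' : Fin D → ℤ} (h : red m x = red m x') :
    ∃ y, x - x' = m • y := by
  have h1 : ∀ l, ∃ y, x l - x' l = m * y := by
    intro l
    have h2 : x l % m = x' l % m := congrFun h l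
    exact (Int.ModEq.dvd (show x' l ≡ x l [ZMOD m] from h2.symm))
  choose y hy using h1
  exact ⟨y, funext hy⟩

theorem gam_red (i : ℕ) {x : Fin D → ℤ} (h : Gam φ i x) : Gam φ i (red (2 ^ i : ℤ) x) := by
  obtain ⟨y, hy⟩ := h
  refine ⟨y - φ (fun l => x l / 2 ^ i), ?_⟩
  have h1 : φ x = φ (red (2 ^ i : ℤ) x) + (2 ^ i : ℤ) • φ (fun l => x l / 2 ^ i) := by
    rw [← map_smul, ← map_add, ← red_eq]
  rw [smul_sub, ← hy, h1, add_sub_cancel_right]

theorem red_box (i : ℕ) (x : Fin D → ℤ) :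
    red (2 ^ i : ℤ) x ∈ box (fun _ : Fin D => 2 ^ i) := by
  rw [mem_box']
  intro l
  refine ⟨Int.emod_nonneg _ (by positivity), ?_⟩
  push_cast
  exact Int.emod_lt_of_pos _ (by positivity)

theorem one (i : ℕ) : 2 ^ (i * Module.finrank ℤ (LinearMap.ker φ)) ≤ iota φ i := by
  obtain ⟨ρ, hρ⟩ : ∃ ρ, ρ = Module.finrank ℤ (LinearMap.ker φ) := ⟨_, rfl⟩
  rw [← hρ]
  have b : Module.Basis (Fin ρ) ℤ (LinearMap.ker φ) := by
    rw [hρ]
    exact Module.finBasis ℤ (LinearMap.ker φ)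
  let F : (Fin ρ → Fin (2 ^ i)) → (Fin D → ℤ) :=
    fun c => ((∑ j, ((c j : ℕ) : ℤ) • b j : LinearMap.ker φ) : Fin D → ℤ)
  have hinj : Function.Injective (fun c => red (2 ^ i : ℤ) (F c)) := by
    intro c c' h
    have h1 : red (2 ^ i : ℤ) (F c) = red (2 ^ i : ℤ) (F c') := h
    obtain ⟨y, hy⟩ : ∃ y : Fin D → ℤ, F c - F c' = (2 ^ i : ℤ) • y := by
      exact red_sub h1
    have hyk : y ∈ LinearMap.ker φ := by
      rw [LinearMap.mem_ker]
      have h2 : φ (F c - F c') = 0 := by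
        rw [map_sub]
        have a1 : φ (F c) = 0 := (∑ j, ((c j : ℕ) : ℤ) • b j : LinearMap.ker φ).2
        have a2 : φ (F c') = 0 := (∑ j, ((c' j : ℕ) : ℤ) • b j : LinearMap.ker φ).2
        rw [a1, a2, sub_zero]
      rw [hy, map_smul] at h2
      exact (smul_eq_zero.1 h2).resolve_left (by positivity)
    have h3 : (∑ j, (((c j : ℕ) : ℤ) - ((c' j : ℕ) : ℤ)) • b j : LinearMap.ker φ) =
        (2 ^ i : ℤ) • (⟨y, hyk⟩ : LinearMap.ker φ) := by
      apply Subtype.ext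
      show _ = (2 ^ i : ℤ) • y
      rw [← hy]
      show _ = ((∑ j, ((c j : ℕ) : ℤ) • b j : LinearMap.ker φ) : Fin D → ℤ) -
        ((∑ j, ((c' j : ℕ) : ℤ) • b j : LinearMap.ker φ) : Fin D → ℤ)
      rw [← Submodule.coe_sub, ← Finset.sum_sub_distrib]
      simp only [sub_smul]
    funext j
    have h4 : ((c j : ℕ) : ℤ) - ((c' j : ℕ) : ℤ) = (2 ^ i : ℤ) * b.repr ⟨y, hyk⟩ j := by
      have h4' := congrArg (fun z => b.repr z) h3
      simp only [map_smul] at h4'
      have h4'' : b.repr (∑ j, (((c j : ℕ) : ℤ) - ((c' j : ℕ) : ℤ)) • b j) j =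
        ((2 ^ i : ℤ) • b.repr ⟨y, hyk⟩) j := congrArg (fun z : Fin ρ →₀ ℤ => z j) h4'
      rw [b.repr_sum_self] at h4''
      exact h4''
    have h5 : (2 ^ i : ℤ) ∣ ((c j : ℕ) : ℤ) - ((c' j : ℕ) : ℤ) := ⟨_, h4⟩
    have h6 : ((c j : ℕ) : ℤ) < 2 ^ i := by exact_mod_cast (c j).2
    have h7 : ((c' j : ℕ) : ℤ) < 2 ^ i := by exact_mod_cast (c' j).2
    have h8 : ((c j : ℕ) : ℤ) - ((c' j : ℕ) : ℤ) = 0 := by
      apply Int.eq_zero_of_abs_lt_dvd h5
      rw [abs_lt]
      constructor <;> linarith [Int.natCast_nonneg (c j : ℕ), Int.natCast_nonneg (c' j : ℕ)]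
    apply Fin.ext
    have h9 : ((c j : ℕ) : ℤ) = ((c' j : ℕ) : ℤ) := sub_eq_zero.1 h8
    exact_mod_cast h9
  have hle : Fintype.card (Fin ρ → Fin (2 ^ i)) ≤ iota φ i := by
    unfold iota
    rw [← Finset.card_univ]
    apply Finset.card_le_card_of_injOn (fun c => red (2 ^ i : ℤ) (F c))
    · intro c _
      rw [Finset.mem_coe, Finset.mem_filter]
      refine ⟨red_box i _, gam_red φ i ⟨0, ?_⟩⟩
      rw [smul_zero]
      exact (∑ j, ((c j : ℕ) : ℤ) • b j : LinearMap.ker φ).2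
    · exact hinj.injOn
  rw [Fintype.card_fun, Fintype.card_fin, Fintype.card_fin, ← pow_mul] at hle
  exact hle

theorem two (i : ℕ) : iota φ i ≤ iota φ (i + 1) := by
  unfold iota
  apply Finset.card_le_card_of_injOn (fun x => (2 : ℤ) • x)
  · intro x hx
    rw [Finset.mem_coe, Finset.mem_filter] at *
    obtain ⟨h1, y, hy⟩ := hx
    rw [mem_box'] at *
    refine ⟨fun l => ?_, y, ?_⟩
    · have := h1 l
      show 0 ≤ 2 * x l ∧ 2 * x l < _
      push_cast at *
      rw [pow_succ]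
      constructor <;> linarith [this.1, this.2]
    · rw [map_smul, hy, smul_smul, pow_succ, mul_comm]
  · intro x _ y _ h
    funext l
    have := congrFun h l
    simp only [Pi.smul_apply, smul_eq_mul] at this
    omega

theorem three : iota φ 0 = 1 := by
  unfold iota
  rw [Finset.card_eq_one]
  refine ⟨0, ?_⟩
  ext x
  rw [Finset.mem_filter, Finset.mem_singleton, mem_box']
  constructor
  · rintro ⟨h, -⟩
    funext l
    have := h l
    simp only [pow_zero, Nat.cast_one] at this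
    show x l = 0
    omega
  · rintro rfl
    refine ⟨fun l => by simp, 0, by simp⟩

end IOT_

theorem iot_proof : Stmt_IOT := fun _ _ i φ =>
  ⟨IOT_.one φ i, IOT_.two φ i, IOT_.three φ⟩

end Pool.Agent.EMS
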