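import Pool.Agent.EMS.StmtsD

/-!
# EMS, module ITP: iteration of the induction step
-/

set_option autoImplicit false

open Finset
open scoped BigOperators Classical

namespace Pool.Agent.EMS

namespace ITP_

theorem pi_mono {κ R R' : ℕ} {J D0 W θ lo lo' hi : ℝ} (hR : R' ≤ R) (hlo : lo ≤ lo')
    (h : PI κ J D0 W θ R lo hi) : PI κ J D0 W θ R' lo' hi := by
  intro r N U hr hN hC hNT h1 h2 h3
  exact h r N U (hr.trans hR) hN hC hNT ((Real.exp_le_exp.mpr hlo).trans h1) h2 h3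

end ITP_

theorem itp_proof (hP : Stmt_PST) (hB : Stmt_BAS) : Stmt_ITP := by
  obtain ⟨Z1, hZ1⟩ := hP
  intro I
  refine ⟨max Z1 (30 * 8 ^ I), fun Z hZ κ M0 hM0 hM0Z hκ hlog hrho => ?_⟩
  have hZa : Z1 ≤ Z := (le_max_left _ _).trans hZ
  have hZb : 30 * 8 ^ I ≤ Z := (le_max_right _ _).trans hZ
  have hZ1' : 1 ≤ Z := by
    have : 1 ≤ 30 * 8 ^ I := Nat.one_le_iff_ne_zero.mpr (by positivity)
    exact this.trans hZb
  have hZr : (1 : ℝ) ≤ Z := by exact_mod_cast hZ1'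
  have hM0r : (4 : ℝ) ≤ M0 := by exact_mod_cast hM0
  set c : ℕ := (M0 ^ 2 + 1) * rho0 κ with hc
  have hcI : 2 * (I * c) ≤ Z := by
    have : 2 * I * (M0 ^ 2 + 1) * rho0 κ = 2 * (I * c) := by rw [hc]; ring
    rw [← this]; exact hrho
  have key : ∀ i : ℕ, i ≤ I → ∃ θ lo : ℝ, (Z : ℝ) ^ 35 ≤ θ ∧ θ ≤ (3 * 8 ^ i - 2) * (Z : ℝ) ^ 38 ∧
      0 ≤ lo ∧ lo ≤ 30 * 8 ^ i * (Z : ℝ) ^ 39 ∧
      PI κ (Real.exp Z) ((Z : ℝ) ^ 35) (((M0 : ℝ) / 4) ^ i) θ (Z - i * c) lo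
        (Real.exp Z - i * (Z : ℝ) ^ 37) := by
    intro i
    induction i with
    | zero =>
      intro _
      refine ⟨(Z : ℝ) ^ 35, 0, le_refl _, ?_, le_refl _, by positivity, ?_⟩
      · have : (Z : ℝ) ^ 35 ≤ (Z : ℝ) ^ 38 := pow_le_pow_right₀ hZr (by norm_num)
        rw [pow_zero]
        linarith
      · rw [pow_zero]
        exact hB κ _ _ _ _ _
    | succ i ih =>
      intro hi
      obtain ⟨θ, lo, h1, h2, h3, h4, h5⟩ := ih (by omega)
      have hI1 : 1 ≤ I := by omega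
      have hle : (i + 1) * c ≤ I * c := Nat.mul_le_mul_right _ hi
      have hexp : (i + 1) * c = i * c + c := by ring
      have hrhoZ : rho0 κ ≤ Z := by
        have e1 : rho0 κ ≤ c := by
          rw [hc]
          exact Nat.le_mul_of_pos_left _ (by positivity)
        have e2 : c ≤ I * c := Nat.le_mul_of_pos_left _ hI1
        omega
      have hW : (1 : ℝ) ≤ ((M0 : ℝ) / 4) ^ i := one_le_pow₀ (by linarith)
      have hi37 : (0 : ℝ) ≤ i * (Z : ℝ) ^ 37 := by positivity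
      have hstep := hZ1 Z hZa κ M0 (Z - i * c) (Z - (i + 1) * c) (((M0 : ℝ) / 4) ^ i) θ lo
        (Real.exp Z - i * (Z : ℝ) ^ 37) h5 hW h1 h3 (by linarith) (by omega) hM0Z hκ hlog hrhoZ
        (by omega) (by rw [← hc]; omega)
      refine ⟨8 * θ + 14 * (Z : ℝ) ^ 38, lo + Z * HH Z θ, ?_, ?_, ?_, ?_, ?_⟩
      · have : (0 : ℝ) ≤ 14 * (Z : ℝ) ^ 38 := by positivity
        have h0 : (0 : ℝ) ≤ (Z : ℝ) ^ 35 := by positivity
        linarith
      · have e : (3 * 8 ^ (i + 1) - 2) * (Z : ℝ) ^ 38 =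
            8 * ((3 * 8 ^ i - 2) * (Z : ℝ) ^ 38) + 14 * (Z : ℝ) ^ 38 := by ring
        rw [e]
        linarith
      · have h0 : (0 : ℝ) ≤ θ := le_trans (by positivity) h1
        have : (0 : ℝ) ≤ HH Z θ := by unfold HH; positivity
        positivity
      · have hHH : HH Z θ ≤ (30 * 8 ^ i) * (Z : ℝ) ^ 38 := by
          unfold HH
          have h38 : (0 : ℝ) ≤ (Z : ℝ) ^ 38 := by positivity
          have e : (3 * 8 ^ i - 2) * (Z : ℝ) ^ 38 = 3 * 8 ^ i * (Z : ℝ) ^ 38 - 2 * (Z : ℝ) ^ 38 := by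
            ring
          rw [e] at h2
          linarith
        have hm : (Z : ℝ) * HH Z θ ≤ 30 * 8 ^ i * (Z : ℝ) ^ 39 := by
          calc (Z : ℝ) * HH Z θ ≤ Z * ((30 * 8 ^ i) * (Z : ℝ) ^ 38) :=
                mul_le_mul_of_nonneg_left hHH (by positivity)
            _ = 30 * 8 ^ i * (Z : ℝ) ^ 39 := by ring
        have h39 : (0 : ℝ) ≤ 8 ^ i * (Z : ℝ) ^ 39 := by positivity
        have e : 30 * 8 ^ (i + 1) * (Z : ℝ) ^ 39 = 240 * (8 ^ i * (Z : ℝ) ^ 39) := by ring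
        rw [e]
        have e2 : 30 * 8 ^ i * (Z : ℝ) ^ 39 = 30 * (8 ^ i * (Z : ℝ) ^ 39) := by ring
        rw [e2] at hm h4
        linarith
      · have e1 : (M0 : ℝ) * ((M0 : ℝ) / 4) ^ i / 4 = ((M0 : ℝ) / 4) ^ (i + 1) := by
          rw [pow_succ]; ring
        have e2 : Real.exp Z - i * (Z : ℝ) ^ 37 - (Z : ℝ) ^ 37 =
            Real.exp Z - ((i + 1 : ℕ) : ℝ) * (Z : ℝ) ^ 37 := by
          push_cast; ring
        rw [e1, e2] at hstep
        exact hstep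
  obtain ⟨θ, lo, _, _, _, h4, h5⟩ := key I le_rfl
  refine ⟨θ, ITP_.pi_mono ?_ ?_ h5⟩
  · omega
  · refine h4.trans ?_
    have hb : (30 * 8 ^ I : ℝ) ≤ Z := by exact_mod_cast hZb
    calc 30 * 8 ^ I * (Z : ℝ) ^ 39 ≤ Z * (Z : ℝ) ^ 39 :=
          mul_le_mul_of_nonneg_right hb (by positivity)
      _ = (Z : ℝ) ^ 40 := by ring

end Pool.Agent.EMS
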