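import Pool.Agent.EMS.StmtsC

set_option autoImplicit false

open Finset
open scoped BigOperators Classical

namespace Pool.Agent.EMS

namespace ITR_

lemma Ck_pos {κ : ℕ} (hκ : 2 ≤ κ) : 0 < Ck κ := by
  unfold Ck
  have h1 : (2 : ℝ) ≤ κ := by exact_mod_cast hκ
  have h2 : (1 : ℝ) ≤ 40 * (κ : ℝ) ^ 2 := by nlinarith
  have := Real.log_nonneg h2
  linarith

lemma rho_ge (κ : ℕ) : 12 * Ck κ ≤ rho0 κ := by
  unfold rho0 Ck
  exact Nat.le_ceil _

lemma vol_pos {r : ℕ} (N : Fin r → ℕ) (h : ∀ l, 1 ≤ N l) : 0 < vol N := by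
  unfold vol
  refine Finset.prod_pos fun l _ => ?_
  have : (1 : ℝ) ≤ N l := by exact_mod_cast h l
  linarith

lemma TG_v_pos {r B n : ℕ} (hB : 2 ≤ B) (P : TG r B n) : 0 < P.v := by
  unfold TG.v
  refine mul_pos (vol_pos _ P.pos) (vol_pos _ fun l => ?_)
  exact Nat.one_le_pow _ _ (by omega)

lemma room {Pv q y X Φ0 : ℝ} (hP : 0 < Pv) (hq : 0 < q) (hΦ : 0 < Φ0)
    (h1 : Real.exp (-y) * Pv ≤ X) (h2 : X ≤ Φ0 * Real.sqrt (q * Pv)) :
    -y + (1 / 2) * Real.log (Pv / q) ≤ Real.log Φ0 := by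
  have h3 : Real.exp (-y) * Pv ≤ Φ0 * Real.sqrt (q * Pv) := h1.trans h2
  have hs : 0 < Real.sqrt (q * Pv) := Real.sqrt_pos.2 (mul_pos hq hP)
  have h4 := Real.log_le_log (mul_pos (Real.exp_pos _) hP) h3
  rw [Real.log_mul (Real.exp_pos _).ne' hP.ne', Real.log_exp,
    Real.log_mul hΦ.ne' hs.ne', Real.log_sqrt (mul_pos hq hP).le,
    Real.log_mul hq.ne' hP.ne'] at h4
  rw [Real.log_div hP.ne' hq.ne']
  linarith

lemma potB {Pv Pv' q q' Y4 : ℝ} (hP : 0 < Pv) (hP' : 0 < Pv') (hq : 0 < q) (hq' : 0 < q')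
    (h1 : Real.exp (-Y4) * Pv ≤ Pv') (h2 : q' ≤ Real.exp Y4 * q) :
    Real.log (Pv / q) - 2 * Y4 ≤ Real.log (Pv' / q') := by
  have h3 := Real.log_le_log (mul_pos (Real.exp_pos _) hP) h1
  have h4 := Real.log_le_log hq' h2
  rw [Real.log_mul (Real.exp_pos _).ne' hP.ne', Real.log_exp] at h3
  rw [Real.log_mul (Real.exp_pos _).ne' hq.ne', Real.log_exp] at h4
  rw [Real.log_div hP.ne' hq.ne', Real.log_div hP'.ne' hq'.ne']
  linarith

lemma potA {Pv Pv' q q' Y4 : ℝ} {m : ℕ} (hP : 0 < Pv) (hP' : 0 < Pv') (hq : 0 < q)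
    (hq' : 0 < q') (h1 : (2 : ℝ) ^ m * Real.exp (-Y4) * Pv * q' ≤ Pv' * q) :
    Real.log (Pv / q) + m * Real.log 2 - Y4 ≤ Real.log (Pv' / q') := by
  have h2 : 0 < (2 : ℝ) ^ m := by positivity
  have h3 := Real.log_le_log
    (mul_pos (mul_pos (mul_pos h2 (Real.exp_pos (-Y4))) hP) hq') h1
  rw [Real.log_mul (mul_pos (mul_pos h2 (Real.exp_pos (-Y4))) hP).ne' hq'.ne',
    Real.log_mul (mul_pos h2 (Real.exp_pos (-Y4))).ne' hP.ne',
    Real.log_mul h2.ne' (Real.exp_pos (-Y4)).ne', Real.log_exp, Real.log_pow,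
    Real.log_mul hP'.ne' hq.ne'] at h3
  rw [Real.log_div hP.ne' hq.ne', Real.log_div hP'.ne' hq'.ne']
  linarith

/-- gain in a round without rank drop -/
lemma gainA {C Y4 ρ Δ : ℝ} (hΔ : 0 ≤ Δ) (hρ : 12 * C ≤ ρ)
    (hY : 2 * Y4 ≤ Δ * C) (hC : 0 < C) :
    Δ * C ≤ -(Δ * C) - Y4 + (1 / 2) * (Δ * ρ * Real.log 2 - Y4) := by
  have h2 : (0.69 : ℝ) < Real.log 2 := lt_trans (by norm_num) Real.log_two_gt_d9
  have h3 : Δ * (12 * C) ≤ Δ * ρ := mul_le_mul_of_nonneg_left hρ hΔ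
  have h4 : 0 ≤ Δ * C := mul_nonneg hΔ hC.le
  have h5 : Δ * (12 * C) * 0.69 ≤ Δ * ρ * Real.log 2 := by
    have h6 : 0 ≤ Δ * (12 * C) := by
      have e : Δ * (12 * C) = 12 * (Δ * C) := by ring
      rw [e]
      linarith
    calc Δ * (12 * C) * 0.69 ≤ Δ * (12 * C) * Real.log 2 :=
          mul_le_mul_of_nonneg_left h2.le h6
      _ ≤ Δ * ρ * Real.log 2 := mul_le_mul_of_nonneg_right h3 (by linarith)
  have e : Δ * (12 * C) * 0.69 = 8.28 * (Δ * C) := by ring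
  rw [e] at h5
  linarith

/-- invariant after `j` rounds -/
def Inv (r B n κ Δ Dm t0 : ℕ) (U : ℕ → Finset (Fin r → ℤ))
    (W : Finset (Fin r → ℤ)) (Q0 : TG r B n) (q0 Y1 Y3 Y4 Φ0 : ℝ) (j : ℕ) : Prop :=
  ∃ (t : ℕ) (P : TG r B n) (c : Fin r → ℤ) (q y : ℝ), t0 ≤ t ∧ (j = 0 ∨ t0 < t) ∧
    P.a + P.b ≤ Dm ∧ 0 < q ∧ 0 ≤ y ∧ y ≤ Y1 + j * (Δ * Ck κ + Y4) ∧
    Real.exp (-y) * P.v ≤ ((U t ∩ P.set c).card : ℝ) ∧
    Real.exp (-(j * Y4)) * Q0.v ≤ P.v ∧ q ≤ Real.exp (j * Y4) * q0 ∧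
    (∀ x : Fin r → ℤ, (((P.set c).filter fun y => y - x ∈ W).card : ℝ) ≤ q * P.v) ∧
    Real.log Φ0 - Y3 + ((j : ℝ) - 3 * ((Dm : ℝ) - (P.a + P.b : ℕ))) * (Δ * Ck κ) ≤
      -y + (1 / 2) * Real.log (P.v / q)

lemma rn {r b : ℕ} (φ : (Fin b → ℤ) →ₗ[ℤ] (Fin r → ℤ)) :
    Module.finrank ℤ (LinearMap.range φ) + Module.finrank ℤ (LinearMap.ker φ) = b := by
  have h := Submodule.finrank_quotient_add_finrank (LinearMap.ker φ)
  rw [LinearEquiv.finrank_eq φ.quotKerEquivRange, Module.finrank_fin_fun] at h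
  exact h

lemma rank_le {r b : ℕ} (φ : (Fin b → ℤ) →ₗ[ℤ] (Fin r → ℤ)) :
    b ≤ r + Module.finrank ℤ (LinearMap.ker φ) := by
  have h1 := rn φ
  have h2 : Module.finrank ℤ (LinearMap.range φ) ≤ Module.finrank ℤ (Fin r → ℤ) :=
    Submodule.finrank_le _
  rw [Module.finrank_fin_fun] at h2
  omega

lemma ker_le {r b : ℕ} (φ : (Fin b → ℤ) →ₗ[ℤ] (Fin r → ℤ)) :
    Module.finrank ℤ (LinearMap.ker φ) ≤ b := by
  have h1 := rn φ
  omega

end ITR_

open ITR_ in
theorem itr_proof (h1 : Stmt_RND) (h2 : Stmt_SLI) : Stmt_ITR := by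
  intro r B n κ Δ Dm t0 N U W Q0 c0 q0 Y1 Y3 Y4 Φ0 hB hB2 hn hκ hΔ hCh hY1 hY3 hΦ hQ0 hDm hq0
    hY4 hY3C hY4C hn8 hvol hden hW hpot hroom
  have hC := Ck_pos hκ
  have hΔ1 : (1 : ℝ) ≤ Δ := by exact_mod_cast hΔ
  have hΔC : 0 < (Δ : ℝ) * Ck κ := mul_pos (by linarith) hC
  have hB1 : (1 : ℝ) ≤ B := by
    have : (2 : ℝ) ≤ B := by exact_mod_cast hB2
    linarith
  have hlB : 0 ≤ Real.log B := Real.log_nonneg hB1
  have hY40 : 0 ≤ Y4 := by
    have e1 : 0 ≤ 60 * (Dm : ℝ) ^ 3 := by positivity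
    have e2 : 0 ≤ 4 * (Dm : ℝ) * Real.log B := by positivity
    linarith
  -- the first invariant
  have inv0 : Inv r B n κ Δ Dm t0 U W Q0 q0 Y1 Y3 Y4 Φ0 0 := by
    refine ⟨t0, Q0, c0, q0, Y1, le_rfl, Or.inl rfl, hQ0, hq0, hY1, ?_, hden, ?_, ?_, hW, ?_⟩
    · simp
    · simp
    · simp
    · refine le_trans ?_ hpot
      have e1 : ((Q0.a + Q0.b : ℕ) : ℝ) ≤ Dm := by exact_mod_cast hQ0
      have e2 : (((0 : ℕ) : ℝ) - 3 * ((Dm : ℝ) - ((Q0.a + Q0.b : ℕ) : ℝ))) * (Δ * Ck κ) ≤ 0 := by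
        refine mul_nonpos_of_nonpos_of_nonneg ?_ hΔC.le
        push_cast at e1 ⊢
        linarith
      linarith
  -- bound for the number of rounds
  have hbound : ∀ j : ℕ, Inv r B n κ Δ Dm t0 U W Q0 q0 Y1 Y3 Y4 Φ0 j → j ≤ 3 * Dm := by
    rintro j ⟨t, P, c, q, y, ht, hj, hab, hq, hy, hyle, hden', hv', hq', hW', hpot'⟩
    rcases hj with rfl | hj
    · omega
    have hPv := TG_v_pos hB2 P
    -- room
    have hne : (P.set c).Nonempty := by
      by_contra hcon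
      rw [Finset.not_nonempty_iff_eq_empty] at hcon
      rw [hcon, Finset.inter_empty, Finset.card_empty] at hden'
      have := mul_pos (Real.exp_pos (-y)) hPv
      push_cast at hden'
      linarith
    have hcard : (0 : ℝ) < (P.set c).card := by
      exact_mod_cast hne.card_pos
    have hr := hroom t hj (P.set c) hne (q * P.v / (P.set c).card)
      (div_pos (mul_pos hq hPv) hcard) (fun x => by
        rw [div_mul_cancel₀ _ hcard.ne']
        exact hW' x)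
    rw [div_mul_cancel₀ _ hcard.ne'] at hr
    have h3 := room hPv hq hΦ hden' hr
    have h4 : ((j : ℝ) - 3 * ((Dm : ℝ) - ((P.a + P.b : ℕ) : ℝ))) * (Δ * Ck κ) ≤
        (1 / 2) * (Δ * Ck κ) := by linarith
    have h5 := le_of_mul_le_mul_right h4 hΔC
    have h6 : (0 : ℝ) ≤ ((P.a + P.b : ℕ) : ℝ) := Nat.cast_nonneg _
    have h7 : (j : ℝ) < ((3 * Dm + 1 : ℕ) : ℝ) := by
      push_cast at h5 h6 ⊢
      linarith
    have h8 : j < 3 * Dm + 1 := by exact_mod_cast h7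
    omega
  -- the goal or the next round
  have hstep : ∀ j : ℕ, Inv r B n κ Δ Dm t0 U W Q0 q0 Y1 Y3 Y4 Φ0 j →
      (∃ (t : ℕ) (Q : SG r) (c : Fin r → ℤ), t0 ≤ t ∧ Q.kr ≤ rho0 κ ∧ Q.d ≤ r + rho0 κ ∧
      Real.exp (-(Y1 + (3 * Dm + 1) * (Δ * Ck κ + Y4))) * Q.v ≤ ((U t ∩ Q.bx c).card : ℝ) ∧
      Real.exp (-((3 * Dm + 1) * Y4 + (n + 1) * Dm * Real.log B)) * Q0.v ≤ Q.v ∧
      ∀ x : Fin r → ℤ, (((Q.bx c).filter fun y => y - x ∈ W).card : ℝ) ≤
        Real.exp ((3 * Dm + 1) * Y4 + (n + 1) * Dm * Real.log B) * q0 * Q.v) ∨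
      Inv r B n κ Δ Dm t0 U W Q0 q0 Y1 Y3 Y4 Φ0 (j + 1) := by
    intro j hInv
    have hj3 := hbound j hInv
    obtain ⟨t, P, c, q, y, ht, hj, hab, hq, hy, hyle, hden', hv', hq', hW', hpot'⟩ := hInv
    have hPv := TG_v_pos hB2 P
    have hjr : (j : ℝ) ≤ 3 * Dm + 1 := by
      have : (j : ℝ) ≤ ((3 * Dm : ℕ) : ℝ) := by exact_mod_cast hj3
      push_cast at this
      linarith
    have hjY : (j : ℝ) * Y4 ≤ (3 * Dm + 1) * Y4 := mul_le_mul_of_nonneg_right hjr hY40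
    have hyle2 : y ≤ Y1 + (3 * Dm + 1) * (Δ * Ck κ + Y4) := by
      refine hyle.trans ?_
      have := mul_le_mul_of_nonneg_right hjr (add_nonneg hΔC.le hY40)
      linarith
    by_cases hk : Module.finrank ℤ (LinearMap.ker P.φ2) ≤ rho0 κ
    · left
      obtain ⟨S, c', hSd, hSk, hSden, hSv, hSsub⟩ := h2 r B n P c (U t) hB2
      have hSvpos : 0 < S.v := by
        unfold SG.v
        refine Finset.prod_pos fun l _ => ?_
        have : (1 : ℝ) ≤ S.M l := by exact_mod_cast S.pos l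
        linarith
      have hPaD : (B : ℝ) ^ ((n + 1) * P.a) ≤ Real.exp ((n + 1) * Dm * Real.log B) := by
        have e1 : (B : ℝ) ^ ((n + 1) * P.a) ≤ (B : ℝ) ^ ((n + 1) * Dm) := by
          refine pow_le_pow_right₀ hB1 (Nat.mul_le_mul_left _ ?_)
          omega
        refine e1.trans ?_
        have hB0 : (0 : ℝ) < B := by linarith
        have e2 : (B : ℝ) ^ ((n + 1) * Dm) = Real.exp ((n + 1) * Dm * Real.log B) := by
          have e3 : ((n : ℝ) + 1) * Dm * Real.log B = (((n + 1) * Dm : ℕ) : ℝ) * Real.log B := by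
            push_cast
            ring
          rw [e3, ← Real.log_pow, Real.exp_log (pow_pos hB0 _)]
        exact e2.le
      have hPS : P.v ≤ Real.exp ((n + 1) * Dm * Real.log B) * S.v :=
        hSv.trans (mul_le_mul_of_nonneg_right hPaD hSvpos.le)
      refine ⟨t, S, c', ht, ?_, ?_, ?_, ?_, ?_⟩
      · rw [hSk]
        exact hk
      · rw [hSd]
        exact (rank_le P.φ2).trans (Nat.add_le_add_left hk r)
      · have e1 : Real.exp (-(Y1 + (3 * Dm + 1) * (Δ * Ck κ + Y4))) ≤ Real.exp (-y) :=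
          Real.exp_le_exp.2 (neg_le_neg hyle2)
        have e2 : (Real.exp (-(Y1 + (3 * Dm + 1) * (Δ * Ck κ + Y4))) * S.v) * P.v ≤
            ((U t ∩ S.bx c').card : ℝ) * P.v := by
          refine le_trans ?_ hSden
          calc (Real.exp (-(Y1 + (3 * Dm + 1) * (Δ * Ck κ + Y4))) * S.v) * P.v
              ≤ (Real.exp (-y) * S.v) * P.v :=
                mul_le_mul_of_nonneg_right (mul_le_mul_of_nonneg_right e1 hSvpos.le) hPv.le
            _ = (Real.exp (-y) * P.v) * S.v := by ring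
            _ ≤ ((U t ∩ P.set c).card : ℝ) * S.v :=
                mul_le_mul_of_nonneg_right hden' hSvpos.le
        exact le_of_mul_le_mul_right e2 hPv
      · have e1 : Real.exp (-((3 * Dm + 1) * Y4)) ≤ Real.exp (-(j * Y4)) :=
          Real.exp_le_exp.2 (neg_le_neg hjY)
        have hQv := TG_v_pos hB2 Q0
        have e2 : Real.exp (-((3 * Dm + 1) * Y4)) * Q0.v ≤
            Real.exp ((n + 1) * Dm * Real.log B) * S.v :=
          ((mul_le_mul_of_nonneg_right e1 hQv.le).trans hv').trans hPS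
        have e3 : -((3 * (Dm : ℝ) + 1) * Y4 + (n + 1) * Dm * Real.log B) =
            -((n + 1) * Dm * Real.log B) + -((3 * Dm + 1) * Y4) := by ring
        rw [e3, Real.exp_add, mul_assoc]
        calc Real.exp (-((n + 1) * Dm * Real.log B)) * (Real.exp (-((3 * Dm + 1) * Y4)) * Q0.v)
            ≤ Real.exp (-((n + 1) * Dm * Real.log B)) *
              (Real.exp ((n + 1) * Dm * Real.log B) * S.v) :=
              mul_le_mul_of_nonneg_left e2 (Real.exp_pos _).le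
          _ = S.v := by
              rw [← mul_assoc, ← Real.exp_add, neg_add_cancel, Real.exp_zero, one_mul]
      · intro x
        have e1 : (((S.bx c').filter fun y => y - x ∈ W).card : ℝ) ≤
            (((P.set c).filter fun y => y - x ∈ W).card : ℝ) := by
          exact_mod_cast Finset.card_le_card (Finset.filter_subset_filter _ hSsub)
        refine e1.trans ((hW' x).trans ?_)
        have e2 : q ≤ Real.exp ((3 * Dm + 1) * Y4) * q0 :=
          hq'.trans (mul_le_mul_of_nonneg_right (Real.exp_le_exp.2 hjY) hq0.le)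
        calc q * P.v ≤ (Real.exp ((3 * Dm + 1) * Y4) * q0) *
              (Real.exp ((n + 1) * Dm * Real.log B) * S.v) :=
              mul_le_mul e2 hPS hPv.le (mul_nonneg (Real.exp_pos _).le hq0.le)
          _ = Real.exp ((3 * Dm + 1) * Y4 + (n + 1) * Dm * Real.log B) * q0 * S.v := by
              rw [Real.exp_add]
              ring
    · right
      have hb1 : 1 ≤ P.a + P.b := by
        have := ker_le P.φ2
        omega
      have hPab : ((P.a + P.b : ℕ) : ℝ) ≤ Dm := by exact_mod_cast hab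
      have hPab0 : (0 : ℝ) ≤ ((P.a + P.b : ℕ) : ℝ) := Nat.cast_nonneg _
      have hBb : 10 ^ 4 * P.b ^ 3 ≤ B := by
        refine le_trans (Nat.mul_le_mul_left _ (Nat.pow_le_pow_left ?_ 3)) hB
        omega
      have hn8' : 2 * y + 2 + Δ * Ck κ ≤ n / 8 := by linarith
      have hvol' : 100 * (κ : ℝ) ^ 2 * (B : ℝ) ^ (2 * (n + 1) * (P.a + P.b)) * Real.exp n ≤
          P.v := by
        refine le_trans ?_ hv'
        have e1 : (B : ℝ) ^ (2 * (n + 1) * (P.a + P.b)) ≤ (B : ℝ) ^ (2 * (n + 1) * Dm) :=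
          pow_le_pow_right₀ hB1 (Nat.mul_le_mul_left _ hab)
        have e2 : 100 * (κ : ℝ) ^ 2 * (B : ℝ) ^ (2 * (n + 1) * (P.a + P.b)) * Real.exp n ≤
            100 * (κ : ℝ) ^ 2 * (B : ℝ) ^ (2 * (n + 1) * Dm) * Real.exp n :=
          mul_le_mul_of_nonneg_right (mul_le_mul_of_nonneg_left e1 (by positivity))
            (Real.exp_pos _).le
        have e3 : Real.exp (-((3 * Dm + 1) * Y4)) ≤ Real.exp (-(j * Y4)) :=
          Real.exp_le_exp.2 (neg_le_neg hjY)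
        have hQv := TG_v_pos hB2 Q0
        calc 100 * (κ : ℝ) ^ 2 * (B : ℝ) ^ (2 * (n + 1) * (P.a + P.b)) * Real.exp n
            ≤ 100 * (κ : ℝ) ^ 2 * (B : ℝ) ^ (2 * (n + 1) * Dm) * Real.exp n := e2
          _ = Real.exp (-((3 * Dm + 1) * Y4)) * (100 * (κ : ℝ) ^ 2 *
                (B : ℝ) ^ (2 * (n + 1) * Dm) * Real.exp n * Real.exp ((3 * Dm + 1) * Y4)) := by
              have e4 : Real.exp (-((3 * (Dm : ℝ) + 1) * Y4)) * Real.exp ((3 * Dm + 1) * Y4) = 1 := by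
                rw [← Real.exp_add, neg_add_cancel, Real.exp_zero]
              have e5 : Real.exp (-((3 * (Dm : ℝ) + 1) * Y4)) * (100 * (κ : ℝ) ^ 2 *
                (B : ℝ) ^ (2 * (n + 1) * Dm) * Real.exp n * Real.exp ((3 * Dm + 1) * Y4)) =
                (100 * (κ : ℝ) ^ 2 * (B : ℝ) ^ (2 * (n + 1) * Dm) * Real.exp n) *
                (Real.exp (-((3 * (Dm : ℝ) + 1) * Y4)) * Real.exp ((3 * Dm + 1) * Y4)) := by ring
              rw [e5, e4, mul_one]
          _ ≤ Real.exp (-((3 * Dm + 1) * Y4)) * Q0.v :=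
              mul_le_mul_of_nonneg_left hvol (Real.exp_pos _).le
          _ ≤ Real.exp (-(j * Y4)) * Q0.v := mul_le_mul_of_nonneg_right e3 hQv.le
      have hY4' : 60 * ((P.a + P.b : ℕ) : ℝ) ^ 3 + 4 * ((P.a + P.b : ℕ) : ℝ) * Real.log B + 2 ≤
          Y4 := by
        refine le_trans ?_ hY4
        have e1 : ((P.a + P.b : ℕ) : ℝ) ^ 3 ≤ (Dm : ℝ) ^ 3 := pow_le_pow_left₀ hPab0 hPab 3
        have e2 : ((P.a + P.b : ℕ) : ℝ) * Real.log B ≤ (Dm : ℝ) * Real.log B :=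
          mul_le_mul_of_nonneg_right hPab hlB
        have e3 : 4 * ((P.a + P.b : ℕ) : ℝ) * Real.log B =
            4 * (((P.a + P.b : ℕ) : ℝ) * Real.log B) := by ring
        have e4 : 4 * (Dm : ℝ) * Real.log B = 4 * ((Dm : ℝ) * Real.log B) := by ring
        rw [e3, e4]
        linarith
      obtain ⟨P', c', q', hab', hq'0, hden2, hv2, hq2, hW2, halt⟩ :=
        h1 r B n κ Δ t P c N U y Y4 W q hb1 hBb hB2 hn hκ hCh hy hn8' hvol' hden' hY4' hq hW'
      have hPv' := TG_v_pos hB2 P'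
      refine ⟨t + Δ, P', c', q', y + (Δ * Ck κ + Y4), by omega, Or.inr (by omega),
        hab'.trans hab, hq'0, by linarith, ?_, ?_, ?_, ?_, hW2, ?_⟩
      · push_cast
        have e1 : ((j : ℝ) + 1) * (Δ * Ck κ + Y4) =
            j * (Δ * Ck κ + Y4) + (Δ * Ck κ + Y4) := by ring
        rw [e1]
        linarith
      · have e1 : -(y + (Δ * Ck κ + Y4)) = -y - Δ * Ck κ - Y4 := by ring
        rw [e1]
        exact hden2
      · have e1 : -(((j + 1 : ℕ) : ℝ) * Y4) = -Y4 + -(j * Y4) := by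
          push_cast
          ring
        rw [e1, Real.exp_add, mul_assoc]
        exact (mul_le_mul_of_nonneg_left hv' (Real.exp_pos _).le).trans hv2
      · have e1 : (((j + 1 : ℕ) : ℝ) * Y4) = Y4 + j * Y4 := by
          push_cast
          ring
        rw [e1, Real.exp_add, mul_assoc]
        exact hq2.trans (mul_le_mul_of_nonneg_left hq' (Real.exp_pos _).le)
      · rcases halt with hlt | hgain
        · have e1 := potB hPv hPv' hq hq'0 hv2 hq2
          have e2 : (((P'.a + P'.b : ℕ) : ℝ)) + 1 ≤ ((P.a + P.b : ℕ) : ℝ) := by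
            exact_mod_cast hlt
          have e3 : (((j + 1 : ℕ) : ℝ) - 3 * ((Dm : ℝ) - ((P'.a + P'.b : ℕ) : ℝ))) *
              (Δ * Ck κ) ≤ ((j : ℝ) - 3 * ((Dm : ℝ) - ((P.a + P.b : ℕ) : ℝ)) - 2) *
              (Δ * Ck κ) := by
            refine mul_le_mul_of_nonneg_right ?_ hΔC.le
            push_cast at e2 ⊢
            linarith
          have e4 : ((j : ℝ) - 3 * ((Dm : ℝ) - ((P.a + P.b : ℕ) : ℝ)) - 2) * (Δ * Ck κ) =
              ((j : ℝ) - 3 * ((Dm : ℝ) - ((P.a + P.b : ℕ) : ℝ))) * (Δ * Ck κ) -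
              2 * (Δ * Ck κ) := by ring
          rw [e4] at e3
          linarith
        · have e1 := potA hPv hPv' hq hq'0 hgain
          have e2 : 12 * Ck κ ≤ (Module.finrank ℤ (LinearMap.ker P.φ2) : ℝ) := by
            refine (rho_ge κ).trans ?_
            exact_mod_cast (not_le.1 hk).le
          have e3 := gainA (Δ := (Δ : ℝ)) (by linarith) e2 hY4C hC
          have e5 : (((P'.a + P'.b : ℕ) : ℝ)) ≤ ((P.a + P.b : ℕ) : ℝ) := by
            exact_mod_cast hab'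
          have e6 : (((j + 1 : ℕ) : ℝ) - 3 * ((Dm : ℝ) - ((P'.a + P'.b : ℕ) : ℝ))) *
              (Δ * Ck κ) ≤ ((j : ℝ) - 3 * ((Dm : ℝ) - ((P.a + P.b : ℕ) : ℝ)) + 1) *
              (Δ * Ck κ) := by
            refine mul_le_mul_of_nonneg_right ?_ hΔC.le
            push_cast at e5 ⊢
            linarith
          have e4 : ((j : ℝ) - 3 * ((Dm : ℝ) - ((P.a + P.b : ℕ) : ℝ)) + 1) * (Δ * Ck κ) =
              ((j : ℝ) - 3 * ((Dm : ℝ) - ((P.a + P.b : ℕ) : ℝ))) * (Δ * Ck κ) +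
              (Δ * Ck κ) := by ring
          rw [e4] at e6
          push_cast at e1
          linarith
  -- conclusion
  by_contra hgoal
  have hall : ∀ j : ℕ, Inv r B n κ Δ Dm t0 U W Q0 q0 Y1 Y3 Y4 Φ0 j := by
    intro j
    induction j with
    | zero => exact inv0
    | succ j ih =>
      rcases hstep j ih with h | h
      · exact absurd h hgoal
      · exact h
  have := hbound (3 * Dm + 1) (hall _)
  omega

end Pool.Agent.EMS
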