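import Pool.Agent.EMS.StmtsC

/-!
# EMS, module LCL: classes of `Γ_i` modulo `Γ_(i+1)`
-/

set_option autoImplicit false

open Finset
open scoped BigOperators Classical

namespace Pool.Agent.EMS

namespace LCL_

variable {D r : ℕ} (φ : (Fin D → ℤ) →ₗ[ℤ] (Fin r → ℤ))

theorem mem_box' {D : ℕ} {N : ℕ} {x : Fin D → ℤ} :
    x ∈ box (fun _ : Fin D => N) ↔ ∀ l, 0 ≤ x l ∧ x l < N := by
  unfold box
  rw [Fintype.mem_piFinset]
  exact forall_congr' fun l => Finset.mem_Ico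

/-- reduction modulo `m` -/
def red {D : ℕ} (m : ℤ) (x : Fin D → ℤ) : Fin D → ℤ := fun l => x l % m

theorem red_eq {D : ℕ} (m : ℤ) (x : Fin D → ℤ) : x = red m x + m • (fun l => x l / m) := by
  funext l
  show x l = x l % m + m * (x l / m)
  exact (Int.emod_add_mul_ediv (x l) m).symm

theorem gam_red (i : ℕ) {x : Fin D → ℤ} (h : Gam φ i x) : Gam φ i (red (2 ^ i : ℤ) x) := by
  obtain ⟨y, hy⟩ := h
  refine ⟨y - φ (fun l => x l / 2 ^ i), ?_⟩
  have h1 : φ x = φ (red (2 ^ i : ℤ) x) + (2 ^ i : ℤ) • φ (fun l => x l / 2 ^ i) := by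
    rw [← map_smul, ← map_add, ← red_eq]
  rw [smul_sub, ← hy, h1, add_sub_cancel_right]

theorem red_box (i : ℕ) (x : Fin D → ℤ) :
    red (2 ^ i : ℤ) x ∈ box (fun _ : Fin D => 2 ^ i) := by
  rw [mem_box']
  intro l
  refine ⟨Int.emod_nonneg _ (by positivity), ?_⟩
  push_cast
  exact Int.emod_lt_of_pos _ (by positivity)

/-- `Γ_i` as a subgroup -/
def GG (i : ℕ) : AddSubgroup (Fin D → ℤ) where
  carrier := {x | Gam φ i x}
  add_mem' := by
    rintro a b ⟨y, hy⟩ ⟨z, hz⟩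
    exact ⟨y + z, by rw [map_add, hy, hz, smul_add]⟩
  zero_mem' := ⟨0, by rw [map_zero, smul_zero]⟩
  neg_mem' := by
    rintro a ⟨y, hy⟩
    exact ⟨-y, by rw [map_neg, hy, smul_neg]⟩

theorem mem_GG (i : ℕ) (x : Fin D → ℤ) : x ∈ GG φ i ↔ Gam φ i x := Iff.rfl

/-- reduction as a homomorphism -/
def ψ (D i : ℕ) : (Fin D → ℤ) →+ (Fin D → ZMod (2 ^ i)) where
  toFun := fun x l => (x l : ZMod (2 ^ i))
  map_zero' := by funext l; exact Int.cast_zero
  map_add' := fun x y => by funext l; exact Int.cast_add _ _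

theorem ψ_surj (D i : ℕ) : Function.Surjective (ψ D i) := by
  intro y
  refine ⟨fun l => ((y l).val : ℤ), ?_⟩
  funext l
  have : NeZero (2 ^ i) := ⟨by positivity⟩
  show (((y l).val : ℤ) : ZMod (2 ^ i)) = y l
  rw [Int.cast_natCast, ZMod.natCast_val, ZMod.cast_id', id]

theorem ψ_eq {D i : ℕ} {x y : Fin D → ℤ} :
    ψ D i x = ψ D i y ↔ ∀ l, (2 ^ i : ℤ) ∣ x l - y l := by
  rw [funext_iff]
  apply forall_congr'
  intro l
  show ((x l : ℤ) : ZMod (2 ^ i)) = ((y l : ℤ) : ZMod (2 ^ i)) ↔ _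
  rw [eq_comm, ZMod.intCast_eq_intCast_iff_dvd_sub]
  push_cast
  exact Iff.rfl

theorem gam_iff (i : ℕ) {x y : Fin D → ℤ} (h : ψ D i x = ψ D i y) : Gam φ i x ↔ Gam φ i y := by
  have key : ∀ x y : Fin D → ℤ, ψ D i x = ψ D i y → Gam φ i y → Gam φ i x := by
    intro x y h hy
    rw [ψ_eq] at h
    choose z hz using h
    obtain ⟨w, hw⟩ := hy
    refine ⟨w + φ z, ?_⟩
    have : x = y + (2 ^ i : ℤ) • z := by
      funext l
      show x l = y l + 2 ^ i * z l
      rw [← hz l]; ring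
    rw [this, map_add, map_smul, hw, smul_add]
  exact ⟨key y x h.symm, key x y h⟩

theorem iota_eq (i : ℕ) : iota φ i = Nat.card ((GG φ i).map (ψ D i)) := by
  unfold iota
  rw [← Nat.card_eq_finsetCard]
  apply Nat.card_congr
  refine Equiv.ofBijective
    (fun x => ⟨ψ D i x.1, ⟨x.1, (Finset.mem_filter.1 x.2).2, rfl⟩⟩) ⟨?_, ?_⟩
  · rintro ⟨x, hx⟩ ⟨y, hy⟩ h
    have h1 : ψ D i x = ψ D i y := congrArg Subtype.val h
    rw [ψ_eq] at h1
    have hx' := (mem_box'.1 (Finset.mem_filter.1 hx).1)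
    have hy' := (mem_box'.1 (Finset.mem_filter.1 hy).1)
    apply Subtype.ext
    show x = y
    funext l
    have a1 := hx' l
    have a2 := hy' l
    push_cast at a1 a2
    have h8 : x l - y l = 0 := by
      apply Int.eq_zero_of_abs_lt_dvd (h1 l)
      rw [abs_lt]
      constructor <;> linarith [a1.1, a1.2, a2.1, a2.2]
    exact sub_eq_zero.1 h8
  · rintro ⟨_, ⟨x, hx, rfl⟩⟩
    have h1 : ψ D i (red (2 ^ i : ℤ) x) = ψ D i x := by
      rw [ψ_eq]
      intro l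
      refine ⟨-(x l / 2 ^ i), ?_⟩
      have := congrFun (red_eq (2 ^ i : ℤ) x) l
      have h2 : x l = red (2 ^ i : ℤ) x l + 2 ^ i * (x l / 2 ^ i) := this
      linarith
    refine ⟨⟨red (2 ^ i : ℤ) x, Finset.mem_filter.2 ⟨red_box i x, gam_red φ i hx⟩⟩, ?_⟩
    exact Subtype.ext h1

theorem index_eq (i : ℕ) : iota φ i * (GG φ i).index = 2 ^ (i * D) := by
  have hk : (ψ D i).ker ≤ GG φ i := by
    intro x hx
    have h1 : ψ D i x = ψ D i 0 := by rw [map_zero]; exact hx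
    rw [mem_GG, gam_iff φ i h1]
    exact (GG φ i).zero_mem
  have h1 : (GG φ i).index = ((GG φ i).map (ψ D i)).index := by
    rw [AddSubgroup.index_map_eq _ (ψ_surj D i) hk]
  rw [h1, iota_eq, AddSubgroup.card_mul_index, Nat.card_fun, Nat.card_zmod, Nat.card_fin, pow_mul]

theorem GG_le (i : ℕ) : GG φ (i + 1) ≤ GG φ i := by
  rintro x ⟨y, hy⟩
  refine ⟨(2 : ℤ) • y, ?_⟩
  rw [hy, smul_smul, pow_succ]

theorem main (i : ℕ) :
    ∃ (C : Finset ℤ) (cls : (Fin D → ℤ) → ℤ), C.card * iota φ (i + 1) = 2 ^ D * iota φ i ∧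
      (∀ x, Gam φ i x → cls x ∈ C) ∧
      ∀ x y, Gam φ i x → Gam φ i y → cls x = cls y → Gam φ (i + 1) (x - y) := by
  have h1 := index_eq φ i
  have h2 := index_eq φ (i + 1)
  have h3 := AddSubgroup.relIndex_mul_index (GG_le φ i)
  have hpos : 0 < (GG φ i).index := by
    rcases Nat.eq_zero_or_pos (GG φ i).index with h | h
    · rw [h, mul_zero] at h1
      exact absurd h1.symm (by positivity)
    · exact h
  have hpos' : 0 < (GG φ (i + 1)).index := by
    rcases Nat.eq_zero_or_pos (GG φ (i + 1)).index with h | h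
    · rw [h, mul_zero] at h2
      exact absurd h2.symm (by positivity)
    · exact h
  have hn : (GG φ (i + 1)).relIndex (GG φ i) ≠ 0 := by
    intro h
    rw [h, zero_mul] at h3
    omega
  obtain ⟨n, hn'⟩ : ∃ n, n = (GG φ (i + 1)).relIndex (GG φ i) := ⟨_, rfl⟩
  have hfin : Finite (GG φ i ⧸ (GG φ (i + 1)).addSubgroupOf (GG φ i)) :=
    Nat.finite_of_card_ne_zero hn
  have e : (GG φ i ⧸ (GG φ (i + 1)).addSubgroupOf (GG φ i)) ≃ Fin n := by
    rw [hn']
    exact Finite.equivFin _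
  refine ⟨(Finset.range n).image (fun k : ℕ => (k : ℤ)),
    fun x => if h : x ∈ GG φ i then
      ((e (QuotientAddGroup.mk (⟨x, h⟩ : GG φ i)) : ℕ) : ℤ) else 0, ?_, ?_, ?_⟩
  · rw [Finset.card_image_of_injective _ Nat.cast_injective, Finset.card_range, hn']
    apply Nat.eq_of_mul_eq_mul_right hpos
    calc (GG φ (i + 1)).relIndex (GG φ i) * iota φ (i + 1) * (GG φ i).index
        = iota φ (i + 1) * ((GG φ (i + 1)).relIndex (GG φ i) * (GG φ i).index) := by ring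
      _ = 2 ^ ((i + 1) * D) := by rw [h3, h2]
      _ = 2 ^ D * 2 ^ (i * D) := by rw [add_mul, one_mul, pow_add, mul_comm]
      _ = 2 ^ D * iota φ i * (GG φ i).index := by rw [mul_assoc, h1]
  · intro x hx
    have hx' : x ∈ GG φ i := hx
    show (if h : x ∈ GG φ i then ((e (QuotientAddGroup.mk (⟨x, h⟩ : GG φ i)) : ℕ) : ℤ) else 0) ∈ _
    rw [dif_pos hx', Finset.mem_image]
    exact ⟨_, Finset.mem_range.2 (e _).2, rfl⟩
  · intro x y hx hy hxy
    have hx' : x ∈ GG φ i := hx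
    have hy' : y ∈ GG φ i := hy
    simp only [dif_pos hx', dif_pos hy'] at hxy
    have h4 : e (QuotientAddGroup.mk (⟨x, hx'⟩ : GG φ i)) =
        e (QuotientAddGroup.mk (⟨y, hy'⟩ : GG φ i)) := Fin.ext (by exact_mod_cast hxy)
    have h5 := e.injective h4
    rw [QuotientAddGroup.eq] at h5
    have h6 : -x + y ∈ GG φ (i + 1) := h5
    have h7 := (GG φ (i + 1)).neg_mem h6
    have h8 : -(-x + y) = x - y := by abel
    rw [h8] at h7
    exact h7

end LCL_

theorem lcl_proof : Stmt_LCL := fun _ _ i φ => LCL_.main φ i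

end Pool.Agent.EMS
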