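import Pool.Agent.EMS.StmtsC

/-!
# LCO: counting lattice points in boxes (helper76)
-/

set_option autoImplicit false

open Finset
open scoped BigOperators Classical

namespace Pool.Agent.EMS

namespace LCO_

theorem gam_add {D r : ℕ} (φ : (Fin D → ℤ) →ₗ[ℤ] (Fin r → ℤ)) (i : ℕ) (z q : Fin D → ℤ) :
    Gam φ i (z + (2 ^ i : ℤ) • q) ↔ Gam φ i z := by
  constructor
  · rintro ⟨y, hy⟩
    refine ⟨y - φ q, ?_⟩
    rw [map_add, map_smul] at hy
    rw [smul_sub, ← hy]
    abel
  · rintro ⟨y, hy⟩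
    refine ⟨y + φ q, ?_⟩
    rw [map_add, map_smul, hy, smul_add]

end LCO_

open LCO_ in
theorem lco_proof : Stmt_LCO := by
  intro D r i φ p m
  have h2 : (0 : ℤ) < 2 ^ i := by positivity
  have hset : {x : Fin D → ℤ | (∀ l, 2 ^ i * p l ≤ x l ∧ x l < 2 ^ i * (p l + m l)) ∧ Gam φ i x} =
      (((Fintype.piFinset fun l => Finset.Ico (2 ^ i * p l) (2 ^ i * (p l + m l))).filter
        fun x => Gam φ i x : Finset (Fin D → ℤ)) : Set (Fin D → ℤ)) := by
    ext x
    simp only [Set.mem_ofPred_eq, Finset.coe_filter, Fintype.mem_piFinset, Finset.mem_Ico]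
  rw [hset, Set.ncard_coe_finset]
  have hcard : (Fintype.piFinset fun l => Finset.Ico (p l) (p l + (m l : ℤ))).card = ∏ l, m l := by
    rw [Fintype.card_piFinset]
    refine Finset.prod_congr rfl fun l _ => ?_
    rw [Int.card_Ico]
    omega
  unfold iota
  rw [← hcard, ← Finset.card_product]
  refine Finset.card_nbij' (fun x => (fun l => x l % 2 ^ i, fun l => x l / 2 ^ i))
    (fun y => y.1 + (2 ^ i : ℤ) • y.2) ?_ ?_ ?_ ?_
  · intro x hx
    rw [Finset.mem_coe, Finset.mem_filter, Fintype.mem_piFinset] at hx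
    rw [Finset.mem_coe, Finset.mem_product, Finset.mem_filter]
    refine ⟨⟨?_, ?_⟩, ?_⟩
    · unfold box
      rw [Fintype.mem_piFinset]
      intro l
      rw [Finset.mem_Ico]
      refine ⟨Int.emod_nonneg _ h2.ne', ?_⟩
      push_cast
      exact Int.emod_lt_of_pos _ h2
    · have h3 : (fun l => x l % 2 ^ i) + (2 ^ i : ℤ) • (fun l => x l / 2 ^ i) = x := by
        funext l
        exact Int.emod_add_mul_ediv _ _
      have h4 := gam_add φ i (fun l => x l % 2 ^ i) (fun l => x l / 2 ^ i)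
      rw [h3] at h4
      exact h4.mp hx.2
    · rw [Fintype.mem_piFinset]
      intro l
      have h5 := Finset.mem_Ico.mp (hx.1 l)
      rw [Finset.mem_Ico]
      exact ⟨(Int.le_ediv_iff_mul_le h2).mpr (by linarith [h5.1]),
        (Int.ediv_lt_iff_lt_mul h2).mpr (by linarith [h5.2])⟩
  · rintro ⟨z, q⟩ hy
    rw [Finset.mem_coe, Finset.mem_product, Finset.mem_filter] at hy
    obtain ⟨⟨hz, hg⟩, hq⟩ := hy
    unfold box at hz
    rw [Fintype.mem_piFinset] at hz hq
    rw [Finset.mem_coe, Finset.mem_filter, Fintype.mem_piFinset]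
    refine ⟨fun l => ?_, (gam_add φ i z q).mpr hg⟩
    have h5 := Finset.mem_Ico.mp (hz l)
    have h6 := Finset.mem_Ico.mp (hq l)
    push_cast at h5
    rw [Finset.mem_Ico]
    show 2 ^ i * p l ≤ z l + 2 ^ i * q l ∧ z l + 2 ^ i * q l < 2 ^ i * (p l + m l)
    constructor
    · nlinarith [h5.1, mul_le_mul_of_nonneg_left h6.1 h2.le]
    · have h7 : q l + 1 ≤ p l + m l := h6.2
      nlinarith [h5.2, mul_le_mul_of_nonneg_left h7 h2.le]
  · intro x _
    funext l
    exact Int.emod_add_mul_ediv _ _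
  · rintro ⟨z, q⟩ hy
    rw [Finset.mem_coe, Finset.mem_product, Finset.mem_filter] at hy
    obtain ⟨⟨hz, -⟩, -⟩ := hy
    unfold box at hz
    rw [Fintype.mem_piFinset] at hz
    apply Prod.ext
    · funext l
      have h5 := Finset.mem_Ico.mp (hz l)
      push_cast at h5
      show (z l + 2 ^ i * q l) % 2 ^ i = z l
      rw [Int.add_mul_emod_self_left]
      exact Int.emod_eq_of_lt h5.1 h5.2
    · funext l
      have h5 := Finset.mem_Ico.mp (hz l)
      push_cast at h5
      show (z l + 2 ^ i * q l) / 2 ^ i = q l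
      rw [Int.add_mul_ediv_left _ _ h2.ne', Int.ediv_eq_zero_of_lt h5.1 h5.2, zero_add]

end Pool.Agent.EMS
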