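import Pool.Agent.EMS.StmtsD

set_option autoImplicit false

/-!
Module LEV: a popular level with a small next level.
-/

open Finset
open scoped BigOperators Classical

namespace Pool.Agent.EMS

namespace LEV_

/-- level sets -/
noncomputable def lv (A : Finset ℕ) (t : ℕ) : Finset ℕ := A.filter fun a => Nat.log 2 a = t

end LEV_

open LEV_ in
theorem lev_proof (h1 : Stmt_LMF) : Stmt_LEV := by
  intro A κ hκ hpos hfree hbig
  have hA0 : (0 : ℝ) < (A.card : ℝ) := lt_of_lt_of_le (by positivity) hbig
  set Wm : ℕ := 8 * κ ^ 6 * (Nat.log 2 A.card + 5) ^ 2 with hWm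
  have hWm' : ((Wm : ℕ) : ℝ) = 8 * (κ : ℝ) ^ 6 * ((Nat.log 2 A.card : ℝ) + 5) ^ 2 := by
    rw [hWm]
    push_cast
    ring
  have hbig' : Wm ^ 2 ≤ A.card := by
    rw [← hWm'] at hbig
    exact_mod_cast hbig
  -- one point per non-empty level
  set X : ℕ → Finset ℕ := fun t => if h : (lv A t).Nonempty then {h.choose} else ∅ with hX
  have hXsub : ∀ t, X t ⊆ A.filter fun a => Nat.log 2 a = t := by
    intro t x hx
    simp only [hX] at hx
    split_ifs at hx with h
    · rw [Finset.mem_singleton] at hx
      rw [hx]
      exact h.choose_spec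
    · simp at hx
  have hXs : ∀ t, ∀ x ∈ X t, ∀ y ∈ X t, x ≠ y → x + y ∉ A := by
    intro t x hx y hy hne
    simp only [hX] at hx hy
    split_ifs at hx hy with h
    · rw [Finset.mem_singleton] at hx hy
      exact absurd (hx.trans hy.symm) hne
    · simp at hx
  obtain ⟨T, hT⟩ : ∃ T : ℕ, ∀ a ∈ A, Nat.log 2 a < T := by
    refine ⟨(A.sup fun a => Nat.log 2 a) + 1, fun a ha => ?_⟩
    exact Nat.lt_succ_of_le (Finset.le_sup (f := fun a => Nat.log 2 a) ha)
  have hlevels := h1 A κ hκ hpos hfree X hXsub hXs T
  have hcardX : ∀ t, (X t).card = if (lv A t).Nonempty then 1 else 0 := by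
    intro t
    simp only [hX]
    split_ifs with h
    · rw [Finset.card_singleton]
    · rw [Finset.card_empty]
  have hsumA : A.card = ∑ t ∈ Finset.range T, (lv A t).card := by
    have h2 : A = (Finset.range T).biUnion fun t => lv A t := by
      ext a
      simp only [Finset.mem_biUnion, lv, Finset.mem_filter, Finset.mem_range]
      constructor
      · intro ha
        exact ⟨Nat.log 2 a, hT a ha, ha, rfl⟩
      · rintro ⟨t, _, ha, _⟩
        exact ha
    conv_lhs => rw [h2]
    refine Finset.card_biUnion fun s _ t _ hst => ?_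
    show Disjoint (lv A s) (lv A t)
    rw [Finset.disjoint_left]
    intro a ha hb
    simp only [lv, Finset.mem_filter] at ha hb
    exact hst (ha.2.symm.trans hb.2)
  -- some level is large
  have hex : ∃ t, A.card ≤ (lv A t).card ^ 2 := by
    by_contra hcon
    push Not at hcon
    have hT0 : (Finset.range T).Nonempty := by
      rw [Finset.nonempty_range_iff]
      rintro rfl
      rw [Finset.range_zero, Finset.sum_empty] at hsumA
      rw [hsumA] at hA0
      simp at hA0
    obtain ⟨t, ht, hmax⟩ := Finset.exists_max_image (Finset.range T) (fun t => (lv A t).card) hT0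
    have hle : A.card ≤ Wm * (lv A t).card := by
      calc A.card = ∑ s ∈ Finset.range T, (lv A s).card := hsumA
        _ ≤ ∑ s ∈ Finset.range T, (X s).card * (lv A t).card := by
            refine Finset.sum_le_sum fun s hs => ?_
            rw [hcardX]
            split_ifs with h
            · rw [one_mul]
              exact hmax s hs
            · rw [Finset.not_nonempty_iff_eq_empty.1 h]
              simp
        _ = (∑ s ∈ Finset.range T, (X s).card) * (lv A t).card := by rw [Finset.sum_mul]
        _ ≤ Wm * (lv A t).card := Nat.mul_le_mul_right _ hlevels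
    have h3 := hcon t
    have h4 : A.card ^ 2 ≤ Wm ^ 2 * (lv A t).card ^ 2 := by
      rw [← mul_pow]
      exact Nat.pow_le_pow_left hle 2
    have hA1 : 0 < A.card := by exact_mod_cast hA0
    have h5 : Wm ^ 2 * (lv A t).card ^ 2 < A.card * A.card := by
      calc Wm ^ 2 * (lv A t).card ^ 2 ≤ A.card * (lv A t).card ^ 2 :=
            Nat.mul_le_mul_right _ hbig'
        _ < A.card * A.card := Nat.mul_lt_mul_of_pos_left h3 hA1
    rw [sq] at h4
    omega
  -- the last one
  have hbd : ∀ t, A.card ≤ (lv A t).card ^ 2 → t < T := by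
    intro t ht
    have hA1 : 0 < A.card := by exact_mod_cast hA0
    have h2 : (lv A t).Nonempty := by
      rw [Finset.nonempty_iff_ne_empty]
      intro h
      rw [h, Finset.card_empty] at ht
      omega
    obtain ⟨a, ha⟩ := h2
    simp only [lv, Finset.mem_filter] at ha
    rw [← ha.2]
    exact hT a ha.1
  set F : Finset ℕ := (Finset.range T).filter fun t => A.card ≤ (lv A t).card ^ 2 with hF
  have hFne : F.Nonempty := by
    obtain ⟨t, ht⟩ := hex
    exact ⟨t, Finset.mem_filter.2 ⟨Finset.mem_range.2 (hbd t ht), ht⟩⟩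
  set t0 := F.max' hFne with ht0
  have ht0F : t0 ∈ F := Finset.max'_mem F hFne
  have hgood := (Finset.mem_filter.1 ht0F).2
  refine ⟨t0, by exact_mod_cast hgood, ?_⟩
  by_contra hcon
  push Not at hcon
  have h2 : A.card ≤ (lv A (t0 + 1)).card ^ 2 := by
    refine hgood.trans (Nat.pow_le_pow_left ?_ 2)
    exact hcon.le
  have h3 : t0 + 1 ∈ F := Finset.mem_filter.2 ⟨Finset.mem_range.2 (hbd _ h2), h2⟩
  have h4 := Finset.le_max' F _ h3
  omega

end Pool.Agent.EMS
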