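import Pool.Agent.EMS.StmtsC

set_option autoImplicit false

open Finset
open scoped BigOperators Classical Pointwise

namespace Pool.Agent.EMS

namespace LNK_

variable {α : Type}

/-- ordered pairs of different related elements -/
noncomputable def L (R : α → α → Prop) (S : Finset α) : Finset (α × α) :=
  (S ×ˢ S).filter (fun p => p.1 ≠ p.2 ∧ R p.1 p.2)

theorem sum_erase (R : α → α → Prop) (S : Finset α) (n : ℕ) (hn : S.card = n + 2) :
    ∑ v ∈ S, (L R (S.erase v)).card = n * (L R S).card := by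
  have h1 : ∀ v ∈ S, (L R (S.erase v)).card =
      ∑ p ∈ L R S, if (v ≠ p.1 ∧ v ≠ p.2) then 1 else 0 := by
    intro v _
    rw [← Finset.card_filter]
    congr 1
    ext p
    simp only [L, Finset.mem_filter, Finset.mem_product, Finset.mem_erase]
    constructor
    · rintro ⟨⟨⟨a, b⟩, c, d⟩, e, f⟩
      exact ⟨⟨⟨b, d⟩, e, f⟩, fun h => a h.symm, fun h => c h.symm⟩
    · rintro ⟨⟨⟨b, d⟩, e, f⟩, a, c⟩
      exact ⟨⟨⟨fun h => a h.symm, b⟩, fun h => c h.symm, d⟩, e, f⟩
  rw [Finset.sum_congr rfl h1, Finset.sum_comm]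
  rw [Finset.sum_congr rfl (g := fun _ => n) ?_]
  · rw [Finset.sum_const, smul_eq_mul, mul_comm]
  · intro p hp
    rw [← Finset.card_filter]
    simp only [L, Finset.mem_filter, Finset.mem_product] at hp
    have : S.filter (fun v => v ≠ p.1 ∧ v ≠ p.2) = (S.erase p.1).erase p.2 := by
      ext v
      simp only [Finset.mem_filter, Finset.mem_erase]
      tauto
    rw [this, Finset.card_erase_of_mem, Finset.card_erase_of_mem hp.1.1, hn]
    · rfl
    · exact Finset.mem_erase.mpr ⟨fun h => hp.2.1 h.symm, hp.1.2⟩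

theorem edges (R : α → α → Prop) (κ : ℕ) (hκ : 2 ≤ κ) (hsymm : ∀ x y, R x y → R y x) (m : ℕ) :
    ∀ S : Finset α, S.card = κ + m →
      (∀ X ⊆ S, X.card = κ → ∃ x ∈ X, ∃ y ∈ X, x ≠ y ∧ R x y) →
      2 * ((κ + m) * (κ + m - 1)) ≤ κ * (κ - 1) * (L R S).card := by
  induction m with
  | zero =>
    intro S hS h
    obtain ⟨x, hx, y, hy, hxy, hR⟩ := h S (le_refl _) (by simpa using hS)
    have h2 : 2 ≤ (L R S).card := by
      have : ({(x, y), (y, x)} : Finset (α × α)) ⊆ L R S := by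
        intro p hp
        simp only [Finset.mem_insert, Finset.mem_singleton] at hp
        rcases hp with rfl | rfl
        · simp only [L, Finset.mem_filter, Finset.mem_product]
          exact ⟨⟨hx, hy⟩, hxy, hR⟩
        · simp only [L, Finset.mem_filter, Finset.mem_product]
          exact ⟨⟨hy, hx⟩, fun h => hxy h.symm, hsymm _ _ hR⟩
      have h3 := Finset.card_le_card this
      rw [Finset.card_pair] at h3
      · exact h3
      · intro h
        exact hxy (Prod.ext_iff.mp h).1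
    simp only [add_zero]
    calc 2 * (κ * (κ - 1)) = κ * (κ - 1) * 2 := by ring
      _ ≤ κ * (κ - 1) * (L R S).card := Nat.mul_le_mul_left _ h2
  | succ m ih =>
    intro S hS h
    have hk : S.card = (κ + m - 1) + 2 := by omega
    have hs := sum_erase R S (κ + m - 1) hk
    have h1 : ∀ v ∈ S, 2 * ((κ + m) * (κ + m - 1)) ≤ κ * (κ - 1) * (L R (S.erase v)).card := by
      intro v hv
      apply ih
      · rw [Finset.card_erase_of_mem hv, hS]
        omega
      · intro X hX hXc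
        exact h X (hX.trans (Finset.erase_subset _ _)) hXc
    have h2 := Finset.sum_le_sum h1
    rw [Finset.sum_const, smul_eq_mul, ← Finset.mul_sum, hs, hS] at h2
    obtain ⟨a, ha⟩ : ∃ a, κ + m - 1 = a + 1 := ⟨κ + m - 2, by omega⟩
    have hkm : κ + m = a + 2 := by omega
    rw [ha] at h2
    have e1 : κ + (m + 1) = a + 3 := by omega
    rw [e1, hkm] at h2
    rw [e1]
    have e2 : a + 3 - 1 = a + 2 := by omega
    rw [e2]
    have h3 : (a + 1) * (2 * ((a + 3) * (a + 2))) ≤ (a + 1) * (κ * (κ - 1) * (L R S).card) := by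
      calc (a + 1) * (2 * ((a + 3) * (a + 2))) = (a + 3) * (2 * ((a + 2) * (a + 1))) := by ring
        _ ≤ κ * (κ - 1) * ((a + 1) * (L R S).card) := h2
        _ = (a + 1) * (κ * (κ - 1) * (L R S).card) := by ring
    exact Nat.le_of_mul_le_mul_left h3 (by omega)

theorem edges' (R : α → α → Prop) (κ : ℕ) (hκ : 2 ≤ κ) (hsymm : ∀ x y, R x y → R y x)
    (S : Finset α) (h : ∀ X ⊆ S, X.card = κ → ∃ x ∈ X, ∃ y ∈ X, x ≠ y ∧ R x y) :
    2 * S.card ^ 2 ≤ κ ^ 2 * (L R S).card + 2 * κ ^ 2 := by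
  rcases Nat.lt_or_ge S.card κ with h1 | h1
  · have : S.card ^ 2 ≤ κ ^ 2 := Nat.pow_le_pow_left h1.le 2
    omega
  · obtain ⟨m, hm⟩ := Nat.exists_eq_add_of_le h1
    have h2 := edges R κ hκ hsymm m S hm h
    rw [← hm] at h2
    obtain ⟨k, hk⟩ : ∃ k, κ = k + 2 := ⟨κ - 2, by omega⟩
    obtain ⟨n, hn⟩ : ∃ n, S.card = n + 2 := ⟨S.card - 2, by omega⟩
    have hkn : k ≤ n := by omega
    rw [hn, hk] at h2
    rw [hn, hk]
    have e1 : n + 2 - 1 = n + 1 := by omega
    have e2 : k + 2 - 1 = k + 1 := by omega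
    rw [e1, e2] at h2
    set l := (L R S).card
    have h3 : (k + 1) * (2 * (n + 2) ^ 2) ≤ (k + 1) * ((k + 2) ^ 2 * l) := by
      calc (k + 1) * (2 * (n + 2) ^ 2) = 2 * (n + 2) * ((k + 1) * (n + 2)) := by ring
        _ ≤ 2 * (n + 2) * ((k + 2) * (n + 1)) := by
            apply Nat.mul_le_mul_left
            nlinarith
        _ = (k + 2) * (2 * ((n + 2) * (n + 1))) := by ring
        _ ≤ (k + 2) * ((k + 2) * (k + 1) * l) := Nat.mul_le_mul_left _ h2
        _ = (k + 1) * ((k + 2) ^ 2 * l) := by ring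
    have h4 := Nat.le_of_mul_le_mul_left h3 (by omega)
    omega

end LNK_

open LNK_ in
theorem lnk_proof : Stmt_LNK := by
  intro r κ t N U A hκ hC hA hbig
  set R : (Fin r → ℤ) → (Fin r → ℤ) → Prop := fun x y => ∃ z ∈ U (t + 1), z + z = x + y with hR
  set F : Finset ((Fin r → ℤ) × (Fin r → ℤ)) :=
    (A ×ˢ A).filter fun z => ∃ y ∈ U (t + 1), y + y = z.1 + z.2 with hF
  let cls : (Fin r → ℤ) → (Fin r → ZMod 2) := fun x l => (x l : ZMod 2)
  have hcls : ∀ x y, cls x = cls y → Par x y := by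
    intro x y h l
    have := congrFun h l
    have h2 := (ZMod.intCast_eq_intCast_iff_dvd_sub (y l) (x l) 2).mp this.symm
    exact_mod_cast h2
  have hper : ∀ q : Fin r → ZMod 2, 2 * (A.filter fun x => cls x = q).card ^ 2 ≤
      κ ^ 2 * (F.filter fun p => cls p.1 = q).card + 2 * κ ^ 2 := by
    intro q
    refine (edges' R κ hκ ?_ _ ?_).trans ?_
    · rintro x y ⟨z, hz, h⟩
      exact ⟨z, hz, by rw [h, add_comm]⟩
    · intro X hX hXc
      obtain ⟨x, hx, y, hy, hxy, z, hz, h⟩ := hC.link t X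
        (hX.trans ((Finset.filter_subset _ _).trans hA)) (by
          intro x hx y hy
          apply hcls
          have h1 := (Finset.mem_filter.mp (hX hx)).2
          have h2 := (Finset.mem_filter.mp (hX hy)).2
          rw [h1, h2]) hXc.ge
      exact ⟨x, hx, y, hy, hxy, z, hz, h⟩
    · apply Nat.add_le_add_right
      apply Nat.mul_le_mul_left
      apply Finset.card_le_card
      intro p hp
      simp only [L, Finset.mem_filter, Finset.mem_product] at hp
      simp only [hF, Finset.mem_filter, Finset.mem_product]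
      exact ⟨⟨⟨hp.1.1.1, hp.1.2.1⟩, hp.2.2⟩, hp.1.1.2⟩
  have hsum := Finset.sum_le_sum (fun q (_ : q ∈ (Finset.univ : Finset (Fin r → ZMod 2))) => hper q)
  rw [← Finset.mul_sum, Finset.sum_add_distrib, ← Finset.mul_sum, Finset.sum_const, smul_eq_mul]
    at hsum
  have hcardF : ∑ q : Fin r → ZMod 2, (F.filter fun p => cls p.1 = q).card = F.card :=
    (Finset.card_eq_sum_card_fiberwise (fun x _ => Finset.mem_univ _)).symm
  have hcardA : ∑ q : Fin r → ZMod 2, (A.filter fun x => cls x = q).card = A.card :=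
    (Finset.card_eq_sum_card_fiberwise (fun x _ => Finset.mem_univ _)).symm
  have hcu : (Finset.univ : Finset (Fin r → ZMod 2)).card = 2 ^ r := by
    rw [Finset.card_univ, Fintype.card_fun, ZMod.card, Fintype.card_fin]
  rw [hcardF, hcu] at hsum
  have hCS : A.card ^ 2 ≤ 2 ^ r * ∑ q : Fin r → ZMod 2, (A.filter fun x => cls x = q).card ^ 2 := by
    have := @sq_sum_le_card_mul_sum_sq (Fin r → ZMod 2) ℕ _ _ _ _ (Finset.univ)
      (fun q => (A.filter fun x => cls x = q).card)
    rw [hcardA, hcu] at this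
    exact this
  have hfin : (A.card : ℝ) ^ 2 ≤ 2 ^ r *
      ∑ q : Fin r → ZMod 2, ((A.filter fun x => cls x = q).card : ℝ) ^ 2 := by
    exact_mod_cast hCS
  have hsum' : 2 * ∑ q : Fin r → ZMod 2, ((A.filter fun x => cls x = q).card : ℝ) ^ 2 ≤
      (κ : ℝ) ^ 2 * F.card + 2 ^ r * (2 * (κ : ℝ) ^ 2) := by
    exact_mod_cast hsum
  have h4 : (4 : ℝ) ^ r = 2 ^ r * 2 ^ r := by
    rw [← mul_pow]; norm_num
  have hp : (0 : ℝ) < 2 ^ r := by positivity
  rw [h4] at hbig
  have h5 : 2 * (A.card : ℝ) ^ 2 ≤ 2 ^ r * ((κ : ℝ) ^ 2 * F.card + 2 ^ r * (2 * (κ : ℝ) ^ 2)) := by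
    calc 2 * (A.card : ℝ) ^ 2 ≤ 2 * (2 ^ r *
        ∑ q : Fin r → ZMod 2, ((A.filter fun x => cls x = q).card : ℝ) ^ 2) := by linarith
      _ = 2 ^ r * (2 * ∑ q : Fin r → ZMod 2, ((A.filter fun x => cls x = q).card : ℝ) ^ 2) := by ring
      _ ≤ _ := by gcongr
  nlinarith

end Pool.Agent.EMS
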