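import Pool.Agent.EMS.StmtsC

/-!
# LRR: Lemma R, assembly (helper17)
-/

set_option autoImplicit false

open Finset
open scoped BigOperators Classical

namespace Pool.Agent.EMS

namespace LRR_

/-- labels of boxes -/
def Lab (D : ℕ) : Type := Fin D → ℤ

/-- the label of a vector -/
def toLab {D : ℕ} (x : Fin D → ℤ) : Lab D := x

/-- the coordinates of a label -/
def gt {D : ℕ} (q : Lab D) (l : Fin D) : ℤ := (show Fin D → ℤ from q) l

/-- side of a level `j` box in the scaled lattice -/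
def sd {D : ℕ} (i B : ℕ) (k : Fin D → ℕ) (j : ℕ) (l : Fin D) : ℤ := 2 ^ i * (B : ℤ) ^ (k l - j)

/-- level `j` box of a point -/
def lev {D : ℕ} (i B : ℕ) (k : Fin D → ℕ) (j : ℕ) (x : Fin D → ℤ) : Lab D :=
  toLab fun l => x l / sd i B k j l

theorem gt_lev {D : ℕ} (i B : ℕ) (k : Fin D → ℕ) (j : ℕ) (x : Fin D → ℤ) (l : Fin D) :
    gt (lev i B k j x) l = x l / sd i B k j l := rfl

theorem lab_ext {D : ℕ} {p q : Lab D} (h : ∀ l, gt p l = gt q l) : p = q := funext h

theorem sd_pos {D : ℕ} (i B : ℕ) (k : Fin D → ℕ) (j : ℕ) (l : Fin D) (hB : 1 ≤ B) :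
    0 < sd i B k j l := by
  unfold sd
  have : (0 : ℤ) < B := by exact_mod_cast hB
  positivity

theorem div_iff (s x q : ℤ) (hs : 0 < s) : x / s = q ↔ s * q ≤ x ∧ x < s * (q + 1) := by
  constructor
  · intro h
    constructor
    · have := (Int.le_ediv_iff_mul_le hs (a := q) (b := x)).1 h.ge
      linarith [mul_comm q s]
    · have := (Int.ediv_lt_iff_lt_mul hs (a := x) (b := q + 1)).1 (by omega)
      linarith [mul_comm (q + 1) s]
  · rintro ⟨h1, h2⟩
    have e1 := (Int.le_ediv_iff_mul_le hs (a := q) (b := x)).2 (by linarith [mul_comm q s])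
    have e2 := (Int.ediv_lt_iff_lt_mul hs (a := x) (b := q + 1)).2
      (by linarith [mul_comm (q + 1) s])
    omega

theorem lev_eq {D : ℕ} {i B : ℕ} {k : Fin D → ℕ} {j : ℕ} {x : Fin D → ℤ} {q : Lab D}
    (hB : 1 ≤ B) : lev i B k j x = q ↔
      ∀ l, sd i B k j l * gt q l ≤ x l ∧ x l < sd i B k j l * (gt q l + 1) := by
  constructor
  · intro h l
    exact (div_iff _ _ _ (sd_pos i B k j l hB)).1 (by rw [← h, gt_lev])
  · intro h
    refine lab_ext fun l => ?_
    rw [gt_lev]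
    exact (div_iff _ _ _ (sd_pos i B k j l hB)).2 (h l)

theorem sd_succ {D : ℕ} (i B : ℕ) (k : Fin D → ℕ) (j : ℕ) (l : Fin D) (h : j + 1 ≤ k l) :
    sd i B k j l = sd i B k (j + 1) l * B := by
  unfold sd
  have : k l - j = (k l - (j + 1)) + 1 := by omega
  rw [this, pow_succ, mul_assoc]

theorem lev_succ {D : ℕ} (i B : ℕ) (k : Fin D → ℕ) (j : ℕ) (l : Fin D) (x : Fin D → ℤ)
    (hB : 1 ≤ B) (h : j + 1 ≤ k l) :
    gt (lev i B k j x) l = gt (lev i B k (j + 1) x) l / (B : ℤ) := by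
  rw [gt_lev, gt_lev]
  rw [Int.ediv_ediv_of_nonneg (sd_pos i B k (j + 1) l hB).le, sd_succ i B k j l h]

theorem mem_EE {D r : ℕ} {φ : (Fin D → ℤ) →ₗ[ℤ] (Fin r → ℤ)} {c : Fin r → ℤ}
    {N : Fin D → ℕ} {i : ℕ} {V : Finset (Fin r → ℤ)} {x : Fin D → ℤ} :
    x ∈ EE φ c N i V ↔ (∀ l, 0 ≤ x l ∧ x l < 2 ^ i * (N l : ℤ)) ∧
      ∃ y ∈ V, φ x = (2 ^ i : ℤ) • (y - c) := by
  unfold EE box
  rw [Finset.mem_filter, Fintype.mem_piFinset]
  refine and_congr_left fun _ => forall_congr' fun l => ?_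
  rw [Finset.mem_Ico]
  push_cast
  exact Iff.rfl

/-- to the reals -/
noncomputable def tor {D : ℕ} (s : ℕ) (x : Fin D → ℤ) : Fin D → ℝ := fun l => (x l : ℝ) / 2 ^ s

/-- back to the integers -/
noncomputable def toz {D : ℕ} (s : ℕ) (w : Fin D → ℝ) : Fin D → ℤ := fun l => ⌊w l * 2 ^ s⌋

theorem toz_tor {D : ℕ} (s : ℕ) (x : Fin D → ℤ) : toz s (tor s x) = x := by
  funext l
  unfold toz tor
  rw [div_mul_cancel₀ _ (by positivity)]
  exact Int.floor_intCast _

theorem tor_inj {D : ℕ} (s : ℕ) : Function.Injective (tor s : (Fin D → ℤ) → (Fin D → ℝ)) :=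
  Function.LeftInverse.injective (toz_tor s)

/-- the `F` bound -/
theorem F_bound {D r B : ℕ} (φ : (Fin D → ℤ) →ₗ[ℤ] (Fin r → ℤ)) (k : Fin D → ℕ) (i : ℕ)
    (hker : ∀ u : Fin D → ℤ, (∀ l, |u l| < (B : ℤ) ^ k l) → φ u = 0 → u = 0)
    (T : Finset (Fin D → ℤ)) (hT : ∀ x ∈ T, ∀ l, 0 ≤ x l ∧ x l < 2 ^ i * (B : ℤ) ^ k l)
    (hG : ∀ x ∈ T, Gam φ i x) (z : Fin r → ℤ) (hz : ∀ x ∈ T, φ x = z) :
    T.card ≤ iota φ i := by
  unfold iota
  have hp : (0 : ℤ) < 2 ^ i := by positivity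
  refine Finset.card_le_card_of_injOn (fun x l => x l % 2 ^ i) ?_ ?_
  · intro x hx
    rw [Finset.mem_coe, Finset.mem_filter]
    constructor
    · unfold box
      rw [Fintype.mem_piFinset]
      intro l
      rw [Finset.mem_Ico]
      refine ⟨Int.emod_nonneg _ hp.ne', ?_⟩
      have := Int.emod_lt_of_pos (x l) hp
      push_cast
      exact this
    · obtain ⟨y, hy⟩ := hG x hx
      refine ⟨y - φ (fun l => x l / 2 ^ i), ?_⟩
      have e : (fun l => x l % 2 ^ i) = x - (2 ^ i : ℤ) • (fun l => x l / 2 ^ i) := by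
        funext l
        rw [Pi.sub_apply, Pi.smul_apply, smul_eq_mul]
        have := Int.emod_add_mul_ediv (x l) (2 ^ i)
        linarith
      show φ (fun l => x l % 2 ^ i) = _
      rw [e, map_sub, map_smul, hy, smul_sub]
  · intro x hx y hy hxy
    have e : x - y = (2 ^ i : ℤ) • (fun l => x l / 2 ^ i - y l / 2 ^ i) := by
      funext l
      rw [Pi.sub_apply, Pi.smul_apply, smul_eq_mul]
      have h1 := Int.emod_add_mul_ediv (x l) (2 ^ i)
      have h2 := Int.emod_add_mul_ediv (y l) (2 ^ i)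
      have h3 : x l % 2 ^ i = y l % 2 ^ i := congrFun hxy l
      rw [mul_sub]
      linarith
    have h0 : (fun l => x l / 2 ^ i - y l / 2 ^ i) = (0 : Fin D → ℤ) := by
      apply hker
      · intro l
        have h1 := (hT x hx l)
        have h2 := (hT y hy l)
        have h3 : x l - y l = 2 ^ i * (x l / 2 ^ i - y l / 2 ^ i) := congrFun e l
        have h4 : |x l - y l| < 2 ^ i * (B : ℤ) ^ k l := by
          rw [abs_lt]
          constructor <;> linarith [h1.1, h1.2, h2.1, h2.2]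
        rw [h3, abs_mul, abs_of_pos hp] at h4
        exact lt_of_mul_lt_mul_left h4 hp.le
      · have h1 : φ (x - y) = 0 := by rw [map_sub, hz x hx, hz y hy, sub_self]
        rw [e, map_smul] at h1
        rcases smul_eq_zero.1 h1 with h2 | h2
        · exact absurd h2 hp.ne'
        · exact h2
    rw [h0, smul_zero] at e
    exact sub_eq_zero.1 e

/-- a box of level `j` contains few points of `Γ_i` -/
theorem box_count {D r B : ℕ} (h : Stmt_LCO) (φ : (Fin D → ℤ) →ₗ[ℤ] (Fin r → ℤ))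
    (k : Fin D → ℕ) (i j : ℕ) (hB : 1 ≤ B) (q : Lab D) (T : Finset (Fin D → ℤ))
    (hT : ∀ x ∈ T, lev i B k j x = q) (hG : ∀ x ∈ T, Gam φ i x) :
    T.card ≤ iota φ i * ∏ l, B ^ (k l - j) := by
  have h1 := h D r i φ (fun l => (B : ℤ) ^ (k l - j) * gt q l) (fun l => B ^ (k l - j))
  rw [← h1, ← Set.ncard_coe_finset]
  refine Set.ncard_le_ncard ?_ ?_
  · intro x hx
    refine ⟨fun l => ?_, hG x hx⟩
    have h2 := (lev_eq hB).1 (hT x hx) l
    unfold sd at h2
    push_cast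
    constructor
    · linarith [h2.1]
    · have : (2 : ℤ) ^ i * ((B : ℤ) ^ (k l - j) * gt q l + (B : ℤ) ^ (k l - j)) =
          2 ^ i * (B : ℤ) ^ (k l - j) * (gt q l + 1) := by ring
      rw [this]
      exact h2.2
  · refine Set.Finite.subset (Fintype.piFinset fun l =>
      Finset.Icc (2 ^ i * ((B : ℤ) ^ (k l - j) * gt q l))
        (2 ^ i * ((B : ℤ) ^ (k l - j) * gt q l + ((B ^ (k l - j) : ℕ) : ℤ)))).finite_toSet ?_
    rintro x ⟨hx, -⟩
    rw [Finset.mem_coe, Fintype.mem_piFinset]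
    intro l
    rw [Finset.mem_Icc]
    exact ⟨(hx l).1, (hx l).2.le⟩

/-- children of a box -/
theorem children {D B : ℕ} (k : Fin D → ℕ) (i j : ℕ) (hB : 1 ≤ B) (hj : ∀ l, j + 1 ≤ k l)
    (q : Lab D) (T : Finset (Fin D → ℤ)) (hT : ∀ x ∈ T, lev i B k j x = q) :
    (T.image (lev i B k (j + 1))).card ≤ B ^ D := by
  have hB0 : (0 : ℤ) < B := by exact_mod_cast hB
  have hsub : T.image (lev i B k (j + 1)) ⊆
      (Fintype.piFinset fun l : Fin D => Finset.Ico ((B : ℤ) * gt q l) ((B : ℤ) * (gt q l + 1))).image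
        toLab := by
    intro v hv
    rw [Finset.mem_image] at hv ⊢
    obtain ⟨x, hx, rfl⟩ := hv
    refine ⟨fun l => gt (lev i B k (j + 1) x) l, ?_, rfl⟩
    rw [Fintype.mem_piFinset]
    intro l
    rw [Finset.mem_Ico]
    have h1 := lev_succ i B k j l x hB (hj l)
    rw [hT x hx] at h1
    exact (div_iff _ _ _ hB0).1 h1.symm
  refine (Finset.card_le_card hsub).trans (Finset.card_image_le.trans ?_)
  rw [Fintype.card_piFinset]
  have : ∀ l : Fin D, (Finset.Ico ((B : ℤ) * gt q l) ((B : ℤ) * (gt q l + 1))).card = B := by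
    intro l
    rw [Int.card_Ico]
    have : (B : ℤ) * (gt q l + 1) - (B : ℤ) * gt q l = B := by ring
    rw [this, Int.toNat_natCast]
  rw [Finset.prod_congr rfl fun l _ => this l, Finset.prod_const, Finset.card_univ,
    Fintype.card_fin]

/-- membership in the scaled set from linked points -/
theorem mid_mem {D r B : ℕ} (φ : (Fin D → ℤ) →ₗ[ℤ] (Fin r → ℤ)) (c : Fin r → ℤ)
    (k : Fin D → ℕ) (i j : ℕ) (hB : 1 ≤ B) (V V' : Finset (Fin r → ℤ)) (q : Lab D)
    (x x' : Fin D → ℤ) (y y' z : Fin r → ℤ) (hx : x ∈ EE φ c (fun l => B ^ k l) i V)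
    (hx' : x' ∈ EE φ c (fun l => B ^ k l) i V) (hq : lev i B k j x = q)
    (hq' : lev i B k j x' = q) (hy : φ x = (2 ^ i : ℤ) • (y - c))
    (hy' : φ x' = (2 ^ i : ℤ) • (y' - c)) (hz : z ∈ V') (hzz : z + z = y + y') :
    x + x' ∈ (EE φ c (fun l => B ^ k l) (i + 1) V').filter fun w => lev (i + 1) B k j w = q := by
  rw [Finset.mem_filter]
  constructor
  · rw [mem_EE]
    constructor
    · intro l
      have h1 := (mem_EE.1 hx).1 l
      have h2 := (mem_EE.1 hx').1 l
      rw [Pi.add_apply, pow_succ]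
      constructor
      · linarith [h1.1, h2.1]
      · have : (2 : ℤ) ^ i * 2 * ((B ^ k l : ℕ) : ℤ) =
            2 ^ i * ((B ^ k l : ℕ) : ℤ) + 2 ^ i * ((B ^ k l : ℕ) : ℤ) := by ring
        rw [this]
        linarith [h1.2, h2.2]
    · refine ⟨z, hz, ?_⟩
      rw [map_add, hy, hy', ← smul_add, pow_succ, mul_smul]
      congr 1
      rw [smul_sub, two_smul, two_smul, hzz]
      abel
  · rw [lev_eq hB]
    intro l
    have h1 := (lev_eq hB).1 hq l
    have h2 := (lev_eq hB).1 hq' l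
    have e : sd (i + 1) B k j l = sd i B k j l + sd i B k j l := by
      unfold sd
      rw [pow_succ]
      ring
    rw [e, Pi.add_apply]
    constructor
    · linarith [h1.1, h2.1]
    · linarith [h1.2, h2.2]

theorem good_box {D r B κ : ℕ} (hg : Stmt_GBX) (hl : Stmt_LCL)
    (φ : (Fin D → ℤ) →ₗ[ℤ] (Fin r → ℤ)) (c : Fin r → ℤ) (k : Fin D → ℕ) (N : Fin r → ℕ)
    (U : ℕ → Finset (Fin r → ℤ)) (t i j : ℕ) (hD : 1 ≤ D) (hB : 10 ^ 4 * D ^ 3 ≤ B)
    (hκ : 2 ≤ κ) (hU : Chain κ N U) (hk : ∀ l, j + 1 ≤ k l)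
    (hker : ∀ u : Fin D → ℤ, (∀ l, |u l| < (B : ℤ) ^ k l) → φ u = 0 → u = 0)
    (T : Finset (Fin D → ℤ)) (hT : ∀ x ∈ T, x ∈ EE φ c (fun l => B ^ k l) i (U t))
    (q : Lab D) (hq : ∀ x ∈ T, lev i B k j x = q) (am : ℝ) (ham : 0 ≤ am)
    (hcell : ∀ x ∈ T, ((T.filter fun y => lev i B k (j + 1) y = lev i B k (j + 1) x).card : ℝ) ≤
      am * ∏ l, ((B : ℝ) ^ (k l - j) / B)) :
    1.4 * (T.card : ℝ) ^ 2 * (iota φ (i + 1) : ℝ) ≤
      (κ : ℝ) ^ 2 * (iota φ i : ℝ) * (1.1 * am *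
        (((EE φ c (fun l => B ^ k l) (i + 1) (U (t + 1))).filter
          fun w => lev (i + 1) B k j w = q).card : ℝ) * (∏ l, (B : ℝ) ^ (k l - j)) +
        (T.card : ℝ) * (iota φ i : ℝ) * Real.sqrt B ^ D) := by
  have hB1 : 1 ≤ B := by
    have : 1 ≤ 10 ^ 4 * D ^ 3 := Nat.one_le_iff_ne_zero.2 (by positivity)
    omega
  have hBr : (0 : ℝ) < B := by exact_mod_cast hB1
  obtain ⟨C, cls, hC1, hC2, hC3⟩ := hl D r i φ
  have hgam : ∀ x ∈ T, Gam φ i x := by
    intro x hx
    obtain ⟨y, -, hy⟩ := (mem_EE.1 (hT x hx)).2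
    exact ⟨_, hy⟩
  obtain ⟨Ep, hEp⟩ : ∃ Ep, Ep = (EE φ c (fun l => B ^ k l) (i + 1) (U (t + 1))).filter
    fun w => lev (i + 1) B k j w = q := ⟨_, rfl⟩
  have h := hg D κ (iota φ i) (B : ℝ) am (fun l => (B : ℝ) ^ (k l - j) * (gt q l : ℝ))
    (fun l => (B : ℝ) ^ (k l - j)) (T.image (tor i)) (Ep.image (tor (i + 1))) C
    (fun w => cls (toz i w)) (Lab r) (fun w => toLab (φ (toz i w))) hD (by exact_mod_cast hB) hκ ham
    (fun l => by positivity) ?_ ?_ ?_ ?_ ?_
  · rw [Finset.card_image_of_injective _ (tor_inj i),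
      Finset.card_image_of_injective _ (tor_inj (i + 1))] at h
    rw [← hEp]
    have hC : (C.card : ℝ) * (iota φ (i + 1) : ℝ) = 2 ^ D * (iota φ i : ℝ) := by
      exact_mod_cast hC1
    have h2 := mul_le_mul_of_nonneg_right h (Nat.cast_nonneg (α := ℝ) (iota φ (i + 1)))
    have h3 : (2 : ℝ) ^ D * (1.4 * (T.card : ℝ) ^ 2 * (iota φ (i + 1) : ℝ)) ≤
        (2 : ℝ) ^ D * ((κ : ℝ) ^ 2 * (iota φ i : ℝ) * (1.1 * am * (Ep.card : ℝ) *
          (∏ l, (B : ℝ) ^ (k l - j)) + (T.card : ℝ) * (iota φ i : ℝ) * Real.sqrt B ^ D)) := by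
      calc _ = 1.4 * 2 ^ D * (T.card : ℝ) ^ 2 * (iota φ (i + 1) : ℝ) := by ring
        _ ≤ _ := h2
        _ = (κ : ℝ) ^ 2 * ((C.card : ℝ) * (iota φ (i + 1) : ℝ)) * (1.1 * am * (Ep.card : ℝ) *
          (∏ l, (B : ℝ) ^ (k l - j)) + (T.card : ℝ) * (iota φ i : ℝ) * Real.sqrt B ^ D) := by ring
        _ = _ := by rw [hC]; ring
    exact le_of_mul_le_mul_left h3 (by positivity)
  · -- in the box
    intro w hw l
    rw [Finset.mem_image] at hw
    obtain ⟨x, hx, rfl⟩ := hw
    have h1 := (lev_eq hB1).1 (hq x hx) l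
    have h2 : (2 : ℝ) ^ i * (B : ℝ) ^ (k l - j) * (gt q l : ℝ) ≤ (x l : ℝ) := by
      have := h1.1
      unfold sd at this
      exact_mod_cast this
    have h3 : (x l : ℝ) < (2 : ℝ) ^ i * (B : ℝ) ^ (k l - j) * ((gt q l : ℝ) + 1) := by
      have := h1.2
      unfold sd at this
      exact_mod_cast this
    have h4 : (0 : ℝ) < 2 ^ i := by positivity
    show (B : ℝ) ^ (k l - j) * (gt q l : ℝ) ≤ (x l : ℝ) / 2 ^ i ∧
      (x l : ℝ) / 2 ^ i ≤ (B : ℝ) ^ (k l - j) * (gt q l : ℝ) + (B : ℝ) ^ (k l - j)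
    rw [le_div_iff₀ h4, div_le_iff₀ h4]
    constructor
    · linarith
    · have : ((B : ℝ) ^ (k l - j) * (gt q l : ℝ) + (B : ℝ) ^ (k l - j)) * 2 ^ i =
          (2 : ℝ) ^ i * (B : ℝ) ^ (k l - j) * ((gt q l : ℝ) + 1) := by ring
      rw [this]
      exact h3.le
  · -- classes
    intro w hw
    rw [Finset.mem_image] at hw
    obtain ⟨x, hx, rfl⟩ := hw
    show cls (toz i (tor i x)) ∈ C
    rw [toz_tor]
    exact hC2 x (hgam x hx)
  · -- linked pairs
    intro f hf hcl
    have hx : ∀ s, ∃ x ∈ T, tor i x = f s := fun s => Finset.mem_image.1 (hf s)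
    choose x hxT hxf using hx
    have hy : ∀ s, ∃ y ∈ U t, φ (x s) = (2 ^ i : ℤ) • (y - c) :=
      fun s => (mem_EE.1 (hT _ (hxT s))).2
    choose y hyU hyφ using hy
    have himg : ∀ s, φ (toz i (f s)) = φ (x s) := by
      intro s
      rw [← hxf s, toz_tor]
    by_cases hinj : Function.Injective y
    · have hpar : ∀ s s', Par (y s) (y s') := by
        intro s s' l
        have h1 : cls (x s) = cls (x s') := by
          have := hcl s s'
          rw [← hxf s, ← hxf s', toz_tor, toz_tor] at this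
          exact this
        obtain ⟨u, hu⟩ := hC3 _ _ (hgam _ (hxT s)) (hgam _ (hxT s')) h1
        rw [map_sub, hyφ s, hyφ s', ← smul_sub, pow_succ, mul_smul] at hu
        have h2 : y s - c - (y s' - c) = (2 : ℤ) • u := by
          have h3 : (2 ^ i : ℤ) • ((y s - c - (y s' - c)) - (2 : ℤ) • u) = 0 := by
            rw [smul_sub, hu, sub_self]
          rcases smul_eq_zero.1 h3 with h4 | h4
          · exact absurd h4 (by positivity)
          · exact sub_eq_zero.1 h4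
        have h5 := congrFun h2 l
        refine ⟨u l, ?_⟩
        simp only [Pi.sub_apply, Pi.smul_apply, smul_eq_mul] at h5
        linarith
      obtain ⟨u, hu, v, hv, huv, z, hz, hzz⟩ := hU.link t (Finset.univ.image y) (by
          intro u hu
          rw [Finset.mem_image] at hu
          obtain ⟨s, -, rfl⟩ := hu
          exact hyU s) (by
          intro u hu v hv
          rw [Finset.mem_image] at hu hv
          obtain ⟨s, -, rfl⟩ := hu
          obtain ⟨s', -, rfl⟩ := hv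
          exact hpar s s') (by
          rw [Finset.card_image_of_injective _ hinj, Finset.card_univ, Fintype.card_fin])
      rw [Finset.mem_image] at hu hv
      obtain ⟨s, -, rfl⟩ := hu
      obtain ⟨s', -, rfl⟩ := hv
      have hss : s ≠ s' := fun h => huv (by rw [h])
      have key : ∀ a b : Fin κ, z + z = y a + y b →
          ∃ m ∈ Ep.image (tor (i + 1)), m + m = f a + f b := by
        intro a b hab
        refine ⟨tor (i + 1) (x a + x b), Finset.mem_image_of_mem _ ?_, ?_⟩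
        · rw [hEp]
          exact mid_mem φ c k i j hB1 (U t) (U (t + 1)) q _ _ _ _ _ (hT _ (hxT a))
            (hT _ (hxT b)) (hq _ (hxT a)) (hq _ (hxT b)) (hyφ a) (hyφ b) hz hab
        · rw [← hxf a, ← hxf b]
          funext l
          simp only [tor, Pi.add_apply, pow_succ]
          push_cast
          field_simp
          ring
      rcases lt_or_gt_of_ne hss with h1 | h1
      · exact ⟨s, s', h1, Or.inr (key s s' hzz)⟩
      · exact ⟨s', s, h1, Or.inr (key s' s (by rw [hzz, add_comm]))⟩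
    · rw [Function.Injective] at hinj
      push Not at hinj
      obtain ⟨s, s', h1, h2⟩ := hinj
      have h3 : φ (toz i (f s)) = φ (toz i (f s')) := by
        rw [himg, himg, hyφ, hyφ, h1]
      rcases lt_or_gt_of_ne h2 with h4 | h4
      · exact ⟨s, s', h4, Or.inl (congrArg toLab h3)⟩
      · exact ⟨s', s, h4, Or.inl (congrArg toLab h3.symm)⟩
  · -- the fibres of the image map
    intro w hw
    rw [Finset.mem_image] at hw
    obtain ⟨x, hx, rfl⟩ := hw
    refine (Finset.card_le_card (t := (T.filter fun x' => φ x' = φ x).image (tor i)) ?_).trans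
      (Finset.card_image_le.trans
      (F_bound (B := B) φ k i hker (T.filter fun x' => φ x' = φ x) ?_ ?_ (φ x) ?_))
    · intro w' hw'
      rw [Finset.mem_filter, Finset.mem_image] at hw'
      obtain ⟨⟨x', hx', rfl⟩, h2⟩ := hw'
      rw [toz_tor, toz_tor] at h2
      have h3 : φ x' = φ x := h2
      exact Finset.mem_image_of_mem _ (Finset.mem_filter.2 ⟨hx', h3⟩)
    · intro x' hx' l
      have := (mem_EE.1 (hT x' (Finset.mem_filter.1 hx').1)).1 l
      push_cast at this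
      exact this
    · intro x' hx'
      exact hgam x' (Finset.mem_filter.1 hx').1
    · intro x' hx'
      exact (Finset.mem_filter.1 hx').2
  · -- the cells
    intro v
    have hcl : ∀ x ∈ T, (∀ l, ⌊(tor i x l - (B : ℝ) ^ (k l - j) * (gt q l : ℝ)) * (B : ℝ) /
        (B : ℝ) ^ (k l - j)⌋ = v l) →
        lev i B k (j + 1) x = toLab fun l => v l + B * gt q l := by
      intro x hx hfl
      rw [lev_eq hB1]
      intro l
      have h1 := Int.floor_eq_iff.1 (hfl l)
      have h5 : k l - j = (k l - (j + 1)) + 1 := by have := hk l; omega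
      have hP : (0 : ℝ) < (B : ℝ) ^ (k l - (j + 1)) := by positivity
      have h6 : (tor i x l - (B : ℝ) ^ (k l - j) * (gt q l : ℝ)) * (B : ℝ) /
          (B : ℝ) ^ (k l - j) =
          (x l : ℝ) / (2 ^ i * (B : ℝ) ^ (k l - (j + 1))) - B * (gt q l : ℝ) := by
        unfold tor
        rw [h5, pow_succ]
        field_simp
      rw [h6] at h1
      have h7 : (0 : ℝ) < 2 ^ i * (B : ℝ) ^ (k l - (j + 1)) := by positivity
      have h8 : ((v l : ℝ) + B * (gt q l : ℝ)) * (2 ^ i * (B : ℝ) ^ (k l - (j + 1))) ≤ x l := by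
        rw [← le_div_iff₀ h7]
        linarith [h1.1]
      have h9 : (x l : ℝ) < ((v l : ℝ) + B * (gt q l : ℝ) + 1) *
          (2 ^ i * (B : ℝ) ^ (k l - (j + 1))) := by
        rw [← div_lt_iff₀ h7]
        linarith [h1.2]
      unfold sd
      have h10 : ((2 ^ i * (B : ℤ) ^ (k l - (j + 1)) * (v l + B * gt q l) : ℤ) : ℝ) ≤ x l := by
        push_cast
        linarith
      have h11 : (x l : ℝ) <
          ((2 ^ i * (B : ℤ) ^ (k l - (j + 1)) * (v l + B * gt q l + 1) : ℤ) : ℝ) := by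
        push_cast
        linarith
      exact ⟨by exact_mod_cast h10, by exact_mod_cast h11⟩
    obtain ⟨v', hv'⟩ : ∃ v' : Lab D, v' = toLab fun l => v l + B * gt q l := ⟨_, rfl⟩
    have hle : (((T.image (tor i)).filter fun w => ∀ l,
        ⌊(w l - (B : ℝ) ^ (k l - j) * (gt q l : ℝ)) * (B : ℝ) / (B : ℝ) ^ (k l - j)⌋ =
          v l).card : ℝ) ≤ ((T.filter fun y => lev i B k (j + 1) y = v').card : ℝ) := by
      have : ((T.image (tor i)).filter fun w => ∀ l,
        ⌊(w l - (B : ℝ) ^ (k l - j) * (gt q l : ℝ)) * (B : ℝ) / (B : ℝ) ^ (k l - j)⌋ =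
          v l) ⊆ (T.filter fun y => lev i B k (j + 1) y = v').image (tor i) := by
        intro w hw
        rw [Finset.mem_filter, Finset.mem_image] at hw
        obtain ⟨⟨x, hx, rfl⟩, h2⟩ := hw
        exact Finset.mem_image_of_mem _ (Finset.mem_filter.2 ⟨hx, by rw [hv']; exact hcl x hx h2⟩)
      exact_mod_cast (Finset.card_le_card this).trans Finset.card_image_le
    refine hle.trans ?_
    rcases (T.filter fun y => lev i B k (j + 1) y = v').eq_empty_or_nonempty with h0 | ⟨x0, hx0⟩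
    · rw [h0, Finset.card_empty, Nat.cast_zero]
      exact mul_nonneg ham (Finset.prod_nonneg fun l _ => by positivity)
    · rw [Finset.mem_filter] at hx0
      have := hcell x0 hx0.1
      rw [hx0.2] at this
      exact this

/-- the real inequality in one box -/
theorem real_box (T e P I I' K X s m a v B1 : ℝ) (hI : 1 ≤ I) (hII : I ≤ I') (hK : 0 < K)
    (hX : 0 < X) (hP : 0 ≤ P) (he : 0 < e) (hTe : e / 2 ≤ T) (hs0 : 0 ≤ s) (hsB : s ≤ B1)
    (hm : 0 < m) (he2 : a * I * v / (4 * m) ≤ e) (hv : 12 * K * (B1 * m) ≤ a * v)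
    (h : 1.4 * T ^ 2 * I' ≤ K * I * (1.1 * (X * e) * P + T * I * s)) :
    0.175 / 1.1 * (I' * e) ≤ K * I * X * P := by
  have hI0 : 0 < I := by linarith
  have hI'0 : 0 < I' := by linarith
  have hT : 0 < T := by linarith
  have h1 : 12 * K * B1 * I / 4 ≤ e := by
    refine le_trans ?_ he2
    rw [le_div_iff₀ (by positivity)]
    have : 12 * K * B1 * I / 4 * (4 * m) = (12 * K * (B1 * m)) * I := by ring
    rw [this]
    calc (12 * K * (B1 * m)) * I ≤ (a * v) * I := mul_le_mul_of_nonneg_right hv hI0.le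
      _ = a * I * v := by ring
  have h2 : K * I ^ 2 * s ≤ 0.7 * T * I' := by
    have h3 : K * I ^ 2 * s ≤ K * I * I' * B1 := by
      calc K * I ^ 2 * s = (K * I) * (I * s) := by ring
        _ ≤ (K * I) * (I' * B1) := by
            apply mul_le_mul_of_nonneg_left _ (by positivity)
            exact mul_le_mul hII hsB hs0 hI'0.le
        _ = _ := by ring
    have h4 : K * I * I' * B1 ≤ 0.7 * T * I' := by
      have h5 : K * I * B1 ≤ 0.7 * T := by nlinarith
      calc K * I * I' * B1 = (K * I * B1) * I' := by ring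
        _ ≤ (0.7 * T) * I' := mul_le_mul_of_nonneg_right h5 hI'0.le
    exact h3.trans h4
  have h6 : K * I * (T * I * s) ≤ 0.7 * T ^ 2 * I' := by
    calc K * I * (T * I * s) = T * (K * I ^ 2 * s) := by ring
      _ ≤ T * (0.7 * T * I') := mul_le_mul_of_nonneg_left h2 hT.le
      _ = _ := by ring
  have h7 : 0.7 * T ^ 2 * I' ≤ 1.1 * (K * I * X * P) * e := by
    have : K * I * (1.1 * (X * e) * P + T * I * s) =
      1.1 * (K * I * X * P) * e + K * I * (T * I * s) := by ring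
    rw [this] at h
    linarith
  have h8 : 0.175 * (e ^ 2 * I') ≤ 0.7 * T ^ 2 * I' := by
    have h9 : (e / 2) ^ 2 ≤ T ^ 2 := pow_le_pow_left₀ (by positivity) hTe 2
    calc 0.175 * (e ^ 2 * I') = 0.7 * (e / 2) ^ 2 * I' := by ring
      _ ≤ 0.7 * T ^ 2 * I' := by
        apply mul_le_mul_of_nonneg_right _ hI'0.le
        linarith
  have h10 : (0.175 * (I' * e)) * e ≤ (1.1 * (K * I * X * P)) * e := by
    calc (0.175 * (I' * e)) * e = 0.175 * (e ^ 2 * I') := by ring
      _ ≤ _ := h8.trans h7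
  have h11 := le_of_mul_le_mul_right h10 he
  have : 0.175 / 1.1 * (I' * e) = (0.175 * (I' * e)) / 1.1 := by ring
  rw [this, div_le_iff₀ (by norm_num)]
  linarith

end LRR_

open LRR_ in
theorem lrr_proof (hs : Stmt_SCL) (hg : Stmt_GBX) (hco : Stmt_LCO) (hcl : Stmt_LCL)
    (hio : Stmt_IOT) : Stmt_LRR := by
  intro D r B n κ φ c k N U t i a hD hB hn hκ hU hk hker ha0 ha1 hE hvol
  have hB1 : 1 ≤ B := by
    have : 1 ≤ 10 ^ 4 * D ^ 3 := Nat.one_le_iff_ne_zero.2 (by positivity)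
    omega
  have hBr : (1 : ℝ) ≤ B := by exact_mod_cast hB1
  have hB0 : (0 : ℝ) < B := by linarith
  have hI1 : (1 : ℝ) ≤ (iota φ i : ℝ) := by
    have h1 := (hio D r i φ).1
    have h2 : 1 ≤ 2 ^ (i * Module.finrank ℤ (LinearMap.ker φ)) := Nat.one_le_two_pow
    exact_mod_cast h2.trans h1
  have hII : (iota φ i : ℝ) ≤ (iota φ (i + 1) : ℝ) := by exact_mod_cast (hio D r i φ).2.1
  obtain ⟨vB, hvB⟩ : ∃ vB, vB = vol fun l => B ^ k l := ⟨_, rfl⟩
  have hvB' : vB = ∏ l, (B : ℝ) ^ k l := by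
    rw [hvB]
    unfold vol
    push_cast
    rfl
  have hvB0 : 0 < vB := by
    rw [hvB']
    exact Finset.prod_pos fun l _ => by positivity
  rw [← hvB] at hE hvol ⊢
  obtain ⟨E, hEd⟩ : ∃ E, E = EE φ c (fun l => B ^ k l) i (U t) := ⟨_, rfl⟩
  rw [← hEd] at hE
  obtain ⟨E2, hE2⟩ : ∃ E2, E2 = EE φ c (fun l => B ^ k l) (i + 1) (U (t + 1)) := ⟨_, rfl⟩
  rw [← hE2]
  have hI0 : (0 : ℝ) < (iota φ i : ℝ) := by linarith
  obtain ⟨V, hV⟩ : ∃ V, V = (iota φ i : ℝ) * vB := ⟨_, rfl⟩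
  have hV0 : 0 < V := by rw [hV]; positivity
  have hEV : a * V ≤ (E.card : ℝ) := by
    rw [hV, ← mul_assoc]
    exact hE
  have hEc : (0 : ℝ) < (E.card : ℝ) := lt_of_lt_of_le (by positivity) hEV
  have hEne : E.Nonempty := by
    rw [← Finset.card_pos]
    exact_mod_cast hEc
  have hgam : ∀ x ∈ E, Gam φ i x := by
    intro x hx
    rw [hEd] at hx
    obtain ⟨y, -, hy⟩ := (mem_EE.1 hx).2
    exact ⟨_, hy⟩
  have hprodj : ∀ j ≤ n, (∏ l, (B : ℝ) ^ (k l - j)) * ((B : ℝ) ^ D) ^ j = vB := by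
    intro j hj
    have hpc : ((B : ℝ) ^ D) ^ j = ∏ _l : Fin D, (B : ℝ) ^ j := by
      rw [Finset.prod_const, Finset.card_univ, Fintype.card_fin, ← pow_mul, ← pow_mul, mul_comm]
    rw [hvB', hpc, ← Finset.prod_mul_distrib]
    refine Finset.prod_congr rfl fun l _ => ?_
    rw [← pow_add]
    congr 1
    have := hk l
    omega
  have hs1 : ∀ j < n, ∀ x ∈ E, ∀ y ∈ E, lev i B k (j + 1) x = lev i B k (j + 1) y →
      lev i B k j x = lev i B k j y := by
    intro j hj x _ y _ hxy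
    refine lab_ext fun l => ?_
    have h1 : j + 1 ≤ k l := by have := hk l; omega
    rw [lev_succ i B k j l x hB1 h1, lev_succ i B k j l y hB1 h1, hxy]
  have hs2 : ∀ x ∈ E, ∀ y ∈ E, lev i B k 0 x = lev i B k 0 y := by
    have h0 : ∀ x ∈ E, lev i B k 0 x = toLab 0 := by
      intro x hx
      rw [hEd] at hx
      rw [lev_eq hB1]
      intro l
      have h1 := (mem_EE.1 hx).1 l
      have h2 : gt (toLab (0 : Fin D → ℤ)) l = 0 := rfl
      rw [h2]
      unfold sd
      push_cast at h1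
      rw [Nat.sub_zero, mul_zero, zero_add, mul_one]
      exact h1
    intro x hx y hy
    rw [h0 x hx, h0 y hy]
  have hs3 : ∀ j < n, ∀ x ∈ E, ((E.filter fun y => lev i B k j y = lev i B k j x).image
      (lev i B k (j + 1))).card ≤ B ^ D := by
    intro j hj x hx
    exact children k i j hB1 (fun l => by have := hk l; omega) (lev i B k j x) _
      fun y hy => (Finset.mem_filter.1 hy).2
  have hs4 : ∀ x ∈ E, (((E.filter fun y => lev i B k n y = lev i B k n x).card : ℝ)) ≤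
      V / ((B ^ D : ℕ) : ℝ) ^ n := by
    intro x hx
    have h1 := box_count hco φ k i n hB1 (lev i B k n x)
      (E.filter fun y => lev i B k n y = lev i B k n x)
      (fun y hy => (Finset.mem_filter.1 hy).2)
      (fun y hy => hgam y (Finset.mem_filter.1 hy).1)
    have h2 : (((E.filter fun y => lev i B k n y = lev i B k n x).card : ℕ) : ℝ) ≤
        (iota φ i : ℝ) * ∏ l, (B : ℝ) ^ (k l - n) := by exact_mod_cast h1
    refine h2.trans ?_
    rw [le_div_iff₀ (by positivity), hV, ← hprodj n le_rfl]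
    push_cast
    exact le_of_eq (by ring)
  obtain ⟨j, hj, good, E', hE', hgood, hsum, hprop⟩ := hs (Fin D → ℤ) (Lab D) E n (B ^ D)
    (fun j x => lev i B k j x) V hEne hn (Nat.one_le_pow _ _ hB1) hV0 hs1 hs2 hs3 hs4
  push_cast at hprop
  obtain ⟨X, hX⟩ : ∃ X, X = Real.exp (8 * (Real.log (V / (E.card : ℝ)) / n) + 1) := ⟨_, rfl⟩
  have hX0 : 0 < X := by rw [hX]; exact Real.exp_pos _
  have hm0 : (0 : ℝ) < ((B : ℝ) ^ D) ^ j := by positivity
  have hS0 : (0 : ℝ) < ∏ l, (B : ℝ) ^ (k l - j) := Finset.prod_pos fun l _ => by positivity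
  have hbox : ∀ q ∈ good, 0.175 / 1.1 * ((iota φ (i + 1) : ℝ) *
      ((E.filter fun y => lev i B k j y = q).card : ℝ)) ≤
      (κ : ℝ) ^ 2 * (iota φ i : ℝ) * X *
        ((E2.filter fun w => lev (i + 1) B k j w = q).card : ℝ) := by
    intro q hq
    obtain ⟨p1, p2, p3⟩ := hprop q hq
    obtain ⟨e, he⟩ : ∃ e, e = ((E.filter fun y => lev i B k j y = q).card : ℝ) := ⟨_, rfl⟩
    rw [← he] at p1 p2 p3 ⊢
    have he0 : 0 < e := lt_of_lt_of_le (by positivity) p2
    obtain ⟨T, hT⟩ : ∃ T, T = E'.filter fun y => lev i B k j y = q := ⟨_, rfl⟩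
    rw [← hT] at p1
    have hTm : ∀ x ∈ T, x ∈ E' ∧ lev i B k j x = q := by
      intro x hx
      rw [hT, Finset.mem_filter] at hx
      exact hx
    have hb := good_box (B := B) hg hcl φ c k N U t i j hD hB hκ hU
      (fun l => by have := hk l; omega) hker T
      (fun x hx => by rw [← hEd]; exact hE' (hTm x hx).1) q (fun x hx => (hTm x hx).2)
      (X * e / ∏ l, (B : ℝ) ^ (k l - j)) (by positivity) ?_
    · rw [← hE2] at hb
      have hb2 : 1.4 * (T.card : ℝ) ^ 2 * (iota φ (i + 1) : ℝ) ≤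
          (κ : ℝ) ^ 2 * (iota φ i : ℝ) * (1.1 * (X * e) *
            ((E2.filter fun w => lev (i + 1) B k j w = q).card : ℝ) +
            (T.card : ℝ) * (iota φ i : ℝ) * Real.sqrt B ^ D) := by
        refine hb.trans (le_of_eq ?_)
        congr 2
        field_simp
      refine real_box (T.card : ℝ) e _ (iota φ i : ℝ) (iota φ (i + 1) : ℝ) ((κ : ℝ) ^ 2) X
        (Real.sqrt B ^ D) (((B : ℝ) ^ D) ^ j) a vB ((B : ℝ) ^ D) hI1 hII (by positivity) hX0
        (Nat.cast_nonneg _) he0 p1 (by positivity) ?_ hm0 ?_ ?_ hb2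
      · apply pow_le_pow_left₀ (Real.sqrt_nonneg _)
        rw [Real.sqrt_le_left (by positivity)]
        nlinarith
      · refine le_trans ?_ p2
        apply div_le_div_of_nonneg_right hE (by positivity)
      · have h1 : 12 * (κ : ℝ) ^ 2 * (B : ℝ) ^ (n * D) ≤ a * vB := by
          rw [div_le_iff₀ ha0] at hvol
          linarith
        refine le_trans ?_ h1
        apply mul_le_mul_of_nonneg_left _ (by positivity)
        rw [← pow_succ', ← pow_mul]
        apply pow_le_pow_right₀ hBr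
        rw [mul_comm n D]
        exact Nat.mul_le_mul_left D hj
    · intro x hx
      have h1 := p3 x (hTm x hx).1 (hTm x hx).2
      have h2 : ((T.filter fun y => lev i B k (j + 1) y = lev i B k (j + 1) x).card : ℝ) ≤
          ((E.filter fun y => lev i B k (j + 1) y = lev i B k (j + 1) x).card : ℝ) := by
        exact_mod_cast Finset.card_le_card (Finset.filter_subset_filter _
          (fun z hz => hE' (hTm z hz).1))
      refine h2.trans ?_
      rw [Finset.prod_div_distrib, Finset.prod_const, Finset.card_univ, Fintype.card_fin]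
      have h3 : X * e / (∏ l, (B : ℝ) ^ (k l - j)) * ((∏ l, (B : ℝ) ^ (k l - j)) /
          (B : ℝ) ^ D) = X * e / (B : ℝ) ^ D := by
        field_simp
      rw [h3, le_div_iff₀ (by positivity), hX]
      exact h1
  have hsum2 : ∑ q ∈ good, ((E2.filter fun w => lev (i + 1) B k j w = q).card : ℝ) ≤
      (E2.card : ℝ) := by
    have h1 := Finset.sum_card_fiberwise_eq_card_filter E2 good (fun w => lev (i + 1) B k j w)
    have h2 := Finset.card_filter_le E2 (fun w => lev (i + 1) B k j w ∈ good)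
    rw [← h1] at h2
    exact_mod_cast h2
  have hmain : 0.175 / 1.1 * ((iota φ (i + 1) : ℝ) * ((E.card : ℝ) / 2)) ≤
      (κ : ℝ) ^ 2 * (iota φ i : ℝ) * X * (E2.card : ℝ) := by
    have hc1 : (0 : ℝ) ≤ 0.175 / 1.1 * (iota φ (i + 1) : ℝ) := by positivity
    have hc2 : (0 : ℝ) ≤ (κ : ℝ) ^ 2 * (iota φ i : ℝ) * X := by positivity
    calc 0.175 / 1.1 * ((iota φ (i + 1) : ℝ) * ((E.card : ℝ) / 2))
        = 0.175 / 1.1 * (iota φ (i + 1) : ℝ) * ((E.card : ℝ) / 2) := by ring
      _ ≤ 0.175 / 1.1 * (iota φ (i + 1) : ℝ) *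
          ∑ q ∈ good, ((E.filter fun y => lev i B k j y = q).card : ℝ) :=
          mul_le_mul_of_nonneg_left hsum hc1
      _ = ∑ q ∈ good, 0.175 / 1.1 * ((iota φ (i + 1) : ℝ) *
          ((E.filter fun y => lev i B k j y = q).card : ℝ)) := by
          rw [Finset.mul_sum]
          exact Finset.sum_congr rfl fun q _ => by ring
      _ ≤ ∑ q ∈ good, (κ : ℝ) ^ 2 * (iota φ i : ℝ) * X *
          ((E2.filter fun w => lev (i + 1) B k j w = q).card : ℝ) := Finset.sum_le_sum hbox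
      _ = (κ : ℝ) ^ 2 * (iota φ i : ℝ) * X *
          ∑ q ∈ good, ((E2.filter fun w => lev (i + 1) B k j w = q).card : ℝ) := by
          rw [Finset.mul_sum]
      _ ≤ _ := mul_le_mul_of_nonneg_left hsum2 hc2
  -- final estimate
  have hn0 : (0 : ℝ) < n := by exact_mod_cast hn
  have hlog : Real.log (V / (E.card : ℝ)) ≤ Real.log (1 / a) := by
    apply Real.log_le_log (by positivity)
    rw [div_le_div_iff₀ hEc ha0]
    linarith
  have hXle : X ≤ Real.exp (8 * (Real.log (1 / a) / n)) * Real.exp 1 := by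
    rw [hX, Real.exp_add]
    apply mul_le_mul_of_nonneg_right _ (Real.exp_pos 1).le
    apply Real.exp_le_exp.2
    have := div_le_div_of_nonneg_right hlog hn0.le
    linarith
  have hexp1 : Real.exp 1 < 2.7182818286 := Real.exp_one_lt_d9
  obtain ⟨G, hG⟩ : ∃ G, G = Real.exp (8 * (Real.log (1 / a) / n)) := ⟨_, rfl⟩
  have hG0 : 0 < G := by rw [hG]; exact Real.exp_pos _
  rw [← hG] at hXle
  rw [Real.exp_neg, ← hG]
  have hκ0 : (0 : ℝ) < (κ : ℝ) ^ 2 := by
    have : (0 : ℝ) < κ := by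
      have : 0 < κ := by omega
      exact_mod_cast this
    positivity
  have hc3 : (0 : ℝ) ≤ (E2.card : ℝ) := Nat.cast_nonneg _
  have h20 : 0.175 / 1.1 * ((iota φ (i + 1) : ℝ) * ((E.card : ℝ) / 2)) ≤
      (κ : ℝ) ^ 2 * (iota φ i : ℝ) * (G * Real.exp 1) * (E2.card : ℝ) := by
    refine hmain.trans ?_
    apply mul_le_mul_of_nonneg_right _ hc3
    exact mul_le_mul_of_nonneg_left hXle (by positivity)
  have h21 : 0.175 / 1.1 * ((iota φ (i + 1) : ℝ) * (a * ((iota φ i : ℝ) * vB) / 2)) ≤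
      (κ : ℝ) ^ 2 * (iota φ i : ℝ) * (G * Real.exp 1) * (E2.card : ℝ) := by
    refine le_trans ?_ h20
    have hI'0 : (0 : ℝ) ≤ (iota φ (i + 1) : ℝ) := Nat.cast_nonneg _
    apply mul_le_mul_of_nonneg_left _ (by norm_num)
    apply mul_le_mul_of_nonneg_left _ hI'0
    rw [← hV]
    linarith
  have h22 : (iota φ i : ℝ) * (0.175 / 1.1 * ((iota φ (i + 1) : ℝ) * (a * vB / 2))) ≤
      (iota φ i : ℝ) * ((κ : ℝ) ^ 2 * (G * Real.exp 1) * (E2.card : ℝ)) := by
    calc _ = 0.175 / 1.1 * ((iota φ (i + 1) : ℝ) * (a * ((iota φ i : ℝ) * vB) / 2)) := by ring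
      _ ≤ _ := h21
      _ = _ := by ring
  have h23 := le_of_mul_le_mul_left h22 hI0
  have h24 : (κ : ℝ) ^ 2 * (G * Real.exp 1) * (E2.card : ℝ) ≤
      (κ : ℝ) ^ 2 * (G * 2.7182818286) * (E2.card : ℝ) := by
    apply mul_le_mul_of_nonneg_right _ hc3
    apply mul_le_mul_of_nonneg_left _ hκ0.le
    exact mul_le_mul_of_nonneg_left hexp1.le hG0.le
  have h25 := h23.trans h24
  rw [div_le_iff₀ (by positivity)]
  have h26 : (iota φ (i + 1) : ℝ) * vB * a * G⁻¹ ≤ 40 * ((κ : ℝ) ^ 2 * (E2.card : ℝ)) := by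
    rw [← div_eq_mul_inv, div_le_iff₀ hG0]
    have h27 : 0.175 / 1.1 * ((iota φ (i + 1) : ℝ) * (a * vB / 2)) =
      (0.175 / 2.2) * ((iota φ (i + 1) : ℝ) * vB * a) := by ring
    rw [h27] at h25
    have h28 : 0 ≤ (κ : ℝ) ^ 2 * G * (E2.card : ℝ) := by positivity
    have h29 : (κ : ℝ) ^ 2 * (G * 2.7182818286) * (E2.card : ℝ) =
      2.7182818286 * ((κ : ℝ) ^ 2 * G * (E2.card : ℝ)) := by ring
    rw [h29] at h25
    have h30 : 40 * ((κ : ℝ) ^ 2 * (E2.card : ℝ)) * G =
      40 * ((κ : ℝ) ^ 2 * G * (E2.card : ℝ)) := by ring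
    rw [h30]
    linarith
  linarith

end Pool.Agent.EMS
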