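import Pool.Agent.EMS.StmtsC

set_option autoImplicit false

open Finset
open scoped BigOperators Classical Pointwise

namespace Pool.Agent.EMS

theorem LTM_box_card {r : ℕ} (N : Fin r → ℕ) : ((box N).card : ℝ) = vol N := by
  unfold box vol
  rw [Fintype.card_piFinset]
  push_cast
  apply Finset.prod_congr rfl
  intro l _
  simp

theorem ltm_proof : Stmt_LTM := by
  intro r m N C U τ Φ0 CL hU hfin hΦ0 hτ hCL
  obtain ⟨T, hT⟩ := hfin
  have hempty : ∀ t, T ≤ t → Phi C U t = 0 := by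
    intro t ht
    unfold Phi
    rw [hT t ht]
    simp
  -- last time
  set S : Finset ℕ := (Finset.range T).filter fun t => Φ0 ≤ Phi C U t with hS
  have hτS : τ ∈ S := by
    rw [hS, Finset.mem_filter, Finset.mem_range]
    refine ⟨?_, hτ⟩
    by_contra hcon
    rw [hempty τ (by omega)] at hτ
    linarith
  have hne : S.Nonempty := ⟨τ, hτS⟩
  set t := S.max' hne with ht
  have htS : t ∈ S := Finset.max'_mem S hne
  have htΦ : Φ0 ≤ Phi C U t := (Finset.mem_filter.mp htS).2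
  have hτt : τ ≤ t := Finset.le_max' S τ hτS
  have hlast : ∀ t' > t, Phi C U t' < Φ0 := by
    intro t' ht'
    by_contra hcon
    have h1 : Φ0 ≤ Phi C U t' := not_lt.mp hcon
    have h2 : t' ∈ S := by
      rw [hS, Finset.mem_filter, Finset.mem_range]
      refine ⟨?_, h1⟩
      by_contra hcon2
      rw [hempty t' (by omega)] at h1
      linarith
    have := Finset.le_max' S t' h2
    omega
  -- levels
  set n : Fin m → ℕ := fun i => (U t ∩ C i).card with hn
  have hnvol : ∀ i, (n i : ℝ) ≤ vol N := by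
    intro i
    rw [← LTM_box_card N]
    exact_mod_cast Finset.card_le_card ((Finset.inter_subset_left).trans (hU t))
  set A : Finset (Fin m) := Finset.univ.filter fun i => 1 ≤ n i with hA
  have hPhiA : Phi C U t = ∑ i ∈ A, Real.sqrt (n i : ℝ) := by
    unfold Phi
    rw [hA, Finset.sum_filter]
    apply Finset.sum_congr rfl
    intro i _
    by_cases h : 1 ≤ n i
    · rw [if_pos h]
    · rw [if_neg h]
      have h0 : (U t ∩ C i).card = 0 := by
        have : n i = 0 := by omega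
        exact this
      rw [h0]
      simp
  have hAne : A.Nonempty := by
    by_contra hcon
    rw [Finset.not_nonempty_iff_eq_empty] at hcon
    rw [hPhiA, hcon, Finset.sum_empty] at htΦ
    linarith
  obtain ⟨i0, hi0⟩ := hAne
  have hvol1 : 1 ≤ vol N := by
    have h1 : (1 : ℝ) ≤ (n i0 : ℝ) := by exact_mod_cast (Finset.mem_filter.mp hi0).2
    exact h1.trans (hnvol i0)
  have hlog2 : 0 < Real.log 2 := Real.log_pos (by norm_num)
  set K : ℕ := ⌊Real.log (vol N) / Real.log 2⌋₊ with hK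
  have hlogv : 0 ≤ Real.log (vol N) := Real.log_nonneg hvol1
  have hKle : (K : ℝ) ≤ Real.log (vol N) / Real.log 2 :=
    Nat.floor_le (div_nonneg hlogv hlog2.le)
  have hlev : ∀ i ∈ A, Nat.log 2 (n i) ∈ Finset.range (K + 1) := by
    intro i hi
    rw [Finset.mem_range, Nat.lt_succ_iff, hK]
    apply Nat.le_floor
    rw [le_div_iff₀ hlog2]
    have h1 : 1 ≤ n i := (Finset.mem_filter.mp hi).2
    have h2 : 2 ^ (Nat.log 2 (n i)) ≤ n i := Nat.pow_log_le_self 2 (by omega)
    have h3 : ((2 : ℝ)) ^ (Nat.log 2 (n i)) ≤ vol N := by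
      refine le_trans ?_ (hnvol i)
      exact_mod_cast h2
    have h4 := Real.log_le_log (by positivity) h3
    rw [Real.log_pow] at h4
    exact h4
  have hsplit : ∑ i ∈ A, Real.sqrt (n i : ℝ) =
      ∑ k ∈ Finset.range (K + 1), ∑ i ∈ A.filter (fun i => Nat.log 2 (n i) = k),
        Real.sqrt (n i : ℝ) := by
    rw [Finset.sum_fiberwise_of_maps_to hlev]
  -- pigeonhole
  have hex : ∃ k ∈ Finset.range (K + 1), Phi C U t / ((K : ℝ) + 1) ≤
      ∑ i ∈ A.filter (fun i => Nat.log 2 (n i) = k), Real.sqrt (n i : ℝ) := by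
    by_contra hcon
    push Not at hcon
    have h1 : ∑ k ∈ Finset.range (K + 1), ∑ i ∈ A.filter (fun i => Nat.log 2 (n i) = k),
        Real.sqrt (n i : ℝ) < ∑ _k ∈ Finset.range (K + 1), Phi C U t / ((K : ℝ) + 1) := by
      apply Finset.sum_lt_sum_of_nonempty
      · exact ⟨0, Finset.mem_range.mpr (by omega)⟩
      · exact hcon
    rw [← hsplit, ← hPhiA, Finset.sum_const, Finset.card_range, nsmul_eq_mul] at h1
    push_cast at h1
    have h2 : ((K : ℝ) + 1) * (Phi C U t / ((K : ℝ) + 1)) = Phi C U t := by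
      field_simp
    linarith
  obtain ⟨k, hk, hkk⟩ := hex
  refine ⟨t, 2 ^ k, A.filter (fun i => Nat.log 2 (n i) = k), hτt, hlast, Nat.one_le_two_pow, ?_, ?_⟩
  · intro i hi
    rw [Finset.mem_filter] at hi
    have h1 : 1 ≤ n i := (Finset.mem_filter.mp hi.1).2
    have h2 : 2 ^ (Nat.log 2 (n i)) ≤ n i := Nat.pow_log_le_self 2 (by omega)
    rw [hi.2] at h2
    exact h2
  · set I := A.filter (fun i => Nat.log 2 (n i) = k) with hI
    have h1 : ∑ i ∈ I, Real.sqrt (n i : ℝ) ≤ ∑ _i ∈ I, 2 * Real.sqrt ((2 ^ k : ℕ) : ℝ) := by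
      apply Finset.sum_le_sum
      intro i hi
      have hi' := (Finset.mem_filter.mp hi).2
      have h2 : n i < 2 ^ (Nat.log 2 (n i) + 1) := Nat.lt_pow_succ_log_self (by norm_num) _
      rw [hi'] at h2
      have h3 : (n i : ℝ) ≤ 2 ^ 2 * ((2 ^ k : ℕ) : ℝ) := by
        have h4 : n i ≤ 2 ^ 2 * 2 ^ k := by
          rw [pow_succ] at h2
          omega
        exact_mod_cast h4
      calc Real.sqrt (n i : ℝ) ≤ Real.sqrt (2 ^ 2 * ((2 ^ k : ℕ) : ℝ)) := Real.sqrt_le_sqrt h3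
        _ = 2 * Real.sqrt ((2 ^ k : ℕ) : ℝ) := by
            rw [Real.sqrt_mul (by norm_num), Real.sqrt_sq (by norm_num)]
    rw [Finset.sum_const, nsmul_eq_mul] at h1
    have hK1 : 0 < (K : ℝ) + 1 := by positivity
    have h2 : Phi C U t ≤ ((K : ℝ) + 1) * ∑ i ∈ I, Real.sqrt (n i : ℝ) := by
      rw [div_le_iff₀ hK1] at hkk
      linarith
    have h3 : ((K : ℝ) + 1) * 2 ≤ CL := by linarith
    have hsq : 0 ≤ Real.sqrt ((2 ^ k : ℕ) : ℝ) := Real.sqrt_nonneg _
    have hIc : (0 : ℝ) ≤ (I.card : ℝ) := by positivity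
    calc Φ0 ≤ Phi C U t := htΦ
      _ ≤ ((K : ℝ) + 1) * ∑ i ∈ I, Real.sqrt (n i : ℝ) := h2
      _ ≤ ((K : ℝ) + 1) * ((I.card : ℝ) * (2 * Real.sqrt ((2 ^ k : ℕ) : ℝ))) :=
          mul_le_mul_of_nonneg_left h1 hK1.le
      _ = (((K : ℝ) + 1) * 2) * ((I.card : ℝ) * Real.sqrt ((2 ^ k : ℕ) : ℝ)) := by ring
      _ ≤ CL * ((I.card : ℝ) * Real.sqrt ((2 ^ k : ℕ) : ℝ)) :=
          mul_le_mul_of_nonneg_right h3 (mul_nonneg hIc hsq)
      _ = CL * (I.card : ℝ) * Real.sqrt ((2 ^ k : ℕ) : ℝ) := by ring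

end Pool.Agent.EMS
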