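import Pool.Agent.EMS.StmtsC

set_option autoImplicit false

open Finset
open scoped BigOperators Classical Pointwise

namespace Pool.Agent.EMS

namespace MID_

lemma mem_q {r : ℕ} {T : SG r} {k : ℕ} {c w : Fin r → ℤ} (h : w ∈ T.q k c) :
    ∃ u : Fin T.d → ℤ, (∀ l, 4 * |u l| ≤ k * (T.M l : ℤ)) ∧ w = c + T.φ u := by
  unfold SG.q at h
  rw [Finset.mem_image] at h
  obtain ⟨u, hu, rfl⟩ := h
  exact ⟨u, (Finset.mem_filter.1 hu).2, rfl⟩

lemma q_mem {r : ℕ} {T : SG r} {k : ℕ} {c : Fin r → ℤ} (u : Fin T.d → ℤ)
    (hu : ∀ l, 4 * |u l| ≤ k * (T.M l : ℤ)) : c + T.φ u ∈ T.q k c := by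
  unfold SG.q
  rw [Finset.mem_image]
  refine ⟨u, ?_, rfl⟩
  rw [Finset.mem_filter]
  refine ⟨?_, hu⟩
  unfold sbox
  rw [Fintype.mem_piFinset]
  intro l
  rw [Finset.mem_Icc, ← abs_le]
  have h1 := hu l
  have h2 := abs_nonneg (u l)
  push_cast
  linarith

/-- a pair of points with equal parities -/
lemma half {d : ℕ} (u v : Fin d → ℤ) (h : ∀ l, (Even (u l) ↔ Even (v l))) :
    ∃ t : Fin d → ℤ, u = v + (t + t) := by
  have h1 : ∀ l, ∃ t : ℤ, u l = v l + (t + t) := by
    intro l
    have h2 : Even (u l - v l) := by
      rw [Int.even_sub]; exact h l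
    obtain ⟨t, ht⟩ := h2
    exact ⟨t, by linarith⟩
  choose t ht using h1
  exact ⟨t, funext ht⟩

end MID_

open MID_ in
theorem mid_proof : Stmt_MID := by
  intro r m N T x C hC
  constructor
  · intro i j
    set K := Finset.univ.filter fun k => ∃ w ∈ C i, ∃ w' ∈ C j, ∃ z ∈ C k,
        z + z = w + w' with hK
    have key : ∀ k : Fin m, ∃ (u : Fin T.d → ℤ) (z : Fin r → ℤ), k ∈ K →
        z ∈ C k ∧ (∀ l, |u l| ≤ (T.M l : ℤ)) ∧ z + z = x i + x j + T.φ u := by
      intro k
      by_cases hk : k ∈ K
      · obtain ⟨w, hw, w', hw', z, hz, e⟩ := (Finset.mem_filter.1 hk).2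
        obtain ⟨a, ha, rfl⟩ := mem_q (hC.sub2 i hw)
        obtain ⟨b, hb, rfl⟩ := mem_q (hC.sub2 j hw')
        refine ⟨a + b, z, fun _ => ⟨hz, fun l => ?_, ?_⟩⟩
        · have h1 := ha l
          have h2 := hb l
          have h3 : |(a + b) l| ≤ |a l| + |b l| := by
            simp only [Pi.add_apply]; exact abs_add_le _ _
          push_cast at h1 h2
          linarith
        · rw [e, map_add]; abel
      · exact ⟨0, 0, fun h => absurd h hk⟩
    choose u z huz using key
    have h1 := Finset.card_le_mul_card_image_of_maps_to (s := K)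
      (t := (Finset.univ : Finset (Fin T.d → Bool)))
      (f := fun k l => decide (Even (u k l))) (fun _ _ => Finset.mem_univ _) (24 ^ T.d) (by
        intro b _
        rcases (K.filter fun k => (fun l => decide (Even (u k l))) = b).eq_empty_or_nonempty with
          h0 | ⟨k0, hk0⟩
        · rw [h0]; simp
        · refine le_trans (Finset.card_le_card ?_) (hC.cnt 6 (by norm_num) (z k0))
          intro k hk
          rw [Finset.mem_filter] at hk hk0 ⊢
          refine ⟨Finset.mem_univ _, ?_⟩
          obtain ⟨hz0, hu0, e0⟩ := huz k0 hk0.1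
          obtain ⟨hz, hu, e⟩ := huz k hk.1
          obtain ⟨t, ht⟩ := half (u k) (u k0) (fun l => by
            have h2 := congrFun (hk.2.trans hk0.2.symm) l
            simpa using h2)
          obtain ⟨c, hc, hzc⟩ := mem_q (hC.sub2 k hz)
          have e1 : z k = z k0 + T.φ t := by
            have e2 : z k + z k = (z k0 + T.φ t) + (z k0 + T.φ t) := by
              rw [e, ht, map_add, map_add]
              have : x i + x j + (T.φ (u k0) + (T.φ t + T.φ t))
                  = (x i + x j + T.φ (u k0)) + (T.φ t + T.φ t) := by abel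
              rw [this, ← e0]; abel
            funext l
            have := congrFun e2 l
            simp only [Pi.add_apply] at this ⊢
            linarith
          have e3 : x k = z k0 + T.φ (t - c) := by
            rw [map_sub]
            have h4 : x k + T.φ c = z k0 + T.φ t := by rw [← hzc, e1]
            have h5 : x k = z k0 + T.φ t - T.φ c := by rw [← h4]; abel
            rw [h5]; abel
          rw [e3]
          refine q_mem _ fun l => ?_
          have h6 := hc l
          have h7 := hu l
          have h8 := hu0 l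
          have h9 : u k l = u k0 l + (t l + t l) := congrFun ht l
          have h10 : |(t - c) l| ≤ |t l| + |c l| := by
            simp only [Pi.sub_apply]; exact abs_sub _ _
          have h11 : 2 * |t l| ≤ |u k l| + |u k0 l| := by
            have h12 : t l + t l = u k l - u k0 l := by linarith
            have h13 : |t l + t l| ≤ |u k l| + |u k0 l| := by rw [h12]; exact abs_sub _ _
            have h14 : |t l + t l| = 2 * |t l| := by
              rw [← two_mul, abs_mul]; norm_num
            linarith
          push_cast at h6 ⊢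
          linarith)
    refine h1.trans ?_
    rw [Finset.card_univ, Fintype.card_fun, Fintype.card_bool, Fintype.card_fin, ← mul_pow]
    norm_num
  · intro k w'
    refine le_trans (Finset.card_le_card ?_) (hC.cnt 6 (by norm_num) (x k + x k - w'))
    intro i hi
    rw [Finset.mem_filter] at hi ⊢
    refine ⟨Finset.mem_univ _, ?_⟩
    obtain ⟨-, w, hw, z, hz, e⟩ := hi
    obtain ⟨a, ha, hwa⟩ := mem_q (hC.sub2 i hw)
    obtain ⟨c, hc, hzc⟩ := mem_q (hC.sub2 k hz)
    have e1 : x i = (x k + x k - w') + T.φ ((c + c) - a) := by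
      rw [map_sub, map_add]
      have h1 : x i + T.φ a = z + z - w' := by rw [← hwa, e]; abel
      have h2 : x i = z + z - w' - T.φ a := by rw [← h1]; abel
      rw [h2, hzc]; abel
    rw [e1]
    refine q_mem _ fun l => ?_
    have h1 := ha l
    have h2 := hc l
    have h3 : |((c + c) - a) l| ≤ |c l| + |c l| + |a l| := by
      simp only [Pi.sub_apply, Pi.add_apply]
      exact (abs_sub _ _).trans (by linarith [abs_add_le (c l) (c l)])
    push_cast at h1 h2 ⊢
    linarith

end Pool.Agent.EMS
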