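import Pool.Agent.EMS.StmtsC

/-!
# MOD (helper51): Ruzsa's modelling lemma
-/

set_option autoImplicit false

open Finset
open scoped BigOperators Pointwise Classical

namespace Pool.Agent.EMS

namespace MOD_

theorem pos_mod (p : ℕ) (hp : p.Prime) (y : ℤ) (hy : ¬ (p : ℤ) ∣ y) (q : ℤ)
    (hq : q ∈ Finset.Ico (1 : ℤ) p) : 0 < (q * y) % p ∧ (q * y) % p < p := by
  have hp' : Prime (p : ℤ) := Nat.prime_iff_prime_int.mp hp
  rw [Finset.mem_Ico] at hq
  have hp0 : (0 : ℤ) < p := by exact_mod_cast hp.pos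
  refine ⟨?_, Int.emod_lt_of_pos _ hp0⟩
  have h0 : 0 ≤ (q * y) % p := Int.emod_nonneg _ hp0.ne'
  rcases h0.lt_or_eq with h | h
  · exact h
  · exfalso
    have h1 : (p : ℤ) ∣ q * y := Int.dvd_of_emod_eq_zero h.symm
    rcases hp'.dvd_or_dvd h1 with h2 | h2
    · exact absurd (Int.le_of_dvd (by omega) h2) (by omega)
    · exact hy h2

theorem inj_mod (p : ℕ) (hp : p.Prime) (y : ℤ) (hy : ¬ (p : ℤ) ∣ y) (q q' : ℤ)
    (hq : q ∈ Finset.Ico (1 : ℤ) p) (hq' : q' ∈ Finset.Ico (1 : ℤ) p)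
    (h : (q * y) % p = (q' * y) % p) : q = q' := by
  have hp' : Prime (p : ℤ) := Nat.prime_iff_prime_int.mp hp
  rw [Finset.mem_Ico] at hq hq'
  have h1 : (p : ℤ) ∣ (q - q') * y := by
    have h3 : (p : ℤ) ∣ q * y - q' * y :=
      Int.ModEq.dvd (show q' * y ≡ q * y [ZMOD p] from h.symm)
    rw [sub_mul]
    exact h3
  rcases hp'.dvd_or_dvd h1 with h2 | h2
  · have h4 := Int.eq_zero_of_abs_lt_dvd h2 (by rw [abs_lt]; constructor <;> omega)
    omega
  · exact absurd h2 hy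

theorem nat_dvd (N : ℕ) (m : ℤ) (hm : 0 ≤ m) (h : (N : ℤ) ∣ m) : N ∣ m.toNat := by
  have h1 : (N : ℤ) ∣ (m.toNat : ℤ) := by rwa [Int.toNat_of_nonneg hm]
  exact Int.natCast_dvd_natCast.mp h1

theorem count1 (p : ℕ) (hp : p.Prime) (N : ℕ) (y : ℤ) (hy : ¬ (p : ℤ) ∣ y) :
    ((Finset.Ico (1 : ℤ) p).filter fun q => (N : ℤ) ∣ (q * y) % p).card ≤ (p - 1) / N := by
  rw [← Nat.Ioc_filter_dvd_card_eq_div]
  apply Finset.card_le_card_of_injOn (fun q => ((q * y) % p).toNat)
  · intro q hq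
    rw [Finset.mem_coe, Finset.mem_filter] at hq
    have h1 := pos_mod p hp y hy q hq.1
    show ((q * y) % p).toNat ∈ _
    rw [Finset.mem_coe, Finset.mem_filter, Finset.mem_Ioc]
    refine ⟨⟨by omega, by omega⟩, nat_dvd N _ h1.1.le hq.2⟩
  · intro q hq q' hq' h
    rw [Finset.mem_coe, Finset.mem_filter] at hq hq'
    have h1 := pos_mod p hp y hy q hq.1
    have h2 := pos_mod p hp y hy q' hq'.1
    apply inj_mod p hp y hy q q' hq.1 hq'.1
    have h3 : ((q * y) % p).toNat = ((q' * y) % p).toNat := h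
    omega

theorem count2 (p : ℕ) (hp : p.Prime) (N : ℕ) (y : ℤ) (hy : ¬ (p : ℤ) ∣ y) :
    ((Finset.Ico (1 : ℤ) p).filter fun q => (N : ℤ) ∣ p - (q * y) % p).card ≤ (p - 1) / N := by
  rw [← Nat.Ioc_filter_dvd_card_eq_div]
  apply Finset.card_le_card_of_injOn (fun q => (p - (q * y) % p).toNat)
  · intro q hq
    rw [Finset.mem_coe, Finset.mem_filter] at hq
    have h1 := pos_mod p hp y hy q hq.1
    show (p - (q * y) % p).toNat ∈ _
    rw [Finset.mem_coe, Finset.mem_filter, Finset.mem_Ioc]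
    refine ⟨⟨by omega, by omega⟩, nat_dvd N _ (by omega) hq.2⟩
  · intro q hq q' hq' h
    rw [Finset.mem_coe, Finset.mem_filter] at hq hq'
    have h1 := pos_mod p hp y hy q hq.1
    have h2 := pos_mod p hp y hy q' hq'.1
    apply inj_mod p hp y hy q q' hq.1 hq'.1
    have h3 : (p - (q * y) % p).toNat = (p - (q' * y) % p).toNat := h
    omega

/-- the bad multipliers -/
noncomputable def bad (p N : ℕ) (y : ℤ) : Finset ℤ :=
  (Finset.Ico (1 : ℤ) p).filter fun q => (N : ℤ) ∣ (q * y) % p ∨ (N : ℤ) ∣ p - (q * y) % p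

theorem count (p : ℕ) (hp : p.Prime) (N : ℕ) (y : ℤ) (hy : ¬ (p : ℤ) ∣ y) :
    N * (bad p N y).card ≤ 2 * (p - 1) := by
  have h1 := count1 p hp N y hy
  have h2 := count2 p hp N y hy
  have h3 : (bad p N y).card ≤ (p - 1) / N + (p - 1) / N := by
    unfold bad
    rw [Finset.filter_or]
    exact le_trans (Finset.card_union_le _ _) (add_le_add h1 h2)
  calc N * (bad p N y).card ≤ N * ((p - 1) / N + (p - 1) / N) := Nat.mul_le_mul_left _ h3
    _ = 2 * (N * ((p - 1) / N)) := by ring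
    _ ≤ 2 * (p - 1) := Nat.mul_le_mul_left _ (Nat.mul_div_le _ _)

/-- a good multiplier exists -/
theorem good (p : ℕ) (hp : p.Prime) (D : Finset ℤ) (h0 : (0 : ℤ) ∈ D)
    (hD : ∀ y ∈ D, y ≠ 0 → ¬ (p : ℤ) ∣ y) :
    ∃ q ∈ Finset.Ico (1 : ℤ) p, ∀ y ∈ D, y ≠ 0 → q ∉ bad p (2 * D.card) y := by
  by_contra hcon
  push Not at hcon
  have hDpos : 0 < D.card := Finset.card_pos.mpr ⟨0, h0⟩
  have hsub : Finset.Ico (1 : ℤ) p ⊆ (D.erase 0).biUnion fun y => bad p (2 * D.card) y := by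
    intro q hq
    obtain ⟨y, hy, hy0, hb⟩ := hcon q hq
    rw [Finset.mem_biUnion]
    exact ⟨y, Finset.mem_erase.mpr ⟨hy0, hy⟩, hb⟩
  have hc1 : p - 1 ≤ ∑ y ∈ D.erase 0, (bad p (2 * D.card) y).card := by
    have h1 : (Finset.Ico (1 : ℤ) p).card = p - 1 := by
      rw [Int.card_Ico]
      omega
    calc p - 1 = (Finset.Ico (1 : ℤ) p).card := h1.symm
      _ ≤ _ := Finset.card_le_card hsub
      _ ≤ _ := Finset.card_biUnion_le
  have hc2 : ∑ y ∈ D.erase 0, (2 * D.card) * (bad p (2 * D.card) y).card ≤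
      ∑ _y ∈ D.erase 0, 2 * (p - 1) := by
    apply Finset.sum_le_sum
    intro y hy
    rw [Finset.mem_erase] at hy
    exact count p hp _ y (hD y hy.2 hy.1)
  rw [← Finset.mul_sum, Finset.sum_const, Finset.card_erase_of_mem h0, smul_eq_mul] at hc2
  have hp1 : 0 < p - 1 := by
    have := hp.two_le
    omega
  have h5 : (2 * D.card) * (p - 1) ≤ (D.card - 1) * (2 * (p - 1)) :=
    le_trans (Nat.mul_le_mul_left _ hc1) hc2
  obtain ⟨m, hm⟩ : ∃ m, D.card = m + 1 := ⟨D.card - 1, by omega⟩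
  rw [hm, Nat.add_sub_cancel] at h5
  nlinarith

theorem mem_nsmul8 (A : Finset ℤ) (x : Fin 8 → ℤ) (hx : ∀ i, x i ∈ A) : ∑ i, x i ∈ 8 • A := by
  rw [Finset.mem_nsmul]
  refine ⟨fun i => ⟨x i, hx i⟩, ?_⟩
  rw [List.sum_ofFn]

end MOD_

open MOD_

theorem mod_proof : Stmt_MOD := by
  intro A K hA hK
  have hA0 : (0 : ℝ) < A.card := by exact_mod_cast hA.card_pos
  set D : Finset ℤ := 8 • A - 8 • A with hDdef
  have hmemD : ∀ x y : Fin 8 → ℤ, (∀ i, x i ∈ A) → (∀ i, y i ∈ A) →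
      ∑ i, x i - ∑ i, y i ∈ D := fun x y hx hy =>
    Finset.sub_mem_sub (mem_nsmul8 A x hx) (mem_nsmul8 A y hy)
  have h0 : (0 : ℤ) ∈ D := by
    obtain ⟨a, ha⟩ := hA
    have h1 := hmemD (fun _ => a) (fun _ => a) (fun _ => ha) (fun _ => ha)
    rwa [sub_self] at h1
  have hDc : (D.card : ℝ) ≤ K ^ 16 * A.card := by
    have h := Finset.pluennecke_ruzsa_inequality_nsmul_sub_nsmul_sub hA A 8 8
    have h' : (((D.card : ℚ≥0)) : ℝ) ≤
        (((((A - A).card : ℚ≥0) / (A.card : ℚ≥0)) ^ (8 + 8) * (A.card : ℚ≥0) : ℚ≥0) : ℝ) := by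
      exact_mod_cast h
    push_cast at h'
    refine le_trans h' ?_
    apply mul_le_mul_of_nonneg_right _ hA0.le
    apply pow_le_pow_left₀ (by positivity)
    rw [div_le_iff₀ hA0]
    exact hK
  have hDpos : 0 < D.card := Finset.card_pos.mpr ⟨0, h0⟩
  -- the prime
  obtain ⟨p, hpge, hp⟩ := Nat.exists_infinite_primes (∑ y ∈ D, y.natAbs + 1)
  have hDp : ∀ y ∈ D, y ≠ 0 → ¬ (p : ℤ) ∣ y := by
    intro y hy hy0 hdvd
    have h1 : y.natAbs ≤ ∑ y ∈ D, y.natAbs :=
      Finset.single_le_sum (f := fun y : ℤ => y.natAbs) (fun _ _ => Nat.zero_le _) hy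
    have h2 : p ∣ y.natAbs := Int.natCast_dvd.mp hdvd
    have h3 := Nat.le_of_dvd (Int.natAbs_pos.mpr hy0) h2
    omega
  obtain ⟨q, hq, hgood⟩ := good p hp D h0 hDp
  have hp0 : (0 : ℤ) < p := by exact_mod_cast hp.pos
  have hr0 : ∀ x : ℤ, 0 ≤ (q * x) % p := fun x => Int.emod_nonneg _ hp0.ne'
  have hr1 : ∀ x : ℤ, (q * x) % p < p := fun x => Int.emod_lt_of_pos _ hp0
  -- the pigeonhole
  obtain ⟨i, hi, hcard⟩ := Finset.exists_le_card_fiber_of_nsmul_le_card_of_maps_to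
    (s := A) (t := Finset.Ico (0 : ℤ) 8) (f := fun x => (8 * ((q * x) % p)) / p)
    (b := (A.card : ℝ) / 8)
    (by
      intro x _
      rw [Finset.mem_Ico]
      refine ⟨Int.ediv_nonneg (by have := hr0 x; omega) hp0.le, ?_⟩
      apply Int.ediv_lt_of_lt_mul hp0
      have := hr1 x
      omega)
    ⟨0, by simp⟩
    (by
      rw [Int.card_Ico, nsmul_eq_mul]
      have h8 : ((8 - 0 : ℤ).toNat : ℝ) = 8 := by
        have h9 : (8 - 0 : ℤ).toNat = 8 := rfl
        rw [h9]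
        norm_num
      rw [h8]
      linarith)
  refine ⟨2 * D.card, ⟨by omega⟩, A.filter fun x => (8 * ((q * x) % p)) / p = i,
    fun x => (((q * x) % p : ℤ) : ZMod (2 * D.card)), Finset.filter_subset _ _, hcard, ?_, ?_⟩
  · intro x y hx hy
    have hxA : ∀ j, x j ∈ A := fun j => (Finset.mem_filter.mp (hx j)).1
    have hyA : ∀ j, y j ∈ A := fun j => (Finset.mem_filter.mp (hy j)).1
    have hclose : ∀ j, 8 * ((q * x j) % p) < 8 * ((q * y j) % p) + p ∧
        8 * ((q * y j) % p) < 8 * ((q * x j) % p) + p := by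
      intro j
      have e1 : (8 * ((q * x j) % p)) / p = i := (Finset.mem_filter.mp (hx j)).2
      have e2 : (8 * ((q * y j) % p)) / p = i := (Finset.mem_filter.mp (hy j)).2
      have a1 := Int.emod_add_mul_ediv (8 * ((q * x j) % p)) p
      have a2 := Int.emod_add_mul_ediv (8 * ((q * y j) % p)) p
      have b1 := Int.emod_nonneg (8 * ((q * x j) % p)) hp0.ne'
      have b2 := Int.emod_lt_of_pos (8 * ((q * x j) % p)) hp0
      have b3 := Int.emod_nonneg (8 * ((q * y j) % p)) hp0.ne'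
      have b4 := Int.emod_lt_of_pos (8 * ((q * y j) % p)) hp0
      rw [e1] at a1
      rw [e2] at a2
      constructor <;> linarith
    set d : ℤ := ∑ j, (q * x j) % p - ∑ j, (q * y j) % p with hd
    set Y : ℤ := ∑ j, x j - ∑ j, y j with hY
    have hd1 : d < p := by
      have h1 : ∑ j, 8 * ((q * x j) % p) < ∑ j, (8 * ((q * y j) % p) + p) :=
        Finset.sum_lt_sum_of_nonempty ⟨0, Finset.mem_univ _⟩ fun j _ => (hclose j).1
      rw [← Finset.mul_sum, Finset.sum_add_distrib, ← Finset.mul_sum, Finset.sum_const,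
        Finset.card_univ, Fintype.card_fin, nsmul_eq_mul] at h1
      push_cast at h1
      omega
    have hd2 : -(p : ℤ) < d := by
      have h1 : ∑ j, 8 * ((q * y j) % p) < ∑ j, (8 * ((q * x j) % p) + p) :=
        Finset.sum_lt_sum_of_nonempty ⟨0, Finset.mem_univ _⟩ fun j _ => (hclose j).2
      rw [← Finset.mul_sum, Finset.sum_add_distrib, ← Finset.mul_sum, Finset.sum_const,
        Finset.card_univ, Fintype.card_fin, nsmul_eq_mul] at h1
      push_cast at h1
      omega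
    have hdvd : (p : ℤ) ∣ q * Y - d := by
      have h1 : q * Y - d = ∑ j, (q * x j - (q * x j) % p) - ∑ j, (q * y j - (q * y j) % p) := by
        rw [Finset.sum_sub_distrib, Finset.sum_sub_distrib, ← Finset.mul_sum, ← Finset.mul_sum,
          hd, hY]
        ring
      rw [h1]
      apply dvd_sub
      · exact Finset.dvd_sum fun j _ => Int.dvd_self_sub_emod
      · exact Finset.dvd_sum fun j _ => Int.dvd_self_sub_emod
    have hmod : (q * Y) % p = d % p := Int.ModEq.symm (Int.modEq_iff_dvd.mpr hdvd)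
    constructor
    · intro hxy
      have hY0 : Y = 0 := by rw [hY, hxy, sub_self]
      have h2 : (p : ℤ) ∣ d := by
        rw [hY0, mul_zero, zero_sub] at hdvd
        exact (dvd_neg.mp hdvd)
      have h3 : d = 0 := Int.eq_zero_of_abs_lt_dvd h2 (abs_lt.mpr ⟨hd2, hd1⟩)
      have h4 : ∑ j, (q * x j) % p = ∑ j, (q * y j) % p := by
        rw [hd] at h3
        linarith
      have h5 := congrArg (fun z : ℤ => (z : ZMod (2 * D.card))) h4
      push_cast at h5 ⊢
      exact h5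
    · intro hf
      have h1 : ((d : ℤ) : ZMod (2 * D.card)) = 0 := by
        rw [hd]
        push_cast at hf ⊢
        rw [hf, sub_self]
      have h2 : ((2 * D.card : ℕ) : ℤ) ∣ d := (ZMod.intCast_zmod_eq_zero_iff_dvd _ _).mp h1
      by_contra hne
      have hY0 : Y ≠ 0 := fun h => hne (by rw [hY] at h; linarith)
      have hg := hgood Y (hmemD x y hxA hyA) hY0
      apply hg
      unfold bad
      rw [Finset.mem_filter]
      refine ⟨hq, ?_⟩
      rcases le_or_gt 0 d with hd0 | hd0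
      · left
        rw [hmod, Int.emod_eq_of_lt hd0 hd1]
        exact h2
      · right
        have h3 : d % p = d + p := by
          rw [← Int.add_emod_right, Int.emod_eq_of_lt (by linarith) (by linarith)]
        rw [hmod, h3]
        have h4 : (p : ℤ) - (d + p) = -d := by ring
        rw [h4]
        exact (dvd_neg.mpr h2)
  · push_cast
    have hK0 : 0 ≤ K ^ 16 * (A.card : ℝ) := le_trans (Nat.cast_nonneg _) hDc
    nlinarith

end Pool.Agent.EMS
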