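import Pool.Agent.EMS.StmtsB

set_option autoImplicit false

open Finset
open scoped BigOperators Classical

namespace Pool.Agent.EMS

namespace MSS_

theorem aux (α : Type) (R : α → α → Prop) (g : α → ℝ) (hg : ∀ x, 0 ≤ g x) :
    ∀ (κ : ℕ) (E : Finset α), 1 ≤ κ →
    (∀ f : Fin κ → α, (∀ i, f i ∈ E) → ∃ i j, i < j ∧ R (f i) (f j)) →
    2 * (∑ x ∈ E, g x) ^ 2 ≤ (κ : ℝ) ^ 2 * ∑ x ∈ E, ∑ y ∈ E, if R x y then g x * g y else 0 := by
  intro κ E hκ
  induction κ, hκ using Nat.le_induction generalizing E with
  | base =>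
    intro h
    have hE : E = ∅ := by
      by_contra hne
      obtain ⟨x, hx⟩ := Finset.nonempty_iff_ne_empty.mpr hne
      obtain ⟨i, j, hij, _⟩ := h (fun _ => x) (fun _ => hx)
      have : i = j := Subsingleton.elim _ _
      exact absurd hij (by rw [this]; exact lt_irrefl _)
    simp [hE]
  | succ κ hκ ih =>
    intro h
    set W : ℝ := ∑ x ∈ E, ∑ y ∈ E, (if R x y then g x * g y else 0) with hW
    have hterm : ∀ x y, 0 ≤ (if R x y then g x * g y else 0) := by
      intro x y
      split_ifs
      · exact mul_nonneg (hg x) (hg y)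
      · exact le_rfl
    have hW0 : 0 ≤ W := sum_nonneg fun x _ => sum_nonneg fun y _ => hterm x y
    set u : ℝ := Real.sqrt (W / 2) with hu
    have hu0 : 0 ≤ u := Real.sqrt_nonneg _
    have hu2 : u ^ 2 = W / 2 := Real.sq_sqrt (by linarith)
    set s : ℝ := ∑ x ∈ E, g x with hs
    have hs0 : 0 ≤ s := sum_nonneg fun x _ => hg x
    have hκ0 : (1 : ℝ) ≤ (κ : ℝ) := by exact_mod_cast hκ
    -- the sections
    have hsec : ∀ x ∈ E, ∑ y ∈ E.filter (fun y => ¬ R x y), g y ≤ κ * u := by
      intro x hx
      have h1 := ih (E.filter (fun y => ¬ R x y)) (by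
        intro f hf
        obtain ⟨i, j, hij, hR⟩ := h (Fin.cons x f) (by
          intro i
          refine Fin.cases ?_ ?_ i
          · simpa using hx
          · intro i
            simpa using (mem_filter.mp (hf i)).1)
        refine Fin.cases ?_ ?_ i (motive := fun i => i < j → R ((Fin.cons x f : Fin (κ + 1) → α) i)
          ((Fin.cons x f : Fin (κ + 1) → α) j) → ∃ i j, i < j ∧ R (f i) (f j)) hij hR
        · refine Fin.cases ?_ ?_ j
          · intro h0
            exact absurd h0 (lt_irrefl _)
          · intro j _ hR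
            rw [Fin.cons_zero, Fin.cons_succ] at hR
            exact absurd hR (mem_filter.mp (hf j)).2
        · intro i
          refine Fin.cases ?_ ?_ j
          · intro h0
            exact absurd h0 (by simp)
          · intro j hij hR
            rw [Fin.cons_succ, Fin.cons_succ] at hR
            exact ⟨i, j, by simpa using hij, hR⟩)
      have h2 : ∑ a ∈ E.filter (fun y => ¬ R x y), ∑ b ∈ E.filter (fun y => ¬ R x y),
          (if R a b then g a * g b else 0) ≤ W := by
        refine (sum_le_sum_of_subset_of_nonneg (filter_subset _ _)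
          (fun a _ _ => sum_nonneg fun b _ => hterm a b)).trans ?_
        apply sum_le_sum
        intro a _
        exact sum_le_sum_of_subset_of_nonneg (filter_subset _ _) (fun b _ _ => hterm a b)
      have h3 : (∑ y ∈ E.filter (fun y => ¬ R x y), g y) ^ 2 ≤ (κ * u) ^ 2 := by
        rw [mul_pow, hu2]
        have h4 : (κ : ℝ) ^ 2 * ∑ a ∈ E.filter (fun y => ¬ R x y),
            ∑ b ∈ E.filter (fun y => ¬ R x y), (if R a b then g a * g b else 0) ≤
            (κ : ℝ) ^ 2 * W := mul_le_mul_of_nonneg_left h2 (by positivity)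
        linarith
      exact le_of_sq_le_sq h3 (by positivity)
    have hsplit : s ^ 2 - W = ∑ x ∈ E, g x * ∑ y ∈ E.filter (fun y => ¬ R x y), g y := by
      have h1 : s ^ 2 = ∑ x ∈ E, g x * ∑ y ∈ E, g y := by
        rw [← sum_mul, sq]
      rw [h1, hW, ← sum_sub_distrib]
      apply sum_congr rfl
      intro x _
      rw [sum_filter, mul_sum, mul_sum, ← sum_sub_distrib]
      apply sum_congr rfl
      intro y _
      by_cases hR : R x y
      · simp [hR]
      · simp [hR]
    have hle : s ^ 2 - W ≤ s * (κ * u) := by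
      rw [hsplit, hs, sum_mul]
      apply sum_le_sum
      intro x hx
      exact mul_le_mul_of_nonneg_left (hsec x hx) (hg x)
    have hWu : W = 2 * u ^ 2 := by rw [hu2]; ring
    have hfin : s ≤ (κ + 1) * u := by
      by_contra hlt
      push Not at hlt
      have hku : 0 ≤ (κ + 1 : ℝ) * u := by positivity
      have hspos : 0 < s := lt_of_le_of_lt hku hlt
      have e1 : s * ((κ + 1 : ℝ) * u) < s * s := mul_lt_mul_of_pos_left hlt hspos
      have e2 : u * ((κ + 1 : ℝ) * u) ≤ u * s := mul_le_mul_of_nonneg_left hlt.le hu0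
      have e3 : 2 * u ^ 2 ≤ u * ((κ + 1 : ℝ) * u) := by nlinarith [sq_nonneg u]
      have e4 : s ^ 2 = s * s := sq s
      have e5 : s * ((κ + 1 : ℝ) * u) = s * (κ * u) + u * s := by ring
      linarith
    have h5 : s ^ 2 ≤ ((κ + 1) * u) ^ 2 := pow_le_pow_left₀ hs0 hfin 2
    rw [hWu]
    push_cast
    nlinarith

end MSS_

theorem mss_proof : Stmt_MSS := by
  intro α E R κ g hκ hg h
  exact MSS_.aux α R g hg κ E (by omega) h

end Pool.Agent.EMS
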