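import Pool.Agent.EMS.StmtsB

set_option autoImplicit false

/-!
Module NOR: normalisation of the sides of a GAP to a two part GAP.
-/

open Finset
open scoped BigOperators Classical

namespace Pool.Agent.EMS

namespace NOR_

theorem mem_box {r : ℕ} {N : Fin r → ℕ} {x : Fin r → ℤ} :
    x ∈ box N ↔ ∀ l, 0 ≤ x l ∧ x l < N l := by
  unfold box
  simp [Fintype.mem_piFinset]

section split

variable {d : ℕ} (p : Fin d → Prop)

/-- extension by zero outside `p` -/
noncomputable def ex1 : (Fin (Fintype.card {l // p l}) → ℤ) →ₗ[ℤ] (Fin d → ℤ) where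
  toFun u l := if h : p l then u (Fintype.equivFin _ ⟨l, h⟩) else 0
  map_add' u v := by
    funext l
    by_cases h : p l <;> simp [h]
  map_smul' c u := by
    funext l
    by_cases h : p l <;> simp [h]

/-- extension by zero on `p` -/
noncomputable def ex2 : (Fin (Fintype.card {l // ¬ p l}) → ℤ) →ₗ[ℤ] (Fin d → ℤ) where
  toFun u l := if h : ¬ p l then u (Fintype.equivFin _ ⟨l, h⟩) else 0
  map_add' u v := by
    funext l
    by_cases h : p l <;> simp [h]
  map_smul' c u := by
    funext l
    by_cases h : p l <;> simp [h]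

theorem ex_pos (u : Fin (Fintype.card {l // p l}) → ℤ) (w : Fin (Fintype.card {l // ¬ p l}) → ℤ)
    (l : Fin d) (h : p l) : (ex1 p u + ex2 p w) l = u (Fintype.equivFin _ ⟨l, h⟩) := by
  simp [ex1, ex2, h]

theorem ex_neg (u : Fin (Fintype.card {l // p l}) → ℤ) (w : Fin (Fintype.card {l // ¬ p l}) → ℤ)
    (l : Fin d) (h : ¬ p l) : (ex1 p u + ex2 p w) l = w (Fintype.equivFin _ ⟨l, h⟩) := by
  simp [ex1, ex2, h]

theorem ex_surj (x : Fin d → ℤ) :
    x = ex1 p (fun i => x ((Fintype.equivFin {l // p l}).symm i).1) +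
      ex2 p (fun i => x ((Fintype.equivFin {l // ¬ p l}).symm i).1) := by
  funext l
  by_cases h : p l
  · rw [ex_pos p _ _ l h]
    simp
  · rw [ex_neg p _ _ l h]
    simp

theorem ex_left (u : Fin (Fintype.card {l // p l}) → ℤ)
    (w : Fin (Fintype.card {l // ¬ p l}) → ℤ) (i : Fin (Fintype.card {l // p l})) :
    u i = (ex1 p u + ex2 p w) ((Fintype.equivFin {l // p l}).symm i).1 := by
  rw [ex_pos p u w _ ((Fintype.equivFin {l // p l}).symm i).2]
  simp

theorem ex_right (u : Fin (Fintype.card {l // p l}) → ℤ)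
    (w : Fin (Fintype.card {l // ¬ p l}) → ℤ) (i : Fin (Fintype.card {l // ¬ p l})) :
    w i = (ex1 p u + ex2 p w) ((Fintype.equivFin {l // ¬ p l}).symm i).1 := by
  rw [ex_neg p u w _ ((Fintype.equivFin {l // ¬ p l}).symm i).2]
  simp

theorem card_split : Fintype.card {l // p l} + Fintype.card {l // ¬ p l} = d := by
  rw [← Fintype.card_sum, Fintype.card_congr (Equiv.sumCompl p), Fintype.card_fin]

theorem prod_split (f : Fin d → ℝ) :
    (∏ i : Fin (Fintype.card {l // p l}), f ((Fintype.equivFin {l // p l}).symm i).1) *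
      ∏ i : Fin (Fintype.card {l // ¬ p l}), f ((Fintype.equivFin {l // ¬ p l}).symm i).1 =
      ∏ l, f l := by
  rw [← Fintype.prod_subtype_mul_prod_subtype p f]
  rw [Equiv.prod_comp (Fintype.equivFin {l // p l}).symm (fun i => f i.1),
    Equiv.prod_comp (Fintype.equivFin {l // ¬ p l}).symm (fun i => f i.1)]

theorem set_raw {r : ℕ} (φ : (Fin d → ℤ) →ₗ[ℤ] (Fin r → ℤ)) (N : Fin d → ℕ) (c : Fin r → ℤ) :
    (box (fun i => N ((Fintype.equivFin {l // p l}).symm i).1) ×ˢ
      box (fun i => N ((Fintype.equivFin {l // ¬ p l}).symm i).1)).image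
        (fun z => c + (φ ∘ₗ ex1 p) z.1 + (φ ∘ₗ ex2 p) z.2) =
      (box N).image fun x => c + φ x := by
  ext y
  simp only [Finset.mem_image, Finset.mem_product]
  constructor
  · rintro ⟨⟨u, w⟩, ⟨hu, hw⟩, rfl⟩
    refine ⟨ex1 p u + ex2 p w, ?_, ?_⟩
    · rw [mem_box]
      intro l
      by_cases hl : p l
      · rw [ex_pos p u w l hl]
        have h1 := (mem_box.1 hu) (Fintype.equivFin _ ⟨l, hl⟩)
        simpa using h1
      · rw [ex_neg p u w l hl]
        have h1 := (mem_box.1 hw) (Fintype.equivFin _ ⟨l, hl⟩)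
        simpa using h1
    · rw [map_add, ← add_assoc]
      rfl
  · rintro ⟨x, hx, rfl⟩
    rw [mem_box] at hx
    refine ⟨(fun i => x ((Fintype.equivFin {l // p l}).symm i).1,
      fun i => x ((Fintype.equivFin {l // ¬ p l}).symm i).1), ⟨?_, ?_⟩, ?_⟩
    · rw [mem_box]
      intro i
      exact hx ((Fintype.equivFin {l // p l}).symm i).1
    · rw [mem_box]
      intro i
      exact hx ((Fintype.equivFin {l // ¬ p l}).symm i).1
    · have h2 : φ x = φ (ex1 p (fun i => x ((Fintype.equivFin {l // p l}).symm i).1)) +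
          φ (ex2 p (fun i => x ((Fintype.equivFin {l // ¬ p l}).symm i).1)) := by
        rw [← map_add, ← ex_surj p x]
      rw [h2, ← add_assoc]
      rfl

end split

/-- reduced side -/
def red (B n m : ℕ) : ℕ := if m < B ^ (n + 1) then m else B ^ Nat.log B m

theorem red_pos {B n m : ℕ} (hB : 2 ≤ B) (hm : 1 ≤ m) : 1 ≤ red B n m := by
  unfold red
  split
  · exact hm
  · exact Nat.one_le_pow _ _ (by omega)

theorem red_le {B n m : ℕ} (hm : 1 ≤ m) : red B n m ≤ m := by
  unfold red
  split
  · exact le_rfl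
  · exact Nat.pow_log_le_self B (by omega)

theorem le_red {B n m : ℕ} (hB : 2 ≤ B) : m ≤ B * red B n m := by
  unfold red
  split
  · nlinarith
  · have := Nat.lt_pow_succ_log_self (b := B) (by omega) m
    rw [pow_succ] at this
    linarith

/-- thin sides -/
def thinP {r : ℕ} (B n : ℕ) (S : SG r) (l : Fin S.d) : Prop := S.M l < B ^ (n + 1)

/-- the normalised GAP -/
noncomputable def nrm {r : ℕ} (B n : ℕ) (hB : 2 ≤ B) (S : SG r) : TG r B n where
  a := Fintype.card {l // thinP B n S l}
  b := Fintype.card {l // ¬ thinP B n S l}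
  φ1 := S.φ ∘ₗ ex1 (thinP B n S)
  φ2 := S.φ ∘ₗ ex2 (thinP B n S)
  M1 i := S.M ((Fintype.equivFin {l // thinP B n S l}).symm i).1
  k i := Nat.log B (S.M ((Fintype.equivFin {l // ¬ thinP B n S l}).symm i).1)
  pos i := S.pos _
  thin i := ((Fintype.equivFin {l // thinP B n S l}).symm i).2
  thick i := by
    have h := ((Fintype.equivFin {l // ¬ thinP B n S l}).symm i).2
    have h0 := S.pos ((Fintype.equivFin {l // ¬ thinP B n S l}).symm i).1
    exact (Nat.le_log_iff_pow_le (by omega) (by omega)).2 (not_lt.1 h)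
  proper := by
    intro u w hu hw h
    have h1 : S.φ (ex1 (thinP B n S) u +
        ex2 (thinP B n S) w) = 0 := by
      rw [map_add]
      exact h
    have h2 := S.proper _ (fun l => by
      by_cases hl : thinP B n S l
      · rw [ex_pos (thinP B n S) u w l hl]
        have := hu (Fintype.equivFin _ ⟨l, hl⟩)
        simpa using this
      · rw [ex_neg (thinP B n S) u w l hl]
        have h3 := hw (Fintype.equivFin _ ⟨l, hl⟩)
        simp only [Equiv.symm_apply_apply] at h3
        have h4 : B ^ Nat.log B (S.M l) ≤ S.M l :=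
          Nat.pow_log_le_self B (by have := S.pos l; omega)
        have h5 : (B : ℤ) ^ Nat.log B (S.M l) ≤ (S.M l : ℤ) := by exact_mod_cast h4
        linarith) h1
    constructor
    · funext i
      rw [ex_left (thinP B n S) u w i, h2]
      rfl
    · funext i
      rw [ex_right (thinP B n S) u w i, h2]
      rfl

theorem red_thin {r : ℕ} {B n : ℕ} {S : SG r} {l : Fin S.d} (h : thinP B n S l) :
    red B n (S.M l) = S.M l := by
  unfold red
  exact if_pos h

theorem red_thick {r : ℕ} {B n : ℕ} {S : SG r} {l : Fin S.d} (h : ¬ thinP B n S l) :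
    red B n (S.M l) = B ^ Nat.log B (S.M l) := by
  unfold red
  exact if_neg h

theorem nrm_M1 {r : ℕ} (B n : ℕ) (hB : 2 ≤ B) (S : SG r) : (nrm B n hB S).M1 =
    fun i => red B n (S.M ((Fintype.equivFin {l // thinP B n S l}).symm i).1) :=
  funext fun i => (red_thin ((Fintype.equivFin {l // thinP B n S l}).symm i).2).symm

theorem nrm_M2 {r : ℕ} (B n : ℕ) (hB : 2 ≤ B) (S : SG r) : (nrm B n hB S).M2 =
    fun i => red B n (S.M ((Fintype.equivFin {l // ¬ thinP B n S l}).symm i).1) :=
  funext fun i => (red_thick ((Fintype.equivFin {l // ¬ thinP B n S l}).symm i).2).symm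

theorem nrm_set {r : ℕ} (B n : ℕ) (hB : 2 ≤ B) (S : SG r) (c : Fin r → ℤ) :
    (nrm B n hB S).set c = (box fun l => red B n (S.M l)).image fun x => c + S.φ x := by
  unfold TG.set
  rw [nrm_M1, nrm_M2]
  exact set_raw (thinP B n S) S.φ (fun l => red B n (S.M l)) c

theorem nrm_v {r : ℕ} (B n : ℕ) (hB : 2 ≤ B) (S : SG r) :
    (nrm B n hB S).v = ∏ l, (red B n (S.M l) : ℝ) := by
  unfold TG.v vol
  rw [nrm_M1, nrm_M2]
  exact prod_split (thinP B n S) (fun l => (red B n (S.M l) : ℝ))

/-- covering of `[0, m)` by intervals of length `m'` inside it -/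
theorem cover {m m' : ℕ} (h1 : 1 ≤ m') (h2 : m' ≤ m) {x : ℤ} (hx0 : 0 ≤ x) (hx : x < m) :
    ∃ j ∈ Finset.range (m / m' + 1), ((min (j * m') (m - m') : ℕ) : ℤ) ≤ x ∧
      x < ((min (j * m') (m - m') : ℕ) : ℤ) + m' := by
  obtain ⟨x, rfl⟩ := Int.eq_ofNat_of_zero_le hx0
  have hx' : x < m := by exact_mod_cast hx
  refine ⟨x / m', ?_, ?_⟩
  · rw [Finset.mem_range]
    have := Nat.div_le_div_right (c := m') hx'.le
    omega
  · have h3 : x / m' * m' ≤ x := Nat.div_mul_le_self x m'
    have h4 : x < (x / m' + 1) * m' := by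
      have h5 := Nat.div_add_mod x m'
      have h6 := Nat.mod_lt x (show 0 < m' by omega)
      nlinarith
    rcases le_total (x / m' * m') (m - m') with h | h
    · rw [min_eq_left h]
      constructor
      · exact_mod_cast h3
      · have : x < x / m' * m' + m' := by linarith
        exact_mod_cast this
    · rw [min_eq_right h]
      constructor
      · exact_mod_cast h.trans h3
      · have : x < (m - m') + m' := by omega
        exact_mod_cast this

end NOR_

open NOR_ in
theorem nor_proof : Stmt_NOR := by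
  intro r B n S c V hB
  set M' : Fin S.d → ℕ := fun l => red B n (S.M l) with hM'
  have hM1 : ∀ l, 1 ≤ M' l := fun l => red_pos hB (S.pos l)
  have hMle : ∀ l, M' l ≤ S.M l := fun l => red_le (S.pos l)
  set J : Finset (Fin S.d → ℕ) :=
    Fintype.piFinset fun l => Finset.range (S.M l / M' l + 1) with hJ
  set o : (Fin S.d → ℕ) → (Fin S.d → ℤ) :=
    fun j l => ((min (j l * M' l) (S.M l - M' l) : ℕ) : ℤ) with ho
  have hJne : J.Nonempty := ⟨0, by
    rw [hJ, Fintype.mem_piFinset]
    intro l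
    simp⟩
  have hcov : V ∩ S.bx c ⊆ J.biUnion fun j =>
      V ∩ (nrm B n hB S).set (c + S.φ (o j)) := by
    intro y hy
    obtain ⟨hyV, hyS⟩ := Finset.mem_inter.1 hy
    obtain ⟨u, hu, rfl⟩ := Finset.mem_image.1 hyS
    rw [mem_box] at hu
    choose j hj hj1 hj2 using fun l => cover (hM1 l) (hMle l) (hu l).1 (hu l).2
    rw [Finset.mem_biUnion]
    refine ⟨j, ?_, Finset.mem_inter.2 ⟨hyV, ?_⟩⟩
    · rw [hJ, Fintype.mem_piFinset]
      exact hj
    · rw [nrm_set, Finset.mem_image]
      refine ⟨u - o j, ?_, ?_⟩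
      · rw [mem_box]
        intro l
        have h1 := hj1 l
        have h2 := hj2 l
        simp only [Pi.sub_apply, ho]
        constructor
        · linarith
        · simp only [hM'] at h2 ⊢
          linarith
      · rw [map_sub]
        abel
  obtain ⟨j, hjJ, hjmax⟩ := Finset.exists_max_image J
    (fun j => (V ∩ (nrm B n hB S).set (c + S.φ (o j))).card) hJne
  have hcard : (V ∩ S.bx c).card ≤
      J.card * (V ∩ (nrm B n hB S).set (c + S.φ (o j))).card := by
    calc (V ∩ S.bx c).card ≤ (J.biUnion fun j =>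
          V ∩ (nrm B n hB S).set (c + S.φ (o j))).card := Finset.card_le_card hcov
      _ ≤ ∑ i ∈ J, (V ∩ (nrm B n hB S).set (c + S.φ (o i))).card := Finset.card_biUnion_le
      _ ≤ J.card • (V ∩ (nrm B n hB S).set (c + S.φ (o j))).card :=
          Finset.sum_le_card_nsmul J _ _ hjmax
      _ = J.card * (V ∩ (nrm B n hB S).set (c + S.φ (o j))).card := by rw [smul_eq_mul]
  have hv0 : 0 ≤ (nrm B n hB S).v := by
    rw [nrm_v]
    positivity
  have hJv : (J.card : ℝ) * (nrm B n hB S).v ≤ 2 ^ S.d * S.v := by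
    rw [nrm_v, hJ, Fintype.card_piFinset]
    push_cast
    rw [← Finset.prod_mul_distrib]
    have h2d : (2 : ℝ) ^ S.d * S.v = ∏ l, (2 * (S.M l : ℝ)) := by
      rw [Finset.prod_mul_distrib, Finset.prod_const, Finset.card_univ, Fintype.card_fin]
      rfl
    rw [h2d]
    refine Finset.prod_le_prod (fun l _ => by positivity) fun l _ => ?_
    rw [Finset.card_range]
    have h1 : (S.M l / M' l + 1) * M' l ≤ 2 * S.M l := by
      have h3 := Nat.div_mul_le_self (S.M l) (M' l)
      have h4 := hMle l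
      nlinarith
    have h5 : (((S.M l / M' l + 1) * M' l : ℕ) : ℝ) ≤ ((2 * S.M l : ℕ) : ℝ) := by
      exact_mod_cast h1
    push_cast at h5
    exact_mod_cast h5
  refine ⟨nrm B n hB S, c + S.φ (o j), card_split (thinP B n S), ?_, ?_, ?_, ?_⟩
  · rw [nrm_v]
    exact Finset.prod_le_prod (fun l _ => by positivity) fun l _ => by exact_mod_cast hMle l
  · rw [nrm_v]
    have h1 : (B : ℝ) ^ S.d * ∏ l, (red B n (S.M l) : ℝ) =
        ∏ l, ((B : ℝ) * (red B n (S.M l) : ℝ)) := by
      rw [Finset.prod_mul_distrib, Finset.prod_const, Finset.card_univ, Fintype.card_fin]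
    rw [h1]
    refine Finset.prod_le_prod (fun l _ => by positivity) fun l _ => ?_
    exact_mod_cast le_red (n := n) (m := S.M l) hB
  · have h1 : ((V ∩ S.bx c).card : ℝ) ≤
        (J.card : ℝ) * ((V ∩ (nrm B n hB S).set (c + S.φ (o j))).card : ℝ) := by
      exact_mod_cast hcard
    have h2 : (0 : ℝ) ≤ ((V ∩ (nrm B n hB S).set (c + S.φ (o j))).card : ℝ) := Nat.cast_nonneg _
    calc ((V ∩ S.bx c).card : ℝ) * (nrm B n hB S).v
        ≤ ((J.card : ℝ) * ((V ∩ (nrm B n hB S).set (c + S.φ (o j))).card : ℝ)) *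
          (nrm B n hB S).v := mul_le_mul_of_nonneg_right h1 hv0
      _ = ((J.card : ℝ) * (nrm B n hB S).v) *
          ((V ∩ (nrm B n hB S).set (c + S.φ (o j))).card : ℝ) := by ring
      _ ≤ (2 ^ S.d * S.v) * ((V ∩ (nrm B n hB S).set (c + S.φ (o j))).card : ℝ) :=
          mul_le_mul_of_nonneg_right hJv h2
  · intro x
    refine ⟨x, fun W => Finset.card_le_card (Finset.filter_subset_filter _ ?_)⟩
    rw [nrm_set]
    intro y hy
    obtain ⟨z, hz, rfl⟩ := Finset.mem_image.1 hy
    rw [mem_box] at hz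
    refine Finset.mem_image.2 ⟨o j + z, ?_, ?_⟩
    · rw [mem_box]
      intro l
      have h1 := hz l
      have h2 : min (j l * M' l) (S.M l - M' l) + M' l ≤ S.M l := by
        have := hMle l
        have := min_le_right (j l * M' l) (S.M l - M' l)
        omega
      have h3 : ((min (j l * M' l) (S.M l - M' l) : ℕ) : ℤ) + (M' l : ℤ) ≤ (S.M l : ℤ) := by
        exact_mod_cast h2
      have h4 : (0 : ℤ) ≤ ((min (j l * M' l) (S.M l - M' l) : ℕ) : ℤ) := Int.natCast_nonneg _
      simp only [Pi.add_apply, ho]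
      constructor
      · linarith
      · simp only [hM'] at h3 ⊢
        linarith [h1.2]
    · rw [map_add, add_assoc]

end Pool.Agent.EMS
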