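import Pool.Agent.EMS.StmtsD

/-!
# EMS, POS: the theorem for sets of positive integers (helper79)
-/

set_option autoImplicit false

open Finset
open scoped BigOperators Classical

namespace Pool.Agent.EMS

theorem pos_proof (h1 : Stmt_ITP) (h2 : Stmt_INC) (h3 : Stmt_IGP) (h4 : Stmt_PRM) :
    Stmt_POS := by
  obtain ⟨Z0, hITP⟩ := h1 200000
  obtain ⟨Z2, hIGP⟩ := h3
  obtain ⟨n0, hPRM⟩ := h4 200000 Z0 Z2 (le_refl _)
  refine ⟨n0, fun A hA hpos κ hκ hκ' => ?_⟩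
  by_contra hcon
  have hS : ∀ S' ⊆ A, κ ≤ S'.card → ∃ s ∈ S', ∃ s' ∈ S', s ≠ s' ∧ s + s' ∈ A := by
    intro S' hS' hc
    by_contra h
    apply hcon
    refine ⟨S', hS', hc, ?_⟩
    intro s hs s' hs' hne hmem
    exact h ⟨s, hs, s', hs', hne, hmem⟩
  obtain ⟨Z, M0, Z1, hZ, hZ1, hM0, hM0Z, hlog1, hlog, hrho, hZ15, hZ16, hW, hWZ, hWn, hlo, hhi⟩ :=
    hPRM A.card hA κ hκ hκ'
  obtain ⟨θ, hPI⟩ := hITP Z hZ κ M0 hM0 hM0Z hκ hlog hrho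
  obtain ⟨t0, S, c, hSd, hS0, hSlo, hShi⟩ := hIGP Z1 hZ1 A κ hκ hlog1 hpos hS hWn
  obtain ⟨hCh, hNT, hCert⟩ := h2 A κ S c t0 hκ hpos hS
  set Wm : ℝ := 8 * (κ : ℝ) ^ 6 * ((Nat.log 2 A.card : ℝ) + 5) ^ 2 with hWm
  have hv : vol S.M = S.v := rfl
  have hv0 : 0 ≤ S.v := by
    rw [← hv]
    exact Finset.prod_nonneg fun _ _ => Nat.cast_nonneg _
  have hRC := hPI S.d S.M (IU A S c t0) (hSd.trans hZ15) S.pos hCh
    (fun T hT => (hNT T hT).trans hWZ) ?_ ?_ ?_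
  · obtain ⟨Ω, hΩ, p, X, T, hp0, hp1, hX, -, hWX⟩ := hRC
    have h5 : ∑ ω, p ω * ∑ t ∈ Finset.range T, ((X ω t).card : ℝ) ≤ ∑ ω, p ω * Wm := by
      refine Finset.sum_le_sum fun ω _ => ?_
      exact mul_le_mul_of_nonneg_left (hCert (X ω) (hX ω) T) (hp0 ω)
    rw [← Finset.sum_mul, hp1, one_mul] at h5
    linarith
  · rw [hv]
    have h5 := hlo.trans hSlo
    rw [mul_comm] at h5
    exact le_of_mul_le_mul_left h5 (Real.exp_pos _)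
  · rw [hv]
    exact hShi.trans hhi
  · rw [hv]
    refine le_trans ?_ hS0
    apply mul_le_mul_of_nonneg_right _ hv0
    apply Real.exp_le_exp.mpr
    linarith

end Pool.Agent.EMS
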