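import Pool.Agent.EMS.StmtsD

/-!
# EMS, module PRM: the parameters (asymptotics)
-/

set_option autoImplicit false

open Finset
open scoped BigOperators Classical

namespace Pool.Agent.EMS

namespace PRM_

/-- integer roots -/
lemma root (k : ℕ) (hk : 1 ≤ k) (Z : ℕ) : ∃ m : ℕ, m ^ k ≤ Z ∧ Z < (m + 1) ^ k := by
  induction Z with
  | zero => exact ⟨0, by simp [Nat.pos_iff_ne_zero.mp hk], by simp⟩
  | succ Z ih =>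
    obtain ⟨m, h1, h2⟩ := ih
    by_cases h : (m + 1) ^ k ≤ Z + 1
    · refine ⟨m + 1, h, ?_⟩
      have h3 : Z + 1 ≤ (m + 1) ^ k := h2
      have h4 : (m + 1) ^ k < (m + 1 + 1) ^ k :=
        Nat.pow_lt_pow_left (Nat.lt_succ_self _) (by omega)
      omega
    · exact ⟨m, by omega, by omega⟩

lemma root_large (k : ℕ) (K Z m : ℕ) (hZ : (K + 1) ^ k ≤ Z) (h : Z < (m + 1) ^ k) :
    K ≤ m := by
  by_contra hc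
  push Not at hc
  have h1 : (m + 1) ^ k ≤ (K + 1) ^ k := Nat.pow_le_pow_left (by omega) _
  omega

lemma succ_pow_le (k : ℕ) (Z : ℝ) (h1 : 1 ≤ Z) (h : 2 ^ k ≤ Z) :
    (Z + 1) ^ k ≤ Z ^ (k + 1) := by
  calc (Z + 1) ^ k ≤ (2 * Z) ^ k := pow_le_pow_left₀ (by linarith) (by linarith) k
    _ = 2 ^ k * Z ^ k := mul_pow _ _ _
    _ ≤ Z * Z ^ k := mul_le_mul_of_nonneg_right h (by positivity)
    _ = Z ^ (k + 1) := (pow_succ' _ _).symm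

/-- powers against the exponential -/
lemma pow_le_exp (k : ℕ) : ∃ K : ℕ, ∀ z : ℕ, K ≤ z → (z : ℝ) ^ k ≤ Real.exp z := by
  have h := Real.tendsto_pow_mul_exp_neg_atTop_nhds_zero k
  have h2 : ∀ᶠ x : ℝ in Filter.atTop, x ^ k * Real.exp (-x) < 1 :=
    h.eventually (gt_mem_nhds one_pos)
  obtain ⟨x0, hx0⟩ := Filter.eventually_atTop.mp h2
  refine ⟨⌈x0⌉₊, fun z hz => ?_⟩
  have h3 := hx0 (z : ℝ) ((Nat.le_ceil x0).trans (by exact_mod_cast hz))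
  rw [Real.exp_neg, mul_inv_lt_iff₀ (Real.exp_pos _), one_mul] at h3
  exact h3.le

/-- `κ ≤ Z^(a+1)` -/
lemma kap (Z L κ : ℝ) (hZ : 2 ≤ Z) (hL0 : 0 ≤ L) (hL : L ≤ Z ^ 51) (hκ : κ ≤ L ^ 100 + 1) :
    κ ≤ Z ^ 5101 := by
  have h1 : L ^ 100 ≤ (Z ^ 51) ^ 100 := pow_le_pow_left₀ hL0 hL 100
  have h2 : (Z ^ 51) ^ 100 = Z ^ 5100 := by rw [← pow_mul]
  have h3 : (1 : ℝ) ≤ Z ^ 5100 := one_le_pow₀ (by linarith)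
  have h4 : Z ^ 5101 = Z ^ 5100 * Z := pow_succ _ _
  rw [h4]
  rw [h2] at h1
  generalize Z ^ 5100 = w at *
  nlinarith

lemma wmax (Z κ l : ℝ) (hZ : 8 ≤ Z) (hκ0 : 0 ≤ κ) (hκ : κ ≤ Z ^ 5101) (hl0 : 0 ≤ l)
    (hl : l ≤ Z ^ 52) : 8 * κ ^ 6 * l ^ 2 ≤ Z ^ 30711 := by
  have h1 : κ ^ 6 ≤ Z ^ 30606 := by
    calc κ ^ 6 ≤ (Z ^ 5101) ^ 6 := pow_le_pow_left₀ hκ0 hκ 6
      _ = Z ^ 30606 := by rw [← pow_mul]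
  have h2 : l ^ 2 ≤ Z ^ 104 := by
    calc l ^ 2 ≤ (Z ^ 52) ^ 2 := pow_le_pow_left₀ hl0 hl 2
      _ = Z ^ 104 := by rw [← pow_mul]
  have h0 : (0 : ℝ) ≤ Z := by linarith
  have h3 : 8 * κ ^ 6 ≤ Z * Z ^ 30606 :=
    mul_le_mul hZ h1 (by positivity) h0
  calc 8 * κ ^ 6 * l ^ 2 ≤ (Z * Z ^ 30606) * Z ^ 104 :=
        mul_le_mul h3 h2 (by positivity) (by positivity)
    _ = Z ^ 30711 := by
        rw [mul_assoc, ← pow_add, ← pow_succ']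

lemma big (M Z : ℝ) (I : ℕ) (hI : 200000 ≤ I) (hM : 16384 ≤ M) (hZ2 : 2 ≤ Z)
    (hZ : Z ≤ (M + 1) ^ 4) : Z ^ 30711 < (M / 4) ^ I := by
  have h1 : (M + 1) ^ 4 ≤ (2 * M) ^ 4 := pow_le_pow_left₀ (by linarith) (by linarith) 4
  have h2 : (2 * M) ^ 4 ≤ (M / 4) ^ 5 := by
    have : (M / 4) ^ 5 - (2 * M) ^ 4 = M ^ 4 * (M - 16384) / 1024 := by ring
    have h3 : 0 ≤ M ^ 4 * (M - 16384) / 1024 := by
      have : 0 ≤ M - 16384 := by linarith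
      positivity
    linarith
  have h3 : Z ≤ (M / 4) ^ 5 := hZ.trans (h1.trans h2)
  have h4 : Z ^ 40000 ≤ (M / 4) ^ 200000 := by
    calc Z ^ 40000 ≤ ((M / 4) ^ 5) ^ 40000 := pow_le_pow_left₀ (by linarith) h3 40000
      _ = (M / 4) ^ 200000 := by rw [← pow_mul]
  have h5 : (M / 4) ^ 200000 ≤ (M / 4) ^ I := pow_le_pow_right₀ (by linarith) hI
  have h6 : Z ^ 30711 < Z ^ 40000 := pow_lt_pow_right₀ (by linarith) (by norm_num)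
  linarith

lemma rho_le (κ : ℕ) (l : ℝ) (hκ : 2 ≤ κ) (hl : Real.log κ ≤ l) :
    (rho0 κ : ℝ) ≤ 24 * l + 61 := by
  have hκ0 : (0 : ℝ) < κ := by exact_mod_cast (by omega : 0 < κ)
  have h1 : Real.log (40 * (κ : ℝ) ^ 2) = Real.log 40 + 2 * Real.log κ := by
    rw [Real.log_mul (by norm_num) (by positivity), Real.log_pow]
    norm_num
  have h40 : Real.log 40 ≤ 4 := by
    rw [Real.log_le_iff_le_exp (by norm_num)]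
    have h2 : (2.7182818283 : ℝ) ≤ Real.exp 1 := Real.exp_one_gt_d9.le
    have h3 : Real.exp 4 = Real.exp 1 ^ 4 := by
      rw [← Real.exp_nat_mul]
      norm_num
    rw [h3]
    have h4 : (2.7 : ℝ) ^ 4 ≤ Real.exp 1 ^ 4 := pow_le_pow_left₀ (by norm_num) (by linarith) 4
    have h5 : (40 : ℝ) ≤ 2.7 ^ 4 := by norm_num
    linarith
  have hnn : 0 ≤ Real.log (κ : ℝ) := Real.log_nonneg (by exact_mod_cast (by omega : 1 ≤ κ))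
  have hnn2 : 0 ≤ Real.log (40 : ℝ) := Real.log_nonneg (by norm_num)
  unfold rho0
  have h5 : ((⌈12 * (Real.log (40 * (κ : ℝ) ^ 2) + 1)⌉₊ : ℕ) : ℝ) <
      12 * (Real.log (40 * (κ : ℝ) ^ 2) + 1) + 1 := Nat.ceil_lt_add_one (by rw [h1]; positivity)
  rw [h1] at h5
  rw [h1]
  linarith

lemma rho_bound (I m κ : ℕ) (l : ℝ) (hκ : 2 ≤ κ) (hl : Real.log κ ≤ l) (hl2 : l ≤ 20404 * m)
    (hm : 2000000 * I ≤ m) (hm1 : 61 ≤ m) :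
    2 * I * (m ^ 2 + 1) * rho0 κ ≤ m ^ 4 := by
  have h1 := rho_le κ l hκ hl
  have hm1' : (61 : ℝ) ≤ m := by exact_mod_cast hm1
  have h2 : (rho0 κ : ℝ) ≤ 500000 * m := by linarith
  have hm' : (2000000 : ℝ) * I ≤ m := by exact_mod_cast hm
  have hI : (0 : ℝ) ≤ I := Nat.cast_nonneg I
  have h3 : (2 : ℝ) * (I : ℝ) * ((m : ℝ) ^ 2 + 1) * (rho0 κ : ℝ) ≤ (m : ℝ) ^ 4 := by
    have h4 : (m : ℝ) ^ 2 + 1 ≤ 2 * m ^ 2 := by nlinarith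
    have h0 : (0 : ℝ) ≤ m := by linarith
    calc (2 : ℝ) * (I : ℝ) * ((m : ℝ) ^ 2 + 1) * (rho0 κ : ℝ) ≤
          2 * (I : ℝ) * (2 * (m : ℝ) ^ 2) * (500000 * (m : ℝ)) := by
          apply mul_le_mul _ h2 (Nat.cast_nonneg _) (by positivity)
          exact mul_le_mul_of_nonneg_left h4 (by positivity)
      _ = (2000000 * (I : ℝ)) * (m : ℝ) ^ 3 := by ring
      _ ≤ (m : ℝ) * (m : ℝ) ^ 3 := mul_le_mul_of_nonneg_right hm' (by positivity)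
      _ = (m : ℝ) ^ 4 := by ring
  exact_mod_cast h3

lemma log_two_nat (n : ℕ) (L : ℝ) (hn : 1 ≤ n) (hL : (n : ℝ) ≤ Real.exp L) :
    (Nat.log 2 n : ℝ) ≤ 2 * L := by
  have h1 : 2 ^ Nat.log 2 n ≤ n := Nat.pow_log_le_self 2 (by omega)
  have h2 : (2 : ℝ) ^ Nat.log 2 n ≤ n := by exact_mod_cast h1
  have h3 : Real.log ((2 : ℝ) ^ Nat.log 2 n) ≤ L := by
    rw [Real.log_le_iff_le_exp (by positivity)]
    linarith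
  rw [Real.log_pow] at h3
  have h4 : (0.6931471803 : ℝ) < Real.log 2 := Real.log_two_gt_d9
  have h5 : (0 : ℝ) ≤ (Nat.log 2 n : ℝ) := Nat.cast_nonneg _
  nlinarith

lemma log_pow_le (Z m : ℝ) (k : ℕ) (hZ : 1 ≤ Z) (h : Z ≤ (m + 1) ^ k) :
    Real.log Z ≤ k * Real.log (m + 1) := by
  rw [← Real.log_pow]
  exact Real.log_le_log (by linarith) h

lemma c50_cast : (((2 ^ 50 : ℕ)) : ℝ) = (2 : ℝ) ^ 50 := by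
  rw [Nat.cast_pow, Nat.cast_ofNat]

lemma L51 (Z L : ℝ) (h1 : 1 ≤ Z) (h : (2 : ℝ) ^ 50 ≤ Z) (hL : L < (Z + 1) ^ 50) :
    L ≤ Z ^ 51 := hL.le.trans (succ_pow_le 50 Z h1 h)

lemma kapL (Z κ : ℝ) (hκ : 0 < κ) (h : κ ≤ Z ^ 5101) : Real.log κ ≤ 5101 * Real.log Z := by
  have h1 : Real.log κ ≤ Real.log (Z ^ 5101) := Real.log_le_log hκ h
  rw [Real.log_pow] at h1
  exact_mod_cast h1

lemma kZ1 (Z1 lk lz : ℝ) (h8 : 8 ≤ Z1) (hexp : (Z1 + 1) ^ 30607 ≤ Real.exp (Z1 + 1))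
    (h : lk ≤ 5101 * lz) (h2 : lz ≤ 6 * Real.log (Z1 + 1)) : lk ≤ Z1 := by
  have hpos : 0 < Z1 + 1 := by
    clear hexp
    linarith
  have h3 : Real.log ((Z1 + 1) ^ 30607) ≤ Z1 + 1 := by
    rw [Real.log_le_iff_le_exp (pow_pos hpos _)]
    exact hexp
  clear hexp
  rw [Real.log_pow] at h3
  have h4 : (30607 : ℝ) * Real.log (Z1 + 1) ≤ Z1 + 1 := by exact_mod_cast h3
  have h5 : 1 ≤ Real.log (Z1 + 1) := by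
    rw [Real.le_log_iff_exp_le (by linarith)]
    have h6 : Real.exp 1 < 2.7182818286 := Real.exp_one_lt_d9
    linarith
  linarith

lemma logpow (Z m : ℕ) (k : ℕ) (hZ : 1 ≤ Z) (h : Z < (m + 1) ^ k) :
    Real.log Z ≤ k * Real.log ((m : ℝ) + 1) ∧ (Z : ℝ) ≤ ((m : ℝ) + 1) ^ k := by
  have h1 : (Z : ℝ) ≤ ((m : ℝ) + 1) ^ k := by
    have : ((Z : ℕ) : ℝ) < (((m + 1) ^ k : ℕ) : ℝ) := by exact_mod_cast h
    rw [Nat.cast_pow, Nat.cast_add, Nat.cast_one] at this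
    exact this.le
  exact ⟨log_pow_le Z m k (by exact_mod_cast hZ) h1, h1⟩

lemma lbd (Z L l : ℝ) (hZ : 8 ≤ Z) (hl : l ≤ 2 * L) (hL : L ≤ Z ^ 51) : l + 5 ≤ Z ^ 52 := by
  have h2 : Z ^ 52 = Z ^ 51 * Z := pow_succ _ _
  have h3 : (1 : ℝ) ≤ Z ^ 51 := one_le_pow₀ (by linarith)
  rw [h2]
  generalize Z ^ 51 = w at *
  nlinarith

lemma nlow (Z L n : ℝ) (hn : 1 ≤ n) (h : Real.exp L = 2 * n + 1) (hZL : Z ^ 50 ≤ L) :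
    Real.exp (Z ^ 50 - 2) ≤ n := by
  have hexp2 : (3 : ℝ) ≤ Real.exp 2 := by
    have := Real.add_one_le_exp (2 : ℝ)
    linarith
  rw [Real.exp_sub, div_le_iff₀ (Real.exp_pos _)]
  have h1 : Real.exp (Z ^ 50) ≤ Real.exp L := Real.exp_le_exp.mpr hZL
  rw [h] at h1
  nlinarith

lemma h50 (Z : ℝ) (hZ : 8 ≤ Z) : 8 * Z ^ 40 ≤ Z ^ 50 ∧ Z ≤ Z ^ 40 ∧ Z ^ 16 ≤ Z ^ 40 := by
  have h1 : Z ^ 50 = Z ^ 40 * Z ^ 10 := by rw [← pow_add]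
  have h10 : (8 : ℝ) ≤ Z ^ 10 := by
    calc (8 : ℝ) ≤ Z := hZ
      _ = Z ^ 1 := (pow_one _).symm
      _ ≤ Z ^ 10 := pow_le_pow_right₀ (by linarith) (by norm_num)
  refine ⟨?_, ?_, pow_le_pow_right₀ (by linarith) (by norm_num)⟩
  · rw [h1]
    have : (0 : ℝ) ≤ Z ^ 40 := pow_nonneg (by linarith) _
    generalize Z ^ 40 = w at *
    generalize Z ^ 10 = v at *
    nlinarith
  · calc Z = Z ^ 1 := (pow_one _).symm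
      _ ≤ Z ^ 40 := pow_le_pow_right₀ (by linarith) (by norm_num)

lemma sqn (W Z n : ℝ) (hZ : 8 ≤ Z) (hW0 : 0 ≤ W) (hW : W ≤ Real.exp Z)
    (hn : Real.exp (Z ^ 50 - 2) ≤ n) : W ^ 2 ≤ n := by
  obtain ⟨h1, h2, -⟩ := h50 Z hZ
  calc W ^ 2 ≤ (Real.exp Z) ^ 2 := pow_le_pow_left₀ hW0 hW 2
    _ = Real.exp (2 * Z) := by
        rw [← Real.exp_nat_mul]
        norm_num
    _ ≤ Real.exp (Z ^ 50 - 2) := by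
        apply Real.exp_le_exp.mpr
        linarith
    _ ≤ n := hn

lemma sqrtn (Z Z1 n : ℝ) (hZ : 8 ≤ Z) (h0 : 0 ≤ Z1) (h1 : Z1 ≤ Z)
    (hn : Real.exp (Z ^ 50 - 2) ≤ n) :
    Real.exp (Z ^ 40) * Real.exp (2 * Z1 ^ 16) ≤ Real.sqrt n := by
  obtain ⟨h2, h3, h4⟩ := h50 Z hZ
  have h5 : Z1 ^ 16 ≤ Z ^ 16 := pow_le_pow_left₀ h0 h1 16
  rw [← Real.exp_add]
  apply Real.le_sqrt_of_sq_le
  rw [← Real.exp_nat_mul]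
  refine le_trans (Real.exp_le_exp.mpr ?_) hn
  push_cast
  linarith

lemma upp (Z Z1 L n : ℝ) (I : ℕ) (hZ : 8 ≤ Z) (hZI : (I : ℝ) + 2 ≤ Z) (h0 : 0 ≤ Z1)
    (h1 : Z1 ≤ Z) (hn : n ≤ Real.exp L) (hL : L ≤ Z ^ 51)
    (he : Z ^ 30711 ≤ Real.exp Z) :
    Real.exp (Z1 ^ 16) * n ≤ Real.exp (Real.exp Z - I * Z ^ 37) := by
  have h5 : Z1 ^ 16 ≤ Z ^ 16 := pow_le_pow_left₀ h0 h1 16
  have h2 : Z ^ 52 ≤ Real.exp Z :=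
    (pow_le_pow_right₀ (by linarith) (by norm_num)).trans he
  have h3 : Z ^ 52 = Z * Z ^ 51 := pow_succ' _ _
  have h4 : Z ^ 16 ≤ Z ^ 51 := pow_le_pow_right₀ (by linarith) (by norm_num)
  have h5' : Z ^ 37 ≤ Z ^ 51 := pow_le_pow_right₀ (by linarith) (by norm_num)
  have h6 : (I : ℝ) * Z ^ 37 ≤ I * Z ^ 51 :=
    mul_le_mul_of_nonneg_left h5' (Nat.cast_nonneg _)
  have h7 : ((I : ℝ) + 2) * Z ^ 51 ≤ Z * Z ^ 51 :=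
    mul_le_mul_of_nonneg_right hZI (pow_nonneg (by linarith) _)
  calc Real.exp (Z1 ^ 16) * n ≤ Real.exp (Z1 ^ 16) * Real.exp L :=
        mul_le_mul_of_nonneg_left hn (Real.exp_pos _).le
    _ = Real.exp (Z1 ^ 16 + L) := by rw [Real.exp_add]
    _ ≤ Real.exp (Real.exp Z - I * Z ^ 37) := by
        apply Real.exp_le_exp.mpr
        linarith

lemma w35 (Z Z1 : ℝ) (hZ : 8 ≤ Z) (h0 : 0 ≤ Z1) (h1 : Z1 ≤ Z) : Z1 ^ 16 ≤ Z ^ 35 :=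
  (pow_le_pow_left₀ h0 h1 16).trans (pow_le_pow_right₀ (by linarith) (by norm_num))

lemma five (Z1 Z : ℕ) (h : Z1 ^ 6 ≤ Z) (h2 : 2 ≤ Z1) : Z1 ^ 5 ≤ Z / 2 := by
  rw [Nat.le_div_iff_mul_le (by norm_num)]
  refine le_trans ?_ h
  have h1 : Z1 ^ 6 = Z1 ^ 5 * Z1 := pow_succ _ _
  rw [h1]
  exact Nat.mul_le_mul_left _ h2

lemma four (M0 Z : ℕ) (h : M0 ^ 4 ≤ Z) (h2 : 2 ≤ M0) : M0 ^ 2 + 1 ≤ Z := by
  have h1 : M0 ^ 4 = M0 ^ 2 * M0 ^ 2 := by ring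
  have h3 : 4 ≤ M0 ^ 2 := by nlinarith
  nlinarith

lemma rootL (L : ℝ) (hL0 : 0 ≤ L) (KK : ℕ) (h : (((KK + 1) ^ 50 : ℕ) : ℝ) ≤ L) :
    ∃ Z : ℕ, KK ≤ Z ∧ (Z : ℝ) ^ 50 ≤ L ∧ L < ((Z : ℝ) + 1) ^ 50 := by
  obtain ⟨Z, hZa, hZb⟩ := root 50 (by norm_num) ⌊L⌋₊
  refine ⟨Z, root_large 50 KK ⌊L⌋₊ Z (Nat.le_floor h) hZb, ?_, ?_⟩
  · have h1 : ((Z ^ 50 : ℕ) : ℝ) ≤ (⌊L⌋₊ : ℝ) := Nat.cast_le.mpr hZa
    have h2 : (⌊L⌋₊ : ℝ) ≤ L := Nat.floor_le hL0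
    rw [Nat.cast_pow] at h1
    linarith
  · have h1 : L < ((((Z + 1) ^ 50 : ℕ)) : ℝ) := (Nat.floor_lt hL0).mp hZb
    rw [Nat.cast_pow, Nat.cast_add, Nat.cast_one] at h1
    exact h1

lemma core (I Z0 Z2 K1 K2 c50 KM KZ KK : ℕ) (hI : 200000 ≤ I)
    (hK1 : ∀ z : ℕ, K1 ≤ z → (z : ℝ) ^ 30711 ≤ Real.exp z)
    (hK2 : ∀ z : ℕ, K2 ≤ z → (z : ℝ) ^ 30607 ≤ Real.exp z)
    (hc : (c50 : ℝ) = (2 : ℝ) ^ 50) (hKM : KM = 2000000 * I + 16384)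
    (hKZ : KZ = Z2 + K2 + 8)
    (hKK : KK = K1 + Z0 + I + c50 + (KM + 1) ^ 4 + (KZ + 1) ^ 6 + 8)
    (n κ : ℕ) (L : ℝ) (hn1 : 1 ≤ n) (hL0 : 0 ≤ L) (hexpL : Real.exp L = 2 * n + 1)
    (hLbig : (((KK + 1) ^ 50 : ℕ) : ℝ) ≤ L) (hκ2 : 2 ≤ κ) (hκ : (κ : ℝ) ≤ L ^ (100 : ℕ) + 1) :
    ∃ Z M0 Z1 : ℕ, Z0 ≤ Z ∧ Z2 ≤ Z1 ∧ 4 ≤ M0 ∧ M0 ^ 2 + 1 ≤ Z ∧ Real.log κ ≤ Z1 ∧
      Real.log κ ≤ Z ∧ 2 * I * (M0 ^ 2 + 1) * rho0 κ ≤ Z ∧ Z1 ^ 5 ≤ Z / 2 ∧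
      (Z1 : ℝ) ^ 16 ≤ (Z : ℝ) ^ 35 ∧
      8 * (κ : ℝ) ^ 6 * ((Nat.log 2 n : ℝ) + 5) ^ 2 < ((M0 : ℝ) / 4) ^ I ∧
      8 * (κ : ℝ) ^ 6 * ((Nat.log 2 n : ℝ) + 5) ^ 2 ≤ Real.exp Z ∧
      (8 * (κ : ℝ) ^ 6 * ((Nat.log 2 n : ℝ) + 5) ^ 2) ^ 2 ≤ (n : ℝ) ∧
      Real.exp ((Z : ℝ) ^ 40) * Real.exp (2 * (Z1 : ℝ) ^ 16) ≤ Real.sqrt (n : ℝ) ∧
      Real.exp ((Z1 : ℝ) ^ 16) * (n : ℝ) ≤ Real.exp (Real.exp Z - I * (Z : ℝ) ^ 37) := by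
  obtain ⟨Z, hKZ', hZL, hLZ⟩ := rootL L hL0 KK hLbig
  obtain ⟨M0, hMa, hMb⟩ := root 4 (by norm_num) Z
  obtain ⟨Z1, hZ1a, hZ1b⟩ := root 6 (by norm_num) Z
  have hMK : KM ≤ M0 := root_large 4 KM Z M0 (by omega) hMb
  have hZK : KZ ≤ Z1 := root_large 6 KZ Z Z1 (by omega) hZ1b
  have hZR : (2 : ℝ) ^ 50 ≤ Z := by
    rw [← hc]
    exact Nat.cast_le.mpr (by omega)
  have hZ8 : (8 : ℝ) ≤ Z := by exact_mod_cast (by omega : 8 ≤ Z)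
  have hZ1' : (1 : ℝ) ≤ Z := by exact_mod_cast (by omega : 1 ≤ Z)
  have hZ2' : (2 : ℝ) ≤ Z := by exact_mod_cast (by omega : 2 ≤ Z)
  have hZI : (I : ℝ) + 2 ≤ Z := by exact_mod_cast (by omega : I + 2 ≤ Z)
  have hnR : (1 : ℝ) ≤ n := by exact_mod_cast hn1
  have hL51 : L ≤ (Z : ℝ) ^ 51 := L51 Z L hZ1' hZR hLZ
  have hκZ : (κ : ℝ) ≤ (Z : ℝ) ^ 5101 := kap Z L κ hZ2' hL0 hL51 hκ
  have hκpos : (0 : ℝ) < κ := by exact_mod_cast (by omega : 0 < κ)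
  have hlogκ : Real.log κ ≤ 5101 * Real.log Z := kapL Z κ hκpos hκZ
  obtain ⟨hlogM, hMR⟩ := logpow Z M0 4 (by omega) hMb
  obtain ⟨hlogZ1, hZ1R⟩ := logpow Z Z1 6 (by omega) hZ1b
  have hM0nn : (0 : ℝ) ≤ M0 := Nat.cast_nonneg _
  have hZ1nn : (0 : ℝ) ≤ Z1 := Nat.cast_nonneg _
  have hlogM1 : Real.log ((M0 : ℝ) + 1) ≤ M0 := by
    have := Real.log_le_sub_one_of_pos (add_pos_of_nonneg_of_pos hM0nn one_pos)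
    rw [add_sub_cancel_right] at this
    exact this
  have hκZ1 : Real.log κ ≤ Z1 := by
    refine kZ1 Z1 (Real.log κ) (Real.log Z) (by exact_mod_cast (by omega : 8 ≤ Z1)) ?_ hlogκ ?_
    · have h1 := hK2 (Z1 + 1) (by omega)
      rw [Nat.cast_add, Nat.cast_one] at h1
      exact h1
    · exact hlogZ1
  have hZ1leZ : Z1 ≤ Z := (Nat.le_self_pow (by norm_num) Z1).trans hZ1a
  have hZ1leZR : (Z1 : ℝ) ≤ Z := Nat.cast_le.mpr hZ1leZ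
  have hnexp : (n : ℝ) ≤ Real.exp L := by
    rw [hexpL]
    clear * - hnR
    linarith
  have hlb : (Nat.log 2 n : ℝ) + 5 ≤ (Z : ℝ) ^ 52 :=
    lbd Z L _ hZ8 (log_two_nat n L hn1 hnexp) hL51
  have hl0 : (0 : ℝ) ≤ (Nat.log 2 n : ℝ) + 5 := add_nonneg (Nat.cast_nonneg _) (by norm_num)
  have hW : 8 * (κ : ℝ) ^ 6 * ((Nat.log 2 n : ℝ) + 5) ^ 2 ≤ (Z : ℝ) ^ 30711 :=
    wmax Z κ _ hZ8 hκpos.le hκZ hl0 hlb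
  have hW0 : 0 ≤ 8 * (κ : ℝ) ^ 6 * ((Nat.log 2 n : ℝ) + 5) ^ 2 :=
    mul_nonneg (mul_nonneg (by norm_num) (pow_nonneg hκpos.le _)) (pow_nonneg hl0 _)
  have hZexp : (Z : ℝ) ^ 30711 ≤ Real.exp Z := hK1 Z (by omega)
  have hnlow : Real.exp ((Z : ℝ) ^ 50 - 2) ≤ n := nlow Z L n hnR hexpL hZL
  have hlM : Real.log κ ≤ 20404 * M0 := by
    clear * - hlogκ hlogM hlogM1
    push_cast at hlogM
    linarith
  exact ⟨Z, M0, Z1, by omega, by omega, by omega, four M0 Z hMa (by omega), hκZ1,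
    hκZ1.trans hZ1leZR,
    (rho_bound I M0 κ (Real.log κ) hκ2 le_rfl hlM (by omega) (by omega)).trans hMa,
    five Z1 Z hZ1a (by omega), w35 Z Z1 hZ8 hZ1nn hZ1leZR,
    lt_of_le_of_lt hW (big M0 Z I hI (by exact_mod_cast (by omega : 16384 ≤ M0)) hZ2' hMR),
    hW.trans hZexp, sqn _ Z n hZ8 hW0 (hW.trans hZexp) hnlow,
    sqrtn Z Z1 n hZ8 hZ1nn hZ1leZR hnlow, upp Z Z1 L n I hZ8 hZI hZ1nn hZ1leZR hnexp hL51 hZexp⟩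

end PRM_

open PRM_ in
theorem prm_proof : Stmt_PRM := by
  intro I Z0 Z2 hI
  obtain ⟨K1, hK1⟩ := pow_le_exp 30711
  obtain ⟨K2, hK2⟩ := pow_le_exp 30607
  obtain ⟨KM, hKM⟩ : ∃ KM : ℕ, KM = 2000000 * I + 16384 := ⟨_, rfl⟩
  obtain ⟨KZ, hKZ⟩ : ∃ KZ : ℕ, KZ = Z2 + K2 + 8 := ⟨_, rfl⟩
  obtain ⟨c50, hc50⟩ : ∃ c : ℕ, (c : ℝ) = (2 : ℝ) ^ 50 := ⟨2 ^ 50, c50_cast⟩
  obtain ⟨KK, hKK⟩ : ∃ KK : ℕ, KK = K1 + Z0 + I + c50 + (KM + 1) ^ 4 + (KZ + 1) ^ 6 + 8 :=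
    ⟨_, rfl⟩
  obtain ⟨EE, hEE⟩ : ∃ EE : ℝ, EE = Real.exp (((KK + 1) ^ 50 : ℕ) : ℝ) := ⟨_, rfl⟩
  refine ⟨⌈EE⌉₊ + 1, fun n hn κ hκ2 hκ => ?_⟩
  have hn1 : 1 ≤ n := by omega
  have hnR : (1 : ℝ) ≤ n := by exact_mod_cast hn1
  have hexpL : Real.exp (Real.log (2 * n + 1)) = 2 * n + 1 := by
    rw [Real.exp_log]
    clear * - hnR
    linarith
  have hL0 : 0 ≤ Real.log (2 * (n : ℝ) + 1) := by
    apply Real.log_nonneg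
    clear * - hnR
    linarith
  have hLbig : (((KK + 1) ^ 50 : ℕ) : ℝ) ≤ Real.log (2 * (n : ℝ) + 1) := by
    have h1 : EE ≤ n := (Nat.le_ceil _).trans (Nat.cast_le.mpr (by omega))
    rw [← Real.exp_le_exp, hexpL, ← hEE]
    clear * - h1 hnR
    linarith
  exact core I Z0 Z2 K1 K2 c50 KM KZ KK hI hK1 hK2 hc50 hKM hKZ hKK n κ _ hn1 hL0 hexpL hLbig
    hκ2 hκ

end Pool.Agent.EMS
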