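import Pool.Agent.EMS.StmtsD

/-!
# EMS, module PST: the induction step for `PI` from the inner induction `SKK`
-/

set_option autoImplicit false

open Finset
open scoped BigOperators Classical

namespace Pool.Agent.EMS

namespace PST_

/-- the volume of a box with positive sides is positive -/
lemma vol_pos {r : ℕ} {N : Fin r → ℕ} (h : ∀ l, 1 ≤ N l) : 0 < vol N := by
  unfold vol
  apply Finset.prod_pos
  intro l _
  have := h l
  exact_mod_cast this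

/-- size inequality for the spread -/
lemma spread {Z M0 : ℕ} {θ V u : ℝ} (hZ : 2 ≤ Z) (hM : M0 ^ 2 + 1 ≤ Z)
    (hV : 0 < V) (hu : Real.exp (-((Z : ℝ) ^ 35)) * V ≤ u) :
    ((M0 : ℝ) + 1) * Real.exp (θ + GG Z θ) / u ≤ Real.exp (8 * θ + 14 * (Z : ℝ) ^ 38) / V := by
  have hupos : 0 < u := lt_of_lt_of_le (by positivity) hu
  have hZr : (2 : ℝ) ≤ (Z : ℝ) := by exact_mod_cast hZ
  have hMZ : M0 ≤ Z := by nlinarith
  have hMZr : (M0 : ℝ) ≤ (Z : ℝ) := by exact_mod_cast hMZ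
  have h1 : (M0 : ℝ) + 1 ≤ Real.exp (Z : ℝ) := by
    have := Real.add_one_le_exp (Z : ℝ)
    linarith
  have h35 : (Z : ℝ) ≤ (Z : ℝ) ^ 35 := by
    calc (Z : ℝ) = (Z : ℝ) ^ 1 := (pow_one _).symm
      _ ≤ (Z : ℝ) ^ 35 := pow_le_pow_right₀ (by linarith) (by norm_num)
  have h38 : 8 * (Z : ℝ) ^ 35 ≤ (Z : ℝ) ^ 38 := by
    have h3 : (8 : ℝ) ≤ (Z : ℝ) ^ 3 := by
      calc (8 : ℝ) = 2 ^ 3 := by norm_num
        _ ≤ (Z : ℝ) ^ 3 := pow_le_pow_left₀ (by norm_num) hZr 3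
    calc 8 * (Z : ℝ) ^ 35 ≤ (Z : ℝ) ^ 3 * (Z : ℝ) ^ 35 :=
          mul_le_mul_of_nonneg_right h3 (by positivity)
      _ = (Z : ℝ) ^ 38 := by ring
  have hp : 0 ≤ (Z : ℝ) ^ 35 := by positivity
  rw [div_le_div_iff₀ hupos hV]
  have key : ((M0 : ℝ) + 1) * Real.exp (θ + GG Z θ) ≤
      Real.exp (8 * θ + 14 * (Z : ℝ) ^ 38) * Real.exp (-((Z : ℝ) ^ 35)) := by
    calc ((M0 : ℝ) + 1) * Real.exp (θ + GG Z θ)
        ≤ Real.exp (Z : ℝ) * Real.exp (θ + GG Z θ) :=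
          mul_le_mul_of_nonneg_right h1 (Real.exp_pos _).le
      _ = Real.exp ((Z : ℝ) + (θ + GG Z θ)) := by rw [← Real.exp_add]
      _ ≤ Real.exp (8 * θ + 14 * (Z : ℝ) ^ 38 + -((Z : ℝ) ^ 35)) := by
          apply Real.exp_le_exp.2
          unfold GG
          linarith
      _ = _ := by rw [Real.exp_add]
  calc ((M0 : ℝ) + 1) * Real.exp (θ + GG Z θ) * V
      ≤ Real.exp (8 * θ + 14 * (Z : ℝ) ^ 38) * Real.exp (-((Z : ℝ) ^ 35)) * V :=
        mul_le_mul_of_nonneg_right key hV.le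
    _ = Real.exp (8 * θ + 14 * (Z : ℝ) ^ 38) * (Real.exp (-((Z : ℝ) ^ 35)) * V) := by ring
    _ ≤ Real.exp (8 * θ + 14 * (Z : ℝ) ^ 38) * u :=
        mul_le_mul_of_nonneg_left hu (Real.exp_pos _).le

/-- dropping the types -/
lemma drop {r : ℕ} {N : Fin r → ℕ} {U : ℕ → Finset (Fin r → ℤ)} {s s' W1 W2 W b pF : ℝ}
    (hW0 : 0 ≤ W) (h1 : W ≤ W1) (h2 : W ≤ W2) (hs : s ≤ s')
    (h : TF N U (fun _ _ => s) W1 W2 b pF) : RC U ((1 - pF) * W) s' := by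
  obtain ⟨Ω, inst, p, ty, X, T, hp, hsum, hcert, hfail, hemp, hsp, hw1, hw2, -⟩ := h
  refine ⟨Ω, inst, p, X, T, hp, hsum, hcert, fun t x => (hsp t x).trans hs, ?_⟩
  set f : Ω → ℝ := fun ω => p ω * ∑ t ∈ Finset.range T, ((X ω t).card : ℝ) with hf
  have hf0 : ∀ ω, 0 ≤ f ω := fun ω => mul_nonneg (hp ω) (Finset.sum_nonneg fun _ _ => by positivity)
  set P0 := ∑ ω, (if ty ω = 0 then p ω else 0) with hP0
  set P1 := ∑ ω, (if ty ω = 1 then p ω else 0) with hP1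
  set P2 := ∑ ω, (if ty ω = 2 then p ω else 0) with hP2
  have hsplit : P0 + P1 + P2 = 1 := by
    rw [← hsum, hP0, hP1, hP2, ← Finset.sum_add_distrib, ← Finset.sum_add_distrib]
    apply Finset.sum_congr rfl
    intro ω _
    have : ty ω = 0 ∨ ty ω = 1 ∨ ty ω = 2 := by
      generalize ty ω = a
      fin_cases a <;> simp
    rcases this with h | h | h <;> simp [h]
  have hP00 : 0 ≤ P0 := Finset.sum_nonneg fun ω _ => by split_ifs <;> [exact hp ω; exact le_rfl]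
  have hP10 : 0 ≤ P1 := Finset.sum_nonneg fun ω _ => by split_ifs <;> [exact hp ω; exact le_rfl]
  have hle : (∑ ω, (if ty ω = 0 then f ω else 0)) + (∑ ω, (if ty ω = 1 then f ω else 0)) ≤
      ∑ ω, f ω := by
    rw [← Finset.sum_add_distrib]
    apply Finset.sum_le_sum
    intro ω _
    have h0 := hf0 ω
    by_cases ha : ty ω = 0
    · simp [ha]
    · by_cases hb : ty ω = 1
      · simp [hb]
      · simp [ha, hb, h0]
  have e1 : W * P0 ≤ ∑ ω, (if ty ω = 0 then f ω else 0) :=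
    (mul_le_mul_of_nonneg_right h1 hP00).trans hw1
  have e2 : W * P1 ≤ ∑ ω, (if ty ω = 1 then f ω else 0) :=
    (mul_le_mul_of_nonneg_right h2 hP10).trans hw2
  calc (1 - pF) * W ≤ (P0 + P1) * W := by
        apply mul_le_mul_of_nonneg_right _ hW0
        linarith
    _ = W * P0 + W * P1 := by ring
    _ ≤ _ := add_le_add e1 e2
    _ ≤ _ := hle

end PST_

open PST_ in
/-- PST: the induction step for `PI` -/
theorem pst_proof (h : Stmt_SKK) : Stmt_PST := by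
  obtain ⟨Z0, hZ0⟩ := h
  refine ⟨max Z0 2, ?_⟩
  intro Z hZ κ M0 R R' W θ lo hi hPI hW hθ hlo hhi hM0 hM0Z hκ hlog hrho hRZ hR'
  have hZ1 : Z0 ≤ Z := le_trans (le_max_left _ _) hZ
  have hZ2 : 2 ≤ Z := le_trans (le_max_right _ _) hZ
  have hZr : (2 : ℝ) ≤ (Z : ℝ) := by exact_mod_cast hZ2
  have hMZ : M0 ≤ Z := by nlinarith
  have hMZr : (M0 : ℝ) ≤ (Z : ℝ) := by exact_mod_cast hMZ
  have hM1 : (1 : ℝ) ≤ (M0 : ℝ) := by exact_mod_cast hM0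
  have hθ0 : 0 ≤ θ := le_trans (by positivity) hθ
  have hHH : 0 ≤ HH Z θ := by unfold HH; positivity
  have hSK := hZ0 Z hZ1 κ M0 R W θ lo hi hPI hθ hlo hhi hM0 hM0Z hκ hlog hrho hRZ M0 le_rfl
  intro r N U hr hN hU hNT hvlo hvhi hU0
  have hV : 0 < vol N := vol_pos hN
  have c1 : r + rho0 κ + M0 * M0 * rho0 κ ≤ R := by
    calc r + rho0 κ + M0 * M0 * rho0 κ = r + (M0 ^ 2 + 1) * rho0 κ := by ring
      _ ≤ R' + (M0 ^ 2 + 1) * rho0 κ := by gcongr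
      _ ≤ R := hR'
  have c2 : Real.exp (lo + ((M0 : ℝ) * M0 + 1) * HH Z θ) ≤ vol N := by
    refine le_trans (Real.exp_le_exp.2 ?_) hvlo
    have : (M0 : ℝ) * M0 + 1 ≤ Z := by
      have : ((M0 ^ 2 + 1 : ℕ) : ℝ) ≤ (Z : ℝ) := by exact_mod_cast hM0Z
      push_cast at this
      nlinarith
    have := mul_le_mul_of_nonneg_right this hHH
    linarith
  have c3 : vol N ≤ Real.exp (hi - (Z : ℝ) ^ 36 - 2 * Z * M0) := by
    refine le_trans hvhi (Real.exp_le_exp.2 ?_)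
    have e1 : 2 * (Z : ℝ) ^ 36 ≤ (Z : ℝ) ^ 37 := by
      calc 2 * (Z : ℝ) ^ 36 ≤ (Z : ℝ) * (Z : ℝ) ^ 36 :=
            mul_le_mul_of_nonneg_right hZr (by positivity)
        _ = (Z : ℝ) ^ 37 := by ring
    have e2 : 2 * (Z : ℝ) * M0 ≤ (Z : ℝ) ^ 36 := by
      calc 2 * (Z : ℝ) * M0 ≤ (Z : ℝ) * Z * Z := by gcongr
        _ = (Z : ℝ) ^ 3 := by ring
        _ ≤ (Z : ℝ) ^ 36 := pow_le_pow_right₀ (by linarith) (by norm_num)
    linarith
  have c4 : Real.exp (-((Z : ℝ) ^ 35 + 3 * Z * ((M0 : ℝ) - M0))) * vol N ≤ ((U 0).card : ℝ) := by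
    have : (Z : ℝ) ^ 35 + 3 * Z * ((M0 : ℝ) - M0) = (Z : ℝ) ^ 35 := by ring
    rw [this]
    exact hU0
  have hTF := hSK r N U c1 hN hU hNT c2 c3 c4
  have hexp : Real.exp (-(Z : ℝ)) ≤ 1 / 2 := by
    have h1 : (2 : ℝ) ≤ Real.exp (Z : ℝ) := by
      have := Real.add_one_le_exp (Z : ℝ)
      linarith
    rw [Real.exp_neg, inv_eq_one_div]
    exact one_div_le_one_div_of_le (by norm_num) h1
  have hexp0 : 0 < Real.exp (-(Z : ℝ)) := Real.exp_pos _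
  have hs := spread (θ := θ) hZ2 hM0Z hV hU0
  have hW' : 0 ≤ (M0 : ℝ) * (W - Real.exp (-(Z : ℝ))) := by
    apply mul_nonneg <;> linarith
  have hW1 : (M0 : ℝ) * (W - Real.exp (-(Z : ℝ))) ≤ M0 * W - Real.exp (-(Z : ℝ)) := by
    nlinarith
  have hRC := drop hW' hW1 le_rfl hs hTF
  obtain ⟨Ω, inst, p, X, T, hp, hsum, hcert, hsp, hw⟩ := hRC
  refine ⟨Ω, inst, p, X, T, hp, hsum, hcert, hsp, le_trans ?_ hw⟩
  have e3 : (M0 : ℝ) / (4 * M0) = 1 / 4 := by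
    field_simp
  rw [e3]
  nlinarith

end Pool.Agent.EMS
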