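import Pool.Agent.EMS.StmtsD

set_option autoImplicit false

open Finset
open scoped BigOperators Classical

namespace Pool.Agent.EMS

namespace PUL_

variable {r : ℕ}

theorem mem_box {d : ℕ} {M : Fin d → ℕ} {u : Fin d → ℤ} :
    u ∈ box M ↔ ∀ l, 0 ≤ u l ∧ u l < M l := by
  unfold box
  simp [Fintype.mem_piFinset]

theorem inj (S : SG r) {u u' : Fin S.d → ℤ} (hu : u ∈ box S.M) (hu' : u' ∈ box S.M)
    (h : S.φ u = S.φ u') : u = u' := by
  have h0 : S.φ (u - u') = 0 := by rw [map_sub, h, sub_self]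
  have := S.proper (u - u') (fun l => by
    have h1 := mem_box.mp hu l
    have h2 := mem_box.mp hu' l
    show |u l - u' l| ≤ 8 * (S.M l : ℤ)
    rw [abs_le]
    constructor <;> omega) h0
  exact sub_eq_zero.mp this

theorem par (S : SG r) (c : Fin r → ℤ) {u u' : Fin S.d → ℤ} (h : Par u u') :
    Par (c + S.φ u) (c + S.φ u') := by
  choose w hw using h
  have h1 : u - u' = w + w := by
    funext l
    show u l - u' l = w l + w l
    rw [hw l]; ring
  intro l
  refine ⟨S.φ w l, ?_⟩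
  have h2 : S.φ u - S.φ u' = S.φ w + S.φ w := by rw [← map_sub, h1, map_add]
  have h3 := congrFun h2 l
  simp only [Pi.sub_apply, Pi.add_apply] at h3 ⊢
  linarith

theorem mid (S : SG r) (c : Fin r → ℤ) {u u' : Fin S.d → ℤ} (hu : u ∈ box S.M)
    (hu' : u' ∈ box S.M) (h : Par u u') {z : Fin r → ℤ}
    (hz : z + z = (c + S.φ u) + (c + S.φ u')) :
    ∃ w ∈ box S.M, w + w = u + u' ∧ z = c + S.φ w := by
  choose w hw using h
  have hm : ∀ l, (u' l + w l) + (u' l + w l) = u l + u' l := by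
    intro l
    have := hw l
    omega
  refine ⟨u' + w, ?_, ?_, ?_⟩
  · rw [mem_box]
    intro l
    have h1 := mem_box.mp hu l
    have h2 := mem_box.mp hu' l
    have h3 := hm l
    simp only [Pi.add_apply]
    omega
  · funext l
    simp only [Pi.add_apply]
    exact hm l
  · have h1 : (u' + w) + (u' + w) = u + u' := by
      funext l
      simp only [Pi.add_apply]
      exact hm l
    have h2 : S.φ (u' + w) + S.φ (u' + w) = S.φ u + S.φ u' := by
      rw [← map_add, h1, map_add]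
    funext l
    have h3 := congrFun h2 l
    have h4 := congrFun hz l
    simp only [Pi.add_apply] at h3 h4 ⊢
    omega

/-- the parametrisation -/
noncomputable def f (S : SG r) (c : Fin r → ℤ) (u : Fin S.d → ℤ) : Fin r → ℤ := c + S.φ u

theorem injOn (S : SG r) (c : Fin r → ℤ) : Set.InjOn (f S c) (box S.M : Set (Fin S.d → ℤ)) := by
  intro u hu u' hu' h
  exact inj S (by simpa using hu) (by simpa using hu') (add_left_cancel h)

theorem cert {U : ℕ → Finset (Fin r → ℤ)} (S : SG r) (c : Fin r → ℤ) (τ t : ℕ)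
    {X : Finset (Fin S.d → ℤ)} (h : Cert (S.pb c fun t => U (τ + t)) t X) :
    Cert U (τ + t) (X.image (f S c)) := by
  obtain ⟨h1, h2, h3⟩ := h
  refine ⟨?_, ?_, ?_⟩
  · intro x hx
    obtain ⟨u, hu, rfl⟩ := mem_image.mp hx
    exact (mem_filter.mp (h1 hu)).2
  · intro x hx y hy
    obtain ⟨u, hu, rfl⟩ := mem_image.mp hx
    obtain ⟨v, hv, rfl⟩ := mem_image.mp hy
    exact par S c (h2 u hu v hv)
  · intro x hx y hy hxy z hz hzz
    obtain ⟨u, hu, rfl⟩ := mem_image.mp hx
    obtain ⟨v, hv, rfl⟩ := mem_image.mp hy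
    have huB := (mem_filter.mp (h1 hu)).1
    have hvB := (mem_filter.mp (h1 hv)).1
    obtain ⟨w, hw, hww, hzw⟩ := mid S c huB hvB (h2 u hu v hv) hzz
    refine h3 u hu v hv (fun huv => hxy (by rw [huv])) w ?_ hww
    refine mem_filter.mpr ⟨hw, ?_⟩
    show c + S.φ w ∈ U (τ + (t + 1))
    rw [← hzw]
    exact hz

theorem subB {U : ℕ → Finset (Fin r → ℤ)} (S : SG r) (c : Fin r → ℤ) (t : ℕ) :
    S.pb c U t ⊆ box S.M := filter_subset _ _

theorem chain {κ : ℕ} {N : Fin r → ℕ} {U : ℕ → Finset (Fin r → ℤ)} (S : SG r) (c : Fin r → ℤ)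
    (τ : ℕ) (h : Chain κ N U) : Chain κ S.M (S.pb c fun t => U (τ + t)) := by
  refine ⟨fun t => subB S c t, ?_, ?_⟩
  · obtain ⟨T, hT⟩ := h.fin
    refine ⟨T, fun t ht => ?_⟩
    show (box S.M).filter (fun u => c + S.φ u ∈ U (τ + t)) = ∅
    rw [hT (τ + t) (by omega)]
    simp
  · intro t X hX hpar hcard
    have hXB : X ⊆ box S.M := hX.trans (subB S c t)
    have hinj : Set.InjOn (f S c) (X : Set (Fin S.d → ℤ)) :=
      (injOn S c).mono (by exact_mod_cast hXB)
    obtain ⟨x, hx, y, hy, hxy, z, hz, hzz⟩ := h.link (τ + t) (X.image (f S c)) (by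
        intro x hx
        obtain ⟨u, hu, rfl⟩ := mem_image.mp hx
        exact (mem_filter.mp (hX hu)).2) (by
        intro x hx y hy
        obtain ⟨u, hu, rfl⟩ := mem_image.mp hx
        obtain ⟨v, hv, rfl⟩ := mem_image.mp hy
        exact par S c (hpar u hu v hv)) (by
        rw [card_image_of_injOn hinj]; exact hcard)
    obtain ⟨u, hu, rfl⟩ := mem_image.mp hx
    obtain ⟨v, hv, rfl⟩ := mem_image.mp hy
    obtain ⟨w, hw, hww, hzw⟩ := mid S c (hXB hu) (hXB hv) (hpar u hu v hv) hzz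
    refine ⟨u, hu, v, hv, fun huv => hxy (by rw [huv]), w, ?_, hww⟩
    refine mem_filter.mpr ⟨hw, ?_⟩
    show c + S.φ w ∈ U (τ + (t + 1))
    rw [← hzw]
    exact hz

theorem cardpb {V : ℕ → Finset (Fin r → ℤ)} (S : SG r) (c : Fin r → ℤ) (t : ℕ) :
    (S.pb c V t).card = (V t ∩ S.bx c).card := by
  rw [← card_image_of_injOn (s := S.pb c V t) (f := f S c)
    ((injOn S c).mono (by exact_mod_cast subB S c t))]
  congr 1
  ext x
  simp only [mem_image, mem_inter, SG.bx, SG.pb, mem_filter]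
  constructor
  · rintro ⟨u, ⟨hu, hu2⟩, rfl⟩
    exact ⟨hu2, u, hu, rfl⟩
  · rintro ⟨hx, u, hu, rfl⟩
    exact ⟨u, ⟨hu, hx⟩, rfl⟩

theorem cardbx (S : SG r) (c : Fin r → ℤ) : ((S.bx c).card : ℝ) = S.v := by
  have : (S.bx c).card = (box S.M).card := card_image_of_injOn (injOn S c)
  rw [this]
  unfold box SG.v
  rw [Fintype.card_piFinset]
  push_cast
  simp

theorem nt {U : ℕ → Finset (Fin r → ℤ)} (S : SG r) (c : Fin r → ℤ) (τ : ℕ) (J : ℝ)
    (h : NT U J) : NT (S.pb c fun t => U (τ + t)) J := by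
  intro Q hQ
  have := h (Q.image fun t => τ + t) (by
    intro t ht
    obtain ⟨s, hs, rfl⟩ := mem_image.mp ht
    obtain ⟨u, hu⟩ := hQ s hs
    exact ⟨c + S.φ u, (mem_filter.mp hu).2⟩)
  rwa [card_image_of_injective _ (fun a b hab => by simpa using hab)] at this

theorem sumle (S : SG r) (c : Fin r → ℤ) (τ T : ℕ) (X : ℕ → Finset (Fin S.d → ℤ))
    (hX : ∀ t, X t ⊆ box S.M) :
    ∑ t ∈ Finset.range T, ((X t).card : ℝ) ≤ ∑ t ∈ Finset.range (τ + T),
      (((if τ ≤ t then (X (t - τ)).image (f S c) else ∅ : Finset (Fin r → ℤ))).card : ℝ) := by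
  rw [Finset.sum_range_add]
  have h1 : ∑ t ∈ Finset.range T, ((X t).card : ℝ) = ∑ t ∈ Finset.range T,
      (((if τ ≤ τ + t then (X (τ + t - τ)).image (f S c) else ∅ :
        Finset (Fin r → ℤ))).card : ℝ) := by
    apply Finset.sum_congr rfl
    intro t _
    rw [if_pos (Nat.le_add_right _ _), Nat.add_sub_cancel_left, card_image_of_injOn]
    exact (injOn S c).mono (by exact_mod_cast hX t)
  rw [h1]
  have h0 : (0 : ℝ) ≤ ∑ t ∈ Finset.range τ,
      (((if τ ≤ t then (X (t - τ)).image (f S c) else ∅ : Finset (Fin r → ℤ))).card : ℝ) :=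
    Finset.sum_nonneg fun _ _ => Nat.cast_nonneg _
  linarith

end PUL_

open PUL_ in
/-- PUL: pull back to a GAP -/
theorem pul_proof : Stmt_PUL := by
  intro r κ N U S c τ hU
  refine ⟨chain S c τ hU, fun t => cardpb S c t, nt S c τ, cardbx S c, ?_⟩
  intro W s P hs h
  obtain ⟨Ω, iΩ, p, X, T, hp, hp1, hC, hP, hsp, hW⟩ := h
  refine ⟨Ω, iΩ, p, fun ω t => if τ ≤ t then (X ω (t - τ)).image (f S c) else ∅, τ + T, hp, hp1,
    ?_, ?_, ?_, ?_⟩
  · intro ω t
    dsimp only
    split_ifs with h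
    · obtain ⟨t0, rfl⟩ := Nat.exists_eq_add_of_le h
      rw [Nat.add_sub_cancel_left]
      exact cert S c τ t0 (hC ω t0)
    · exact ⟨by simp, by simp, by simp⟩
  · intro ω t x hx
    dsimp only at hx
    split_ifs at hx with h
    · obtain ⟨t0, rfl⟩ := Nat.exists_eq_add_of_le h
      rw [Nat.add_sub_cancel_left] at hx
      obtain ⟨u, hu, rfl⟩ := mem_image.mp hx
      exact ⟨t0, u, rfl, subB S c t0 ((hC ω t0).1 hu), rfl, hP ω t0 u hu⟩
    · simp at hx
  · intro t x
    by_cases h : τ ≤ t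
    · obtain ⟨t0, rfl⟩ := Nat.exists_eq_add_of_le h
      by_cases hx : ∃ u ∈ box S.M, f S c u = x
      · obtain ⟨u, hu, rfl⟩ := hx
        refine le_trans (le_of_eq ?_) (hsp t0 u)
        apply Finset.sum_congr rfl
        intro ω _
        have : f S c u ∈ (if τ ≤ τ + t0 then (X ω (τ + t0 - τ)).image (f S c) else ∅) ↔
            u ∈ X ω t0 := by
          rw [if_pos h, Nat.add_sub_cancel_left, mem_image]
          constructor
          · rintro ⟨v, hv, hvu⟩
            have hvB := subB S c t0 ((hC ω t0).1 hv)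
            have := injOn S c (by exact_mod_cast hvB) (by exact_mod_cast hu) hvu
            rwa [← this]
          · intro hu
            exact ⟨u, hu, rfl⟩
        by_cases hm : u ∈ X ω t0
        · rw [if_pos (this.mpr hm), if_pos hm]
        · rw [if_neg (fun h' => hm (this.mp h')), if_neg hm]
      · refine le_trans (le_of_eq ?_) hs
        apply Finset.sum_eq_zero
        intro ω _
        rw [if_neg]
        intro hxm
        dsimp only at hxm
        rw [if_pos h, Nat.add_sub_cancel_left, mem_image] at hxm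
        obtain ⟨v, hv, hvx⟩ := hxm
        exact hx ⟨v, subB S c t0 ((hC ω t0).1 hv), hvx⟩
    · refine le_trans (le_of_eq ?_) hs
      apply Finset.sum_eq_zero
      intro ω _
      rw [if_neg]
      dsimp only
      rw [if_neg h]
      simp
  · refine hW.trans ?_
    apply Finset.sum_le_sum
    intro ω _
    apply mul_le_mul_of_nonneg_left _ (hp ω)
    exact sumle S c τ T (X ω) fun t => (hC ω t).1.trans (subB S c t)

end Pool.Agent.EMS
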