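import Pool.Agent.EMS.StmtsD

/-!
# EMS, module PUS: pull back to a translate of a symmetric GAP
-/

set_option autoImplicit false

open Finset
open scoped BigOperators Classical

namespace Pool.Agent.EMS

namespace PUS_

variable {r : ℕ}

/-- the shifted embedding -/
noncomputable def e (S : SG r) (c : Fin r → ℤ) (u : Fin S.d → ℤ) : Fin r → ℤ :=
  c + S.φ (fun l => u l - (S.M l : ℤ))

theorem mem_box {d : ℕ} {N : Fin d → ℕ} {u : Fin d → ℤ} :
    u ∈ box N ↔ ∀ l, 0 ≤ u l ∧ u l < (N l : ℤ) := by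
  unfold box
  simp [Fintype.mem_piFinset]

theorem mem_sbox {d : ℕ} {N : Fin d → ℕ} {u : Fin d → ℤ} :
    u ∈ sbox N ↔ ∀ l, -(N l : ℤ) ≤ u l ∧ u l ≤ (N l : ℤ) := by
  unfold sbox
  simp [Fintype.mem_piFinset]

theorem mem_sM {S : SG r} {u : Fin S.d → ℤ} :
    u ∈ box S.sM ↔ ∀ l, 0 ≤ u l ∧ u l ≤ 2 * (S.M l : ℤ) := by
  rw [mem_box]
  refine forall_congr' fun l => ?_
  have : ((S.sM l : ℕ) : ℤ) = 2 * (S.M l : ℤ) + 1 := by
    unfold SG.sM
    push_cast
    ring
  rw [this]
  constructor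
  · rintro ⟨h1, h2⟩
    exact ⟨h1, by linarith⟩
  · rintro ⟨h1, h2⟩
    exact ⟨h1, by linarith⟩

theorem e_sub (S : SG r) (c : Fin r → ℤ) (u u' : Fin S.d → ℤ) :
    e S c u - e S c u' = S.φ (u - u') := by
  unfold e
  rw [add_sub_add_left_eq_sub, ← map_sub]
  congr 1
  funext l
  simp

theorem e_inj (S : SG r) (c : Fin r → ℤ) {u u' : Fin S.d → ℤ} (hu : u ∈ box S.sM)
    (hu' : u' ∈ box S.sM) (h : e S c u = e S c u') : u = u' := by
  rw [mem_sM] at hu hu'
  have h1 : S.φ (u - u') = 0 := by rw [← e_sub S c, h, sub_self]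
  have h2 := S.proper (u - u') (fun l => by
    rw [Pi.sub_apply, abs_le]
    have h3 := hu l
    have h4 := hu' l
    have h5 : (0 : ℤ) ≤ S.M l := by positivity
    constructor <;> linarith [h3.1, h3.2, h4.1, h4.2]) h1
  exact sub_eq_zero.1 h2

theorem e_injOn (S : SG r) (c : Fin r → ℤ) : Set.InjOn (e S c) (box S.sM : Set (Fin S.d → ℤ)) :=
  fun _ hu _ hu' h => e_inj S c hu hu' h

theorem mem_pbs {S : SG r} {c : Fin r → ℤ} {U : ℕ → Finset (Fin r → ℤ)} {t : ℕ}
    {u : Fin S.d → ℤ} : u ∈ S.pbs c U t ↔ u ∈ box S.sM ∧ e S c u ∈ U t := by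
  unfold SG.pbs e
  rw [Finset.mem_filter]

theorem e_mem_sy (S : SG r) (c : Fin r → ℤ) {u : Fin S.d → ℤ} (hu : u ∈ box S.sM) :
    e S c u ∈ S.sy c := by
  unfold SG.sy
  rw [Finset.mem_image]
  refine ⟨fun l => u l - (S.M l : ℤ), ?_, rfl⟩
  rw [mem_sM] at hu
  rw [mem_sbox]
  intro l
  have := hu l
  constructor <;> linarith [this.1, this.2]

theorem exists_of_sy (S : SG r) (c : Fin r → ℤ) {x : Fin r → ℤ} (hx : x ∈ S.sy c) :
    ∃ u ∈ box S.sM, e S c u = x := by
  unfold SG.sy at hx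
  rw [Finset.mem_image] at hx
  obtain ⟨v, hv, rfl⟩ := hx
  rw [mem_sbox] at hv
  refine ⟨fun l => v l + (S.M l : ℤ), ?_, ?_⟩
  · rw [mem_sM]
    intro l
    have := hv l
    constructor <;> linarith [this.1, this.2]
  · unfold e
    congr 2
    funext l
    ring

theorem par_image (S : SG r) (c : Fin r → ℤ) {u u' : Fin S.d → ℤ} (h : Par u u') :
    Par (e S c u) (e S c u') := by
  choose w hw using h
  have h1 : u - u' = (2 : ℤ) • w := by
    funext l
    rw [Pi.sub_apply, hw l]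
    simp
  intro j
  have h2 : e S c u j - e S c u' j = (e S c u - e S c u') j := rfl
  rw [h2, e_sub, h1, map_smul]
  exact ⟨S.φ w j, by simp⟩

/-- the midpoint -/
theorem midpoint (S : SG r) (c : Fin r → ℤ) {u u' : Fin S.d → ℤ} (hu : u ∈ box S.sM)
    (hu' : u' ∈ box S.sM) (h : Par u u') {z : Fin r → ℤ} (hz : z + z = e S c u + e S c u') :
    ∃ w ∈ box S.sM, e S c w = z ∧ w + w = u + u' := by
  choose v hv using h
  refine ⟨fun l => u' l + v l, ?_, ?_, ?_⟩
  · rw [mem_sM] at hu hu' ⊢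
    intro l
    have h1 := hu l
    have h2 := hu' l
    have h3 := hv l
    constructor <;> linarith [h1.1, h1.2, h2.1, h2.2]
  · have key : e S c (fun l => u' l + v l) + e S c (fun l => u' l + v l) = z + z := by
      rw [hz]
      unfold e
      have h1 : ∀ a b x : Fin r → ℤ, (c + a) + (c + b) = (c + c) + (a + b) := by
        intro a b x
        abel
      rw [h1 _ _ 0, h1 _ _ 0, ← map_add, ← map_add]
      congr 2
      funext l
      have h3 := hv l
      simp only [Pi.add_apply]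
      linarith
    funext j
    have h4 := congrFun key j
    simp only [Pi.add_apply] at h4
    linarith
  · funext l
    have h3 := hv l
    simp only [Pi.add_apply]
    linarith

theorem card_sbox {d : ℕ} (N : Fin d → ℕ) : (sbox N).card = ∏ l, (2 * N l + 1) := by
  unfold sbox
  rw [Fintype.card_piFinset]
  refine Finset.prod_congr rfl fun l _ => ?_
  rw [Int.card_Icc]
  omega

end PUS_

open PUS_ in
theorem pus_proof : Stmt_PUS := by
  intro r κ N U S c hU
  have hsubU : ∀ t, ∀ X ⊆ S.pbs c U t, X.image (e S c) ⊆ U t := by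
    intro t X hX x hx
    rw [Finset.mem_image] at hx
    obtain ⟨u, hu, rfl⟩ := hx
    exact (mem_pbs.1 (hX hu)).2
  have hcardX : ∀ t, ∀ X ⊆ S.pbs c U t, (X.image (e S c)).card = X.card := by
    intro t X hX
    refine Finset.card_image_of_injOn ?_
    intro u hu u' hu' h
    exact e_inj S c (mem_pbs.1 (hX hu)).1 (mem_pbs.1 (hX hu')).1 h
  refine ⟨⟨?_, ?_, ?_⟩, ?_, ?_, ?_, ?_, ?_⟩
  · intro t
    exact Finset.filter_subset _ _
  · obtain ⟨T, hT⟩ := hU.fin
    refine ⟨T, fun t ht => ?_⟩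
    rw [Finset.eq_empty_iff_forall_notMem]
    intro u hu
    have := (mem_pbs.1 hu).2
    rw [hT t ht] at this
    exact absurd this (Finset.notMem_empty _)
  · intro t X hX hpar hκ
    obtain ⟨x', hx', y', hy', hne, z, hz, hzz⟩ := hU.link t (X.image (e S c)) (hsubU t X hX)
      (by
        intro x hx y hy
        rw [Finset.mem_image] at hx hy
        obtain ⟨u, hu, rfl⟩ := hx
        obtain ⟨u', hu', rfl⟩ := hy
        exact par_image S c (hpar u hu u' hu'))
      (by rw [hcardX t X hX]; exact hκ)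
    rw [Finset.mem_image] at hx' hy'
    obtain ⟨u, hu, rfl⟩ := hx'
    obtain ⟨u', hu', rfl⟩ := hy'
    obtain ⟨w, hw, hwz, hww⟩ := midpoint S c (mem_pbs.1 (hX hu)).1 (mem_pbs.1 (hX hu')).1
      (hpar u hu u' hu') hzz
    refine ⟨u, hu, u', hu', fun h => hne (by rw [h]), w, ?_, hww⟩
    rw [mem_pbs]
    exact ⟨hw, by rw [hwz]; exact hz⟩
  · unfold vol SG.sv SG.sM
    refine Finset.prod_congr rfl fun l _ => ?_
    push_cast
    ring
  · have h1 : (S.sy c).card = (sbox S.M).card := by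
      unfold SG.sy
      refine Finset.card_image_of_injOn ?_
      intro u hu u' hu' h
      have h2 : S.φ (u - u') = 0 := by
        rw [map_sub, sub_eq_zero]
        exact add_left_cancel h
      have hu1 := mem_sbox.1 hu
      have hu2 := mem_sbox.1 hu'
      have h3 := S.proper (u - u') (fun l => by
        rw [Pi.sub_apply, abs_le]
        have h4 := hu1 l
        have h5 := hu2 l
        constructor <;> linarith [h4.1, h4.2, h5.1, h5.2]) h2
      exact sub_eq_zero.1 h3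
    rw [h1, card_sbox]
    unfold SG.sv
    push_cast
    rfl
  · intro t
    have h1 : (S.pbs c U t).image (e S c) = U t ∩ S.sy c := by
      ext x
      rw [Finset.mem_image, Finset.mem_inter]
      constructor
      · rintro ⟨u, hu, rfl⟩
        exact ⟨(mem_pbs.1 hu).2, e_mem_sy S c (mem_pbs.1 hu).1⟩
      · rintro ⟨hx1, hx2⟩
        obtain ⟨u, hu, rfl⟩ := exists_of_sy S c hx2
        exact ⟨u, mem_pbs.2 ⟨hu, hx1⟩, rfl⟩
    rw [← h1, hcardX t _ (Finset.Subset.refl _)]
  · intro J hJ T hT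
    refine hJ T fun t ht => ?_
    obtain ⟨u, hu⟩ := hT t ht
    exact ⟨_, (mem_pbs.1 hu).2⟩
  · intro t X hX
    obtain ⟨hX1, hX2, hX3⟩ := hX
    refine ⟨⟨hsubU t X hX1, ?_, ?_⟩, hcardX t X hX1, ?_⟩
    · intro x hx y hy
      rw [Finset.mem_image] at hx hy
      obtain ⟨u, hu, rfl⟩ := hx
      obtain ⟨u', hu', rfl⟩ := hy
      exact par_image S c (hX2 u hu u' hu')
    · intro x hx y hy hne z hz hzz
      rw [Finset.mem_image] at hx hy
      obtain ⟨u, hu, rfl⟩ := hx
      obtain ⟨u', hu', rfl⟩ := hy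
      obtain ⟨w, hw, hwz, hww⟩ := midpoint S c (mem_pbs.1 (hX1 hu)).1 (mem_pbs.1 (hX1 hu')).1
        (hX2 u hu u' hu') hzz
      refine hX3 u hu u' hu' (fun h => hne (by rw [h])) w ?_ hww
      rw [mem_pbs]
      exact ⟨hw, by rw [hwz]; exact hz⟩
    · intro x hx
      rw [Finset.mem_image] at hx
      obtain ⟨u, hu, rfl⟩ := hx
      exact e_mem_sy S c (mem_pbs.1 (hX1 hu)).1

end Pool.Agent.EMS
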