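import Pool.Agent.EMS.StmtsC

set_option autoImplicit false

open Finset
open scoped BigOperators Classical Pointwise

namespace Pool.Agent.EMS

namespace QOB_

lemma mem_sy {r : ℕ} {T : SG r} {c w : Fin r → ℤ} (h : w ∈ T.sy c) :
    ∃ u : Fin T.d → ℤ, (∀ l, |u l| ≤ (T.M l : ℤ)) ∧ w = c + T.φ u := by
  unfold SG.sy at h
  rw [Finset.mem_image] at h
  obtain ⟨u, hu, rfl⟩ := h
  refine ⟨u, fun l => ?_, rfl⟩
  have := Fintype.mem_piFinset.1 hu l
  rw [Finset.mem_Icc] at this
  exact abs_le.2 this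

lemma mem_q {r : ℕ} {T : SG r} {k : ℕ} {c w : Fin r → ℤ} (h : w ∈ T.q k c) :
    ∃ u : Fin T.d → ℤ, (∀ l, 4 * |u l| ≤ k * (T.M l : ℤ)) ∧ w = c + T.φ u := by
  unfold SG.q at h
  rw [Finset.mem_image] at h
  obtain ⟨u, hu, rfl⟩ := h
  exact ⟨u, (Finset.mem_filter.1 hu).2, rfl⟩

lemma q_mem {r : ℕ} {T : SG r} {k : ℕ} {c : Fin r → ℤ} (u : Fin T.d → ℤ)
    (hu : ∀ l, 4 * |u l| ≤ k * (T.M l : ℤ)) : c + T.φ u ∈ T.q k c := by
  unfold SG.q
  rw [Finset.mem_image]
  refine ⟨u, ?_, rfl⟩
  rw [Finset.mem_filter]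
  refine ⟨?_, hu⟩
  unfold sbox
  rw [Fintype.mem_piFinset]
  intro l
  rw [Finset.mem_Icc, ← abs_le]
  have h1 := hu l
  have h2 := abs_nonneg (u l)
  push_cast
  linarith

end QOB_

open QOB_ in
theorem qob_proof : Stmt_QOB := by
  intro r m s N T x C I A P Y K3 hC hAc hAs hs hAI hP hA hAP hPA hK y
  set E := P.filter fun w => w - y ∈ T.sy 0 with hE
  rcases E.eq_empty_or_nonempty with hE0 | hE0
  · rw [hE0]
    have hPc : (0 : ℝ) < P.card := by exact_mod_cast hP.card_pos
    have hK0 : 0 ≤ K3 := by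
      by_contra hcon
      push Not at hcon
      have : (0 : ℝ) ≤ ((P + P - P).card : ℝ) := by positivity
      nlinarith
    simp only [Finset.card_empty, Nat.cast_zero, zero_mul]
    positivity
  obtain ⟨e0, he0⟩ := hE0
  -- cells met by `A ∩ P`
  set I' := I.filter fun i => (A ∩ P ∩ C i).Nonempty with hI'
  have hcardAP : (A ∩ P).card ≤ I'.card * s := by
    have hsub : A ∩ P ⊆ I'.biUnion fun i => A ∩ C i := by
      intro w hw
      obtain ⟨i, hi, hwi⟩ := hAc w (Finset.mem_inter.1 hw).1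
      rw [Finset.mem_biUnion]
      refine ⟨i, ?_, Finset.mem_inter.2 ⟨(Finset.mem_inter.1 hw).1, hwi⟩⟩
      rw [hI', Finset.mem_filter]
      exact ⟨hi, ⟨w, Finset.mem_inter.2 ⟨hw, hwi⟩⟩⟩
    calc (A ∩ P).card ≤ (I'.biUnion fun i => A ∩ C i).card := Finset.card_le_card hsub
      _ ≤ ∑ i ∈ I', (A ∩ C i).card := Finset.card_biUnion_le
      _ = ∑ i ∈ I', s := Finset.sum_congr rfl fun i hi => hAs i (Finset.mem_filter.1 hi).1
      _ = I'.card * s := by rw [Finset.sum_const, smul_eq_mul]
  -- choose points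
  have hch : ∀ i : Fin m, ∃ p : Fin r → ℤ, i ∈ I' → p ∈ A ∩ P ∩ C i := by
    intro i
    by_cases hi : i ∈ I'
    · obtain ⟨p, hp⟩ := (Finset.mem_filter.1 hi).2
      exact ⟨p, fun _ => hp⟩
    · exact ⟨0, fun h => absurd h hi⟩
  choose p hp using hch
  have hcount : I'.card * E.card ≤ 24 ^ T.d * (P + P - P).card := by
    have h1 : (I' ×ˢ E).card ≤ ∑ z ∈ (P + P - P), 24 ^ T.d := by
      have hmaps : ∀ a ∈ I' ×ˢ E, p a.1 + a.2 - e0 ∈ P + P - P := by
        intro a ha
        rw [Finset.mem_product] at ha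
        have h2 := Finset.mem_inter.1 (Finset.mem_inter.1 (hp a.1 ha.1)).1
        exact Finset.sub_mem_sub (Finset.add_mem_add h2.2 (Finset.mem_filter.1 ha.2).1)
          (Finset.mem_filter.1 he0).1
      rw [Finset.card_eq_sum_card_fiberwise (f := fun a : Fin m × (Fin r → ℤ) => p a.1 + a.2 - e0)
        (t := P + P - P) (fun a ha => hmaps a ha)]
      refine Finset.sum_le_sum fun z _ => ?_
      refine le_trans ?_ (hC.cnt 10 (by norm_num) z)
      refine Finset.card_le_card_of_injOn (fun a => a.1) ?_ ?_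
      · intro a ha
        rw [Finset.mem_coe, Finset.mem_filter, Finset.mem_product] at ha
        obtain ⟨⟨ha1, ha2⟩, haz⟩ := ha
        rw [Finset.mem_coe, Finset.mem_filter]
        refine ⟨Finset.mem_univ _, ?_⟩
        obtain ⟨v, hv, hpv⟩ := mem_q (hC.sub2 a.1 (Finset.mem_inter.1 (hp a.1 ha1)).2)
        obtain ⟨u, hu, hau⟩ := mem_sy (Finset.mem_filter.1 ha2).2
        obtain ⟨u0, hu0, hau0⟩ := mem_sy (Finset.mem_filter.1 he0).2
        have e1 : x a.1 = z + T.φ (-(v + u - u0)) := by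
          rw [map_neg, map_sub, map_add]
          have h3 : a.2 = y + T.φ u := by
            have := hau; rw [zero_add] at this; rw [← this]; abel
          have h4 : e0 = y + T.φ u0 := by
            have := hau0; rw [zero_add] at this; rw [← this]; abel
          rw [← haz, hpv, h3, h4]
          abel
        rw [e1]
        refine q_mem _ fun l => ?_
        have h5 := hv l
        have h6 := hu l
        have h7 := hu0 l
        have h8 : |(-(v + u - u0)) l| ≤ |v l| + |u l| + |u0 l| := by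
          simp only [Pi.neg_apply, Pi.sub_apply, Pi.add_apply, abs_neg]
          exact (abs_sub _ _).trans (by linarith [abs_add_le (v l) (u l)])
        push_cast at h5 ⊢
        linarith
      · intro a ha b hb hab
        rw [Finset.mem_coe, Finset.mem_filter] at ha hb
        have h1 := ha.2
        have h2 := hb.2
        simp only at hab
        rw [← h2, hab] at h1
        have : a.2 = b.2 := by
          have h3 : p b.1 + a.2 - e0 = p b.1 + b.2 - e0 := h1
          have h4 := sub_left_injective h3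
          exact add_left_cancel h4
        exact Prod.ext hab this
    rw [Finset.card_product, Finset.sum_const, smul_eq_mul] at h1
    rw [mul_comm (24 ^ T.d)]; exact h1
  -- numerical conclusion
  have hsr : (1 : ℝ) ≤ s := by exact_mod_cast hs
  have hs0 : (0 : ℝ) < s := by linarith
  have hcardAP' : ((A ∩ P).card : ℝ) ≤ I'.card * s := by exact_mod_cast hcardAP
  have hcount' : (I'.card : ℝ) * E.card ≤ 24 ^ T.d * ((P + P - P).card : ℝ) := by
    exact_mod_cast hcount
  have hAI' : (A.card : ℝ) = I.card * s := by exact_mod_cast hAI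
  have hexp : Real.exp (-(2 * Y)) * (I.card : ℝ) ≤ I'.card := by
    refine le_of_mul_le_mul_right ?_ hs0
    have h1 : Real.exp (-Y) * (Real.exp (-Y) * (A.card : ℝ)) ≤ Real.exp (-Y) * (P.card : ℝ) :=
      mul_le_mul_of_nonneg_left hPA (Real.exp_pos _).le
    have h2 : Real.exp (-(2 * Y)) = Real.exp (-Y) * Real.exp (-Y) := by
      rw [← Real.exp_add]; congr 1; ring
    calc Real.exp (-(2 * Y)) * (I.card : ℝ) * s = Real.exp (-Y) * (Real.exp (-Y) * (A.card : ℝ)) := by
          rw [h2, hAI']; ring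
      _ ≤ _ := h1
      _ ≤ _ := hAP
      _ ≤ _ := hcardAP'
  have hI : (I.card : ℝ) ≤ Real.exp (2 * Y) * I'.card := by
    have h2 : Real.exp (2 * Y) * Real.exp (-(2 * Y)) = 1 := by
      rw [← Real.exp_add]; simp
    calc (I.card : ℝ) = Real.exp (2 * Y) * (Real.exp (-(2 * Y)) * I.card) := by
          rw [← mul_assoc, h2, one_mul]
      _ ≤ _ := mul_le_mul_of_nonneg_left hexp (Real.exp_pos _).le
  calc (E.card : ℝ) * I.card ≤ E.card * (Real.exp (2 * Y) * I'.card) :=
        mul_le_mul_of_nonneg_left hI (by positivity)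
    _ = Real.exp (2 * Y) * (I'.card * E.card) := by ring
    _ ≤ Real.exp (2 * Y) * (24 ^ T.d * (K3 * P.card)) := by
        refine mul_le_mul_of_nonneg_left (hcount'.trans ?_) (Real.exp_pos _).le
        exact mul_le_mul_of_nonneg_left hK (by positivity)
    _ = _ := by ring

end Pool.Agent.EMS
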