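import Pool.Agent.EMS.StmtsC

/-!
# EMS, module RND: one round (from EVO, CNV, NOR, IOT)
-/

set_option autoImplicit false

open Finset
open scoped BigOperators Classical

namespace Pool.Agent.EMS

namespace RND_

lemma set_translate {r B n : ℕ} (P : TG r B n) (c x : Fin r → ℤ) (W : Finset (Fin r → ℤ)) :
    ((P.set 0).filter fun y => y - x ∈ W).card ≤
      ((P.set c).filter fun y => y - (x + c) ∈ W).card := by
  apply Finset.card_le_card_of_injOn (fun y => y + c)
  · intro y hy
    have hy' := Finset.mem_filter.1 (Finset.mem_coe.1 hy)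
    apply Finset.mem_coe.2
    apply Finset.mem_filter.2
    constructor
    · have h1 := hy'.1
      unfold TG.set at h1 ⊢
      rw [Finset.mem_image] at h1 ⊢
      obtain ⟨z, hz, hzy⟩ := h1
      refine ⟨z, hz, ?_⟩
      rw [← hzy]
      show c + P.φ1 z.1 + P.φ2 z.2 = 0 + P.φ1 z.1 + P.φ2 z.2 + c
      abel
    · have h2 := hy'.2
      have h3 : y + c - (x + c) = y - x := by abel
      show y + c - (x + c) ∈ W
      rw [h3]
      exact h2
  · intro a _ b _ h
    exact add_right_cancel h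

lemma S_v_pos {r : ℕ} (S : SG r) : 0 < S.v := by
  unfold SG.v
  apply Finset.prod_pos
  intro l _
  have := S.pos l
  exact_mod_cast this

end RND_

open RND_ in
theorem rnd_proof (h1 : Stmt_EVO) (h2 : Stmt_CNV) (h3 : Stmt_NOR) (h4 : Stmt_IOT) :
    Stmt_RND := by
  intro r B n κ Δ t P c N U y Y4 W q hD hB hB2 hn hκ hU hy hyn hsize hdens hY4 hq hW
  have hPv : 0 < P.v := by
    refine lt_of_lt_of_le ?_ hsize
    have hκ' : (0 : ℝ) < κ := by
      have : 0 < κ := by omega
      exact_mod_cast this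
    have hB' : (0 : ℝ) < B := by
      have : 0 < B := by omega
      exact_mod_cast this
    positivity
  have hev := h1 r B n κ Δ t P c N U y hB hB2 hn hκ hU hy hyn hsize hdens
  obtain ⟨S, c1, hSd, hSdens, hSv, hSspread, hSalt⟩ :=
    h2 r B n Δ P c (U (t + Δ)) (Real.exp (-y - 1 - Δ * Ck κ)) hB2 hD (Real.exp_pos _) hev
  obtain ⟨P', c', hPd, hPv1, hPv2, hPdens, hPspread⟩ := h3 r B n S c1 (U (t + Δ)) hB2
  have hSvpos := S_v_pos S
  set D : ℕ := P.a + P.b with hDdef
  have hD1 : (1 : ℝ) ≤ (D : ℝ) := by exact_mod_cast hD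
  have hD3 : (D : ℝ) ≤ (D : ℝ) ^ 3 := by nlinarith [mul_self_nonneg ((D : ℝ) - 1), sq_nonneg ((D : ℝ))]
  have hBpos : (0 : ℝ) < B := by
    have : 0 < B := by omega
    exact_mod_cast this
  have hB1 : (1 : ℝ) ≤ B := by
    have : 1 ≤ B := by omega
    exact_mod_cast this
  have hlB : 0 ≤ Real.log B := Real.log_nonneg hB1
  have hBD : (B : ℝ) ^ D = Real.exp (D * Real.log B) := by
    rw [Real.exp_nat_mul, Real.exp_log hBpos]
  have hBS : (B : ℝ) ^ S.d ≤ Real.exp (D * Real.log B) := by
    rw [← hBD]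
    exact pow_le_pow_right₀ hB1 hSd
  have h2S : (2 : ℝ) ^ S.d ≤ Real.exp D := by
    have h2e : (2 : ℝ) ≤ Real.exp 1 := by
      have := Real.add_one_le_exp (1 : ℝ)
      linarith
    calc (2 : ℝ) ^ S.d ≤ 2 ^ D := pow_le_pow_right₀ (by norm_num) hSd
      _ ≤ (Real.exp 1) ^ D := pow_le_pow_left₀ (by norm_num) h2e D
      _ = Real.exp D := by
        rw [← Real.exp_nat_mul]
        simp
  have hDlB : 0 ≤ (D : ℝ) * Real.log B := mul_nonneg (by linarith) hlB
  have hP'v : 0 < P'.v := by
    have hBS0 : (0 : ℝ) < (B : ℝ) ^ S.d := pow_pos hBpos _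
    by_contra hcon
    push Not at hcon
    have : (B : ℝ) ^ S.d * P'.v ≤ 0 := mul_nonpos_of_nonneg_of_nonpos hBS0.le hcon
    linarith
  -- spread of P.set 0
  have hW0 : ∀ x : Fin r → ℤ, (((P.set 0).filter fun y => y - x ∈ W).card : ℝ) ≤ q * P.v := by
    intro x
    refine le_trans ?_ (hW (x + c))
    exact_mod_cast set_translate P c x W
  have hSpr := hSspread W q hW0
  -- density
  have hdens' : Real.exp (-y - Δ * Ck κ - Y4) * P'.v ≤
      ((U (t + Δ) ∩ P'.set c').card : ℝ) := by
    set a : ℝ := ((U (t + Δ) ∩ S.bx c1).card : ℝ) with ha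
    set a' : ℝ := ((U (t + Δ) ∩ P'.set c').card : ℝ) with ha'
    have ha'0 : 0 ≤ a' := by positivity
    have e1 : (Real.exp (-y - 1 - Δ * Ck κ) * Real.exp (-(23 * (D : ℝ) ^ 3)) * P'.v) * S.v ≤
        (2 ^ S.d * a') * S.v := by
      have := mul_le_mul_of_nonneg_right hSdens hP'v.le
      calc (Real.exp (-y - 1 - Δ * Ck κ) * Real.exp (-(23 * (D : ℝ) ^ 3)) * P'.v) * S.v
          = Real.exp (-y - 1 - Δ * Ck κ) * Real.exp (-(23 * (D : ℝ) ^ 3)) * S.v * P'.v := by ring
        _ ≤ a * P'.v := this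
        _ ≤ 2 ^ S.d * S.v * a' := hPdens
        _ = (2 ^ S.d * a') * S.v := by ring
    have e2 : Real.exp (-y - 1 - Δ * Ck κ) * Real.exp (-(23 * (D : ℝ) ^ 3)) * P'.v ≤
        Real.exp D * a' := by
      refine le_trans (le_of_mul_le_mul_right e1 hSvpos) ?_
      exact mul_le_mul_of_nonneg_right h2S ha'0
    have e3 : Real.exp (-y - Δ * Ck κ - Y4) * P'.v ≤
        Real.exp (-(D : ℝ)) * (Real.exp (-y - 1 - Δ * Ck κ) *
          Real.exp (-(23 * (D : ℝ) ^ 3)) * P'.v) := by
      have : Real.exp (-y - Δ * Ck κ - Y4) ≤ Real.exp (-(D : ℝ)) *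
          (Real.exp (-y - 1 - Δ * Ck κ) * Real.exp (-(23 * (D : ℝ) ^ 3))) := by
        rw [← Real.exp_add, ← Real.exp_add]
        apply Real.exp_le_exp.2
        nlinarith
      calc Real.exp (-y - Δ * Ck κ - Y4) * P'.v ≤ (Real.exp (-(D : ℝ)) *
          (Real.exp (-y - 1 - Δ * Ck κ) * Real.exp (-(23 * (D : ℝ) ^ 3)))) * P'.v :=
            mul_le_mul_of_nonneg_right this hP'v.le
        _ = _ := by ring
    refine le_trans e3 ?_
    calc Real.exp (-(D : ℝ)) * (Real.exp (-y - 1 - Δ * Ck κ) *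
          Real.exp (-(23 * (D : ℝ) ^ 3)) * P'.v) ≤ Real.exp (-(D : ℝ)) * (Real.exp D * a') :=
            mul_le_mul_of_nonneg_left e2 (Real.exp_pos _).le
      _ = a' := by
        rw [← mul_assoc, ← Real.exp_add]
        simp
  -- size
  have hsize' : Real.exp (-Y4) * P.v ≤ P'.v := by
    have e1 : Real.exp (-(23 * (D : ℝ) ^ 3)) * P.v ≤ Real.exp (D * Real.log B) * P'.v := by
      refine le_trans hSv (le_trans hPv2 ?_)
      exact mul_le_mul_of_nonneg_right hBS hP'v.le
    have e2 : Real.exp (-Y4) ≤ Real.exp (-(D * Real.log B)) * Real.exp (-(23 * (D : ℝ) ^ 3)) := by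
      rw [← Real.exp_add]
      apply Real.exp_le_exp.2
      nlinarith
    calc Real.exp (-Y4) * P.v ≤
        (Real.exp (-(D * Real.log B)) * Real.exp (-(23 * (D : ℝ) ^ 3))) * P.v :=
          mul_le_mul_of_nonneg_right e2 hPv.le
      _ = Real.exp (-(D * Real.log B)) * (Real.exp (-(23 * (D : ℝ) ^ 3)) * P.v) := by ring
      _ ≤ Real.exp (-(D * Real.log B)) * (Real.exp (D * Real.log B) * P'.v) :=
          mul_le_mul_of_nonneg_left e1 (Real.exp_pos _).le
      _ = P'.v := by
        rw [← mul_assoc, ← Real.exp_add]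
        simp
  -- first q
  set q1 : ℝ := Real.exp (D * Real.log B) * Real.exp (23 * (D : ℝ) ^ 3) * q with hq1
  have hq1pos : 0 < q1 := by positivity
  have hq1le : q1 ≤ Real.exp Y4 * q := by
    apply mul_le_mul_of_nonneg_right _ hq.le
    rw [← Real.exp_add]
    apply Real.exp_le_exp.2
    nlinarith
  have hSvle : S.v ≤ Real.exp (D * Real.log B) * P'.v :=
    le_trans hPv2 (mul_le_mul_of_nonneg_right hBS hP'v.le)
  have hspr1 : ∀ x : Fin r → ℤ, (((P'.set c').filter fun y => y - x ∈ W).card : ℝ) ≤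
      q1 * P'.v := by
    intro x
    obtain ⟨x', hx'⟩ := hPspread x
    have e1 : (((P'.set c').filter fun y => y - x ∈ W).card : ℝ) ≤
        (((S.bx c1).filter fun y => y - x' ∈ W).card : ℝ) := by
      exact_mod_cast hx' W
    refine le_trans e1 (le_trans (hSpr x') ?_)
    calc Real.exp (23 * (D : ℝ) ^ 3) * q * S.v ≤
        Real.exp (23 * (D : ℝ) ^ 3) * q * (Real.exp (D * Real.log B) * P'.v) :=
          mul_le_mul_of_nonneg_left hSvle (by positivity)
      _ = q1 * P'.v := by rw [hq1]; ring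
  rcases hSalt with hlt | hspr2
  · refine ⟨P', c', q1, ?_, hq1pos, hdens', hsize', hq1le, hspr1, Or.inl ?_⟩
    · rw [hPd]; exact hSd
    · rw [hPd]; exact hlt
  · have hspr2' := hspr2 W q hW0
    obtain ⟨hi1, -, -⟩ := h4 P.b r Δ P.φ2
    have hi1' : (2 : ℝ) ^ (Δ * Module.finrank ℤ (LinearMap.ker P.φ2)) ≤ (iota P.φ2 Δ : ℝ) := by
      exact_mod_cast hi1
    set io : ℝ := (iota P.φ2 Δ : ℝ) with hio
    have hiopos : 0 < io := lt_of_lt_of_le (by positivity) hi1'
    set q2 : ℝ := Real.exp (D * Real.log B) * Real.exp (43 * (D : ℝ) ^ 3) * q * S.v /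
      (io * P.v) with hq2
    have hq2pos : 0 < q2 := by positivity
    have hspr3 : ∀ x : Fin r → ℤ, (((P'.set c').filter fun y => y - x ∈ W).card : ℝ) ≤
        q2 * P'.v := by
      intro x
      obtain ⟨x', hx'⟩ := hPspread x
      have e1 : (((P'.set c').filter fun y => y - x ∈ W).card : ℝ) ≤
          (((S.bx c1).filter fun y => y - x' ∈ W).card : ℝ) := by
        exact_mod_cast hx' W
      refine le_trans e1 ?_
      have e2 := hspr2' x'
      have e3 : (((S.bx c1).filter fun y => y - x' ∈ W).card : ℝ) ≤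
          Real.exp (43 * (D : ℝ) ^ 3) * q * S.v ^ 2 / (io * P.v) := by
        rw [le_div_iff₀ (by positivity)]
        rw [← mul_assoc]
        exact e2
      refine le_trans e3 ?_
      rw [hq2, div_mul_eq_mul_div]
      apply div_le_div_of_nonneg_right _ (by positivity)
      calc Real.exp (43 * (D : ℝ) ^ 3) * q * S.v ^ 2 =
          (Real.exp (43 * (D : ℝ) ^ 3) * q * S.v) * S.v := by ring
        _ ≤ (Real.exp (43 * (D : ℝ) ^ 3) * q * S.v) * (Real.exp (D * Real.log B) * P'.v) :=
            mul_le_mul_of_nonneg_left hSvle (by positivity)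
        _ = Real.exp (D * Real.log B) * Real.exp (43 * (D : ℝ) ^ 3) * q * S.v * P'.v := by ring
    refine ⟨P', c', min q1 q2, ?_, lt_min hq1pos hq2pos, hdens', hsize',
      le_trans (min_le_left _ _) hq1le, ?_, Or.inr ?_⟩
    · rw [hPd]; exact hSd
    · intro x
      rcases min_choice q1 q2 with h | h
      · rw [h]; exact hspr1 x
      · rw [h]; exact hspr3 x
    · have e1 : min q1 q2 ≤ q2 := min_le_right _ _
      have e2 : q2 * (io * P.v) =
          Real.exp (D * Real.log B) * Real.exp (43 * (D : ℝ) ^ 3) * q * S.v := by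
        rw [hq2]
        field_simp
      calc (2 : ℝ) ^ (Δ * Module.finrank ℤ (LinearMap.ker P.φ2)) * Real.exp (-Y4) * P.v *
            min q1 q2 ≤ io * Real.exp (-Y4) * P.v * q2 := by
            apply mul_le_mul _ e1 (lt_min hq1pos hq2pos).le (by positivity)
            apply mul_le_mul_of_nonneg_right _ hPv.le
            exact mul_le_mul_of_nonneg_right hi1' (Real.exp_pos _).le
        _ = Real.exp (-Y4) * (q2 * (io * P.v)) := by ring
        _ = Real.exp (-Y4) *
            (Real.exp (D * Real.log B) * Real.exp (43 * (D : ℝ) ^ 3) * q * S.v) := by rw [e2]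
        _ ≤ Real.exp (-Y4) *
            (Real.exp (D * Real.log B) * Real.exp (43 * (D : ℝ) ^ 3) * q *
              (Real.exp (D * Real.log B) * P'.v)) := by
            apply mul_le_mul_of_nonneg_left _ (Real.exp_pos _).le
            exact mul_le_mul_of_nonneg_left hSvle (by positivity)
        _ = (Real.exp (-Y4) * (Real.exp (D * Real.log B) * Real.exp (43 * (D : ℝ) ^ 3) *
              Real.exp (D * Real.log B))) * (P'.v * q) := by ring
        _ ≤ 1 * (P'.v * q) := by
            apply mul_le_mul_of_nonneg_right _ (by positivity)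
            rw [← Real.exp_add, ← Real.exp_add, ← Real.exp_add]
            apply Real.exp_le_one_iff.2
            nlinarith
        _ = P'.v * q := one_mul _

end Pool.Agent.EMS
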