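import Pool.Agent.EMS.StmtsC

set_option autoImplicit false

open Finset
open scoped BigOperators Classical Pointwise

namespace Pool.Agent.EMS

theorem ROO_sub {r : ℕ} (T : SG r) (x w : Fin r → ℤ) (h : w ∈ T.q 2 x) : w - x ∈ T.sy 0 := by
  unfold SG.q at h
  rw [Finset.mem_image] at h
  obtain ⟨u, hu, rfl⟩ := h
  rw [Finset.mem_filter] at hu
  unfold SG.sy
  rw [Finset.mem_image]
  refine ⟨u, ?_, ?_⟩
  · unfold sbox
    rw [Fintype.mem_piFinset]
    intro l
    have h1 := hu.2 l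
    rw [Finset.mem_Icc]
    have h2 : |u l| ≤ (T.M l : ℤ) := by
      push_cast at h1
      have h3 : (0 : ℤ) ≤ T.M l := by positivity
      omega
    exact abs_le.mp h2
  · simp

theorem roo_proof : Stmt_ROO := by
  intro r m t N T x C U Φ0 hC hU hPhi P hP q hq hQ
  have hcell : ∀ i, (((U t ∩ P) ∩ C i).card : ℝ) ≤ q * P.card := by
    intro i
    refine le_trans ?_ (hQ (x i))
    exact_mod_cast Finset.card_le_card (by
      intro w hw
      rw [Finset.mem_inter, Finset.mem_inter] at hw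
      rw [Finset.mem_filter]
      exact ⟨hw.1.2, ROO_sub T (x i) w (hC.sub2 i hw.2)⟩)
  have hcell2 : ∀ i, (((U t ∩ P) ∩ C i).card : ℝ) ≤ ((U t ∩ C i).card : ℝ) := by
    intro i
    exact_mod_cast Finset.card_le_card (by
      intro w hw
      rw [Finset.mem_inter, Finset.mem_inter] at hw
      rw [Finset.mem_inter]
      exact ⟨hw.1.1, hw.2⟩)
  have hcell3 : ∀ i, (((U t ∩ P) ∩ C i).card : ℝ) ≤
      Real.sqrt ((U t ∩ C i).card : ℝ) * Real.sqrt (q * P.card) := by
    intro i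
    set a : ℝ := (((U t ∩ P) ∩ C i).card : ℝ) with ha
    have ha0 : 0 ≤ a := by positivity
    calc a = Real.sqrt a * Real.sqrt a := (Real.mul_self_sqrt ha0).symm
      _ ≤ Real.sqrt ((U t ∩ C i).card : ℝ) * Real.sqrt (q * P.card) := by
          apply mul_le_mul (Real.sqrt_le_sqrt (hcell2 i)) (Real.sqrt_le_sqrt (hcell i))
            (Real.sqrt_nonneg _) (Real.sqrt_nonneg _)
  have hcov : ((U t ∩ P).card : ℝ) ≤ ∑ i, (((U t ∩ P) ∩ C i).card : ℝ) := by
    have h1 : (U t ∩ P) ⊆ Finset.univ.biUnion fun i => (U t ∩ P) ∩ C i := by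
      intro w hw
      obtain ⟨i, hi⟩ := hC.cover w (hU (Finset.mem_inter.mp hw).1)
      rw [Finset.mem_biUnion]
      exact ⟨i, Finset.mem_univ _, Finset.mem_inter.mpr ⟨hw, hi⟩⟩
    exact_mod_cast (Finset.card_le_card h1).trans Finset.card_biUnion_le
  calc ((U t ∩ P).card : ℝ) ≤ ∑ i, (((U t ∩ P) ∩ C i).card : ℝ) := hcov
    _ ≤ ∑ i, Real.sqrt ((U t ∩ C i).card : ℝ) * Real.sqrt (q * P.card) :=
        Finset.sum_le_sum fun i _ => hcell3 i
    _ = Phi C U t * Real.sqrt (q * P.card) := by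
        unfold Phi
        rw [Finset.sum_mul]
    _ ≤ Φ0 * Real.sqrt (q * P.card) :=
        mul_le_mul_of_nonneg_right hPhi.le (Real.sqrt_nonneg _)

end Pool.Agent.EMS
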