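import Pool.Agent.EMS.StmtsC

/-!
# EMS, module SCL: choice of the scale by entropy
-/

set_option autoImplicit false

open Finset
open scoped BigOperators Classical

namespace Pool.Agent.EMS

namespace SCL_

variable {α I : Type}

/-- class size -/
noncomputable def e (E : Finset α) (c : α → I) (x : α) : ℝ :=
  ((E.filter fun y => c y = c x).card : ℝ)

lemma e_pos {E : Finset α} {c : α → I} {x : α} (hx : x ∈ E) : 0 < e E c x := by
  unfold e
  have : 0 < (E.filter fun y => c y = c x).card := Finset.card_pos.mpr ⟨x, by simp [hx]⟩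
  exact_mod_cast this

lemma classes_le (E : Finset α) (n m : ℕ) (c : ℕ → α → I)
    (h0 : ∀ x ∈ E, ∀ y ∈ E, c 0 x = c 0 y)
    (hm : ∀ j < n, ∀ x ∈ E, ((E.filter fun y => c j y = c j x).image (c (j + 1))).card ≤ m) :
    ∀ j ≤ n, (E.image (c j)).card ≤ m ^ j := by
  intro j hj
  induction j with
  | zero =>
    rw [pow_zero]
    apply Finset.card_le_one.mpr
    intro a ha b hb
    obtain ⟨x, hx, rfl⟩ := mem_image.mp ha
    obtain ⟨y, hy, rfl⟩ := mem_image.mp hb
    exact h0 x hx y hy
  | succ j ih =>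
    have hsub : E.image (c (j + 1)) ⊆
        (E.image (c j)).biUnion fun i => (E.filter fun y => c j y = i).image (c (j + 1)) := by
      intro k hk
      obtain ⟨x, hx, rfl⟩ := mem_image.mp hk
      exact mem_biUnion.mpr ⟨c j x, mem_image_of_mem _ hx, mem_image.mpr ⟨x, by simp [hx], rfl⟩⟩
    calc (E.image (c (j + 1))).card ≤ _ := card_le_card hsub
      _ ≤ (E.image (c j)).card * m := card_biUnion_le_card_mul _ _ _ (by
          intro i hi
          obtain ⟨x, hx, rfl⟩ := mem_image.mp hi
          exact hm j (by omega) x hx)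
      _ ≤ m ^ j * m := Nat.mul_le_mul_right _ (ih (by omega))
      _ = m ^ (j + 1) := (pow_succ _ _).symm

lemma sum_inv (F : Finset α) (d : α → I) :
    ∑ x ∈ F, (((F.filter fun y => d y = d x).card : ℝ))⁻¹ = ((F.image d).card : ℝ) := by
  rw [← Finset.sum_fiberwise_of_maps_to (g := d) (t := F.image d)
    (fun x hx => mem_image_of_mem d hx)]
  have : ∀ k ∈ F.image d, ∑ x ∈ F.filter (fun x => d x = k),
      (((F.filter fun y => d y = d x).card : ℝ))⁻¹ = 1 := by
    intro k hk
    have h1 : ∑ x ∈ F.filter (fun x => d x = k),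
        (((F.filter fun y => d y = d x).card : ℝ))⁻¹ =
        ∑ x ∈ F.filter (fun x => d x = k), (((F.filter fun y => d y = k).card : ℝ))⁻¹ := by
      apply Finset.sum_congr rfl
      intro x hx
      rw [(mem_filter.mp hx).2]
    rw [h1, Finset.sum_const, nsmul_eq_mul]
    apply mul_inv_cancel₀
    obtain ⟨x, hx, rfl⟩ := mem_image.mp hk
    have : 0 < (F.filter fun y => d y = d x).card := Finset.card_pos.mpr ⟨x, by simp [hx]⟩
    exact_mod_cast this.ne'
  rw [Finset.sum_congr rfl this]
  simp

lemma log_le_half {u : ℝ} (hu : 0 < u) : Real.log u ≤ u / 2 := by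
  have h1 := Real.log_le_sub_one_of_pos (show (0 : ℝ) < u / 2 by linarith)
  have h2 : Real.log (u / 2) = Real.log u - Real.log 2 :=
    Real.log_div hu.ne' (by norm_num)
  have h3 := Real.log_two_lt_d9
  rw [h2] at h1
  linarith

/-- one class: sum of `h` is nonnegative, and sum of the negative part is at most half -/
lemma one_class (E : Finset α) (m : ℕ) (hm1 : 1 ≤ m) (c d : α → I) (i : I)
    (href : ∀ x ∈ E, ∀ y ∈ E, d x = d y → c x = c y)
    (hm : ((E.filter fun y => c y = i).image d).card ≤ m) :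
    0 ≤ ∑ x ∈ E.filter (fun y => c y = i), Real.log (m * e E d x / e E c x) ∧
    ∑ x ∈ E.filter (fun y => c y = i), max (-Real.log (m * e E d x / e E c x)) 0 ≤
      ((E.filter fun y => c y = i).card : ℝ) / 2 := by
  have hm0 : (0 : ℝ) < m := by exact_mod_cast hm1
  set F := E.filter fun y => c y = i with hF
  have hFE : ∀ x ∈ F, x ∈ E := fun x hx => (mem_filter.mp hx).1
  have hc : ∀ x ∈ F, c x = i := fun x hx => (mem_filter.mp hx).2
  have he0 : ∀ x ∈ F, e E c x = (F.card : ℝ) := by
    intro x hx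
    unfold e
    rw [hc x hx]
  have he1 : ∀ x ∈ F, e E d x = ((F.filter fun y => d y = d x).card : ℝ) := by
    intro x hx
    unfold e
    congr 2
    ext y
    simp only [mem_filter, hF]
    constructor
    · rintro ⟨hy, hdy⟩
      exact ⟨⟨hy, (href y hy x (hFE x hx) hdy).trans (hc x hx)⟩, hdy⟩
    · rintro ⟨⟨hy, _⟩, hdy⟩
      exact ⟨hy, hdy⟩
  have hN : ∑ x ∈ F, (e E d x)⁻¹ ≤ (m : ℝ) := by
    rw [Finset.sum_congr rfl (fun x hx => by rw [he1 x hx]), sum_inv]
    exact_mod_cast hm
  -- ratio
  have hinv : ∀ x ∈ F, ((m : ℝ) * e E d x / e E c x)⁻¹ = (F.card : ℝ) / m * (e E d x)⁻¹ := by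
    intro x hx
    rw [he0 x hx, inv_div, div_eq_mul_inv, div_eq_mul_inv, mul_inv]
    ring
  have hpos : ∀ x ∈ F, 0 < (m : ℝ) * e E d x / e E c x := by
    intro x hx
    exact div_pos (mul_pos hm0 (e_pos (hFE x hx))) (e_pos (hFE x hx))
  have hsumr : ∑ x ∈ F, ((m : ℝ) * e E d x / e E c x)⁻¹ ≤ (F.card : ℝ) := by
    rw [Finset.sum_congr rfl hinv, ← Finset.mul_sum]
    calc (F.card : ℝ) / m * ∑ x ∈ F, (e E d x)⁻¹ ≤ (F.card : ℝ) / m * m := by
          apply mul_le_mul_of_nonneg_left hN; positivity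
      _ = (F.card : ℝ) := by field_simp
  constructor
  · have h1 : ∑ x ∈ F, (1 - ((m : ℝ) * e E d x / e E c x)⁻¹) ≤
        ∑ x ∈ F, Real.log (m * e E d x / e E c x) := by
      apply Finset.sum_le_sum
      intro x hx
      exact Real.one_sub_inv_le_log_of_pos (hpos x hx)
    rw [Finset.sum_sub_distrib] at h1
    simp only [Finset.sum_const, nsmul_eq_mul, mul_one] at h1
    linarith
  · have h1 : ∑ x ∈ F, max (-Real.log (m * e E d x / e E c x)) 0 ≤
        ∑ x ∈ F, ((m : ℝ) * e E d x / e E c x)⁻¹ / 2 := by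
      apply Finset.sum_le_sum
      intro x hx
      have hp := inv_pos.mpr (hpos x hx)
      apply max_le
      · rw [← Real.log_inv]
        exact log_le_half hp
      · positivity
    rw [← Finset.sum_div] at h1
    linarith

end SCL_

open SCL_ in
theorem scl_proof : Stmt_SCL := by
  intro α I E n m c V hE hn hm hV href h0 hch hV'
  have hm0 : (0 : ℝ) < m := by exact_mod_cast hm
  have hn0 : (0 : ℝ) < n := by exact_mod_cast hn
  have hEc : (0 : ℝ) < (E.card : ℝ) := by exact_mod_cast hE.card_pos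
  set η : ℝ := Real.log (V / (E.card : ℝ)) / n with hη
  -- the level sums
  have hL0 : ∑ x ∈ E, Real.log (e E (c 0) x) = (E.card : ℝ) * Real.log (E.card : ℝ) := by
    have : ∀ x ∈ E, Real.log (e E (c 0) x) = Real.log (E.card : ℝ) := by
      intro x hx
      unfold e
      rw [Finset.filter_true_of_mem (fun y hy => h0 y hy x hx)]
    rw [Finset.sum_congr rfl this, Finset.sum_const, nsmul_eq_mul]
  have hLn : ∑ x ∈ E, Real.log (e E (c n) x) ≤
      (E.card : ℝ) * (Real.log V - n * Real.log m) := by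
    have : ∀ x ∈ E, Real.log (e E (c n) x) ≤ Real.log V - n * Real.log m := by
      intro x hx
      have h1 : Real.log (e E (c n) x) ≤ Real.log (V / (m : ℝ) ^ n) :=
        Real.log_le_log (e_pos hx) (hV' x hx)
      rw [Real.log_div hV.ne' (by positivity), Real.log_pow] at h1
      exact h1
    calc ∑ x ∈ E, Real.log (e E (c n) x) ≤ ∑ x ∈ E, (Real.log V - n * Real.log m) :=
          Finset.sum_le_sum this
      _ = _ := by rw [Finset.sum_const, nsmul_eq_mul]
  have hsum : ∑ j ∈ Finset.range n, ((∑ x ∈ E, Real.log (e E (c (j + 1)) x)) -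
      (∑ x ∈ E, Real.log (e E (c j) x)) + (E.card : ℝ) * Real.log m) ≤
      ∑ j ∈ Finset.range n, (E.card : ℝ) * η := by
    rw [Finset.sum_add_distrib, Finset.sum_range_sub (fun j => ∑ x ∈ E, Real.log (e E (c j) x))]
    simp only [Finset.sum_const, Finset.card_range, nsmul_eq_mul]
    have h1 : (n : ℝ) * ((E.card : ℝ) * η) = (E.card : ℝ) * (Real.log V - Real.log (E.card : ℝ)) := by
      rw [hη, Real.log_div hV.ne' hEc.ne']
      field_simp
    rw [h1, hL0]
    nlinarith [hLn]
  obtain ⟨j, hj, hjle⟩ := Finset.exists_le_of_sum_le (Finset.nonempty_range_iff.mpr (by omega)) hsum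
  have hjn : j < n := Finset.mem_range.mp hj
  -- the function h
  set h : α → ℝ := fun x => Real.log (m * e E (c (j + 1)) x / e E (c j) x) with hh
  have hhx : ∀ x ∈ E, h x = Real.log (e E (c (j + 1)) x) - Real.log (e E (c j) x) + Real.log m := by
    intro x hx
    have p1 := e_pos (c := c (j + 1)) hx
    have p2 := e_pos (c := c j) hx
    simp only [hh]
    rw [Real.log_div (by positivity) p2.ne', Real.log_mul hm0.ne' p1.ne']
    ring
  have hhsum : ∑ x ∈ E, h x ≤ (E.card : ℝ) * η := by
    rw [Finset.sum_congr rfl hhx, Finset.sum_add_distrib, Finset.sum_sub_distrib,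
      Finset.sum_const, nsmul_eq_mul]
    exact hjle
  -- classes
  set K := E.image (c j) with hK
  set Ei : I → Finset α := fun i => E.filter fun y => c j y = i with hEi
  have hcls : ∀ i ∈ K, 0 ≤ ∑ x ∈ Ei i, h x ∧ ∑ x ∈ Ei i, max (-h x) 0 ≤ ((Ei i).card : ℝ) / 2 := by
    intro i hi
    obtain ⟨z, hz, rfl⟩ := mem_image.mp hi
    exact one_class E m hm (c j) (c (j + 1)) (c j z) (href j hjn) (hch j hjn z hz)
  have hfib : ∀ g : α → ℝ, ∑ i ∈ K, ∑ x ∈ Ei i, g x = ∑ x ∈ E, g x := fun g =>
    Finset.sum_fiberwise_of_maps_to (fun x hx => mem_image_of_mem (c j) hx) g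
  have hcardsum : ∑ i ∈ K, ((Ei i).card : ℝ) = (E.card : ℝ) := by
    have := hfib (fun _ => (1 : ℝ))
    simpa using this
  have hη0 : 0 ≤ η := by
    have h1 : 0 ≤ ∑ x ∈ E, h x := by
      rw [← hfib h]
      exact Finset.sum_nonneg (fun i hi => (hcls i hi).1)
    have h2 : 0 ≤ (E.card : ℝ) * η := h1.trans hhsum
    exact nonneg_of_mul_nonneg_right h2 hEc
  set P1 : I → Prop := fun i => ∑ x ∈ Ei i, h x ≤ 4 * η * ((Ei i).card : ℝ) with hP1
  set P2 : I → Prop := fun i => (E.card : ℝ) / (4 * (m : ℝ) ^ j) ≤ ((Ei i).card : ℝ) with hP2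
  have hbad1 : ∑ i ∈ K.filter (fun i => ¬ P1 i), ((Ei i).card : ℝ) ≤ (E.card : ℝ) / 4 := by
    rcases hη0.eq_or_lt with h00 | hpos
    · -- eta = 0
      have hz : ∀ i ∈ K, ∑ x ∈ Ei i, h x = 0 := by
        have h1 : ∑ i ∈ K, ∑ x ∈ Ei i, h x = 0 := by
          apply le_antisymm
          · rw [hfib h]
            rw [← h00, mul_zero] at hhsum
            exact hhsum
          · exact Finset.sum_nonneg (fun i hi => (hcls i hi).1)
        exact (Finset.sum_eq_zero_iff_of_nonneg (fun i hi => (hcls i hi).1)).mp h1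
      have : K.filter (fun i => ¬ P1 i) = ∅ := by
        apply Finset.filter_false_of_mem
        intro i hi
        simp only [hP1, not_not]
        rw [hz i hi, ← h00]
        simp
      rw [this, Finset.sum_empty]
      positivity
    · have h1 : ∑ i ∈ K.filter (fun i => ¬ P1 i), 4 * η * ((Ei i).card : ℝ) ≤ (E.card : ℝ) * η := by
        calc ∑ i ∈ K.filter (fun i => ¬ P1 i), 4 * η * ((Ei i).card : ℝ)
            ≤ ∑ i ∈ K.filter (fun i => ¬ P1 i), ∑ x ∈ Ei i, h x := by
              apply Finset.sum_le_sum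
              intro i hi
              have := (mem_filter.mp hi).2
              simp only [hP1, not_le] at this
              exact this.le
          _ ≤ ∑ i ∈ K, ∑ x ∈ Ei i, h x := by
              apply Finset.sum_le_sum_of_subset_of_nonneg (filter_subset _ _)
              intro i hi _
              exact (hcls i hi).1
          _ = ∑ x ∈ E, h x := hfib h
          _ ≤ _ := hhsum
      rw [← Finset.mul_sum] at h1
      have h2 : (4 * η) * (∑ i ∈ K.filter (fun i => ¬ P1 i), ((Ei i).card : ℝ)) ≤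
          (4 * η) * ((E.card : ℝ) / 4) := by
        calc _ ≤ _ := h1
          _ = _ := by ring
      exact le_of_mul_le_mul_left h2 (by positivity)
  have hbad2 : ∑ i ∈ K.filter (fun i => ¬ P2 i), ((Ei i).card : ℝ) ≤ (E.card : ℝ) / 4 := by
    have hKc : (K.card : ℝ) ≤ (m : ℝ) ^ j := by
      exact_mod_cast classes_le E n m c h0 hch j hjn.le
    calc ∑ i ∈ K.filter (fun i => ¬ P2 i), ((Ei i).card : ℝ)
        ≤ ∑ i ∈ K.filter (fun i => ¬ P2 i), (E.card : ℝ) / (4 * (m : ℝ) ^ j) := by
          apply Finset.sum_le_sum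
          intro i hi
          have := (mem_filter.mp hi).2
          simp only [hP2, not_le] at this
          exact this.le
      _ ≤ ∑ i ∈ K, (E.card : ℝ) / (4 * (m : ℝ) ^ j) := by
          apply Finset.sum_le_sum_of_subset_of_nonneg (filter_subset _ _)
          intro i _ _
          positivity
      _ = (K.card : ℝ) * ((E.card : ℝ) / (4 * (m : ℝ) ^ j)) := by
          rw [Finset.sum_const, nsmul_eq_mul]
      _ ≤ (m : ℝ) ^ j * ((E.card : ℝ) / (4 * (m : ℝ) ^ j)) := by
          apply mul_le_mul_of_nonneg_right hKc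
          positivity
      _ = (E.card : ℝ) / 4 := by
          have : (m : ℝ) ^ j ≠ 0 := by positivity
          field_simp
  refine ⟨j, hjn, K.filter (fun i => P1 i ∧ P2 i), E.filter (fun x => h x ≤ 8 * η + 1),
    filter_subset _ _, filter_subset _ _, ?_, ?_⟩
  · -- the good classes carry half
    have hsplit : (E.card : ℝ) ≤ ∑ i ∈ K.filter (fun i => P1 i ∧ P2 i), ((Ei i).card : ℝ) +
        ∑ i ∈ K.filter (fun i => ¬ P1 i), ((Ei i).card : ℝ) +
        ∑ i ∈ K.filter (fun i => ¬ P2 i), ((Ei i).card : ℝ) := by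
      refine hcardsum.symm.le.trans ?_
      simp only [Finset.sum_filter]
      rw [← Finset.sum_add_distrib, ← Finset.sum_add_distrib]
      apply Finset.sum_le_sum
      intro i _
      have hnn : (0 : ℝ) ≤ ((Ei i).card : ℝ) := by positivity
      by_cases a1 : P1 i <;> by_cases a2 : P2 i <;> simp [a1, a2]
    change (E.card : ℝ) / 2 ≤ ∑ i ∈ K.filter (fun i => P1 i ∧ P2 i), ((Ei i).card : ℝ)
    linarith
  · intro i hi
    obtain ⟨hiK, hi1, hi2⟩ := mem_filter.mp hi
    refine ⟨?_, hi2, ?_⟩
    · -- Markov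
      have hd : (E.filter (fun x => h x ≤ 8 * η + 1)).filter (fun y => c j y = i) =
          (Ei i).filter (fun x => h x ≤ 8 * η + 1) := by
        ext x
        simp only [hEi, mem_filter]
        tauto
      rw [hd]
      have hpos : (0 : ℝ) < 8 * η + 1 := by linarith
      have hmk : (((Ei i).filter (fun x => ¬ h x ≤ 8 * η + 1)).card : ℝ) * (8 * η + 1) ≤
          (4 * η + 1 / 2) * ((Ei i).card : ℝ) := by
        calc (((Ei i).filter (fun x => ¬ h x ≤ 8 * η + 1)).card : ℝ) * (8 * η + 1)
            = ∑ x ∈ (Ei i).filter (fun x => ¬ h x ≤ 8 * η + 1), (8 * η + 1) := by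
              rw [Finset.sum_const, nsmul_eq_mul]
          _ ≤ ∑ x ∈ (Ei i).filter (fun x => ¬ h x ≤ 8 * η + 1), (h x + max (-h x) 0) := by
              apply Finset.sum_le_sum
              intro x hx
              have h1 := (mem_filter.mp hx).2
              have h2 : 0 ≤ max (-h x) 0 := le_max_right _ _
              push Not at h1
              linarith
          _ ≤ ∑ x ∈ Ei i, (h x + max (-h x) 0) := by
              apply Finset.sum_le_sum_of_subset_of_nonneg (filter_subset _ _)
              intro x _ _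
              have := le_max_left (-h x) 0
              linarith
          _ = (∑ x ∈ Ei i, h x) + ∑ x ∈ Ei i, max (-h x) 0 := Finset.sum_add_distrib
          _ ≤ 4 * η * ((Ei i).card : ℝ) + ((Ei i).card : ℝ) / 2 := add_le_add hi1 (hcls i hiK).2
          _ = _ := by ring
      have hmk2 : (((Ei i).filter (fun x => ¬ h x ≤ 8 * η + 1)).card : ℝ) ≤
          ((Ei i).card : ℝ) / 2 := by
        have : (((Ei i).filter (fun x => ¬ h x ≤ 8 * η + 1)).card : ℝ) * (8 * η + 1) ≤
            ((Ei i).card : ℝ) / 2 * (8 * η + 1) := by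
          calc _ ≤ _ := hmk
            _ = _ := by ring
        exact le_of_mul_le_mul_right this hpos
      have hadd : (((Ei i).filter (fun x => h x ≤ 8 * η + 1)).card : ℝ) +
          (((Ei i).filter (fun x => ¬ h x ≤ 8 * η + 1)).card : ℝ) = ((Ei i).card : ℝ) := by
        exact_mod_cast Finset.card_filter_add_card_filter_not (s := Ei i) (fun x => h x ≤ 8 * η + 1)
      change ((Ei i).card : ℝ) / 2 ≤ _
      linarith
    · intro x hx hxi
      obtain ⟨hxE, hhx'⟩ := mem_filter.mp hx
      have p1 := e_pos (c := c (j + 1)) hxE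
      have p2 := e_pos (c := c j) hxE
      have h1 : (m : ℝ) * e E (c (j + 1)) x / e E (c j) x ≤ Real.exp (8 * η + 1) := by
        rw [← Real.log_le_iff_le_exp (by positivity)]
        exact hhx'
      rw [div_le_iff₀ p2] at h1
      have h2 : e E (c j) x = ((E.filter fun y => c j y = i).card : ℝ) := by
        unfold e
        rw [hxi]
      rw [h2] at h1
      have h3 : e E (c (j + 1)) x = ((E.filter fun y => c (j + 1) y = c (j + 1) x).card : ℝ) := rfl
      rw [h3] at h1
      rw [mul_comm]
      exact h1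

end Pool.Agent.EMS
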