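import Pool.Agent.EMS.StmtsD

/-!
# SKK: the inner induction `S_k`
-/

set_option autoImplicit false

open Finset
open scoped BigOperators Classical

namespace Pool.Agent.EMS

namespace SKK_

lemma vol_pos {r : ℕ} (N : Fin r → ℕ) (hN : ∀ l, 1 ≤ N l) : 0 < vol N := by
  unfold vol
  exact Finset.prod_pos fun l _ => by exact_mod_cast hN l

lemma card_box {r : ℕ} (N : Fin r → ℕ) : ((box N).card : ℝ) = vol N := by
  unfold box vol
  rw [Fintype.card_piFinset]
  push_cast
  refine Finset.prod_congr rfl fun l _ => ?_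
  rw [Int.card_Ico]
  simp

lemma card_sbox {r : ℕ} (N : Fin r → ℕ) :
    ((sbox N).card : ℝ) = ∏ l, (2 * (N l : ℝ) + 1) := by
  unfold sbox
  rw [Fintype.card_piFinset]
  push_cast
  refine Finset.prod_congr rfl fun l _ => ?_
  rw [Int.card_Icc]
  have : ((N l : ℤ) + 1 - -(N l : ℤ)).toNat = 2 * N l + 1 := by omega
  rw [this]
  push_cast
  ring

lemma sbox_le {r : ℕ} (N : Fin r → ℕ) (hN : ∀ l, 1 ≤ N l) :
    ((sbox N).card : ℝ) ≤ 3 ^ r * vol N := by
  rw [card_sbox]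
  calc ∏ l, (2 * (N l : ℝ) + 1) ≤ ∏ l, (3 * (N l : ℝ)) := by
        refine Finset.prod_le_prod (fun l _ => by positivity) fun l _ => ?_
        have : (1 : ℝ) ≤ N l := by exact_mod_cast hN l
        linarith
    _ = 3 ^ r * vol N := by
        rw [Finset.prod_mul_distrib]
        simp [vol]

lemma tf_mono {r : ℕ} {N : Fin r → ℕ} {U : ℕ → Finset (Fin r → ℤ)}
    {ψ ψ' : ℕ → (Fin r → ℤ) → ℝ} {W1 W2 b pF pF' : ℝ} (h : TF N U ψ W1 W2 b pF)
    (hψ : ∀ t x, ψ t x ≤ ψ' t x) (hp : pF ≤ pF') : TF N U ψ' W1 W2 b pF' := by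
  obtain ⟨Ω, i, p, ty, X, T, h1, h2, h3, h4, h5, h6, h7, h8, h9⟩ := h
  exact ⟨Ω, i, p, ty, X, T, h1, h2, h3, h4.trans hp, h5, fun t x => (h6 t x).trans (hψ t x),
    h7, h8, h9⟩

lemma cert_empty {r : ℕ} (U : ℕ → Finset (Fin r → ℤ)) (t : ℕ) : Cert U t ∅ :=
  ⟨Finset.empty_subset _, by simp, by simp⟩

lemma tf_zero {r : ℕ} (N : Fin r → ℕ) (U : ℕ → Finset (Fin r → ℤ))
    (ψ : ℕ → (Fin r → ℤ) → ℝ) (W1 b : ℝ) (hψ : ∀ t x, 0 ≤ ψ t x) : TF N U ψ W1 0 b 0 := by
  refine ⟨Unit, inferInstance, fun _ => 1, fun _ => 1, fun _ _ => ∅, 0, ?_, ?_, ?_, ?_, ?_, ?_,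
    ?_, ?_, ?_⟩
  · intro _; norm_num
  · simp
  · intro _ t; exact cert_empty U t
  · simp
  · intro _ _ _; rfl
  · intro t x; simpa using hψ t x
  · simp
  · simp
  · intro _ _ _ _; rfl

lemma tf_wide {r : ℕ} {N : Fin r → ℕ} {U : ℕ → Finset (Fin r → ℤ)} {W1 s : ℝ} (W2 b : ℝ)
    (h : RC U W1 s) : TF N U (fun _ _ => s) W1 W2 b 0 := by
  obtain ⟨Ω, i, p, X, T, h1, h2, h3, h4, h5⟩ := h
  refine ⟨Ω, i, p, fun _ => 0, X, T, h1, h2, h3, ?_, ?_, h4, ?_, ?_, ?_⟩
  · simp
  · intro ω h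
    have h' : (0 : Fin 3) = 2 := h
    exact absurd h' (by decide)
  · simpa [h2] using h5
  · simp
  · intro ω t h
    have h' : (0 : Fin 3) = 1 := h
    exact absurd h' (by decide)

lemma pow_le_exp (a : ℝ) (ha0 : 0 ≤ a) (ha : a ≤ 4) (r Z : ℕ) (h : r ≤ Z) :
    a ^ r ≤ Real.exp (2 * (Z : ℝ)) := by
  have h1 : (4 : ℝ) ≤ Real.exp 2 := by
    have := Real.quadratic_le_exp_of_nonneg (x := 2) (by norm_num)
    linarith
  calc a ^ r ≤ (Real.exp 2) ^ r := pow_le_pow_left₀ ha0 (ha.trans h1) r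
    _ = Real.exp (2 * (r : ℝ)) := by rw [← Real.exp_nat_mul, mul_comm]
    _ ≤ Real.exp (2 * (Z : ℝ)) := Real.exp_le_exp.mpr (by
        have : (r : ℝ) ≤ Z := by exact_mod_cast h
        linarith)

/-- last time with a lower bound for the size -/
lemma last_time {r κ : ℕ} {N : Fin r → ℕ} {U : ℕ → Finset (Fin r → ℤ)} (hU : Chain κ N U)
    (e : ℝ) (he : 0 < e) (h0 : e ≤ ((U 0).card : ℝ)) :
    ∃ τ, e ≤ ((U τ).card : ℝ) ∧ ∀ t, τ < t → ((U t).card : ℝ) ≤ e := by
  obtain ⟨T, hT⟩ := hU.fin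
  refine ⟨Nat.findGreatest (fun t => e ≤ ((U t).card : ℝ)) T,
    Nat.findGreatest_spec (P := fun t => e ≤ ((U t).card : ℝ)) (Nat.zero_le T) h0, ?_⟩
  intro t ht
  by_cases htT : t ≤ T
  · exact le_of_lt (not_le.mp (Nat.findGreatest_is_greatest ht htT))
  · rw [hT t (by omega)]
    simpa using he.le

end SKK_

open SKK_ in
theorem skk_proof (h1 : Stmt_WNL) (h2 : Stmt_XQM) (h3 : Stmt_STP) (h4 : Stmt_CLS)
    (h5 : Stmt_PUS) : Stmt_SKK := by
  obtain ⟨Z1, hZ1⟩ := h1
  obtain ⟨Z2, hZ2⟩ := h2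
  refine ⟨max (max Z1 Z2) 20, ?_⟩
  intro Z hZ κ M0 R W θ lo hi hPI hθ hlo hhi hM hMZ hκ hlκ hρ hRZ k
  have hZ1' : Z1 ≤ Z := le_trans (le_trans (le_max_left _ _) (le_max_left _ _)) hZ
  have hZ2' : Z2 ≤ Z := le_trans (le_trans (le_max_right _ _) (le_max_left _ _)) hZ
  have hZ20 : 20 ≤ Z := le_trans (le_max_right _ _) hZ
  have hM0Z : M0 ≤ Z := by nlinarith
  have z20 : (20 : ℝ) ≤ Z := by exact_mod_cast hZ20
  have hM1 : (1 : ℝ) ≤ M0 := by exact_mod_cast hM
  have hMr : (M0 : ℝ) ≤ Z := by exact_mod_cast hM0Z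
  have z1 : (1 : ℝ) ≤ Z := by linarith
  have hp36 : 20 * (Z : ℝ) ^ 35 ≤ (Z : ℝ) ^ 36 := by
    have : (0 : ℝ) ≤ (Z : ℝ) ^ 35 := by positivity
    nlinarith [pow_succ (Z : ℝ) 35]
  have hp37 : 20 * (Z : ℝ) ^ 36 ≤ (Z : ℝ) ^ 37 := by
    have : (0 : ℝ) ≤ (Z : ℝ) ^ 36 := by positivity
    nlinarith [pow_succ (Z : ℝ) 36]
  have hp38 : 20 * (Z : ℝ) ^ 37 ≤ (Z : ℝ) ^ 38 := by
    have : (0 : ℝ) ≤ (Z : ℝ) ^ 37 := by positivity
    nlinarith [pow_succ (Z : ℝ) 37]
  have hp2 : (Z : ℝ) ^ 2 ≤ (Z : ℝ) ^ 35 := pow_le_pow_right₀ z1 (by norm_num)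
  have hp1 : 20 * (Z : ℝ) ≤ (Z : ℝ) ^ 2 := by nlinarith
  have hp35 : (0 : ℝ) ≤ (Z : ℝ) ^ 35 := by positivity
  have hp0 : (0 : ℝ) ≤ (Z : ℝ) ^ 36 := by positivity
  have hθ0 : 0 ≤ θ := hp35.trans hθ
  have hbe : bb Z θ ≤ be Z θ := by
    unfold bb be
    have : (0 : ℝ) ≤ (Z : ℝ) ^ 37 := by positivity
    linarith
  have hexpZ : 8 * (M0 : ℝ) ≤ Real.exp Z := by
    have := Real.quadratic_le_exp_of_nonneg (x := (Z : ℝ)) (by linarith)
    nlinarith
  induction k with
  | zero =>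
    intro _ r N U _ _ _ _ _ _ _
    have h := tf_zero N U (fun _ _ => (((0 : ℕ) : ℝ) + 1) * Real.exp (θ + GG Z θ) / ((U 0).card : ℝ))
      (M0 * W - Real.exp (-Z)) (be Z θ) (fun _ _ => by positivity)
    simpa using h
  | succ k ih =>
    intro hk r N U hr hN hU hNT hv1 hv2 hU0
    have hkM : k ≤ M0 := by omega
    have ih := ih hkM
    have hkr : ((k : ℝ) + 1) ≤ M0 := by exact_mod_cast hk
    have hk0 : (0 : ℝ) ≤ k := Nat.cast_nonneg k
    push_cast at hv1 hv2 hU0
    have hvol : 0 < vol N := vol_pos N hN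
    have hHH : 0 ≤ HH Z θ := by
      unfold HH
      positivity
    have hGG : 0 ≤ GG Z θ := by
      unfold GG
      positivity
    -- ranks
    have hrr : r + rho0 κ + (k + 1) * M0 * rho0 κ ≤ R := hr
    have hr1 : r + rho0 κ ≤ R := le_trans (Nat.le_add_right _ _) hrr
    have hrM : r + M0 * rho0 κ ≤ Z := by
      have : M0 * rho0 κ ≤ (k + 1) * M0 * rho0 κ := by
        apply Nat.mul_le_mul_right
        exact Nat.le_mul_of_pos_left M0 (Nat.succ_pos k)
      omega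
    have hrZ : r ≤ Z := by omega
    have h3r : (3 : ℝ) ^ r ≤ Real.exp (2 * (Z : ℝ)) := pow_le_exp 3 (by norm_num) (by norm_num) r Z hrZ
    have h4r : (4 : ℝ) ^ r ≤ Real.exp (2 * (Z : ℝ)) := pow_le_exp 4 (by norm_num) (by norm_num) r Z hrZ
    -- size of `U 0`
    have hU0pos : (0 : ℝ) < ((U 0).card : ℝ) := lt_of_lt_of_le (mul_pos (Real.exp_pos _) hvol) hU0
    have hU0ne : (U 0).Nonempty := by
      rw [← Finset.card_pos]; exact_mod_cast hU0pos
    have hU0le : ((U 0).card : ℝ) ≤ vol N := by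
      rw [← card_box]
      exact_mod_cast Finset.card_le_card (hU.sub 0)
    have hbb0 : Real.exp (-(bb Z θ)) * vol N ≤ ((U 0).card : ℝ) := by
      refine le_trans (mul_le_mul_of_nonneg_right (Real.exp_le_exp.mpr ?_) hvol.le) hU0
      unfold bb
      have : 3 * (Z : ℝ) * ((M0 : ℝ) - (k + 1)) ≤ 3 * (Z : ℝ) ^ 2 := by nlinarith
      nlinarith
    obtain ⟨τ, hτ1, hτ2⟩ := last_time hU _ (mul_pos (Real.exp_pos _) hvol) hbb0
    -- bounds for `vol N`
    have hv1' : Real.exp (lo + HH Z θ) ≤ vol N := by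
      refine le_trans (Real.exp_le_exp.mpr ?_) hv1
      have : 0 ≤ ((k : ℝ) + 1) * M0 := by positivity
      nlinarith
    have hv2' : vol N ≤ Real.exp (hi - (Z : ℝ) ^ 36) := by
      refine hv2.trans (Real.exp_le_exp.mpr ?_)
      have : 0 ≤ 2 * (Z : ℝ) * ((k : ℝ) + 1) := by positivity
      linarith
    obtain ⟨hcls, -, -⟩ := h4 r κ N U hU hN
    by_cases hW : ∃ c : Fin r → Fin 2, (UC N c U 0).Nonempty ∧
        RC U (M0 * W - Real.exp (-Z)) (Real.exp (θ + GG Z θ) / vol N)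
    · obtain ⟨c, -, hRC⟩ := hW
      refine tf_mono (tf_wide _ _ hRC) ?_ (by positivity)
      intro t x
      push_cast
      have e1 : Real.exp (θ + GG Z θ) / vol N ≤ Real.exp (θ + GG Z θ) / ((U 0).card : ℝ) :=
        div_le_div_of_nonneg_left (Real.exp_pos _).le hU0pos hU0le
      refine e1.trans (div_le_div_of_nonneg_right ?_ hU0pos.le)
      nlinarith [Real.exp_pos (θ + GG Z θ)]
    · push Not at hW
      -- the GAPs of the classes
      have hT : ∀ c : Fin r → Fin 2, (UC N c U 0).Nonempty →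
          ∃ T : SG r, T.d ≤ r + M0 * rho0 κ ∧ T.sy 0 ⊆ sbox (Nc N c) ∧
          Real.exp (-(M0 * GG Z θ)) * vol (Nc N c) ≤ T.sv ∧
          (((ebox (Nc N c)).filter fun y => ∃ t, τ ≤ t ∧
            Real.exp (-(be Z θ)) * T.sv ≤ ((UC N c U t ∩ T.sy y).card : ℝ)).card : ℝ) ≤
              Real.exp (-((Z : ℝ) ^ 38)) * vol (Nc N c) := by
        intro c hc
        obtain ⟨hch, hNTc, hNc, hvc, hvc2, -, -⟩ := hcls c
        rcases hZ1 Z hZ1' κ M0 R W θ lo hi hPI hθ hlo hhi hM hM0Z hκ hlκ hρ r τ N c U hr1 hrM hN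
          (hNc hc) hU hNT hτ2 hv1' hv2' with h | h
        · exact absurd h (hW c hc)
        · exact h
      have hX := hZ2 Z hZ2' κ R W θ lo hi hPI hθ hlo hhi hκ hlκ r τ N U hr1 hrZ hN hU hNT hτ1
        hv1' hv2'
      have hAl : Al N U (be Z θ) τ := by
        refine ⟨τ, le_refl _, le_trans (mul_le_mul_of_nonneg_right (Real.exp_le_exp.mpr ?_) hvol.le) hτ1⟩
        linarith
      have hstp := h3 r κ τ N U (M0 * W - Real.exp (-Z)) (k * (W - Real.exp (-Z)))
        (W - Real.exp (-Z)) (Real.exp (GG Z θ) / vol N) (((k : ℝ) + 1) * Real.exp (θ + GG Z θ))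
        (be Z θ) ((Z : ℝ) ^ 35 + 3 * Z * ((M0 : ℝ) - k)) ((Z : ℝ) ^ 38) ((k : ℝ) / (4 * M0))
        hU hN hU0ne (by positivity) (by positivity) (by positivity) hX hAl ?_
      · have e2 : (k : ℝ) * (W - Real.exp (-Z)) + (W - Real.exp (-Z))
            = ((k + 1 : ℕ) : ℝ) * (W - Real.exp (-Z)) := by push_cast; ring
        rw [e2] at hstp
        refine tf_mono hstp ?_ ?_
        · intro t x
          refine div_le_div_of_nonneg_right ?_ hU0pos.le
          have e3 : Real.exp (GG Z θ) / vol N * ((U 0).card : ℝ) ≤ Real.exp (GG Z θ) := by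
            rw [div_mul_eq_mul_div, div_le_iff₀ hvol]
            exact mul_le_mul_of_nonneg_left hU0le (Real.exp_pos _).le
          have e4 : Real.exp (GG Z θ) ≤ Real.exp (θ + GG Z θ) := Real.exp_le_exp.mpr (by linarith)
          push_cast
          linarith
        · -- failure probability
          have e5 : vol N / ((U 0).card : ℝ) ≤
              Real.exp ((Z : ℝ) ^ 35 + 3 * Z * ((M0 : ℝ) - (k + 1))) := by
            rw [div_le_iff₀ hU0pos]
            calc vol N = Real.exp ((Z : ℝ) ^ 35 + 3 * Z * ((M0 : ℝ) - (k + 1))) *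
                  (Real.exp (-((Z : ℝ) ^ 35 + 3 * Z * ((M0 : ℝ) - (k + 1)))) * vol N) := by
                  rw [← mul_assoc, ← Real.exp_add, add_neg_cancel, Real.exp_zero, one_mul]
              _ ≤ _ := mul_le_mul_of_nonneg_left hU0 (Real.exp_pos _).le
          have e6 : (4 ^ r * Real.exp (-((Z : ℝ) ^ 35 + 3 * Z * ((M0 : ℝ) - k)))) *
              Real.exp ((Z : ℝ) ^ 35 + 3 * Z * ((M0 : ℝ) - (k + 1))) ≤ Real.exp (-Z) := by
            calc (4 ^ r * Real.exp (-((Z : ℝ) ^ 35 + 3 * Z * ((M0 : ℝ) - k)))) *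
                  Real.exp ((Z : ℝ) ^ 35 + 3 * Z * ((M0 : ℝ) - (k + 1)))
                ≤ (Real.exp (2 * (Z : ℝ)) * Real.exp (-((Z : ℝ) ^ 35 + 3 * Z * ((M0 : ℝ) - k)))) *
                  Real.exp ((Z : ℝ) ^ 35 + 3 * Z * ((M0 : ℝ) - (k + 1))) := by
                  gcongr
              _ = Real.exp (-Z) := by
                  rw [← Real.exp_add, ← Real.exp_add]
                  congr 1
                  ring
          have e7 : Real.exp (-((Z : ℝ) ^ 38)) *
              Real.exp ((Z : ℝ) ^ 35 + 3 * Z * ((M0 : ℝ) - (k + 1))) ≤ Real.exp (-Z) := by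
            rw [← Real.exp_add]
            refine Real.exp_le_exp.mpr ?_
            have : 3 * (Z : ℝ) * ((M0 : ℝ) - (k + 1)) ≤ 3 * (Z : ℝ) ^ 2 := by nlinarith
            nlinarith
          have e8 : Real.exp (-(Z : ℝ)) ≤ 1 / (8 * M0) := by
            rw [Real.exp_neg, ← one_div]
            exact one_div_le_one_div_of_le (by positivity) hexpZ
          have e9 : (4 ^ r * Real.exp (-((Z : ℝ) ^ 35 + 3 * Z * ((M0 : ℝ) - k))) +
              Real.exp (-((Z : ℝ) ^ 38))) * vol N / ((U 0).card : ℝ) ≤ 2 * (1 / (8 * M0)) := by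
            rw [mul_div_assoc]
            calc _ ≤ (4 ^ r * Real.exp (-((Z : ℝ) ^ 35 + 3 * Z * ((M0 : ℝ) - k))) +
                    Real.exp (-((Z : ℝ) ^ 38))) *
                    Real.exp ((Z : ℝ) ^ 35 + 3 * Z * ((M0 : ℝ) - (k + 1))) :=
                  mul_le_mul_of_nonneg_left e5 (by positivity)
              _ = _ := add_mul _ _ _
              _ ≤ Real.exp (-Z) + Real.exp (-Z) := add_le_add e6 e7
              _ ≤ 2 * (1 / (8 * M0)) := by linarith
          refine (add_le_add_right e9 _).trans (le_of_eq ?_)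
          push_cast
          field_simp
          ring
      · intro c hc
        obtain ⟨T, hTd, hTs, hTv, hTn⟩ := hT c hc
        obtain ⟨hch, hNTc, hNc, hvc, hvc2, -, -⟩ := hcls c
        have hNc1 := hNc hc
        refine ⟨T, hTs, hTn, ?_⟩
        intro x hx
        obtain ⟨hp1, hp2, hp3, hp4, hp5, -⟩ := h5 r κ (Nc N c) (UC N c U) T x hch
        obtain ⟨-, -, hq3, -⟩ := h5 r κ (Nc N c) (UC N c U) T 0 hch
        refine ih T.d T.sM (T.pbs x (UC N c U)) ?_ ?_ hp1 (hp5 _ (hNTc _ hNT)) ?_ ?_ ?_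
        · -- rank
          calc T.d + rho0 κ + k * M0 * rho0 κ ≤ r + M0 * rho0 κ + rho0 κ + k * M0 * rho0 κ := by
                omega
            _ = r + rho0 κ + (k + 1) * M0 * rho0 κ := by ring
            _ ≤ R := hrr
        · intro l
          unfold SG.sM
          omega
        · -- lower bound for the size of the cell
          rw [hp2]
          refine le_trans ?_ hTv
          have f1 : vol N ≤ Real.exp (2 * (Z : ℝ)) * vol (Nc N c) :=
            (hvc hNc1).trans (mul_le_mul_of_nonneg_right h3r (vol_pos _ hNc1).le)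
          have f2 : Real.exp (-(2 * (Z : ℝ))) * vol N ≤ vol (Nc N c) := by
            calc Real.exp (-(2 * (Z : ℝ))) * vol N
                ≤ Real.exp (-(2 * (Z : ℝ))) * (Real.exp (2 * (Z : ℝ)) * vol (Nc N c)) :=
                  mul_le_mul_of_nonneg_left f1 (Real.exp_pos _).le
              _ = vol (Nc N c) := by
                  rw [← mul_assoc, ← Real.exp_add, neg_add_cancel, Real.exp_zero, one_mul]
          calc Real.exp (lo + (k * M0 + 1) * HH Z θ)
              ≤ Real.exp (-(M0 * GG Z θ)) * (Real.exp (-(2 * (Z : ℝ))) *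
                Real.exp (lo + (((k : ℝ) + 1) * M0 + 1) * HH Z θ)) := by
                rw [← Real.exp_add, ← Real.exp_add]
                refine Real.exp_le_exp.mpr ?_
                have g1 : HH Z θ = GG Z θ + (3 * θ + 3 * (Z : ℝ) ^ 38) := by
                  unfold HH GG; ring
                have g2 : 2 * (Z : ℝ) ≤ M0 * (3 * θ + 3 * (Z : ℝ) ^ 38) := by
                  have : 2 * (Z : ℝ) ≤ 3 * θ + 3 * (Z : ℝ) ^ 38 := by nlinarith
                  nlinarith
                rw [g1]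
                nlinarith
            _ ≤ Real.exp (-(M0 * GG Z θ)) * (Real.exp (-(2 * (Z : ℝ))) * vol N) := by
                gcongr
            _ ≤ Real.exp (-(M0 * GG Z θ)) * vol (Nc N c) := by gcongr
        · -- upper bound
          rw [hp2, ← hq3]
          calc ((T.sy 0).card : ℝ) ≤ ((sbox (Nc N c)).card : ℝ) := by
                exact_mod_cast Finset.card_le_card hTs
            _ ≤ 3 ^ r * vol (Nc N c) := sbox_le _ hNc1
            _ ≤ Real.exp (2 * (Z : ℝ)) * vol N := by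
                have := (vol_pos _ hNc1).le
                gcongr
            _ ≤ Real.exp (2 * (Z : ℝ)) * Real.exp (hi - (Z : ℝ) ^ 36 - 2 * Z * ((k : ℝ) + 1)) := by
                gcongr
            _ = Real.exp (hi - (Z : ℝ) ^ 36 - 2 * Z * k) := by
                rw [← Real.exp_add]
                congr 1
                ring
        · rw [hp2, hp4]
          exact hx

end Pool.Agent.EMS
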