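import Pool.Agent.EMS.StmtsC

/-!
SLI: the best slice of a two part GAP.
-/

set_option autoImplicit false

open Finset
open scoped BigOperators Classical

namespace Pool.Agent.EMS

namespace SLI_

variable {r B n : ℕ}

/-- the thick part -/
noncomputable def thk (P : TG r B n) (hB : 2 ≤ B) : SG r where
  d := P.b
  φ := P.φ2
  M := P.M2
  pos := fun l => Nat.one_le_pow _ _ (by omega)
  proper := by
    intro u hu h0
    refine (P.proper 0 u (fun l => ?_) (fun l => ?_) ?_).2
    · simp
    · have := hu l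
      unfold TG.M2 at this
      push_cast at this
      exact this
    · rw [map_zero, zero_add]
      exact h0

lemma card_box {d : ℕ} (N : Fin d → ℕ) : ((box N).card : ℝ) = vol N := by
  unfold box vol
  rw [Fintype.card_piFinset]
  push_cast
  refine Finset.prod_congr rfl (fun l _ => ?_)
  rw [Int.card_Ico]
  simp

lemma box_nonempty {d : ℕ} {N : Fin d → ℕ} (h : ∀ l, 1 ≤ N l) : (box N).Nonempty := by
  refine ⟨fun _ => 0, ?_⟩
  unfold box
  rw [Fintype.mem_piFinset]
  intro l
  rw [Finset.mem_Ico]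
  refine ⟨le_rfl, ?_⟩
  exact_mod_cast h l

lemma set_sub (P : TG r B n) (hB : 2 ≤ B) (c : Fin r → ℤ) :
    P.set c ⊆ (box P.M1).biUnion fun u => (thk P hB).bx (c + P.φ1 u) := by
  intro x hx
  unfold TG.set at hx
  rw [Finset.mem_image] at hx
  obtain ⟨z, hz, rfl⟩ := hx
  rw [Finset.mem_product] at hz
  rw [Finset.mem_biUnion]
  refine ⟨z.1, hz.1, ?_⟩
  unfold SG.bx
  rw [Finset.mem_image]
  exact ⟨z.2, hz.2, rfl⟩

end SLI_

open SLI_ in
theorem sli_proof : Stmt_SLI := by
  intro r B n P c V hB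
  obtain ⟨u, hu, hmax⟩ := Finset.exists_max_image (box P.M1)
    (fun u => (V ∩ (thk P hB).bx (c + P.φ1 u)).card) (box_nonempty P.pos)
  refine ⟨thk P hB, c + P.φ1 u, rfl, rfl, ?_, ?_, ?_⟩
  · have h1 : ((V ∩ P.set c).card : ℝ) ≤ vol P.M1 * ((V ∩ (thk P hB).bx (c + P.φ1 u)).card : ℝ) := by
      have h2 : V ∩ P.set c ⊆ (box P.M1).biUnion fun u => V ∩ (thk P hB).bx (c + P.φ1 u) := by
        intro x hx
        rw [Finset.mem_inter] at hx
        have h3 := set_sub P hB c hx.2
        rw [Finset.mem_biUnion] at h3 ⊢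
        obtain ⟨v, hv, hxv⟩ := h3
        exact ⟨v, hv, Finset.mem_inter.2 ⟨hx.1, hxv⟩⟩
      have h4 : (V ∩ P.set c).card ≤ (box P.M1).card * (V ∩ (thk P hB).bx (c + P.φ1 u)).card := by
        refine (Finset.card_le_card h2).trans (Finset.card_biUnion_le_card_mul _ _ _ ?_)
        intro v hv
        exact hmax v hv
      rw [← card_box]
      exact_mod_cast h4
    have hv0 : 0 ≤ (thk P hB).v := by
      unfold SG.v
      positivity
    have e : P.v = vol P.M1 * (thk P hB).v := rfl
    rw [e]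
    calc ((V ∩ P.set c).card : ℝ) * (thk P hB).v ≤
          (vol P.M1 * ((V ∩ (thk P hB).bx (c + P.φ1 u)).card : ℝ)) * (thk P hB).v := by gcongr
      _ = _ := by ring
  · have e : P.v = vol P.M1 * (thk P hB).v := rfl
    have hv0 : 0 ≤ (thk P hB).v := by
      unfold SG.v
      positivity
    rw [e]
    have h5 : vol P.M1 ≤ (B : ℝ) ^ ((n + 1) * P.a) := by
      unfold vol
      have h6 : ∏ l : Fin P.a, (P.M1 l : ℝ) ≤ ∏ l : Fin P.a, (B : ℝ) ^ (n + 1) := by
        refine Finset.prod_le_prod (fun _ _ => Nat.cast_nonneg _) (fun l _ => ?_)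
        exact_mod_cast (P.thin l).le
      refine h6.trans (le_of_eq ?_)
      rw [Finset.prod_const, Finset.card_univ, Fintype.card_fin, ← pow_mul]
    gcongr
  · intro x hx
    unfold SG.bx at hx
    rw [Finset.mem_image] at hx
    obtain ⟨w, hw, rfl⟩ := hx
    unfold TG.set
    rw [Finset.mem_image]
    exact ⟨(u, w), Finset.mem_product.2 ⟨hu, hw⟩, rfl⟩

end Pool.Agent.EMS
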