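import Pool.Agent.EMS.StmtsD

/-!
# EMS, module STJ: push a typed family from a cell and join it with independent certificates
-/

set_option autoImplicit false

open Finset
open scoped BigOperators Classical

namespace Pool.Agent.EMS

namespace STJ_

theorem al_mono {r : ℕ} {N : Fin r → ℕ} {U : ℕ → Finset (Fin r → ℤ)} {b : ℝ} {s t : ℕ}
    (h : s ≤ t) (hA : Al N U b t) : Al N U b s := by
  obtain ⟨t', h1, h2⟩ := hA
  exact ⟨t', h.trans h1, h2⟩

/-- from the cell to the class -/
noncomputable def p1 {r : ℕ} (T : SG r) (x : Fin r → ℤ) (u : Fin T.d → ℤ) : Fin r → ℤ :=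
  x + T.φ fun l => u l - (T.M l : ℤ)

/-- from the class to the box -/
noncomputable def p2 {r : ℕ} (c : Fin r → Fin 2) (v : Fin r → ℤ) : Fin r → ℤ :=
  cz c + (2 : ℤ) • v

theorem p2_inj {r : ℕ} (c : Fin r → Fin 2) : Function.Injective (p2 c) := by
  intro v w h
  unfold p2 at h
  have h1 := add_left_cancel h
  ext l
  have h2 := congrFun h1 l
  simp only [Pi.smul_apply, smul_eq_mul] at h2
  omega

theorem p1_inj {r : ℕ} (T : SG r) (x : Fin r → ℤ) (u w : Fin T.d → ℤ) (hu : u ∈ box T.sM)
    (hw : w ∈ box T.sM) (h : p1 T x u = p1 T x w) : u = w := by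
  unfold p1 at h
  have h1 := add_left_cancel h
  have hu' : ∀ l, 0 ≤ u l ∧ u l < ((2 * T.M l + 1 : ℕ) : ℤ) := by
    intro l
    have := (Fintype.mem_piFinset.mp hu) l
    exact Finset.mem_Ico.mp this
  have hw' : ∀ l, 0 ≤ w l ∧ w l < ((2 * T.M l + 1 : ℕ) : ℤ) := by
    intro l
    have := (Fintype.mem_piFinset.mp hw) l
    exact Finset.mem_Ico.mp this
  have h2 : T.φ (u - w) = 0 := by
    have e : u - w = (fun l => u l - (T.M l : ℤ)) - (fun l => w l - (T.M l : ℤ)) := by
      ext l; simp
    rw [e, map_sub, h1, sub_self]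
  have h3 := T.proper (u - w) (fun l => by
    have e1 := hu' l
    have e2 := hw' l
    push_cast at e1 e2
    have e3 : (1 : ℤ) ≤ (T.M l : ℤ) := by exact_mod_cast T.pos l
    rw [Pi.sub_apply, abs_le]
    constructor <;> linarith [e1.1, e1.2, e2.1, e2.2]) h2
  exact sub_eq_zero.mp h3

/-- the push of a finite set -/
noncomputable def push {r : ℕ} (c : Fin r → Fin 2) (T : SG r) (x : Fin r → ℤ)
    (X : Finset (Fin T.d → ℤ)) : Finset (Fin r → ℤ) :=
  (X.image (p1 T x)).image (p2 c)

theorem push_empty {r : ℕ} (c : Fin r → Fin 2) (T : SG r) (x : Fin r → ℤ) :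
    push c T x ∅ = ∅ := by
  unfold push; simp

end STJ_

open STJ_ in
theorem stj_proof (h1 : Stmt_PUS) (h2 : Stmt_CLS) : Stmt_STJ := by
  intro r κ τ N c U T x W1 W2 WQ sQ e b pF hU hN he hsQ hQ hAl hnAl hTF
  obtain ⟨hcls, -, -⟩ := h2 r κ N U hU hN
  obtain ⟨hCh, -, -, -, -, hcert1, hcert2⟩ := hcls c
  obtain ⟨-, -, -, -, -, hpus⟩ := h1 r κ (Nc N c) (UC N c U) T x hCh
  obtain ⟨Ωq, fq, pq, Xq, Tq, hq0, hq1, hqc, hqp, hqs, hqW⟩ := hQ
  obtain ⟨Ω', f', p', ty', X', T', h0', h1', hc', ht', hty', hs', hW1', hW2', hal'⟩ := hTF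
  -- push of certificates
  have hpush : ∀ t X, Cert (T.pbs x (UC N c U)) t X →
      Cert U t (push c T x X) ∧ (push c T x X).card = X.card ∧ X.image (p1 T x) ⊆ T.sy x := by
    intro t X hX
    obtain ⟨e1, e2, e3⟩ := hpus t X hX
    obtain ⟨e4, e5⟩ := hcert2 t _ e1.1 (hcert1 t _ e1)
    exact ⟨e4, e5.trans e2, e3⟩
  have hbox : ∀ t X, Cert (T.pbs x (UC N c U)) t X → X ⊆ box T.sM := by
    intro t X hX
    exact hX.1.trans (Finset.filter_subset _ _)
  let X : Ω' × Ωq → ℕ → Finset (Fin r → ℤ) := fun ω t =>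
    if ty' ω.1 = 2 then ∅ else
      if ty' ω.1 = 1 ∧ τ ≤ t then Xq ω.2 t else push c T x (X' ω.1 t)
  have hX2 : ∀ ω t, ty' ω.1 = 2 → X ω t = ∅ := fun ω t h => if_pos h
  have hX1a : ∀ ω t, ty' ω.1 = 1 → τ ≤ t → X ω t = Xq ω.2 t := by
    intro ω t h h'
    have h2' : ty' ω.1 ≠ 2 := by rw [h]; decide
    simp only [X]
    rw [if_neg h2', if_pos ⟨h, h'⟩]
  have hX1b : ∀ ω t, ty' ω.1 = 1 → ¬ τ ≤ t → X ω t = push c T x (X' ω.1 t) := by
    intro ω t h h'
    have h2' : ty' ω.1 ≠ 2 := by rw [h]; decide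
    simp only [X]
    rw [if_neg h2', if_neg (fun h3 => h' h3.2)]
  have hX0 : ∀ ω t, ty' ω.1 = 0 → X ω t = push c T x (X' ω.1 t) := by
    intro ω t h
    have h2' : ty' ω.1 ≠ 2 := by rw [h]; decide
    have h1'' : ty' ω.1 ≠ 1 := by rw [h]; decide
    simp only [X]
    rw [if_neg h2', if_neg (fun h3 => h1'' h3.1)]
  have hty3 : ∀ w, ty' w = 0 ∨ ty' w = 1 ∨ ty' w = 2 := by
    intro w
    have : ∀ i : Fin 3, i = 0 ∨ i = 1 ∨ i = 2 := by decide
    exact this _
  have hXsub : ∀ ω t y, y ∈ X ω t → y ∈ push c T x (X' ω.1 t) ∨ y ∈ Xq ω.2 t := by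
    intro ω t y hy
    rcases hty3 ω.1 with h | h | h
    · rw [hX0 ω t h] at hy; left; exact hy
    · by_cases h' : τ ≤ t
      · rw [hX1a ω t h h'] at hy; right; exact hy
      · rw [hX1b ω t h h'] at hy; left; exact hy
    · rw [hX2 ω t h] at hy
      exact absurd hy (Finset.notMem_empty _)
  have hcardX1 : ∀ ω t, ty' ω.1 = 1 →
      ((X ω t).card : ℝ) = ((X' ω.1 t).card : ℝ) + ((Xq ω.2 t).card : ℝ) := by
    intro ω t h
    by_cases h' : τ ≤ t
    · rw [hX1a ω t h h']
      have e1 : X' ω.1 t = ∅ := hal' ω.1 t h fun h3 => hnAl (al_mono h' h3)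
      rw [e1]; simp
    · rw [hX1b ω t h h', (hpush t _ (hc' ω.1 t)).2.1]
      have e1 : Xq ω.2 t = ∅ := by
        by_contra hne
        obtain ⟨y, hy⟩ := Finset.nonempty_iff_ne_empty.mpr hne
        exact h' (hqp ω.2 t y hy).1
      rw [e1]; simp
  have hcardX0 : ∀ ω t, ty' ω.1 = 0 → ((X ω t).card : ℝ) = ((X' ω.1 t).card : ℝ) := by
    intro ω t h
    rw [hX0 ω t h, (hpush t _ (hc' ω.1 t)).2.1]
  refine ⟨Ω' × Ωq, inferInstance, fun ω => p' ω.1 * pq ω.2, fun ω => ty' ω.1, X, max T' Tq,
    fun ω => mul_nonneg (h0' _) (hq0 _), ?_, ?_, ?_, ?_, ?_, ?_, ?_, ?_⟩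
  · rw [Fintype.sum_prod_type]
    simp only
    simp_rw [← Finset.mul_sum]
    rw [hq1]
    simpa using h1'
  · intro ω t
    rcases hty3 ω.1 with h | h | h
    · rw [hX0 ω t h]; exact (hpush t _ (hc' ω.1 t)).1
    · by_cases h' : τ ≤ t
      · rw [hX1a ω t h h']; exact hqc ω.2 t
      · rw [hX1b ω t h h']; exact (hpush t _ (hc' ω.1 t)).1
    · rw [hX2 ω t h]
      exact ⟨Finset.empty_subset _, fun y hy => absurd hy (Finset.notMem_empty _),
        fun y hy => absurd hy (Finset.notMem_empty _)⟩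
  · refine le_trans (le_of_eq ?_) ht'
    rw [Fintype.sum_prod_type]
    refine Finset.sum_congr rfl fun w _ => ?_
    simp only
    split_ifs
    · rw [← Finset.mul_sum, hq1, mul_one]
    · simp
  · intro ω h t
    exact hX2 ω t h
  · intro t y
    have hA : ∑ ω : Ω' × Ωq, (if y ∈ X ω t then p' ω.1 * pq ω.2 else 0) ≤
        ∑ ω : Ω' × Ωq, ((if y ∈ push c T x (X' ω.1 t) then p' ω.1 * pq ω.2 else 0) +
          (if y ∈ Xq ω.2 t then p' ω.1 * pq ω.2 else 0)) := by
      refine Finset.sum_le_sum fun ω _ => ?_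
      have hp : 0 ≤ p' ω.1 * pq ω.2 := mul_nonneg (h0' _) (hq0 _)
      by_cases hy : y ∈ X ω t
      · rw [if_pos hy]
        rcases hXsub ω t y hy with h | h
        · rw [if_pos h]
          have : 0 ≤ (if y ∈ Xq ω.2 t then p' ω.1 * pq ω.2 else 0) := by
            split_ifs
            · exact hp
            · exact le_rfl
          linarith
        · rw [if_pos h]
          have : 0 ≤ (if y ∈ push c T x (X' ω.1 t) then p' ω.1 * pq ω.2 else 0) := by
            split_ifs
            · exact hp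
            · exact le_rfl
          linarith
      · rw [if_neg hy]
        refine add_nonneg ?_ ?_ <;>
        · split_ifs
          · exact hp
          · exact le_rfl
    refine hA.trans ?_
    rw [Finset.sum_add_distrib, add_comm]
    refine add_le_add ?_ ?_
    · rw [Fintype.sum_prod_type_right]
      refine le_trans (le_of_eq ?_) (hqs t y)
      refine Finset.sum_congr rfl fun w _ => ?_
      simp only
      split_ifs
      · rw [← Finset.sum_mul, h1', one_mul]
      · simp
    · rw [Fintype.sum_prod_type]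
      have hB : ∑ w : Ω', ∑ w' : Ωq,
          (if y ∈ push c T x (X' w t) then p' w * pq w' else 0) =
          ∑ w : Ω', (if y ∈ push c T x (X' w t) then p' w else 0) := by
        refine Finset.sum_congr rfl fun w _ => ?_
        split_ifs
        · rw [← Finset.mul_sum, hq1, mul_one]
        · simp
      refine (le_of_eq hB).trans ?_
      by_cases hv : ∃ v ∈ T.sy x, y = cz c + (2 : ℤ) • v
      · rw [if_pos hv]
        obtain ⟨v, hv1, hv2⟩ := hv
        by_cases hu : ∃ u ∈ box T.sM, p2 c (p1 T x u) = y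
        · obtain ⟨u, hu1, hu2⟩ := hu
          refine le_trans (Finset.sum_le_sum fun w _ => ?_) (hs' t u)
          by_cases hy : y ∈ push c T x (X' w t)
          · rw [if_pos hy]
            obtain ⟨v', hv', hvy⟩ := Finset.mem_image.mp hy
            obtain ⟨u', hu', huv⟩ := Finset.mem_image.mp hv'
            have e1 : p1 T x u' = p1 T x u := by
              apply p2_inj c
              rw [huv, hvy, hu2]
            have e2 : u' = u := p1_inj T x u' u (hbox t _ (hc' w t) hu') hu1 e1
            rw [e2] at hu'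
            rw [if_pos hu']
          · rw [if_neg hy]
            split_ifs
            · exact h0' w
            · exact le_rfl
        · refine le_trans (le_of_eq ?_) he
          refine Finset.sum_eq_zero fun w _ => ?_
          rw [if_neg]
          intro hy
          obtain ⟨v', hv', hvy⟩ := Finset.mem_image.mp hy
          obtain ⟨u', hu', huv⟩ := Finset.mem_image.mp hv'
          exact hu ⟨u', hbox t _ (hc' w t) hu', by rw [huv]; exact hvy⟩
      · rw [if_neg hv]
        refine le_of_eq (Finset.sum_eq_zero fun w _ => ?_)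
        rw [if_neg]
        intro hy
        obtain ⟨v', hv', hvy⟩ := Finset.mem_image.mp hy
        exact hv ⟨v', (hpush t _ (hc' w t)).2.2 hv', hvy.symm⟩
  · -- type 0
    have e1 : ∑ ω : Ω' × Ωq, (if ty' ω.1 = 0 then p' ω.1 * pq ω.2 else 0) =
        ∑ w, (if ty' w = 0 then p' w else 0) := by
      rw [Fintype.sum_prod_type]
      refine Finset.sum_congr rfl fun w _ => ?_
      simp only
      split_ifs
      · rw [← Finset.mul_sum, hq1, mul_one]
      · simp
    refine (le_of_eq (congrArg (fun z => W1 * z) e1)).trans (hW1'.trans ?_)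
    rw [Fintype.sum_prod_type]
    refine Finset.sum_le_sum fun w _ => ?_
    by_cases h : ty' w = 0
    · simp only [if_pos h]
      have e2 : p' w * ∑ t ∈ Finset.range T', ((X' w t).card : ℝ) =
          ∑ w' : Ωq, p' w * pq w' * ∑ t ∈ Finset.range T', ((X' w t).card : ℝ) := by
        rw [← Finset.sum_mul, ← Finset.mul_sum, hq1, mul_one]
      rw [e2]
      refine Finset.sum_le_sum fun w' _ => ?_
      refine mul_le_mul_of_nonneg_left ?_ (mul_nonneg (h0' _) (hq0 _))
      have e3 : ∀ t, ((X (w, w') t).card : ℝ) = ((X' w t).card : ℝ) := fun t =>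
        hcardX0 (w, w') t h
      simp_rw [e3]
      exact Finset.sum_le_sum_of_subset_of_nonneg
        (Finset.range_subset_range.mpr (le_max_left _ _)) fun _ _ _ => Nat.cast_nonneg _
    · simp [if_neg h]
  · -- type 1
    have e1 : ∑ ω : Ω' × Ωq, (if ty' ω.1 = 1 then p' ω.1 * pq ω.2 else 0) =
        ∑ w, (if ty' w = 1 then p' w else 0) := by
      rw [Fintype.sum_prod_type]
      refine Finset.sum_congr rfl fun w _ => ?_
      simp only
      split_ifs
      · rw [← Finset.mul_sum, hq1, mul_one]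
      · simp
    refine (le_of_eq (congrArg (fun z => (W2 + WQ) * z) e1)).trans ?_
    have hP1 : 0 ≤ ∑ w, (if ty' w = 1 then p' w else 0) :=
      Finset.sum_nonneg fun w _ => by
        split_ifs
        · exact h0' w
        · exact le_rfl
    have e4 : (W2 + WQ) * ∑ w, (if ty' w = 1 then p' w else 0) ≤
        ∑ w, (if ty' w = 1 then p' w * ∑ t ∈ Finset.range T', ((X' w t).card : ℝ) else 0) +
        (∑ ω, pq ω * ∑ t ∈ Finset.range Tq, ((Xq ω t).card : ℝ)) *
          ∑ w, (if ty' w = 1 then p' w else 0) := by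
      rw [add_mul]
      exact add_le_add hW2' (mul_le_mul_of_nonneg_right hqW hP1)
    refine e4.trans ?_
    rw [Finset.mul_sum, ← Finset.sum_add_distrib, Fintype.sum_prod_type]
    refine Finset.sum_le_sum fun w _ => ?_
    by_cases h : ty' w = 1
    · simp only [if_pos h]
      have e2 : p' w * ∑ t ∈ Finset.range T', ((X' w t).card : ℝ) =
          ∑ w' : Ωq, p' w * pq w' * ∑ t ∈ Finset.range T', ((X' w t).card : ℝ) := by
        rw [← Finset.sum_mul, ← Finset.mul_sum, hq1, mul_one]
      have e5 : (∑ ω, pq ω * ∑ t ∈ Finset.range Tq, ((Xq ω t).card : ℝ)) * p' w =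
          ∑ w' : Ωq, p' w * pq w' * ∑ t ∈ Finset.range Tq, ((Xq w' t).card : ℝ) := by
        rw [Finset.sum_mul]
        exact Finset.sum_congr rfl fun w' _ => by ring
      rw [e2, e5, ← Finset.sum_add_distrib]
      refine Finset.sum_le_sum fun w' _ => ?_
      rw [← mul_add]
      refine mul_le_mul_of_nonneg_left ?_ (mul_nonneg (h0' _) (hq0 _))
      have e3 : ∀ t, ((X (w, w') t).card : ℝ) = ((X' w t).card : ℝ) + ((Xq w' t).card : ℝ) :=
        fun t => hcardX1 (w, w') t h
      simp_rw [e3]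
      rw [Finset.sum_add_distrib]
      refine add_le_add ?_ ?_
      · exact Finset.sum_le_sum_of_subset_of_nonneg
          (Finset.range_subset_range.mpr (le_max_left _ _)) fun _ _ _ => Nat.cast_nonneg _
      · exact Finset.sum_le_sum_of_subset_of_nonneg
          (Finset.range_subset_range.mpr (le_max_right _ _)) fun _ _ _ => Nat.cast_nonneg _
    · simp [if_neg h]
  · intro ω t h hna
    have hτ : τ ≤ t := by
      by_contra hcon
      exact hna (al_mono (by omega) hAl)
    rw [hX1a ω t h hτ]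
    by_contra hne
    obtain ⟨y, hy⟩ := Finset.nonempty_iff_ne_empty.mpr hne
    exact hna (hqp ω.2 t y hy).2

end Pool.Agent.EMS
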