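import Pool.Agent.EMS.StmtsD

set_option autoImplicit false

open Finset
open scoped BigOperators Classical

namespace Pool.Agent.EMS

/-- STM: mixtures of typed families -/
theorem stm_proof : Stmt_STM := by
  intro r N U I instI lam ψ pF W1 W2 b hlam hsum h
  choose Ω instΩ p ty X T hp hp1 hC hF1 hF2 hψ hW1 hW2 hal using h
  have key : ∀ (G : (Σ i, Ω i) → ℝ), (∑ x : (Σ i, Ω i), G x) = ∑ i, ∑ ω : Ω i, G ⟨i, ω⟩ := by
    intro G
    exact Fintype.sum_sigma G
  refine ⟨Σ i, Ω i, inferInstance, fun x => lam x.1 * p x.1 x.2, fun x => ty x.1 x.2,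
    fun x => X x.1 x.2, Finset.univ.sup T, ?_, ?_, ?_, ?_, ?_, ?_, ?_, ?_, ?_⟩
  · rintro ⟨i, ω⟩
    exact mul_nonneg (hlam i) (hp i ω)
  · rw [key]
    simp only [← Finset.mul_sum, hp1, mul_one]
    exact hsum
  · rintro ⟨i, ω⟩ t
    exact hC i ω t
  · rw [key]
    apply Finset.sum_le_sum
    intro i _
    have : (∑ ω : Ω i, if ty i ω = 2 then lam i * p i ω else 0)
        = lam i * ∑ ω : Ω i, (if ty i ω = 2 then p i ω else 0) := by
      rw [Finset.mul_sum]
      apply Finset.sum_congr rfl
      intro ω _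
      split_ifs <;> simp
    show (∑ ω : Ω i, if ty i ω = 2 then lam i * p i ω else 0) ≤ lam i * pF i
    rw [this]
    exact mul_le_mul_of_nonneg_left (hF1 i) (hlam i)
  · rintro ⟨i, ω⟩ h2 t
    exact hF2 i ω h2 t
  · intro t x
    rw [key]
    apply Finset.sum_le_sum
    intro i _
    have : (∑ ω : Ω i, if x ∈ X i ω t then lam i * p i ω else 0)
        = lam i * ∑ ω : Ω i, (if x ∈ X i ω t then p i ω else 0) := by
      rw [Finset.mul_sum]
      apply Finset.sum_congr rfl
      intro ω _
      split_ifs <;> simp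
    show (∑ ω : Ω i, if x ∈ X i ω t then lam i * p i ω else 0) ≤ lam i * ψ i t x
    rw [this]
    exact mul_le_mul_of_nonneg_left (hψ i t x) (hlam i)
  · rw [key, key, Finset.mul_sum]
    apply Finset.sum_le_sum
    intro i _
    have e1 : (∑ ω : Ω i, if ty i ω = 0 then lam i * p i ω else 0)
        = lam i * ∑ ω : Ω i, (if ty i ω = 0 then p i ω else 0) := by
      rw [Finset.mul_sum]
      apply Finset.sum_congr rfl
      intro ω _
      split_ifs <;> simp
    show W1 * (∑ ω : Ω i, if ty i ω = 0 then lam i * p i ω else 0) ≤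
      ∑ ω : Ω i, if ty i ω = 0 then lam i * p i ω *
        ∑ t ∈ Finset.range (Finset.univ.sup T), ((X i ω t).card : ℝ) else 0
    rw [e1, mul_left_comm]
    refine (mul_le_mul_of_nonneg_left (hW1 i) (hlam i)).trans ?_
    rw [Finset.mul_sum]
    apply Finset.sum_le_sum
    intro ω _
    split_ifs with h0
    · rw [← mul_assoc]
      apply mul_le_mul_of_nonneg_left _ (mul_nonneg (hlam i) (hp i ω))
      apply Finset.sum_le_sum_of_subset_of_nonneg
      · exact Finset.range_mono (Finset.le_sup (Finset.mem_univ i))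
      · intros; positivity
    · simp
  · rw [key, key, Finset.mul_sum]
    apply Finset.sum_le_sum
    intro i _
    have e1 : (∑ ω : Ω i, if ty i ω = 1 then lam i * p i ω else 0)
        = lam i * ∑ ω : Ω i, (if ty i ω = 1 then p i ω else 0) := by
      rw [Finset.mul_sum]
      apply Finset.sum_congr rfl
      intro ω _
      split_ifs <;> simp
    show W2 * (∑ ω : Ω i, if ty i ω = 1 then lam i * p i ω else 0) ≤
      ∑ ω : Ω i, if ty i ω = 1 then lam i * p i ω *
        ∑ t ∈ Finset.range (Finset.univ.sup T), ((X i ω t).card : ℝ) else 0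
    rw [e1, mul_left_comm]
    refine (mul_le_mul_of_nonneg_left (hW2 i) (hlam i)).trans ?_
    rw [Finset.mul_sum]
    apply Finset.sum_le_sum
    intro ω _
    split_ifs with h0
    · rw [← mul_assoc]
      apply mul_le_mul_of_nonneg_left _ (mul_nonneg (hlam i) (hp i ω))
      apply Finset.sum_le_sum_of_subset_of_nonneg
      · exact Finset.range_mono (Finset.le_sup (Finset.mem_univ i))
      · intros; positivity
    · simp
  · rintro ⟨i, ω⟩ t h1 h2
    exact hal i ω t h1 h2

end Pool.Agent.EMS
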