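import Pool.Agent.EMS.StmtsD

/-!
# EMS, module STP: the step from cells to U
-/

set_option autoImplicit false

open Finset
open scoped BigOperators Classical

namespace Pool.Agent.EMS

namespace STP_

lemma tf_mono {r : ℕ} {N : Fin r → ℕ} {U : ℕ → Finset (Fin r → ℤ)}
    {ψ ψ' : ℕ → (Fin r → ℤ) → ℝ} {W1 W2 b pF pF' : ℝ} (h : TF N U ψ W1 W2 b pF)
    (h1 : ∀ t x, ψ t x ≤ ψ' t x) (h2 : pF ≤ pF') : TF N U ψ' W1 W2 b pF' := by
  obtain ⟨Ω, hΩ, p, ty, X, T, a1, a2, a3, a4, a5, a6, a7, a8, a9⟩ := h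
  exact ⟨Ω, hΩ, p, ty, X, T, a1, a2, a3, a4.trans h2, a5, fun t x => (a6 t x).trans (h1 t x),
    a7, a8, a9⟩

lemma tf_bad {r : ℕ} (N : Fin r → ℕ) (U : ℕ → Finset (Fin r → ℤ)) (W1 W2 b : ℝ) :
    TF N U (fun _ _ => 0) W1 W2 b 1 := by
  refine ⟨Unit, inferInstance, fun _ => 1, fun _ => 2, fun _ _ => ∅, 0, ?_, ?_, ?_, ?_, ?_, ?_,
    ?_, ?_, ?_⟩
  · intro _; norm_num
  · simp
  · intro _ t
    refine ⟨by simp, by simp, by simp⟩
  · simp
  · intro _ _ _; rfl
  · intro t x; simp
  · simp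
  · simp
  · intro _ _ _ _; rfl

lemma mem_sy {r : ℕ} (T : SG r) (x v : Fin r → ℤ) :
    v ∈ T.sy x ↔ ∃ u ∈ sbox T.M, v = x + T.φ u := by
  unfold SG.sy
  rw [Finset.mem_image]
  constructor
  · rintro ⟨u, hu, h⟩; exact ⟨u, hu, h.symm⟩
  · rintro ⟨u, hu, h⟩; exact ⟨u, hu, h.symm⟩

lemma sy_symm {r : ℕ} (T : SG r) {x v : Fin r → ℤ} (h : v ∈ T.sy x) : x ∈ T.sy v := by
  obtain ⟨u, hu, rfl⟩ := (mem_sy T x v).1 h
  refine (mem_sy T _ x).2 ⟨-u, ?_, by simp⟩
  simp only [sbox, Fintype.mem_piFinset, Finset.mem_Icc] at hu ⊢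
  intro l
  have h1 := (hu l).1
  have h2 := (hu l).2
  simp only [Pi.neg_apply]
  constructor <;> linarith

lemma sy_sub_ebox {r : ℕ} (T : SG r) (M : Fin r → ℕ) (hT : T.sy 0 ⊆ sbox M) {v x : Fin r → ℤ}
    (hv : v ∈ box M) (h : x ∈ T.sy v) : x ∈ ebox M := by
  obtain ⟨u, hu, rfl⟩ := (mem_sy T v x).1 h
  have h0 : T.φ u ∈ T.sy 0 := (mem_sy T 0 _).2 ⟨u, hu, by simp⟩
  have h1 := hT h0
  simp only [sbox, ebox, box, Fintype.mem_piFinset, Finset.mem_Icc, Finset.mem_Ico] at h1 hv ⊢
  intro l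
  have h2 := h1 l
  have h3 := hv l
  simp only [Pi.add_apply]
  constructor <;> linarith [h2.1, h2.2, h3.1, h3.2]

lemma count {r : ℕ} (T : SG r) (M : Fin r → ℕ) (A : Finset (Fin r → ℤ)) (hA : A ⊆ box M)
    (hT : T.sy 0 ⊆ sbox M) (hc : ∀ v, ((T.sy v).card : ℝ) = T.sv) :
    ∑ x ∈ ebox M, ((A ∩ T.sy x).card : ℝ) = A.card * T.sv := by
  have h1 : ∀ x, ((A ∩ T.sy x).card : ℝ) = ∑ v ∈ A, (if v ∈ T.sy x then (1 : ℝ) else 0) := by
    intro x
    rw [Finset.sum_boole, Finset.filter_mem_eq_inter]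
  simp_rw [h1]
  rw [Finset.sum_comm]
  have h2 : ∀ v ∈ A, ∑ x ∈ ebox M, (if v ∈ T.sy x then (1 : ℝ) else 0) = T.sv := by
    intro v hv
    rw [Finset.sum_boole, ← hc v]
    have h3 : (ebox M).filter (fun x => v ∈ T.sy x) = T.sy v := by
      ext x
      simp only [Finset.mem_filter]
      constructor
      · rintro ⟨_, h⟩; exact sy_symm T h
      · intro h; exact ⟨sy_sub_ebox T M hT (hA hv) h, sy_symm T h⟩
    rw [h3]
  rw [Finset.sum_congr rfl h2, Finset.sum_const, nsmul_eq_mul]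

lemma parity {r : ℕ} {c c0 : Fin r → Fin 2} {v v0 : Fin r → ℤ}
    (h : cz c + (2 : ℤ) • v = cz c0 + (2 : ℤ) • v0) : c = c0 ∧ v = v0 := by
  have h1 : ∀ l, (c l : ℕ) = (c0 l : ℕ) ∧ v l = v0 l := by
    intro l
    have h2 := congrFun h l
    simp only [cz, Pi.add_apply, Pi.smul_apply, smul_eq_mul] at h2
    have h3 := (c l).2
    have h4 := (c0 l).2
    omega
  exact ⟨funext fun l => Fin.ext (h1 l).1, funext fun l => (h1 l).2⟩

lemma card_ebox {r : ℕ} (M : Fin r → ℕ) (hM : ∀ l, 1 ≤ M l) :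
    ((ebox M).card : ℝ) ≤ 4 ^ r * vol M := by
  unfold ebox vol
  rw [Fintype.card_piFinset]
  push_cast
  have h0 : (4 : ℝ) ^ r = ∏ _l : Fin r, (4 : ℝ) := by simp
  rw [h0, ← Finset.prod_mul_distrib]
  refine Finset.prod_le_prod (fun l _ => by positivity) fun l _ => ?_
  rw [Int.card_Icc]
  have h1 : ((2 * (M l : ℤ) + 1 - -(M l : ℤ)).toNat : ℝ) = 3 * (M l : ℝ) + 1 := by
    have h2 : (2 * (M l : ℤ) + 1 - -(M l : ℤ)) = ((3 * M l + 1 : ℕ) : ℤ) := by push_cast; ring
    rw [h2, Int.toNat_natCast]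
    push_cast
    ring
  rw [h1]
  have h3 : (1 : ℝ) ≤ M l := by exact_mod_cast hM l
  linarith

/-- the trivial symmetric GAP -/
def triv (r : ℕ) : SG r where
  d := 0
  φ := 0
  M := fun _ => 1
  pos := fun _ => le_rfl
  proper := fun _ _ _ => Subsingleton.elim _ _

lemma sv_pos {r : ℕ} (T : SG r) : 0 < T.sv := by
  unfold SG.sv
  exact Finset.prod_pos fun l _ => by positivity

end STP_

open STP_ in
theorem stp_proof (h1 : Stmt_PUS) (h2 : Stmt_CLS) (h3 : Stmt_STJ) (h4 : Stmt_STM) :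
    Stmt_STP := by
  intro r κ τ N U W1 W2 WQ sQ E b d1 ξ pF hch hN hne hE hsQ hpF hQ hAl hcell
  obtain ⟨hcls, hcard, hvol⟩ := h2 r κ N U hch hN
  have hex : ∀ c : Fin r → Fin 2, ∃ T : SG r, (UC N c U 0).Nonempty →
      (T.sy 0 ⊆ sbox (Nc N c) ∧
      (((ebox (Nc N c)).filter fun y => ∃ t, τ ≤ t ∧
        Real.exp (-b) * T.sv ≤ ((UC N c U t ∩ T.sy y).card : ℝ)).card : ℝ) ≤
          Real.exp (-ξ) * vol (Nc N c) ∧
      ∀ x : Fin r → ℤ, Real.exp (-d1) * T.sv ≤ ((UC N c U 0 ∩ T.sy x).card : ℝ) →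
        TF T.sM (T.pbs x (UC N c U)) (fun _ _ => E / ((T.pbs x (UC N c U) 0).card : ℝ))
          W1 W2 b pF) := by
    intro c
    by_cases h : (UC N c U 0).Nonempty
    · obtain ⟨T, hT⟩ := hcell c h
      exact ⟨T, fun _ => hT⟩
    · exact ⟨triv r, fun h' => absurd h' h⟩
  choose T hT using hex
  have hU0 : (0 : ℝ) < (U 0).card := by exact_mod_cast hne.card_pos
  have hsv : ∀ c, 0 < (T c).sv := fun c => sv_pos (T c)
  have hsy : ∀ c v, (((T c).sy v).card : ℝ) = (T c).sv := fun c v =>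
    (h1 r κ N U (T c) v hch).2.2.1
  have hvolM : ∀ c, vol (T c).sM = (T c).sv := fun c => (h1 r κ N U (T c) 0 hch).2.1
  have hpbs : ∀ c x t, ((T c).pbs x (UC N c U) t).card = (UC N c U t ∩ (T c).sy x).card :=
    fun c x t => (h1 r κ (Nc N c) (UC N c U) (T c) x (hcls c).1).2.2.2.1 t
  -- cells
  let n : (Fin r → Fin 2) → (Fin r → ℤ) → ℝ := fun c x => ((UC N c U 0 ∩ (T c).sy x).card : ℝ)
  have hn0 : ∀ c x, 0 ≤ n c x := fun c x => Nat.cast_nonneg _
  have hnsv : ∀ c x, n c x ≤ (T c).sv := by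
    intro c x
    rw [← hsy c x]
    simp only [n]
    exact_mod_cast Finset.card_le_card Finset.inter_subset_right
  have hsum : ∀ c, ∑ x ∈ ebox (Nc N c), n c x = ((UC N c U 0).card : ℝ) * (T c).sv := by
    intro c
    by_cases h : (UC N c U 0).Nonempty
    · exact count (T c) (Nc N c) (UC N c U 0) (Finset.filter_subset _ _) (hT c h).1 (hsy c)
    · rw [Finset.not_nonempty_iff_eq_empty] at h
      simp only [n, h]
      simp
  let L : (Fin r → Fin 2) → (Fin r → ℤ) → ℝ := fun c x => n c x / ((U 0).card * (T c).sv)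
  have hL0 : ∀ c x, 0 ≤ L c x := fun c x =>
    div_nonneg (hn0 c x) (mul_nonneg hU0.le (hsv c).le)
  have hLsum : ∀ c, ∑ x ∈ ebox (Nc N c), L c x = ((UC N c U 0).card : ℝ) / (U 0).card := by
    intro c
    simp only [L]
    rw [← Finset.sum_div, hsum c]
    have := (hsv c).ne'
    field_simp
  let good : (Fin r → Fin 2) → (Fin r → ℤ) → Prop := fun c x =>
    Real.exp (-d1) * (T c).sv ≤ n c x ∧ ¬ Al (T c).sM ((T c).pbs x (UC N c U)) b τ
  have hgood : ∀ c x, good c x → (UC N c U 0).Nonempty ∧ 0 < n c x := by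
    intro c x hg
    have h5 : 0 < n c x := lt_of_lt_of_le (mul_pos (Real.exp_pos _) (hsv c)) hg.1
    refine ⟨?_, h5⟩
    by_contra h
    rw [Finset.not_nonempty_iff_eq_empty] at h
    have h6 : n c x = 0 := by simp only [n, h]; simp
    linarith
  let ps : (Fin r → Fin 2) → (Fin r → ℤ) → ℕ → (Fin r → ℤ) → ℝ := fun c x _ y =>
    if good c x then (sQ + if ∃ v ∈ (T c).sy x, y = cz c + (2 : ℤ) • v then
      E / (((T c).pbs x (UC N c U) 0).card : ℝ) else 0) else 0
  let pf : (Fin r → Fin 2) → (Fin r → ℤ) → ℝ := fun c x => if good c x then pF else 1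
  have hTF : ∀ c x, TF N U (ps c x) W1 (W2 + WQ) b (pf c x) := by
    intro c x
    by_cases hg : good c x
    · have h5 := (hT c (hgood c x hg).1).2.2 x hg.1
      have h6 := h3 r κ τ N c U (T c) x W1 W2 WQ sQ
        (E / (((T c).pbs x (UC N c U) 0).card : ℝ)) b pF hch hN
        (div_nonneg hE (Nat.cast_nonneg _)) hsQ hQ hAl hg.2 h5
      simp only [ps, pf, if_pos hg]
      exact h6
    · simp only [ps, pf, if_neg hg]
      exact tf_bad N U W1 (W2 + WQ) b
  let I : Type := Σ c : Fin r → Fin 2, {x // x ∈ ebox (Nc N c)}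
  have hsig : ∀ f : (Fin r → Fin 2) → (Fin r → ℤ) → ℝ,
      ∑ i : I, f i.1 i.2.1 = ∑ c, ∑ x ∈ ebox (Nc N c), f c x := by
    intro f
    rw [Fintype.sum_sigma]
    refine Finset.sum_congr rfl fun c _ => ?_
    exact Finset.sum_coe_sort (ebox (Nc N c)) (fun x => f c x)
  have hLtot : ∑ i : I, L i.1 i.2.1 = 1 := by
    rw [hsig, Finset.sum_congr rfl fun c _ => hLsum c, ← Finset.sum_div]
    have h5 : ∑ c, ((UC N c U 0).card : ℝ) = (U 0).card := by
      rw [hcard 0]; push_cast; rfl
    rw [h5]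
    exact div_self hU0.ne'
  have hmix := h4 r N U I inferInstance (fun i => L i.1 i.2.1) (fun i => ps i.1 i.2.1)
    (fun i => pf i.1 i.2.1) W1 (W2 + WQ) b (fun i => hL0 _ _) hLtot (fun i => hTF _ _)
  refine tf_mono hmix ?_ ?_
  · -- the bound on points
    intro t y
    have hpt : ∀ c x, L c x * ps c x t y ≤ sQ * L c x +
        E / (U 0).card * ((if ∃ v ∈ (T c).sy x, y = cz c + (2 : ℤ) • v then (1 : ℝ) else 0)
          / (T c).sv) := by
      intro c x
      have hi0 : (0 : ℝ) ≤ if ∃ v ∈ (T c).sy x, y = cz c + (2 : ℤ) • v then (1 : ℝ) else 0 := by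
        split_ifs <;> norm_num
      by_cases hg : good c x
      · simp only [ps, if_pos hg]
        rw [hpbs c x 0]
        have hnp := (hgood c x hg).2
        have hnx : ((UC N c U 0 ∩ (T c).sy x).card : ℝ) = n c x := rfl
        rw [hnx]
        split_ifs with hv
        · have h5 : L c x * (sQ + E / n c x) = sQ * L c x + E / (U 0).card * (1 / (T c).sv) := by
            simp only [L]
            have h6 := (hsv c).ne'
            have h7 := hU0.ne'
            have h8 := hnp.ne'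
            field_simp
          exact h5.le
        · simp only [add_zero, zero_div, mul_zero]
          rw [mul_comm]
      · simp only [ps, if_neg hg, mul_zero]
        refine add_nonneg (mul_nonneg hsQ (hL0 c x)) (mul_nonneg (div_nonneg hE hU0.le) ?_)
        exact div_nonneg hi0 (hsv c).le
    have hind : ∑ c, ∑ x ∈ ebox (Nc N c),
        ((if ∃ v ∈ (T c).sy x, y = cz c + (2 : ℤ) • v then (1 : ℝ) else 0) / (T c).sv) ≤ 1 := by
      by_cases hy : ∃ (c0 : Fin r → Fin 2) (v0 : Fin r → ℤ), y = cz c0 + (2 : ℤ) • v0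
      · obtain ⟨c0, v0, hy0⟩ := hy
        rw [Finset.sum_eq_single c0]
        · rw [← Finset.sum_div, div_le_one (hsv c0), Finset.sum_boole, ← hsy c0 v0]
          norm_cast
          refine Finset.card_le_card ?_
          intro x hx
          obtain ⟨_, v, hv, hv2⟩ := Finset.mem_filter.1 hx
          have h5 := (parity (hv2.symm.trans hy0)).2
          rw [h5] at hv
          exact sy_symm _ hv
        · intro c _ hc
          refine Finset.sum_eq_zero fun x _ => ?_
          rw [if_neg, zero_div]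
          rintro ⟨v, _, hv2⟩
          exact hc (parity (hv2.symm.trans hy0)).1
        · intro h; exact absurd (Finset.mem_univ _) h
      · have h5 : ∑ c, ∑ x ∈ ebox (Nc N c),
            ((if ∃ v ∈ (T c).sy x, y = cz c + (2 : ℤ) • v then (1 : ℝ) else 0) / (T c).sv)
            = 0 := by
          refine Finset.sum_eq_zero fun c _ => Finset.sum_eq_zero fun x _ => ?_
          rw [if_neg, zero_div]
          rintro ⟨v, _, hv2⟩
          exact hy ⟨c, v, hv2⟩
        rw [h5]
        norm_num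
    calc ∑ i : I, L i.1 i.2.1 * ps i.1 i.2.1 t y
        ≤ ∑ i : I, (sQ * L i.1 i.2.1 + E / (U 0).card *
          ((if ∃ v ∈ (T i.1).sy i.2.1, y = cz i.1 + (2 : ℤ) • v then (1 : ℝ) else 0)
          / (T i.1).sv)) := Finset.sum_le_sum fun i _ => hpt i.1 i.2.1
      _ = sQ + E / (U 0).card * ∑ c, ∑ x ∈ ebox (Nc N c),
          ((if ∃ v ∈ (T c).sy x, y = cz c + (2 : ℤ) • v then (1 : ℝ) else 0) / (T c).sv) := by
          rw [Finset.sum_add_distrib, ← Finset.mul_sum, hLtot, mul_one, ← Finset.mul_sum]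
          rw [hsig fun c x => ((if ∃ v ∈ (T c).sy x, y = cz c + (2 : ℤ) • v then (1 : ℝ) else 0)
            / (T c).sv)]
      _ ≤ sQ + E / (U 0).card * 1 := by
          have h5 : 0 ≤ E / ((U 0).card : ℝ) := div_nonneg hE hU0.le
          have h6 := mul_le_mul_of_nonneg_left hind h5
          linarith
      _ = (E + sQ * ((U 0).card : ℝ)) / ((U 0).card : ℝ) := by
          have h7 := hU0.ne'
          field_simp
          ring
  · -- the bound on failure
    have hc : ∀ c, ∑ x ∈ ebox (Nc N c), L c x * pf c x ≤ pF * ∑ x ∈ ebox (Nc N c), L c x +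
        (4 ^ r * Real.exp (-d1) + Real.exp (-ξ)) * vol (Nc N c) / (U 0).card := by
      intro c
      have hv0 : 0 ≤ vol (Nc N c) := Finset.prod_nonneg fun l _ => Nat.cast_nonneg _
      by_cases h : (UC N c U 0).Nonempty
      · have hpt : ∀ x ∈ ebox (Nc N c), L c x * pf c x ≤ pF * L c x +
            (Real.exp (-d1) / (U 0).card + (if ∃ t, τ ≤ t ∧
              Real.exp (-b) * (T c).sv ≤ ((UC N c U t ∩ (T c).sy x).card : ℝ) then (1 : ℝ)
              else 0) / (U 0).card) := by
          intro x _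
          have hi0 : (0 : ℝ) ≤ if ∃ t, τ ≤ t ∧
              Real.exp (-b) * (T c).sv ≤ ((UC N c U t ∩ (T c).sy x).card : ℝ) then (1 : ℝ)
              else 0 := by split_ifs <;> norm_num
          have he0 : 0 ≤ Real.exp (-d1) / ((U 0).card : ℝ) :=
            div_nonneg (Real.exp_pos _).le hU0.le
          have hi1 := div_nonneg hi0 hU0.le
          have hpL : 0 ≤ pF * L c x := mul_nonneg hpF (hL0 c x)
          by_cases hg : good c x
          · simp only [pf, if_pos hg]
            rw [mul_comm (L c x) pF]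
            linarith
          · simp only [pf, if_neg hg, mul_one]
            by_cases hg1 : Real.exp (-d1) * (T c).sv ≤ n c x
            · have hA : Al (T c).sM ((T c).pbs x (UC N c U)) b τ := by
                by_contra hA
                exact hg ⟨hg1, hA⟩
              obtain ⟨t, ht, ht2⟩ := hA
              rw [hvolM c, hpbs c x t] at ht2
              rw [if_pos ⟨t, ht, ht2⟩]
              have h5 : L c x ≤ 1 / (U 0).card := by
                simp only [L]
                rw [div_le_div_iff₀ (mul_pos hU0 (hsv c)) hU0]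
                have h6 := hnsv c x
                nlinarith
              linarith
            · push Not at hg1
              have h5 : L c x ≤ Real.exp (-d1) / (U 0).card := by
                simp only [L]
                rw [div_le_div_iff₀ (mul_pos hU0 (hsv c)) hU0]
                nlinarith
              linarith
        refine (Finset.sum_le_sum hpt).trans ?_
        have h10 : ∑ x ∈ ebox (Nc N c), (if ∃ t, τ ≤ t ∧
              Real.exp (-b) * (T c).sv ≤ ((UC N c U t ∩ (T c).sy x).card : ℝ) then (1 : ℝ)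
              else 0) / ((U 0).card : ℝ) = (((ebox (Nc N c)).filter fun y => ∃ t, τ ≤ t ∧
              Real.exp (-b) * (T c).sv ≤ ((UC N c U t ∩ (T c).sy y).card : ℝ)).card : ℝ)
              / ((U 0).card : ℝ) := by
          rw [← Finset.sum_div, Finset.sum_boole]
        rw [Finset.sum_add_distrib, ← Finset.mul_sum, Finset.sum_add_distrib, Finset.sum_const,
          nsmul_eq_mul, h10]
        have h5 := card_ebox (Nc N c) ((hcls c).2.2.1 h)
        have h6 := (hT c h).2.1
        have h7 : ((ebox (Nc N c)).card : ℝ) * (Real.exp (-d1) / (U 0).card)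
            ≤ 4 ^ r * vol (Nc N c) * (Real.exp (-d1) / (U 0).card) :=
          mul_le_mul_of_nonneg_right h5 (div_nonneg (Real.exp_pos _).le hU0.le)
        have h8 := div_le_div_of_nonneg_right h6 hU0.le
        have h9 : (4 ^ r * Real.exp (-d1) + Real.exp (-ξ)) * vol (Nc N c) / (U 0).card
            = 4 ^ r * vol (Nc N c) * (Real.exp (-d1) / (U 0).card)
              + Real.exp (-ξ) * vol (Nc N c) / (U 0).card := by ring
        rw [h9]
        linarith
      · rw [Finset.not_nonempty_iff_eq_empty] at h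
        have h5 : ∀ x, L c x = 0 := by
          intro x
          simp only [L, n, h]
          simp
        simp only [h5]
        simp only [zero_mul, Finset.sum_const_zero, mul_zero, zero_add]
        positivity
    calc ∑ i : I, L i.1 i.2.1 * pf i.1 i.2.1
        = ∑ c, ∑ x ∈ ebox (Nc N c), L c x * pf c x := hsig fun c x => L c x * pf c x
      _ ≤ ∑ c, (pF * ∑ x ∈ ebox (Nc N c), L c x +
        (4 ^ r * Real.exp (-d1) + Real.exp (-ξ)) * vol (Nc N c) / (U 0).card) :=
          Finset.sum_le_sum fun c _ => hc c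
      _ = pF + (4 ^ r * Real.exp (-d1) + Real.exp (-ξ)) * vol N / ((U 0).card : ℝ) := by
          rw [Finset.sum_add_distrib, ← Finset.mul_sum, ← hsig, hLtot, mul_one,
            ← Finset.sum_div, ← Finset.mul_sum, hvol]

end Pool.Agent.EMS
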