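import Pool.Agent.EMS.Defs

/-!
# EMS, part A: additive combinatorics (Bogolyubov-Ruzsa with quasi-polynomial bounds, BSG)
Recipes: /team-store/MP_973cda_EMS.md, paper proof /team-store/MP_973cda_proof_helper64.md, Section 12
-/

set_option autoImplicit false

open Finset
open scoped BigOperators Classical Pointwise

namespace Pool.Agent.EMS

/-- HOE: Hoeffding's inequality for sampling from a finite set (counting form) -/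
def Stmt_HOE : Prop :=
  ∀ (α : Type) (A : Finset α) (f : α → ℝ) (k : ℕ) (ε : ℝ), A.Nonempty →
    (∀ a ∈ A, 0 ≤ f a ∧ f a ≤ 1) → 1 ≤ k → 0 < ε →
    (((Fintype.piFinset fun _ : Fin k => A).filter fun a =>
        ε < |(∑ i, f (a i)) / (k : ℝ) - (∑ x ∈ A, f x) / (A.card : ℝ)|).card : ℝ)
      ≤ 2 * Real.exp (-((k : ℝ) * ε ^ 2 / 2)) * (A.card : ℝ) ^ k

/-- `f(x) = |{a ∈ B : x + a ∈ B + B}| / |B|` -/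
noncomputable def corr {G : Type} [AddCommGroup G] (B : Finset G) (x : G) : ℝ :=
  ((B.filter fun a => x + a ∈ B + B).card : ℝ) / (B.card : ℝ)

/-- CSI: Croot-Sisask almost periodicity (from HOE) -/
def Stmt_CSI : Prop :=
  ∀ (G : Type) [AddCommGroup G] [Fintype G] (B : Finset G) (l k : ℕ), B.Nonempty → 1 ≤ l → 1 ≤ k →
    512 * (l : ℝ) ^ 2 * Real.log (64 * l * (Fintype.card G : ℝ) / (B.card : ℝ)) ≤ k →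
    ∃ T : Finset G, T.Nonempty ∧
      ((B.card : ℝ) / (Fintype.card G : ℝ)) ^ k * (Fintype.card G : ℝ) / 2 ≤ (T.card : ℝ) ∧
      ∀ t t' : Fin l → G, (∀ i, t i ∈ T) → (∀ i, t' i ∈ T) →
        ((Finset.univ.filter fun x : G =>
          1 / 8 < |corr B (x + ∑ i, (t i - t' i)) - corr B x|).card : ℝ) ≤ (B.card : ℝ) / 8

/-- normalised exponential sum of `T ⊆ ℤ/N` -/
noncomputable def fc {N : ℕ} [NeZero N] (T : Finset (ZMod N)) (γ : ZMod N) : ℂ :=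
  (∑ t ∈ T, ZMod.stdAddChar (γ * t)) / (T.card : ℂ)

/-- CHA: Chang's theorem -/
def Stmt_CHA : Prop :=
  ∀ (N : ℕ) [NeZero N] (T : Finset (ZMod N)), T.Nonempty →
    ∃ Γ : Finset (ZMod N), (Γ.card : ℝ) ≤ 8 * Real.log ((N : ℝ) / (T.card : ℝ)) ∧
      ∀ γ : ZMod N, 1 / 2 < ‖fc T γ‖ →
        ∃ e : ZMod N → ℤ, (∀ g, |e g| ≤ 1) ∧ γ = ∑ g ∈ Γ, e g • g

/-- Bohr sets in `ℤ/N` -/
def Bohr {N : ℕ} (Γ : Finset (ZMod N)) (ρ : ℝ) : Set (ZMod N) :=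
  {y | ∀ γ ∈ Γ, ∃ k : ℤ, |((γ.val : ℝ) * (y.val : ℝ)) / (N : ℝ) - (k : ℝ)| ≤ ρ}

/-- BNZ: Bogolyubov-Ruzsa (Sanders) in `ℤ/N` (from CSI, CHA) -/
def Stmt_BNZ : Prop :=
  ∀ (N : ℕ) [NeZero N] (B : Finset (ZMod N)) (α : ℝ), 0 < α → α ≤ 1 → α * (N : ℝ) ≤ (B.card : ℝ) →
    ∀ l k : ℕ, 1 ≤ l → 1 ≤ k → Real.log (16 / α) ≤ l →
      512 * (l : ℝ) ^ 2 * Real.log (64 * l / α) ≤ k →
      ∃ Γ : Finset (ZMod N), (Γ.card : ℝ) ≤ 8 * ((k : ℝ) * Real.log (1 / α) + 1) ∧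
        ∀ y ∈ Bohr Γ (Real.sqrt α / (64 * ((Γ.card : ℝ) + 1))), y ∈ B + B - B - B

/-- BGP: Bohr sets contain large proper GAPs (from CLZ) -/
def Stmt_BGP : Prop :=
  ∀ (N : ℕ) [NeZero N] (Γ : Finset (ZMod N)) (ρ : ℝ), 0 < ρ → ρ ≤ 1 / 4 →
    ∃ (m : ℕ) (b : Fin m → ZMod N) (M : Fin m → ℕ), m ≤ Γ.card + 1 ∧ (∀ l, 1 ≤ M l) ∧
      (∀ u : Fin m → ℤ, (∀ l, |u l| ≤ 8 * (M l : ℤ)) → (∑ l, u l • b l) ∈ Bohr Γ ρ) ∧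
      (∀ u : Fin m → ℤ, (∀ l, |u l| ≤ 8 * (M l : ℤ)) → (∑ l, u l • b l) = 0 → u = 0) ∧
      Real.exp (-(20 * ((Γ.card : ℝ) + 1) ^ 3)) * (ρ / 8) ^ (Γ.card + 1) * (N : ℝ)
        ≤ ∏ l, (M l : ℝ)

/-- `f` is a Freiman isomorphism of order 8 on `A` -/
def Frei {N : ℕ} (A : Finset ℤ) (f : ℤ → ZMod N) : Prop :=
  ∀ x y : Fin 8 → ℤ, (∀ i, x i ∈ A) → (∀ i, y i ∈ A) →
    (∑ i, x i = ∑ i, y i ↔ ∑ i, f (x i) = ∑ i, f (y i))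

/-- MOD: Ruzsa's modelling lemma -/
def Stmt_MOD : Prop :=
  ∀ (A : Finset ℤ) (K : ℝ), A.Nonempty → ((A - A).card : ℝ) ≤ K * (A.card : ℝ) →
    ∃ (N : ℕ) (_ : NeZero N) (A1 : Finset ℤ) (f : ℤ → ZMod N), A1 ⊆ A ∧
      (A.card : ℝ) / 8 ≤ (A1.card : ℝ) ∧ Frei A1 f ∧ (N : ℝ) ≤ 3 * K ^ 16 * (A.card : ℝ)

/-- TRF: GAPs in `2B-2B` are transferred by Freiman isomorphisms of order 8 -/
def Stmt_TRF : Prop :=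
  ∀ (N : ℕ) [NeZero N] (A : Finset ℤ) (f : ℤ → ZMod N), A.Nonempty → Frei A f →
    ∀ (m : ℕ) (b : Fin m → ZMod N) (M : Fin m → ℕ), (∀ l, 1 ≤ M l) →
      (∀ u : Fin m → ℤ, (∀ l, |u l| ≤ 8 * (M l : ℤ)) →
        (∑ l, u l • b l) ∈ A.image f + A.image f - A.image f - A.image f) →
      (∀ u : Fin m → ℤ, (∀ l, |u l| ≤ 8 * (M l : ℤ)) → (∑ l, u l • b l) = 0 → u = 0) →
      ∃ g : Fin m → ℤ, ∀ u : Fin m → ℤ, (∀ l, |u l| ≤ 8 * (M l : ℤ)) →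
        (∑ l, u l * g l) ∈ A + A - A - A ∧ ((∑ l, u l * g l) = 0 → u = 0)

/-- ZRZ: transfer from `ℤ` to `ℤ^r` -/
def Stmt_ZRZ : Prop :=
  ∀ (r : ℕ) (A : Finset (Fin r → ℤ)), A.Nonempty →
    ∃ i : (Fin r → ℤ) →+ ℤ, Set.InjOn i (A : Set (Fin r → ℤ)) ∧
      ((A.image i - A.image i).card = (A - A).card) ∧
      ∀ (m : ℕ) (g : Fin m → ℤ) (M : Fin m → ℕ), (∀ l, 1 ≤ M l) →
        (∀ u : Fin m → ℤ, (∀ l, |u l| ≤ 8 * (M l : ℤ)) →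
          (∑ l, u l * g l) ∈ A.image i + A.image i - A.image i - A.image i ∧
            ((∑ l, u l * g l) = 0 → u = 0)) →
        ∃ G : Fin m → (Fin r → ℤ), ∀ u : Fin m → ℤ, (∀ l, |u l| ≤ 8 * (M l : ℤ)) →
          (∑ l, u l • G l) ∈ A + A - A - A ∧ ((∑ l, u l • G l) = 0 → u = 0)

/-- BRA: Bogolyubov-Ruzsa in `ℤ^r`, raw form (from MOD, BNZ, BGP, TRF, ZRZ) -/
def Stmt_BRA : Prop :=
  ∃ Z0 : ℕ, ∀ Z : ℕ, Z0 ≤ Z → ∀ (r : ℕ) (A : Finset (Fin r → ℤ)), A.Nonempty →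
    ((A - A).card : ℝ) ≤ Real.exp (250 * Z) * (A.card : ℝ) →
    ∃ (m : ℕ) (G : Fin m → (Fin r → ℤ)) (M : Fin m → ℕ), m ≤ Z ^ 5 ∧ (∀ l, 1 ≤ M l) ∧
      (∀ u : Fin m → ℤ, (∀ l, |u l| ≤ 8 * (M l : ℤ)) →
        (∑ l, u l • G l) ∈ A + A - A - A ∧ ((∑ l, u l • G l) = 0 → u = 0)) ∧
      Real.exp (-((Z : ℝ) ^ 16) / 2) * (A.card : ℝ) ≤ ∏ l, (M l : ℝ)

/-- BR: Bogolyubov-Ruzsa in `ℤ^r` (from BRA) -/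
def Stmt_BR : Prop :=
  ∃ Z0 : ℕ, ∀ Z : ℕ, Z0 ≤ Z → ∀ (r : ℕ) (A : Finset (Fin r → ℤ)), A.Nonempty →
    ((A - A).card : ℝ) ≤ Real.exp (250 * Z) * (A.card : ℝ) →
    ∃ (Q : SG r) (c : Fin r → ℤ), Q.d ≤ Z ^ 5 ∧
      Real.exp (-((Z : ℝ) ^ 16)) * Q.v ≤ ((A ∩ Q.bx c).card : ℝ) ∧
      Real.exp (-((Z : ℝ) ^ 16)) * (A.card : ℝ) ≤ Q.v

/-- BSG: Balog-Szemeredi-Gowers, symmetric form -/
def Stmt_BSG : Prop :=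
  ∀ (G : Type) [AddCommGroup G] (A S : Finset G) (p K : ℝ), A.Nonempty → 0 < p → p ≤ 1 → 0 < K →
    (S.card : ℝ) ≤ K * (A.card : ℝ) →
    p * (A.card : ℝ) ^ 2 ≤ (((A ×ˢ A).filter fun z => z.1 + z.2 ∈ S).card : ℝ) →
    ∃ A' ⊆ A, A'.Nonempty ∧ p / 6 * (A.card : ℝ) ≤ (A'.card : ℝ) ∧
      ((A' - A').card : ℝ) ≤ 2 ^ 30 * (p⁻¹) ^ 12 * K ^ 6 * (A'.card : ℝ)

/-! ## Geometry of numbers -/

/-- HKZ: reduced bases -/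
def Stmt_HKZ : Prop :=
  ∀ (E : Type) [NormedAddCommGroup E] [InnerProductSpace ℝ E] [FiniteDimensional ℝ E]
    (L : Submodule ℤ E) [DiscreteTopology L],
    ∃ (b : Fin (Module.finrank ℤ L) → E) (δ : Fin (Module.finrank ℤ L) → ℝ),
      (∀ l, b l ∈ L) ∧ (∀ y ∈ L, ∃ v : Fin (Module.finrank ℤ L) → ℤ, y = ∑ l, (v l : ℝ) • b l) ∧
      (∀ l, 0 < δ l ∧ ‖b l‖ ≤ 2 ^ (Module.finrank ℤ L) * δ l) ∧
      ∀ (v : Fin (Module.finrank ℤ L) → ℝ) (l : Fin (Module.finrank ℤ L)),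
        (∀ j, l < j → v j = 0) → |v l| * δ l ≤ ‖∑ j, v j • b j‖

/-- CLZ: lattice boxes (from HKZ) -/
def Stmt_CLZ : Prop :=
  ∀ (E : Type) [NormedAddCommGroup E] [InnerProductSpace ℝ E] [FiniteDimensional ℝ E]
    (L : Submodule ℤ E) [DiscreteTopology L],
    ∃ (b : Fin (Module.finrank ℤ L) → E) (M : Fin (Module.finrank ℤ L) → ℕ),
      (∀ l, b l ∈ L) ∧ LinearIndependent ℝ b ∧
      (∀ u : Fin (Module.finrank ℤ L) → ℤ, (∀ l, |u l| ≤ 8 * (M l : ℤ)) →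
        ‖∑ l, (u l : ℝ) • b l‖ ≤ 1) ∧
      ∀ lam : ℝ, 1 ≤ lam → ∀ y ∈ L, ‖y‖ ≤ lam →
        ∃ v : Fin (Module.finrank ℤ L) → ℤ, y = ∑ l, (v l : ℝ) • b l ∧
          ∀ l, |(v l : ℝ)| ≤ lam * 2 ^ (4 * (Module.finrank ℤ L) ^ 2 + 3) * ((M l : ℝ) + 1)

/-- CLC: conversion lemma (from CLZ) -/
def Stmt_CLC : Prop :=
  ∀ (D r : ℕ) (Λ : Submodule ℤ (Fin D → ℤ)) (N : Fin D → ℝ) (φ : Λ →ₗ[ℤ] (Fin r → ℤ)), 1 ≤ D →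
    (∀ l, 0 < N l) →
    ∃ (d : ℕ) (g : (Fin d → ℤ) →ₗ[ℤ] (Fin r → ℤ)) (M : Fin d → ℕ),
      d ≤ Module.finrank ℤ Λ ∧ (∀ l, 1 ≤ M l) ∧
      (∀ u : Fin d → ℤ, (∀ l, |u l| ≤ 8 * (M l : ℤ)) →
        ∃ y : Λ, (∀ l, |((y : Fin D → ℤ) l : ℝ)| ≤ N l) ∧ φ y = g u) ∧
      (∀ u : Fin d → ℤ, (∀ l, |u l| ≤ 8 * (M l : ℤ)) → g u = 0 → u = 0) ∧
      (∃ F : Finset (Fin r → ℤ), (F.card : ℝ) ≤ Real.exp (20 * (D : ℝ) ^ 3) ∧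
        ∀ y : Λ, (∀ l, |((y : Fin D → ℤ) l : ℝ)| ≤ N l) → ∃ f ∈ F, ∃ u ∈ box M, φ y = f + g u) ∧
      (d < Module.finrank ℤ Λ ∨
        (({y : Fin D → ℤ | y ∈ Λ ∧ ∀ l, |(y l : ℝ)| ≤ N l}.ncard : ℝ)
          ≤ Real.exp (20 * (D : ℝ) ^ 3) * ∏ l, (M l : ℝ)))

end Pool.Agent.EMS
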