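import Pool.Agent.EMS.StmtsA
import Pool.Agent.EMS.StmtsB

/-!
# EMS, part C: dense piece lemma, intersection lemma
Recipes: /team-store/MP_973cda_EMS.md, paper proof /team-store/MP_973cda_proof_helper64.md, Sections 7, 8
-/

set_option autoImplicit false

open Finset
open scoped BigOperators Classical Pointwise

namespace Pool.Agent.EMS

/-- the data of a partition of `box N` into cells relative to `T` -/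
structure Cells {r : ℕ} (N : Fin r → ℕ) (T : SG r) (m : ℕ) (x : Fin m → (Fin r → ℤ))
    (C : Fin m → Finset (Fin r → ℤ)) : Prop where
  cover : ∀ w ∈ box N, ∃ i, w ∈ C i
  disj : ∀ i j, i ≠ j → Disjoint (C i) (C j)
  sub : ∀ i, C i ⊆ box N
  sub2 : ∀ i, C i ⊆ T.q 2 (x i)
  cnt : ∀ k ≤ 12, ∀ y : Fin r → ℤ, (Finset.univ.filter fun i => x i ∈ T.q k y).card ≤ 24 ^ T.d
  num : (m : ℝ) * T.sv ≤ 7 ^ T.d * 3 ^ r * vol N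

/-- CEL: cells exist -/
def Stmt_CEL : Prop :=
  ∀ (r : ℕ) (N : Fin r → ℕ) (T : SG r), (∀ l, 1 ≤ N l) → T.sy 0 ⊆ sbox N →
    ∃ (m : ℕ) (x : Fin m → (Fin r → ℤ)) (C : Fin m → Finset (Fin r → ℤ)), Cells N T m x C

/-- the functional `Φ` -/
noncomputable def Phi {r m : ℕ} (C : Fin m → Finset (Fin r → ℤ))
    (U : ℕ → Finset (Fin r → ℤ)) (t : ℕ) : ℝ := ∑ i, Real.sqrt ((U t ∩ C i).card : ℝ)

/-- LTM: last time and level of the functional -/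
def Stmt_LTM : Prop :=
  ∀ (r m : ℕ) (N : Fin r → ℕ) (C : Fin m → Finset (Fin r → ℤ)) (U : ℕ → Finset (Fin r → ℤ))
    (τ : ℕ) (Φ0 CL : ℝ), (∀ t, U t ⊆ box N) → (∃ T, ∀ t, T ≤ t → U t = ∅) →
    0 < Φ0 → Φ0 ≤ Phi C U τ → 2 * (Real.log (vol N) / Real.log 2 + 1) ≤ CL →
    ∃ (t : ℕ) (s : ℕ) (I : Finset (Fin m)), τ ≤ t ∧
      (∀ t' > t, Phi C U t' < Φ0) ∧ 1 ≤ s ∧ (∀ i ∈ I, s ≤ (U t ∩ C i).card) ∧
      Φ0 ≤ CL * (I.card : ℝ) * Real.sqrt s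

/-- MID: midpoints of pairs from two cells lie in few cells; one cell and one point determine few
cells for the other point -/
def Stmt_MID : Prop :=
  ∀ (r m : ℕ) (N : Fin r → ℕ) (T : SG r) (x : Fin m → (Fin r → ℤ))
    (C : Fin m → Finset (Fin r → ℤ)), Cells N T m x C →
    (∀ i j : Fin m, (Finset.univ.filter fun k => ∃ w ∈ C i, ∃ w' ∈ C j, ∃ z ∈ C k,
        z + z = w + w').card ≤ 48 ^ T.d) ∧
    (∀ (k : Fin m) (w' : Fin r → ℤ), (Finset.univ.filter fun i => ∃ w ∈ C i, ∃ z ∈ C k,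
        z + z = w + w').card ≤ 24 ^ T.d)

/-- LNK: number of linked pairs in a large subset of `U t` -/
def Stmt_LNK : Prop :=
  ∀ (r κ t : ℕ) (N : Fin r → ℕ) (U : ℕ → Finset (Fin r → ℤ)) (A : Finset (Fin r → ℤ)), 2 ≤ κ →
    Chain κ N U → A ⊆ U t → 2 * 4 ^ r * (κ : ℝ) ^ 2 ≤ (A.card : ℝ) ^ 2 →
    (A.card : ℝ) ^ 2 ≤ (κ : ℝ) ^ 2 * 2 ^ r *
      (((A ×ˢ A).filter fun z => ∃ y ∈ U (t + 1), y + y = z.1 + z.2).card : ℝ)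

/-- ENG: an evenly spread set with many midpoints in a small set (from LTM, MID, LNK) -/
def Stmt_ENG : Prop :=
  ∃ Z0 : ℕ, ∀ Z : ℕ, Z0 ≤ Z → ∀ (r m κ τ : ℕ) (N : Fin r → ℕ) (T : SG r)
    (x : Fin m → (Fin r → ℤ)) (C : Fin m → Finset (Fin r → ℤ)) (U : ℕ → Finset (Fin r → ℤ))
    (Φ0 : ℝ), r ≤ Z → T.d ≤ Z → 2 ≤ κ → Real.log κ ≤ Z → Chain κ N U → (∀ l, 1 ≤ N l) →
    vol N ≤ Real.exp (Real.exp Z) → Cells N T m x C → 0 < Φ0 → Φ0 ≤ Phi C U τ →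
    Real.exp (10 * Z) * (m : ℝ) ≤ Φ0 ^ 2 →
    ∃ (t s : ℕ) (I : Finset (Fin m)) (A V : Finset (Fin r → ℤ)), τ ≤ t ∧
      (∀ t' > t, Phi C U t' < Φ0) ∧ 1 ≤ s ∧ A ⊆ U t ∧ (∀ w ∈ A, ∃ i ∈ I, w ∈ C i) ∧
      (∀ i ∈ I, (A ∩ C i).card = s) ∧ A.card = I.card * s ∧
      Φ0 ≤ Real.exp (2 * Z) * (I.card : ℝ) * Real.sqrt s ∧
      (V.card : ℝ) ≤ Real.exp (25 * Z) * (A.card : ℝ) ∧
      Real.exp (-(4 * Z)) * (A.card : ℝ) ^ 2 ≤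
        (((A ×ˢ A).filter fun z => ∃ y ∈ V, y + y = z.1 + z.2).card : ℝ)

/-- QOB: a piece meeting an evenly spread set in many points is evenly spread -/
def Stmt_QOB : Prop :=
  ∀ (r m s : ℕ) (N : Fin r → ℕ) (T : SG r) (x : Fin m → (Fin r → ℤ))
    (C : Fin m → Finset (Fin r → ℤ)) (I : Finset (Fin m)) (A P : Finset (Fin r → ℤ))
    (Y K3 : ℝ), Cells N T m x C → (∀ w ∈ A, ∃ i ∈ I, w ∈ C i) → (∀ i ∈ I, (A ∩ C i).card = s) →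
    1 ≤ s → A.card = I.card * s → P.Nonempty → A.Nonempty →
    Real.exp (-Y) * (P.card : ℝ) ≤ ((A ∩ P).card : ℝ) →
    Real.exp (-Y) * (A.card : ℝ) ≤ (P.card : ℝ) →
    ((P + P - P).card : ℝ) ≤ K3 * (P.card : ℝ) →
    ∀ y : Fin r → ℤ, (((P.filter fun w => w - y ∈ T.sy 0).card : ℝ)) * (I.card : ℝ) ≤
      24 ^ T.d * K3 * Real.exp (2 * Y) * (P.card : ℝ)

/-- ROO: the room inequality -/
def Stmt_ROO : Prop :=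
  ∀ (r m t : ℕ) (N : Fin r → ℕ) (T : SG r) (x : Fin m → (Fin r → ℤ))
    (C : Fin m → Finset (Fin r → ℤ)) (U : ℕ → Finset (Fin r → ℤ)) (Φ0 : ℝ), Cells N T m x C →
    U t ⊆ box N → Phi C U t < Φ0 →
    ∀ P : Finset (Fin r → ℤ), P.Nonempty → ∀ q : ℝ, 0 < q →
      (∀ y : Fin r → ℤ, ((P.filter fun w => w - y ∈ T.sy 0).card : ℝ) ≤ q * P.card) →
      ((U t ∩ P).card : ℝ) ≤ Φ0 * Real.sqrt (q * P.card)

/-- HYP: from many dense translates of `T` to a lower bound for `Φ` -/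
def Stmt_HYP : Prop :=
  ∀ (r m τ : ℕ) (N : Fin r → ℕ) (T : SG r) (x : Fin m → (Fin r → ℤ))
    (C : Fin m → Finset (Fin r → ℤ)) (U : ℕ → Finset (Fin r → ℤ)) (β ξ : ℝ), (∀ l, 1 ≤ N l) →
    T.sy 0 ⊆ sbox N → Cells N T m x C → U τ ⊆ box N →
    Real.exp (-ξ) * vol N ≤
      (((ebox N).filter fun y => Real.exp (-β) * T.sv ≤ ((U τ ∩ T.sy y).card : ℝ)).card : ℝ) →
    Real.exp (-ξ - β / 2) * vol N / (Real.sqrt T.sv * 12 ^ T.d) ≤ Phi C U τ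

/-- DPL: the dense piece lemma (from BR, BSG, NOR, ITR, CEL, ENG, QOB, ROO, HYP) -/
def Stmt_DPL : Prop :=
  ∃ Z0 : ℕ, ∀ Z : ℕ, Z0 ≤ Z → ∀ (r κ τ : ℕ) (N : Fin r → ℕ) (U : ℕ → Finset (Fin r → ℤ))
    (T : SG r) (β ξ : ℝ), r ≤ Z → T.d ≤ Z → 2 ≤ κ → Real.log κ ≤ Z → Chain κ N U →
    (∀ l, 1 ≤ N l) → vol N ≤ Real.exp (Real.exp Z) → T.sy 0 ⊆ sbox N → 0 ≤ β → 0 ≤ ξ →
    Real.exp (β + 2 * ξ + (Z : ℝ) ^ 36) ≤ vol N →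
    Real.exp (-ξ) * vol N ≤
      (((ebox N).filter fun y => Real.exp (-β) * T.sv ≤ ((U τ ∩ T.sy y).card : ℝ)).card : ℝ) →
    ∃ (t : ℕ) (Q : SG r) (c : Fin r → ℤ), τ ≤ t ∧ Q.kr ≤ rho0 κ ∧ Q.d ≤ r + rho0 κ ∧
      Real.exp (-((Z : ℝ) ^ 35)) * Q.v ≤ ((U t ∩ Q.bx c).card : ℝ) ∧
      Real.exp (-β - 2 * ξ - (Z : ℝ) ^ 35) * vol N ≤ Q.v ∧
      ∀ y : Fin r → ℤ, (((Q.bx c).filter fun w => w - y ∈ T.sy 0).card : ℝ) * vol N ≤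
        Real.exp (β / 2 + ξ + (Z : ℝ) ^ 35) * T.sv * Q.v

/-- INT: the intersection lemma (from CLC) -/
def Stmt_INT : Prop :=
  ∃ Z0 : ℕ, ∀ Z : ℕ, Z0 ≤ Z → ∀ (r : ℕ) (N : Fin r → ℕ) (T Q : SG r) (c : Fin r → ℤ), r ≤ Z →
    T.d ≤ Z → Q.d ≤ 2 * Z → (∀ l, 1 ≤ N l) → T.sy 0 ⊆ sbox N →
    Real.exp (-((Z : ℝ) ^ 35)) * Q.v ≤ ((box N ∩ Q.bx c).card : ℝ) →
    ∃ T' : SG r, T'.sy 0 ⊆ T.sy 0 ∧ T'.sy 0 ⊆ Q.q 1 0 ∧ T'.d ≤ T.d + Q.kr ∧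
      Real.exp (-(2 * (Z : ℝ) ^ 35)) * T.sv * Q.v ≤ T'.sv * vol N

end Pool.Agent.EMS
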