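import Pool.Agent.EMS.StmtsC

/-!
# EMS, part D: Lemma F, wide or narrow, induction, end of the proof
Recipes: /team-store/MP_973cda_EMS.md, paper proof /team-store/MP_973cda_proof_helper64.md, Sections 1, 9, 10, 11
-/

set_option autoImplicit false

open Finset
open scoped BigOperators Classical

namespace Pool.Agent.EMS

/-! ## Definitions -/

/-- alive at time `t` at level `b`: not after the last time with `|U| ≥ e^{-b} vol` -/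
def Al {r : ℕ} (N : Fin r → ℕ) (U : ℕ → Finset (Fin r → ℤ)) (b : ℝ) (t : ℕ) : Prop :=
  ∃ t', t ≤ t' ∧ Real.exp (-b) * vol N ≤ ((U t').card : ℝ)

/-- sides of the box of the class `c` mod 2 -/
def Nc {r : ℕ} (N : Fin r → ℕ) (c : Fin r → Fin 2) : Fin r → ℕ :=
  fun l => (N l + 1 - (c l : ℕ)) / 2

/-- the class `c` as an integer vector -/
def cz {r : ℕ} (c : Fin r → Fin 2) : Fin r → ℤ := fun l => ((c l : ℕ) : ℤ)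

/-- the part of the chain in the class `c`, in the coordinates `v`, `w = c + 2v` -/
noncomputable def UC {r : ℕ} (N : Fin r → ℕ) (c : Fin r → Fin 2)
    (U : ℕ → Finset (Fin r → ℤ)) : ℕ → Finset (Fin r → ℤ) :=
  fun t => (box (Nc N c)).filter fun v => cz c + (2 : ℤ) • v ∈ U t

/-- random certificates with support condition -/
def RCX {r : ℕ} (U : ℕ → Finset (Fin r → ℤ)) (W s : ℝ) (P : ℕ → (Fin r → ℤ) → Prop) : Prop :=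
  ∃ (Ω : Type) (_ : Fintype Ω) (p : Ω → ℝ) (X : Ω → ℕ → Finset (Fin r → ℤ)) (T : ℕ),
    (∀ ω, 0 ≤ p ω) ∧ ∑ ω, p ω = 1 ∧ (∀ ω t, Cert U t (X ω t)) ∧
    (∀ ω t, ∀ x ∈ X ω t, P t x) ∧
    (∀ t x, ∑ ω, (if x ∈ X ω t then p ω else 0) ≤ s) ∧
    W ≤ ∑ ω, p ω * ∑ t ∈ Finset.range T, ((X ω t).card : ℝ)

/-- typed random certificates: types 0 (wide), 1 (narrow), 2 (failure) -/
def TF {r : ℕ} (N : Fin r → ℕ) (U : ℕ → Finset (Fin r → ℤ)) (ψ : ℕ → (Fin r → ℤ) → ℝ)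
    (W1 W2 b pF : ℝ) : Prop :=
  ∃ (Ω : Type) (_ : Fintype Ω) (p : Ω → ℝ) (ty : Ω → Fin 3) (X : Ω → ℕ → Finset (Fin r → ℤ))
    (T : ℕ),
    (∀ ω, 0 ≤ p ω) ∧ ∑ ω, p ω = 1 ∧ (∀ ω t, Cert U t (X ω t)) ∧
    (∑ ω, (if ty ω = 2 then p ω else 0) ≤ pF) ∧ (∀ ω, ty ω = 2 → ∀ t, X ω t = ∅) ∧
    (∀ t x, ∑ ω, (if x ∈ X ω t then p ω else 0) ≤ ψ t x) ∧
    (W1 * ∑ ω, (if ty ω = 0 then p ω else 0) ≤
      ∑ ω, (if ty ω = 0 then p ω * ∑ t ∈ Finset.range T, ((X ω t).card : ℝ) else 0)) ∧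
    (W2 * ∑ ω, (if ty ω = 1 then p ω else 0) ≤
      ∑ ω, (if ty ω = 1 then p ω * ∑ t ∈ Finset.range T, ((X ω t).card : ℝ) else 0)) ∧
    (∀ ω t, ty ω = 1 → ¬ Al N U b t → X ω t = ∅)

/-- `b` -/
noncomputable def bb (Z : ℕ) (θ : ℝ) : ℝ := 6 * θ + 10 * (Z : ℝ) ^ 38

/-- `β = b + X₁` -/
noncomputable def be (Z : ℕ) (θ : ℝ) : ℝ := 7 * θ + 10 * (Z : ℝ) ^ 38 + (Z : ℝ) ^ 37

/-- master loss of one use of the dense piece lemma inside the induction -/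
noncomputable def GG (Z : ℕ) (θ : ℝ) : ℝ := 7 * θ + 13 * (Z : ℝ) ^ 38

/-- size of a round of the induction -/
noncomputable def HH (Z : ℕ) (θ : ℝ) : ℝ := 10 * θ + 16 * (Z : ℝ) ^ 38

/-! ## Lemma F -/

/-- LMF: Lemma F -/
def Stmt_LMF : Prop :=
  ∀ (A : Finset ℕ) (κ : ℕ), 2 ≤ κ → (∀ a ∈ A, 0 < a) →
    (∀ S ⊆ A, κ ≤ S.card → ∃ s ∈ S, ∃ s' ∈ S, s ≠ s' ∧ s + s' ∈ A) →
    ∀ X : ℕ → Finset ℕ, (∀ t, X t ⊆ A.filter fun a => Nat.log 2 a = t) →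
      (∀ t, ∀ x ∈ X t, ∀ y ∈ X t, x ≠ y → x + y ∉ A) →
      ∀ T, ∑ t ∈ Finset.range T, (X t).card ≤ 8 * κ ^ 6 * (Nat.log 2 A.card + 5) ^ 2

/-! ## Basic lemmas on chains and random certificates -/

/-- PUL: pull back to a GAP -/
def Stmt_PUL : Prop :=
  ∀ (r κ : ℕ) (N : Fin r → ℕ) (U : ℕ → Finset (Fin r → ℤ)) (S : SG r) (c : Fin r → ℤ) (τ : ℕ),
    Chain κ N U →
    Chain κ S.M (S.pb c fun t => U (τ + t)) ∧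
    (∀ t, (S.pb c (fun t => U (τ + t)) t).card = (U (τ + t) ∩ S.bx c).card) ∧
    (∀ J, NT U J → NT (S.pb c fun t => U (τ + t)) J) ∧ ((S.bx c).card : ℝ) = S.v ∧
    ∀ (W s : ℝ) (P : ℕ → (Fin S.d → ℤ) → Prop), 0 ≤ s →
      RCX (S.pb c fun t => U (τ + t)) W s P →
      RCX U W s fun t x => ∃ t0 u, t = τ + t0 ∧ u ∈ box S.M ∧ x = c + S.φ u ∧ P t0 u

/-- PUS: pull back to a translate of a symmetric GAP -/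
def Stmt_PUS : Prop :=
  ∀ (r κ : ℕ) (N : Fin r → ℕ) (U : ℕ → Finset (Fin r → ℤ)) (S : SG r) (c : Fin r → ℤ),
    Chain κ N U →
    Chain κ S.sM (S.pbs c U) ∧ vol S.sM = S.sv ∧ ((S.sy c).card : ℝ) = S.sv ∧
    (∀ t, (S.pbs c U t).card = (U t ∩ S.sy c).card) ∧ (∀ J, NT U J → NT (S.pbs c U) J) ∧
    ∀ t X, Cert (S.pbs c U) t X →
      Cert U t (X.image fun u => c + S.φ fun l => u l - (S.M l : ℤ)) ∧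
      (X.image fun u => c + S.φ fun l => u l - (S.M l : ℤ)).card = X.card ∧
      (X.image fun u => c + S.φ fun l => u l - (S.M l : ℤ)) ⊆ S.sy c

/-- CLS: classes mod 2 -/
def Stmt_CLS : Prop :=
  ∀ (r κ : ℕ) (N : Fin r → ℕ) (U : ℕ → Finset (Fin r → ℤ)), Chain κ N U → (∀ l, 1 ≤ N l) →
    (∀ c, Chain κ (Nc N c) (UC N c U) ∧ (∀ J, NT U J → NT (UC N c U) J) ∧
      ((UC N c U 0).Nonempty → ∀ l, 1 ≤ Nc N c l) ∧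
      ((∀ l, 1 ≤ Nc N c l) → vol N ≤ 3 ^ r * vol (Nc N c)) ∧ vol (Nc N c) ≤ vol N ∧
      (∀ t X, Cert (UC N c U) t X → (∀ w ∈ X, ∀ w' ∈ X, w ≠ w' → cz c + w + w' ∉ U (t + 1))) ∧
      (∀ t X, X ⊆ UC N c U t → (∀ w ∈ X, ∀ w' ∈ X, w ≠ w' → cz c + w + w' ∉ U (t + 1)) →
        Cert U t (X.image fun v => cz c + (2 : ℤ) • v) ∧
        (X.image fun v => cz c + (2 : ℤ) • v).card = X.card)) ∧
    (∀ t, (U t).card = ∑ c, (UC N c U t).card) ∧ ∑ c, vol (Nc N c) = vol N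

/-- TRU: truncation of random certificates -/
def Stmt_TRU : Prop :=
  ∀ (r : ℕ) (N : Fin r → ℕ) (U : ℕ → Finset (Fin r → ℤ)) (J W s b : ℝ), NT U J →
    0 ≤ s → 0 ≤ J → RC U W s →
    RCX U (W - J * (Real.exp (-b) * vol N * s)) s fun t _ => Al N U b t

/-- BAS: the initial case of `PI` -/
def Stmt_BAS : Prop :=
  ∀ (κ R : ℕ) (J D0 lo hi : ℝ), PI κ J D0 1 D0 R lo hi

/-! ## Wide or narrow -/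

/-- CFG: one more GAP (from DPL, INT) -/
def Stmt_CFG : Prop :=
  ∃ Z0 : ℕ, ∀ Z : ℕ, Z0 ≤ Z → ∀ (r κ τ : ℕ) (N : Fin r → ℕ) (V : ℕ → Finset (Fin r → ℤ))
    (T : SG r) (β ξ : ℝ), r ≤ Z → T.d ≤ Z → 2 ≤ κ → Real.log κ ≤ Z → rho0 κ ≤ Z → Chain κ N V →
    NT V (Real.exp Z) → (∀ l, 1 ≤ N l) → vol N ≤ Real.exp (Real.exp Z) → T.sy 0 ⊆ sbox N →
    0 ≤ β → 0 ≤ ξ → Real.exp (β + 2 * ξ + 2 * Z + (Z : ℝ) ^ 36) ≤ vol N →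
    Real.exp (-ξ) * vol N ≤
      (((ebox N).filter fun y => ∃ t, τ ≤ t ∧
        Real.exp (-β) * T.sv ≤ ((V t ∩ T.sy y).card : ℝ)).card : ℝ) →
    ∃ (t : ℕ) (Q : SG r) (c : Fin r → ℤ) (T' : SG r), τ ≤ t ∧ Q.d ≤ r + rho0 κ ∧
      Real.exp (-((Z : ℝ) ^ 35)) * Q.v ≤ ((V t ∩ Q.bx c).card : ℝ) ∧
      Real.exp (-(β + 2 * ξ + 2 * Z + (Z : ℝ) ^ 35)) * vol N ≤ Q.v ∧
      (∀ y : Fin r → ℤ, (((Q.bx c).filter fun w => w - y ∈ T.sy 0).card : ℝ) * vol N ≤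
        Real.exp (β / 2 + ξ + Z + (Z : ℝ) ^ 35) * T.sv * Q.v) ∧
      T'.sy 0 ⊆ T.sy 0 ∧ T'.sy 0 ⊆ Q.q 1 0 ∧ T'.d ≤ T.d + rho0 κ ∧
      Real.exp (-(β + 2 * ξ + 2 * Z + 3 * (Z : ℝ) ^ 35)) * T.sv ≤ T'.sv

/-- CRS: cross sums -/
def Stmt_CRS : Prop :=
  ∀ (r : ℕ) (Q T : SG r) (c : Fin r → ℤ) (P : Finset (Fin r → ℤ)) (K : ℝ), 0 ≤ K →
    T.sy 0 ⊆ Q.q 1 0 →
    (∀ y : Fin r → ℤ, ((P.filter fun w => w - y ∈ T.sy 0).card : ℝ) ≤ K) →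
    ∀ y : Fin r → ℤ, ((((Q.bx c) ×ˢ P).filter fun z => z.1 + z.2 = y).card : ℝ) * T.sv ≤
      2 ^ Q.d * Q.v * K

/-- WNI: configurations of length `m`, or narrow (from CFG, CRS) -/
def Stmt_WNI : Prop :=
  ∃ Z0 : ℕ, ∀ Z : ℕ, Z0 ≤ Z → ∀ (r κ τ m : ℕ) (N : Fin r → ℕ) (V : ℕ → Finset (Fin r → ℤ))
    (β ξ : ℝ), r + m * rho0 κ ≤ Z → 2 ≤ κ → Real.log κ ≤ Z → rho0 κ ≤ Z → Chain κ N V →
    NT V (Real.exp Z) → (∀ l, 1 ≤ N l) → vol N ≤ Real.exp (Real.exp Z) →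
    0 ≤ β → 0 ≤ ξ → Real.exp (β + 2 * ξ + 2 * Z + (Z : ℝ) ^ 36) ≤ vol N →
    (∃ T : SG r, T.d ≤ r + m * rho0 κ ∧ T.sy 0 ⊆ sbox N ∧
      Real.exp (-(m * (β + 2 * ξ + 2 * Z + 3 * (Z : ℝ) ^ 35))) * vol N ≤ T.sv ∧
      (((ebox N).filter fun y => ∃ t, τ ≤ t ∧
        Real.exp (-β) * T.sv ≤ ((V t ∩ T.sy y).card : ℝ)).card : ℝ) ≤ Real.exp (-ξ) * vol N) ∨
    ∃ (Q : Fin m → SG r) (c : Fin m → (Fin r → ℤ)) (t : Fin m → ℕ),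
      (∀ i, τ ≤ t i ∧ (Q i).d ≤ r + rho0 κ ∧
        Real.exp (-((Z : ℝ) ^ 35)) * (Q i).v ≤ ((V (t i) ∩ (Q i).bx (c i)).card : ℝ) ∧
        Real.exp (-(β + 2 * ξ + 2 * Z + (Z : ℝ) ^ 35)) * vol N ≤ (Q i).v) ∧
      ∀ i j, i < j → ∀ y : Fin r → ℤ,
        (((((Q i).bx (c i)) ×ˢ ((Q j).bx (c j))).filter fun z => z.1 + z.2 = y).card : ℝ) *
            vol N ≤
          Real.exp (β / 2 + ξ + 3 * Z + (Z : ℝ) ^ 35) * (Q i).v * (Q j).v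

/-- UNI: union of independent random certificates inside one class (from CLS) -/
def Stmt_UNI : Prop :=
  ∀ (r κ m τ : ℕ) (N : Fin r → ℕ) (c : Fin r → Fin 2) (U : ℕ → Finset (Fin r → ℤ))
    (J u Cr σ v0 W : ℝ) (P : Fin m → Finset (Fin r → ℤ)), Chain κ N U → (∀ l, 1 ≤ N l) →
    NT U J → 0 ≤ J → 0 ≤ u → 0 ≤ Cr → 0 ≤ σ → 0 < v0 →
    (∀ t, τ < t → ((U t).card : ℝ) ≤ u) → (∀ i, v0 ≤ ((P i).card : ℝ)) →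
    (∀ i, RCX (UC N c U) W (σ / ((P i).card : ℝ)) fun t x => τ ≤ t ∧ x ∈ P i) →
    (∀ i j, i < j → ∀ y : Fin r → ℤ, ((((P i) ×ˢ (P j)).filter fun z => z.1 + z.2 = y).card : ℝ) ≤
      Cr * ((P i).card : ℝ) * ((P j).card : ℝ)) →
    RC U (m * W - (m : ℝ) ^ 2 * J * σ ^ 2 * (u * Cr + 1 / v0)) (m * σ / v0)

/-- WNL: wide or narrow (from WNI, UNI, PUL, CLS) -/
def Stmt_WNL : Prop :=
  ∃ Z0 : ℕ, ∀ Z : ℕ, Z0 ≤ Z → ∀ (κ m R : ℕ) (W θ lo hi : ℝ),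
    PI κ (Real.exp Z) ((Z : ℝ) ^ 35) W θ R lo hi → (Z : ℝ) ^ 35 ≤ θ → 0 ≤ lo → hi ≤ Real.exp Z →
    1 ≤ m → m ≤ Z → 2 ≤ κ → Real.log κ ≤ Z → rho0 κ ≤ Z →
    ∀ (r τ : ℕ) (N : Fin r → ℕ) (c : Fin r → Fin 2) (U : ℕ → Finset (Fin r → ℤ)),
      r + rho0 κ ≤ R → r + m * rho0 κ ≤ Z → (∀ l, 1 ≤ N l) → (∀ l, 1 ≤ Nc N c l) →
      Chain κ N U → NT U (Real.exp Z) →
      (∀ t, τ < t → ((U t).card : ℝ) ≤ Real.exp (-(bb Z θ)) * vol N) →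
      Real.exp (lo + HH Z θ) ≤ vol N → vol N ≤ Real.exp (hi - (Z : ℝ) ^ 36) →
      RC U (m * W - Real.exp (-Z)) (Real.exp (θ + GG Z θ) / vol N) ∨
      ∃ T : SG r, T.d ≤ r + m * rho0 κ ∧ T.sy 0 ⊆ sbox (Nc N c) ∧
        Real.exp (-(m * GG Z θ)) * vol (Nc N c) ≤ T.sv ∧
        (((ebox (Nc N c)).filter fun y => ∃ t, τ ≤ t ∧
          Real.exp (-(be Z θ)) * T.sv ≤ ((UC N c U t ∩ T.sy y).card : ℝ)).card : ℝ) ≤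
            Real.exp (-((Z : ℝ) ^ 38)) * vol (Nc N c)

/-! ## Induction step -/

/-- XQM: random certificates after time `τ`, alive at level `β` (from DPL, PUL, TRU) -/
def Stmt_XQM : Prop :=
  ∃ Z0 : ℕ, ∀ Z : ℕ, Z0 ≤ Z → ∀ (κ R : ℕ) (W θ lo hi : ℝ),
    PI κ (Real.exp Z) ((Z : ℝ) ^ 35) W θ R lo hi → (Z : ℝ) ^ 35 ≤ θ → 0 ≤ lo → hi ≤ Real.exp Z →
    2 ≤ κ → Real.log κ ≤ Z →
    ∀ (r τ : ℕ) (N : Fin r → ℕ) (U : ℕ → Finset (Fin r → ℤ)),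
      r + rho0 κ ≤ R → r ≤ Z → (∀ l, 1 ≤ N l) → Chain κ N U → NT U (Real.exp Z) →
      Real.exp (-(bb Z θ)) * vol N ≤ ((U τ).card : ℝ) →
      Real.exp (lo + HH Z θ) ≤ vol N → vol N ≤ Real.exp (hi - (Z : ℝ) ^ 36) →
      RCX U (W - Real.exp (-Z)) (Real.exp (GG Z θ) / vol N) fun t _ =>
        τ ≤ t ∧ Al N U (be Z θ) t

/-- STJ: push a typed family from a cell to `U` and join it with independent certificates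
(from PUS, CLS) -/
def Stmt_STJ : Prop :=
  ∀ (r κ τ : ℕ) (N : Fin r → ℕ) (c : Fin r → Fin 2) (U : ℕ → Finset (Fin r → ℤ)) (T : SG r)
    (x : Fin r → ℤ) (W1 W2 WQ sQ e b pF : ℝ), Chain κ N U → (∀ l, 1 ≤ N l) → 0 ≤ e → 0 ≤ sQ →
    RCX U WQ sQ (fun t _ => τ ≤ t ∧ Al N U b t) → Al N U b τ →
    ¬ Al T.sM (T.pbs x (UC N c U)) b τ →
    TF T.sM (T.pbs x (UC N c U)) (fun _ _ => e) W1 W2 b pF →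
    TF N U (fun _ y => sQ + if ∃ v ∈ T.sy x, y = cz c + (2 : ℤ) • v then e else 0)
      W1 (W2 + WQ) b pF

/-- STM: mixtures of typed families -/
def Stmt_STM : Prop :=
  ∀ (r : ℕ) (N : Fin r → ℕ) (U : ℕ → Finset (Fin r → ℤ)) (I : Type) (_ : Fintype I) (lam : I → ℝ)
    (ψ : I → ℕ → (Fin r → ℤ) → ℝ) (pF : I → ℝ) (W1 W2 b : ℝ), (∀ i, 0 ≤ lam i) →
    ∑ i, lam i = 1 → (∀ i, TF N U (ψ i) W1 W2 b (pF i)) →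
    TF N U (fun t y => ∑ i, lam i * ψ i t y) W1 W2 b (∑ i, lam i * pF i)

/-- STP: the step from cells to `U` (from PUS, CLS, STJ, STM) -/
def Stmt_STP : Prop :=
  ∀ (r κ τ : ℕ) (N : Fin r → ℕ) (U : ℕ → Finset (Fin r → ℤ)) (W1 W2 WQ sQ E b d1 ξ pF : ℝ),
    Chain κ N U → (∀ l, 1 ≤ N l) → (U 0).Nonempty → 0 ≤ E → 0 ≤ sQ → 0 ≤ pF →
    RCX U WQ sQ (fun t _ => τ ≤ t ∧ Al N U b t) → Al N U b τ →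
    (∀ c : Fin r → Fin 2, (UC N c U 0).Nonempty → ∃ T : SG r, T.sy 0 ⊆ sbox (Nc N c) ∧
      (((ebox (Nc N c)).filter fun y => ∃ t, τ ≤ t ∧
        Real.exp (-b) * T.sv ≤ ((UC N c U t ∩ T.sy y).card : ℝ)).card : ℝ) ≤
          Real.exp (-ξ) * vol (Nc N c) ∧
      ∀ x : Fin r → ℤ, Real.exp (-d1) * T.sv ≤ ((UC N c U 0 ∩ T.sy x).card : ℝ) →
        TF T.sM (T.pbs x (UC N c U)) (fun _ _ => E / ((T.pbs x (UC N c U) 0).card : ℝ))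
          W1 W2 b pF) →
    TF N U (fun _ _ => (E + sQ * ((U 0).card : ℝ)) / ((U 0).card : ℝ)) W1 (W2 + WQ) b
      (pF + (4 ^ r * Real.exp (-d1) + Real.exp (-ξ)) * vol N / ((U 0).card : ℝ))

/-- the statement `S_k` -/
def SK (κ Z M0 : ℕ) (W θ : ℝ) (R : ℕ) (lo hi : ℝ) (k : ℕ) : Prop :=
  ∀ (r : ℕ) (N : Fin r → ℕ) (U : ℕ → Finset (Fin r → ℤ)),
    r + rho0 κ + k * M0 * rho0 κ ≤ R → (∀ l, 1 ≤ N l) → Chain κ N U → NT U (Real.exp Z) →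
    Real.exp (lo + (k * M0 + 1) * HH Z θ) ≤ vol N →
    vol N ≤ Real.exp (hi - (Z : ℝ) ^ 36 - 2 * Z * k) →
    Real.exp (-((Z : ℝ) ^ 35 + 3 * Z * ((M0 : ℝ) - k))) * vol N ≤ ((U 0).card : ℝ) →
    TF N U (fun _ _ => ((k : ℝ) + 1) * Real.exp (θ + GG Z θ) / ((U 0).card : ℝ))
      (M0 * W - Real.exp (-Z)) (k * (W - Real.exp (-Z))) (be Z θ) ((k : ℝ) / (4 * M0))

/-- SKK: the inner induction (from WNL, XQM, STP, CLS, PUS) -/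
def Stmt_SKK : Prop :=
  ∃ Z0 : ℕ, ∀ Z : ℕ, Z0 ≤ Z → ∀ (κ M0 R : ℕ) (W θ lo hi : ℝ),
    PI κ (Real.exp Z) ((Z : ℝ) ^ 35) W θ R lo hi → (Z : ℝ) ^ 35 ≤ θ → 0 ≤ lo → hi ≤ Real.exp Z →
    1 ≤ M0 → M0 ^ 2 + 1 ≤ Z → 2 ≤ κ → Real.log κ ≤ Z → rho0 κ ≤ Z → R ≤ Z →
    ∀ k, k ≤ M0 → SK κ Z M0 W θ R lo hi k

/-- PST: the induction step for `PI` (from SKK) -/
def Stmt_PST : Prop :=
  ∃ Z0 : ℕ, ∀ Z : ℕ, Z0 ≤ Z → ∀ (κ M0 R R' : ℕ) (W θ lo hi : ℝ),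
    PI κ (Real.exp Z) ((Z : ℝ) ^ 35) W θ R lo hi → 1 ≤ W → (Z : ℝ) ^ 35 ≤ θ → 0 ≤ lo →
    hi ≤ Real.exp Z → 1 ≤ M0 → M0 ^ 2 + 1 ≤ Z → 2 ≤ κ → Real.log κ ≤ Z → rho0 κ ≤ Z → R ≤ Z →
    R' + (M0 ^ 2 + 1) * rho0 κ ≤ R →
    PI κ (Real.exp Z) ((Z : ℝ) ^ 35) (M0 * W / 4) (8 * θ + 14 * (Z : ℝ) ^ 38) R'
      (lo + Z * HH Z θ) (hi - (Z : ℝ) ^ 37)

/-- ITP: iteration of the induction step (from PST, BAS) -/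
def Stmt_ITP : Prop :=
  ∀ I : ℕ, ∃ Z0 : ℕ, ∀ Z : ℕ, Z0 ≤ Z → ∀ (κ M0 : ℕ), 4 ≤ M0 → M0 ^ 2 + 1 ≤ Z → 2 ≤ κ →
    Real.log κ ≤ Z → 2 * I * (M0 ^ 2 + 1) * rho0 κ ≤ Z →
    ∃ θ : ℝ, PI κ (Real.exp Z) ((Z : ℝ) ^ 35) (((M0 : ℝ) / 4) ^ I) θ (Z / 2) ((Z : ℝ) ^ 40)
      (Real.exp Z - I * (Z : ℝ) ^ 37)

/-! ## End of the proof -/

/-- the initial chain -/
noncomputable def IU (A : Finset ℕ) (S : SG 1) (c : Fin 1 → ℤ) (t0 : ℕ) :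
    ℕ → Finset (Fin S.d → ℤ) :=
  fun t => (box S.M).filter fun u => ∃ a ∈ A, Nat.log 2 a = t0 + t ∧
    (2 : ℤ) ^ t * ((c + S.φ u) 0) = (a : ℤ)

/-- INC: the initial chain is a chain; its certificates are small (from LMF) -/
def Stmt_INC : Prop :=
  ∀ (A : Finset ℕ) (κ : ℕ) (S : SG 1) (c : Fin 1 → ℤ) (t0 : ℕ), 2 ≤ κ → (∀ a ∈ A, 0 < a) →
    (∀ S' ⊆ A, κ ≤ S'.card → ∃ s ∈ S', ∃ s' ∈ S', s ≠ s' ∧ s + s' ∈ A) →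
    Chain κ S.M (IU A S c t0) ∧
    NT (IU A S c t0) (8 * (κ : ℝ) ^ 6 * ((Nat.log 2 A.card : ℝ) + 5) ^ 2) ∧
    ∀ X : ℕ → Finset (Fin S.d → ℤ), (∀ t, Cert (IU A S c t0) t (X t)) →
      ∀ T, ∑ t ∈ Finset.range T, ((X t).card : ℝ) ≤
        8 * (κ : ℝ) ^ 6 * ((Nat.log 2 A.card : ℝ) + 5) ^ 2

/-- LEV: a popular level with a small next level (from LMF) -/
def Stmt_LEV : Prop :=
  ∀ (A : Finset ℕ) (κ : ℕ), 2 ≤ κ → (∀ a ∈ A, 0 < a) →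
    (∀ S' ⊆ A, κ ≤ S'.card → ∃ s ∈ S', ∃ s' ∈ S', s ≠ s' ∧ s + s' ∈ A) →
    (8 * (κ : ℝ) ^ 6 * ((Nat.log 2 A.card : ℝ) + 5) ^ 2) ^ 2 ≤ (A.card : ℝ) →
    ∃ t0 : ℕ, (A.card : ℝ) ≤ ((A.filter fun a => Nat.log 2 a = t0).card : ℝ) ^ 2 ∧
      (A.filter fun a => Nat.log 2 a = t0 + 1).card ≤ (A.filter fun a => Nat.log 2 a = t0).card

/-- IGP: the initial GAP (from LEV, MSS, BSG, BR) -/
def Stmt_IGP : Prop :=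
  ∃ Z0 : ℕ, ∀ Z1 : ℕ, Z0 ≤ Z1 → ∀ (A : Finset ℕ) (κ : ℕ), 2 ≤ κ → Real.log κ ≤ Z1 →
    (∀ a ∈ A, 0 < a) →
    (∀ S' ⊆ A, κ ≤ S'.card → ∃ s ∈ S', ∃ s' ∈ S', s ≠ s' ∧ s + s' ∈ A) →
    (8 * (κ : ℝ) ^ 6 * ((Nat.log 2 A.card : ℝ) + 5) ^ 2) ^ 2 ≤ (A.card : ℝ) →
    ∃ (t0 : ℕ) (S : SG 1) (c : Fin 1 → ℤ), S.d ≤ Z1 ^ 5 ∧
      Real.exp (-((Z1 : ℝ) ^ 16)) * S.v ≤ ((IU A S c t0 0).card : ℝ) ∧
      Real.sqrt (A.card : ℝ) ≤ Real.exp (2 * (Z1 : ℝ) ^ 16) * S.v ∧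
      S.v ≤ Real.exp ((Z1 : ℝ) ^ 16) * (A.card : ℝ)

/-- PRM: the parameters -/
def Stmt_PRM : Prop :=
  ∀ (I Z0 Z2 : ℕ), 200000 ≤ I → ∃ n0 : ℕ, ∀ n : ℕ, n0 ≤ n → ∀ κ : ℕ,
    2 ≤ κ → (κ : ℝ) ≤ (Real.log (2 * n + 1)) ^ (100 : ℕ) + 1 →
    ∃ Z M0 Z1 : ℕ, Z0 ≤ Z ∧ Z2 ≤ Z1 ∧ 4 ≤ M0 ∧ M0 ^ 2 + 1 ≤ Z ∧ Real.log κ ≤ Z1 ∧
      Real.log κ ≤ Z ∧ 2 * I * (M0 ^ 2 + 1) * rho0 κ ≤ Z ∧ Z1 ^ 5 ≤ Z / 2 ∧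
      (Z1 : ℝ) ^ 16 ≤ (Z : ℝ) ^ 35 ∧
      8 * (κ : ℝ) ^ 6 * ((Nat.log 2 n : ℝ) + 5) ^ 2 < ((M0 : ℝ) / 4) ^ I ∧
      8 * (κ : ℝ) ^ 6 * ((Nat.log 2 n : ℝ) + 5) ^ 2 ≤ Real.exp Z ∧
      (8 * (κ : ℝ) ^ 6 * ((Nat.log 2 n : ℝ) + 5) ^ 2) ^ 2 ≤ (n : ℝ) ∧
      Real.exp ((Z : ℝ) ^ 40) * Real.exp (2 * (Z1 : ℝ) ^ 16) ≤ Real.sqrt (n : ℝ) ∧
      Real.exp ((Z1 : ℝ) ^ 16) * (n : ℝ) ≤ Real.exp (Real.exp Z - I * (Z : ℝ) ^ 37)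

/-- POS: the theorem for sets of positive integers (from ITP, INC, IGP, PRM) -/
def Stmt_POS : Prop :=
  ∃ n0 : ℕ, ∀ A : Finset ℕ, n0 ≤ A.card → (∀ a ∈ A, 0 < a) → ∀ κ : ℕ, 2 ≤ κ →
    (κ : ℝ) ≤ (Real.log (2 * (A.card : ℝ) + 1)) ^ (100 : ℕ) + 1 →
    ∃ S ⊆ A, κ ≤ S.card ∧ ∀ s ∈ S, ∀ s' ∈ S, s ≠ s' → s + s' ∉ A

/-- FIN: the final statement (from POS) -/
def Stmt_FIN : Prop :=
  ∃ N : ℕ, ∀ A : Finset ℤ, N ≤ A.card →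
    ∃ S : Finset ℤ, S ⊆ A ∧
      (Real.log (A.card : ℝ)) ^ (100 : ℕ) ≤ (S.card : ℝ) ∧
      ∀ s ∈ S, ∀ s' ∈ S, s ≠ s' → s + s' ∉ A

end Pool.Agent.EMS
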