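import Pool.Agent.EMS.StmtsA

/-!
# EMS, module TRF: GAPs in `2B-2B` are transferred by Freiman isomorphisms of order 8
-/

set_option autoImplicit false

open Finset
open scoped BigOperators Classical Pointwise

namespace Pool.Agent.EMS

namespace TRF_

variable {N : ℕ} {A : Finset ℤ} {f : ℤ → ZMod N}

/-- additivity -/
theorem key (hf : Frei A f) {a0 : ℤ} (h0 : a0 ∈ A) {p0 p1 p2 p3 q0 q1 q2 q3 r0 r1 r2 r3 : ℤ}
    (hp0 : p0 ∈ A) (hp1 : p1 ∈ A) (hp2 : p2 ∈ A) (hp3 : p3 ∈ A)
    (hq0 : q0 ∈ A) (hq1 : q1 ∈ A) (hq2 : q2 ∈ A) (hq3 : q3 ∈ A)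
    (hr0 : r0 ∈ A) (hr1 : r1 ∈ A) (hr2 : r2 ∈ A) (hr3 : r3 ∈ A)
    (h : (f p0 + f p1 - f p2 - f p3) + (f q0 + f q1 - f q2 - f q3) =
      f r0 + f r1 - f r2 - f r3) :
    (p0 + p1 - p2 - p3) + (q0 + q1 - q2 - q3) = r0 + r1 - r2 - r3 := by
  have H := (hf ![p0, p1, q0, q1, r2, r3, a0, a0] ![p2, p3, q2, q3, r0, r1, a0, a0]
    (by intro i; fin_cases i <;> simp [*]) (by intro i; fin_cases i <;> simp [*])).2
  simp only [Fin.sum_univ_eight] at H
  simp at H
  have := H (by linear_combination h)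
  linarith

/-- injectivity -/
theorem inj (hf : Frei A f) {a0 : ℤ} (h0 : a0 ∈ A) {p0 p1 p2 p3 : ℤ}
    (hp0 : p0 ∈ A) (hp1 : p1 ∈ A) (hp2 : p2 ∈ A) (hp3 : p3 ∈ A)
    (h : p0 + p1 - p2 - p3 = 0) : f p0 + f p1 - f p2 - f p3 = 0 := by
  have H := (hf ![p0, p1, a0, a0, a0, a0, a0, a0] ![p2, p3, a0, a0, a0, a0, a0, a0]
    (by intro i; fin_cases i <;> simp [*]) (by intro i; fin_cases i <;> simp [*])).1
  simp only [Fin.sum_univ_eight] at H
  simp at H
  have := H (by linarith)
  linear_combination this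

theorem mem4 {z : ZMod N} (hz : z ∈ A.image f + A.image f - A.image f - A.image f) :
    ∃ p : Fin 4 → ℤ, (∀ i, p i ∈ A) ∧ f (p 0) + f (p 1) - f (p 2) - f (p 3) = z := by
  rw [Finset.mem_sub] at hz
  obtain ⟨x, hx, y, hy, rfl⟩ := hz
  rw [Finset.mem_sub] at hx
  obtain ⟨x, hx, w, hw, rfl⟩ := hx
  rw [Finset.mem_add] at hx
  obtain ⟨x, hx, v, hv, rfl⟩ := hx
  rw [Finset.mem_image] at hx hv hw hy
  obtain ⟨a, ha, rfl⟩ := hx
  obtain ⟨b, hb, rfl⟩ := hv
  obtain ⟨c, hc, rfl⟩ := hw
  obtain ⟨d, hd, rfl⟩ := hy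
  refine ⟨![a, b, c, d], ?_, by simp⟩
  intro i
  fin_cases i <;> simp [*]

end TRF_

open TRF_ in
theorem trf_proof : Stmt_TRF := by
  intro N _ A f hA hf m b M hM hbox hprop
  obtain ⟨a0, h0⟩ := hA
  have hex : ∀ u : Fin m → ℤ, ∃ p : Fin 4 → ℤ, (∀ l, |u l| ≤ 8 * (M l : ℤ)) →
      (∀ i, p i ∈ A) ∧ f (p 0) + f (p 1) - f (p 2) - f (p 3) = ∑ l, u l • b l := by
    intro u
    by_cases hu : ∀ l, |u l| ≤ 8 * (M l : ℤ)
    · obtain ⟨p, hp⟩ := mem4 (hbox u hu)
      exact ⟨p, fun _ => hp⟩
    · exact ⟨0, fun h => absurd h hu⟩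
  choose P hP using hex
  have hadd : ∀ u v w : Fin m → ℤ, (∀ l, |u l| ≤ 8 * (M l : ℤ)) → (∀ l, |v l| ≤ 8 * (M l : ℤ)) →
      (∀ l, |w l| ≤ 8 * (M l : ℤ)) → u + v = w →
      (P u 0 + P u 1 - P u 2 - P u 3) + (P v 0 + P v 1 - P v 2 - P v 3) =
        P w 0 + P w 1 - P w 2 - P w 3 := by
    intro u v w hu hv hw huvw
    obtain ⟨hu1, hu2⟩ := hP u hu
    obtain ⟨hv1, hv2⟩ := hP v hv
    obtain ⟨hw1, hw2⟩ := hP w hw
    refine key hf h0 (hu1 0) (hu1 1) (hu1 2) (hu1 3) (hv1 0) (hv1 1) (hv1 2) (hv1 3)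
      (hw1 0) (hw1 1) (hw1 2) (hw1 3) ?_
    rw [hu2, hv2, hw2, ← huvw, ← Finset.sum_add_distrib]
    refine Finset.sum_congr rfl fun l _ => ?_
    rw [Pi.add_apply, add_smul]
  have hM1 : ∀ l, (1 : ℤ) ≤ M l := fun l => by exact_mod_cast hM l
  have he : ∀ l j, |(Pi.single l (1 : ℤ) : Fin m → ℤ) j| ≤ 8 * (M j : ℤ) := by
    intro l j
    have := hM1 j
    by_cases hj : j = l
    · subst hj
      rw [Pi.single_eq_same]
      simp
      linarith
    · rw [Pi.single_eq_of_ne hj]
      simp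
  set V : (Fin m → ℤ) → ℤ := fun u => P u 0 + P u 1 - P u 2 - P u 3 with hV
  have hadd' : ∀ u v w : Fin m → ℤ, (∀ l, |u l| ≤ 8 * (M l : ℤ)) →
      (∀ l, |v l| ≤ 8 * (M l : ℤ)) →
      (∀ l, |w l| ≤ 8 * (M l : ℤ)) → u + v = w → V u + V v = V w := hadd
  set g : Fin m → ℤ := fun l => V (Pi.single l 1) with hg
  have hV0 : V 0 = 0 := by
    have h00 : ∀ l, |(0 : Fin m → ℤ) l| ≤ 8 * (M l : ℤ) := by
      intro l
      have := hM1 l
      simp
    have := hadd' 0 0 0 h00 h00 h00 (by simp)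
    linarith
  have hlin : ∀ n : ℕ, ∀ u : Fin m → ℤ, (∀ l, |u l| ≤ 8 * (M l : ℤ)) →
      ∑ l, (u l).natAbs = n → V u = ∑ l, u l * g l := by
    intro n
    induction n with
    | zero =>
      intro u hu hn
      have hu0 : u = 0 := by
        funext l
        have := (Finset.sum_eq_zero_iff.1 hn) l (Finset.mem_univ l)
        simpa using this
      subst hu0
      simp [hV0]
    | succ n ih =>
      intro u hu hn
      have hne : ∃ l, u l ≠ 0 := by
        by_contra hcon
        push Not at hcon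
        simp [hcon] at hn
      obtain ⟨l, hl⟩ := hne
      rcases lt_or_gt_of_ne hl with hneg | hpos
      · -- `u l < 0`
        set w : Fin m → ℤ := u + Pi.single l 1 with hw
        have hwl : w l = u l + 1 := by simp [hw]
        have hwj : ∀ j, j ≠ l → w j = u j := by
          intro j hj
          simp [hw, Pi.single_eq_of_ne hj]
        have hwb : ∀ j, |w j| ≤ 8 * (M j : ℤ) := by
          intro j
          by_cases hj : j = l
          · subst hj
            rw [hwl]
            have := abs_le.1 (hu j)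
            rw [abs_le]
            constructor <;> linarith [hM1 j]
          · rw [hwj j hj]
            exact hu j
        have hsum : ∑ j, (w j).natAbs = n := by
          have e1 : ∑ j, (u j).natAbs = (u l).natAbs + ∑ j ∈ Finset.univ.erase l, (u j).natAbs :=
            (Finset.add_sum_erase _ _ (Finset.mem_univ l)).symm
          have e2 : ∑ j, (w j).natAbs = (w l).natAbs + ∑ j ∈ Finset.univ.erase l, (w j).natAbs :=
            (Finset.add_sum_erase _ _ (Finset.mem_univ l)).symm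
          have e3 : ∑ j ∈ Finset.univ.erase l, (w j).natAbs =
              ∑ j ∈ Finset.univ.erase l, (u j).natAbs :=
            Finset.sum_congr rfl fun j hj => by rw [hwj j (Finset.ne_of_mem_erase hj)]
          rw [e2, e3, hwl]
          omega
        have h1 := hadd' u (Pi.single l 1) w hu (he l) hwb rfl
        have h2 := ih w hwb hsum
        have h3 : ∑ j, w j * g j = ∑ j, u j * g j + g l := by
          simp only [hw, Pi.add_apply, add_mul, Finset.sum_add_distrib]
          congr 1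
          simp [Pi.single_apply]
        have h4 : V (Pi.single l 1) = g l := rfl
        rw [h2, h3, h4] at h1
        linarith
      · -- `0 < u l`
        set w : Fin m → ℤ := u - Pi.single l 1 with hw
        have hwl : w l = u l - 1 := by simp [hw]
        have hwj : ∀ j, j ≠ l → w j = u j := by
          intro j hj
          simp [hw, Pi.single_eq_of_ne hj]
        have hwb : ∀ j, |w j| ≤ 8 * (M j : ℤ) := by
          intro j
          by_cases hj : j = l
          · subst hj
            rw [hwl]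
            have := abs_le.1 (hu j)
            rw [abs_le]
            constructor <;> linarith [hM1 j]
          · rw [hwj j hj]
            exact hu j
        have hsum : ∑ j, (w j).natAbs = n := by
          have e1 : ∑ j, (u j).natAbs = (u l).natAbs + ∑ j ∈ Finset.univ.erase l, (u j).natAbs :=
            (Finset.add_sum_erase _ _ (Finset.mem_univ l)).symm
          have e2 : ∑ j, (w j).natAbs = (w l).natAbs + ∑ j ∈ Finset.univ.erase l, (w j).natAbs :=
            (Finset.add_sum_erase _ _ (Finset.mem_univ l)).symm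
          have e3 : ∑ j ∈ Finset.univ.erase l, (w j).natAbs =
              ∑ j ∈ Finset.univ.erase l, (u j).natAbs :=
            Finset.sum_congr rfl fun j hj => by rw [hwj j (Finset.ne_of_mem_erase hj)]
          rw [e2, e3, hwl]
          omega
        have h1 := hadd' w (Pi.single l 1) u hwb (he l) hu (by simp [hw])
        have h2 := ih w hwb hsum
        have h3 : ∑ j, w j * g j = ∑ j, u j * g j - g l := by
          simp only [hw, Pi.sub_apply, sub_mul, Finset.sum_sub_distrib]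
          congr 1
          simp [Pi.single_apply]
        have h4 : V (Pi.single l 1) = g l := rfl
        rw [h2, h3, h4] at h1
        linarith
  refine ⟨g, fun u hu => ?_⟩
  have hVu := hlin _ u hu rfl
  obtain ⟨hu1, hu2⟩ := hP u hu
  refine ⟨?_, fun hz => ?_⟩
  · rw [← hVu]
    exact Finset.sub_mem_sub (Finset.sub_mem_sub (Finset.add_mem_add (hu1 0) (hu1 1)) (hu1 2))
      (hu1 3)
  · rw [← hVu] at hz
    refine hprop u hu ?_
    rw [← hu2]
    exact inj hf h0 (hu1 0) (hu1 1) (hu1 2) (hu1 3) hz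

end Pool.Agent.EMS
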