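import Pool.Agent.EMS.StmtsD

/-!
# TRU: truncation of random certificates (helper76)
-/

set_option autoImplicit false

open Finset
open scoped BigOperators Classical

namespace Pool.Agent.EMS

namespace TRU_

theorem cert_empty {r : ℕ} (U : ℕ → Finset (Fin r → ℤ)) (t : ℕ) : Cert U t ∅ :=
  ⟨Finset.empty_subset _, fun _ hx => absurd hx (Finset.notMem_empty _),
    fun _ hx => absurd hx (Finset.notMem_empty _)⟩

theorem count {r : ℕ} {Ω : Type} [Fintype Ω] (p : Ω → ℝ) (X : Ω → Finset (Fin r → ℤ))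
    (V : Finset (Fin r → ℤ)) (s : ℝ) (hX : ∀ ω, X ω ⊆ V)
    (hs : ∀ x, ∑ ω, (if x ∈ X ω then p ω else 0) ≤ s) :
    ∑ ω, p ω * ((X ω).card : ℝ) ≤ (V.card : ℝ) * s := by
  have h1 : ∀ ω, p ω * ((X ω).card : ℝ) = ∑ x ∈ V, (if x ∈ X ω then p ω else 0) := by
    intro ω
    rw [← Finset.sum_filter, Finset.sum_const, nsmul_eq_mul, mul_comm]
    congr 2
    have h2 : V.filter (fun x => x ∈ X ω) = X ω := by
      ext x
      rw [Finset.mem_filter]
      exact ⟨fun h => h.2, fun h => ⟨hX ω h, h⟩⟩
    rw [h2]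
  rw [Finset.sum_congr rfl fun ω _ => h1 ω, Finset.sum_comm]
  calc ∑ x ∈ V, ∑ ω, (if x ∈ X ω then p ω else 0) ≤ ∑ x ∈ V, s :=
        Finset.sum_le_sum fun x _ => hs x
    _ = (V.card : ℝ) * s := by rw [Finset.sum_const, nsmul_eq_mul]

end TRU_

open TRU_ in
theorem tru_proof : Stmt_TRU := by
  intro r N U J W s b hNT hs hJ hRC
  obtain ⟨Ω, iΩ, p, X, T, hp, hp1, hC, hsp, hW⟩ := hRC
  have hvol : 0 ≤ vol N := Finset.prod_nonneg fun l _ => Nat.cast_nonneg _
  refine ⟨Ω, iΩ, p, fun ω t => if Al N U b t then X ω t else ∅, T, hp, hp1, ?_, ?_, ?_, ?_⟩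
  · intro ω t
    by_cases h : Al N U b t
    · simp only [if_pos h]
      exact hC ω t
    · simp only [if_neg h]
      exact cert_empty U t
  · intro ω t x hx
    by_contra h
    simp only [if_neg h] at hx
    exact absurd hx (Finset.notMem_empty _)
  · intro t x
    by_cases h : Al N U b t
    · simp only [if_pos h]
      exact hsp t x
    · simp only [if_neg h, Finset.notMem_empty, if_false, Finset.sum_const_zero]
      exact hs
  · set S : Finset ℕ := (Finset.range T).filter fun t => ¬ Al N U b t ∧ (U t).Nonempty with hS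
    have hpt : ∀ ω, ∑ t ∈ Finset.range T, ((X ω t).card : ℝ) ≤
        ∑ t ∈ Finset.range T, (((if Al N U b t then X ω t else ∅ : Finset (Fin r → ℤ)).card : ℝ)) +
          ∑ t ∈ S, ((X ω t).card : ℝ) := by
      intro ω
      rw [hS, Finset.sum_filter, ← Finset.sum_add_distrib]
      refine Finset.sum_le_sum fun t _ => ?_
      by_cases h : Al N U b t
      · rw [if_pos h]
        have h2 : ¬ (¬ Al N U b t ∧ (U t).Nonempty) := fun h3 => h3.1 h
        rw [if_neg h2, add_zero]
      · rw [if_neg h]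
        by_cases hU : (U t).Nonempty
        · rw [if_pos ⟨h, hU⟩]
          simp
        · have h3 : X ω t = ∅ := by
            have h4 := (hC ω t).1
            rw [Finset.not_nonempty_iff_eq_empty.mp hU] at h4
            exact Finset.subset_empty.mp h4
          rw [h3]
          simp
    have hcount : ∀ t ∈ S, ∑ ω, p ω * ((X ω t).card : ℝ) ≤ Real.exp (-b) * vol N * s := by
      intro t ht
      have h1 := count p (fun ω => X ω t) (U t) s (fun ω => (hC ω t).1) (fun x => hsp t x)
      refine h1.trans (mul_le_mul_of_nonneg_right ?_ hs)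
      have h2 : ¬ Al N U b t := (Finset.mem_filter.mp ht).2.1
      by_contra h3
      exact h2 ⟨t, le_refl t, (not_le.mp h3).le⟩
    have hloss : ∑ ω, p ω * ∑ t ∈ S, ((X ω t).card : ℝ) ≤ J * (Real.exp (-b) * vol N * s) := by
      have h1 : ∑ ω, p ω * ∑ t ∈ S, ((X ω t).card : ℝ) =
          ∑ t ∈ S, ∑ ω, p ω * ((X ω t).card : ℝ) := by
        rw [Finset.sum_comm]
        exact Finset.sum_congr rfl fun ω _ => Finset.mul_sum _ _ _
      rw [h1]
      calc ∑ t ∈ S, ∑ ω, p ω * ((X ω t).card : ℝ) ≤ ∑ t ∈ S, Real.exp (-b) * vol N * s :=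
            Finset.sum_le_sum hcount
        _ = (S.card : ℝ) * (Real.exp (-b) * vol N * s) := by
            rw [Finset.sum_const, nsmul_eq_mul]
        _ ≤ J * (Real.exp (-b) * vol N * s) := by
            refine mul_le_mul_of_nonneg_right ?_ ?_
            · exact hNT S fun t ht => (Finset.mem_filter.mp ht).2.2
            · exact mul_nonneg (mul_nonneg (Real.exp_pos _).le hvol) hs
    have htot : ∑ ω, p ω * ∑ t ∈ Finset.range T, ((X ω t).card : ℝ) ≤
        ∑ ω, p ω * ∑ t ∈ Finset.range T,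
          (((if Al N U b t then X ω t else ∅ : Finset (Fin r → ℤ)).card : ℝ)) +
          ∑ ω, p ω * ∑ t ∈ S, ((X ω t).card : ℝ) := by
      rw [← Finset.sum_add_distrib]
      refine Finset.sum_le_sum fun ω _ => ?_
      rw [← mul_add]
      exact mul_le_mul_of_nonneg_left (hpt ω) (hp ω)
    have hfin := hW.trans (htot.trans (add_le_add_right hloss _))
    linarith

end Pool.Agent.EMS
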