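import Pool.Agent.EMS.StmtsD

/-!
# EMS, module UNI: union of independent random certificates inside one class
-/

set_option autoImplicit false

open Finset
open scoped BigOperators Classical

namespace Pool.Agent.EMS

namespace UNI_

/-! ### Product probability spaces -/

section prodspace

variable {m : ℕ} (Ω : Fin m → Type) [∀ i, Fintype (Ω i)] (p : ∀ i, Ω i → ℝ)

lemma prod_sum (g : ∀ i, Ω i → ℝ) :
    ∑ ω : ∀ i, Ω i, ∏ i, g i (ω i) = ∏ i, ∑ x, g i x := by
  rw [Finset.prod_univ_sum, Fintype.piFinset_univ]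

lemma total (hp : ∀ i, ∑ x, p i x = 1) : ∑ ω : ∀ i, Ω i, ∏ i, p i (ω i) = 1 := by
  rw [prod_sum]
  exact Finset.prod_eq_one fun i _ => hp i

lemma marg1 (hp : ∀ i, ∑ x, p i x = 1) (i : Fin m) (f : Ω i → ℝ) :
    ∑ ω : ∀ i, Ω i, (∏ j, p j (ω j)) * f (ω i) = ∑ x, p i x * f x := by
  let g : ∀ j, Ω j → ℝ := Function.update (fun _ _ => 1) i f
  have h1 : ∀ ω : ∀ i, Ω i, (∏ j, p j (ω j)) * f (ω i) = ∏ j, (p j (ω j) * g j (ω j)) := by
    intro ω
    rw [Finset.prod_mul_distrib]
    congr 1
    symm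
    rw [Finset.prod_eq_single i]
    · simp [g]
    · intro j _ hj
      simp [g, Function.update_of_ne hj]
    · intro h
      exact absurd (Finset.mem_univ i) h
  rw [Finset.sum_congr rfl (fun ω _ => h1 ω),
    prod_sum Ω (fun j x => p j x * g j x), Finset.prod_eq_single i]
  · simp [g]
  · intro j _ hj
    simp [g, Function.update_of_ne hj, hp]
  · intro h
    exact absurd (Finset.mem_univ i) h

lemma marg2 (hp : ∀ i, ∑ x, p i x = 1) (i j : Fin m) (hij : i ≠ j) (f : Ω i → ℝ)
    (g : Ω j → ℝ) :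
    ∑ ω : ∀ i, Ω i, (∏ k, p k (ω k)) * (f (ω i) * g (ω j)) =
      (∑ x, p i x * f x) * ∑ x, p j x * g x := by
  let q : ∀ k, Ω k → ℝ := Function.update (fun k x => p k x) j (fun x => p j x * g x)
  let G : ∀ k, Ω k → ℝ := Function.update q i (fun x => p i x * f x)
  have h1 : ∀ ω : ∀ i, Ω i, (∏ k, p k (ω k)) * (f (ω i) * g (ω j)) = ∏ k, G k (ω k) := by
    intro ω
    let F1 : Fin m → ℝ := fun k => if k = i then f (ω i) else 1
    let F2 : Fin m → ℝ := fun k => if k = j then g (ω j) else 1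
    have e1 : ∏ k, F1 k = f (ω i) := by simp [F1]
    have e2 : ∏ k, F2 k = g (ω j) := by simp [F2]
    rw [← e1, ← e2, ← Finset.prod_mul_distrib, ← Finset.prod_mul_distrib]
    apply Finset.prod_congr rfl
    intro k _
    by_cases hk : k = i
    · subst hk
      simp [F1, F2, G, hij]
    · by_cases hk' : k = j
      · subst hk'
        simp [F1, F2, G, q, hk]
      · simp [F1, F2, G, q, hk, hk']
  rw [Finset.sum_congr rfl (fun ω _ => h1 ω), prod_sum Ω G]
  let S : Fin m → ℝ := fun k =>
    (if k = i then ∑ x, p i x * f x else 1) * (if k = j then ∑ x, p j x * g x else 1)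
  have h2 : ∀ k, ∑ x, G k x = S k := by
    intro k
    by_cases hk : k = i
    · subst hk
      simp [S, G, hij]
    · by_cases hk' : k = j
      · subst hk'
        simp [S, G, q, hk]
      · simp [S, G, q, hk, hk', hp]
  rw [Finset.prod_congr rfl (fun k _ => h2 k)]
  simp only [S]
  rw [Finset.prod_mul_distrib]
  simp

end prodspace

/-- bad pairs -/
def Bad {r : ℕ} (c : Fin r → Fin 2) (U : ℕ → Finset (Fin r → ℤ)) (t : ℕ)
    (a b : Fin r → ℤ) : Prop := a = b ∨ cz c + a + b ∈ U (t + 1)

lemma bad_count {r : ℕ} (c : Fin r → Fin 2) (U : ℕ → Finset (Fin r → ℤ)) (t : ℕ)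
    (P Q : Finset (Fin r → ℤ)) (u K : ℝ) (hK : 0 ≤ K) (hu : ((U (t + 1)).card : ℝ) ≤ u)
    (h : ∀ y : Fin r → ℤ, (((P ×ˢ Q).filter fun z => z.1 + z.2 = y).card : ℝ) ≤ K) :
    ∑ a ∈ P, ∑ b ∈ Q, (if Bad c U t a b then (1 : ℝ) else 0) ≤ u * K + (Q.card : ℝ) := by
  have h1 : ∑ a ∈ P, ∑ b ∈ Q, (if Bad c U t a b then (1 : ℝ) else 0) ≤
      ∑ a ∈ P, ∑ b ∈ Q, ((if cz c + a + b ∈ U (t + 1) then (1 : ℝ) else 0) +
        (if a = b then (1 : ℝ) else 0)) := by
    apply Finset.sum_le_sum
    intro a _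
    apply Finset.sum_le_sum
    intro b _
    by_cases h1 : a = b
    · have hb : Bad c U t a b := Or.inl h1
      rw [if_pos hb, if_pos h1]
      have : (0 : ℝ) ≤ if cz c + a + b ∈ U (t + 1) then (1 : ℝ) else 0 := by
        split_ifs <;> norm_num
      linarith
    · by_cases h2 : cz c + a + b ∈ U (t + 1)
      · have hb : Bad c U t a b := Or.inr h2
        rw [if_pos hb, if_pos h2, if_neg h1, add_zero]
      · have hb : ¬ Bad c U t a b := fun h => h.elim h1 h2
        rw [if_neg hb, if_neg h2, if_neg h1, add_zero]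
  refine h1.trans ?_
  have h2 : ∑ a ∈ P, ∑ b ∈ Q, ((if cz c + a + b ∈ U (t + 1) then (1 : ℝ) else 0) +
        (if a = b then (1 : ℝ) else 0)) =
      ∑ a ∈ P, ∑ b ∈ Q, (if cz c + a + b ∈ U (t + 1) then (1 : ℝ) else 0) +
      ∑ a ∈ P, ∑ b ∈ Q, (if a = b then (1 : ℝ) else 0) := by
    rw [← Finset.sum_add_distrib]
    apply Finset.sum_congr rfl
    intro a _
    rw [Finset.sum_add_distrib]
  rw [h2]
  apply add_le_add
  · rw [← Finset.sum_product' (f := fun a b => if cz c + a + b ∈ U (t + 1) then (1 : ℝ) else 0)]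
    have h3 : ∑ z ∈ P ×ˢ Q, (if cz c + z.1 + z.2 ∈ U (t + 1) then (1 : ℝ) else 0) ≤
        ∑ z ∈ P ×ˢ Q, ∑ y ∈ U (t + 1), (if z.1 + z.2 = y - cz c then (1 : ℝ) else 0) := by
      apply Finset.sum_le_sum
      intro z _
      split_ifs with hz
      · have e1 : (if z.1 + z.2 = (cz c + z.1 + z.2) - cz c then (1 : ℝ) else 0) = 1 := by
          rw [if_pos]
          abel
        have e2 := Finset.single_le_sum
          (f := fun y => if z.1 + z.2 = y - cz c then (1 : ℝ) else 0)
          (s := U (t + 1)) (fun y _ => by split_ifs <;> norm_num) hz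
        exact (le_of_eq e1.symm).trans e2
      · apply Finset.sum_nonneg
        intro y _
        split_ifs <;> norm_num
    refine h3.trans ?_
    rw [Finset.sum_comm]
    have h4 : ∀ y ∈ U (t + 1),
        ∑ z ∈ P ×ˢ Q, (if z.1 + z.2 = y - cz c then (1 : ℝ) else 0) ≤ K := by
      intro y _
      have := h (y - cz c)
      rw [Finset.card_filter] at this
      push_cast at this
      exact this
    calc ∑ y ∈ U (t + 1), ∑ z ∈ P ×ˢ Q, (if z.1 + z.2 = y - cz c then (1 : ℝ) else 0)
        ≤ ∑ _y ∈ U (t + 1), K := Finset.sum_le_sum h4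
      _ = ((U (t + 1)).card : ℝ) * K := by rw [Finset.sum_const, nsmul_eq_mul]
      _ ≤ u * K := mul_le_mul_of_nonneg_right hu hK
  · rw [Finset.sum_comm]
    calc ∑ b ∈ Q, ∑ a ∈ P, (if a = b then (1 : ℝ) else 0) ≤ ∑ _b ∈ Q, (1 : ℝ) := by
          apply Finset.sum_le_sum
          intro b _
          rw [Finset.sum_ite_eq']
          split_ifs <;> norm_num
      _ = (Q.card : ℝ) := by simp

lemma removed {r m : ℕ} (Y : Fin m → Finset (Fin r → ℤ)) (P : Fin m → Finset (Fin r → ℤ))
    (hY : ∀ i, Y i ⊆ P i) (bad : (Fin r → ℤ) → (Fin r → ℤ) → Prop) (j : Fin m) :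
    ((Y j).card : ℝ) ≤
      (((Y j).filter fun w => ∀ i < j, ∀ a ∈ Y i, ¬ bad a w).card : ℝ) +
      ∑ i ∈ Finset.univ.filter (fun i => i < j), ∑ a ∈ P i, ∑ w ∈ P j,
        (if bad a w then (if a ∈ Y i then (1 : ℝ) else 0) * (if w ∈ Y j then (1 : ℝ) else 0)
          else 0) := by
  have h1 := Finset.card_filter_add_card_filter_not (s := Y j)
    (fun w => ∀ i < j, ∀ a ∈ Y i, ¬ bad a w)
  have h2 : ((Y j).card : ℝ) = (((Y j).filter fun w => ∀ i < j, ∀ a ∈ Y i, ¬ bad a w).card : ℝ) +
      (((Y j).filter fun w => ¬ ∀ i < j, ∀ a ∈ Y i, ¬ bad a w).card : ℝ) := by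
    exact_mod_cast h1.symm
  rw [h2]
  apply add_le_add_right
  have h3 : ∀ i, ∑ a ∈ P i, ∑ w ∈ P j,
        (if bad a w then (if a ∈ Y i then (1 : ℝ) else 0) * (if w ∈ Y j then (1 : ℝ) else 0)
          else 0) = ∑ w ∈ P j, ∑ a ∈ P i,
        (if bad a w then (if a ∈ Y i then (1 : ℝ) else 0) * (if w ∈ Y j then (1 : ℝ) else 0)
          else 0) := fun i => Finset.sum_comm
  rw [Finset.sum_congr rfl (fun i _ => h3 i), Finset.sum_comm]
  have hnn : ∀ (i : Fin m) (a w : Fin r → ℤ), (0 : ℝ) ≤
      (if bad a w then (if a ∈ Y i then (1 : ℝ) else 0) * (if w ∈ Y j then (1 : ℝ) else 0)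
          else 0) := by
    intro i a w
    split_ifs <;> norm_num
  calc (((Y j).filter fun w => ¬ ∀ i < j, ∀ a ∈ Y i, ¬ bad a w).card : ℝ)
      = ∑ _w ∈ (Y j).filter (fun w => ¬ ∀ i < j, ∀ a ∈ Y i, ¬ bad a w), (1 : ℝ) := by simp
    _ ≤ ∑ w ∈ (Y j).filter (fun w => ¬ ∀ i < j, ∀ a ∈ Y i, ¬ bad a w),
          ∑ i ∈ Finset.univ.filter (fun i => i < j), ∑ a ∈ P i,
        (if bad a w then (if a ∈ Y i then (1 : ℝ) else 0) * (if w ∈ Y j then (1 : ℝ) else 0)
          else 0) := by
        apply Finset.sum_le_sum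
        intro w hw
        rw [Finset.mem_filter] at hw
        obtain ⟨hwY, hne⟩ := hw
        push Not at hne
        obtain ⟨i, hij, a, ha, hb⟩ := hne
        have e1 : (1 : ℝ) = (if bad a w then (if a ∈ Y i then (1 : ℝ) else 0) *
            (if w ∈ Y j then (1 : ℝ) else 0) else 0) := by simp [hb, ha, hwY]
        calc (1 : ℝ) = (if bad a w then (if a ∈ Y i then (1 : ℝ) else 0) *
            (if w ∈ Y j then (1 : ℝ) else 0) else 0) := e1
          _ ≤ ∑ a ∈ P i, (if bad a w then (if a ∈ Y i then (1 : ℝ) else 0) *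
            (if w ∈ Y j then (1 : ℝ) else 0) else 0) :=
              Finset.single_le_sum (f := fun a => (if bad a w then
                (if a ∈ Y i then (1 : ℝ) else 0) * (if w ∈ Y j then (1 : ℝ) else 0) else 0))
                (fun a _ => hnn i a w) (hY i ha)
          _ ≤ _ := Finset.single_le_sum (f := fun i => ∑ a ∈ P i, (if bad a w then
                (if a ∈ Y i then (1 : ℝ) else 0) * (if w ∈ Y j then (1 : ℝ) else 0) else 0))
                (fun i _ => Finset.sum_nonneg fun a _ => hnn i a w)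
                (Finset.mem_filter.mpr ⟨Finset.mem_univ i, hij⟩)
    _ ≤ _ := by
        apply Finset.sum_le_sum_of_subset_of_nonneg
        · intro w hw
          exact hY j (Finset.mem_filter.mp hw).1
        · intro w _ _
          exact Finset.sum_nonneg fun i _ => Finset.sum_nonneg fun a _ => hnn i a w

lemma main {r m : ℕ} (τ : ℕ) (N : Fin r → ℕ) (c : Fin r → Fin 2)
    (U : ℕ → Finset (Fin r → ℤ)) (J u Cr σ v0 W : ℝ) (P : Fin m → Finset (Fin r → ℤ))
    (hNT : NT U J) (hu : 0 ≤ u) (hCr : 0 ≤ Cr) (hσ : 0 ≤ σ) (hv0 : 0 < v0)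
    (hU : ∀ t, τ < t → ((U t).card : ℝ) ≤ u) (hP : ∀ i, v0 ≤ ((P i).card : ℝ))
    (hcr : ∀ i j, i < j → ∀ y : Fin r → ℤ,
      ((((P i) ×ˢ (P j)).filter fun z => z.1 + z.2 = y).card : ℝ) ≤
      Cr * ((P i).card : ℝ) * ((P j).card : ℝ))
    (hcert : ∀ t X, Cert (UC N c U) t X →
      (∀ w ∈ X, ∀ w' ∈ X, w ≠ w' → cz c + w + w' ∉ U (t + 1)))
    (hpush : ∀ t X, X ⊆ UC N c U t →
      (∀ w ∈ X, ∀ w' ∈ X, w ≠ w' → cz c + w + w' ∉ U (t + 1)) →
        Cert U t (X.image fun v => cz c + (2 : ℤ) • v) ∧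
        (X.image fun v => cz c + (2 : ℤ) • v).card = X.card)
    (Ω : Fin m → Type) [∀ i, Fintype (Ω i)] (p : ∀ i, Ω i → ℝ)
    (X : ∀ i, Ω i → ℕ → Finset (Fin r → ℤ)) (T : Fin m → ℕ)
    (hp0 : ∀ i ω, 0 ≤ p i ω) (hp1 : ∀ i, ∑ ω, p i ω = 1)
    (hXc : ∀ i ω t, Cert (UC N c U) t (X i ω t))
    (hXP : ∀ i ω t, ∀ x ∈ X i ω t, τ ≤ t ∧ x ∈ P i)
    (hXs : ∀ i t x, ∑ ω, (if x ∈ X i ω t then p i ω else 0) ≤ σ / ((P i).card : ℝ))
    (hXW : ∀ i, W ≤ ∑ ω, p i ω * ∑ t ∈ Finset.range (T i), ((X i ω t).card : ℝ)) :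
    RC U (m * W - (m : ℝ) ^ 2 * J * σ ^ 2 * (u * Cr + 1 / v0)) (m * σ / v0) := by
  have hPpos : ∀ i, (0 : ℝ) < ((P i).card : ℝ) := fun i => lt_of_lt_of_le hv0 (hP i)
  let TT : ℕ := ∑ i, T i
  let Y : (∀ i, Ω i) → ℕ → Fin m → Finset (Fin r → ℤ) := fun ω t i => X i (ω i) t
  let Zf : (∀ i, Ω i) → ℕ → Fin m → Finset (Fin r → ℤ) := fun ω t j =>
    (Y ω t j).filter fun w => ∀ i < j, ∀ a ∈ Y ω t i, ¬ Bad c U t a w
  let V : (∀ i, Ω i) → ℕ → Finset (Fin r → ℤ) := fun ω t =>
    Finset.univ.biUnion fun j => Zf ω t j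
  let q : (∀ i, Ω i) → ℝ := fun ω => ∏ i, p i (ω i)
  have hq0 : ∀ ω, 0 ≤ q ω := fun ω => Finset.prod_nonneg fun i _ => hp0 i _
  have hYP : ∀ ω t i, Y ω t i ⊆ P i := fun ω t i x hx => (hXP i (ω i) t x hx).2
  have hYU : ∀ ω t i, Y ω t i ⊆ UC N c U t := fun ω t i => (hXc i (ω i) t).1
  have hVsub : ∀ ω t, V ω t ⊆ UC N c U t := by
    intro ω t x hx
    simp only [V, Finset.mem_biUnion, Finset.mem_univ, true_and] at hx
    obtain ⟨j, hj⟩ := hx
    exact hYU ω t j (Finset.mem_filter.mp hj).1
  have hVfree : ∀ ω t, ∀ w ∈ V ω t, ∀ w' ∈ V ω t, w ≠ w' → cz c + w + w' ∉ U (t + 1) := by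
    intro ω t w hw w' hw' hne hmem
    simp only [V, Finset.mem_biUnion, Finset.mem_univ, true_and] at hw hw'
    obtain ⟨i, hi⟩ := hw
    obtain ⟨j, hj⟩ := hw'
    have hi' := Finset.mem_filter.mp hi
    have hj' := Finset.mem_filter.mp hj
    rcases lt_trichotomy i j with h | h | h
    · exact hj'.2 i h w hi'.1 (Or.inr hmem)
    · subst h
      exact hcert t _ (hXc i (ω i) t) w hi'.1 w' hj'.1 hne hmem
    · refine hi'.2 j h w' hj'.1 (Or.inr ?_)
      have : cz c + w' + w = cz c + w + w' := by abel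
      rw [this]
      exact hmem
  have hVcard : ∀ ω t, ((V ω t).card : ℝ) = ∑ j, ((Zf ω t j).card : ℝ) := by
    intro ω t
    have : (V ω t).card = ∑ j, (Zf ω t j).card := by
      apply Finset.card_biUnion
      intro i _ j _ hij
      rw [Function.onFun, Finset.disjoint_left]
      intro w hi hj
      have hi' := Finset.mem_filter.mp hi
      have hj' := Finset.mem_filter.mp hj
      rcases lt_or_gt_of_ne hij with h | h
      · exact hj'.2 i h w hi'.1 (Or.inl rfl)
      · exact hi'.2 j h w hj'.1 (Or.inl rfl)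
    rw [this]
    push_cast
    rfl
  -- indicator
  let ind : ∀ i, ℕ → (Fin r → ℤ) → Ω i → ℝ := fun i t x ω => if x ∈ X i ω t then (1 : ℝ) else 0
  have hind : ∀ i t x, ∑ ω, p i ω * ind i t x ω ≤ σ / ((P i).card : ℝ) := by
    intro i t x
    refine le_trans (le_of_eq ?_) (hXs i t x)
    apply Finset.sum_congr rfl
    intro ω _
    simp only [ind]
    split_ifs <;> simp
  have hind0 : ∀ i t x, 0 ≤ ∑ ω, p i ω * ind i t x ω := by
    intro i t x
    apply Finset.sum_nonneg
    intro ω _
    apply mul_nonneg (hp0 i ω)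
    simp only [ind]
    split_ifs <;> norm_num
  -- the loss
  let Bf : (∀ i, Ω i) → ℕ → Fin m → Fin m → ℝ := fun ω t i j => ∑ a ∈ P i, ∑ w ∈ P j,
    (if Bad c U t a w then ind i t a (ω i) * ind j t w (ω j) else 0)
  have hrem : ∀ ω t j, ((Y ω t j).card : ℝ) ≤ ((Zf ω t j).card : ℝ) +
      ∑ i ∈ Finset.univ.filter (fun i => i < j), Bf ω t i j := fun ω t j =>
    removed (Y ω t) P (hYP ω t) (Bad c U t) j
  have hEB : ∀ t i j, i < j → ∑ ω, q ω * Bf ω t i j ≤
      if τ ≤ t ∧ (U t).Nonempty then σ ^ 2 * (u * Cr + 1 / v0) else 0 := by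
    intro t i j hij
    have e1 : ∑ ω, q ω * Bf ω t i j = ∑ a ∈ P i, ∑ w ∈ P j,
        (if Bad c U t a w then (∑ x, p i x * ind i t a x) * (∑ x, p j x * ind j t w x)
          else 0) := by
      have e2 : ∀ ω, q ω * Bf ω t i j = ∑ a ∈ P i, ∑ w ∈ P j,
          (if Bad c U t a w then q ω * (ind i t a (ω i) * ind j t w (ω j)) else 0) := by
        intro ω
        simp only [Bf]
        rw [Finset.mul_sum]
        apply Finset.sum_congr rfl
        intro a _
        rw [Finset.mul_sum]
        apply Finset.sum_congr rfl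
        intro w _
        split_ifs <;> simp
      rw [Finset.sum_congr rfl (fun ω _ => e2 ω), Finset.sum_comm]
      apply Finset.sum_congr rfl
      intro a _
      rw [Finset.sum_comm]
      apply Finset.sum_congr rfl
      intro w _
      split_ifs with hb
      · exact marg2 Ω p hp1 i j hij.ne (ind i t a) (ind j t w)
      · simp
    rw [e1]
    split_ifs with ht
    · have e3 : ∑ a ∈ P i, ∑ w ∈ P j,
          (if Bad c U t a w then (∑ x, p i x * ind i t a x) * (∑ x, p j x * ind j t w x)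
            else 0) ≤ (σ / ((P i).card : ℝ) * (σ / ((P j).card : ℝ))) *
            ∑ a ∈ P i, ∑ w ∈ P j, (if Bad c U t a w then (1 : ℝ) else 0) := by
        rw [Finset.mul_sum]
        apply Finset.sum_le_sum
        intro a _
        rw [Finset.mul_sum]
        apply Finset.sum_le_sum
        intro w _
        split_ifs
        · rw [mul_one]
          exact mul_le_mul (hind i t a) (hind j t w) (hind0 j t w)
            (div_nonneg hσ (hPpos i).le)
        · simp
      refine e3.trans ?_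
      have e4 := bad_count c U t (P i) (P j) u (Cr * ((P i).card : ℝ) * ((P j).card : ℝ))
        (mul_nonneg (mul_nonneg hCr (hPpos i).le) (hPpos j).le)
        (hU (t + 1) (Nat.lt_succ_of_le ht.1)) (hcr i j hij)
      have hPi := hPpos i
      have hPj := hPpos j
      calc (σ / ((P i).card : ℝ) * (σ / ((P j).card : ℝ))) *
            ∑ a ∈ P i, ∑ w ∈ P j, (if Bad c U t a w then (1 : ℝ) else 0)
          ≤ (σ / ((P i).card : ℝ) * (σ / ((P j).card : ℝ))) *
            (u * (Cr * ((P i).card : ℝ) * ((P j).card : ℝ)) + ((P j).card : ℝ)) :=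
            mul_le_mul_of_nonneg_left e4 (by positivity)
        _ = σ ^ 2 * (u * Cr + 1 / ((P i).card : ℝ)) := by
            field_simp
        _ ≤ σ ^ 2 * (u * Cr + 1 / v0) := by
            apply mul_le_mul_of_nonneg_left _ (sq_nonneg σ)
            have := one_div_le_one_div_of_le hv0 (hP i)
            linarith
    · have hz : ∀ a, ∑ x, p i x * ind i t a x = 0 := by
        intro a
        apply Finset.sum_eq_zero
        intro x _
        have : a ∉ X i x t := by
          intro ha
          apply ht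
          refine ⟨(hXP i x t a ha).1, ?_⟩
          have h2 := (hXc i x t).1 ha
          unfold UC at h2
          exact ⟨_, (Finset.mem_filter.mp h2).2⟩
        simp [ind, this]
      apply le_of_eq
      apply Finset.sum_eq_zero
      intro a _
      apply Finset.sum_eq_zero
      intro w _
      rw [hz a, zero_mul, ite_self]
  refine ⟨∀ i, Ω i, inferInstance, q,
    fun ω t => (V ω t).image fun v => cz c + (2 : ℤ) • v, TT, hq0, total Ω p hp1,
    fun ω t => (hpush t _ (hVsub ω t) (hVfree ω t)).1, ?_, ?_⟩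
  · -- spread
    intro t x
    have hms : (0 : ℝ) ≤ m * σ / v0 := by positivity
    by_cases hx : ∃ v, cz c + (2 : ℤ) • v = x
    · obtain ⟨v, rfl⟩ := hx
      have hinj : ∀ w, cz c + (2 : ℤ) • w = cz c + (2 : ℤ) • v → w = v := by
        intro w h
        have h2 : (2 : ℤ) • w = (2 : ℤ) • v := add_left_cancel h
        funext l
        have := congrFun h2 l
        simp only [Pi.smul_apply, smul_eq_mul] at this
        omega
      have hb : ∀ ω, (if cz c + (2 : ℤ) • v ∈ (V ω t).image (fun v => cz c + (2 : ℤ) • v)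
          then q ω else 0) ≤ ∑ i, q ω * ind i t v (ω i) := by
        intro ω
        have hnn : ∀ i ∈ (Finset.univ : Finset (Fin m)), 0 ≤ q ω * ind i t v (ω i) := by
          intro i _
          apply mul_nonneg (hq0 ω)
          simp only [ind]
          split_ifs <;> norm_num
        split_ifs with hmem
        · rw [Finset.mem_image] at hmem
          obtain ⟨w, hw, hwv⟩ := hmem
          have := hinj w hwv
          subst this
          simp only [V, Finset.mem_biUnion, Finset.mem_univ, true_and] at hw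
          obtain ⟨j, hj⟩ := hw
          have hj' := (Finset.mem_filter.mp hj).1
          have e1 : q ω = q ω * ind j t w (ω j) := by
            have : ind j t w (ω j) = 1 := by
              simp only [ind]
              exact if_pos hj'
            rw [this, mul_one]
          calc q ω = q ω * ind j t w (ω j) := e1
            _ ≤ _ := Finset.single_le_sum (f := fun i => q ω * ind i t w (ω i)) hnn
              (Finset.mem_univ j)
        · exact Finset.sum_nonneg hnn
      calc ∑ ω, (if cz c + (2 : ℤ) • v ∈ (V ω t).image (fun v => cz c + (2 : ℤ) • v)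
          then q ω else 0) ≤ ∑ ω, ∑ i, q ω * ind i t v (ω i) :=
            Finset.sum_le_sum fun ω _ => hb ω
        _ = ∑ i, ∑ ω, q ω * ind i t v (ω i) := Finset.sum_comm
        _ = ∑ i, ∑ x, p i x * ind i t v x :=
            Finset.sum_congr rfl fun i _ => marg1 Ω p hp1 i (ind i t v)
        _ ≤ ∑ _i : Fin m, σ / v0 := by
            apply Finset.sum_le_sum
            intro i _
            exact (hind i t v).trans (div_le_div_of_nonneg_left hσ hv0 (hP i))
        _ = m * σ / v0 := by
            rw [Finset.sum_const, Finset.card_univ, Fintype.card_fin, nsmul_eq_mul, mul_div_assoc]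
    · have hz : ∀ ω, (if x ∈ (V ω t).image (fun v => cz c + (2 : ℤ) • v) then q ω else 0) = 0 := by
        intro ω
        rw [if_neg]
        intro hmem
        rw [Finset.mem_image] at hmem
        obtain ⟨w, _, hw⟩ := hmem
        exact hx ⟨w, hw⟩
      rw [Finset.sum_eq_zero (fun ω _ => hz ω)]
      exact hms
  · -- expected size
    have hcardim : ∀ ω t, (((V ω t).image fun v => cz c + (2 : ℤ) • v).card : ℝ) =
        ((V ω t).card : ℝ) := by
      intro ω t
      exact_mod_cast (hpush t _ (hVsub ω t) (hVfree ω t)).2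
    have hlow : ∀ ω, ∑ t ∈ Finset.range TT, ∑ j, ((Y ω t j).card : ℝ) ≤
        ∑ t ∈ Finset.range TT, (((V ω t).image fun v => cz c + (2 : ℤ) • v).card : ℝ) +
        ∑ t ∈ Finset.range TT, ∑ j, ∑ i ∈ Finset.univ.filter (fun i => i < j), Bf ω t i j := by
      intro ω
      rw [← Finset.sum_add_distrib]
      apply Finset.sum_le_sum
      intro t _
      rw [hcardim, hVcard, ← Finset.sum_add_distrib]
      exact Finset.sum_le_sum fun j _ => hrem ω t j
    have hmain : ∑ ω, q ω * ∑ t ∈ Finset.range TT, ∑ j, ((Y ω t j).card : ℝ) ≤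
        ∑ ω, q ω * ∑ t ∈ Finset.range TT,
          (((V ω t).image fun v => cz c + (2 : ℤ) • v).card : ℝ) +
        ∑ ω, q ω * ∑ t ∈ Finset.range TT, ∑ j, ∑ i ∈ Finset.univ.filter (fun i => i < j),
          Bf ω t i j := by
      rw [← Finset.sum_add_distrib]
      apply Finset.sum_le_sum
      intro ω _
      rw [← mul_add]
      exact mul_le_mul_of_nonneg_left (hlow ω) (hq0 ω)
    have hfirst : m * W ≤ ∑ ω, q ω * ∑ t ∈ Finset.range TT, ∑ j, ((Y ω t j).card : ℝ) := by
      have e1 : ∑ ω, q ω * ∑ t ∈ Finset.range TT, ∑ j, ((Y ω t j).card : ℝ) =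
          ∑ j, ∑ x, p j x * ∑ t ∈ Finset.range TT, ((X j x t).card : ℝ) := by
        have e2 : ∀ ω, q ω * ∑ t ∈ Finset.range TT, ∑ j, ((Y ω t j).card : ℝ) =
            ∑ j, q ω * ∑ t ∈ Finset.range TT, ((X j (ω j) t).card : ℝ) := by
          intro ω
          rw [Finset.sum_comm, Finset.mul_sum]
        rw [Finset.sum_congr rfl (fun ω _ => e2 ω), Finset.sum_comm]
        apply Finset.sum_congr rfl
        intro j _
        exact marg1 Ω p hp1 j (fun x => ∑ t ∈ Finset.range TT, ((X j x t).card : ℝ))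
      rw [e1]
      have e3 : ∀ j, W ≤ ∑ x, p j x * ∑ t ∈ Finset.range TT, ((X j x t).card : ℝ) := by
        intro j
        refine (hXW j).trans ?_
        apply Finset.sum_le_sum
        intro x _
        apply mul_le_mul_of_nonneg_left _ (hp0 j x)
        apply Finset.sum_le_sum_of_subset_of_nonneg
        · apply Finset.range_mono
          exact Finset.single_le_sum (f := T) (fun i _ => Nat.zero_le _) (Finset.mem_univ j)
        · intro t _ _
          positivity
      calc (m : ℝ) * W = ∑ _j : Fin m, W := by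
            rw [Finset.sum_const, Finset.card_univ, Fintype.card_fin, nsmul_eq_mul]
        _ ≤ _ := Finset.sum_le_sum fun j _ => e3 j
    have hJ0 : 0 ≤ J := by
      have := hNT ∅ (by simp)
      simpa using this
    have hloss : ∑ ω, q ω * ∑ t ∈ Finset.range TT, ∑ j,
        ∑ i ∈ Finset.univ.filter (fun i => i < j), Bf ω t i j ≤
        (m : ℝ) ^ 2 * J * σ ^ 2 * (u * Cr + 1 / v0) := by
      have e1 : ∑ ω, q ω * ∑ t ∈ Finset.range TT, ∑ j,
          ∑ i ∈ Finset.univ.filter (fun i => i < j), Bf ω t i j =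
          ∑ t ∈ Finset.range TT, ∑ j, ∑ i ∈ Finset.univ.filter (fun i => i < j),
            ∑ ω, q ω * Bf ω t i j := by
        have e2 : ∀ ω, q ω * ∑ t ∈ Finset.range TT, ∑ j,
            ∑ i ∈ Finset.univ.filter (fun i => i < j), Bf ω t i j =
            ∑ t ∈ Finset.range TT, ∑ j, ∑ i ∈ Finset.univ.filter (fun i => i < j),
              q ω * Bf ω t i j := by
          intro ω
          rw [Finset.mul_sum]
          apply Finset.sum_congr rfl
          intro t _
          rw [Finset.mul_sum]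
          apply Finset.sum_congr rfl
          intro j _
          rw [Finset.mul_sum]
        rw [Finset.sum_congr rfl (fun ω _ => e2 ω), Finset.sum_comm]
        apply Finset.sum_congr rfl
        intro t _
        rw [Finset.sum_comm]
        apply Finset.sum_congr rfl
        intro j _
        rw [Finset.sum_comm]
      rw [e1]
      set L := σ ^ 2 * (u * Cr + 1 / v0) with hL
      have hL0 : 0 ≤ L := by positivity
      have hstep : ∀ t, ∑ j, ∑ i ∈ Finset.univ.filter (fun i => i < j), ∑ ω, q ω * Bf ω t i j ≤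
          if τ ≤ t ∧ (U t).Nonempty then (m : ℝ) ^ 2 * L else 0 := by
        intro t
        have e3 : ∀ j : Fin m, ∑ i ∈ Finset.univ.filter (fun i => i < j),
            ∑ ω, q ω * Bf ω t i j ≤ m * (if τ ≤ t ∧ (U t).Nonempty then L else 0) := by
          intro j
          have hnn : 0 ≤ (if τ ≤ t ∧ (U t).Nonempty then L else 0) := by
            split_ifs <;> simp [hL0]
          calc ∑ i ∈ Finset.univ.filter (fun i => i < j), ∑ ω, q ω * Bf ω t i j
              ≤ ∑ _i ∈ Finset.univ.filter (fun i : Fin m => i < j),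
                (if τ ≤ t ∧ (U t).Nonempty then L else 0) :=
                Finset.sum_le_sum fun i hi => hEB t i j (Finset.mem_filter.mp hi).2
            _ = ((Finset.univ.filter (fun i : Fin m => i < j)).card : ℝ) *
                (if τ ≤ t ∧ (U t).Nonempty then L else 0) := by
                rw [Finset.sum_const, nsmul_eq_mul]
            _ ≤ m * (if τ ≤ t ∧ (U t).Nonempty then L else 0) := by
                apply mul_le_mul_of_nonneg_right _ hnn
                have := Finset.card_le_univ (Finset.univ.filter (fun i : Fin m => i < j))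
                rw [Fintype.card_fin] at this
                exact_mod_cast this
        calc ∑ j, ∑ i ∈ Finset.univ.filter (fun i => i < j), ∑ ω, q ω * Bf ω t i j
            ≤ ∑ _j : Fin m, m * (if τ ≤ t ∧ (U t).Nonempty then L else 0) :=
              Finset.sum_le_sum fun j _ => e3 j
          _ = if τ ≤ t ∧ (U t).Nonempty then (m : ℝ) ^ 2 * L else 0 := by
              rw [Finset.sum_const, Finset.card_univ, Fintype.card_fin, nsmul_eq_mul]
              split_ifs
              · ring
              · ring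
      calc ∑ t ∈ Finset.range TT, ∑ j, ∑ i ∈ Finset.univ.filter (fun i => i < j),
            ∑ ω, q ω * Bf ω t i j
          ≤ ∑ t ∈ Finset.range TT, (if τ ≤ t ∧ (U t).Nonempty then (m : ℝ) ^ 2 * L else 0) :=
            Finset.sum_le_sum fun t _ => hstep t
        _ = (((Finset.range TT).filter (fun t => τ ≤ t ∧ (U t).Nonempty)).card : ℝ) *
              ((m : ℝ) ^ 2 * L) := by
            rw [← Finset.sum_filter, Finset.sum_const, nsmul_eq_mul]
        _ ≤ J * ((m : ℝ) ^ 2 * L) := by
            apply mul_le_mul_of_nonneg_right _ (by positivity)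
            apply hNT
            intro t ht
            exact (Finset.mem_filter.mp ht).2.2
        _ = (m : ℝ) ^ 2 * J * σ ^ 2 * (u * Cr + 1 / v0) := by
            rw [hL]
            ring
    linarith

end UNI_

theorem uni_proof (h1 : Stmt_CLS) : Stmt_UNI := by
  intro r κ m τ N c U J u Cr σ v0 W P hch hN hNT hJ hu hCr hσ hv0 hU hP hR hcr
  obtain ⟨hcls, -, -⟩ := h1 r κ N U hch hN
  obtain ⟨-, -, -, -, -, hcert, hpush⟩ := hcls c
  choose Ω iΩ p X T hp0 hp1 hXc hXP hXs hXW using hR
  exact UNI_.main τ N c U J u Cr σ v0 W P hNT hu hCr hσ hv0 hU hP hcr hcert hpush Ω p X T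
    hp0 hp1 hXc hXP hXs hXW

end Pool.Agent.EMS
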