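import Pool.Agent.EMS.StmtsD

/-!
# EMS, module WNI (helper49): configurations of length `m`, or narrow
-/

set_option autoImplicit false

open Finset
open scoped BigOperators Classical

namespace Pool.Agent.EMS

namespace WNI_

/-- the trivial progression `(id, N)` -/
noncomputable def triv {r : ℕ} (N : Fin r → ℕ) (hN : ∀ l, 1 ≤ N l) : SG r where
  d := r
  φ := LinearMap.id
  M := N
  pos := hN
  proper := fun _ _ h => h

theorem triv_sy {r : ℕ} (N : Fin r → ℕ) (hN : ∀ l, 1 ≤ N l) :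
    (triv N hN).sy 0 ⊆ sbox N := by
  intro x hx
  unfold SG.sy at hx
  rw [Finset.mem_image] at hx
  obtain ⟨u, hu, rfl⟩ := hx
  have : (0 : Fin r → ℤ) + (triv N hN).φ u = u := by
    rw [zero_add]; rfl
  rw [this]
  exact hu

theorem triv_sv {r : ℕ} (N : Fin r → ℕ) (hN : ∀ l, 1 ≤ N l) :
    vol N ≤ (triv N hN).sv := by
  unfold vol SG.sv
  apply Finset.prod_le_prod
  · intro l _
    positivity
  · intro l _
    show (N l : ℝ) ≤ 2 * (N l : ℝ) + 1
    have : (0 : ℝ) ≤ N l := Nat.cast_nonneg _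
    linarith

theorem sv_pos {r : ℕ} (T : SG r) : 0 < T.sv := by
  unfold SG.sv
  exact Finset.prod_pos (fun l _ => by positivity)

theorem v_nonneg {r : ℕ} (T : SG r) : 0 ≤ T.v := by
  unfold SG.v
  exact Finset.prod_nonneg (fun l _ => by positivity)

/-- the state after `j` steps -/
def St (r κ τ Z : ℕ) (N : Fin r → ℕ) (V : ℕ → Finset (Fin r → ℤ)) (β ξ : ℝ) (j : ℕ) : Prop :=
  ∃ (Q : ℕ → SG r) (c : ℕ → (Fin r → ℤ)) (t : ℕ → ℕ) (T : SG r),
    T.sy 0 ⊆ sbox N ∧ T.d ≤ r + j * rho0 κ ∧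
    Real.exp (-(j * (β + 2 * ξ + 2 * Z + 3 * (Z : ℝ) ^ 35))) * vol N ≤ T.sv ∧
    (∀ i, i < j → T.sy 0 ⊆ (Q i).q 1 0) ∧
    (∀ i, i < j → τ ≤ t i ∧ (Q i).d ≤ r + rho0 κ ∧
      Real.exp (-((Z : ℝ) ^ 35)) * (Q i).v ≤ ((V (t i) ∩ (Q i).bx (c i)).card : ℝ) ∧
      Real.exp (-(β + 2 * ξ + 2 * Z + (Z : ℝ) ^ 35)) * vol N ≤ (Q i).v) ∧
    ∀ i i', i < i' → i' < j → ∀ y : Fin r → ℤ,
      (((((Q i).bx (c i)) ×ˢ ((Q i').bx (c i'))).filter fun z => z.1 + z.2 = y).card : ℝ) *
          vol N ≤
        Real.exp (β / 2 + ξ + 3 * Z + (Z : ℝ) ^ 35) * (Q i).v * (Q i').v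

theorem two_pow_le (Z d : ℕ) (h : d ≤ 2 * Z) : (2 : ℝ) ^ d ≤ Real.exp (2 * Z) := by
  have h1 : (2 : ℝ) ≤ Real.exp 1 := by
    have := Real.add_one_le_exp (1 : ℝ)
    linarith
  calc (2 : ℝ) ^ d ≤ 2 ^ (2 * Z) := pow_le_pow_right₀ (by norm_num) h
    _ ≤ (Real.exp 1) ^ (2 * Z) := pow_le_pow_left₀ (by norm_num) h1 _
    _ = Real.exp (2 * Z) := by
        rw [← Real.exp_nat_mul]
        congr 1
        push_cast
        ring

/-- the cross bound -/
theorem cross (hC : Stmt_CRS) (r Z : ℕ) (Qi Qn T : SG r) (ci cn : Fin r → ℤ) (vN a : ℝ)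
    (hvN : 0 < vN) (hd : Qi.d ≤ 2 * Z) (hsub : T.sy 0 ⊆ Qi.q 1 0)
    (hK : ∀ y : Fin r → ℤ, (((Qn.bx cn).filter fun w => w - y ∈ T.sy 0).card : ℝ) * vN ≤
      Real.exp a * T.sv * Qn.v) (y : Fin r → ℤ) :
    ((((Qi.bx ci) ×ˢ (Qn.bx cn)).filter fun z => z.1 + z.2 = y).card : ℝ) * vN ≤
      Real.exp (a + 2 * Z) * Qi.v * Qn.v := by
  have hT := sv_pos T
  have hv := v_nonneg Qi
  have hvn := v_nonneg Qn
  set K : ℝ := Real.exp a * T.sv * Qn.v / vN with hKdef
  have hK0 : 0 ≤ K := by positivity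
  have h1 := hC r Qi T ci (Qn.bx cn) K hK0 hsub (fun y => by
    rw [hKdef, le_div_iff₀ hvN]; exact hK y) y
  set c : ℝ := ((((Qi.bx ci) ×ˢ (Qn.bx cn)).filter fun z => z.1 + z.2 = y).card : ℝ) with hc
  have h2 : (c * vN) * T.sv ≤ (Real.exp (a + 2 * Z) * Qi.v * Qn.v) * T.sv := by
    calc (c * vN) * T.sv = (c * T.sv) * vN := by ring
      _ ≤ (2 ^ Qi.d * Qi.v * K) * vN := mul_le_mul_of_nonneg_right h1 hvN.le
      _ = 2 ^ Qi.d * (Qi.v * (Real.exp a * T.sv * Qn.v)) := by
          rw [hKdef]; field_simp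
      _ ≤ Real.exp (2 * Z) * (Qi.v * (Real.exp a * T.sv * Qn.v)) :=
          mul_le_mul_of_nonneg_right (two_pow_le Z Qi.d hd) (by positivity)
      _ = (Real.exp (a + 2 * Z) * Qi.v * Qn.v) * T.sv := by
          rw [Real.exp_add]; ring
  exact le_of_mul_le_mul_right h2 hT

end WNI_

open WNI_ in
theorem wni_proof (h1 : Stmt_CFG) (h2 : Stmt_CRS) : Stmt_WNI := by
  obtain ⟨Z0, h1⟩ := h1
  refine ⟨Z0, ?_⟩
  intro Z hZ r κ τ m N V β ξ hrm hκ hlog hrho hch hNT hN hvol hβ hξ hbig
  have hvpos : 0 < vol N := lt_of_lt_of_le (Real.exp_pos _) hbig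
  have hL : (0 : ℝ) ≤ β + 2 * ξ + 2 * Z + 3 * (Z : ℝ) ^ 35 := by positivity
  have hrZ : r ≤ Z := le_trans (Nat.le_add_right _ _) hrm
  by_cases hA : ∃ T : SG r, T.d ≤ r + m * rho0 κ ∧ T.sy 0 ⊆ sbox N ∧
      Real.exp (-(m * (β + 2 * ξ + 2 * Z + 3 * (Z : ℝ) ^ 35))) * vol N ≤ T.sv ∧
      (((ebox N).filter fun y => ∃ t, τ ≤ t ∧
        Real.exp (-β) * T.sv ≤ ((V t ∩ T.sy y).card : ℝ)).card : ℝ) ≤ Real.exp (-ξ) * vol N
  · exact Or.inl hA
  · right
    have key : ∀ j, j ≤ m → St r κ τ Z N V β ξ j := by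
      intro j
      induction j with
      | zero =>
        intro _
        refine ⟨fun _ => triv N hN, fun _ => 0, fun _ => 0, triv N hN, triv_sy N hN, ?_, ?_, ?_,
          ?_, ?_⟩
        · show r ≤ _
          omega
        · have : (-(((0 : ℕ) : ℝ) * (β + 2 * ξ + 2 * Z + 3 * (Z : ℝ) ^ 35))) = 0 := by
            push_cast; ring
          rw [this, Real.exp_zero, one_mul]
          exact triv_sv N hN
        · intro i hi; omega
        · intro i hi; omega
        · intro i i' _ hi'; omega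
      | succ j ih =>
        intro hj
        obtain ⟨Q, c, t, T, hs, hd, hsv, hq, hpr, hcr⟩ := ih (by omega)
        have hjm : j * rho0 κ ≤ m * rho0 κ := Nat.mul_le_mul_right _ (by omega)
        have hTd : T.d ≤ Z := by omega
        -- the count for `T` is large
        have hbigc : Real.exp (-ξ) * vol N ≤
            (((ebox N).filter fun y => ∃ t, τ ≤ t ∧
              Real.exp (-β) * T.sv ≤ ((V t ∩ T.sy y).card : ℝ)).card : ℝ) := by
          by_contra hcon
          rw [not_le] at hcon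
          apply hA
          refine ⟨T, by omega, hs, ?_, hcon.le⟩
          refine le_trans (mul_le_mul_of_nonneg_right (Real.exp_le_exp.mpr ?_) hvpos.le) hsv
          apply neg_le_neg
          apply mul_le_mul_of_nonneg_right _ hL
          exact_mod_cast (by omega : j ≤ m)
        obtain ⟨tn, Qn, cn, T', e1, e2, e3, e4, e5, e6, e7, e8, e9⟩ :=
          h1 Z hZ r κ τ N V T β ξ hrZ hTd hκ hlog hrho hch hNT hN hvol hs hβ hξ hbig hbigc
        refine ⟨Function.update Q j Qn, Function.update c j cn, Function.update t j tn, T',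
          e6.trans hs, ?_, ?_, ?_, ?_, ?_⟩
        · have : (j + 1) * rho0 κ = j * rho0 κ + rho0 κ := by ring
          omega
        · refine le_trans ?_ e9
          have : (-(((j + 1 : ℕ) : ℝ) * (β + 2 * ξ + 2 * Z + 3 * (Z : ℝ) ^ 35))) =
              -(β + 2 * ξ + 2 * Z + 3 * (Z : ℝ) ^ 35) +
                (-(j * (β + 2 * ξ + 2 * Z + 3 * (Z : ℝ) ^ 35))) := by
            push_cast; ring
          rw [this, Real.exp_add, mul_assoc]
          exact mul_le_mul_of_nonneg_left hsv (Real.exp_pos _).le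
        · intro i hi
          by_cases hij : i = j
          · rw [hij, Function.update_self]; exact e7
          · rw [Function.update_of_ne hij]
            exact e6.trans (hq i (by omega))
        · intro i hi
          by_cases hij : i = j
          · rw [hij, Function.update_self, Function.update_self, Function.update_self]
            exact ⟨e1, e2, e3, e4⟩
          · rw [Function.update_of_ne hij, Function.update_of_ne hij, Function.update_of_ne hij]
            exact hpr i (by omega)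
        · intro i i' hii hi' y
          have hij : i ≠ j := by omega
          rw [Function.update_of_ne hij, Function.update_of_ne hij]
          by_cases hij' : i' = j
          · rw [hij', Function.update_self, Function.update_self]
            have hi : i < j := by omega
            have hd2 : (Q i).d ≤ 2 * Z := by
              have := (hpr i hi).2.1
              omega
            have := cross h2 r Z (Q i) Qn T (c i) cn (vol N)
              (β / 2 + ξ + Z + (Z : ℝ) ^ 35) hvpos hd2 (hq i hi) e5 y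
            have e : β / 2 + ξ + Z + (Z : ℝ) ^ 35 + 2 * Z = β / 2 + ξ + 3 * Z + (Z : ℝ) ^ 35 := by
              ring
            rw [e] at this
            exact this
          · rw [Function.update_of_ne hij', Function.update_of_ne hij']
            exact hcr i i' hii (by omega) y
    obtain ⟨Q, c, t, T, -, -, -, -, hpr, hcr⟩ := key m le_rfl
    refine ⟨fun i => Q i, fun i => c i, fun i => t i, fun i => hpr i i.2, ?_⟩
    intro i j hij y
    exact hcr i j hij j.2 y

end Pool.Agent.EMS
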