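import Pool.Agent.EMS.StmtsD

set_option autoImplicit false

open Finset
open scoped BigOperators Classical

namespace Pool.Agent.EMS

namespace WNL_

theorem nums (x : ℝ) (hx : 100 ≤ x) :
    100 * x ≤ x ^ 35 ∧ 100 * x ^ 35 ≤ x ^ 36 ∧ 100 * x ^ 36 ≤ x ^ 37 ∧
      100 * x ^ 37 ≤ x ^ 38 := by
  have h1 : (1 : ℝ) ≤ x := by linarith
  have h34 : x ^ 1 ≤ x ^ 34 := pow_le_pow_right₀ h1 (by norm_num)
  rw [pow_one] at h34
  have p35 : 0 < x ^ 35 := by positivity
  have p36 : 0 < x ^ 36 := by positivity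
  have p37 : 0 < x ^ 37 := by positivity
  refine ⟨?_, ?_, ?_, ?_⟩
  · rw [pow_succ x 34]
    exact mul_le_mul_of_nonneg_right (by linarith) (by linarith)
  · rw [pow_succ x 35, mul_comm (x ^ 35) x]
    exact mul_le_mul_of_nonneg_right hx p35.le
  · rw [pow_succ x 36, mul_comm (x ^ 36) x]
    exact mul_le_mul_of_nonneg_right hx p36.le
  · rw [pow_succ x 37, mul_comm (x ^ 37) x]
    exact mul_le_mul_of_nonneg_right hx p37.le

theorem rc_rcx {r : ℕ} {U : ℕ → Finset (Fin r → ℤ)} {W s : ℝ} (h : RC U W s) :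
    RCX U W s fun _ _ => True := by
  obtain ⟨Ω, hΩ, p, X, T, h1, h2, h3, h4, h5⟩ := h
  exact ⟨Ω, hΩ, p, X, T, h1, h2, h3, fun _ _ _ _ => trivial, h4, h5⟩

theorem rcx_mono {r : ℕ} {U : ℕ → Finset (Fin r → ℤ)} {W s : ℝ}
    {P P' : ℕ → (Fin r → ℤ) → Prop} (h : RCX U W s P) (hP : ∀ t x, P t x → P' t x) :
    RCX U W s P' := by
  obtain ⟨Ω, hΩ, p, X, T, h1, h2, h3, h4, h5, h6⟩ := h
  exact ⟨Ω, hΩ, p, X, T, h1, h2, h3, fun ω t x hx => hP t x (h4 ω t x hx), h5, h6⟩

theorem rc_mono {r : ℕ} {U : ℕ → Finset (Fin r → ℤ)} {W W' s s' : ℝ} (h : RC U W s)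
    (hW : W' ≤ W) (hs : s ≤ s') : RC U W' s' := by
  obtain ⟨Ω, hΩ, p, X, T, h1, h2, h3, h4, h5⟩ := h
  exact ⟨Ω, hΩ, p, X, T, h1, h2, h3, fun t x => (h4 t x).trans hs, hW.trans h5⟩

theorem box_card {r : ℕ} (N : Fin r → ℕ) : ((box N).card : ℝ) = vol N := by
  unfold box vol
  rw [Fintype.card_piFinset]
  push_cast
  refine Finset.prod_congr rfl fun l _ => ?_
  rw [Int.card_Ico]
  simp

theorem vol_pos {r : ℕ} (N : Fin r → ℕ) (h : ∀ l, 1 ≤ N l) : 0 < vol N := by
  unfold vol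
  refine Finset.prod_pos fun l _ => ?_
  have := h l
  positivity

theorem three_pow (r Z : ℕ) (h : r ≤ Z) : (3 : ℝ) ^ r ≤ Real.exp (2 * Z) := by
  have h1 : (3 : ℝ) ≤ Real.exp 2 := by
    have := Real.add_one_le_exp (2 : ℝ)
    linarith
  calc (3 : ℝ) ^ r ≤ (Real.exp 2) ^ r := pow_le_pow_left₀ (by norm_num) h1 r
    _ = Real.exp (r * 2) := (Real.exp_nat_mul 2 r).symm
    _ ≤ Real.exp (2 * Z) := by
        apply Real.exp_le_exp.mpr
        have : (r : ℝ) ≤ Z := by exact_mod_cast h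
        linarith

/-- support bound -/
theorem num2 (m θ GGv E L VN x : ℝ) (hL : 0 < L) (hVN : 0 < VN) (hm : m ≤ Real.exp x)
    (h : VN ≤ Real.exp (2 * x) * L) (hE : 3 * x ≤ GGv - E) :
    m * Real.exp θ / (Real.exp (-E) * L) ≤ Real.exp (θ + GGv) / VN := by
  rw [div_le_div_iff₀ (by positivity) hVN]
  calc m * Real.exp θ * VN ≤ Real.exp x * Real.exp θ * (Real.exp (2 * x) * L) := by
        have h1 : m * Real.exp θ ≤ Real.exp x * Real.exp θ :=
          mul_le_mul_of_nonneg_right hm (Real.exp_pos _).le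
        exact mul_le_mul h1 h hVN.le (by positivity)
    _ = Real.exp (x + θ + 2 * x) * L := by
        rw [Real.exp_add, Real.exp_add]
        ring
    _ ≤ Real.exp (θ + GGv + -E) * L := by
        apply mul_le_mul_of_nonneg_right _ hL.le
        apply Real.exp_le_exp.mpr
        linarith
    _ = Real.exp (θ + GGv) * (Real.exp (-E) * L) := by
        rw [Real.exp_add (θ + GGv)]
        ring

/-- loss bound -/
theorem num1 (m θ E F bbv HHv L VN x : ℝ) (hL : 0 < L) (hVN : 0 < VN) (hm0 : 0 ≤ m)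
    (hm : m ≤ Real.exp x) (hx : 1 ≤ x)
    (h : VN ≤ Real.exp (2 * x) * L) (hV : Real.exp HHv ≤ VN)
    (h1 : 3 * x + 2 * θ - bbv + F + 2 * x ≤ -(2 * x))
    (h2 : 3 * x + 2 * θ + E + 2 * x - HHv ≤ -(2 * x)) :
    m ^ 2 * Real.exp x * (Real.exp θ) ^ 2 *
      (Real.exp (-bbv) * VN * (Real.exp F / L) + 1 / (Real.exp (-E) * L)) ≤ Real.exp (-x) := by
  have a1 : Real.exp (-bbv) * VN * (Real.exp F / L) ≤ Real.exp (-bbv + 2 * x + F) := by
    have : VN / L ≤ Real.exp (2 * x) := by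
      rw [div_le_iff₀ hL]
      exact h
    calc Real.exp (-bbv) * VN * (Real.exp F / L) = Real.exp (-bbv) * (VN / L) * Real.exp F := by
          field_simp
      _ ≤ Real.exp (-bbv) * Real.exp (2 * x) * Real.exp F := by gcongr
      _ = Real.exp (-bbv + 2 * x + F) := by rw [Real.exp_add, Real.exp_add]
  have a2 : 1 / (Real.exp (-E) * L) ≤ Real.exp (E + 2 * x - HHv) := by
    rw [div_le_iff₀ (by positivity)]
    have h3 : Real.exp HHv ≤ Real.exp (2 * x) * L := hV.trans h
    have h4 : 1 = Real.exp (-HHv) * Real.exp HHv := by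
      rw [← Real.exp_add]
      simp
    calc (1 : ℝ) = Real.exp (-HHv) * Real.exp HHv := h4
      _ ≤ Real.exp (-HHv) * (Real.exp (2 * x) * L) := by gcongr
      _ = Real.exp (E + 2 * x - HHv) * (Real.exp (-E) * L) := by
          have : Real.exp (E + 2 * x - HHv) =
              Real.exp E * Real.exp (2 * x) * Real.exp (-HHv) := by
            rw [← Real.exp_add, ← Real.exp_add]
            ring_nf
          rw [this]
          have h5 : Real.exp E * Real.exp (-E) = 1 := by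
            rw [← Real.exp_add]
            simp
          calc Real.exp (-HHv) * (Real.exp (2 * x) * L)
              = 1 * (Real.exp (-HHv) * (Real.exp (2 * x) * L)) := by ring
            _ = (Real.exp E * Real.exp (-E)) * (Real.exp (-HHv) * (Real.exp (2 * x) * L)) := by
                rw [h5]
            _ = _ := by ring
  have a3 : m ^ 2 * Real.exp x * (Real.exp θ) ^ 2 ≤ Real.exp (3 * x + 2 * θ) := by
    have h5 : m ^ 2 ≤ (Real.exp x) ^ 2 := pow_le_pow_left₀ hm0 hm 2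
    calc m ^ 2 * Real.exp x * (Real.exp θ) ^ 2
        ≤ (Real.exp x) ^ 2 * Real.exp x * (Real.exp θ) ^ 2 := by gcongr
      _ = Real.exp (3 * x + 2 * θ) := by
          rw [← Real.exp_nat_mul, ← Real.exp_nat_mul, ← Real.exp_add, ← Real.exp_add]
          congr 1
          push_cast
          ring
  have a4 : (0 : ℝ) ≤ Real.exp (-bbv) * VN * (Real.exp F / L) + 1 / (Real.exp (-E) * L) := by
    positivity
  calc m ^ 2 * Real.exp x * (Real.exp θ) ^ 2 *
        (Real.exp (-bbv) * VN * (Real.exp F / L) + 1 / (Real.exp (-E) * L))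
      ≤ Real.exp (3 * x + 2 * θ) * (Real.exp (-bbv + 2 * x + F) + Real.exp (E + 2 * x - HHv)) :=
        mul_le_mul a3 (add_le_add a1 a2) a4 (Real.exp_pos _).le
    _ = Real.exp (3 * x + 2 * θ + (-bbv + 2 * x + F)) +
        Real.exp (3 * x + 2 * θ + (E + 2 * x - HHv)) := by
        rw [mul_add, ← Real.exp_add, ← Real.exp_add]
    _ ≤ Real.exp (-(2 * x)) + Real.exp (-(2 * x)) := by
        apply add_le_add <;> apply Real.exp_le_exp.mpr <;> linarith
    _ = 2 * Real.exp (-(2 * x)) := by ring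
    _ ≤ Real.exp x * Real.exp (-(2 * x)) := by
        apply mul_le_mul_of_nonneg_right _ (Real.exp_pos _).le
        have := Real.add_one_le_exp x
        linarith
    _ = Real.exp (-x) := by
        rw [← Real.exp_add]
        congr 1
        ring

end WNL_

open WNL_ in
theorem wnl_proof (h1 : Stmt_WNI) (h2 : Stmt_UNI) (h3 : Stmt_PUL) (h4 : Stmt_CLS) : Stmt_WNL := by
  obtain ⟨Z1, hZ1⟩ := h1
  refine ⟨max Z1 100, ?_⟩
  intro Z hZ κ m R W θ lo hi hPI hθ hlo hhi hm1 hmZ hκ2 hκZ hρZ r τ N c U hrR hrZ hN hNc hch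
    hNT hU hvlo hvhi
  have hZ100 : 100 ≤ Z := le_trans (le_max_right _ _) hZ
  have hZZ1 : Z1 ≤ Z := le_trans (le_max_left _ _) hZ
  have hx : (100 : ℝ) ≤ (Z : ℝ) := by exact_mod_cast hZ100
  obtain ⟨n35, n36, n37, n38⟩ := nums (Z : ℝ) hx
  have hr : r ≤ Z := by omega
  obtain ⟨hcls, -, -⟩ := h4 r κ N U hch hN
  obtain ⟨hchc, hNTc, -, hvol3, hvolle, -, -⟩ := hcls c
  have hVN := vol_pos N hN
  have hL := vol_pos (Nc N c) hNc
  have h3r := three_pow r Z hr
  have hVL : vol N ≤ Real.exp (2 * Z) * vol (Nc N c) :=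
    (hvol3 hNc).trans (mul_le_mul_of_nonneg_right h3r hL.le)
  have hmr : (m : ℝ) ≤ Real.exp Z := by
    have a1 : (m : ℝ) ≤ Z := by exact_mod_cast hmZ
    have a2 := Real.add_one_le_exp (Z : ℝ)
    linarith
  have hθ0 : 0 ≤ θ := by linarith
  have hLlow : Real.exp (lo + HH Z θ - 2 * Z) ≤ vol (Nc N c) := by
    have a1 : Real.exp (lo + HH Z θ) ≤ Real.exp (2 * Z) * vol (Nc N c) := hvlo.trans hVL
    have a2 : Real.exp (lo + HH Z θ - 2 * Z) = Real.exp (lo + HH Z θ) * Real.exp (-(2 * Z)) := by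
      rw [← Real.exp_add]
      congr 1
    rw [a2]
    calc Real.exp (lo + HH Z θ) * Real.exp (-(2 * (Z : ℝ)))
        ≤ Real.exp (2 * Z) * vol (Nc N c) * Real.exp (-(2 * (Z : ℝ))) :=
          mul_le_mul_of_nonneg_right a1 (Real.exp_pos _).le
      _ = vol (Nc N c) * (Real.exp (2 * Z) * Real.exp (-(2 * (Z : ℝ)))) := by ring
      _ = vol (Nc N c) := by
          rw [← Real.exp_add]
          simp
  have hbe0 : 0 ≤ be Z θ := by
    unfold be
    nlinarith
  have hw := hZ1 Z hZZ1 r κ τ m (Nc N c) (UC N c U) (be Z θ) ((Z : ℝ) ^ 38) hrZ hκ2 hκZ hρZ hchc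
    (hNTc _ hNT) hNc (by
      refine hvolle.trans (hvhi.trans (Real.exp_le_exp.mpr ?_))
      linarith) hbe0 (by linarith) (by
      refine le_trans (Real.exp_le_exp.mpr ?_) hLlow
      unfold be HH
      linarith)
  rcases hw with ⟨T, hT1, hT2, hT3, hT4⟩ | ⟨Q, cc, t, hQ, hcr⟩
  · right
    refine ⟨T, hT1, hT2, le_trans ?_ hT3, hT4⟩
    apply mul_le_mul_of_nonneg_right _ hL.le
    apply Real.exp_le_exp.mpr
    have a1 : be Z θ + 2 * (Z : ℝ) ^ 38 + 2 * Z + 3 * (Z : ℝ) ^ 35 ≤ GG Z θ := by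
      unfold be GG
      linarith
    have a2 : (0 : ℝ) ≤ m := Nat.cast_nonneg m
    have a3 := mul_le_mul_of_nonneg_left a1 a2
    linarith
  · left
    -- data for UNI
    set E : ℝ := be Z θ + 2 * (Z : ℝ) ^ 38 + 2 * Z + (Z : ℝ) ^ 35 with hE
    set F : ℝ := be Z θ / 2 + (Z : ℝ) ^ 38 + 3 * Z + (Z : ℝ) ^ 35 with hF
    have hQv0 : ∀ i, 0 < (Q i).v := by
      intro i
      exact lt_of_lt_of_le (mul_pos (Real.exp_pos _) hL) (hQ i).2.2.2
    have hPc : ∀ i, (((Q i).bx (cc i)).card : ℝ) = (Q i).v := fun i =>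
      (h3 r κ (Nc N c) (UC N c U) (Q i) (cc i) (t i) hchc).2.2.2.1
    have hrcx : ∀ i, RCX (UC N c U) W (Real.exp θ / (((Q i).bx (cc i)).card : ℝ))
        fun t x => τ ≤ t ∧ x ∈ (Q i).bx (cc i) := by
      intro i
      obtain ⟨p1, p2, p3, p4, p5⟩ :=
        h3 r κ (Nc N c) (UC N c U) (Q i) (cc i) (t i) hchc
      obtain ⟨q1, q2, q3, q4⟩ := hQ i
      have hvolQ : vol (Q i).M = (Q i).v := rfl
      have hup : (Q i).v ≤ Real.exp hi := by
        have a1 : ((UC N c U (t i) ∩ (Q i).bx (cc i)).card : ℝ) ≤ vol (Nc N c) := by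
          rw [← box_card]
          exact_mod_cast Finset.card_le_card (Finset.inter_subset_left.trans (hchc.sub (t i)))
        have a2 : Real.exp (-((Z : ℝ) ^ 35)) * (Q i).v ≤ Real.exp (hi - (Z : ℝ) ^ 36) :=
          q3.trans (a1.trans (hvolle.trans hvhi))
        have a3 : (Q i).v = Real.exp ((Z : ℝ) ^ 35) * (Real.exp (-((Z : ℝ) ^ 35)) * (Q i).v) := by
          rw [← mul_assoc, ← Real.exp_add]
          simp
        rw [a3]
        calc Real.exp ((Z : ℝ) ^ 35) * (Real.exp (-((Z : ℝ) ^ 35)) * (Q i).v)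
            ≤ Real.exp ((Z : ℝ) ^ 35) * Real.exp (hi - (Z : ℝ) ^ 36) :=
              mul_le_mul_of_nonneg_left a2 (Real.exp_pos _).le
          _ = Real.exp ((Z : ℝ) ^ 35 + (hi - (Z : ℝ) ^ 36)) := by rw [Real.exp_add]
          _ ≤ Real.exp hi := by
              apply Real.exp_le_exp.mpr
              linarith
      have hlow : Real.exp lo ≤ (Q i).v := by
        refine le_trans ?_ q4
        calc Real.exp lo ≤ Real.exp (-E + (lo + HH Z θ - 2 * Z)) := by
              apply Real.exp_le_exp.mpr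
              rw [hE]
              unfold be HH
              linarith
          _ = Real.exp (-E) * Real.exp (lo + HH Z θ - 2 * Z) := by rw [Real.exp_add]
          _ ≤ Real.exp (-E) * vol (Nc N c) :=
              mul_le_mul_of_nonneg_left hLlow (Real.exp_pos _).le
      have hdens : Real.exp (-((Z : ℝ) ^ 35)) * vol (Q i).M ≤
          (((Q i).pb (cc i) (fun s => UC N c U (t i + s)) 0).card : ℝ) := by
        rw [hvolQ, p2 0]
        simpa using q3
      have hrc := hPI (Q i).d (Q i).M ((Q i).pb (cc i) fun s => UC N c U (t i + s))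
        (q2.trans hrR) (Q i).pos p1 (p3 _ (hNTc _ hNT)) (by rw [hvolQ]; exact hlow)
        (by rw [hvolQ]; exact hup) hdens
      rw [hPc i]
      rw [hvolQ] at hrc
      have hnn : 0 ≤ Real.exp θ / (Q i).v := (div_pos (Real.exp_pos _) (hQv0 i)).le
      refine rcx_mono (p5 W _ _ hnn (rc_rcx hrc)) ?_
      rintro s y ⟨t0, u, rfl, hu, rfl, -⟩
      refine ⟨by omega, ?_⟩
      unfold SG.bx
      exact Finset.mem_image_of_mem _ hu
    have hmain := h2 r κ m τ N c U (Real.exp Z) (Real.exp (-(bb Z θ)) * vol N)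
      (Real.exp F / vol (Nc N c)) (Real.exp θ) (Real.exp (-E) * vol (Nc N c)) W
      (fun i => (Q i).bx (cc i)) hch hN hNT (Real.exp_pos _).le (by positivity) (by positivity)
      (Real.exp_pos _).le (by positivity) hU (fun i => by
        rw [hPc i]
        exact (hQ i).2.2.2) hrcx (fun i j hij y => by
        rw [hPc i, hPc j]
        have a1 := hcr i j hij y
        rw [div_mul_eq_mul_div, div_mul_eq_mul_div, le_div_iff₀ hL]
        exact a1)
    refine rc_mono hmain ?_ ?_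
    · have a1 := num1 (m : ℝ) θ E F (bb Z θ) (HH Z θ) (vol (Nc N c)) (vol N) (Z : ℝ) hL hVN
        (Nat.cast_nonneg m) hmr (by linarith) hVL
        (le_trans (Real.exp_le_exp.mpr (by linarith)) hvlo)
        (by
          rw [hF]
          unfold bb be
          linarith)
        (by
          rw [hE]
          unfold HH be
          linarith)
      linarith
    · exact num2 (m : ℝ) θ (GG Z θ) E (vol (Nc N c)) (vol N) (Z : ℝ) hL hVN hmr hVL (by
        rw [hE]
        unfold GG be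
        linarith)

end Pool.Agent.EMS
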