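import Pool.Agent.EMS.StmtsD

/-!
# EMS, module XQM: random certificates after time tau (from DPL, PUL, TRU)
-/

set_option autoImplicit false

open Finset
open scoped BigOperators Classical

namespace Pool.Agent.EMS

namespace XQM_

lemma rcx_mono {r : ℕ} {U : ℕ → Finset (Fin r → ℤ)} {W W' s s' : ℝ}
    {P P' : ℕ → (Fin r → ℤ) → Prop} (h : RCX U W s P) (hW : W' ≤ W) (hs : s ≤ s')
    (hP : ∀ t x, P t x → P' t x) : RCX U W' s' P' := by
  obtain ⟨Ω, i, p, X, T, h1, h2, h3, h4, h5, h6⟩ := h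
  exact ⟨Ω, i, p, X, T, h1, h2, h3, fun ω t x hx => hP _ _ (h4 ω t x hx),
    fun t x => le_trans (h5 t x) hs, le_trans hW h6⟩

/-- the box `N` as a symmetric GAP -/
def idSG {r : ℕ} (N : Fin r → ℕ) (hN : ∀ l, 1 ≤ N l) : SG r where
  d := r
  φ := LinearMap.id
  M := N
  pos := hN
  proper := fun _ _ h => h

lemma idSG_sy {r : ℕ} (N : Fin r → ℕ) (hN : ∀ l, 1 ≤ N l) (y w : Fin r → ℤ) :
    w ∈ (idSG N hN).sy y ↔ ∀ l, |w l - y l| ≤ (N l : ℤ) := by
  unfold SG.sy
  rw [Finset.mem_image]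
  constructor
  · rintro ⟨u, hu, rfl⟩ l
    have h1 := (Fintype.mem_piFinset (t := fun l : Fin r => Finset.Icc (-(N l : ℤ)) (N l))
      (f := (u : Fin r → ℤ))).1 hu
    have h2 := Finset.mem_Icc.1 (h1 l)
    change |y l + u l - y l| ≤ (N l : ℤ)
    rw [add_sub_cancel_left, abs_le]
    exact h2
  · intro h
    refine ⟨w - y, ?_, ?_⟩
    · change w - y ∈ Fintype.piFinset fun l => Finset.Icc (-(N l : ℤ)) (N l)
      rw [Fintype.mem_piFinset]
      intro l
      rw [Finset.mem_Icc, ← abs_le]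
      exact h l
    · change y + (w - y) = w
      abel

lemma mem_box {r : ℕ} {N : Fin r → ℕ} {w : Fin r → ℤ} :
    w ∈ box N ↔ ∀ l, 0 ≤ w l ∧ w l < N l := by
  unfold box
  rw [Fintype.mem_piFinset]
  simp only [Finset.mem_Ico]

lemma card_box {r : ℕ} (N : Fin r → ℕ) : ((box N).card : ℝ) = vol N := by
  unfold box vol
  rw [Fintype.card_piFinset]
  simp

lemma sv_le {r : ℕ} (N : Fin r → ℕ) (hN : ∀ l, 1 ≤ N l) :
    (idSG N hN).sv ≤ 3 ^ r * vol N := by
  have h1 : (3 : ℝ) ^ r * vol N = ∏ l : Fin r, (3 * (N l : ℝ)) := by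
    unfold vol
    rw [Finset.prod_mul_distrib, Finset.prod_const, Finset.card_univ, Fintype.card_fin]
  rw [h1]
  change ∏ l : Fin r, (2 * (N l : ℝ) + 1) ≤ _
  apply Finset.prod_le_prod
  · intro l _; positivity
  · intro l _
    have : (1 : ℝ) ≤ N l := by exact_mod_cast hN l
    linarith

end XQM_

open XQM_ in
theorem xqm_proof (h1 : Stmt_DPL) (h2 : Stmt_PUL) (h3 : Stmt_TRU) : Stmt_XQM := by
  obtain ⟨Z0, hDPL⟩ := h1
  refine ⟨max Z0 10, ?_⟩
  intro Z hZ κ R W θ lo hi hPI hθ hlo hhi hκ hlκ r τ N U hrR hrZ hN hU hNT hUτ hvl hvu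
  have hZ0 : Z0 ≤ Z := le_trans (le_max_left _ _) hZ
  have hZ10 : (10 : ℝ) ≤ Z := by exact_mod_cast le_trans (le_max_right _ _) hZ
  -- powers of Z
  have p35 : (Z : ℝ) ≤ (Z : ℝ) ^ 35 := le_self_pow₀ (by linarith) (by norm_num)
  have p36 : (Z : ℝ) ^ 36 = Z * (Z : ℝ) ^ 35 := by ring
  have p37 : (Z : ℝ) ^ 37 = Z * (Z : ℝ) ^ 36 := by ring
  have p38 : (Z : ℝ) ^ 38 = Z * (Z : ℝ) ^ 37 := by ring
  have q36 : 10 * (Z : ℝ) ^ 35 ≤ (Z : ℝ) ^ 36 := by
    rw [p36]; exact mul_le_mul_of_nonneg_right hZ10 (by positivity)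
  have q37 : 10 * (Z : ℝ) ^ 36 ≤ (Z : ℝ) ^ 37 := by
    rw [p37]; exact mul_le_mul_of_nonneg_right hZ10 (by positivity)
  have q38 : 10 * (Z : ℝ) ^ 37 ≤ (Z : ℝ) ^ 38 := by
    rw [p38]; exact mul_le_mul_of_nonneg_right hZ10 (by positivity)
  clear p36 p37 p38
  have hvpos : 0 < vol N := lt_of_lt_of_le (Real.exp_pos _) hvl
  set β : ℝ := bb Z θ + 2 * Z with hβ
  have hβv : β = 6 * θ + 10 * (Z : ℝ) ^ 38 + 2 * Z := by rw [hβ]; unfold bb; ring
  have hβ0 : 0 ≤ β := by rw [hβv]; linarith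
  have hsub : (idSG N hN).sy 0 ⊆ sbox N := by
    intro w hw
    rw [idSG_sy] at hw
    unfold sbox
    rw [Fintype.mem_piFinset]
    intro l
    rw [Finset.mem_Icc, ← abs_le]
    have := hw l
    simpa using this
  have hvolexp : vol N ≤ Real.exp (Real.exp Z) := by
    refine le_trans hvu (Real.exp_le_exp.2 ?_)
    have : (0 : ℝ) ≤ (Z : ℝ) ^ 36 := by positivity
    linarith
  have hbig : Real.exp (β + 2 * 0 + (Z : ℝ) ^ 36) ≤ vol N := by
    refine le_trans (Real.exp_le_exp.2 ?_) hvl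
    rw [hβv]; unfold HH
    linarith
  have hcount : Real.exp (-0) * vol N ≤ (((ebox N).filter fun y =>
      Real.exp (-β) * (idSG N hN).sv ≤ ((U τ ∩ (idSG N hN).sy y).card : ℝ)).card : ℝ) := by
    rw [neg_zero, Real.exp_zero, one_mul, ← card_box N]
    apply Nat.cast_le.2
    apply Finset.card_le_card
    intro y hy
    rw [Finset.mem_filter]
    have hy' := mem_box.1 hy
    constructor
    · unfold ebox
      rw [Fintype.mem_piFinset]
      intro l
      rw [Finset.mem_Icc]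
      have := hy' l
      omega
    · have e1 : U τ ∩ (idSG N hN).sy y = U τ := by
        rw [Finset.inter_eq_left]
        intro w hw
        have hw' := mem_box.1 (hU.sub τ hw)
        rw [idSG_sy]
        intro l
        have a1 := hw' l
        have a2 := hy' l
        rw [abs_le]
        omega
      rw [e1]
      refine le_trans ?_ hUτ
      have e2 : (3 : ℝ) ^ r ≤ Real.exp (2 * Z) := by
        have b1 : (3 : ℝ) ≤ Real.exp 2 := by
          have := Real.add_one_le_exp (2 : ℝ)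
          linarith
        calc (3 : ℝ) ^ r ≤ 3 ^ Z := pow_le_pow_right₀ (by norm_num) hrZ
          _ ≤ (Real.exp 2) ^ Z := pow_le_pow_left₀ (by norm_num) b1 _
          _ = Real.exp (2 * Z) := by rw [← Real.exp_nat_mul]; congr 1; ring
      calc Real.exp (-β) * (idSG N hN).sv ≤ Real.exp (-β) * (3 ^ r * vol N) :=
            mul_le_mul_of_nonneg_left (sv_le N hN) (Real.exp_pos _).le
        _ ≤ Real.exp (-β) * (Real.exp (2 * Z) * vol N) := by
            apply mul_le_mul_of_nonneg_left _ (Real.exp_pos _).le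
            exact mul_le_mul_of_nonneg_right e2 hvpos.le
        _ = Real.exp (-(bb Z θ)) * vol N := by
            rw [← mul_assoc, ← Real.exp_add, hβ]; congr 2; ring
  obtain ⟨t, Q, c, hτt, _, hQd, hQU, hQv, _⟩ := hDPL Z hZ0 r κ τ N U (idSG N hN) β 0 hrZ hrZ hκ hlκ
    hU hN hvolexp hsub hβ0 le_rfl hbig hcount
  obtain ⟨c1, c2, c3, _, c5⟩ := h2 r κ N U Q c t hU
  set V : ℕ → Finset (Fin Q.d → ℤ) := Q.pb c fun s => U (t + s) with hV
  have hvolQ : vol Q.M = Q.v := rfl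
  have hQv' : Real.exp (-(β + (Z : ℝ) ^ 35)) * vol N ≤ Q.v := by
    refine le_trans (le_of_eq ?_) hQv
    congr 2; ring
  have hQpos : 0 < Q.v := lt_of_lt_of_le (mul_pos (Real.exp_pos _) hvpos) hQv'
  have hNTV : NT V (Real.exp Z) := c3 _ hNT
  have hlow : Real.exp lo ≤ vol Q.M := by
    rw [hvolQ]
    refine le_trans ?_ hQv'
    refine le_trans ?_ (mul_le_mul_of_nonneg_left hvl (Real.exp_pos _).le)
    rw [← Real.exp_add]
    apply Real.exp_le_exp.2
    rw [hβv]; unfold HH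
    linarith
  have hUcard : ∀ s, ((U s).card : ℝ) ≤ vol N := by
    intro s
    rw [← card_box N]
    exact_mod_cast Finset.card_le_card (hU.sub s)
  have hup : vol Q.M ≤ Real.exp hi := by
    rw [hvolQ]
    have a1 : Real.exp (-((Z : ℝ) ^ 35)) * Q.v ≤ vol N := by
      refine le_trans hQU (le_trans ?_ (hUcard t))
      exact_mod_cast Finset.card_le_card Finset.inter_subset_left
    have a2 : Q.v = Real.exp ((Z : ℝ) ^ 35) * (Real.exp (-((Z : ℝ) ^ 35)) * Q.v) := by
      rw [← mul_assoc, ← Real.exp_add]; simp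
    rw [a2]
    calc Real.exp ((Z : ℝ) ^ 35) * (Real.exp (-((Z : ℝ) ^ 35)) * Q.v)
        ≤ Real.exp ((Z : ℝ) ^ 35) * Real.exp (hi - (Z : ℝ) ^ 36) :=
          mul_le_mul_of_nonneg_left (le_trans a1 hvu) (Real.exp_pos _).le
      _ = Real.exp ((Z : ℝ) ^ 35 + (hi - (Z : ℝ) ^ 36)) := by rw [Real.exp_add]
      _ ≤ Real.exp hi := by
          apply Real.exp_le_exp.2
          have : (0 : ℝ) ≤ (Z : ℝ) ^ 35 := by positivity
          linarith
  have hV0 : Real.exp (-((Z : ℝ) ^ 35)) * vol Q.M ≤ ((V 0).card : ℝ) := by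
    rw [c2 0, hvolQ]
    exact hQU
  have hRC : RC V W (Real.exp θ / vol Q.M) :=
    hPI Q.d Q.M V (le_trans hQd hrR) Q.pos c1 hNTV hlow hup hV0
  have hs0 : 0 ≤ Real.exp θ / vol Q.M := by rw [hvolQ]; positivity
  have hRCX := h3 Q.d Q.M V (Real.exp Z) W (Real.exp θ / vol Q.M) (θ + 2 * Z) hNTV hs0
    (Real.exp_pos _).le hRC
  have hloss : Real.exp (Z : ℝ) * (Real.exp (-(θ + 2 * Z)) * vol Q.M * (Real.exp θ / vol Q.M)) =
      Real.exp (-Z) := by
    rw [hvolQ]
    have : Real.exp (-(θ + 2 * Z)) * Q.v * (Real.exp θ / Q.v) =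
        Real.exp (-(θ + 2 * Z)) * Real.exp θ := by field_simp
    rw [this, ← Real.exp_add, ← Real.exp_add]; congr 1; ring
  rw [hloss] at hRCX
  have hpush := c5 _ _ _ hs0 hRCX
  refine rcx_mono hpush le_rfl ?_ ?_
  · rw [hvolQ, div_le_div_iff₀ hQpos hvpos]
    calc Real.exp θ * vol N = Real.exp (θ + (β + (Z : ℝ) ^ 35)) *
          (Real.exp (-(β + (Z : ℝ) ^ 35)) * vol N) := by
          rw [← mul_assoc, ← Real.exp_add]; congr 2; ring
      _ ≤ Real.exp (θ + (β + (Z : ℝ) ^ 35)) * Q.v :=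
          mul_le_mul_of_nonneg_left hQv' (Real.exp_pos _).le
      _ ≤ Real.exp (GG Z θ) * Q.v := by
          apply mul_le_mul_of_nonneg_right _ hQpos.le
          apply Real.exp_le_exp.2
          rw [hβv]; unfold GG
          linarith
  · rintro t' x ⟨t0, u, ht', _, _, t'', ht'', hal⟩
    refine ⟨by omega, t + t'', by omega, ?_⟩
    have a1 : ((V t'').card : ℝ) ≤ ((U (t + t'')).card : ℝ) := by
      rw [c2 t'']
      exact_mod_cast Finset.card_le_card Finset.inter_subset_left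
    refine le_trans ?_ (le_trans hal a1)
    rw [hvolQ]
    calc Real.exp (-(be Z θ)) * vol N
        ≤ Real.exp (-(θ + 2 * Z) + -(β + (Z : ℝ) ^ 35)) * vol N := by
          apply mul_le_mul_of_nonneg_right _ hvpos.le
          apply Real.exp_le_exp.2
          rw [hβv]; unfold be
          linarith
      _ = Real.exp (-(θ + 2 * Z)) * (Real.exp (-(β + (Z : ℝ) ^ 35)) * vol N) := by
          rw [Real.exp_add]; ring
      _ ≤ Real.exp (-(θ + 2 * Z)) * Q.v :=
          mul_le_mul_of_nonneg_left hQv' (Real.exp_pos _).le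

end Pool.Agent.EMS
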