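import Pool.Agent.EMS.StmtsA

set_option autoImplicit false

/-!
Module ZRZ: transfer of GAPs in `2A - 2A` from `ℤ` to `ℤ^r` through base `Q` expansion.
-/

open Finset
open scoped BigOperators Classical Pointwise

namespace Pool.Agent.EMS

namespace ZRZ_

/-- base `Q` expansion has small kernel -/
theorem kill (r : ℕ) (Q : ℤ) : ∀ (z : Fin r → ℤ), (∀ l, 2 * |z l| < Q) →
    (∑ l, z l * Q ^ (l : ℕ)) = 0 → z = 0 := by
  induction r with
  | zero => intro z _ _; exact Subsingleton.elim _ _
  | succ r ih =>
    intro z hz h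
    rw [Fin.sum_univ_succ] at h
    simp only [Fin.val_zero, pow_zero, mul_one, Fin.val_succ] at h
    have h1 : ∑ l : Fin r, z l.succ * Q ^ ((l : ℕ) + 1) = Q * ∑ l : Fin r, z l.succ * Q ^ (l : ℕ) := by
      rw [Finset.mul_sum]
      exact Finset.sum_congr rfl fun l _ => by ring
    rw [h1] at h
    have hd : Q ∣ z 0 := ⟨-∑ l : Fin r, z l.succ * Q ^ (l : ℕ), by linarith⟩
    have h00 := hz 0
    have hQ : 0 < Q := by
      have := abs_nonneg (z 0)
      linarith
    have h0 : z 0 = 0 := by
      apply Int.eq_zero_of_abs_lt_dvd hd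
      have := abs_nonneg (z 0)
      linarith
    rw [h0, zero_add] at h
    have h2 : ∑ l : Fin r, z l.succ * Q ^ (l : ℕ) = 0 := by
      rcases mul_eq_zero.1 h with h3 | h3
      · exact absurd h3 hQ.ne'
      · exact h3
    have h3 := ih (fun l => z l.succ) (fun l => hz l.succ) h2
    ext l
    refine Fin.cases h0 (fun j => ?_) l
    exact congrFun h3 j

/-- the homomorphism -/
def hom (r : ℕ) (Q : ℤ) : (Fin r → ℤ) →+ ℤ where
  toFun z := ∑ l, z l * Q ^ (l : ℕ)
  map_zero' := by simp
  map_add' x y := by
    simp only [Pi.add_apply, add_mul]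
    rw [Finset.sum_add_distrib]

theorem hom_kill {r : ℕ} {Q : ℤ} {z : Fin r → ℤ} (hz : ∀ l, 2 * |z l| < Q)
    (h : hom r Q z = 0) : z = 0 := kill r Q z hz h

theorem img_sub {r : ℕ} (f : (Fin r → ℤ) →+ ℤ) (s t : Finset (Fin r → ℤ)) :
    (s - t).image f = s.image f - t.image f := image_image₂_distrib (map_sub f)

/-- `x` is bounded by `R` -/
def Bd {r : ℕ} (R : ℤ) (x : Fin r → ℤ) : Prop := ∀ l, |x l| ≤ R

theorem Bd.add {r : ℕ} {R S : ℤ} {x y : Fin r → ℤ} (hx : Bd R x) (hy : Bd S y) :
    Bd (R + S) (x + y) := fun l => (abs_add_le _ _).trans (add_le_add (hx l) (hy l))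

theorem Bd.sub {r : ℕ} {R S : ℤ} {x y : Fin r → ℤ} (hx : Bd R x) (hy : Bd S y) :
    Bd (R + S) (x - y) := fun l => (abs_sub _ _).trans (add_le_add (hx l) (hy l))

theorem Bd.smul {r : ℕ} {R : ℤ} {x : Fin r → ℤ} (s : ℤ) (hs : |s| ≤ 1)
    (hx : Bd R x) : Bd R (s • x) := by
  intro l
  rw [Pi.smul_apply, smul_eq_mul, abs_mul]
  have := hx l
  have h2 := abs_nonneg (x l)
  nlinarith

theorem exists_Bd {r : ℕ} (A : Finset (Fin r → ℤ)) : ∃ R : ℤ, 0 ≤ R ∧ ∀ x ∈ A, Bd R x := by
  refine ⟨∑ x ∈ A, ∑ l, |x l|, Finset.sum_nonneg fun x _ => Finset.sum_nonneg fun l _ =>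
    abs_nonneg _, ?_⟩
  intro x hx l
  calc |x l| ≤ ∑ l, |x l| := Finset.single_le_sum (f := fun l => |x l|)
        (fun l _ => abs_nonneg _) (Finset.mem_univ l)
    _ ≤ ∑ x ∈ A, ∑ l, |x l| := Finset.single_le_sum (f := fun x : Fin r → ℤ => ∑ l, |x l|)
        (fun x _ => Finset.sum_nonneg fun l _ => abs_nonneg _) hx

end ZRZ_

open ZRZ_ in
theorem zrz_proof : Stmt_ZRZ := by
  intro r A hA
  obtain ⟨R, hR0, hR⟩ := exists_Bd A
  set Q : ℤ := 32 * R + 2 with hQ
  set i := hom r Q with hi
  have hkill : ∀ z : Fin r → ℤ, Bd (12 * R) z → i z = 0 → z = 0 := by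
    intro z hz h
    refine hom_kill (fun l => ?_) h
    have := hz l
    omega
  have hinjsub : ∀ x y : Fin r → ℤ, ∀ {S : ℤ}, Bd S (x - y) → S ≤ 12 * R → i x = i y → x = y := by
    intro x y S hb hS h
    have h1 : i (x - y) = 0 := by rw [map_sub, h, sub_self]
    have h2 := hkill (x - y) (fun l => (hb l).trans hS) h1
    exact sub_eq_zero.1 h2
  have hB : ∀ x ∈ A + A - A - A, Bd (4 * R) x := by
    intro x hx
    obtain ⟨y, hy, d, hd, rfl⟩ := Finset.mem_sub.1 hx
    obtain ⟨y2, hy2, c, hc, rfl⟩ := Finset.mem_sub.1 hy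
    obtain ⟨a, ha, b, hb, rfl⟩ := Finset.mem_add.1 hy2
    have h1 := (((hR a ha).add (hR b hb)).sub (hR c hc)).sub (hR d hd)
    intro l
    have := h1 l
    linarith
  refine ⟨i, ?_, ?_, ?_⟩
  · intro x hx y hy h
    exact hinjsub x y ((hR x hx).sub (hR y hy)) (by linarith) h
  · rw [← img_sub]
    refine Finset.card_image_of_injOn ?_
    intro x hx y hy h
    obtain ⟨a, ha, b, hb, rfl⟩ := Finset.mem_sub.1 (Finset.mem_coe.1 hx)
    obtain ⟨c, hc, d, hd, rfl⟩ := Finset.mem_sub.1 (Finset.mem_coe.1 hy)
    exact hinjsub _ _ (((hR a ha).sub (hR b hb)).sub ((hR c hc).sub (hR d hd))) (by linarith) h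
  · intro m g M hM hu
    have himg : A.image i + A.image i - A.image i - A.image i = (A + A - A - A).image i := by
      rw [img_sub, img_sub, Finset.image_add]
    rw [himg] at hu
    have hlift : ∀ u : Fin m → ℤ, (∀ l, |u l| ≤ 8 * (M l : ℤ)) →
        ∃ x ∈ A + A - A - A, i x = ∑ l, u l * g l := by
      intro u hul
      exact Finset.mem_image.1 (hu u hul).1
    have hsing : ∀ l : Fin m, ∃ x ∈ A + A - A - A, i x = g l := by
      intro l
      obtain ⟨x, hx, hxe⟩ := hlift (Pi.single l 1) (by
        intro j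
        rcases eq_or_ne j l with rfl | hj
        · have := hM j
          simp
          omega
        · simp [Pi.single_eq_of_ne hj])
      refine ⟨x, hx, ?_⟩
      rw [hxe]
      simp [Pi.single_apply]
    choose G hGB hGi using hsing
    have hiG : ∀ u : Fin m → ℤ, i (∑ l, u l • G l) = ∑ l, u l * g l := by
      intro u
      rw [map_sum]
      refine Finset.sum_congr rfl fun l _ => ?_
      rw [map_zsmul, hGi, smul_eq_mul]
    have key : ∀ (k : ℕ) (u : Fin m → ℤ), (∑ l, (u l).natAbs) = k →
        (∀ l, |u l| ≤ 8 * (M l : ℤ)) → (∑ l, u l • G l) ∈ A + A - A - A := by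
      intro k
      induction k using Nat.strong_induction_on with
      | _ k ih =>
        intro u hk hul
        obtain ⟨x, hx, hxe⟩ := hlift u hul
        suffices hxu : x = ∑ l, u l • G l by rwa [← hxu]
        by_cases h0 : u = 0
        · subst h0
          simp only [Pi.zero_apply, zero_mul, zero_smul, Finset.sum_const_zero] at hxe ⊢
          exact hkill x (fun l => ((hB x hx) l).trans (by linarith)) hxe
        · obtain ⟨l0, hl0⟩ := Function.ne_iff.1 h0
          simp only [Pi.zero_apply] at hl0
          obtain ⟨s, hs1, hs2, hs3⟩ : ∃ s : ℤ, |s| ≤ 1 ∧ |u l0 - s| ≤ |u l0| ∧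
              (u l0 - s).natAbs < (u l0).natAbs := by
            rcases lt_or_gt_of_ne hl0 with h | h
            · refine ⟨-1, by norm_num, ?_, by omega⟩
              rw [abs_of_neg h]
              rw [abs_of_nonpos (by omega)]
              omega
            · refine ⟨1, by norm_num, ?_, by omega⟩
              rw [abs_of_pos h, abs_of_nonneg (by omega)]
              omega
          set u' : Fin m → ℤ := Function.update u l0 (u l0 - s) with hu'
          have hu'l : ∀ l, |u' l| ≤ 8 * (M l : ℤ) := by
            intro l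
            rcases eq_or_ne l l0 with rfl | hl
            · rw [hu', Function.update_self]
              have := hul l
              omega
            · rw [hu', Function.update_of_ne hl]
              exact hul l
          have hlt : ∑ l, (u' l).natAbs < k := by
            rw [← hk]
            refine Finset.sum_lt_sum (fun l _ => ?_) ⟨l0, Finset.mem_univ _, ?_⟩
            · rcases eq_or_ne l l0 with rfl | hl
              · rw [hu', Function.update_self]
                omega
              · rw [hu', Function.update_of_ne hl]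
            · rw [hu', Function.update_self]
              omega
          have hmem := ih _ hlt u' rfl hu'l
          have hsum : ∑ l, u l • G l = ∑ l, u' l • G l + s • G l0 := by
            have h1 : ∀ l, u l • G l = u' l • G l + (if l = l0 then s • G l0 else 0) := by
              intro l
              rcases eq_or_ne l l0 with rfl | hl
              · rw [hu', Function.update_self, if_pos rfl, ← add_smul, sub_add_cancel]
              · rw [hu', Function.update_of_ne hl, if_neg hl, add_zero]
            rw [Finset.sum_congr rfl fun l _ => h1 l, Finset.sum_add_distrib,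
              Finset.sum_ite_eq' Finset.univ l0, if_pos (Finset.mem_univ _)]
          have hb : Bd (4 * R + (4 * R + 4 * R)) (x - (∑ l, u' l • G l + s • G l0)) :=
            (hB x hx).sub ((hB _ hmem).add (Bd.smul s hs1 (hB _ (hGB l0))))
          rw [hsum]
          refine hinjsub _ _ hb (by linarith) ?_
          rw [← hsum, hiG, hxe]
    refine ⟨G, fun u hul => ⟨key _ u rfl hul, fun h => ?_⟩⟩
    apply (hu u hul).2
    rw [← hiG, h, map_zero]

end Pool.Agent.EMS
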